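import Pool.Agent.CRN.St

/-!
Campaign CRN, module Crg: the criterion for critical rings (after `CRR/CritN.lean`).
-/

set_option autoImplicit false

namespace Pool.Agent.CRN

open Pool.Agent.CRR

private theorem Crg_zero {R : Type} [NonUnitalRing R] (v : ℕ → R) :
    (RTerm.add (.var 0) (.neg (.var 0))).eval v = 0 := add_neg_cancel (v 0)

theorem thm_Crg : St_Crg := by
  intro R _ _ H hH φ hφ hmem hex hsub
  obtain ⟨t, ht⟩ := hφ
  refine critical_of_exists t (.add (.var 0) (.neg (.var 0))) ?_ ?_
  · intro F _ hF hne v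
    rw [Crg_zero]
    by_contra hcon
    obtain ⟨S, f, hf⟩ := hF
    choose u hu using hf
    have e1 : t.eval v = f (t.eval (fun i => u (v i))) := by
      rw [eval_map]
      congr 1
      funext i
      exact (hu (v i)).symm
    have e2 : ((t.eval (fun i => u (v i)) : S) : R) = φ (fun i => ((u (v i) : S) : R)) := by
      rw [eval_coe, ht]
    have e3 : φ (fun i => ((u (v i) : S) : R)) ≠ 0 := by
      intro e
      apply hcon
      rw [e1]
      have : t.eval (fun i => u (v i)) = 0 := Subtype.ext (e2.trans e)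
      rw [this, map_zero]
    have hS : S = ⊤ := by
      by_contra hS
      exact e3 (hsub S hS _ fun i => (u (v i)).2)
    have hall : ∀ x : R, x ∈ S := by
      intro x
      rw [hS]
      exact NonUnitalSubring.mem_top x
    let I : AddSubgroup R :=
      { carrier := {x | f ⟨x, hall x⟩ = 0}
        add_mem' := by
          intro a b ha hb
          have h1 : (⟨a + b, hall (a + b)⟩ : S) = ⟨a, hall a⟩ + ⟨b, hall b⟩ := rfl
          show f ⟨a + b, hall (a + b)⟩ = 0
          rw [h1, map_add, show f ⟨a, hall a⟩ = 0 from ha, show f ⟨b, hall b⟩ = 0 from hb,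
            add_zero]
        zero_mem' := by
          have h1 : (⟨0, hall 0⟩ : S) = 0 := rfl
          show f ⟨0, hall 0⟩ = 0
          rw [h1, map_zero]
        neg_mem' := by
          intro a ha
          have h1 : (⟨-a, hall (-a)⟩ : S) = -⟨a, hall a⟩ := rfl
          show f ⟨-a, hall (-a)⟩ = 0
          rw [h1, map_neg, show f ⟨a, hall a⟩ = 0 from ha, neg_zero] }
    have hI : Idl R I := by
      intro r x hx
      constructor
      · have h1 : (⟨r * x, hall (r * x)⟩ : S) = ⟨r, hall r⟩ * ⟨x, hall x⟩ := rfl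
        show f ⟨r * x, hall (r * x)⟩ = 0
        rw [h1, map_mul, show f ⟨x, hall x⟩ = 0 from hx, mul_zero]
      · have h1 : (⟨x * r, hall (x * r)⟩ : S) = ⟨x, hall x⟩ * ⟨r, hall r⟩ := rfl
        show f ⟨x * r, hall (x * r)⟩ = 0
        rw [h1, map_mul, show f ⟨x, hall x⟩ = 0 from hx, zero_mul]
    have hbot : I = ⊥ := by
      by_contra hI0
      have h1 : φ (fun i => ((u (v i) : S) : R)) ∈ I := hH.2.2 I hI hI0 (hmem _)
      have h2 : f ⟨φ (fun i => ((u (v i) : S) : R)), hall _⟩ = 0 := h1
      apply hcon
      rw [e1, ← h2]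
      congr 1
      exact Subtype.ext e2
    have hinj : Function.Injective f := by
      rw [injective_iff_map_eq_zero]
      intro a ha
      have h1 : (a : R) ∈ I := ha
      rw [hbot, AddSubgroup.mem_bot] at h1
      exact Subtype.ext h1
    have hsurj : Function.Surjective f := fun y => ⟨u y, hu y⟩
    have hvb : Function.Bijective (NonUnitalSubringClass.subtype S) :=
      ⟨Subtype.val_injective, fun x => ⟨⟨x, hall x⟩, rfl⟩⟩
    let E1 : S ≃+* F := RingEquiv.ofBijective f ⟨hinj, hsurj⟩
    let E2 : S ≃+* R := RingEquiv.ofBijective (NonUnitalSubringClass.subtype S) hvb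
    exact hne.false (E1.symm.trans E2)
  · intro h
    obtain ⟨v, hv⟩ := hex
    apply hv
    rw [← ht, h v, Crg_zero]

end Pool.Agent.CRN
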