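import Pool.Agent.CRN.St

/-!
Campaign CRN, module Ppw (helper25): a finite ring with a least nonzero ideal is a `p`-ring.
-/

set_option autoImplicit false

namespace Pool.Agent.CRN

open Pool.Agent.CRR

/-- The elements killed by `m`. -/
def PpwK (R : Type) [NonUnitalRing R] (m : ℕ) : AddSubgroup R where
  carrier := {x | m • x = 0}
  zero_mem' := smul_zero _
  add_mem' := fun {x y} hx hy => by
    change m • (x + y) = 0
    have hx' : m • x = 0 := hx
    have hy' : m • y = 0 := hy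
    rw [smul_add, hx', hy', add_zero]
  neg_mem' := fun {x} hx => by
    change m • (-x) = 0
    have hx' : m • x = 0 := hx
    rw [smul_neg, hx', neg_zero]

theorem Ppw_mem {R : Type} [NonUnitalRing R] {m : ℕ} {x : R} : x ∈ PpwK R m ↔ m • x = 0 :=
  Iff.rfl

theorem Ppw_idl (R : Type) [NonUnitalRing R] (m : ℕ) : Idl R (PpwK R m) := by
  intro r x hx
  rw [Ppw_mem] at hx ⊢
  rw [Ppw_mem]
  exact ⟨by rw [← mul_smul_comm, hx, mul_zero], by rw [← smul_mul_assoc, hx, zero_mul]⟩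

theorem thm_Ppw : St_Ppw := by
  intro R _ _ H hH
  obtain ⟨hI, hne, hleast⟩ := hH
  obtain ⟨h, hhH, hh0⟩ : ∃ h : R, h ∈ H ∧ h ≠ 0 := by
    obtain ⟨a, ha⟩ := AddSubgroup.ne_bot_iff_exists_ne_zero.1 hne
    exact ⟨(a : R), a.2, fun h0 => ha (Subtype.ext h0)⟩
  have hN0 : Nat.card R ≠ 0 := Nat.card_pos.ne'
  have hN : ∀ x : R, Nat.card R • x = 0 := fun x => card_nsmul_eq_zero'
  have hord : addOrderOf h ≠ 1 := fun h1 => hh0 (AddMonoid.addOrderOf_eq_one_iff.1 h1)
  obtain ⟨p, hp, hpd⟩ := Nat.exists_prime_and_dvd hord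
  obtain ⟨c, hc⟩ := hpd
  have hfin : 0 < addOrderOf h := addOrderOf_pos h
  have hc0 : c ≠ 0 := by
    rintro rfl
    rw [mul_zero] at hc
    omega
  -- an element of order `p`
  have hg0 : c • h ≠ 0 := by
    intro h1
    have h2 := Nat.le_of_dvd (Nat.pos_of_ne_zero hc0) (addOrderOf_dvd_of_nsmul_eq_zero h1)
    rw [hc] at h2
    have h3 := hp.two_le
    have h4 : 0 < c := Nat.pos_of_ne_zero hc0
    nlinarith
  have hpg : p • (c • h) = 0 := by
    rw [← mul_smul, ← hc]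
    exact addOrderOf_nsmul_eq_zero h
  have hgH : c • h ∈ H := H.nsmul_mem hhH c
  obtain ⟨r, m, hm, hNm⟩ := Nat.exists_eq_pow_mul_and_not_dvd hN0 p hp.ne_one
  have hbot : PpwK R m = ⊥ := by
    by_contra h1
    have h2 := hleast _ (Ppw_idl R m) h1 hgH
    rw [Ppw_mem] at h2
    apply hg0
    have h3 : addOrderOf (c • h) ∣ m := addOrderOf_dvd_of_nsmul_eq_zero h2
    have h4 : addOrderOf (c • h) ∣ p := addOrderOf_dvd_of_nsmul_eq_zero hpg
    have h5 : Nat.gcd p m = 1 := (hp.coprime_iff_not_dvd).2 hm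
    have h6 : addOrderOf (c • h) ∣ 1 := by
      rw [← h5]
      exact Nat.dvd_gcd h4 h3
    exact AddMonoid.addOrderOf_eq_one_iff.1 (Nat.dvd_one.1 h6)
  have hr : ∀ x : R, (p ^ r) • x = 0 := by
    intro x
    have h1 : (p ^ r) • x ∈ PpwK R m := by
      rw [Ppw_mem, ← mul_smul, mul_comm, ← hNm]
      exact hN x
    rw [hbot, AddSubgroup.mem_bot] at h1
    exact h1
  refine ⟨p, r, hp, hr, ?_⟩
  intro e he
  obtain ⟨hee, he0, hinv⟩ := he
  by_contra hpe
  obtain ⟨y, hey, hye, hxy⟩ := hinv (p • e) (by rw [mul_smul_comm, hee])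
    (by rw [smul_mul_assoc, hee]) hpe
  have h1 : e = p • y := by
    rw [← hxy, smul_mul_assoc, hey]
  have h2 : ∀ j : ℕ, ∃ w : R, e = (p ^ j) • w := by
    intro j
    induction j with
    | zero => exact ⟨e, by rw [pow_zero, one_smul]⟩
    | succ j ih =>
      obtain ⟨w, hw⟩ := ih
      refine ⟨w * y, ?_⟩
      calc e = e * e := hee.symm
        _ = ((p ^ j) • w) * (p • y) := by rw [← hw, ← h1]
        _ = (p ^ (j + 1)) • (w * y) := by
          rw [smul_mul_assoc, mul_smul_comm, ← mul_smul, pow_succ]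
  obtain ⟨w, hw⟩ := h2 r
  rw [hr] at hw
  exact he0 hw

end Pool.Agent.CRN
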