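import Pool.Agent.CRN.St

/-!
Campaign CRN, `St_Sir`: a critical ring has a least nonzero ideal.
-/

set_option autoImplicit false

namespace Pool.Agent.CRN

open Pool.Agent.CRR

/-- The quotient of a ring by an ideal (given as an additive subgroup). -/
theorem Sir_exists_quotient {R : Type} [NonUnitalRing R] (I : AddSubgroup R) (hI : Idl R I) :
    ∃ (F : Type) (_ : NonUnitalRing F) (f : R →ₙ+* F), Function.Surjective f ∧
      ∀ x, f x = 0 ↔ x ∈ I := by
  let T : TwoSidedIdeal R := TwoSidedIdeal.mk' (I : Set R) I.zero_mem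
    (fun hx hy => I.add_mem hx hy) (fun hx => I.neg_mem hx) (fun {x y} hy => (hI x y hy).1)
    (fun {x y} hx => (hI y x hx).2)
  let f : R →ₙ+* T.ringCon.Quotient :=
    { toFun := fun x => (x : T.ringCon.Quotient)
      map_mul' := fun _ _ => rfl
      map_zero' := rfl
      map_add' := fun _ _ => rfl }
  refine ⟨T.ringCon.Quotient, inferInstance, f, ?_, ?_⟩
  · intro y
    obtain ⟨x, hx⟩ := Quotient.exists_rep y
    exact ⟨x, hx⟩
  · intro x
    have h0 : f x = ((0 : R) : T.ringCon.Quotient) ↔ T.ringCon x 0 := RingCon.eq _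
    have h1 : ((0 : R) : T.ringCon.Quotient) = 0 := rfl
    rw [h1] at h0
    rw [h0, TwoSidedIdeal.rel_iff, sub_zero]
    exact TwoSidedIdeal.mem_mk' _ _ _ _ _ _ _

theorem Sir_card_lt {R F : Type} [NonUnitalRing R] [NonUnitalRing F] [Finite R]
    (f : R →ₙ+* F) (hf : Function.Surjective f) (I : AddSubgroup R) (hI : ∀ x, f x = 0 ↔ x ∈ I)
    (hne : I ≠ ⊥) : Nat.card F < Nat.card R := by
  have h1 : Nat.card F ≤ Nat.card R := Nat.card_le_card_of_surjective f hf
  rcases lt_or_eq_of_le h1 with h3 | h3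
  · exact h3
  · exfalso
    have hfb : Function.Bijective f := by
      have : Finite F := Finite.of_surjective f hf
      exact (Nat.bijective_iff_surjective_and_card f).2 ⟨hf, h3.symm⟩
    apply hne
    rw [eq_bot_iff]
    intro x hx
    have : f x = f 0 := by rw [(hI x).2 hx, map_zero]
    exact hfb.1 this

theorem thm_Sir : St_Sir := by
  intro R _ hc
  have hfin := hc.1
  obtain ⟨s, t, h1, h2⟩ := critical_exists hc
  have key : ∀ I : AddSubgroup R, Idl R I → I ≠ ⊥ → ∀ v : ℕ → R, s.eval v - t.eval v ∈ I := by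
    intro I hI hne v
    obtain ⟨F, _, f, hf, hk⟩ := Sir_exists_quotient I hI
    have e1 := h1 F (isFactor_image f hf) (Sir_card_lt f hf I hk hne)
    rw [← hk, map_sub, eval_map, eval_map, e1, sub_self]
  refine ⟨sInf {I : AddSubgroup R | Idl R I ∧ I ≠ ⊥}, ?_, ?_, ?_⟩
  · intro r x hx
    rw [AddSubgroup.mem_sInf] at hx
    constructor
    · rw [AddSubgroup.mem_sInf]
      intro I hI
      exact (hI.1 r x (hx I hI)).1
    · rw [AddSubgroup.mem_sInf]
      intro I hI
      exact (hI.1 r x (hx I hI)).2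
  · intro hbot
    apply h2
    intro v
    have m3 : s.eval v - t.eval v ∈ sInf {I : AddSubgroup R | Idl R I ∧ I ≠ ⊥} := by
      rw [AddSubgroup.mem_sInf]
      intro I hI
      exact key I hI.1 hI.2 v
    rw [hbot, AddSubgroup.mem_bot] at m3
    exact sub_eq_zero.1 m3
  · intro I hI hne
    exact sInf_le ⟨hI, hne⟩

end Pool.Agent.CRN
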