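import Pool.Agent.CRN.St

/-!
Campaign CRN, module Jnl (helper56): a nil ideal of a finite ring is nilpotent.

The initial segments of a long product are not all different, so `P = P y` with `y` in the ideal,
and `P = P y y y = 0`.
-/

set_option autoImplicit false

namespace Pool.Agent.CRN

open Pool.Agent.CRR

theorem Jnl_mul {R : Type} [NonUnitalRing R] (I : AddSubgroup R) (hI : Idl R I) (x : ℕ → R)
    (hx : ∀ i, x i ∈ I) (i k : ℕ) : ∃ y ∈ I, prn x (i + k + 1) = prn x i * y := by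
  induction k with
  | zero => exact ⟨x (i + 1), hx _, rfl⟩
  | succ k ih =>
    obtain ⟨y, hy, h⟩ := ih
    refine ⟨y * x (i + k + 1 + 1), (hI y _ (hx _)).1, ?_⟩
    show prn x (i + k + 1) * x (i + k + 1 + 1) = _
    rw [h, mul_assoc]

theorem Jnl_zero {R : Type} [NonUnitalRing R] (x : ℕ → R) {i : ℕ} (h : prn x i = 0) (k : ℕ) :
    prn x (i + k) = 0 := by
  induction k with
  | zero => exact h
  | succ k ih =>
    show prn x (i + k) * x (i + k + 1) = 0
    rw [ih, zero_mul]

theorem Jnl_rep {R : Type} [NonUnitalRing R] (I : AddSubgroup R) (hI : Idl R I)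
    (h3 : ∀ x ∈ I, x * x * x = 0) (x : ℕ → R) (hx : ∀ i, x i ∈ I) {i j : ℕ} (hij : i < j)
    (h : prn x i = prn x j) : prn x i = 0 := by
  obtain ⟨k, rfl⟩ : ∃ k, j = i + k + 1 := ⟨j - i - 1, by omega⟩
  obtain ⟨y, hy, h1⟩ := Jnl_mul I hI x hx i k
  have h2 : prn x i = prn x i * y := h.trans h1
  have h4 : prn x i = prn x i * (y * y * y) := by
    rw [← mul_assoc, ← mul_assoc, ← h2, ← h2, ← h2]
  rw [h4, h3 y hy, mul_zero]

/-- **JNL** -/
theorem thm_Jnl : St_Jnl := by
  intro R _ _ I hI h3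
  cases nonempty_fintype R
  refine ⟨Fintype.card R, fun x hx => ?_⟩
  obtain ⟨a, b, hab, h⟩ := Fintype.exists_ne_map_eq_of_card_lt
    (fun i : Fin (Fintype.card R + 1) => prn x i) (by simp)
  have key : ∀ i : ℕ, i ≤ Fintype.card R → prn x i = 0 → prn x (Fintype.card R) = 0 := by
    intro i hi h0
    have h1 := Jnl_zero x h0 (Fintype.card R - i)
    rwa [Nat.add_sub_cancel' hi] at h1
  have h : prn x (a : ℕ) = prn x (b : ℕ) := h
  rcases lt_or_gt_of_ne (fun h => hab (Fin.ext h) : (a : ℕ) ≠ (b : ℕ)) with h1 | h1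
  · exact key a (by omega) (Jnl_rep I hI h3 x hx h1 h)
  · exact key b (by omega) (Jnl_rep I hI h3 x hx h1 h.symm)

end Pool.Agent.CRN
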