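import Pool.Agent.CRN.St

/-!
Campaign CRN (problem MP_1bb14d_al): a Nakayama lemma.
-/

set_option autoImplicit false

namespace Pool.Agent.CRN

section

variable {R : Type} [NonUnitalRing R]

/-- `F_0 = J`, `F_(k+1) = J F_k + p F_k` -/
def NakF (J : AddSubgroup R) (p : ℕ) : ℕ → AddSubgroup R
  | 0 => J
  | k + 1 => AddSubgroup.closure ({y | ∃ a ∈ J, ∃ b ∈ NakF J p k, y = a * b} ∪
      {y | ∃ b ∈ NakF J p k, y = p • b})

theorem Nak_mul {J : AddSubgroup R} {p k : ℕ} {a b : R} (ha : a ∈ J) (hb : b ∈ NakF J p k) :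
    a * b ∈ NakF J p (k + 1) :=
  AddSubgroup.subset_closure (Or.inl ⟨a, ha, b, hb, rfl⟩)

theorem Nak_smul {J : AddSubgroup R} {p k : ℕ} {b : R} (hb : b ∈ NakF J p k) :
    p • b ∈ NakF J p (k + 1) :=
  AddSubgroup.subset_closure (Or.inr ⟨b, hb, rfl⟩)

theorem Nak_le {J : AddSubgroup R} (hJ : Idl R J) (p : ℕ) (k : ℕ) :
    NakF J p (k + 1) ≤ NakF J p k := by
  induction k with
  | zero =>
    refine (AddSubgroup.closure_le _).2 ?_
    rintro y (⟨a, _, b, hb, rfl⟩ | ⟨b, hb, rfl⟩)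
    · exact (hJ a b hb).1
    · exact J.nsmul_mem hb p
  | succ k ih =>
    refine (AddSubgroup.closure_le _).2 ?_
    rintro y (⟨a, ha, b, hb, rfl⟩ | ⟨b, hb, rfl⟩)
    · exact Nak_mul ha (ih hb)
    · exact Nak_smul (ih hb)

theorem Nak_M {J : AddSubgroup R} {p k : ℕ} {c d : R} (hc : c ∈ NakF J p 1)
    (hd : d ∈ NakF J p k) : c * d ∈ NakF J p (k + 2) := by
  refine AddSubgroup.closure_induction (p := fun c _ => c * d ∈ NakF J p (k + 2)) ?_ ?_ ?_ ?_ hc
  · rintro y (⟨a, ha, b, hb, rfl⟩ | ⟨b, hb, rfl⟩)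
    · rw [mul_assoc]
      exact Nak_mul ha (Nak_mul hb hd)
    · rw [smul_mul_assoc, ← mul_smul_comm]
      exact Nak_mul hb (Nak_smul hd)
  · rw [zero_mul]
    exact zero_mem _
  · intro x y _ _ hx hy
    rw [add_mul]
    exact add_mem hx hy
  · intro x _ hx
    rw [neg_mul]
    exact neg_mem hx

theorem Nak_A {J : AddSubgroup R} (hJ : Idl R J) {p : ℕ} {S : NonUnitalSubring R}
    (h : ∀ x ∈ J, x ∈ fr S J p) (k : ℕ) :
    ∀ x ∈ NakF J p k, ∃ s ∈ S, x - s ∈ NakF J p (k + 1) := by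
  have hadd : ∀ (k : ℕ) (x y : R), (∃ s ∈ S, x - s ∈ NakF J p (k + 1)) →
      (∃ s ∈ S, y - s ∈ NakF J p (k + 1)) → ∃ s ∈ S, x + y - s ∈ NakF J p (k + 1) := by
    rintro k x y ⟨s, hs, h1⟩ ⟨t, ht, h2⟩
    refine ⟨s + t, add_mem hs ht, ?_⟩
    rw [add_sub_add_comm]
    exact add_mem h1 h2
  have hneg : ∀ (k : ℕ) (x : R), (∃ s ∈ S, x - s ∈ NakF J p (k + 1)) →
      ∃ s ∈ S, -x - s ∈ NakF J p (k + 1) := by
    rintro k x ⟨s, hs, h1⟩
    refine ⟨-s, neg_mem hs, ?_⟩
    have : -x - -s = -(x - s) := by abel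
    rw [this]
    exact neg_mem h1
  have hzero : ∀ k : ℕ, ∃ s ∈ S, (0 : R) - s ∈ NakF J p (k + 1) := fun k =>
    ⟨0, zero_mem _, by rw [sub_zero]; exact zero_mem _⟩
  have h0 : ∀ x ∈ NakF J p 0, ∃ s ∈ S, x - s ∈ NakF J p (0 + 1) := by
    intro x hx
    refine AddSubgroup.closure_induction (p := fun x _ => ∃ s ∈ S, x - s ∈ NakF J p (0 + 1))
      ?_ ?_ ?_ ?_ (h x hx)
    · rintro y ((⟨hy, _⟩ | ⟨a, ha, b, hb, rfl⟩) | ⟨b, hb, rfl⟩)
      · exact ⟨y, hy, by rw [sub_self]; exact zero_mem _⟩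
      · exact ⟨0, zero_mem _, by rw [sub_zero]; exact Nak_mul (k := 0) ha hb⟩
      · exact ⟨0, zero_mem _, by rw [sub_zero]; exact Nak_smul (k := 0) hb⟩
    · exact hzero 0
    · intro x y _ _ hx hy
      exact hadd 0 x y hx hy
    · intro x _ hx
      exact hneg 0 x hx
  induction k with
  | zero => exact h0
  | succ k ih =>
    intro x hx
    refine AddSubgroup.closure_induction (p := fun x _ => ∃ s ∈ S, x - s ∈ NakF J p (k + 1 + 1))
      ?_ ?_ ?_ ?_ hx
    · rintro y (⟨a, ha, b, hb, rfl⟩ | ⟨b, hb, rfl⟩)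
      · obtain ⟨s, hs, h1⟩ := h0 a ha
        obtain ⟨t, ht, h2⟩ := ih b hb
        refine ⟨s * t, mul_mem hs ht, ?_⟩
        have h3 : a * b - s * t = (a - s) * t + a * (b - t) := by
          rw [sub_mul, mul_sub]
          abel
        have h4 : t ∈ NakF J p k := by
          have h5 : t = b - (b - t) := by abel
          rw [h5]
          exact sub_mem hb (Nak_le hJ p k h2)
        rw [h3]
        exact add_mem (Nak_M h1 h4) (Nak_mul ha h2)
      · obtain ⟨t, ht, h2⟩ := ih b hb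
        refine ⟨p • t, nsmul_mem ht p, ?_⟩
        rw [← smul_sub]
        exact Nak_smul h2
    · exact hzero (k + 1)
    · intro x y _ _ hx hy
      exact hadd (k + 1) x y hx hy
    · intro x _ hx
      exact hneg (k + 1) x hx

/-- put an element in front of a sequence -/
def NakC (a : R) (x : ℕ → R) : ℕ → R
  | 0 => a
  | n + 1 => x n

theorem Nak_prn (a : R) (x : ℕ → R) (j : ℕ) : prn (NakC a x) (j + 1) = a * prn x j := by
  induction j with
  | zero => rfl
  | succ j ih =>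
    have h1 : prn (NakC a x) (j + 1 + 1) = prn (NakC a x) (j + 1) * NakC a x (j + 1 + 1) := rfl
    have h2 : prn x (j + 1) = prn x j * x (j + 1) := rfl
    have h3 : NakC a x (j + 1 + 1) = x (j + 1) := rfl
    rw [h1, ih, h2, h3, mul_assoc]

theorem Nak_gen (J : AddSubgroup R) (p k : ℕ) : NakF J p k ≤ AddSubgroup.closure
    {y | ∃ (i j : ℕ) (x : ℕ → R), i + j = k ∧ (∀ l, x l ∈ J) ∧ y = (p ^ i) • prn x j} := by
  induction k with
  | zero =>
    intro y hy
    refine AddSubgroup.subset_closure ⟨0, 0, fun _ => y, rfl, fun _ => hy, ?_⟩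
    rw [pow_zero, one_smul]
    rfl
  | succ k ih =>
    refine (AddSubgroup.closure_le _).2 ?_
    rintro y (⟨a, ha, b, hb, rfl⟩ | ⟨b, hb, rfl⟩)
    · refine AddSubgroup.closure_induction (p := fun b _ => a * b ∈ AddSubgroup.closure
        {y | ∃ (i j : ℕ) (x : ℕ → R), i + j = k + 1 ∧ (∀ l, x l ∈ J) ∧ y = (p ^ i) • prn x j})
        ?_ ?_ ?_ ?_ (ih hb)
      · rintro _ ⟨i, j, x, hij, hx, rfl⟩
        refine AddSubgroup.subset_closure ⟨i, j + 1, NakC a x, by omega, ?_, ?_⟩
        · intro l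
          cases l with
          | zero => exact ha
          | succ l => exact hx l
        · rw [Nak_prn, mul_smul_comm]
      · rw [mul_zero]
        exact zero_mem _
      · intro x y _ _ hx hy
        rw [mul_add]
        exact add_mem hx hy
      · intro x _ hx
        rw [mul_neg]
        exact neg_mem hx
    · refine AddSubgroup.closure_induction (p := fun b _ => p • b ∈ AddSubgroup.closure
        {y | ∃ (i j : ℕ) (x : ℕ → R), i + j = k + 1 ∧ (∀ l, x l ∈ J) ∧ y = (p ^ i) • prn x j})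
        ?_ ?_ ?_ ?_ (ih hb)
      · rintro _ ⟨i, j, x, hij, hx, rfl⟩
        refine AddSubgroup.subset_closure ⟨i + 1, j, x, by omega, hx, ?_⟩
        rw [← mul_smul, pow_succ']
      · rw [smul_zero]
        exact zero_mem _
      · intro x y _ _ hx hy
        rw [smul_add]
        exact add_mem hx hy
      · intro x _ hx
        rw [smul_neg]
        exact neg_mem hx

theorem Nak_zero {J : AddSubgroup R} {m : ℕ}
    (hm : ∀ x : ℕ → R, (∀ i, x i ∈ J) → prn x m = 0) {p r : ℕ} (hr : ∀ x : R, (p ^ r) • x = 0) :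
    ∀ y ∈ NakF J p (m + r), y = 0 := by
  intro y hy
  have h1 : NakF J p (m + r) ≤ ⊥ := by
    refine (Nak_gen J p (m + r)).trans ((AddSubgroup.closure_le _).2 ?_)
    rintro _ ⟨i, j, x, hij, hx, rfl⟩
    show p ^ i • prn x j = 0
    have hj : ∀ t, prn x (m + t) = 0 := by
      intro t
      induction t with
      | zero => exact hm x hx
      | succ t ih =>
        show prn x (m + t) * x (m + t + 1) = 0
        rw [ih, zero_mul]
    by_cases hir : r ≤ i
    · obtain ⟨t, rfl⟩ := Nat.exists_eq_add_of_le hir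
      rw [pow_add, mul_smul]
      exact hr _
    · obtain ⟨t, rfl⟩ := Nat.exists_eq_add_of_le (by omega : m ≤ j)
      rw [hj t, smul_zero]
  exact (AddSubgroup.mem_bot).1 (h1 hy)

end

theorem thm_Nak : St_Nak := by
  rintro R _ _ J hJ ⟨m, hm⟩ p r hr S hS
  constructor
  · intro x y hy
    obtain ⟨s, hs, hsx⟩ := hS x
    have hx : x = s + (x - s) := by abel
    constructor
    · refine AddSubgroup.closure_induction (p := fun y _ => x * y ∈ fr S J p) ?_ ?_ ?_ ?_ hy
      · rintro y ((⟨hy1, hy2⟩ | ⟨a, ha, b, hb, rfl⟩) | ⟨b, hb, rfl⟩)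
        · rw [hx, add_mul]
          refine add_mem (AddSubgroup.subset_closure (Or.inl (Or.inl ⟨mul_mem hs hy1, ?_⟩))) ?_
          · exact (hJ s y hy2).1
          · exact AddSubgroup.subset_closure (Or.inl (Or.inr ⟨_, hsx, y, hy2, rfl⟩))
        · rw [← mul_assoc]
          exact AddSubgroup.subset_closure (Or.inl (Or.inr ⟨_, (hJ x a ha).1, b, hb, rfl⟩))
        · rw [mul_smul_comm]
          exact AddSubgroup.subset_closure (Or.inr ⟨_, (hJ x b hb).1, rfl⟩)
      · rw [mul_zero]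
        exact zero_mem _
      · intro a b _ _ ha hb
        rw [mul_add]
        exact add_mem ha hb
      · intro a _ ha
        rw [mul_neg]
        exact neg_mem ha
    · refine AddSubgroup.closure_induction (p := fun y _ => y * x ∈ fr S J p) ?_ ?_ ?_ ?_ hy
      · rintro y ((⟨hy1, hy2⟩ | ⟨a, ha, b, hb, rfl⟩) | ⟨b, hb, rfl⟩)
        · rw [hx, mul_add]
          refine add_mem (AddSubgroup.subset_closure (Or.inl (Or.inl ⟨mul_mem hy1 hs, ?_⟩))) ?_
          · exact (hJ s y hy2).2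
          · exact AddSubgroup.subset_closure (Or.inl (Or.inr ⟨y, hy2, _, hsx, rfl⟩))
        · rw [mul_assoc]
          exact AddSubgroup.subset_closure (Or.inl (Or.inr ⟨a, ha, _, (hJ x b hb).2, rfl⟩))
        · rw [smul_mul_assoc]
          exact AddSubgroup.subset_closure (Or.inr ⟨_, (hJ x b hb).2, rfl⟩)
      · rw [zero_mul]
        exact zero_mem _
      · intro a b _ _ ha hb
        rw [add_mul]
        exact add_mem ha hb
      · intro a _ ha
        rw [neg_mul]
        exact neg_mem ha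
  · intro h
    have h1 : ∀ k, ∀ x ∈ J, ∃ s ∈ S, x - s ∈ NakF J p k := by
      intro k
      induction k with
      | zero => exact fun x hx => ⟨0, zero_mem _, by rw [sub_zero]; exact hx⟩
      | succ k ih =>
        intro x hx
        obtain ⟨s, hs, h2⟩ := ih x hx
        obtain ⟨t, ht, h3⟩ := Nak_A hJ h k _ h2
        refine ⟨s + t, add_mem hs ht, ?_⟩
        rw [← sub_sub]
        exact h3
    have h2 : ∀ x ∈ J, x ∈ S := by
      intro x hx
      obtain ⟨s, hs, h3⟩ := h1 (m + r) x hx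
      have h4 := Nak_zero hm hr _ h3
      rw [sub_eq_zero.1 h4]
      exact hs
    rw [eq_top_iff]
    intro x _
    obtain ⟨s, hs, hsx⟩ := hS x
    have hx : x = s + (x - s) := by abel
    rw [hx]
    exact add_mem hs (h2 _ hsx)

end Pool.Agent.CRN
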