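import Pool.Agent.CRN.St

/-!
Campaign CRN, module Pws (helper96): powers in the variety `x^3 = x^n`.
-/

set_option autoImplicit false

namespace Pool.Agent.CRN

open Pool.Agent.CRR

theorem Pws_mul {R : Type} [NonUnitalRing R] (x : R) (a b : ℕ) :
    pw x a * pw x b = pw x (a + b + 1) := by
  induction b with
  | zero => rfl
  | succ b ih =>
    show pw x a * (pw x b * x) = pw x (a + b + 1) * x
    rw [← mul_assoc, ih]

theorem Pws_add {n : ℕ} (hn : 4 ≤ n) {R : Type} [NonUnitalRing R] (h : InM n R) (x : R) (a : ℕ) :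
    pw x (2 + a + (n - 3)) = pw x (2 + a) := by
  induction a with
  | zero =>
    have h1 : 2 + 0 + (n - 3) = n - 1 := by omega
    rw [h1]
    exact (h x).symm
  | succ a ih =>
    have h1 : 2 + (a + 1) + (n - 3) = (2 + a + (n - 3)) + 1 := by omega
    rw [h1]
    show pw x (2 + a + (n - 3)) * x = pw x (2 + a) * x
    rw [ih]

theorem Pws_addj {n : ℕ} (hn : 4 ≤ n) {R : Type} [NonUnitalRing R] (h : InM n R) (x : R)
    (a j : ℕ) : pw x (2 + a + j * (n - 3)) = pw x (2 + a) := by
  induction j with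
  | zero => rw [Nat.zero_mul, Nat.add_zero]
  | succ j ih =>
    have h1 : 2 + a + (j + 1) * (n - 3) = 2 + (a + j * (n - 3)) + (n - 3) := by ring
    rw [h1, Pws_add hn h x (a + j * (n - 3)), ← Nat.add_assoc, ih]

theorem Pws_z1 {R : Type} [NonUnitalRing R] (x y : R) (h : y * x = 0) (m : ℕ) :
    y * pw x m = 0 := by
  induction m with
  | zero => exact h
  | succ m ih =>
    show y * (pw x m * x) = 0
    rw [← mul_assoc, ih, zero_mul]

theorem Pws_z2 {R : Type} [NonUnitalRing R] (x y : R) (h : x * y = 0) (m : ℕ) :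
    pw x m * y = 0 := by
  cases m with
  | zero => exact h
  | succ m =>
    show pw x m * x * y = 0
    rw [mul_assoc, h, mul_zero]

theorem Pws_i1 {R : Type} [NonUnitalRing R] (x y : R) (h : y * x = x) (m : ℕ) :
    y * pw x m = pw x m := by
  induction m with
  | zero => exact h
  | succ m ih =>
    show y * (pw x m * x) = pw x m * x
    rw [← mul_assoc, ih]

theorem Pws_i2 {R : Type} [NonUnitalRing R] (x y : R) (h : x * y = x) (m : ℕ) :
    pw x m * y = pw x m := by
  cases m with
  | zero => exact h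
  | succ m =>
    show pw x m * x * y = pw x m * x
    rw [mul_assoc, h]

theorem thm_Pws : St_Pws := by
  intro n hn R _ hR x
  have h3 : x * x * x * om n x = x * x * x := by
    show pw x 2 * pw x (3 * (n - 3) - 1) = pw x 2
    have h1 : 2 + (3 * (n - 3) - 1) + 1 = 2 + 0 + 3 * (n - 3) := by omega
    rw [Pws_mul, h1, Pws_addj hn hR x 0 3]
  refine ⟨?_, ?_, h3, ?_, ?_, fun y hy => Pws_z1 x y hy _, fun y hy => Pws_z2 x y hy _,
    fun y hy => Pws_i1 x y hy _, fun y hy => Pws_i2 x y hy _, ?_, ?_⟩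
  · show pw x (3 * (n - 3) - 1) * pw x (3 * (n - 3) - 1) = pw x (3 * (n - 3) - 1)
    have h1 : 3 * (n - 3) - 1 + (3 * (n - 3) - 1) + 1 =
        2 + (3 * (n - 3) - 3) + 3 * (n - 3) := by omega
    have h2 : 2 + (3 * (n - 3) - 3) = 3 * (n - 3) - 1 := by omega
    rw [Pws_mul, h1, Pws_addj hn hR x _ 3, h2]
  · show pw x 0 * pw x (3 * (n - 3) - 1) = pw x (3 * (n - 3) - 1) * pw x 0
    rw [Pws_mul, Pws_mul]
    congr 1
    omega
  · intro h
    rw [← h3, h, mul_zero]
  · intro m hm
    have h1 : pw x (2 + 0 + m * (n - 3)) = pw x (2 + 0) := Pws_addj hn hR x 0 m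
    have h4 : m ≤ m * (n - 3) := Nat.le_mul_of_pos_right m (by omega)
    have h2 : 2 + 0 + m * (n - 3) = m + (m * (n - 3) - m + 1) + 1 := by omega
    rw [h2, ← Pws_mul, hm, zero_mul] at h1
    exact h1.symm
  · intro hx
    have h1 : ∀ m, pw x m = x := by
      intro m
      induction m with
      | zero => rfl
      | succ m ih =>
        show pw x m * x = x
        rw [ih, hx]
    exact h1 _
  · refine ⟨pw x (3 * (n - 3) - 2), ?_, ?_, fun g hg => Pws_i1 x g hg _,
      fun g hg => Pws_i2 x g hg _⟩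
    · show pw x 0 * pw x (3 * (n - 3) - 2) = pw x (3 * (n - 3) - 1)
      rw [Pws_mul]
      congr 1
      omega
    · show pw x (3 * (n - 3) - 2) * pw x 0 = pw x (3 * (n - 3) - 1)
      rw [Pws_mul]
      congr 1
      omega

end Pool.Agent.CRN
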