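import Pool.Agent.CRN.Ccc
import Mathlib.LinearAlgebra.ExteriorAlgebra.Basic

/-!
Campaign CRN, module Alc: the alternating map of `TyC`.
-/

set_option autoImplicit false

namespace Pool.Agent.CRN

open Pool.Agent.CRR

section alc

variable {A N W : Type} [AddCommGroup A] [AddCommGroup N] [AddCommGroup W]

/-- `T (x (k - 1)) (... (T (x 0) m))`. -/
def alc_run (T : A →+ N →+ N) (x : ℕ → A) (m : N) : ℕ → N
  | 0 => m
  | k + 1 => T (x k) (alc_run T x m k)

theorem alc_run_congr (T : A →+ N →+ N) {x y : ℕ → A} (m : N) (k : ℕ)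
    (h : ∀ l, l < k → x l = y l) : alc_run T x m k = alc_run T y m k := by
  induction k with
  | zero => rfl
  | succ k ih =>
    change T (x k) (alc_run T x m k) = T (y k) (alc_run T y m k)
    rw [ih fun l hl => h l (Nat.lt_succ_of_lt hl), h k (Nat.lt_succ_self k)]

/-- The linear map into the endomorphism ring. -/
noncomputable def alc_lin (T : A →+ N →+ N) : A →ₗ[ℤ] Module.End ℤ N :=
  (addMonoidHomLequivInt (A := N) (B := N) ℤ).toLinearMap ∘ₗ T.toIntLinearMap

theorem alc_lin_apply (T : A →+ N →+ N) (x : A) (m : N) : alc_lin T x m = T x m := rfl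

/-- The alternating map. -/
noncomputable def alc_alt (T : A →+ N →+ N) (hT : ∀ x m, T x (T x m) = 0) (g : N →+ W) (m : N)
    (k : ℕ) : A [⋀^Fin k]→ₗ[ℤ] W :=
  (g.toIntLinearMap ∘ₗ (LinearMap.applyₗ m : Module.End ℤ N →ₗ[ℤ] N) ∘ₗ
    (ExteriorAlgebra.lift ℤ ⟨alc_lin T, fun x => by
      ext m
      exact hT x m⟩).toLinearMap).compAlternatingMap (ExteriorAlgebra.ιMulti ℤ k)

theorem alc_ofFn (T : A →+ N →+ N) (x : ℕ → A) (m : N) (k : ℕ) :
    (List.ofFn fun i : Fin k => alc_lin T (x (k - 1 - i))).prod m = alc_run T x m k := by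
  induction k with
  | zero => rfl
  | succ k ih =>
    rw [List.ofFn_succ, List.prod_cons, Module.End.mul_apply]
    have : (fun i : Fin k => alc_lin T (x (k + 1 - 1 - (i.succ : ℕ)))) =
        fun i : Fin k => alc_lin T (x (k - 1 - i)) := by
      funext i
      congr 2
      simp only [Fin.val_succ]
      omega
    rw [this, ih]
    rfl

theorem alc_alt_apply (T : A →+ N →+ N) (hT : ∀ x m, T x (T x m) = 0) (g : N →+ W) (m : N)
    (k : ℕ) (x : ℕ → A) :
    alc_alt T hT g m k (fun i => x (k - 1 - i)) = g (alc_run T x m k) := by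
  rw [← alc_ofFn]
  change g ((ExteriorAlgebra.lift ℤ ⟨alc_lin T, fun x => by
      ext m
      exact hT x m⟩ (ExteriorAlgebra.ιMulti ℤ k fun i : Fin k => x (k - 1 - i))) m) = _
  rw [ExteriorAlgebra.ιMulti_apply, map_list_prod, List.map_ofFn]
  have : (fun i : Fin k => (ExteriorAlgebra.lift ℤ ⟨alc_lin T, fun x => by
      ext m
      exact hT x m⟩ ∘ fun i : Fin k => ExteriorAlgebra.ι ℤ (x (k - 1 - i))) i) =
      fun i : Fin k => alc_lin T (x (k - 1 - i)) := by
    funext i
    simp
  rw [← this]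

/-- A letter which is a product of two letters gives a longer word. -/
theorem alc_ins (T : A →+ N →+ N) {u w : A} {x : ℕ → A} {i : ℕ}
    (hz : ∀ m, T (x i) m = T w (T u m)) (m : N) (k : ℕ) (hk : i < k) :
    alc_run T (fun l => if l < i then x l else if l = i then u else if l = i + 1 then w else
      x (l - 1)) m (k + 1) = alc_run T x m k := by
  induction k with
  | zero => omega
  | succ k ih =>
    by_cases h : i < k
    · rw [alc_run, ih h]
      have h1 : ¬ k + 1 < i := by omega
      have h2 : k + 1 ≠ i := by omega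
      have h3 : k + 1 ≠ i + 1 := by omega
      simp only [h1, h2, h3, if_false, Nat.add_sub_cancel]
      rfl
    · obtain rfl : i = k := by omega
      rw [alc_run, alc_run]
      have h1 : ¬ i + 1 < i := by omega
      have h2 : i + 1 ≠ i := by omega
      simp only [h1, h2, lt_irrefl, if_false, if_true]
      rw [alc_run_congr T (y := x) m i (fun l hl => by simp [hl]), ← hz]
      rfl

theorem alc_main (hDet : St_Det) (T : A →+ N →+ N) (hT : ∀ x m, T x (T x m) = 0) (G : Set A)
    (hG : ∀ z ∈ G, (∀ m, T z m = 0) ∨ ∃ u w, ∀ m, T z m = T w (T u m)) {p : ℕ} (hp : p.Prime)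
    (hpG : ∀ x : A, p • x ∈ G) {k : ℕ} (hk : ∀ (m : N) (x : ℕ → A), alc_run T x m (k + 1) = 0)
    (a : ℕ → A) (ha : ∀ x, x ∈ AddSubgroup.closure ({y | ∃ l, l < k ∧ y = a l} ∪ G))
    (g : N →+ W) (m₀ : N) :
    (∀ x : ℕ → A, ∃ m : ℤ, g (alc_run T x m₀ k) = m • g (alc_run T a m₀ k)) ∧
    ∀ x : ℕ → A, g (alc_run T x m₀ k) ≠ 0 →
      ∀ y, y ∈ AddSubgroup.closure ({w | ∃ l, l < k ∧ w = x l} ∪ G) := by
  have hr : ∀ x : ℕ → A, Set.range (fun i : Fin k => x (k - 1 - i)) =
      {y | ∃ l, l < k ∧ y = x l} := by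
    intro x
    ext y
    constructor
    · rintro ⟨i, rfl⟩
      exact ⟨k - 1 - i, by have := i.2; omega, rfl⟩
    · rintro ⟨l, hl, rfl⟩
      refine ⟨⟨k - 1 - l, by omega⟩, ?_⟩
      dsimp only
      congr 1
      omega
  have hcl : ∀ x : ℕ → A, AddSubgroup.closure (Set.range (fun i : Fin k => x (k - 1 - i)) ∪
      (AddSubgroup.closure G : Set A)) =
      AddSubgroup.closure ({y | ∃ l, l < k ∧ y = x l} ∪ G) := by
    intro x
    rw [hr, AddSubgroup.closure_union, AddSubgroup.closure_union, AddSubgroup.closure_eq]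
  have h0 : ∀ (v : Fin k → A) (i : Fin k), v i ∈ AddSubgroup.closure G →
      alc_alt T hT g m₀ k v = 0 := by
    intro v i hv
    have key : ∀ z ∈ AddSubgroup.closure G, alc_alt T hT g m₀ k (Function.update v i z) = 0 := by
      intro z hz
      induction hz using AddSubgroup.closure_induction with
      | mem z hz =>
        set x : ℕ → A := fun l => if h : k - 1 - l < k then
          Function.update v i z ⟨k - 1 - l, h⟩ else 0 with hx
        have hxv : Function.update v i z = fun j : Fin k => x (k - 1 - j) := by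
          funext j
          have hj := j.2
          have h1 : k - 1 - (k - 1 - (j : ℕ)) = j := by omega
          have h2 : k - 1 - (k - 1 - (j : ℕ)) < k := by omega
          simp only [hx, h2, dif_pos]
          congr 1
          exact Fin.ext h1.symm
        have hxi : x (k - 1 - i) = z := by
          have := congrFun hxv i
          rw [Function.update_self] at this
          exact this.symm
        rw [hxv, alc_alt_apply]
        have hik : k - 1 - (i : ℕ) < k := by have := i.2; omega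
        rcases hG z hz with h | ⟨u, w, h⟩
        · have : ∀ j, k - 1 - (i : ℕ) < j → alc_run T x m₀ j = 0 := by
            intro j hj
            induction j with
            | zero => omega
            | succ j ih =>
              rw [alc_run]
              by_cases hij : k - 1 - (i : ℕ) < j
              · rw [ih hij, map_zero]
              · obtain rfl : k - 1 - (i : ℕ) = j := by omega
                rw [hxi, h]
          rw [this k hik, map_zero]
        · rw [← alc_ins T (u := u) (w := w) (fun m => by rw [hxi, h m]) m₀ k hik, hk, map_zero]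
      | zero => exact (alc_alt T hT g m₀ k).map_update_zero v i
      | add x y _ _ hx hy => rw [AlternatingMap.map_update_add, hx, hy, add_zero]
      | neg x _ hx => rw [AlternatingMap.map_update_neg, hx, neg_zero]
    have := key (v i) hv
    rwa [Function.update_eq_self] at this
  obtain ⟨hd1, hd2⟩ := hDet A W (AddSubgroup.closure G) p k hp
    (fun x => AddSubgroup.subset_closure (hpG x)) (alc_alt T hT g m₀ k) h0
    (fun i => a (k - 1 - i)) (fun x => by rw [hcl]; exact ha x)
  constructor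
  · intro x
    obtain ⟨m, hm⟩ := hd1 fun i => x (k - 1 - i)
    refine ⟨m, ?_⟩
    rwa [alc_alt_apply, alc_alt_apply] at hm
  · intro x hx y
    rw [← hcl]
    exact hd2 _ (by rwa [alc_alt_apply]) y

variable {R : Type} [NonUnitalRing R]

theorem alc_PcA {e x : R} (h : InA e x) : Pc (fun _ : Fin 1 => e) none none x :=
  ⟨fun _ => by simpa using h.1, fun _ => by simpa using h.2⟩

theorem alc_PcB {e x : R} (h : InB e x) (i : Fin 1) :
    Pc (fun _ : Fin 1 => e) none (some i) x :=
  ⟨fun _ => by simpa using h.1, fun j => by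
    have : i = j := Subsingleton.elim _ _
    simpa [this] using h.2⟩

theorem alc_PcC {e x : R} (h : InC e x) (i : Fin 1) :
    Pc (fun _ : Fin 1 => e) (some i) none x :=
  ⟨fun j => by
    have : i = j := Subsingleton.elim _ _
    simpa [this] using h.1, fun _ => by simpa using h.2⟩

theorem alc_B0 (e : R) : InB e (0 : R) := ⟨mul_zero _, zero_mul _⟩

theorem alc_C0 (e : R) : InC e (0 : R) := ⟨mul_zero _, zero_mul _⟩

/-- `(1 - e) R (1 - e)`. -/
def alc_A (e : R) : AddSubgroup R where
  carrier := {x | InA e x}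
  zero_mem' := ⟨mul_zero _, zero_mul _⟩
  add_mem' := fun {x y} hx hy => ⟨by rw [mul_add, hx.1, hy.1, add_zero],
    by rw [add_mul, hx.2, hy.2, add_zero]⟩
  neg_mem' := fun {x} hx => ⟨by rw [mul_neg, hx.1, neg_zero], by rw [neg_mul, hx.2, neg_zero]⟩

/-- `e R (1 - e)`. -/
def alc_C (e : R) : AddSubgroup R where
  carrier := {x | InC e x}
  zero_mem' := ⟨mul_zero _, zero_mul _⟩
  add_mem' := fun {x y} hx hy => ⟨by rw [mul_add, hx.1, hy.1],
    by rw [add_mul, hx.2, hy.2, add_zero]⟩
  neg_mem' := fun {x} hx => ⟨by rw [mul_neg, hx.1], by rw [neg_mul, hx.2, neg_zero]⟩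

theorem alc_mul_A {e x y : R} (hx : InA e x) (hy : InA e y) : InA e (x * y) :=
  ⟨by rw [← mul_assoc, hx.1, zero_mul], by rw [mul_assoc, hy.2, mul_zero]⟩

theorem alc_mul_C {e x y : R} (hx : InC e x) (hy : InA e y) : InC e (x * y) :=
  ⟨by rw [← mul_assoc, hx.1], by rw [mul_assoc, hy.2, mul_zero]⟩

/-- The right multiplications by elements of `A` on `C`. -/
def alc_T (e : R) : alc_A e →+ alc_C e →+ alc_C e where
  toFun x :=
    { toFun := fun c => ⟨c.1 * x.1, alc_mul_C c.2 x.2⟩
      map_zero' := Subtype.ext (zero_mul _)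
      map_add' := fun c c' => Subtype.ext (add_mul _ _ _) }
  map_zero' := by
    ext c
    exact mul_zero _
  map_add' x y := by
    ext c
    exact mul_add _ _ _

theorem alc_run_T (e : R) (x : ℕ → alc_A e) (m : alc_C e) (k : ℕ) :
    ((alc_run (alc_T e) x m k : alc_C e) : R) = prr m.1 (fun i => (x i).1) k := by
  induction k with
  | zero => rfl
  | succ k ih =>
    change ((alc_run (alc_T e) x m k : alc_C e) : R) * (x k).1 = prr m.1 (fun i => (x i).1) k *
      (x k).1
    rw [ih]

/-- The generators `a l`, `l < k`. -/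
noncomputable def alc_a (e : R) (a : ℕ → R) (l : ℕ) : alc_A e :=
  open Classical in if h : InA e (a l) then ⟨a l, h⟩ else 0

theorem alc_a_val {e : R} {a : ℕ → R} {l : ℕ} (h : InA e (a l)) : (alc_a e a l).1 = a l := by
  rw [alc_a, dif_pos h]

theorem alc_up {D : AddSubgroup R} {S : AddSubgroup D} {P : Set R}
    (h : ∀ y ∈ P, ∃ h : y ∈ D, (⟨y, h⟩ : D) ∈ S) {x : D} (hx : x.1 ∈ AddSubgroup.closure P) :
    x ∈ S := by
  have : AddSubgroup.closure P ≤ S.map D.subtype := by
    rw [AddSubgroup.closure_le]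
    intro y hy
    obtain ⟨h1, h2⟩ := h y hy
    exact ⟨⟨y, h1⟩, h2, rfl⟩
  obtain ⟨y, hy, hyx⟩ := this hx
  have : y = x := Subtype.ext hyx
  rwa [← this]

theorem alc_down {D : AddSubgroup R} {P : Set D} {S : AddSubgroup R}
    (h : ∀ y ∈ P, (y : R) ∈ S) {x : D} (hx : x ∈ AddSubgroup.closure P) : x.1 ∈ S := by
  have : AddSubgroup.closure P ≤ S.comap D.subtype := by
    rw [AddSubgroup.closure_le]
    intro y hy
    exact h y hy
  exact this hx

end alc

theorem thm_Alc (hRla : St_Rla) (hScc : St_Scc) (hDet : St_Det) : St_Alc := by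
  intro n R _ _ e hc H hH z k a hTC p r hp hpr hpe
  obtain ⟨-, s2, s3, s4, s5, -⟩ := hScc n R e hc H hH z k a hTC
  have hla : ∀ c x, InC e c → InA e x → c * x * x = 0 := fun c x hC hA =>
    (hRla n R 1 (fun _ => e) hc x 0 0 0 c 0 0 (alc_PcA hA) (alc_PcA (alc_A e).zero_mem)
      (alc_PcB (alc_B0 e) 0) (alc_PcB (alc_B0 e) 0) (alc_PcC hC 0)).2.2.1
  have hpC : ∀ c, InC e c → p • c = 0 := fun c hC => by
    rw [← hC.1, ← smul_mul_assoc, hpe, zero_mul]
  let G : Set (alc_A e) := {w | ∃ x' x'' : alc_A e, w.1 = x'.1 * x''.1} ∪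
    {w | ∃ x' : alc_A e, w = p • x'}
  have hG : ∀ z ∈ G, (∀ m, alc_T e z m = 0) ∨ ∃ u w, ∀ m, alc_T e z m = alc_T e w (alc_T e u m) := by
    rintro z (⟨x', x'', h⟩ | ⟨x', rfl⟩)
    · refine Or.inr ⟨x', x'', fun m => Subtype.ext ?_⟩
      change m.1 * z.1 = m.1 * x'.1 * x''.1
      rw [h, mul_assoc]
    · refine Or.inl fun m => Subtype.ext ?_
      change m.1 * ((p • x' : alc_A e) : R) = 0
      rw [AddSubgroup.coe_nsmul, mul_smul_comm, ← smul_mul_assoc, hpC _ m.2, zero_mul]
  have main := alc_main hDet (alc_T e) (fun x m => Subtype.ext (hla _ _ m.2 x.2)) G hG hp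
    (fun x => Or.inr ⟨x, rfl⟩) (k := k) (fun m x => Subtype.ext (by
      rw [alc_run_T]
      exact s4 _ m.2 _ fun i => (x i).2)) (alc_a e a) (fun x => by
      refine alc_up ?_ (s2 x.1 x.2)
      rintro y (⟨l, hl, rfl⟩ | ⟨x', x'', h', h'', rfl⟩)
      · refine ⟨hTC.ha l hl, AddSubgroup.subset_closure (Or.inl ⟨l, hl, ?_⟩)⟩
        exact Subtype.ext (alc_a_val (hTC.ha l hl)).symm
      · exact ⟨alc_mul_A h' h'', AddSubgroup.subset_closure
          (Or.inr (Or.inl ⟨⟨x', h'⟩, ⟨x'', h''⟩, rfl⟩))⟩) (alc_C e).subtype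
  intro c' x hC hx
  constructor
  · obtain ⟨f, hf, hr⟩ := s3 c' hC
    have h0 := ccc_prr_rest (a := x) (k := k) (P := InC e)
      (Q := InA e) (fun c'' hc'' y hy => by
        rw [← ccc_prr_cons]
        refine s4 c'' hc'' _ fun i => ?_
        split_ifs
        · exact hy
        · exact hx _) hr
    have h1 : prr c' x k = prr (f * z) x k := by
      have := ccc_prr_add (c' - f * z) (f * z) x k
      rw [h0, sub_add_cancel, zero_add] at this
      exact this
    have hfz : InC e (f * z) := ⟨by rw [← mul_assoc, hf.1], by rw [mul_assoc, hTC.hz.2, mul_zero]⟩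
    obtain ⟨m, hm⟩ := (main ⟨f * z, hfz⟩).1 fun i => ⟨x i, hx i⟩
    change ((alc_run (alc_T e) _ _ k : alc_C e) : R) =
      m • ((alc_run (alc_T e) _ _ k : alc_C e) : R) at hm
    rw [alc_run_T, alc_run_T] at hm
    change prr (f * z) x k = m • prr (f * z) (fun i => (alc_a e a i).1) k at hm
    rw [ccc_prr_congr k (fun l hl => alc_a_val (hTC.ha l hl))] at hm
    rw [h1, hm]
    exact H.zsmul_mem (s5 f hf) m
  · intro hne y hy
    have := (main ⟨c', hC⟩).2 (fun i => ⟨x i, hx i⟩) (fun h => hne (by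
      change ((alc_run (alc_T e) _ _ k : alc_C e) : R) = 0 at h
      rw [alc_run_T] at h
      exact h)) ⟨y, hy⟩
    refine alc_down ?_ this
    rintro w (⟨l, hl, rfl⟩ | ⟨x', x'', h⟩ | ⟨x', rfl⟩)
    · exact AddSubgroup.subset_closure (Or.inl (Or.inl ⟨l, hl, rfl⟩))
    · exact AddSubgroup.subset_closure (Or.inl (Or.inr ⟨x'.1, x''.1, x'.2, x''.2, h⟩))
    · exact AddSubgroup.subset_closure (Or.inr ⟨x'.1, x'.2, rfl⟩)

end Pool.Agent.CRN
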