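import Pool.Agent.CRN.Alc

/-!
Campaign CRN, module Ald: the alternating map of `TyD`.
-/

set_option autoImplicit false

namespace Pool.Agent.CRN

open Pool.Agent.CRR

section ald

variable {R : Type} [NonUnitalRing R]

theorem ald_pll_mul (x : ℕ → R) (y c : R) (k : ℕ) : pll x (y * c) k = pll x y k * c := by
  induction k with
  | zero => rfl
  | succ k ih =>
    change x k * pll x (y * c) k = x k * pll x y k * c
    rw [ih, mul_assoc]

theorem ald_pll_add (x : ℕ → R) (y z : R) (k : ℕ) : pll x (y + z) k = pll x y k + pll x z k := by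
  induction k with
  | zero => rfl
  | succ k ih =>
    change x k * pll x (y + z) k = x k * pll x y k + x k * pll x z k
    rw [ih, mul_add]

theorem ald_pll_neg (x : ℕ → R) (y : R) (k : ℕ) : pll x (-y) k = -pll x y k := by
  induction k with
  | zero => rfl
  | succ k ih =>
    change x k * pll x (-y) k = -(x k * pll x y k)
    rw [ih, mul_neg]

theorem ald_pll_zero (x : ℕ → R) (k : ℕ) : pll x 0 k = 0 := by
  induction k with
  | zero => rfl
  | succ k ih =>
    change x k * pll x 0 k = 0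
    rw [ih, mul_zero]

theorem ald_pll_congr {y : R} {a b : ℕ → R} (k : ℕ) (h : ∀ l, l < k → a l = b l) :
    pll a y k = pll b y k := by
  induction k with
  | zero => rfl
  | succ k ih =>
    change a k * pll a y k = b k * pll b y k
    rw [ih fun l hl => h l (Nat.lt_succ_of_lt hl), h k (Nat.lt_succ_self k)]

theorem ald_pll_cons (b y : R) (x : ℕ → R) (k : ℕ) :
    pll (fun i => if i = 0 then y else x (i - 1)) b (k + 1) = pll x (y * b) k := by
  induction k with
  | zero => simp [pll]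
  | succ k ih =>
    rw [pll, ih]
    simp [pll]

theorem ald_pll_rest {P Q : R → Prop} {x : ℕ → R} {k : ℕ} {u : R → R}
    (h0 : u 0 = 0) (hadd : ∀ y z, u (y + z) = u y + u z) (hneg : ∀ y, u (-y) = -u y)
    (h : ∀ y, P y → ∀ z, Q z → pll x (u (y * z)) k = 0) {s : R}
    (hs : s ∈ AddSubgroup.closure {w | ∃ x' x'', P x' ∧ Q x'' ∧ w = x' * x''}) :
    pll x (u s) k = 0 := by
  induction hs using AddSubgroup.closure_induction with
  | mem s hs =>
    obtain ⟨x', x'', h', h'', rfl⟩ := hs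
    exact h x' h' x'' h''
  | zero => rw [h0]; exact ald_pll_zero x k
  | add y z _ _ hy hz => rw [hadd, ald_pll_add, hy, hz, add_zero]
  | neg y _ hy => rw [hneg, ald_pll_neg, hy, neg_zero]

/-- `(1 - e) R e`. -/
def ald_B (e : R) : AddSubgroup R where
  carrier := {x | InB e x}
  zero_mem' := ⟨mul_zero _, zero_mul _⟩
  add_mem' := fun {x y} hx hy => ⟨by rw [mul_add, hx.1, hy.1, add_zero],
    by rw [add_mul, hx.2, hy.2]⟩
  neg_mem' := fun {x} hx => ⟨by rw [mul_neg, hx.1, neg_zero], by rw [neg_mul, hx.2]⟩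

theorem ald_mul_B {e x y : R} (hx : InA e x) (hy : InB e y) : InB e (x * y) :=
  ⟨by rw [← mul_assoc, hx.1, zero_mul], by rw [mul_assoc, hy.2]⟩

theorem ald_mul_BC {e x y : R} (hx : InB e x) (hy : InC e y) : InA e (x * y) :=
  ⟨by rw [← mul_assoc, hx.1, zero_mul], by rw [mul_assoc, hy.2, mul_zero]⟩

/-- The left multiplications by elements of `A` on `B`. -/
def ald_T (e : R) : alc_A e →+ ald_B e →+ ald_B e where
  toFun x :=
    { toFun := fun c => ⟨x.1 * c.1, ald_mul_B x.2 c.2⟩
      map_zero' := Subtype.ext (mul_zero _)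
      map_add' := fun c c' => Subtype.ext (mul_add _ _ _) }
  map_zero' := by
    ext c
    exact zero_mul _
  map_add' x y := by
    ext c
    exact add_mul _ _ _

/-- `y ↦ y c`. -/
def ald_g (e c : R) : ald_B e →+ R where
  toFun y := y.1 * c
  map_zero' := zero_mul _
  map_add' _ _ := add_mul _ _ _

theorem ald_run_T (e c : R) (x : ℕ → alc_A e) (m : ald_B e) (k : ℕ) :
    ald_g e c (alc_run (ald_T e) x m k) = pll (fun i => (x i).1) (m.1 * c) k := by
  rw [ald_pll_mul]
  change ((alc_run (ald_T e) x m k : ald_B e) : R) * c = _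
  congr 1
  induction k with
  | zero => rfl
  | succ k ih =>
    change (x k).1 * ((alc_run (ald_T e) x m k : ald_B e) : R) =
      (x k).1 * pll (fun i => (x i).1) m.1 k
    rw [ih]

theorem ald_run_T' (e : R) (x : ℕ → alc_A e) (m : ald_B e) (k : ℕ) :
    ((alc_run (ald_T e) x m k : ald_B e) : R) = pll (fun i => (x i).1) m.1 k := by
  induction k with
  | zero => rfl
  | succ k ih =>
    change (x k).1 * ((alc_run (ald_T e) x m k : ald_B e) : R) =
      (x k).1 * pll (fun i => (x i).1) m.1 k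
    rw [ih]

end ald

theorem thm_Ald (hRla : St_Rla) (hSdd : St_Sdd) (hDet : St_Det) : St_Ald := by
  intro n R _ _ e hc H hH b c k a hTD p r hp hpr hpe
  obtain ⟨s1, s2, s3, s4, -, s6⟩ := hSdd n R e hc H hH b c k a hTD
  have hla := fun a' b' c' (hA : InA e a') (hB : InB e b') (hC : InC e c') =>
    hRla n R 1 (fun _ => e) hc a' 0 b' 0 c' 0 0 (alc_PcA hA) (alc_PcA (alc_A e).zero_mem)
      (alc_PcB hB 0) (alc_PcB (alc_B0 e) 0) (alc_PcC hC 0)
  have hpB : ∀ y, InB e y → p • y = 0 := fun y hB => by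
    rw [← hB.2, ← mul_smul_comm, hpe, mul_zero]
  let G : Set (alc_A e) := {w | ∃ x' x'' : alc_A e, w.1 = x'.1 * x''.1} ∪
    {w | ∃ x' x'', InB e x' ∧ InC e x'' ∧ w.1 = x' * x''} ∪ {w | ∃ x' : alc_A e, w = p • x'}
  have hG : ∀ z ∈ G, (∀ m, ald_T e z m = 0) ∨ ∃ u w, ∀ m, ald_T e z m = ald_T e w (ald_T e u m) := by
    rintro z ((⟨x', x'', h⟩ | ⟨x', x'', h', h'', h⟩) | ⟨x', rfl⟩)
    · refine Or.inr ⟨x'', x', fun m => Subtype.ext ?_⟩
      change z.1 * m.1 = x'.1 * (x''.1 * m.1)
      rw [h, mul_assoc]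
    · refine Or.inl fun m => Subtype.ext ?_
      change z.1 * m.1 = 0
      rw [h, mul_assoc, (hla 0 m.1 x'' (alc_A e).zero_mem m.2 h'').2.2.2.2.2.2, mul_zero]
    · refine Or.inl fun m => Subtype.ext ?_
      change ((p • x' : alc_A e) : R) * m.1 = 0
      rw [AddSubgroup.coe_nsmul, smul_mul_assoc, ← mul_smul_comm, hpB _ m.2, mul_zero]
  have main := fun (g : ald_B e →+ R) =>
    alc_main hDet (ald_T e) (fun x m => Subtype.ext (by
      change x.1 * (x.1 * m.1) = 0
      rw [← mul_assoc]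
      exact (hla x.1 m.1 0 x.2 m.2 (alc_C0 e)).1)) G hG hp
    (fun x => Or.inr ⟨x, rfl⟩) (k := k) (fun m x => Subtype.ext (by
      rw [ald_run_T']
      exact s4 _ m.2 _ fun i => (x i).2)) (alc_a e a) (fun x => by
      refine alc_up ?_ (s1 x.1 x.2)
      rintro y ((⟨l, hl, rfl⟩ | ⟨x', x'', h', h'', rfl⟩) | ⟨x', x'', h', h'', rfl⟩)
      · refine ⟨hTD.ha l hl, AddSubgroup.subset_closure (Or.inl ⟨l, hl, ?_⟩)⟩
        exact Subtype.ext (alc_a_val (hTD.ha l hl)).symm
      · exact ⟨alc_mul_A h' h'', AddSubgroup.subset_closure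
          (Or.inr (Or.inl (Or.inl ⟨⟨x', h'⟩, ⟨x'', h''⟩, rfl⟩)))⟩
      · exact ⟨ald_mul_BC h' h'', AddSubgroup.subset_closure
          (Or.inr (Or.inl (Or.inr ⟨x', x'', h', h'', rfl⟩)))⟩) g
  intro b' c' x hB hC hx
  obtain ⟨f, hf, hr⟩ := s3 b' hB
  obtain ⟨f₁, hf₁, hr₁⟩ := s2 c' hC
  have hbf : InB e (b * f) := ⟨by rw [← mul_assoc, hTD.hb.1, zero_mul], by rw [mul_assoc, hf.2]⟩
  have h0 : ∀ y, InA e y → ∀ z, InB e z → pll x (y * z) k = 0 := fun y hy z hz => by
    rw [← ald_pll_cons]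
    refine s4 z hz _ fun i => ?_
    split_ifs
    · exact hy
    · exact hx _
  have e1 : pll x (b' * c') k = pll x (b * f * c') k := by
    have h1 := ald_pll_rest (x := x) (k := k) (P := InA e) (Q := InB e) (u := fun y => y * c')
      (zero_mul c') (fun y z => add_mul _ _ _) (fun y => neg_mul _ _)
      (fun y hy z hz => by rw [ald_pll_mul, h0 y hy z hz, zero_mul]) hr
    have := ald_pll_add x ((b' - b * f) * c') (b * f * c') k
    rw [h1, ← add_mul, sub_add_cancel, zero_add] at this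
    exact this
  have e2 : pll x (b * f * c') k = pll x (b * (f * f₁) * c) k := by
    have h1 := ald_pll_rest (x := x) (k := k) (P := InC e) (Q := InA e)
      (u := fun y => b * f * y) (mul_zero _) (fun y z => mul_add _ _ _)
      (fun y => mul_neg _ _) (fun y hy z hz => by
        have := (hla z (b * f) y hz hbf hy).2.2.2.2.1
        have h2 : b * f * (y * z) = -(z * (b * f) * y) := by
          rw [← mul_assoc (b * f), eq_neg_iff_add_eq_zero, add_comm]
          exact this
        rw [h2, ald_pll_neg, ald_pll_mul, h0 z hz _ hbf, zero_mul, neg_zero]) hr₁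
    have := ald_pll_add x (b * f * (c' - f₁ * c)) (b * (f * f₁) * c) k
    have h3 : b * f * (c' - f₁ * c) + b * (f * f₁) * c = b * f * c' := by
      rw [mul_sub, ← mul_assoc b f f₁, mul_assoc (b * f) f₁ c, sub_add_cancel]
    rw [h3, h1, zero_add] at this
    exact this
  have hff : InF e (f * f₁) := ⟨by rw [← mul_assoc, hf.1], by rw [mul_assoc, hf₁.2]⟩
  have hbff : InB e (b * (f * f₁)) :=
    ⟨by rw [← mul_assoc, hTD.hb.1, zero_mul], by rw [mul_assoc, hff.2]⟩
  constructor
  · obtain ⟨m, hm⟩ := (main (ald_g e c) ⟨b * (f * f₁), hbff⟩).1 fun i => ⟨x i, hx i⟩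
    rw [ald_run_T, ald_run_T] at hm
    change pll x (b * (f * f₁) * c) k = m • pll (fun i => (alc_a e a i).1)
      (b * (f * f₁) * c) k at hm
    rw [ald_pll_congr k (fun l hl => alc_a_val (hTD.ha l hl))] at hm
    rw [e1, e2, hm]
    exact H.zsmul_mem (s6 _ hff) m
  · intro hne
    refine ⟨fun y hy => ?_, ⟨f, hf, ?_, hr⟩, ⟨f₁, hf₁, ?_, hr₁⟩⟩
    · have := (main (ald_g e c') ⟨b', hB⟩).2 (fun i => ⟨x i, hx i⟩) (fun h => hne (by
        rw [ald_run_T] at h
        exact h)) ⟨y, hy⟩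
      refine alc_down ?_ this
      rintro w (⟨l, hl, rfl⟩ | (⟨x', x'', h⟩ | ⟨x', x'', h', h'', h⟩) | ⟨x', rfl⟩)
      · exact AddSubgroup.subset_closure (Or.inl (Or.inl (Or.inl ⟨l, hl, rfl⟩)))
      · exact AddSubgroup.subset_closure (Or.inl (Or.inl (Or.inr ⟨x'.1, x''.1, x'.2, x''.2, h⟩)))
      · exact AddSubgroup.subset_closure (Or.inl (Or.inr ⟨x', x'', h', h'', h⟩))
      · exact AddSubgroup.subset_closure (Or.inr ⟨x'.1, x'.2, rfl⟩)
    · rintro rfl
      apply hne
      rw [e1, mul_zero, zero_mul]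
      exact ald_pll_zero x k
    · rintro rfl
      apply hne
      rw [e1, e2, mul_zero, mul_zero, zero_mul]
      exact ald_pll_zero x k

end Pool.Agent.CRN
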