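import Pool.Agent.CRN.St

/-!
Campaign CRN, module Asm: the theorem from the other modules.
-/

set_option autoImplicit false

namespace Pool.Agent.CRN

open Pool.Agent.CRR

theorem thm_Asm (hSir : St_Sir) (hOpp : St_Opp) (hTwg : St_Twg) (hCm1 : St_Cm1) (hCm2 : St_Cm2)
    (hCm3 : St_Cm3) (hCtr : St_Ctr) (hFwa : St_Fwa) (hFwb : St_Fwb) (hCaa : St_Caa)
    (hCbd : St_Cbd) (hCcc : St_Ccc) (hCdd : St_Cdd) (hEvn : St_Evn) : St_Asm := by
  intro n hn R _ _ hM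
  haveI : Finite Rᵐᵒᵖ := Finite.of_equiv R MulOpposite.opEquiv
  refine ⟨fun hT => ⟨fun hC => ?_, ?_⟩, fun hT hF hg => ⟨fun hC => ?_, ?_⟩, fun h => ?_⟩
  · exact hTwg n hn R hM (hSir R hC) hT
  · rintro (h | h | h | h)
    · exact hCm2 n hn R hM h
    · exact hCm3 n hn R hM h
    · exact hCtr n hn R hM h
    · exact (hOpp R).1 (hCtr n hn Rᵐᵒᵖ ((hOpp R).2.1 n hM) h)
  · rcases hFwa n hn R hC hM hF hT hg with h | ⟨s, e, l, hfam, hs, hl, hG, hw, hgen⟩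
    · exact Or.inl h
    · exact Or.inr (hFwb n R s e ⟨hn, hM, hF, hT, hfam⟩ (hSir R hC) hs l hl hG hw hgen)
  · rintro (h | h | h | h | h | h)
    · exact hCm1 R h
    · exact hCaa n hn R hM hF hT h
    · exact hCbd n hn R hM hF hT h
    · exact hCcc n hn R hM hF hT h
    · exact (hOpp R).1 (hCcc n hn Rᵐᵒᵖ ((hOpp R).2.1 n hM) ((hOpp R).2.2.2.1 inferInstance hF)
        (fun h' => hT ((hOpp R).2.2.1 h')) h)
    · exact hCdd n hn R hM hF hT h
  · exact hEvn n hn R hM h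

end Pool.Agent.CRN
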