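import Pool.Agent.CRN.Cbb

/-!
Campaign CRN, module Caa (helper96): `TyA`.
-/

set_option autoImplicit false

namespace Pool.Agent.CRN

open Pool.Agent.CRR

section

variable {R : Type} [NonUnitalRing R] {e f x : R}

theorem Caa_bm (he : e * e = e) (hf : f * f = f) (b : R) (hb : b ∈ Bm e f x) :
    e * b = b ∧ b * f = b := by
  have hb' : b ∈ AddSubgroup.closure {w | ∃ a b, w = (e * a * e) * x * (f * b * f)} := hb
  induction hb' using AddSubgroup.closure_induction with
  | mem w hw =>
    obtain ⟨a, b, rfl⟩ := hw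
    constructor
    · calc e * ((e * a * e) * x * (f * b * f)) = (e * e) * a * e * x * (f * b * f) := by
            simp only [mul_assoc]
        _ = (e * a * e) * x * (f * b * f) := by rw [he]
    · calc ((e * a * e) * x * (f * b * f)) * f = (e * a * e) * x * (f * b * (f * f)) := by
            simp only [mul_assoc]
        _ = (e * a * e) * x * (f * b * f) := by rw [hf]
  | zero => exact ⟨mul_zero _, zero_mul _⟩
  | add a c ha hc iha ihc =>
    exact ⟨by rw [mul_add, (iha ha).1, (ihc hc).1], by rw [add_mul, (iha ha).2, (ihc hc).2]⟩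
  | neg a ha iha => exact ⟨by rw [mul_neg, (iha ha).1], by rw [neg_mul, (iha ha).2]⟩

theorem Caa_bml (s b : R) (h1 : e * s = s) (h2 : s * e = s) (hb : b ∈ Bm e f x) :
    s * b ∈ Bm e f x := by
  have hb' : b ∈ AddSubgroup.closure {w | ∃ a b, w = (e * a * e) * x * (f * b * f)} := hb
  induction hb' using AddSubgroup.closure_induction with
  | mem w hw =>
    obtain ⟨a, b, rfl⟩ := hw
    refine AddSubgroup.subset_closure ⟨s * a, b, ?_⟩
    calc s * ((e * a * e) * x * (f * b * f)) = (s * e) * a * e * x * (f * b * f) := by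
          simp only [mul_assoc]
      _ = (e * s) * a * e * x * (f * b * f) := by rw [h2, h1]
      _ = (e * (s * a) * e) * x * (f * b * f) := by simp only [mul_assoc]
  | zero => rw [mul_zero]; exact AddSubgroup.zero_mem _
  | add a c ha hc iha ihc => rw [mul_add]; exact AddSubgroup.add_mem _ (iha ha) (ihc hc)
  | neg a ha iha => rw [mul_neg]; exact AddSubgroup.neg_mem _ (iha ha)

theorem Caa_bmr (s b : R) (h1 : f * s = s) (h2 : s * f = s) (hb : b ∈ Bm e f x) :
    b * s ∈ Bm e f x := by
  have hb' : b ∈ AddSubgroup.closure {w | ∃ a b, w = (e * a * e) * x * (f * b * f)} := hb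
  induction hb' using AddSubgroup.closure_induction with
  | mem w hw =>
    obtain ⟨a, b, rfl⟩ := hw
    refine AddSubgroup.subset_closure ⟨a, b * s, ?_⟩
    calc ((e * a * e) * x * (f * b * f)) * s = (e * a * e) * x * (f * b * (f * s)) := by
          simp only [mul_assoc]
      _ = (e * a * e) * x * (f * b * (s * f)) := by rw [h1, h2]
      _ = (e * a * e) * x * (f * (b * s) * f) := by simp only [mul_assoc]
  | zero => rw [zero_mul]; exact AddSubgroup.zero_mem _
  | add a c ha hc iha ihc => rw [add_mul]; exact AddSubgroup.add_mem _ (iha ha) (ihc hc)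
  | neg a ha iha => rw [neg_mul]; exact AddSubgroup.neg_mem _ (iha ha)

theorem Caa_bmle {H : AddSubgroup R} (hH : Idl R H) (b : R) (hb : b ∈ H) : Bm e f b ≤ H := by
  refine (AddSubgroup.closure_le H).2 ?_
  rintro _ ⟨c, d, rfl⟩
  exact (hH _ _ (hH _ b hb).1).2

end

section

variable {n : ℕ} {R : Type} [NonUnitalRing R] [Finite R] {s : ℕ} {e : Fin s → R}

/-- `R` is the sum of the fields and of `Bm z` -/
theorem Caa_str (hJid : St_Jid) (hC : Cx n R s e) {i j : Fin s} {z : R} (hij : i ≠ j)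
    (hz : Pc e (some i) (some j) z) (hg : NonUnitalSubring.closure (G0 e ∪ {z}) = ⊤) (x : R) :
    x - ∑ m, e m * x * e m ∈ Bm (e i) (e j) z := by
  obtain ⟨_, _, j3, _, _, _, _⟩ := hJid n R s e hC
  have hei : e i * e i = e i := (hC.fam.fld i).1
  have hej : e j * e j = e j := (hC.fam.fld j).1
  have hx : x ∈ NonUnitalSubring.closure (G0 e ∪ {z}) := by
    rw [hg]
    trivial
  induction hx using NonUnitalSubring.closure_induction with
  | mem x hx =>
    rcases hx with ⟨m, h1, h2⟩ | hx
    · have h3 : ∑ k, e k * x * e k = x := by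
        rw [Finset.sum_eq_single m]
        · rw [h1, h2]
        · intro k _ hk
          rw [← h1, ← mul_assoc, hC.fam.orth k m hk, zero_mul, zero_mul]
        · intro h
          exact absurd (Finset.mem_univ m) h
      rw [h3, sub_self]
      exact AddSubgroup.zero_mem _
    · have hxz : x = z := hx
      rw [hxz]
      have h3 : ∑ k, e k * z * e k = 0 := by
        refine Finset.sum_eq_zero fun k _ => ?_
        by_cases hk : k = i
        · subst hk
          rw [mul_assoc, hz.2 k, if_neg (fun h => hij (Option.some_injective _ h).symm), mul_zero]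
        · rw [hz.1 k, if_neg (fun h => hk (Option.some_injective _ h).symm), zero_mul]
      rw [h3, sub_zero]
      refine AddSubgroup.subset_closure ⟨e i, e j, ?_⟩
      rw [hei, hei, hej, hej, hz.1 i, if_pos rfl, hz.2 j, if_pos rfl]
  | zero =>
    have h3 : ∑ k, e k * (0 : R) * e k = 0 :=
      Finset.sum_eq_zero fun k _ => by rw [mul_zero, zero_mul]
    rw [h3, sub_zero]
    exact AddSubgroup.zero_mem _
  | add x y _ _ ihx ihy =>
    have h3 : x + y - ∑ k, e k * (x + y) * e k =
        (x - ∑ k, e k * x * e k) + (y - ∑ k, e k * y * e k) := by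
      have h4 : ∑ k, e k * (x + y) * e k = ∑ k, e k * x * e k + ∑ k, e k * y * e k := by
        rw [← Finset.sum_add_distrib]
        exact Finset.sum_congr rfl fun k _ => by rw [mul_add, add_mul]
      rw [h4]
      abel
    rw [h3]
    exact AddSubgroup.add_mem _ ihx ihy
  | neg x _ ihx =>
    have h3 : -x - ∑ k, e k * (-x) * e k = -(x - ∑ k, e k * x * e k) := by
      have h4 : ∑ k, e k * (-x) * e k = -∑ k, e k * x * e k := by
        rw [← Finset.sum_neg_distrib]
        exact Finset.sum_congr rfl fun k _ => by rw [mul_neg, neg_mul]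
      rw [h4]
      abel
    rw [h3]
    exact AddSubgroup.neg_mem _ ihx
  | mul x y _ _ ihx ihy =>
    obtain ⟨b, hb⟩ : ∃ b, b = x - ∑ k, e k * x * e k := ⟨_, rfl⟩
    obtain ⟨c, hc⟩ : ∃ c, c = y - ∑ k, e k * y * e k := ⟨_, rfl⟩
    rw [← hb] at ihx
    rw [← hc] at ihy
    have hx' : x = ∑ k, e k * x * e k + b := by rw [hb]; abel
    have hy' : y = ∑ k, e k * y * e k + c := by rw [hc]; abel
    obtain ⟨b1, b2⟩ := Caa_bm hei hej b ihx
    obtain ⟨c1, c2⟩ := Caa_bm hei hej c ihy
    have hbc : b * c = 0 := by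
      rw [← b2, ← c1, mul_assoc, ← mul_assoc (e j), hC.fam.orth j i hij.symm, zero_mul, mul_zero]
    have hxc : (∑ k, e k * x * e k) * c = (e i * x * e i) * c := by
      rw [Finset.sum_mul, Finset.sum_eq_single i]
      · intro k _ hk
        rw [← c1, ← mul_assoc, mul_assoc _ (e k) (e i), hC.fam.orth k i hk, mul_zero, zero_mul]
      · intro h
        exact absurd (Finset.mem_univ i) h
    have hby : b * (∑ k, e k * y * e k) = b * (e j * y * e j) := by
      rw [Finset.mul_sum, Finset.sum_eq_single j]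
      · intro k _ hk
        rw [← b2, mul_assoc, ← mul_assoc (e j) (e k * y), ← mul_assoc (e j) (e k),
          hC.fam.orth j k hk.symm, zero_mul, zero_mul, mul_zero]
      · intro h
        exact absurd (Finset.mem_univ j) h
    have hxy : (∑ k, e k * x * e k) * (∑ k, e k * y * e k) = ∑ k, e k * (x * y) * e k := by
      rw [Finset.sum_mul]
      refine Finset.sum_congr rfl fun k _ => ?_
      rw [Finset.mul_sum, Finset.sum_eq_single k]
      · exact (j3 k x y).symm
      · intro m _ hm
        calc e k * x * e k * (e m * y * e m) = e k * x * (e k * e m) * (y * e m) := by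
              simp only [mul_assoc]
          _ = 0 := by rw [hC.fam.orth k m hm.symm, mul_zero, zero_mul]
      · intro h
        exact absurd (Finset.mem_univ k) h
    have hfin : x * y - ∑ k, e k * (x * y) * e k =
        (e i * x * e i) * c + b * (e j * y * e j) := by
      have h1 : x * y = (∑ k, e k * x * e k + b) * (∑ k, e k * y * e k + c) := by
        rw [← hx', ← hy']
      rw [add_mul, mul_add, mul_add, hbc, add_zero, hxc, hby, hxy] at h1
      rw [h1]
      have h2 : ∑ k, e k * (∑ k, e k * (x * y) * e k + e i * x * e i * c +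
          b * (e j * y * e j)) * e k = ∑ k, e k * (x * y) * e k := by
        rw [← h1]
      rw [h2]
      abel
    rw [hfin]
    refine AddSubgroup.add_mem _ (Caa_bml _ _ ?_ ?_ ihy) (Caa_bmr _ _ ?_ ?_ ihx)
    · rw [← mul_assoc, ← mul_assoc, hei]
    · rw [mul_assoc, hei]
    · rw [← mul_assoc, ← mul_assoc, hej]
    · rw [mul_assoc, hej]

end

theorem thm_Caa (hCov : St_Cov) (hJid : St_Jid) (hPca : St_Pca) (hVrt : St_Vrt) (hCrg : St_Crg)
    (hDlt : St_Dlt) (hEof : St_Eof) : St_Caa := by
  intro n hn R _ _ hR hFC hNT hTy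
  obtain ⟨⟨H, hH⟩, s, e, i, j, z, hFam, hij, hz0, hz, hSm, hg⟩ := hTy
  have hC : Cx n R s e := ⟨hn, hR, hFC, hNT, hFam⟩
  obtain ⟨j1, j2, j3, j4, j5, j6, j7⟩ := hJid n R s e hC
  have hei : e i * e i = e i := (hC.fam.fld i).1
  have hej : e j * e j = e j := (hC.fam.fld j).1
  obtain ⟨dI1, dI2, dI3, dI4, dI5⟩ := hDlt R (e i) (hC.fam.fld i)
  obtain ⟨dL1, dL2, dL3, dL4, dL5⟩ := hDlt R (e j) (hC.fam.fld j)
  have hcov : ∀ m, m = i ∨ m = j := by
    intro m
    by_contra hm
    push Not at hm
    refine hz0 (hCov R s e hFam ⟨H, hH⟩ {z} hg m ?_ z rfl)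
    intro z' hz'
    rw [Set.mem_singleton_iff] at hz'
    rw [hz']
    exact ⟨by rw [hz.1 m, if_neg (fun h => hm.1 (Option.some_injective _ h).symm)],
      by rw [hz.2 m, if_neg (fun h => hm.2 (Option.some_injective _ h).symm)]⟩
  have hJB : ∀ y ∈ JJ e, y ∈ Bm (e i) (e j) z := by
    intro y hy
    have h1 := Caa_str hJid hC hij hz hg y
    have h2 : ∑ m, e m * y * e m = 0 := Finset.sum_eq_zero fun m _ => hy m
    rwa [h2, sub_zero] at h1
  have hJe : ∀ y ∈ JJ e, e i * y = y ∧ y * e j = y := fun y hy =>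
    Caa_bm hei hej y (hJB y hy)
  have hJJ : ∀ x ∈ JJ e, ∀ y ∈ JJ e, x * y = 0 := by
    intro x hx y hy
    rw [← (hJe x hx).2, ← (hJe y hy).1, mul_assoc, ← mul_assoc (e j),
      hC.fam.orth j i hij.symm, zero_mul, mul_zero]
  have hzJ : z ∈ JJ e := j5 (some i) (some j) z hz
    (fun h => absurd (Option.some_injective _ h) hij)
  have hHJ : H ≤ JJ e := by
    refine hH.2.2 _ j1 ?_
    intro hb
    rw [hb, AddSubgroup.mem_bot] at hzJ
    exact hz0 hzJ
  have hJH : JJ e ≤ H := by
    obtain ⟨y, hyH, hy0⟩ : ∃ y ∈ H, y ≠ 0 := by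
      by_contra hcon
      push Not at hcon
      exact hH.2.1 ((AddSubgroup.eq_bot_iff_forall H).2 hcon)
    have hzH : z ∈ H := Caa_bmle hH.1 y hyH (hSm y (hJB y (hHJ hyH)) hy0)
    intro x hx
    exact Caa_bmle hH.1 z hzH (hJB x hx)
  -- the terms
  let E0 : (ℕ → R) → R := fun v => Eo n v 0
  let E1 : (ℕ → R) → R := fun v => Eo n v 1
  let T0 : (ℕ → R) → R := fun v => dq (e i) (E0 v * v 2 * E0 v)
  let T1 : (ℕ → R) → R := fun v => dq (e j) (E1 v * v 3 * E1 v)
  let X : (ℕ → R) → R := fun v => E0 v * v 4 * E1 v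
  have tE0 : TmF E0 := TmF.Eo n (u := fun j v => v j) (fun j => TmF.var j) 0
  have tE1 : TmF E1 := TmF.Eo n (u := fun j v => v j) (fun j => TmF.var j) 1
  have tT0 : TmF T0 := TmF.dq (e i) ((tE0.mul (TmF.var 2)).mul tE0)
  have tT1 : TmF T1 := TmF.dq (e j) ((tE1.mul (TmF.var 3)).mul tE1)
  have tX : TmF X := (tE0.mul (TmF.var 4)).mul tE1
  have hE00 : ∀ v, E0 v * E0 v = E0 v := fun v => (hEof n hC.n4 R hC.inM v).1 0
  have hE11 : ∀ v, E1 v * E1 v = E1 v := fun v => (hEof n hC.n4 R hC.inM v).1 1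
  have hE01 : ∀ v, E0 v * E1 v = 0 := fun v =>
    (hEof n hC.n4 R hC.inM v).2.1 0 1 (by norm_num)
  have hE10 : ∀ v, E1 v * E0 v = 0 := fun v =>
    (hEof n hC.n4 R hC.inM v).2.1 1 0 (by norm_num)
  have hX : ∀ v, X v ∈ JJ e := fun v => Cbb_mid hJid hC (E0 v) (E1 v) (v 4) (hE00 v) (hE01 v)
  have hφJ : ∀ v, T0 v * X v * T1 v ∈ JJ e := fun v =>
    (j1 (T1 v) _ (j1 (T0 v) (X v) (hX v)).1).2
  have hET0 : ∀ v, E0 v * T0 v = T0 v := fun v =>
    dI3 (E0 v) _ (by rw [← mul_assoc, ← mul_assoc, hE00])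
  have hTE1 : ∀ v, T1 v * E1 v = T1 v := fun v =>
    dL4 (E1 v) _ (by rw [mul_assoc, hE11])
  refine hCrg R H hH (fun v => T0 v * X v * T1 v) ((tT0.mul tX).mul tT1)
    (fun v => hJH (hφJ v)) ?_ ?_
  · obtain ⟨t0, ta1, ta2, ta3⟩ := dI1
    obtain ⟨t1, tb1, tb2, tb3⟩ := dL1
    obtain ⟨v, hv⟩ : ∃ v : ℕ → R, v = fun k => if k = 0 then e i else if k = 1 then e j else
      if k = 2 then t0 else if k = 3 then t1 else z := ⟨_, rfl⟩
    have v0 : v 0 = e i := by rw [hv]; rfl
    have v1 : v 1 = e j := by rw [hv]; rfl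
    have v2 : v 2 = t0 := by rw [hv]; rfl
    have v3 : v 3 = t1 := by rw [hv]; rfl
    have v4 : v 4 = z := by rw [hv]; rfl
    have hE := (hEof n hC.n4 R hC.inM v).2.2 2 (by
      intro k hk
      rcases (by omega : k = 0 ∨ k = 1) with rfl | rfl
      · rw [v0]; exact hei
      · rw [v1]; exact hej) (by
      intro k k' hk hk' hkk
      rcases (by omega : (k = 0 ∧ k' = 1) ∨ (k = 1 ∧ k' = 0)) with ⟨rfl, rfl⟩ | ⟨rfl, rfl⟩
      · rw [v0, v1]; exact hC.fam.orth i j hij
      · rw [v0, v1]; exact hC.fam.orth j i hij.symm)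
    have e0 : E0 v = e i := (hE 0 (by norm_num)).trans v0
    have e1 : E1 v = e j := (hE 1 (by norm_num)).trans v1
    have hT0 : T0 v = dq (e i) t0 := by
      show dq (e i) (E0 v * v 2 * E0 v) = dq (e i) t0
      rw [e0, v2, ta1, ta2]
    have hT1 : T1 v = dq (e j) t1 := by
      show dq (e j) (E1 v * v 3 * E1 v) = dq (e j) t1
      rw [e1, v3, tb1, tb2]
    have hz1 : e i * z = z := by
      rw [hz.1 i, if_pos rfl]
    have hz2 : z * e j = z := by
      rw [hz.2 j, if_pos rfl]
    have hXv : X v = z := by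
      show E0 v * v 4 * E1 v = z
      rw [e0, e1, v4, hz1, hz2]
    have hd01 : e i * dq (e i) t0 = dq (e i) t0 := dI3 (e i) t0 ta1
    have hd02 : dq (e i) t0 * e i = dq (e i) t0 := dI4 (e i) t0 ta2
    have hd11 : e j * dq (e j) t1 = dq (e j) t1 := dL3 (e j) t1 tb1
    have hd12 : dq (e j) t1 * e j = dq (e j) t1 := dL4 (e j) t1 tb2
    obtain ⟨w0, hw0, _⟩ := Cbc_inv (hC.fam.fld i) _ hd01 hd02 ta3
    obtain ⟨w1, _, hw1⟩ := Cbc_inv (hC.fam.fld j) _ hd11 hd12 tb3
    refine ⟨v, fun h => hz0 ?_⟩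
    have h' : T0 v * X v * T1 v = 0 := h
    rw [hT0, hT1, hXv] at h'
    calc z = e i * z * e j := by rw [hz1, hz2]
      _ = ((w0 * dq (e i) t0) * z) * (dq (e j) t1 * w1) := by rw [hw0, hw1]
      _ = w0 * (dq (e i) t0 * z * dq (e j) t1) * w1 := by simp only [mul_assoc]
      _ = 0 := by rw [h', mul_zero, zero_mul]
  · intro S hS v hv
    by_contra hne
    have hne' : T0 v * X v * T1 v ≠ 0 := hne
    obtain ⟨h, hh⟩ : ∃ h : R, h = T0 v * X v * T1 v := ⟨_, rfl⟩
    have hh0 : h ≠ 0 := by rw [hh]; exact hne'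
    have hhJ : h ∈ JJ e := by rw [hh]; exact hφJ v
    have hhS : h ∈ S := by
      rw [hh]
      exact ((tT0.mul tX).mul tT1).mem S v hv
    obtain ⟨hih, hhl⟩ := hJe h hhJ
    have hEh : E0 v * h = h := by
      calc E0 v * h = (E0 v * T0 v) * X v * T1 v := by rw [hh]; simp only [mul_assoc]
        _ = h := by rw [hET0, hh]
    have hhE : h * E1 v = h := by
      calc h * E1 v = T0 v * X v * (T1 v * E1 v) := by rw [hh]; simp only [mul_assoc]
        _ = h := by rw [hTE1, hh]
    have hT00 : T0 v ≠ 0 := by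
      intro h0
      apply hh0
      rw [hh, h0, zero_mul, zero_mul]
    have hT10 : T1 v ≠ 0 := by
      intro h0
      apply hh0
      rw [hh, h0, mul_zero]
    have hr0 : e i * E0 v * e i = e i := by
      rcases j6 (E0 v) (hE00 v) i with h1 | h1
      · refine (hh0 ?_).elim
        calc h = e i * (E0 v * (e i * h)) := by rw [hih, hEh, hih]
          _ = (e i * E0 v * e i) * h := by simp only [mul_assoc]
          _ = 0 := by rw [h1, zero_mul]
      · exact h1
    have hr1 : e j * E1 v * e j = e j := by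
      rcases j6 (E1 v) (hE11 v) j with h1 | h1
      · refine (hh0 ?_).elim
        calc h = ((h * e j) * E1 v) * e j := by rw [hhl, hhE, hhl]
          _ = h * (e j * E1 v * e j) := by simp only [mul_assoc]
          _ = 0 := by rw [h1, mul_zero]
      · exact h1
    have hSE0 : E0 v ∈ S := tE0.mem S v hv
    have hSE1 : E1 v ∈ S := tE1.mem S v hv
    have hdec : ∀ x, ∃ y ∈ S, x - y ∈ JJ e := by
      refine hVrt n R s e hC S (fun m => if m = i then E0 v else E1 v)
        (fun m => if m = i then E0 v * v 2 * E0 v else E1 v * v 3 * E1 v) ?_ ?_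
      · intro m
        by_cases hm : m = i
        · subst hm
          simp only [if_true]
          exact ⟨hSE0, S.mul_mem (S.mul_mem hSE0 (hv 2)) hSE0, hE00 v, hr0,
            by rw [← mul_assoc, ← mul_assoc, hE00], by rw [mul_assoc, hE00], hT00⟩
        · have hml : m = j := (hcov m).resolve_left hm
          subst hml
          simp only [if_neg hm]
          exact ⟨hSE1, S.mul_mem (S.mul_mem hSE1 (hv 3)) hSE1, hE11 v, hr1,
            by rw [← mul_assoc, ← mul_assoc, hE11], by rw [mul_assoc, hE11], hT10⟩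
      · intro m m' hmm
        by_cases hm : m = i
        · have hm' : ¬ m' = i := fun h => hmm (hm.trans h.symm)
          simp only [if_pos hm, if_neg hm']
          exact hE01 v
        · have hml : m = j := (hcov m).resolve_left hm
          have hm' : m' = i := (hcov m').resolve_right (fun h => hmm (hml.trans h.symm))
          simp only [if_neg hm, if_pos hm']
          exact hE10 v
    let I : AddSubgroup R :=
      { carrier := {y | y ∈ S ∧ y ∈ JJ e}
        zero_mem' := ⟨S.zero_mem, (JJ e).zero_mem⟩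
        add_mem' := fun ha hb => ⟨S.add_mem ha.1 hb.1, (JJ e).add_mem ha.2 hb.2⟩
        neg_mem' := fun ha => ⟨S.neg_mem ha.1, (JJ e).neg_mem ha.2⟩ }
    have hI : Idl R I := by
      intro r y hy
      obtain ⟨y1, y2⟩ : y ∈ S ∧ y ∈ JJ e := hy
      obtain ⟨r', hr', hrr⟩ := hdec r
      have h1 : r * y = r' * y := by
        have h2 := hJJ _ hrr y y2
        rw [sub_mul] at h2
        exact sub_eq_zero.1 h2
      have h3 : y * r = y * r' := by
        have h2 := hJJ y y2 _ hrr
        rw [mul_sub] at h2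
        exact sub_eq_zero.1 h2
      constructor
      · exact ⟨by rw [h1]; exact S.mul_mem hr' y1, (j1 r y y2).1⟩
      · exact ⟨by rw [h3]; exact S.mul_mem y1 hr', (j1 r y y2).2⟩
    have hIb : I ≠ ⊥ := by
      intro hb
      have h1 : h ∈ I := ⟨hhS, hhJ⟩
      rw [hb, AddSubgroup.mem_bot] at h1
      exact hh0 h1
    have hHI := hH.2.2 I hI hIb
    apply hS
    rw [eq_top_iff]
    intro x _
    obtain ⟨y, hy, hxy⟩ := hdec x
    have h1 : x - y ∈ S := (hHI (hJH hxy)).1
    have h2 : x = (x - y) + y := by rw [sub_add_cancel]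
    rw [h2]
    exact S.add_mem h1 hy

end Pool.Agent.CRN
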