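import Pool.Agent.CRN.Cbb

/-!
Campaign CRN, module Cba (helper96): `TyB`, three fields.
-/

set_option autoImplicit false

namespace Pool.Agent.CRN

open Pool.Agent.CRR

theorem thm_Cba (hSbb : St_Sbb) (hFnb : St_Fnb) (hJid : St_Jid) (hPca : St_Pca) (hVrt : St_Vrt)
    (hCrg : St_Crg) (hDlt : St_Dlt) (hEof : St_Eof) : St_Cba := by
  intro n R _ _ s e hC hH i j l z z' hTB
  obtain ⟨H, hH⟩ := hH
  obtain ⟨j1, j2, j3, j4, j5, j6, j7⟩ := hJid n R s e hC
  obtain ⟨s1, s2, s3, s4, s5, s6⟩ := hSbb n R s e hC H hH (some i) (some j) (some l) z z' hTB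
  have hij : i ≠ j := fun h => hTB.ab (by rw [h])
  have hjl : j ≠ l := fun h => hTB.bg (by rw [h])
  have hil : i ≠ l := fun h => hTB.ag (by rw [h])
  obtain ⟨dI1, dI2, dI3, dI4, dI5⟩ := hDlt R (e i) (hC.fam.fld i)
  obtain ⟨dJ1, dJ2, dJ3, dJ4, dJ5⟩ := hDlt R (e j) (hC.fam.fld j)
  obtain ⟨dL1, dL2, dL3, dL4, dL5⟩ := hDlt R (e l) (hC.fam.fld l)
  -- the terms
  let E0 : (ℕ → R) → R := fun v => Eo n v 0
  let E1 : (ℕ → R) → R := fun v => Eo n v 1
  let E2 : (ℕ → R) → R := fun v => Eo n v 2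
  let T0 : (ℕ → R) → R := fun v => dq (e i) (E0 v * v 3 * E0 v)
  let T1 : (ℕ → R) → R := fun v => dq (e j) (E1 v * v 4 * E1 v)
  let T2 : (ℕ → R) → R := fun v => dq (e l) (E2 v * v 5 * E2 v)
  let X : (ℕ → R) → R := fun v => T0 v * (E0 v * v 6 * E1 v) * T1 v
  let Y : (ℕ → R) → R := fun v => E1 v * v 7 * E2 v * T2 v
  have tE0 : TmF E0 := TmF.Eo n (u := fun j v => v j) (fun j => TmF.var j) 0
  have tE1 : TmF E1 := TmF.Eo n (u := fun j v => v j) (fun j => TmF.var j) 1
  have tE2 : TmF E2 := TmF.Eo n (u := fun j v => v j) (fun j => TmF.var j) 2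
  have tT0 : TmF T0 := TmF.dq (e i) ((tE0.mul (TmF.var 3)).mul tE0)
  have tT1 : TmF T1 := TmF.dq (e j) ((tE1.mul (TmF.var 4)).mul tE1)
  have tT2 : TmF T2 := TmF.dq (e l) ((tE2.mul (TmF.var 5)).mul tE2)
  have tX : TmF X := (tT0.mul ((tE0.mul (TmF.var 6)).mul tE1)).mul tT1
  have tY : TmF Y := ((tE1.mul (TmF.var 7)).mul tE2).mul tT2
  have hE00 : ∀ v, E0 v * E0 v = E0 v := fun v => (hEof n hC.n4 R hC.inM v).1 0
  have hE11 : ∀ v, E1 v * E1 v = E1 v := fun v => (hEof n hC.n4 R hC.inM v).1 1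
  have hE22 : ∀ v, E2 v * E2 v = E2 v := fun v => (hEof n hC.n4 R hC.inM v).1 2
  have hE01 : ∀ v, E0 v * E1 v = 0 := fun v =>
    (hEof n hC.n4 R hC.inM v).2.1 0 1 (by norm_num)
  have hE10 : ∀ v, E1 v * E0 v = 0 := fun v =>
    (hEof n hC.n4 R hC.inM v).2.1 1 0 (by norm_num)
  have hE02 : ∀ v, E0 v * E2 v = 0 := fun v =>
    (hEof n hC.n4 R hC.inM v).2.1 0 2 (by norm_num)
  have hE20 : ∀ v, E2 v * E0 v = 0 := fun v =>
    (hEof n hC.n4 R hC.inM v).2.1 2 0 (by norm_num)
  have hE12 : ∀ v, E1 v * E2 v = 0 := fun v =>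
    (hEof n hC.n4 R hC.inM v).2.1 1 2 (by norm_num)
  have hE21 : ∀ v, E2 v * E1 v = 0 := fun v =>
    (hEof n hC.n4 R hC.inM v).2.1 2 1 (by norm_num)
  have hX : ∀ v, X v ∈ JJ e := fun v => (j1 (T1 v) _ (j1 (T0 v) _
    (Cbb_mid hJid hC (E0 v) (E1 v) (v 6) (hE00 v) (hE01 v))).1).2
  have hY : ∀ v, Y v ∈ JJ e := fun v => (j1 (T2 v) _
    (Cbb_mid hJid hC (E1 v) (E2 v) (v 7) (hE11 v) (hE12 v))).2
  have hPc : ∀ v, Pc e (some i) (some l) (X v * Y v) := fun v => s6 _ (hX v) _ (hY v)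
  have hET0 : ∀ v, E0 v * T0 v = T0 v := fun v =>
    dI3 (E0 v) _ (by rw [← mul_assoc, ← mul_assoc, hE00])
  have hTE2 : ∀ v, T2 v * E2 v = T2 v := fun v =>
    dL4 (E2 v) _ (by rw [mul_assoc, hE22])
  refine hCrg R H hH (fun v => X v * Y v) (tX.mul tY) (fun v => s5 _ (hPc v)) ?_ ?_
  · obtain ⟨t0, ta1, ta2, ta3⟩ := dI1
    obtain ⟨t1, tb1, tb2, tb3⟩ := dJ1
    obtain ⟨t2, tc1, tc2, tc3⟩ := dL1
    have hd01 : e i * dq (e i) t0 = dq (e i) t0 := dI3 (e i) t0 ta1
    have hd02 : dq (e i) t0 * e i = dq (e i) t0 := dI4 (e i) t0 ta2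
    have hd11 : e j * dq (e j) t1 = dq (e j) t1 := dJ3 (e j) t1 tb1
    have hd12 : dq (e j) t1 * e j = dq (e j) t1 := dJ4 (e j) t1 tb2
    have hd21 : e l * dq (e l) t2 = dq (e l) t2 := dL3 (e l) t2 tc1
    have hd22 : dq (e l) t2 * e l = dq (e l) t2 := dL4 (e l) t2 tc2
    obtain ⟨w0, hw0, _⟩ := Cbc_inv (hC.fam.fld i) _ hd01 hd02 ta3
    obtain ⟨w1, hw1, _⟩ := Cbc_inv (hC.fam.fld j) _ hd11 hd12 tb3
    obtain ⟨w2, _, hw2⟩ := Cbc_inv (hC.fam.fld l) _ hd21 hd22 tc3
    obtain ⟨v, hv⟩ : ∃ v : ℕ → R, v = fun k => if k = 0 then e i else if k = 1 then e j else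
      if k = 2 then e l else if k = 3 then t0 else if k = 4 then t1 else if k = 5 then t2 else
      if k = 6 then z * w1 else z' := ⟨_, rfl⟩
    have v0 : v 0 = e i := by rw [hv]; rfl
    have v1 : v 1 = e j := by rw [hv]; rfl
    have v2 : v 2 = e l := by rw [hv]; rfl
    have v3 : v 3 = t0 := by rw [hv]; rfl
    have v4 : v 4 = t1 := by rw [hv]; rfl
    have v5 : v 5 = t2 := by rw [hv]; rfl
    have v6 : v 6 = z * w1 := by rw [hv]; rfl
    have v7 : v 7 = z' := by rw [hv]; rfl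
    have hE := (hEof n hC.n4 R hC.inM v).2.2 3 (by
      intro k hk
      rcases (by omega : k = 0 ∨ k = 1 ∨ k = 2) with rfl | rfl | rfl
      · rw [v0]; exact (hC.fam.fld i).1
      · rw [v1]; exact (hC.fam.fld j).1
      · rw [v2]; exact (hC.fam.fld l).1) (by
      intro k k' hk hk' hkk
      rcases (by omega : (k = 0 ∧ k' = 1) ∨ (k = 1 ∧ k' = 0) ∨ (k = 0 ∧ k' = 2) ∨
        (k = 2 ∧ k' = 0) ∨ (k = 1 ∧ k' = 2) ∨ (k = 2 ∧ k' = 1)) with
        ⟨rfl, rfl⟩ | ⟨rfl, rfl⟩ | ⟨rfl, rfl⟩ | ⟨rfl, rfl⟩ | ⟨rfl, rfl⟩ | ⟨rfl, rfl⟩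
      · rw [v0, v1]; exact hC.fam.orth i j hij
      · rw [v0, v1]; exact hC.fam.orth j i hij.symm
      · rw [v0, v2]; exact hC.fam.orth i l hil
      · rw [v0, v2]; exact hC.fam.orth l i hil.symm
      · rw [v1, v2]; exact hC.fam.orth j l hjl
      · rw [v1, v2]; exact hC.fam.orth l j hjl.symm)
    have e0 : E0 v = e i := (hE 0 (by norm_num)).trans v0
    have e1 : E1 v = e j := (hE 1 (by norm_num)).trans v1
    have e2 : E2 v = e l := (hE 2 (by norm_num)).trans v2
    have hT0 : T0 v = dq (e i) t0 := by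
      show dq (e i) (E0 v * v 3 * E0 v) = dq (e i) t0
      rw [e0, v3, ta1, ta2]
    have hT1 : T1 v = dq (e j) t1 := by
      show dq (e j) (E1 v * v 4 * E1 v) = dq (e j) t1
      rw [e1, v4, tb1, tb2]
    have hT2 : T2 v = dq (e l) t2 := by
      show dq (e l) (E2 v * v 5 * E2 v) = dq (e l) t2
      rw [e2, v5, tc1, tc2]
    have hz1 : e i * z = z := by
      rw [hTB.hz.1 i, if_pos rfl]
    have hz2 : z * e j = z := by
      rw [hTB.hz.2 j, if_pos rfl]
    have hz3 : z' * e l = z' := by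
      rw [hTB.hz'.2 l, if_pos rfl]
    have hz4 : e j * z' = z' := by
      rw [hTB.hz'.1 j, if_pos rfl]
    have hXv : X v = dq (e i) t0 * z := by
      show T0 v * (E0 v * v 6 * E1 v) * T1 v = dq (e i) t0 * z
      rw [hT0, hT1, e0, e1, v6]
      calc dq (e i) t0 * (e i * (z * w1) * e j) * dq (e j) t1
          = dq (e i) t0 * ((e i * z) * (w1 * (e j * dq (e j) t1))) := by simp only [mul_assoc]
        _ = dq (e i) t0 * z := by rw [hz1, hd11, hw1, hz2]
    have hYv : Y v = z' * dq (e l) t2 := by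
      show E1 v * v 7 * E2 v * T2 v = z' * dq (e l) t2
      rw [e1, e2, v7, hT2, hz4, hz3]
    refine ⟨v, fun h => hTB.ne ?_⟩
    have h' : X v * Y v = 0 := h
    rw [hXv, hYv] at h'
    calc z * z' = (e i * z) * (z' * e l) := by rw [hz1, hz3]
      _ = ((w0 * dq (e i) t0) * z) * (z' * (dq (e l) t2 * w2)) := by rw [hw0, hw2]
      _ = w0 * ((dq (e i) t0 * z) * (z' * dq (e l) t2)) * w2 := by simp only [mul_assoc]
      _ = 0 := by rw [h', mul_zero, zero_mul]
  · intro S hS v hv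
    by_contra hne
    have hne' : X v * Y v ≠ 0 := hne
    obtain ⟨h, hh⟩ : ∃ h : R, h = X v * Y v := ⟨_, rfl⟩
    have hh0 : h ≠ 0 := by rw [hh]; exact hne'
    have hhP : Pc e (some i) (some l) h := by rw [hh]; exact hPc v
    have hih : e i * h = h := by rw [hhP.1 i, if_pos rfl]
    have hhl : h * e l = h := by rw [hhP.2 l, if_pos rfl]
    have hEh : E0 v * h = h := by
      have h1 : E0 v * X v = X v := by
        show E0 v * (T0 v * (E0 v * v 6 * E1 v) * T1 v) = T0 v * (E0 v * v 6 * E1 v) * T1 v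
        rw [← mul_assoc, ← mul_assoc, hET0]
      rw [hh, ← mul_assoc, h1]
    have hhE : h * E2 v = h := by
      have h1 : Y v * E2 v = Y v := by
        show E1 v * v 7 * E2 v * T2 v * E2 v = E1 v * v 7 * E2 v * T2 v
        rw [mul_assoc, hTE2]
      rw [hh, mul_assoc, h1]
    have hT00 : T0 v ≠ 0 := by
      intro h0
      apply hh0
      have h1 : X v = 0 := by
        show T0 v * (E0 v * v 6 * E1 v) * T1 v = 0
        rw [h0, zero_mul, zero_mul]
      rw [hh, h1, zero_mul]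
    have hT10 : T1 v ≠ 0 := by
      intro h0
      apply hh0
      have h1 : X v = 0 := by
        show T0 v * (E0 v * v 6 * E1 v) * T1 v = 0
        rw [h0, mul_zero]
      rw [hh, h1, zero_mul]
    have hT20 : T2 v ≠ 0 := by
      intro h0
      apply hh0
      have h1 : Y v = 0 := by
        show E1 v * v 7 * E2 v * T2 v = 0
        rw [h0, mul_zero]
      rw [hh, h1, mul_zero]
    have hE1ne : E1 v ≠ 0 := by
      intro h0
      apply hh0
      have h1 : Y v = 0 := by
        show E1 v * v 7 * E2 v * T2 v = 0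
        rw [h0, zero_mul, zero_mul, zero_mul]
      rw [hh, h1, mul_zero]
    have hr0 : e i * E0 v * e i = e i := by
      rcases j6 (E0 v) (hE00 v) i with h1 | h1
      · refine (hh0 ?_).elim
        calc h = e i * (E0 v * (e i * h)) := by rw [hih, hEh, hih]
          _ = (e i * E0 v * e i) * h := by simp only [mul_assoc]
          _ = 0 := by rw [h1, zero_mul]
      · exact h1
    have hr2 : e l * E2 v * e l = e l := by
      rcases j6 (E2 v) (hE22 v) l with h1 | h1
      · refine (hh0 ?_).elim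
        calc h = ((h * e l) * E2 v) * e l := by rw [hhl, hhE, hhl]
          _ = h * (e l * E2 v * e l) := by simp only [mul_assoc]
          _ = 0 := by rw [h1, mul_zero]
      · exact h1
    have hcov : ∀ m, m = i ∨ m = j ∨ m = l := by
      intro m
      rcases s1 m with h1 | h1 | h1
      · exact Or.inl (Option.some_injective _ h1)
      · exact Or.inr (Or.inl (Option.some_injective _ h1))
      · exact Or.inr (Or.inr (Option.some_injective _ h1))
    have hr1 : e j * E1 v * e j = e j := by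
      rcases j6 (E1 v) (hE11 v) j with h1 | h1
      · refine (hE1ne (j7 _ (hE11 v) ?_)).elim
        intro m
        rcases hcov m with rfl | rfl | rfl
        · exact Cbc_orth hJid hC (E0 v) (E1 v) (hE01 v) m hr0
        · exact h1
        · exact Cbc_orth hJid hC (E2 v) (E1 v) (hE21 v) m hr2
      · exact h1
    have hSE0 : E0 v ∈ S := tE0.mem S v hv
    have hSE1 : E1 v ∈ S := tE1.mem S v hv
    have hSE2 : E2 v ∈ S := tE2.mem S v hv
    refine hS (hFnb n R s e hC ⟨H, hH⟩ (some i) (some j) (some l) z z' hTB S ?_ (X v)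
      (Y v) (tX.mem S v hv) (tY.mem S v hv) (hX v) (hY v) hne')
    refine hVrt n R s e hC S (fun m => if m = i then E0 v else if m = j then E1 v else E2 v)
      (fun m => if m = i then E0 v * v 3 * E0 v else if m = j then E1 v * v 4 * E1 v else
        E2 v * v 5 * E2 v) ?_ ?_
    · intro m
      by_cases hm : m = i
      · subst hm
        simp only [if_true]
        exact ⟨hSE0, S.mul_mem (S.mul_mem hSE0 (hv 3)) hSE0, hE00 v, hr0,
          by rw [← mul_assoc, ← mul_assoc, hE00], by rw [mul_assoc, hE00], hT00⟩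
      · by_cases hm' : m = j
        · subst hm'
          simp only [if_neg hm, if_true]
          exact ⟨hSE1, S.mul_mem (S.mul_mem hSE1 (hv 4)) hSE1, hE11 v, hr1,
            by rw [← mul_assoc, ← mul_assoc, hE11], by rw [mul_assoc, hE11], hT10⟩
        · have hml : m = l := ((hcov m).resolve_left hm).resolve_left hm'
          subst hml
          simp only [if_neg hm, if_neg hm']
          exact ⟨hSE2, S.mul_mem (S.mul_mem hSE2 (hv 5)) hSE2, hE22 v, hr2,
            by rw [← mul_assoc, ← mul_assoc, hE22], by rw [mul_assoc, hE22], hT20⟩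
    · intro m m' hmm
      have hg : ∀ m : Fin s, (m = i ∧ (if m = i then E0 v else if m = j then E1 v else E2 v) =
          E0 v) ∨ (m = j ∧ (if m = i then E0 v else if m = j then E1 v else E2 v) = E1 v) ∨
          (m = l ∧ (if m = i then E0 v else if m = j then E1 v else E2 v) = E2 v) := by
        intro m
        by_cases hm : m = i
        · exact Or.inl ⟨hm, if_pos hm⟩
        · by_cases hm' : m = j
          · exact Or.inr (Or.inl ⟨hm', by rw [if_neg hm, if_pos hm']⟩)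
          · exact Or.inr (Or.inr ⟨((hcov m).resolve_left hm).resolve_left hm',
              by rw [if_neg hm, if_neg hm']⟩)
      show (if m = i then E0 v else if m = j then E1 v else E2 v) *
        (if m' = i then E0 v else if m' = j then E1 v else E2 v) = 0
      rcases hg m with ⟨h1, h2⟩ | ⟨h1, h2⟩ | ⟨h1, h2⟩ <;>
        rcases hg m' with ⟨h1', h2'⟩ | ⟨h1', h2'⟩ | ⟨h1', h2'⟩ <;> rw [h2, h2']
      · exact absurd (h1.trans h1'.symm) hmm
      · exact hE01 v
      · exact hE02 v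
      · exact hE10 v
      · exact absurd (h1.trans h1'.symm) hmm
      · exact hE12 v
      · exact hE20 v
      · exact hE21 v
      · exact absurd (h1.trans h1'.symm) hmm

end Pool.Agent.CRN
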