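import Pool.Agent.CRN.Cbc

/-!
Campaign CRN, module Cbb (helper96): `TyB`, first vertex `none`.
-/

set_option autoImplicit false

namespace Pool.Agent.CRN

open Pool.Agent.CRR

section

variable {n : ℕ} {R : Type} [NonUnitalRing R] [Finite R] {s : ℕ} {e : Fin s → R}

theorem Cbb_mid (hJid : St_Jid) (hC : Cx n R s e) (E F w : R) (hE : E * E = E)
    (hEF : E * F = 0) : E * w * F ∈ JJ e := by
  obtain ⟨_, _, j3, _, _, j6, _⟩ := hJid n R s e hC
  intro m
  rw [j3, j3]
  rcases j6 E hE m with h | h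
  · rw [h, zero_mul, zero_mul]
  · rw [Cbc_orth hJid hC E F hEF m h, mul_zero]

end

theorem thm_Cbb (hSbb : St_Sbb) (hFnb : St_Fnb) (hJid : St_Jid) (hPca : St_Pca) (hVrt : St_Vrt)
    (hCrg : St_Crg) (hDlt : St_Dlt) (hEof : St_Eof) : St_Cbb := by
  intro n R _ _ s e hC hH j l z z' hTB
  obtain ⟨H, hH⟩ := hH
  obtain ⟨j1, j2, j3, j4, j5, j6, j7⟩ := hJid n R s e hC
  obtain ⟨s1, s2, s3, s4, s5, s6⟩ := hSbb n R s e hC H hH none (some j) (some l) z z' hTB
  have hjl : j ≠ l := fun h => hTB.bg (by rw [h])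
  obtain ⟨dI1, dI2, dI3, dI4, dI5⟩ := hDlt R (e j) (hC.fam.fld j)
  obtain ⟨dL1, dL2, dL3, dL4, dL5⟩ := hDlt R (e l) (hC.fam.fld l)
  -- the terms
  let E0 : (ℕ → R) → R := fun v => Eo n v 0
  let E1 : (ℕ → R) → R := fun v => Eo n v 1
  let T0 : (ℕ → R) → R := fun v => dq (e j) (E0 v * v 3 * E0 v)
  let T1 : (ℕ → R) → R := fun v => dq (e l) (E1 v * v 4 * E1 v)
  let X : (ℕ → R) → R := fun v => v 6 * E0 v - E1 v * v 6 * E0 v - E0 v * v 6 * E0 v
  let Y : (ℕ → R) → R := fun v => E0 v * v 7 * E1 v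
  have tE0 : TmF E0 := TmF.Eo n (u := fun j v => v j) (fun j => TmF.var j) 0
  have tE1 : TmF E1 := TmF.Eo n (u := fun j v => v j) (fun j => TmF.var j) 1
  have tT0 : TmF T0 := TmF.dq (e j) ((tE0.mul (TmF.var 3)).mul tE0)
  have tT1 : TmF T1 := TmF.dq (e l) ((tE1.mul (TmF.var 4)).mul tE1)
  have tX : TmF X := (((TmF.var 6).mul tE0).sub ((tE1.mul (TmF.var 6)).mul tE0)).sub
    ((tE0.mul (TmF.var 6)).mul tE0)
  have tY : TmF Y := (tE0.mul (TmF.var 7)).mul tE1
  have hE00 : ∀ v, E0 v * E0 v = E0 v := fun v => (hEof n hC.n4 R hC.inM v).1 0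
  have hE11 : ∀ v, E1 v * E1 v = E1 v := fun v => (hEof n hC.n4 R hC.inM v).1 1
  have hE01 : ∀ v, E0 v * E1 v = 0 := fun v =>
    (hEof n hC.n4 R hC.inM v).2.1 0 1 (by norm_num)
  have hE10 : ∀ v, E1 v * E0 v = 0 := fun v =>
    (hEof n hC.n4 R hC.inM v).2.1 1 0 (by norm_num)
  have hX : ∀ v, X v ∈ JJ e := fun v => Cbc_right hJid hC (E1 v) (E0 v) (v 6) (hE00 v) (hE01 v)
  have hY : ∀ v, Y v ∈ JJ e := fun v => Cbb_mid hJid hC (E0 v) (E1 v) (v 7) (hE00 v) (hE01 v)
  have hTX : ∀ v, X v * T0 v ∈ JJ e := fun v => (j1 (T0 v) (X v) (hX v)).2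
  have hYT : ∀ v, Y v * T1 v ∈ JJ e := fun v => (j1 (T1 v) (Y v) (hY v)).2
  have hPc : ∀ v, Pc e none (some l) ((X v * T0 v) * (Y v * T1 v)) := fun v =>
    s6 _ (hTX v) _ (hYT v)
  have hTE1 : ∀ v, T1 v * E1 v = T1 v := fun v =>
    dL4 (E1 v) _ (by rw [mul_assoc, hE11])
  refine hCrg R H hH (fun v => (X v * T0 v) * (Y v * T1 v)) ((tX.mul tT0).mul (tY.mul tT1))
    (fun v => s5 _ (hPc v)) ?_ ?_
  · obtain ⟨t0, ta1, ta2, ta3⟩ := dI1
    obtain ⟨t1, tb1, tb2, tb3⟩ := dL1
    have hd01 : e j * dq (e j) t0 = dq (e j) t0 := dI3 (e j) t0 ta1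
    have hd02 : dq (e j) t0 * e j = dq (e j) t0 := dI4 (e j) t0 ta2
    have hd11 : e l * dq (e l) t1 = dq (e l) t1 := dL3 (e l) t1 tb1
    have hd12 : dq (e l) t1 * e l = dq (e l) t1 := dL4 (e l) t1 tb2
    obtain ⟨w0, hw0, hw0'⟩ := Cbc_inv (hC.fam.fld j) _ hd01 hd02 ta3
    obtain ⟨w1, _, hw1⟩ := Cbc_inv (hC.fam.fld l) _ hd11 hd12 tb3
    obtain ⟨v, hv⟩ : ∃ v : ℕ → R, v = fun k => if k = 0 then e j else if k = 1 then e l else
      if k = 3 then t0 else if k = 4 then t1 else if k = 6 then z * w0 else z' := ⟨_, rfl⟩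
    have v0 : v 0 = e j := by rw [hv]; rfl
    have v1 : v 1 = e l := by rw [hv]; rfl
    have v3 : v 3 = t0 := by rw [hv]; rfl
    have v4 : v 4 = t1 := by rw [hv]; rfl
    have v6 : v 6 = z * w0 := by rw [hv]; rfl
    have v7 : v 7 = z' := by rw [hv]; rfl
    have hE := (hEof n hC.n4 R hC.inM v).2.2 2 (by
      intro k hk
      rcases (by omega : k = 0 ∨ k = 1) with rfl | rfl
      · rw [v0]; exact (hC.fam.fld j).1
      · rw [v1]; exact (hC.fam.fld l).1) (by
      intro k k' hk hk' hkk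
      rcases (by omega : (k = 0 ∧ k' = 1) ∨ (k = 1 ∧ k' = 0)) with ⟨rfl, rfl⟩ | ⟨rfl, rfl⟩
      · rw [v0, v1]; exact hC.fam.orth j l hjl
      · rw [v0, v1]; exact hC.fam.orth l j hjl.symm)
    have e0 : E0 v = e j := (hE 0 (by norm_num)).trans v0
    have e1 : E1 v = e l := (hE 1 (by norm_num)).trans v1
    have hT0 : T0 v = dq (e j) t0 := by
      show dq (e j) (E0 v * v 3 * E0 v) = dq (e j) t0
      rw [e0, v3, ta1, ta2]
    have hT1 : T1 v = dq (e l) t1 := by
      show dq (e l) (E1 v * v 4 * E1 v) = dq (e l) t1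
      rw [e1, v4, tb1, tb2]
    have hz1 : ∀ m, e m * z = 0 := by
      intro m
      rw [hTB.hz.1 m, if_neg (by simp)]
    have hz2 : z * e j = z := by
      rw [hTB.hz.2 j, if_pos rfl]
    have hz3 : z' * e l = z' := by
      rw [hTB.hz'.2 l, if_pos rfl]
    have hz4 : e j * z' = z' := by
      rw [hTB.hz'.1 j, if_pos rfl]
    have hXT : X v * T0 v = z := by
      have h1 : ∀ m, e m * (z * w0) = 0 := fun m => by rw [← mul_assoc, hz1, zero_mul]
      have h2 : X v = z * w0 * e j := by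
        show v 6 * E0 v - E1 v * v 6 * E0 v - E0 v * v 6 * E0 v = z * w0 * e j
        rw [e0, e1, v6, h1, h1, zero_mul, sub_zero, sub_zero]
      rw [h2, hT0, mul_assoc, hd01, mul_assoc, hw0, hz2]
    have hYv : Y v = z' := by
      show E0 v * v 7 * E1 v = z'
      rw [e0, e1, v7, hz4, hz3]
    refine ⟨v, fun h => hTB.ne ?_⟩
    have h' : (X v * T0 v) * (Y v * T1 v) = 0 := h
    rw [hXT, hT1, hYv] at h'
    calc z * z' = z * (z' * e l) := by rw [hz3]
      _ = z * (z' * (dq (e l) t1 * w1)) := by rw [hw1]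
      _ = (z * (z' * dq (e l) t1)) * w1 := by simp only [mul_assoc]
      _ = 0 := by rw [h', zero_mul]
  · intro S hS v hv
    by_contra hne
    have hne' : (X v * T0 v) * (Y v * T1 v) ≠ 0 := hne
    obtain ⟨h, hh⟩ : ∃ h : R, h = (X v * T0 v) * (Y v * T1 v) := ⟨_, rfl⟩
    have hh0 : h ≠ 0 := by rw [hh]; exact hne'
    have hhP : Pc e none (some l) h := by rw [hh]; exact hPc v
    have hhl : h * e l = h := by rw [hhP.2 l, if_pos rfl]
    have hhE : h * E1 v = h := by
      calc h * E1 v = (X v * T0 v) * (Y v * (T1 v * E1 v)) := by rw [hh]; simp only [mul_assoc]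
        _ = h := by rw [hTE1, hh]
    have hT00 : T0 v ≠ 0 := by
      intro h0
      apply hh0
      rw [hh, h0, mul_zero, zero_mul]
    have hT10 : T1 v ≠ 0 := by
      intro h0
      apply hh0
      rw [hh, h0, mul_zero, mul_zero]
    have hE0ne : E0 v ≠ 0 := by
      intro h0
      apply hh0
      have h1 : Y v = 0 := by
        show E0 v * v 7 * E1 v = 0
        rw [h0, zero_mul, zero_mul]
      rw [hh, h1, zero_mul, mul_zero]
    have hr1 : e l * E1 v * e l = e l := by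
      rcases j6 (E1 v) (hE11 v) l with h1 | h1
      · refine (hh0 ?_).elim
        calc h = ((h * e l) * E1 v) * e l := by rw [hhl, hhE, hhl]
          _ = h * (e l * E1 v * e l) := by simp only [mul_assoc]
          _ = 0 := by rw [h1, mul_zero]
      · exact h1
    have hcov : ∀ m, m = j ∨ m = l := by
      intro m
      rcases s1 m with h1 | h1 | h1
      · exact absurd h1 (by simp)
      · exact Or.inl (Option.some_injective _ h1)
      · exact Or.inr (Option.some_injective _ h1)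
    have hr0 : e j * E0 v * e j = e j := by
      rcases j6 (E0 v) (hE00 v) j with h1 | h1
      · refine (hE0ne (j7 _ (hE00 v) ?_)).elim
        intro m
        rcases hcov m with rfl | rfl
        · exact h1
        · exact Cbc_orth hJid hC (E1 v) (E0 v) (hE10 v) m hr1
      · exact h1
    have hSE0 : E0 v ∈ S := tE0.mem S v hv
    have hSE1 : E1 v ∈ S := tE1.mem S v hv
    refine hS (hFnb n R s e hC ⟨H, hH⟩ none (some j) (some l) z z' hTB S ?_ (X v * T0 v)
      (Y v * T1 v) ((tX.mul tT0).mem S v hv) ((tY.mul tT1).mem S v hv) (hTX v) (hYT v) hne')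
    refine hVrt n R s e hC S (fun m => if m = j then E0 v else E1 v)
      (fun m => if m = j then E0 v * v 3 * E0 v else E1 v * v 4 * E1 v) ?_ ?_
    · intro m
      by_cases hm : m = j
      · subst hm
        simp only [if_true]
        exact ⟨hSE0, S.mul_mem (S.mul_mem hSE0 (hv 3)) hSE0, hE00 v, hr0,
          by rw [← mul_assoc, ← mul_assoc, hE00], by rw [mul_assoc, hE00], hT00⟩
      · have hml : m = l := (hcov m).resolve_left hm
        subst hml
        simp only [if_neg hm]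
        exact ⟨hSE1, S.mul_mem (S.mul_mem hSE1 (hv 4)) hSE1, hE11 v, hr1,
          by rw [← mul_assoc, ← mul_assoc, hE11], by rw [mul_assoc, hE11], hT10⟩
    · intro m m' hmm
      by_cases hm : m = j
      · have hm' : ¬ m' = j := fun h => hmm (hm.trans h.symm)
        simp only [if_pos hm, if_neg hm']
        exact hE01 v
      · have hml : m = l := (hcov m).resolve_left hm
        have hm' : m' = j := (hcov m').resolve_right (fun h => hmm (hml.trans h.symm))
        simp only [if_neg hm, if_pos hm']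
        exact hE10 v

end Pool.Agent.CRN
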