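import Pool.Agent.CRN.St

/-!
Campaign CRN (problem MP_1bb14d_al), module CBD: the rings of type `TyB` are critical (reduction to
the three cases of the vertex which is not a field).
-/

set_option autoImplicit false

namespace Pool.Agent.CRN

open Pool.Agent.CRR MulOpposite

section

variable {R : Type} [NonUnitalRing R]

theorem Cbd_fld {e : R} (h : Fld R e) : Fld Rᵐᵒᵖ (op e) := by
  obtain ⟨h1, h2, h3⟩ := h
  refine ⟨?_, ?_, ?_⟩
  · rw [← op_mul, h1]
  · intro h0
    exact h2 (op_injective (by rw [h0, op_zero]))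
  · intro x hx1 hx2 hx0
    obtain ⟨x, rfl⟩ := op_surjective x
    have hx1' : x * e = x := op_injective (by rw [op_mul]; exact hx1)
    have hx2' : e * x = x := op_injective (by rw [op_mul]; exact hx2)
    have hx0' : x ≠ 0 := fun h0 => hx0 (by rw [h0, op_zero])
    obtain ⟨y, hy1, hy2, hy3⟩ := h3 x hx2' hx1' hx0'
    have hy0 : y ≠ 0 := by
      intro h0
      rw [h0, mul_zero] at hy3
      exact h2 hy3.symm
    obtain ⟨w, hw1, hw2, hw3⟩ := h3 y hy1 hy2 hy0
    have hxw : x = w := by
      calc x = x * e := hx1'.symm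
        _ = x * (y * w) := by rw [hw3]
        _ = (x * y) * w := (mul_assoc _ _ _).symm
        _ = w := by rw [hy3, hw1]
    refine ⟨op y, ?_, ?_, ?_⟩
    · rw [← op_mul, hy2]
    · rw [← op_mul, hy1]
    · rw [← op_mul, hxw, hw3]

theorem Cbd_pc {s : ℕ} {e : Fin s → R} {α β : Option (Fin s)} {x : R} (h : Pc e α β x) :
    Pc (fun i => op (e i)) β α (op x) := by
  refine ⟨fun i => ?_, fun j => ?_⟩
  · show op (e i) * op x = _
    rw [← op_mul, h.2 i]
    split <;> rfl
  · show op x * op (e j) = _
    rw [← op_mul, h.1 j]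
    split <;> rfl

theorem Cbd_bm {e f x w : R} (h : w ∈ Bm e f x) : op w ∈ Bm (op f) (op e) (op x) := by
  unfold Bm at h
  induction h using AddSubgroup.closure_induction with
  | mem y hy =>
    obtain ⟨a, b, rfl⟩ := hy
    apply AddSubgroup.subset_closure
    refine ⟨op b, op a, ?_⟩
    simp only [op_mul, mul_assoc]
  | zero => exact AddSubgroup.zero_mem _
  | add y z _ _ hy hz =>
    rw [op_add]
    exact AddSubgroup.add_mem _ hy hz
  | neg y _ hy =>
    rw [op_neg]
    exact AddSubgroup.neg_mem _ hy

theorem Cbd_bm' {e f x : R} {w : Rᵐᵒᵖ} (h : w ∈ Bm (op f) (op e) (op x)) :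
    unop w ∈ Bm e f x := by
  unfold Bm at h
  induction h using AddSubgroup.closure_induction with
  | mem y hy =>
    obtain ⟨a, b, rfl⟩ := hy
    apply AddSubgroup.subset_closure
    refine ⟨unop b, unop a, ?_⟩
    simp only [unop_mul, unop_op, mul_assoc]
  | zero => exact AddSubgroup.zero_mem _
  | add y z _ _ hy hz =>
    rw [unop_add]
    exact AddSubgroup.add_mem _ hy hz
  | neg y _ hy =>
    rw [unop_neg]
    exact AddSubgroup.neg_mem _ hy

theorem Cbd_smp {e f x : R} (h : Smp e f x) : Smp (op f) (op e) (op x) := by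
  intro w hw hw0
  have h1 := h (unop w) (Cbd_bm' hw) (fun h0 => hw0 (unop_injective (by rw [h0, unop_zero])))
  have h2 := Cbd_bm h1
  rwa [op_unop] at h2

theorem Cbd_fam {s : ℕ} {e : Fin s → R} (h : Fam R s e) : Fam Rᵐᵒᵖ s (fun i => op (e i)) where
  fld := fun i => Cbd_fld (h.fld i)
  orth := fun i j hij => by
    show op (e i) * op (e j) = 0
    rw [← op_mul, h.orth j i (Ne.symm hij), op_zero]
  max := fun g hg hi => by
    obtain ⟨g, rfl⟩ := op_surjective g
    have h1 : g * g = g := op_injective (by rw [op_mul]; exact hg)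
    have h2 : g = 0 := by
      refine h.max g h1 (fun i => ⟨?_, ?_⟩)
      · exact op_injective (by rw [op_mul, op_zero]; exact (hi i).2)
      · exact op_injective (by rw [op_mul, op_zero]; exact (hi i).1)
    rw [h2, op_zero]

theorem Cbd_tb {s : ℕ} {e : Fin s → R} {α β γ : Option (Fin s)} {z z' : R}
    (h : TB e α β γ z z') : TB (fun i => op (e i)) γ β α (op z') (op z) where
  ab := Ne.symm h.bg
  bg := Ne.symm h.ab
  ag := Ne.symm h.ag
  ne := by
    rw [← op_mul]
    intro h0
    exact h.ne (op_injective (by rw [h0, op_zero]))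
  hz := Cbd_pc h.hz'
  hz' := Cbd_pc h.hz
  sz := fun i j hi hj => Cbd_smp (h.sz' j i hj hi)
  sz' := fun i j hi hj => Cbd_smp (h.sz j i hj hi)
  gen := by
    rw [eq_top_iff]
    intro x _
    obtain ⟨x, rfl⟩ := op_surjective x
    have hx : x ∈ NonUnitalSubring.closure (G0 e ∪ {z, z'}) := by
      rw [h.gen]
      exact NonUnitalSubring.mem_top x
    induction hx using NonUnitalSubring.closure_induction with
    | mem y hy =>
      apply NonUnitalSubring.subset_closure
      rcases hy with hy | hy
      · left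
        obtain ⟨i, h1, h2⟩ := hy
        refine ⟨i, ?_, ?_⟩
        · show op (e i) * op y = op y
          rw [← op_mul, h2]
        · show op y * op (e i) = op y
          rw [← op_mul, h1]
      · right
        rcases hy with hy | hy
        · right
          rw [hy]
          rfl
        · left
          rw [hy]
    | zero => exact zero_mem _
    | add y w _ _ hy hw =>
      rw [op_add]
      exact add_mem (hy trivial) (hw trivial)
    | neg y _ hy =>
      rw [op_neg]
      exact neg_mem (hy trivial)
    | mul y w _ _ hy hw =>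
      rw [op_mul]
      exact mul_mem (hw trivial) (hy trivial)

end

theorem thm_Cbd (hCba : St_Cba) (hCbb : St_Cbb) (hCbc : St_Cbc) (hOpp : St_Opp) : St_Cbd := by
  intro n hn R _ _ hM hFC hTw hB
  obtain ⟨hL, s, e, α, β, γ, z, z', hfam, hab, hbg, hag, hne, hz, hz', hs, hs', hgen⟩ := hB
  have hcx : Cx n R s e := ⟨hn, hM, hFC, hTw, hfam⟩
  have htb : TB e α β γ z z' := ⟨hab, hbg, hag, hne, hz, hz', hs, hs', hgen⟩
  rcases α with _ | i
  · rcases β with _ | j
    · exact absurd rfl hab
    · rcases γ with _ | l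
      · exact absurd rfl hag
      · exact hCbb n R s e hcx hL j l z z' htb
  · rcases β with _ | j
    · rcases γ with _ | l
      · exact absurd rfl hbg
      · exact hCbc n R s e hcx hL i l z z' htb
    · rcases γ with _ | l
      · obtain ⟨hO1, hO2, hO3, hO4, hO5⟩ := hOpp R
        apply hO1
        have hfin : Finite Rᵐᵒᵖ := Finite.of_surjective (op : R → Rᵐᵒᵖ) op_surjective
        have hcx' : Cx n Rᵐᵒᵖ s (fun i => op (e i)) :=
          ⟨hn, hO2 n hM, hO4 inferInstance hFC, fun h => hTw (hO3 h), Cbd_fam hfam⟩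
        exact hCbb n Rᵐᵒᵖ s _ hcx' (hO5 hL) j i (op z') (op z) (Cbd_tb htb)
      · exact hCba n R s e hcx hL i j l z z' htb

end Pool.Agent.CRN
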