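import Pool.Agent.CRN.St

/-!
Campaign CRN, module Ccc: the rings of type `TyC` are critical.
-/

set_option autoImplicit false

namespace Pool.Agent.CRN

open Pool.Agent.CRR

section ccc

variable {R : Type} [NonUnitalRing R]

theorem ccc_prr_congr {z : R} {a b : ℕ → R} (k : ℕ) (h : ∀ l, l < k → a l = b l) :
    prr z a k = prr z b k := by
  induction k with
  | zero => rfl
  | succ k ih =>
    change prr z a k * a k = prr z b k * b k
    rw [ih fun l hl => h l (Nat.lt_succ_of_lt hl), h k (Nat.lt_succ_self k)]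

theorem ccc_prr_mul (f z : R) (a : ℕ → R) (k : ℕ) : prr (f * z) a k = f * prr z a k := by
  induction k with
  | zero => rfl
  | succ k ih =>
    change prr (f * z) a k * a k = f * (prr z a k * a k)
    rw [ih, mul_assoc]

theorem ccc_prr_add (z z' : R) (a : ℕ → R) (k : ℕ) : prr (z + z') a k = prr z a k + prr z' a k := by
  induction k with
  | zero => rfl
  | succ k ih =>
    change prr (z + z') a k * a k = prr z a k * a k + prr z' a k * a k
    rw [ih, add_mul]

theorem ccc_prr_zero (a : ℕ → R) (k : ℕ) : prr 0 a k = 0 := by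
  induction k with
  | zero => rfl
  | succ k ih =>
    change prr 0 a k * a k = 0
    rw [ih, zero_mul]

theorem ccc_prr_neg (z : R) (a : ℕ → R) (k : ℕ) : prr (-z) a k = -prr z a k := by
  induction k with
  | zero => rfl
  | succ k ih =>
    change prr (-z) a k * a k = -(prr z a k * a k)
    rw [ih, neg_mul]

theorem ccc_prr_cons (z y : R) (a : ℕ → R) (k : ℕ) :
    prr z (fun i => if i = 0 then y else a (i - 1)) (k + 1) = prr (z * y) a k := by
  induction k with
  | zero => simp [prr]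
  | succ k ih =>
    rw [prr, ih]
    simp [prr]

theorem ccc_prr_rest {P Q : R → Prop} {a : ℕ → R} {k : ℕ}
    (h : ∀ c', P c' → ∀ y, Q y → prr (c' * y) a k = 0) {x : R}
    (hx : x ∈ AddSubgroup.closure {w | ∃ x' x'', P x' ∧ Q x'' ∧ w = x' * x''}) :
    prr x a k = 0 := by
  induction hx using AddSubgroup.closure_induction with
  | mem x hx =>
    obtain ⟨x', x'', h', h'', rfl⟩ := hx
    exact h x' h' x'' h''
  | zero => exact ccc_prr_zero a k
  | add x y _ _ hx hy => rw [ccc_prr_add, hx, hy, add_zero]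
  | neg x _ hx => rw [ccc_prr_neg, hx, neg_zero]

theorem ccc_TmF_prr {c : (ℕ → R) → R} {x : ℕ → (ℕ → R) → R} (hc : TmF c)
    (hx : ∀ l, TmF (x l)) (k : ℕ) : TmF (fun v => prr (c v) (fun l => x l v) k) := by
  induction k with
  | zero => exact hc
  | succ k ih => exact ih.mul (hx k)

/-- Elements of `eRe` have two-sided inverses. -/
theorem ccc_inv {e x : R} (he : Fld R e) (h1 : e * x = x) (h2 : x * e = x) (h0 : x ≠ 0) :
    ∃ y, e * y = y ∧ y * e = y ∧ x * y = e ∧ y * x = e := by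
  obtain ⟨hee, he0, hf⟩ := he
  obtain ⟨y, hy1, hy2, hxy⟩ := hf x h1 h2 h0
  have hy0 : y ≠ 0 := by
    rintro rfl
    exact he0 (by rw [← hxy, mul_zero])
  obtain ⟨w, hw1, hw2, hyw⟩ := hf y hy1 hy2 hy0
  have : x = w := by
    calc x = x * (y * w) := by rw [hyw, h2]
      _ = w := by rw [← mul_assoc, hxy, hw1]
  exact ⟨y, hy1, hy2, hxy, by rw [this]; exact hyw⟩

theorem ccc_Lst_map {H : AddSubgroup R} (hH : Lst R H) (θ : R ≃+* R) {x : R} (hx : x ∈ H) :
    θ x ∈ H := by
  obtain ⟨hi, h0, hmin⟩ := hH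
  let I : AddSubgroup R := H.comap (θ : R →+ R)
  have hI : Idl R I := by
    intro r x hx
    have hx' : θ x ∈ H := hx
    constructor
    · change θ (r * x) ∈ H
      rw [map_mul]
      exact (hi _ _ hx').1
    · change θ (x * r) ∈ H
      rw [map_mul]
      exact (hi _ _ hx').2
  have hI0 : I ≠ ⊥ := by
    intro hb
    apply h0
    rw [eq_bot_iff]
    intro y hy
    have : θ.symm y ∈ I := by
      change θ (θ.symm y) ∈ H
      simpa using hy
    rw [hb, AddSubgroup.mem_bot] at this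
    rw [AddSubgroup.mem_bot]
    simpa using this
  exact hmin I hI hI0 hx

/-- The reduction to the case that the first idempotent is `e`. -/
theorem ccc_red (hPws : St_Pws) (hCnj : St_Cnj) (hCrg : St_Crg) {n : ℕ} [Finite R] {e : R}
    (hc : Cx n R 1 (fun _ => e)) {H : AddSubgroup R} (hH : Lst R H) (φ : (ℕ → R) → R)
    (hφ : TmF φ) (h0 : ∀ v : ℕ → R, om n (v 0) = 0 → φ v = 0)
    (h1 : ∀ v : ℕ → R, om n (v 0) = e → φ v ∈ H)
    (h2 : ∀ (S : NonUnitalSubring R) (v : ℕ → R), om n (v 0) = e → (∀ i, v i ∈ S) → φ v ≠ 0 →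
      S = ⊤) (h3 : ∃ v, φ v ≠ 0) : Critical R := by
  have key : ∀ v : ℕ → R, φ v ≠ 0 → ∃ (θ : R ≃+* R) (v' : ℕ → R), (∀ i, θ (v' i) = v i) ∧
      om n (v' 0) = e ∧ φ v = θ (φ v') := by
    intro v hv
    have hE0 : om n (v 0) ≠ 0 := fun h => hv (h0 v h)
    obtain ⟨θ, hθ⟩ := hCnj n R e hc (om n (v 0)) (hPws n hc.n4 R hc.inM (v 0)).1 hE0
    refine ⟨θ, fun i => θ.symm (v i), fun i => by simp, ?_, ?_⟩
    · apply θ.injective
      have := (TmF.om (R := R) (TmF.var 0) n).map θ (fun i => θ.symm (v i))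
      rw [← this]
      simpa using hθ.symm
    · rw [← hφ.map θ]
      congr 1
      funext i
      simp
  refine hCrg R H hH φ hφ ?_ h3 ?_
  · intro v
    by_cases hv : φ v = 0
    · rw [hv]; exact H.zero_mem
    obtain ⟨θ, v', hv', hE, hφv⟩ := key v hv
    rw [hφv]
    exact ccc_Lst_map hH θ (h1 v' hE)
  · intro S hS v hvS
    by_contra hv
    obtain ⟨θ, v', hv', hE, hφv⟩ := key v hv
    apply hS
    have := h2 (S.comap (θ : R →ₙ+* R)) v' hE (fun i => by
      rw [NonUnitalSubring.mem_comap]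
      have := hv' i
      change θ (v' i) ∈ S
      rw [this]
      exact hvS i) (fun h => hv (by rw [hφv, h, map_zero]))
    rw [eq_top_iff]
    intro x _
    have hx : θ.symm x ∈ S.comap (θ : R →ₙ+* R) := by rw [this]; trivial
    rw [NonUnitalSubring.mem_comap] at hx
    change θ (θ.symm x) ∈ S at hx
    simpa using hx

/-- The criterion of `St_Nak` for one field. -/
theorem ccc_top (hNak : St_Nak) (hJnl : St_Jnl) (hJid : St_Jid) {n : ℕ} [Finite R] {e : R}
    (hc : Cx n R 1 (fun _ => e)) {p r : ℕ} (hpr : ∀ x : R, (p ^ r) • x = 0)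
    (S : NonUnitalSubring R) (hFS : ∀ x, e * x = x → x * e = x → x ∈ S) :
    Idl R (fr S (JJ fun _ : Fin 1 => e) p) ∧
      ((∀ x ∈ JJ (fun _ : Fin 1 => e), x ∈ fr S (JJ fun _ : Fin 1 => e) p) → S = ⊤) := by
  obtain ⟨hJI, hJ3, -⟩ := hJid n R 1 (fun _ => e) hc
  have hee : e * e = e := (hc.fam.fld 0).1
  refine hNak R _ hJI (hJnl R _ hJI hJ3) p r hpr S fun x => ⟨e * x * e, hFS _ ?_ ?_, ?_⟩
  · rw [← mul_assoc, ← mul_assoc, hee]
  · rw [mul_assoc, hee]
  · intro i
    change e * (x - e * x * e) * e = 0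
    rw [mul_sub, sub_mul, ← mul_assoc, ← mul_assoc, hee, mul_assoc (e * x) e e, hee, sub_self]

theorem ccc_fr_S {S : NonUnitalSubring R} {J : AddSubgroup R} {p : ℕ} {x : R} (h : x ∈ S)
    (h' : x ∈ J) : x ∈ fr S J p :=
  AddSubgroup.subset_closure (Or.inl (Or.inl ⟨h, h'⟩))

theorem ccc_fr_mul {S : NonUnitalSubring R} {J : AddSubgroup R} {p : ℕ} {x y : R} (h : x ∈ J)
    (h' : y ∈ J) : x * y ∈ fr S J p :=
  AddSubgroup.subset_closure (Or.inl (Or.inr ⟨x, h, y, h', rfl⟩))

theorem ccc_fr_smul {S : NonUnitalSubring R} {J : AddSubgroup R} {p : ℕ} {x : R} (h : x ∈ J) :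
    p • x ∈ fr S J p :=
  AddSubgroup.subset_closure (Or.inr ⟨x, h, rfl⟩)

theorem ccc_JA {e x : R} (h : InA e x) : x ∈ JJ (fun _ : Fin 1 => e) := fun _ => by
  change e * x * e = 0
  rw [h.1, zero_mul]

theorem ccc_JC {e x : R} (h : InC e x) : x ∈ JJ (fun _ : Fin 1 => e) := fun _ => by
  change e * x * e = 0
  rw [h.1, h.2]

theorem ccc_JB {e x : R} (h : InB e x) : x ∈ JJ (fun _ : Fin 1 => e) := fun _ => by
  change e * x * e = 0
  rw [h.1, zero_mul]

theorem ccc_closure_le {P Q : R → Prop} {I : AddSubgroup R} (h : ∀ x y, P x → Q y → x * y ∈ I)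
    {x : R} (hx : x ∈ AddSubgroup.closure {w | ∃ x' x'', P x' ∧ Q x'' ∧ w = x' * x''}) :
    x ∈ I := by
  have : AddSubgroup.closure {w | ∃ x' x'', P x' ∧ Q x'' ∧ w = x' * x''} ≤ I := by
    rw [AddSubgroup.closure_le]
    rintro w ⟨x', x'', h', h'', rfl⟩
    exact h x' x'' h' h''
  exact this hx

theorem ccc_ct {e : R} (hee : e * e = e) (x : R) : InA e (ct e x) := by
  constructor
  · rw [ct, mul_add, mul_sub, mul_sub, ← mul_assoc, ← mul_assoc, ← mul_assoc, ← mul_assoc,
      hee]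
    abel
  · rw [ct, add_mul, sub_mul, sub_mul, mul_assoc x e e, mul_assoc (e * x) e e, hee]
    abel

theorem ccc_ct_A {e x : R} (h : InA e x) : ct e x = x := by
  rw [ct, h.1, h.2]
  simp

theorem ccc_om_mem {n : ℕ} {S : NonUnitalSubring R} {x : R} (h : x ∈ S) : om n x ∈ S :=
  (TmF.om (R := R) (TmF.var 0) n).mem S (fun _ => x) fun _ => h

/-- The values of the variables: `v 0`, `v 1`, `v 2` and `v (3 + l)`. -/
def ccc_v (x y z : R) (a : ℕ → R) : ℕ → R
  | 0 => x
  | 1 => y
  | 2 => z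
  | l + 3 => a l

end ccc

theorem thm_Ccc (hScc : St_Scc) (hAlc : St_Alc) (hCnj : St_Cnj) (hNak : St_Nak) (hJnl : St_Jnl)
    (hJid : St_Jid) (hPpw : St_Ppw) (hCrg : St_Crg) (hDlt : St_Dlt) (hPws : St_Pws) : St_Ccc := by
  rintro n hn R _ _ hM hF hT ⟨⟨H, hH⟩, e, z, k, a, hfam, hz1, hz2, ha, hne, hgen⟩
  have hc : Cx n R 1 (fun _ => e) := ⟨hn, hM, hF, hT, hfam⟩
  have he : Fld R e := hfam.fld 0
  have hTC : TC e z k a := ⟨⟨hz1, hz2⟩, ha, hne, hgen⟩
  obtain ⟨p, r, hp, hpr, hpe⟩ := hPpw R H hH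
  obtain ⟨s1, s2, s3, s4, s5, s6⟩ := hScc n R e hc H hH z k a hTC
  have hal := hAlc n R e hc H hH z k a hTC p r hp hpr (hpe e he)
  obtain ⟨d1, d2, d3, d4, d5⟩ := hDlt R e he
  have hee := he.1
  have hF1 : ∀ x : R, e * (e * x * e) = e * x * e := fun x => by
    rw [← mul_assoc, ← mul_assoc, hee]
  have hF2 : ∀ x : R, e * x * e * e = e * x * e := fun x => by rw [mul_assoc, hee]
  -- the element `dq e t * c'` is in `C`
  have hC : ∀ x y : R, InC e (dq e (e * x * e) * (e * y - e * y * e)) := by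
    intro x y
    constructor
    · rw [← mul_assoc, d3 e _ (hF1 x)]
    · rw [mul_assoc, sub_mul, hF2, sub_self, mul_zero]
  refine ccc_red hPws hCnj hCrg hc hH (fun v => prr (dq e (om n (v 0) * v 1 * om n (v 0)) *
    (om n (v 0) * v 2 - om n (v 0) * v 2 * om n (v 0))) (fun l => ct (om n (v 0)) (v (3 + l))) k)
    ?_ ?_ ?_ ?_ ?_
  · exact ccc_TmF_prr ((((((TmF.var 0).om n).mul (TmF.var 1)).mul ((TmF.var 0).om n)).dq e).mul
      ((((TmF.var 0).om n).mul (TmF.var 2)).sub ((((TmF.var 0).om n).mul (TmF.var 2)).mul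
        ((TmF.var 0).om n)))) (x := fun l v => ct (om n (v 0)) (v (3 + l)))
      (fun l => ((TmF.var 0).om n).ct (TmF.var (3 + l))) k
  · intro v hv
    simp only [hv, zero_mul, sub_self, mul_zero]
    exact ccc_prr_zero _ _
  · intro v hv
    simp only [hv]
    exact (hal _ _ (hC _ _) fun i => ccc_ct hee _).1
  · intro S v hv hS h
    simp only [hv] at h
    have heS : e ∈ S := hv ▸ ccc_om_mem (hS 0)
    set t := e * v 1 * e with ht
    set c' := dq e t * (e * v 2 - e * v 2 * e) with hc'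
    have hcC : InC e c' := hC _ _
    have htS : t ∈ S := S.mul_mem (S.mul_mem heS (hS 1)) heS
    have hd : dq e t ≠ 0 := by
      intro hd
      apply h
      rw [hc', hd, zero_mul]
      exact ccc_prr_zero _ _
    have hcl : NonUnitalSubring.closure {t} ≤ S := by
      rw [NonUnitalSubring.closure_le]
      rintro _ rfl
      exact htS
    have hFS : ∀ x, e * x = x → x * e = x → x ∈ S := fun x h1 h2 =>
      hcl (d2 t (hF1 _) (hF2 _) hd x h1 h2)
    obtain ⟨hI, htop⟩ := ccc_top hNak hJnl hJid hc hpr S hFS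
    set J := JJ (fun _ : Fin 1 => e) with hJ
    set I := fr S J p with hIdef
    have hcS : c' ∈ S := S.mul_mem (hcl (d5 t))
      (S.sub_mem (S.mul_mem heS (hS 2)) (S.mul_mem (S.mul_mem heS (hS 2)) heS))
    -- `A ⊆ I`
    have hAI : ∀ x, InA e x → x ∈ I := by
      intro x hx
      have := (hal c' (fun l => ct e (v (3 + l))) hcC fun i => ccc_ct hee _).2 h x hx
      refine ((AddSubgroup.closure_le I).mpr ?_) this
      rintro w ((⟨l, -, rfl⟩ | ⟨x', x'', h', h'', rfl⟩) | ⟨x', h', rfl⟩)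
      · refine ccc_fr_S ?_ (ccc_JA (ccc_ct hee _))
        exact S.add_mem (S.sub_mem (S.sub_mem (hS _) (S.mul_mem heS (hS _)))
          (S.mul_mem (hS _) heS)) (S.mul_mem (S.mul_mem heS (hS _)) heS)
      · exact ccc_fr_mul (ccc_JA h') (ccc_JA h'')
      · exact ccc_fr_smul (ccc_JA h')
    -- `z ∈ I`
    have hzI : z ∈ I := by
      obtain ⟨f, hf, hr⟩ := s3 c' hcC
      have hrI : c' - f * z ∈ I := ccc_closure_le (I := I) (fun x y hx hy =>
        ccc_fr_mul (ccc_JC hx) (ccc_JA hy)) hr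
      have hfz : f * z ∈ I := by
        have := I.sub_mem (ccc_fr_S (S := S) (J := J) (p := p) hcS (ccc_JC hcC)) hrI
        simpa using this
      have hf0 : f ≠ 0 := by
        rintro rfl
        apply h
        have h0 := ccc_prr_rest (a := fun l => ct e (v (3 + l))) (k := k) (P := InC e)
          (Q := InA e) (fun c'' hc'' y hy => by
            rw [← ccc_prr_cons]
            refine s4 c'' hc'' _ fun i => ?_
            split_ifs
            · exact hy
            · exact ccc_ct hee _) hr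
        simpa using h0
      obtain ⟨f', -, -, -, hf'⟩ := ccc_inv he hf.1 hf.2 hf0
      have := (hI f' _ hfz).1
      rwa [← mul_assoc, hf', hz1] at this
    have hCI : ∀ x, InC e x → x ∈ I := by
      intro x hx
      obtain ⟨f, hf, hr⟩ := s3 x hx
      have hrI : x - f * z ∈ I := ccc_closure_le (I := I) (fun x y hx hy =>
        ccc_fr_mul (ccc_JC hx) (ccc_JA hy)) hr
      have := I.add_mem hrI (hI f z hzI).1
      simpa using this
    apply htop
    intro x hx
    have hxe : x * e = 0 := by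
      rw [s1 x]
      exact hx 0
    have h1 : e * x ∈ I := hCI _ ⟨by rw [← mul_assoc, hee], by rw [mul_assoc, hxe, mul_zero]⟩
    have h2 : x - e * x ∈ I := hAI _ ⟨by rw [mul_sub, ← mul_assoc, hee, sub_self],
      by rw [sub_mul, mul_assoc, hxe, mul_zero, sub_zero]⟩
    have := I.add_mem h1 h2
    simpa using this
  · obtain ⟨t, ht1, ht2, hd⟩ := d1
    refine ⟨ccc_v e t z a, ?_⟩
    have hom : om n e = e := (hPws n hn R hM e).2.2.2.2.2.2.2.2.2.1 hee
    have hv : ∀ l, ccc_v e t z a (3 + l) = a l := fun l => by rw [add_comm]; rfl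
    change prr (dq e (om n e * t * om n e) * (om n e * z - om n e * z * om n e))
      (fun l => ct (om n e) (ccc_v e t z a (3 + l))) k ≠ 0
    simp only [hom, hv, ht1, ht2, hz1, hz2, sub_zero]
    rw [ccc_prr_congr k (fun l hl => ccc_ct_A (ha l hl)), ccc_prr_mul]
    intro h0
    have hdF : e * dq e t = dq e t ∧ dq e t * e = dq e t := ⟨d3 e t ht1, d4 e t ht2⟩
    obtain ⟨w, -, -, -, hw⟩ := ccc_inv he hdF.1 hdF.2 hd
    apply hne
    have hez : e * prr z a k = prr z a k := by rw [← ccc_prr_mul, hz1]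
    rw [← hez, ← hw, mul_assoc, h0, mul_zero]

end Pool.Agent.CRN
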