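import Pool.Agent.CRN.St

/-!
Campaign CRN, module Cm1: a finite field is critical.
-/

set_option autoImplicit false

namespace Pool.Agent.CRN

open Pool.Agent.CRR

/-- A field has no proper nonzero ideals. -/
theorem Cm1_lst (F : Type) [Field F] : Lst F ⊤ := by
  refine ⟨fun r x _ => ⟨AddSubgroup.mem_top _, AddSubgroup.mem_top _⟩, ?_, ?_⟩
  · intro h
    have h1 : (1 : F) ∈ (⊤ : AddSubgroup F) := AddSubgroup.mem_top _
    rw [h, AddSubgroup.mem_bot] at h1
    exact one_ne_zero h1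
  · intro I hI hne y _
    obtain ⟨⟨x, hx⟩, hx1⟩ := I.ne_bot_iff_exists_ne_zero.mp hne
    have hx0 : x ≠ 0 := fun h => hx1 (Subtype.ext h)
    have h2 : y = y * x⁻¹ * x := by
      field_simp
    rw [h2]
    exact (hI _ _ hx).1

/-- The identity of a field. -/
theorem Cm1_fld (F : Type) [Field F] : Fld F 1 :=
  ⟨mul_one 1, one_ne_zero, fun x _ _ hx => ⟨x⁻¹, one_mul _, mul_one _, mul_inv_cancel₀ hx⟩⟩

/-- A finite field is critical. -/
theorem Cm1_main (hCrg : St_Crg) (hDlt : St_Dlt) (F : Type) [Field F] [Finite F] :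
    Critical F := by
  obtain ⟨⟨t, -, -, ht⟩, hgen, -, -, -⟩ := hDlt F 1 (Cm1_fld F)
  refine hCrg F ⊤ (Cm1_lst F) (fun v => dq (1 : F) (v 0)) (TmF.dq _ (TmF.var 0))
    (fun v => AddSubgroup.mem_top _) ⟨fun _ => t, ht⟩ ?_
  intro S hS v hv
  by_contra hne
  apply hS
  rw [eq_top_iff]
  intro x _
  have h1 := hgen (v 0) (one_mul _) (mul_one _) hne x (one_mul _) (mul_one _)
  refine NonUnitalSubring.closure_le.mpr ?_ h1
  rw [Set.singleton_subset_iff]
  exact hv 0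

theorem thm_Cm1 (hCrg : St_Crg) (hDlt : St_Dlt) : St_Cm1 := by
  intro R _ hT
  obtain ⟨F, _, _, ⟨θ⟩⟩ := hT
  have θ' : Matrix (Fin 1) (Fin 1) F ≃+* F := Matrix.uniqueRingEquiv
  exact ((Cm1_main hCrg hDlt F).congr θ'.symm).congr θ.symm

end Pool.Agent.CRN
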