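import Pool.Agent.CRN.St

/-!
Campaign CRN, module Cm2 (helper25): the ring of the matrices of size 2 over a finite field is critical.
-/

set_option autoImplicit false

namespace Pool.Agent.CRN

open Pool.Agent.CRR

section

variable {F : Type} [Field F]

theorem Cm2_fld {k : ℕ} {g : Matrix (Fin k) (Fin k) F} (hgg : g * g = g) (hg0 : g ≠ 0)
    (hg : ∀ X, ∃ c : F, g * X * g = c • g) :
    Fld (Matrix (Fin k) (Fin k) F) g ∧ qc g = Nat.card F := by
  have hx : ∀ x, g * x = x → x * g = x → ∃ c : F, x = c • g := by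
    intro x h1 h2
    obtain ⟨c, hc⟩ := hg x
    exact ⟨c, by rw [← hc, h1, h2]⟩
  refine ⟨⟨hgg, hg0, ?_⟩, ?_⟩
  · intro x h1 h2 h3
    obtain ⟨c, rfl⟩ := hx x h1 h2
    have hc : c ≠ 0 := by
      rintro rfl
      exact h3 (zero_smul _ _)
    refine ⟨c⁻¹ • g, ?_, ?_, ?_⟩
    · rw [mul_smul_comm, hgg]
    · rw [smul_mul_assoc, hgg]
    · rw [smul_mul_assoc, mul_smul_comm, hgg, smul_smul, mul_inv_cancel₀ hc, one_smul]
  · unfold qc
    symm
    refine Nat.card_congr (Equiv.ofBijective (fun c : F =>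
      (⟨c • g, by rw [mul_smul_comm, hgg], by rw [smul_mul_assoc, hgg]⟩ :
        {x : Matrix (Fin k) (Fin k) F // g * x = x ∧ x * g = x})) ⟨?_, ?_⟩)
    · intro c d h
      have h1 : c • g = d • g := congrArg Subtype.val h
      exact smul_left_injective F hg0 h1
    · rintro ⟨x, h1, h2⟩
      obtain ⟨c, rfl⟩ := hx x h1 h2
      exact ⟨c, rfl⟩

theorem Cm2_unit {k : ℕ} (i : Fin k) :
    Fld (Matrix (Fin k) (Fin k) F) (Matrix.single i i (1 : F)) ∧
      qc (Matrix.single i i (1 : F)) = Nat.card F := by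
  refine Cm2_fld ?_ ?_ ?_
  · rw [Matrix.single_mul_single_same, one_mul]
  · intro h
    have h1 := congrFun (congrFun h i) i
    rw [Matrix.single_apply_same] at h1
    exact one_ne_zero h1
  · intro X
    refine ⟨X i i, ?_⟩
    rw [Matrix.single_mul_mul_single, one_mul, mul_one, Matrix.smul_single, smul_eq_mul, mul_one]

/-- The ring of matrices is simple. -/
theorem Cm2_simple {k : ℕ} (hk : 0 < k) : Lst (Matrix (Fin k) (Fin k) F) ⊤ := by
  refine ⟨fun r x _ => ⟨trivial, trivial⟩, ?_, ?_⟩
  · intro h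
    have h1 : (Matrix.single (⟨0, hk⟩ : Fin k) ⟨0, hk⟩ (1 : F)) ∈
        (⊥ : AddSubgroup (Matrix (Fin k) (Fin k) F)) := by
      rw [← h]
      trivial
    rw [AddSubgroup.mem_bot] at h1
    exact (Cm2_unit (F := F) (⟨0, hk⟩ : Fin k)).1.2.1 h1
  · intro I hI hne y _
    obtain ⟨a, ha⟩ := AddSubgroup.ne_bot_iff_exists_ne_zero.1 hne
    obtain ⟨x, hxI⟩ := a
    have hx0 : x ≠ 0 := fun h0 => ha (Subtype.ext h0)
    obtain ⟨i, j, hij⟩ : ∃ i j, x i j ≠ 0 := by
      by_contra hcon
      push Not at hcon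
      exact hx0 (Matrix.ext hcon)
    rw [Matrix.matrix_eq_sum_single y]
    refine I.sum_mem fun a _ => I.sum_mem fun b _ => ?_
    have h1 : Matrix.single a b (y a b) =
        Matrix.single a i (y a b * (x i j)⁻¹) * x * Matrix.single j b 1 := by
      rw [Matrix.single_mul_mul_single, mul_one, mul_assoc, inv_mul_cancel₀ hij, mul_one]
    rw [h1]
    exact (hI _ _ (hI _ _ hxI).1).2

end

/-- the term function -/
noncomputable def Cm2_phi (n : ℕ) (F : Type) [Field F] (v : ℕ → Matrix (Fin 2) (Fin 2) F) :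
    Matrix (Fin 2) (Fin 2) F :=
  dq (Matrix.single 0 0 (1 : F)) (Eo n v 0 * v 2 * Eo n v 0) *
    (Eo n v 0 * v 3 * Eo n v 1 * v 4 * Eo n v 0)

theorem Cm2_tm (n : ℕ) (F : Type) [Field F] : TmF (Cm2_phi n F) := by
  have hE : ∀ i, TmF (R := Matrix (Fin 2) (Fin 2) F) (fun v => Eo n v i) := fun i =>
    TmF.Eo n (u := fun j v => v j) (fun j => TmF.var j) i
  exact TmF.mul (TmF.dq _ (((hE 0).mul (TmF.var 2)).mul (hE 0)))
    (((((hE 0).mul (TmF.var 3)).mul (hE 1)).mul (TmF.var 4)).mul (hE 0))

theorem Cm2_main (h1 : St_Crg) (h2 : St_Dlt) (h3 : St_Eof) (h4 : St_Rnk) (n : ℕ) (hn : 4 ≤ n)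
    (F : Type) [Field F] [Finite F] (hM : InM n (Matrix (Fin 2) (Fin 2) F)) :
    Critical (Matrix (Fin 2) (Fin 2) F) := by
  refine h1 _ ⊤ (Cm2_simple (by norm_num)) (Cm2_phi n F) (Cm2_tm n F) (fun _ => trivial) ?_ ?_
  · -- not zero
    obtain ⟨hfld, -⟩ := Cm2_unit (F := F) (0 : Fin 2)
    obtain ⟨⟨t, ht1, ht2, ht3⟩, -, -, hd4, -⟩ := h2 _ _ hfld
    let v : ℕ → Matrix (Fin 2) (Fin 2) F := fun i =>
      if i = 0 then Matrix.single 0 0 1 else if i = 1 then Matrix.single 1 1 1 else
      if i = 2 then t else if i = 3 then Matrix.single 0 1 1 else Matrix.single 1 0 1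
    have hv0 : v 0 = Matrix.single 0 0 1 := rfl
    have hv1 : v 1 = Matrix.single 1 1 1 := rfl
    have hv2 : v 2 = t := rfl
    have hv3 : v 3 = Matrix.single 0 1 1 := rfl
    have hv4 : v 4 = Matrix.single 1 0 1 := rfl
    refine ⟨v, ?_⟩
    have hE := (h3 n hn _ hM v).2.2 2 (by
      intro i hi
      interval_cases i
      · rw [hv0, Matrix.single_mul_single_same, one_mul]
      · rw [hv1, Matrix.single_mul_single_same, one_mul]) (by
      intro i j hi hj hij
      interval_cases i <;> interval_cases j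
      · exact absurd rfl hij
      · rw [hv0, hv1, Matrix.single_mul_single_of_ne _ _ _ _ (by decide)]
      · rw [hv0, hv1, Matrix.single_mul_single_of_ne _ _ _ _ (by decide)]
      · exact absurd rfl hij)
    have e0 : Eo n v 0 = Matrix.single 0 0 1 := hE 0 (by norm_num)
    have e1 : Eo n v 1 = Matrix.single 1 1 1 := hE 1 (by norm_num)
    have e2 : Matrix.single 0 0 (1 : F) * t * Matrix.single 0 0 1 = t := by rw [ht1, ht2]
    unfold Cm2_phi
    rw [e0, e1, hv2, hv3, hv4, e2, Matrix.single_mul_single_same, Matrix.single_mul_single_same,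
      Matrix.single_mul_single_same, Matrix.single_mul_single_same]
    simp only [mul_one]
    rw [hd4 _ t ht2]
    exact ht3
  · -- zero on proper subrings
    intro S hS v hv
    by_contra hne
    apply hS
    obtain ⟨hid, horth, -⟩ := h3 n hn _ hM v
    obtain ⟨A, hA⟩ : ∃ A, A = Eo n v 0 := ⟨_, rfl⟩
    obtain ⟨B, hB⟩ : ∃ B, B = Eo n v 1 := ⟨_, rfl⟩
    have hAA : A * A = A := by rw [hA]; exact hid 0
    have hBB : B * B = B := by rw [hB]; exact hid 1
    have hAB : A * B = 0 := by rw [hA, hB]; exact horth 0 1 (by norm_num)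
    have hBA : B * A = 0 := by rw [hA, hB]; exact horth 1 0 (by norm_num)
    have hAS : A ∈ S := by
      rw [hA]
      exact TmF.mem (TmF.Eo n (u := fun j v => v j) (fun j => TmF.var j) 0) S v hv
    have hBS : B ∈ S := by
      rw [hB]
      exact TmF.mem (TmF.Eo n (u := fun j v => v j) (fun j => TmF.var j) 1) S v hv
    unfold Cm2_phi at hne
    rw [← hA, ← hB] at hne
    have hA0 : A ≠ 0 := by
      intro h0
      apply hne
      rw [h0]
      simp
    have hB0 : B ≠ 0 := by
      intro h0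
      apply hne
      rw [h0]
      simp
    obtain ⟨hsum, hcor⟩ := (h4 F 2 2 ![A, B] (by
      intro i
      fin_cases i
      · exact hAA
      · exact hBB) (by
      intro i j hij
      fin_cases i <;> fin_cases j
      · exact absurd rfl hij
      · exact hAB
      · exact hBA
      · exact absurd rfl hij) (by
      intro i
      fin_cases i
      · exact hA0
      · exact hB0)).2 rfl
    have hsum' : A + B = 1 := by
      rw [Fin.sum_univ_two] at hsum
      exact hsum
    have hcA : ∀ X, ∃ c : F, A * X * A = c • A := fun X => hcor 0 X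
    have hcB : ∀ X, ∃ c : F, B * X * B = c • B := fun X => hcor 1 X
    obtain ⟨hfA, hqA⟩ := Cm2_fld hAA hA0 hcA
    obtain ⟨-, hq1⟩ := Cm2_unit (F := F) (0 : Fin 2)
    obtain ⟨t, ht⟩ : ∃ t, t = A * v 2 * A := ⟨_, rfl⟩
    have hdq : dq (Matrix.single 0 0 (1 : F)) t = dq A t := by
      unfold dq
      rw [hq1, hqA]
    rw [← ht, hdq] at hne
    have hdt : dq A t ≠ 0 := left_ne_zero_of_mul hne
    have htS : t ∈ S := by
      rw [ht]
      exact S.mul_mem (S.mul_mem hAS (hv 2)) hAS
    have hAR : ∀ x, A * x = x → x * A = x → x ∈ S := by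
      intro x hx1 hx2
      have h5 := (h2 _ A hfA).2.1 t (by rw [ht, ← mul_assoc, ← mul_assoc, hAA])
        (by rw [ht, mul_assoc, hAA]) hdt x hx1 hx2
      have h6 : NonUnitalSubring.closure {t} ≤ S := by
        rw [NonUnitalSubring.closure_le]
        rintro _ rfl
        exact htS
      exact h6 h5
    have hARA : ∀ x, A * x * A ∈ S := by
      intro x
      refine hAR _ ?_ ?_
      · rw [← mul_assoc, ← mul_assoc, hAA]
      · rw [mul_assoc, hAA]
    obtain ⟨r, hr⟩ : ∃ r, r = A * v 3 * B := ⟨_, rfl⟩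
    obtain ⟨s, hs⟩ : ∃ s, s = B * v 4 * A := ⟨_, rfl⟩
    have hrS : r ∈ S := by
      rw [hr]
      exact S.mul_mem (S.mul_mem hAS (hv 3)) hBS
    have hsS : s ∈ S := by
      rw [hs]
      exact S.mul_mem (S.mul_mem hBS (hv 4)) hAS
    have hrs : r * s = A * v 3 * B * v 4 * A := by
      calc r * s = A * v 3 * (B * B) * v 4 * A := by
            rw [hr, hs]
            simp only [mul_assoc]
        _ = A * v 3 * B * v 4 * A := by rw [hBB]
    have hrs0 : r * s ≠ 0 := by
      rw [hrs]
      exact right_ne_zero_of_mul hne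
    have hAr : A * r = r := by rw [hr, ← mul_assoc, ← mul_assoc, hAA]
    have hrB : r * B = r := by rw [hr, mul_assoc, hBB]
    have hBs : B * s = s := by rw [hs, ← mul_assoc, ← mul_assoc, hBB]
    have hsA : s * A = s := by rw [hs, mul_assoc, hAA]
    obtain ⟨κ, hκ⟩ := hcA (v 3 * B * v 4)
    have hκ' : r * s = κ • A := by
      rw [← hκ, hrs]
      simp only [mul_assoc]
    have hκ0 : κ ≠ 0 := by
      rintro rfl
      rw [zero_smul] at hκ'
      exact hrs0 hκ'
    obtain ⟨c, hc⟩ : ∃ c, c = s * (κ⁻¹ • A) := ⟨_, rfl⟩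
    have hcs : c = κ⁻¹ • s := by rw [hc, mul_smul_comm, hsA]
    have hcS : c ∈ S := by
      rw [hc]
      refine S.mul_mem hsS (hAR _ ?_ ?_)
      · rw [mul_smul_comm, hAA]
      · rw [smul_mul_assoc, hAA]
    have hrc : r * c = A := by
      rw [hcs, mul_smul_comm, hκ', smul_smul, inv_mul_cancel₀ hκ0, one_smul]
    have hcA' : c * A = c := by rw [hcs, smul_mul_assoc, hsA]
    have hBc : B * c = c := by rw [hcs, mul_smul_comm, hBs]
    have hcr : c * r = B := by
      obtain ⟨μ, hμ⟩ := hcB (c * r)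
      have h5 : c * r = μ • B := by
        rw [← hμ]
        calc c * r = (B * c) * (r * B) := by rw [hBc, hrB]
          _ = B * (c * r) * B := by simp only [mul_assoc]
      have h6 : (c * r) * (c * r) = c * r := by
        calc (c * r) * (c * r) = c * (r * c) * r := by simp only [mul_assoc]
          _ = c * r := by rw [hrc, hcA']
      rw [h5, smul_mul_assoc, mul_smul_comm, hBB, smul_smul] at h6
      have h7 : μ * μ = μ := smul_left_injective F hB0 h6
      have h8 : μ ≠ 0 := by
        rintro rfl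
        rw [zero_smul] at h5
        apply hA0
        calc A = A * A := hAA.symm
          _ = r * (c * r) * c := by
            conv_lhs => rw [← hrc]
            simp only [mul_assoc]
          _ = 0 := by rw [h5, mul_zero, zero_mul]
      have h9 : μ = 1 := mul_left_cancel₀ h8 (by rw [h7, mul_one])
      rw [h5, h9, one_smul]
    rw [eq_top_iff]
    intro x _
    have e1 : x = A * x * A + A * (x * c) * A * r + c * (A * (r * x) * A) +
        c * (A * (r * x * c) * A) * r := by
      have f1 : A * (x * c) * A * r = A * x * B := by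
        calc A * (x * c) * A * r = A * x * (c * (A * r)) := by simp only [mul_assoc]
          _ = A * x * B := by rw [hAr, hcr]
      have f2 : c * (A * (r * x) * A) = B * x * A := by
        calc c * (A * (r * x) * A) = (c * A) * r * x * A := by simp only [mul_assoc]
          _ = B * x * A := by rw [hcA', hcr]
      have f3 : c * (A * (r * x * c) * A) * r = B * x * B := by
        calc c * (A * (r * x * c) * A) * r = (c * A) * r * x * (c * (A * r)) := by
              simp only [mul_assoc]
          _ = B * x * B := by rw [hcA', hAr, hcr]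
      rw [f1, f2, f3]
      calc x = (A + B) * x * (A + B) := by rw [hsum', one_mul, mul_one]
        _ = _ := by
          rw [add_mul, mul_add, add_mul, add_mul]
          abel
    rw [e1]
    exact S.add_mem (S.add_mem (S.add_mem (hARA x) (S.mul_mem (hARA _) hrS))
      (S.mul_mem hcS (hARA _))) (S.mul_mem (S.mul_mem hcS (hARA _)) hrS)

theorem thm_Cm2 (h1 : St_Crg) (h2 : St_Dlt) (h3 : St_Eof) (h4 : St_Rnk) : St_Cm2 := by
  intro n hn R _ hR hT
  obtain ⟨F, _, _, ⟨e⟩⟩ := hT
  exact Critical.congr e.symm (Cm2_main h1 h2 h3 h4 n hn F (InM.congr e hR))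

end Pool.Agent.CRN
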