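import Pool.Agent.CRN.St

/-!
Campaign CRN, module Cm3: the ring of matrices of size 3 over a finite field is critical.
-/

set_option autoImplicit false

namespace Pool.Agent.CRN

open Pool.Agent.CRR

/-- The ring of matrices has no proper nonzero ideals. -/
theorem Cm3_lst (F : Type) [Field F] (k : ℕ) (i0 : Fin k) :
    Lst (Matrix (Fin k) (Fin k) F) ⊤ := by
  refine ⟨fun r x _ => ⟨AddSubgroup.mem_top _, AddSubgroup.mem_top _⟩, ?_, ?_⟩
  · intro h
    have h1 : (Matrix.single i0 i0 (1 : F)) ∈ (⊤ : AddSubgroup (Matrix (Fin k) (Fin k) F)) :=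
      AddSubgroup.mem_top _
    rw [h, AddSubgroup.mem_bot] at h1
    have h2 := congrFun (congrFun h1 i0) i0
    simp at h2
  · intro I hI hne B _
    obtain ⟨⟨A, hA⟩, hA1⟩ := I.ne_bot_iff_exists_ne_zero.mp hne
    have hA0 : A ≠ 0 := fun h => hA1 (Subtype.ext h)
    have h1 : ∃ i j, A i j ≠ 0 := by
      by_contra hcon
      refine hA0 (Matrix.ext fun i j => ?_)
      by_contra h
      exact hcon ⟨i, j, h⟩
    obtain ⟨i, j, hij⟩ := h1
    rw [Matrix.matrix_eq_sum_single B]
    refine AddSubgroup.sum_mem _ fun a _ => AddSubgroup.sum_mem _ fun b _ => ?_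
    have h2 : Matrix.single a b (B a b) =
        Matrix.single a i (B a b / A i j) * A * Matrix.single j b 1 := by
      rw [Matrix.single_mul_mul_single]
      congr 1
      field_simp
    rw [h2]
    exact (hI _ _ (hI _ _ hA).1).2

/-- An idempotent `g` with `g A g ∈ F g` for all `A`. -/
theorem Cm3_fld (F : Type) [Field F] (k : ℕ) (g : Matrix (Fin k) (Fin k) F) (hg : g * g = g)
    (hg0 : g ≠ 0) (hs : ∀ A, ∃ c : F, g * A * g = c • g) : Fld (Matrix (Fin k) (Fin k) F) g := by
  refine ⟨hg, hg0, ?_⟩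
  intro x h1 h2 hx
  obtain ⟨c, hc⟩ := hs x
  rw [h1, h2] at hc
  have hc0 : c ≠ 0 := by
    rintro rfl
    exact hx (by rw [hc, zero_smul])
  refine ⟨c⁻¹ • g, ?_, ?_, ?_⟩
  · rw [mul_smul_comm, hg]
  · rw [smul_mul_assoc, hg]
  · rw [hc, smul_mul_assoc, mul_smul_comm, hg, smul_smul, mul_inv_cancel₀ hc0, one_smul]

theorem Cm3_qc (F : Type) [Field F] (k : ℕ) (g : Matrix (Fin k) (Fin k) F) (hg : g * g = g)
    (hg0 : g ≠ 0) (hs : ∀ A, ∃ c : F, g * A * g = c • g) : qc g = Nat.card F := by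
  symm
  refine Nat.card_congr (Equiv.ofBijective
    (fun c : F => (⟨c • g, by rw [mul_smul_comm, hg], by rw [smul_mul_assoc, hg]⟩ :
      {x : Matrix (Fin k) (Fin k) F // g * x = x ∧ x * g = x})) ⟨?_, ?_⟩)
  · intro c c' h
    have h1 : c • g = c' • g := congrArg Subtype.val h
    have h2 : (c - c') • g = 0 := by rw [sub_smul, h1, sub_self]
    rcases smul_eq_zero.mp h2 with h3 | h3
    · exact sub_eq_zero.mp h3
    · exact absurd h3 hg0
  · rintro ⟨x, h1, h2⟩
    obtain ⟨c, hc⟩ := hs x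
    rw [h1, h2] at hc
    exact ⟨c, Subtype.ext hc.symm⟩

theorem Cm3_single (F : Type) [Field F] (k : ℕ) (i : Fin k) (A : Matrix (Fin k) (Fin k) F) :
    ∃ c : F, Matrix.single i i (1 : F) * A * Matrix.single i i (1 : F) =
      c • Matrix.single i i (1 : F) := by
  refine ⟨A i i, ?_⟩
  rw [Matrix.single_mul_mul_single, Matrix.smul_single]
  simp

/-- A subring which contains a field `g_0 R g_0` and connecting elements is everything. -/
theorem Cm3_gen (F : Type) [Field F] (k : ℕ) (g : Fin k → Matrix (Fin k) (Fin k) F)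
    (hg : ∀ i, g i * g i = g i) (hsum : ∑ i, g i = 1) (hg0 : ∀ i, g i ≠ 0)
    (hs : ∀ i A, ∃ c : F, g i * A * g i = c • g i)
    (S : NonUnitalSubring (Matrix (Fin k) (Fin k) F)) (i0 : Fin k)
    (h0 : ∀ x, g i0 * x = x → x * g i0 = x → x ∈ S) (r c : Fin k → Matrix (Fin k) (Fin k) F)
    (hr : ∀ i, r i ∈ S) (hc : ∀ i, c i ∈ S) (hgr : ∀ i, g i0 * r i = r i)
    (hrg : ∀ i, r i * g i = r i) (hgc : ∀ i, g i * c i = c i) (hcg : ∀ i, c i * g i0 = c i)
    (hrc : ∀ i, r i * c i = g i0) : S = ⊤ := by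
  have hcr : ∀ i, c i * r i = g i := by
    intro i
    obtain ⟨l, hl⟩ := hs i (c i * r i)
    rw [← mul_assoc (g i), hgc, mul_assoc (c i), hrg] at hl
    have h1 : (c i * r i) * (c i * r i) = c i * r i := by
      rw [mul_assoc, ← mul_assoc (r i), hrc, hgr]
    rw [hl, smul_mul_assoc, mul_smul_comm, hg, smul_smul] at h1
    have h2 : (l * l - l) • g i = 0 := by rw [sub_smul, h1, sub_self]
    have h3 : l * l - l = 0 := by
      rcases smul_eq_zero.mp h2 with h | h
      · exact h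
      · exact absurd h (hg0 i)
    have h4 : l * (l - 1) = 0 := by rw [← h3]; ring
    have hl0 : l ≠ 0 := by
      rintro rfl
      rw [zero_smul] at hl
      have h5 : r i * (c i * r i) = r i := by rw [← mul_assoc, hrc, hgr]
      rw [hl, mul_zero] at h5
      have h6 := hrc i
      rw [← h5, zero_mul] at h6
      exact hg0 i0 h6.symm
    have hl1 : l = 1 := by
      rcases mul_eq_zero.mp h4 with h | h
      · exact absurd h hl0
      · exact sub_eq_zero.mp h
    rw [hl, hl1, one_smul]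
  have hmem : ∀ x i j, g i * x * g j ∈ S := by
    intro x i j
    have h1 : g i * x * g j = c i * (r i * x * c j) * r j := by
      calc g i * x * g j = (c i * r i) * x * (c j * r j) := by rw [hcr, hcr]
        _ = c i * (r i * x * c j) * r j := by simp only [mul_assoc]
    rw [h1]
    refine S.mul_mem (S.mul_mem (hc i) (h0 _ ?_ ?_)) (hr j)
    · rw [← mul_assoc, ← mul_assoc, hgr]
    · rw [mul_assoc, hcg]
  rw [eq_top_iff]
  intro x _
  have h1 : x = ∑ i, ∑ j, g i * x * g j := by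
    calc x = (∑ i, g i) * x * (∑ j, g j) := by rw [hsum, one_mul, mul_one]
      _ = ∑ i, ∑ j, g i * x * g j := by
        rw [Finset.sum_mul, Finset.sum_mul]
        refine Finset.sum_congr rfl fun i _ => ?_
        rw [Finset.mul_sum]
  rw [h1]
  exact sum_mem fun i _ => sum_mem fun j _ => hmem x i j

/-- The case of the ring of matrices. -/
theorem Cm3_main (hCrg : St_Crg) (hDlt : St_Dlt) (hEof : St_Eof) (hRnk : St_Rnk) (n : ℕ)
    (hn : 4 ≤ n) (F : Type) [Field F] [Finite F] (hM : InM n (Matrix (Fin 3) (Fin 3) F)) :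
    Critical (Matrix (Fin 3) (Fin 3) F) := by
  have hE : Matrix.single (0 : Fin 3) (0 : Fin 3) (1 : F) * Matrix.single 0 0 1 =
      Matrix.single 0 0 1 := by simp
  have hE0 : Matrix.single (0 : Fin 3) (0 : Fin 3) (1 : F) ≠ 0 := by
    intro h
    have h2 := congrFun (congrFun h 0) 0
    simp at h2
  have hEF := Cm3_fld F 3 _ hE hE0 (Cm3_single F 3 0)
  have hEo : ∀ i : ℕ, TmF (R := Matrix (Fin 3) (Fin 3) F) (fun v => Eo n v i) := fun i =>
    TmF.Eo n (u := fun i v => v i) (fun i => TmF.var i) i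
  refine hCrg (Matrix (Fin 3) (Fin 3) F) ⊤ (Cm3_lst F 3 0)
    (fun v => dq (Matrix.single (0 : Fin 3) (0 : Fin 3) (1 : F)) (Eo n v 0 * v 3 * Eo n v 0) *
      (Eo n v 0 * v 4 * Eo n v 1 * v 5 * Eo n v 2 * v 6 * Eo n v 0)) ?_
    (fun v => AddSubgroup.mem_top _) ?_ ?_
  · exact (TmF.dq _ (((hEo 0).mul (TmF.var 3)).mul (hEo 0))).mul
      (((((((hEo 0).mul (TmF.var 4)).mul (hEo 1)).mul (TmF.var 5)).mul (hEo 2)).mul
        (TmF.var 6)).mul (hEo 0))
  · obtain ⟨⟨t, h1, h2, h3⟩, -, -, h4, -⟩ := hDlt _ _ hEF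
    let v : ℕ → Matrix (Fin 3) (Fin 3) F := fun i =>
      if i = 0 then Matrix.single 0 0 1 else if i = 1 then Matrix.single 1 1 1 else
      if i = 2 then Matrix.single 2 2 1 else if i = 3 then t else
      if i = 4 then Matrix.single 0 1 1 else if i = 5 then Matrix.single 1 2 1 else
      Matrix.single 2 0 1
    have v0 : v 0 = Matrix.single 0 0 1 := rfl
    have v1 : v 1 = Matrix.single 1 1 1 := rfl
    have v2 : v 2 = Matrix.single 2 2 1 := rfl
    have v3 : v 3 = t := rfl
    have v4 : v 4 = Matrix.single 0 1 1 := rfl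
    have v5 : v 5 = Matrix.single 1 2 1 := rfl
    have v6 : v 6 = Matrix.single 2 0 1 := rfl
    have hv := (hEof n hn _ hM v).2.2 3
      (by
        intro i hi
        interval_cases i
        · rw [v0]; simp
        · rw [v1]; simp
        · rw [v2]; simp)
      (by
        intro i j hi hj hij
        interval_cases i <;> interval_cases j <;>
          first
          | exact absurd rfl hij
          | (simp only [v0, v1, v2]; simp))
    refine ⟨v, ?_⟩
    simp only [hv 0 (by norm_num), hv 1 (by norm_num), hv 2 (by norm_num), v0, v1, v2, v3, v4,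
      v5, v6]
    rw [h1, h2]
    simp only [Matrix.single_mul_single_same, mul_one]
    rw [h4 _ _ h2]
    exact h3
  · intro S hS v hv
    by_contra hne
    have hmE : ∀ i, Eo n v i ∈ S := fun i => (hEo i).mem S v hv
    obtain ⟨hid, horth, -⟩ := hEof n hn _ hM v
    have hw : Eo n v 0 * v 4 * Eo n v 1 * v 5 * Eo n v 2 * v 6 * Eo n v 0 ≠ 0 := by
      intro h
      exact hne (by rw [h, mul_zero])
    have hd : dq (Matrix.single (0 : Fin 3) (0 : Fin 3) (1 : F))
        (Eo n v 0 * v 3 * Eo n v 0) ≠ 0 := by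
      intro h
      exact hne (by rw [h, zero_mul])
    have hE0' : ∀ i : Fin 3, Eo n v (i : ℕ) ≠ 0 := by
      intro i hi
      fin_cases i
      · refine hw ?_
        simp only [Fin.zero_eta, Fin.val_zero] at hi
        rw [hi]
        simp
      · refine hw ?_
        simp only [Fin.mk_one, Fin.val_one] at hi
        rw [hi]
        simp
      · refine hw ?_
        simp only [Fin.reduceFinMk, Fin.val_two] at hi
        rw [hi]
        simp
    obtain ⟨-, hrk⟩ := hRnk F 3 3 (fun i => Eo n v (i : ℕ)) (fun i => hid i)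
      (fun i j hij => horth i j fun h => hij (Fin.ext h)) hE0'
    obtain ⟨hsum, hsc⟩ := hrk rfl
    have hF0 := Cm3_fld F 3 (Eo n v 0) (hid 0) (hE0' 0) (hsc 0)
    have hq : qc (Matrix.single (0 : Fin 3) (0 : Fin 3) (1 : F)) = qc (Eo n v 0) := by
      rw [Cm3_qc F 3 _ hE hE0 (Cm3_single F 3 0), Cm3_qc F 3 _ (hid 0) (hE0' 0) (hsc 0)]
    have hd' : dq (Eo n v 0) (Eo n v 0 * v 3 * Eo n v 0) ≠ 0 := by
      unfold dq at hd ⊢
      rw [← hq]
      exact hd
    have h0 : ∀ x, Eo n v 0 * x = x → x * Eo n v 0 = x → x ∈ S := by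
      intro x hx1 hx2
      have h1 := (hDlt _ _ hF0).2.1 (Eo n v 0 * v 3 * Eo n v 0)
        (by rw [← mul_assoc, ← mul_assoc, hid]) (by rw [mul_assoc, hid]) hd' x hx1 hx2
      refine NonUnitalSubring.closure_le.mpr ?_ h1
      rw [Set.singleton_subset_iff]
      exact S.mul_mem (S.mul_mem (hmE 0) (hv 3)) (hmE 0)
    obtain ⟨κ, hκ⟩ := hsc 0 (v 4 * Eo n v 1 * v 5 * Eo n v 2 * v 6)
    have hκ' : Eo n v 0 * v 4 * Eo n v 1 * v 5 * Eo n v 2 * v 6 * Eo n v 0 = κ • Eo n v 0 := by
      refine Eq.trans ?_ hκ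
      simp only [mul_assoc, Fin.val_zero]
    have hκ0 : κ ≠ 0 := by
      rintro rfl
      exact hw (by rw [hκ', zero_smul])
    have hκS : κ⁻¹ • Eo n v 0 ∈ S :=
      h0 _ (by rw [mul_smul_comm, hid]) (by rw [smul_mul_assoc, hid])
    let a := Eo n v 0 * v 4 * Eo n v 1
    let b := Eo n v 1 * v 5 * Eo n v 2
    let c := Eo n v 2 * v 6 * Eo n v 0
    have ha : a ∈ S := S.mul_mem (S.mul_mem (hmE 0) (hv 4)) (hmE 1)
    have hb : b ∈ S := S.mul_mem (S.mul_mem (hmE 1) (hv 5)) (hmE 2)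
    have hc : c ∈ S := S.mul_mem (S.mul_mem (hmE 2) (hv 6)) (hmE 0)
    have ha1 : Eo n v 0 * a = a := by
      show Eo n v 0 * (Eo n v 0 * v 4 * Eo n v 1) = Eo n v 0 * v 4 * Eo n v 1
      rw [← mul_assoc, ← mul_assoc, hid]
    have ha2 : a * Eo n v 1 = a := by
      show Eo n v 0 * v 4 * Eo n v 1 * Eo n v 1 = Eo n v 0 * v 4 * Eo n v 1
      rw [mul_assoc, hid]
    have hb1 : Eo n v 1 * b = b := by
      show Eo n v 1 * (Eo n v 1 * v 5 * Eo n v 2) = Eo n v 1 * v 5 * Eo n v 2
      rw [← mul_assoc, ← mul_assoc, hid]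
    have hb2 : b * Eo n v 2 = b := by
      show Eo n v 1 * v 5 * Eo n v 2 * Eo n v 2 = Eo n v 1 * v 5 * Eo n v 2
      rw [mul_assoc, hid]
    have hc1 : Eo n v 2 * c = c := by
      show Eo n v 2 * (Eo n v 2 * v 6 * Eo n v 0) = Eo n v 2 * v 6 * Eo n v 0
      rw [← mul_assoc, ← mul_assoc, hid]
    have hc2 : c * Eo n v 0 = c := by
      show Eo n v 2 * v 6 * Eo n v 0 * Eo n v 0 = Eo n v 2 * v 6 * Eo n v 0
      rw [mul_assoc, hid]
    have habc : a * b * c = κ • Eo n v 0 := by
      rw [← hκ']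
      show Eo n v 0 * v 4 * Eo n v 1 * (Eo n v 1 * v 5 * Eo n v 2) *
        (Eo n v 2 * v 6 * Eo n v 0) = _
      have e1 : Eo n v 0 * v 4 * Eo n v 1 * (Eo n v 1 * v 5 * Eo n v 2) *
          (Eo n v 2 * v 6 * Eo n v 0) =
          Eo n v 0 * v 4 * (Eo n v 1 * Eo n v 1) * v 5 * (Eo n v 2 * Eo n v 2) * v 6 *
            Eo n v 0 := by
        simp only [mul_assoc]
      rw [e1, hid, hid]
    have hS' := Cm3_gen F 3 (fun i => Eo n v (i : ℕ)) (fun i => hid i) hsum hE0' hsc S 0 h0
      ![Eo n v 0, a, a * b] ![Eo n v 0, b * c * (κ⁻¹ • Eo n v 0), c * (κ⁻¹ • Eo n v 0)]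
      (by
        intro i
        fin_cases i
        · exact hmE 0
        · exact ha
        · exact S.mul_mem ha hb)
      (by
        intro i
        fin_cases i
        · exact hmE 0
        · exact S.mul_mem (S.mul_mem hb hc) hκS
        · exact S.mul_mem hc hκS)
      (by
        intro i
        fin_cases i
        · exact hid 0
        · exact ha1
        · show Eo n v 0 * (a * b) = a * b
          rw [← mul_assoc, ha1])
      (by
        intro i
        fin_cases i
        · exact hid 0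
        · exact ha2
        · show a * b * Eo n v 2 = a * b
          rw [mul_assoc, hb2])
      (by
        intro i
        fin_cases i
        · exact hid 0
        · show Eo n v 1 * (b * c * (κ⁻¹ • Eo n v 0)) = b * c * (κ⁻¹ • Eo n v 0)
          rw [← mul_assoc, ← mul_assoc, hb1]
        · show Eo n v 2 * (c * (κ⁻¹ • Eo n v 0)) = c * (κ⁻¹ • Eo n v 0)
          rw [← mul_assoc, hc1])
      (by
        intro i
        fin_cases i
        · exact hid 0
        · show b * c * (κ⁻¹ • Eo n v 0) * Eo n v 0 = b * c * (κ⁻¹ • Eo n v 0)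
          rw [mul_assoc, smul_mul_assoc, hid]
        · show c * (κ⁻¹ • Eo n v 0) * Eo n v 0 = c * (κ⁻¹ • Eo n v 0)
          rw [mul_assoc, smul_mul_assoc, hid])
      (by
        have hk1 : (κ • Eo n v 0) * (κ⁻¹ • Eo n v 0) = Eo n v 0 := by
          rw [smul_mul_assoc, mul_smul_comm, hid, smul_smul, mul_inv_cancel₀ hκ0, one_smul]
        intro i
        fin_cases i
        · exact hid 0
        · show a * (b * c * (κ⁻¹ • Eo n v 0)) = Eo n v 0
          rw [← mul_assoc, ← mul_assoc, habc, hk1]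
        · show a * b * (c * (κ⁻¹ • Eo n v 0)) = Eo n v 0
          rw [← mul_assoc, habc, hk1])
    exact hS hS'

theorem thm_Cm3 (hCrg : St_Crg) (hDlt : St_Dlt) (hEof : St_Eof) (hRnk : St_Rnk) : St_Cm3 := by
  intro n hn R _ hM hT
  obtain ⟨F, _, _, ⟨θ⟩⟩ := hT
  exact (Cm3_main hCrg hDlt hEof hRnk n hn F (hM.congr θ)).congr θ.symm

end Pool.Agent.CRN
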