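import Pool.Agent.CRN.St

/-!
Campaign CRN, module Cnj: in the case of one field all nonzero idempotents are conjugate.
-/

set_option autoImplicit false

namespace Pool.Agent.CRN

open Pool.Agent.CRR

/-- conjugation by `1 + x`, `x x x = 0` -/
private def Cnj_f {R : Type} [NonUnitalRing R] (x y : R) : R :=
  (y + x * y) - (y + x * y) * x + (y + x * y) * (x * x)

private theorem Cnj_inr {R : Type} [NonUnitalRing R] (x y : R) :
    ((Cnj_f x y : R) : Unitization ℤ R) = (1 + (x : Unitization ℤ R)) * (y : Unitization ℤ R) *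
      (1 - (x : Unitization ℤ R) + (x : Unitization ℤ R) * (x : Unitization ℤ R)) := by
  unfold Cnj_f
  rw [Unitization.inr_add, Unitization.inr_sub, Unitization.inr_mul, Unitization.inr_mul,
    Unitization.inr_add, Unitization.inr_mul, Unitization.inr_mul]
  noncomm_ring

private theorem Cnj_wv {S : Type} [Ring S] {X : S} (h : X * X * X = 0) :
    (1 + X) * (1 - X + X * X) = 1 ∧ (1 - X + X * X) * (1 + X) = 1 := by
  have h1 : (1 + X) * (1 - X + X * X) = 1 + X * X * X := by noncomm_ring
  have h2 : (1 - X + X * X) * (1 + X) = 1 + X * X * X := by noncomm_ring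
  rw [h1, h2, h, add_zero]
  exact ⟨rfl, rfl⟩

private theorem Cnj_m {S : Type} [Ring S] {W V : S} (h : V * W = 1) (y z : S) :
    W * (y * z) * V = (W * y * V) * (W * z * V) := by
  calc W * (y * z) * V = W * y * 1 * z * V := by rw [mul_one, ← mul_assoc]
    _ = W * y * (V * W) * z * V := by rw [h]
    _ = (W * y * V) * (W * z * V) := by simp only [mul_assoc]

private theorem Cnj_c {S : Type} [Ring S] {W V : S} (h : V * W = 1) {y : S}
    (h0 : W * y * V = 0) : y = 0 := by
  calc y = (V * W) * y * (V * W) := by rw [h, one_mul, mul_one]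
    _ = V * (W * y * V) * W := by simp only [mul_assoc]
    _ = 0 := by rw [h0, mul_zero, zero_mul]

private theorem Cnj_e {S : Type} [Ring S] {W V e g : S} (h : W * V = 1)
    (h1 : W * e = g * W) : W * e * V = g := by
  rw [h1, mul_assoc, h, mul_one]

theorem thm_Cnj (hJ : St_Jid) : St_Cnj := by
  intro n R _ _ e hC g hg hg0
  obtain ⟨-, j2, -, -, -, j6, j7⟩ := hJ n R 1 (fun _ => e) hC
  have hee : e * e = e := (hC.fam.fld 0).1
  have hege : e * g * e = e := by
    rcases j6 g hg 0 with h | h
    · exfalso
      apply hg0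
      apply j7 g hg
      intro i
      exact h
    · exact h
  -- the element x
  set x : R := g * e + g * e - g - e with hx
  have hxJ : x ∈ JJ (fun _ : Fin 1 => e) := by
    intro i
    show e * x * e = 0
    have h1 : e * (g * e) * e = e := by
      rw [← mul_assoc, mul_assoc (e * g) e e, hee, hege]
    rw [hx, mul_sub, mul_sub, mul_add, sub_mul, sub_mul, add_mul, h1, hege, hee, hee]
    abel
  have hx3 : x * x * x = 0 := j2 x hxJ
  have hxe : e + x * e = g * e := by
    rw [hx, sub_mul, sub_mul, add_mul, mul_assoc g e e, hee]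
    abel
  have hgx : g + g * x = g * e := by
    rw [hx, mul_sub, mul_sub, mul_add, ← mul_assoc g g e, hg]
    abel
  -- the unit
  set X : Unitization ℤ R := (x : Unitization ℤ R) with hX
  have hX3 : X * X * X = 0 := by
    rw [hX, ← Unitization.inr_mul, ← Unitization.inr_mul, hx3, Unitization.inr_zero]
  set V : Unitization ℤ R := 1 - X + X * X with hV
  obtain ⟨hWV, hVW⟩ : (1 + X) * V = 1 ∧ V * (1 + X) = 1 :=
    Cnj_wv (S := Unitization ℤ R) (X := X) hX3
  have hinr : ∀ y : R, ((Cnj_f x y : R) : Unitization ℤ R) =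
      (1 + X) * (y : Unitization ℤ R) * V := fun y => Cnj_inr x y
  have hinj0 : Function.Injective (fun y : R => (y : Unitization ℤ R)) := Unitization.inr_injective
  let θ : R →ₙ+* R :=
    { toFun := Cnj_f x
      map_mul' := by
        intro y z
        apply hinj0
        show ((Cnj_f x (y * z) : R) : Unitization ℤ R) = ((Cnj_f x y * Cnj_f x z : R) : Unitization ℤ R)
        rw [Unitization.inr_mul, hinr, hinr, hinr, Unitization.inr_mul]
        exact Cnj_m (S := Unitization ℤ R) (W := 1 + X) (V := V) hVW _ _
      map_zero' := by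
        show Cnj_f x 0 = 0
        unfold Cnj_f
        simp
      map_add' := by
        intro y z
        show Cnj_f x (y + z) = Cnj_f x y + Cnj_f x z
        unfold Cnj_f
        simp only [mul_add, add_mul]
        abel }
  have hθ : ∀ y, θ y = Cnj_f x y := fun y => rfl
  have hinj : Function.Injective θ := by
    rw [injective_iff_map_eq_zero]
    intro y hy
    rw [hθ] at hy
    have h1 := hinr y
    rw [hy, Unitization.inr_zero] at h1
    apply hinj0
    show (y : Unitization ℤ R) = ((0 : R) : Unitization ℤ R)
    rw [Unitization.inr_zero]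
    exact Cnj_c (S := Unitization ℤ R) (W := 1 + X) (V := V) hVW h1.symm
  refine ⟨RingEquiv.ofBijective θ (Finite.injective_iff_bijective.1 hinj), ?_⟩
  show θ e = g
  rw [hθ]
  apply hinj0
  show ((Cnj_f x e : R) : Unitization ℤ R) = (g : Unitization ℤ R)
  have h1 : (1 + X) * (e : Unitization ℤ R) = (g : Unitization ℤ R) * (1 + X) := by
    rw [add_mul, one_mul, mul_add, mul_one, hX, ← Unitization.inr_mul, ← Unitization.inr_mul,
      ← Unitization.inr_add, ← Unitization.inr_add, hxe, hgx]
  rw [hinr]
  exact Cnj_e (S := Unitization ℤ R) (W := 1 + X) (V := V) hWV h1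

end Pool.Agent.CRN
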