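import Pool.Agent.CRN.St

/-!
# CRN/Cov: every vertex is an end of one of the generators
-/

set_option autoImplicit false

namespace Pool.Agent.CRN

open Pool.Agent.CRR

/-- The corner `e R e`. -/
def CovI {R : Type} [NonUnitalRing R] (e : R) : AddSubgroup R where
  carrier := {x | e * x = x ∧ x * e = x}
  zero_mem' := ⟨mul_zero _, zero_mul _⟩
  add_mem' := fun {x y} hx hy => ⟨by rw [mul_add, hx.1, hy.1], by rw [add_mul, hx.2, hy.2]⟩
  neg_mem' := fun {x} hx => ⟨by rw [mul_neg, hx.1], by rw [neg_mul, hx.2]⟩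

/-- The opposite corner. -/
def CovJ {R : Type} [NonUnitalRing R] (e : R) : AddSubgroup R where
  carrier := {x | e * x = 0 ∧ x * e = 0}
  zero_mem' := ⟨mul_zero _, zero_mul _⟩
  add_mem' := fun {x y} hx hy =>
    ⟨by rw [mul_add, hx.1, hy.1, add_zero], by rw [add_mul, hx.2, hy.2, add_zero]⟩
  neg_mem' := fun {x} hx => ⟨by rw [mul_neg, hx.1, neg_zero], by rw [neg_mul, hx.2, neg_zero]⟩

theorem Cov_ij {R : Type} [NonUnitalRing R] {e x y : R} (hx : x ∈ CovI e) (hy : y ∈ CovJ e) :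
    x * y = 0 := by
  rw [← hx.2, mul_assoc, hy.1, mul_zero]

theorem Cov_ji {R : Type} [NonUnitalRing R] {e x y : R} (hx : x ∈ CovJ e) (hy : y ∈ CovI e) :
    x * y = 0 := by
  rw [← hy.1, ← mul_assoc, hx.2, zero_mul]

theorem Cov_ii {R : Type} [NonUnitalRing R] {e x y : R} (hx : x ∈ CovI e) (hy : y ∈ CovI e) :
    x * y ∈ CovI e :=
  ⟨by rw [← mul_assoc, hx.1], by rw [mul_assoc, hy.2]⟩

theorem Cov_jj {R : Type} [NonUnitalRing R] {e x y : R} (hx : x ∈ CovJ e) (hy : y ∈ CovJ e) :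
    x * y ∈ CovJ e :=
  ⟨by rw [← mul_assoc, hx.1, zero_mul], by rw [mul_assoc, hy.2, mul_zero]⟩

theorem thm_Cov : St_Cov := by
  rintro R _ s e hfam ⟨H, hH⟩ Z hZ m hm z hz
  by_contra hz0
  have hee : e m * e m = e m := (hfam.fld m).1
  let S : NonUnitalSubring R :=
    { carrier := {r | ∃ x ∈ CovI (e m), ∃ y ∈ CovJ (e m), r = x + y}
      zero_mem' := ⟨0, zero_mem _, 0, zero_mem _, (add_zero 0).symm⟩
      add_mem' := by
        rintro _ _ ⟨x, hx, y, hy, rfl⟩ ⟨x', hx', y', hy', rfl⟩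
        exact ⟨x + x', add_mem hx hx', y + y', add_mem hy hy', by abel⟩
      neg_mem' := by
        rintro _ ⟨x, hx, y, hy, rfl⟩
        exact ⟨-x, neg_mem hx, -y, neg_mem hy, by abel⟩
      mul_mem' := by
        rintro _ _ ⟨x, hx, y, hy, rfl⟩ ⟨x', hx', y', hy', rfl⟩
        refine ⟨x * x', Cov_ii hx hx', y * y', Cov_jj hy hy', ?_⟩
        rw [add_mul, mul_add, mul_add, Cov_ij hx hy', Cov_ji hy hx', add_zero, zero_add] }
  have hS : ∀ r : R, r ∈ S := by
    intro r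
    have h1 : NonUnitalSubring.closure (G0 e ∪ Z) ≤ S := by
      rw [NonUnitalSubring.closure_le]
      rintro x (⟨i, hi1, hi2⟩ | hx)
      · by_cases him : i = m
        · subst him
          exact ⟨x, ⟨hi1, hi2⟩, 0, zero_mem _, (add_zero x).symm⟩
        · refine ⟨0, zero_mem _, x, ⟨?_, ?_⟩, (zero_add x).symm⟩
          · rw [← hi1, ← mul_assoc, hfam.orth m i (Ne.symm him), zero_mul]
          · rw [← hi2, mul_assoc, hfam.orth i m him, mul_zero]
      · exact ⟨0, zero_mem _, x, hm x hx, (zero_add x).symm⟩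
    exact h1 (hZ ▸ NonUnitalSubring.mem_top r)
  have hI : Idl R (CovI (e m)) := by
    intro r x hx
    obtain ⟨a, ha, b, hb, rfl⟩ := hS r
    rw [add_mul, mul_add, Cov_ji hb hx, Cov_ij hx hb, add_zero, add_zero]
    exact ⟨Cov_ii ha hx, Cov_ii hx ha⟩
  have hJ : Idl R (CovJ (e m)) := by
    intro r x hx
    obtain ⟨a, ha, b, hb, rfl⟩ := hS r
    rw [add_mul, mul_add, Cov_ij ha hx, Cov_ji hx ha, zero_add, zero_add]
    exact ⟨Cov_jj hb hx, Cov_jj hx hb⟩
  have hI0 : CovI (e m) ≠ ⊥ := by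
    intro h0
    have h1 : e m ∈ CovI (e m) := ⟨hee, hee⟩
    rw [h0, AddSubgroup.mem_bot] at h1
    exact (hfam.fld m).2.1 h1
  have hJ0 : CovJ (e m) ≠ ⊥ := by
    intro h0
    have h1 : z ∈ CovJ (e m) := hm z hz
    rw [h0, AddSubgroup.mem_bot] at h1
    exact hz0 h1
  refine hH.2.1 ?_
  rw [eq_bot_iff]
  intro x hx
  have h1 := hH.2.2 _ hI hI0 hx
  have h2 := hH.2.2 _ hJ hJ0 hx
  rw [AddSubgroup.mem_bot, ← h1.1, h2.1]

end Pool.Agent.CRN
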