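import Pool.Agent.CRN.St

/-!
Campaign CRN, module `Ctr`: the rings of triangular type are critical (helper41, architect helper39).
-/

set_option autoImplicit false

namespace Pool.Agent.CRN

open Pool.Agent.CRR

/-- The data of `TriType` together with the facts of `St_Trf`. -/
structure Ctr_Cx (R : Type) [NonUnitalRing R] (F : Type) [Field F]
    (φ : Matrix (Fin 2) (Fin 2) F →ₙ+* R) (f : R) (H : AddSubgroup R) : Prop where
  inj : Function.Injective φ
  sur : ∀ x : R, φ 1 * x = x → x * φ 1 = x → ∃ A, φ A = x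
  xe : ∀ x : R, x * φ 1 = φ 1 * x * φ 1
  ff : f = 0 ∨ Fld R f
  ef : φ 1 * f = 0
  fe : f * φ 1 = 0
  lst : Lst R H
  mem : ∀ x : R, x ∈ H ↔ φ 1 * x = x ∧ x * φ 1 = 0
  rm : ∀ x y, φ 1 * (x * y) * φ 1 = (φ 1 * x * φ 1) * (φ 1 * y * φ 1)
  tm : ∀ x y, f * (x * y) * f = (f * x * f) * (f * y * f)
  hh : ∀ x ∈ H, ∀ y ∈ H, x * y = 0
  dec : ∀ x, x - φ 1 * x * φ 1 - f * x * f ∈ H
  hf : f ≠ 0 → ∀ x ∈ H, x * f = x

section

variable {R : Type} [NonUnitalRing R] {F : Type} [Field F]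
  {φ : Matrix (Fin 2) (Fin 2) F →ₙ+* R} {f : R} {H : AddSubgroup R}

theorem Ctr_Cx.ee (_ : Ctr_Cx R F φ f H) : φ 1 * φ 1 = φ 1 := by
  rw [← map_mul, mul_one]

theorem Ctr_Cx.rr (h : Ctr_Cx R F φ f H) (x : R) :
    φ 1 * (φ 1 * x * φ 1) = φ 1 * x * φ 1 ∧ (φ 1 * x * φ 1) * φ 1 = φ 1 * x * φ 1 := by
  constructor
  · rw [← mul_assoc, ← mul_assoc, h.ee]
  · rw [mul_assoc, h.ee]

/-- `x = e x e + h` if `f x f = 0`, so `e x = x` -/
theorem Ctr_Cx.ex (h : Ctr_Cx R F φ f H) {x : R} (hx : f * x * f = 0) : φ 1 * x = x := by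
  have h1 := h.dec x
  rw [hx, sub_zero, h.mem] at h1
  have h2 := h1.1
  rw [mul_sub, (h.rr x).1] at h2
  exact sub_left_inj.1 h2

theorem Ctr_Cx.memH (h : Ctr_Cx R F φ f H) {x : R} (h1 : φ 1 * x * φ 1 = 0) (h2 : f * x * f = 0) :
    x ∈ H := by
  have h3 := h.dec x
  rwa [h1, h2, sub_zero, sub_zero] at h3

/-- injectivity on `E R E` -/
theorem Ctr_Cx.zero1 (h : Ctr_Cx R F φ f H) {E x : R} (hE : φ 1 * E = E) (hx : x * E = x)
    (h1 : φ 1 * x * φ 1 = 0) (h2 : f * x * f = 0) : x = 0 := by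
  have h3 := ((h.mem x).1 (h.memH h1 h2)).2
  rw [← hx, ← hE, ← mul_assoc, h3, zero_mul]

theorem Ctr_Cx.zero2 (h : Ctr_Cx R F φ f H) {E x : R} (hE : E * φ 1 = 0) (hx : E * x = x)
    (h1 : φ 1 * x * φ 1 = 0) (h2 : f * x * f = 0) : x = 0 := by
  have h3 := ((h.mem x).1 (h.memH h1 h2)).1
  rw [← hx, ← h3, ← mul_assoc, hE, zero_mul]

/-- the idempotents of `H` are zero -/
theorem Ctr_Cx.idem0 (h : Ctr_Cx R F φ f H) {x : R} (hx : x * x = x) (hH : x ∈ H) : x = 0 := by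
  rw [← hx]; exact h.hh x hH x hH

/-- idempotents of the field -/
theorem Ctr_Cx.tau (h : Ctr_Cx R F φ f H) {x : R} (hx : x * x = x) :
    f * x * f = 0 ∨ f * x * f = f := by
  rcases h.ff with h0 | hF
  · left; rw [h0, zero_mul, zero_mul]
  · by_cases h1 : f * x * f = 0
    · exact Or.inl h1
    · right
      have hff : f * f = f := hF.1
      obtain ⟨y, -, -, hy⟩ := hF.2.2 (f * x * f) (by rw [← mul_assoc, ← mul_assoc, hff])
        (by rw [mul_assoc, hff]) h1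
      have h2 : (f * x * f) * (f * x * f) = f * x * f := by rw [← h.tm, hx]
      calc f * x * f = (f * x * f) * f := by rw [mul_assoc (f * x) f f, hff]
        _ = (f * x * f) * ((f * x * f) * y) := by rw [hy]
        _ = ((f * x * f) * (f * x * f)) * y := (mul_assoc _ _ _).symm
        _ = f := by rw [h2, hy]

theorem Ctr_Cx.tau_orth (h : Ctr_Cx R F φ f H) {x y : R} (hxy : x * y = 0)
    (hx : f * x * f = f) : f * y * f = 0 := by
  have h1 : (f * x * f) * (f * y * f) = 0 := by rw [← h.tm, hxy, mul_zero, zero_mul]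
  rw [hx] at h1
  rcases h.ff with h0 | hF
  · rw [h0, zero_mul, zero_mul]
  · have hff : f * f = f := hF.1
    rwa [← mul_assoc, ← mul_assoc, hff] at h1

theorem Ctr_Cx.tau_orth2 (h : Ctr_Cx R F φ f H) {x y : R} (hxy : x * y = 0)
    (hy : f * y * f = f) : f * x * f = 0 := by
  have h1 : (f * x * f) * (f * y * f) = 0 := by rw [← h.tm, hxy, mul_zero, zero_mul]
  rw [hy] at h1
  rcases h.ff with h0 | hF
  · rw [h0, zero_mul, zero_mul]
  · have hff : f * f = f := hF.1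
    rwa [mul_assoc, hff] at h1

/-- the preimage of `e x e` in the matrix ring -/
theorem Ctr_Cx.pre (h : Ctr_Cx R F φ f H) (x : R) : ∃ A, φ A = φ 1 * x * φ 1 :=
  h.sur _ (h.rr x).1 (h.rr x).2

/-- idempotents `E` of rank one in the matrix part -/
structure Ctr_E (R : Type) [NonUnitalRing R] (F : Type) [Field F]
    (φ : Matrix (Fin 2) (Fin 2) F →ₙ+* R) (f : R) (E : R) (G : Matrix (Fin 2) (Fin 2) F) :
    Prop where
  id : E * E = E
  eE : φ 1 * E = E
  tE : f * E * f = 0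
  gE : φ G = φ 1 * E * φ 1
  g0 : G ≠ 0
  rk : ∀ A, ∃ c : F, G * A * G = c • G

theorem Ctr_E.gg {E : R} {G : Matrix (Fin 2) (Fin 2) F} (h : Ctr_Cx R F φ f H)
    (hE : Ctr_E R F φ f E G) : G * G = G := by
  apply h.inj
  rw [map_mul, hE.gE, ← h.rm, hE.id]

/-- two elements of `E R E` with the same matrix part are equal -/
theorem Ctr_E.eq {E : R} {G : Matrix (Fin 2) (Fin 2) F} (h : Ctr_Cx R F φ f H)
    (hE : Ctr_E R F φ f E G) {x y : R} (hx : x * E = x) (hy : y * E = y)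
    (hxy : φ 1 * x * φ 1 = φ 1 * y * φ 1) : x = y := by
  have t : ∀ z : R, z * E = z → f * z * f = 0 := by
    intro z hz
    rw [← hz, h.tm, hE.tE, mul_zero]
  rw [← sub_eq_zero]
  refine h.zero1 hE.eE (by rw [sub_mul, hx, hy]) ?_ ?_
  · rw [mul_sub, sub_mul, hxy, sub_self]
  · rw [mul_sub, sub_mul, t x hx, t y hy, sub_self]

theorem Ctr_E.coef {E : R} {G : Matrix (Fin 2) (Fin 2) F} (h : Ctr_Cx R F φ f H)
    (hE : Ctr_E R F φ f E G) {x : R} (hx : E * x = x) (hx' : x * E = x) :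
    ∃ c : F, φ 1 * x * φ 1 = φ (c • G) := by
  obtain ⟨A, hA⟩ := h.pre x
  obtain ⟨c, hc⟩ := hE.rk A
  refine ⟨c, ?_⟩
  rw [← hc, map_mul, map_mul, hE.gE, hA, ← h.rm, ← h.rm, hx, hx']

/-- the element of `E R E` with the matrix part `c G` -/
theorem Ctr_E.lift {E : R} {G : Matrix (Fin 2) (Fin 2) F} (h : Ctr_Cx R F φ f H)
    (hE : Ctr_E R F φ f E G) (c : F) :
    φ 1 * (E * φ (c • G) * E) * φ 1 = φ (c • G) ∧ E * (E * φ (c • G) * E) = E * φ (c • G) * E ∧
      (E * φ (c • G) * E) * E = E * φ (c • G) * E := by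
  refine ⟨?_, ?_, ?_⟩
  · have h1 : φ 1 * φ (c • G) * φ 1 = φ (c • G) := by
      rw [← map_mul, ← map_mul, one_mul, mul_one]
    rw [h.rm, h.rm, h1, ← hE.gE, ← map_mul, ← map_mul]
    congr 1
    rw [Matrix.mul_smul, Matrix.smul_mul, hE.gg h, hE.gg h]
  · rw [← mul_assoc, ← mul_assoc, hE.id]
  · rw [mul_assoc, hE.id]

theorem Ctr_E.nz {E : R} {G : Matrix (Fin 2) (Fin 2) F} (h : Ctr_Cx R F φ f H)
    (hE : Ctr_E R F φ f E G) : E ≠ 0 := by
  intro h0
  apply hE.g0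
  apply h.inj
  rw [hE.gE, h0, mul_zero, zero_mul, map_zero]

theorem Ctr_E.fld {E : R} {G : Matrix (Fin 2) (Fin 2) F} (h : Ctr_Cx R F φ f H)
    (hE : Ctr_E R F φ f E G) : Fld R E := by
  refine ⟨hE.id, hE.nz h, ?_⟩
  intro x hx hx' hx0
  obtain ⟨c, hc⟩ := hE.coef h hx hx'
  have hc0 : c ≠ 0 := by
    rintro rfl
    apply hx0
    refine hE.eq h hx' (zero_mul _) ?_
    rw [hc, zero_smul, map_zero, mul_zero, zero_mul]
  obtain ⟨l1, l2, l3⟩ := hE.lift h c⁻¹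
  refine ⟨E * φ (c⁻¹ • G) * E, l2, l3, ?_⟩
  refine hE.eq h (by rw [mul_assoc, l3]) hE.id ?_
  rw [h.rm, hc, l1, ← map_mul, ← hE.gE]
  congr 1
  rw [Matrix.smul_mul, Matrix.mul_smul, hE.gg h, smul_smul, mul_inv_cancel₀ hc0, one_smul]

theorem Ctr_E.qc {E : R} {G : Matrix (Fin 2) (Fin 2) F} (h : Ctr_Cx R F φ f H)
    (hE : Ctr_E R F φ f E G) : qc E = Nat.card F := by
  have l := hE.lift h
  let k : F → {x : R // E * x = x ∧ x * E = x} := fun c =>
    ⟨E * φ (c • G) * E, (l c).2.1, (l c).2.2⟩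
  have hk : Function.Bijective k := by
    constructor
    · intro c c' hcc
      have h1 : E * φ (c • G) * E = E * φ (c' • G) * E := congrArg Subtype.val hcc
      have h2 : c • G = c' • G := by
        apply h.inj
        rw [← (l c).1, ← (l c').1, h1]
      have h3 : (c - c') • G = 0 := by rw [sub_smul, h2, sub_self]
      rcases smul_eq_zero.1 h3 with h4 | h4
      · exact sub_eq_zero.1 h4
      · exact absurd h4 hE.g0
    · rintro ⟨x, hx, hx'⟩
      obtain ⟨c, hc⟩ := hE.coef h hx hx'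
      refine ⟨c, Subtype.ext ?_⟩
      show E * φ (c • G) * E = x
      exact hE.eq h (l c).2.2 hx' (by rw [(l c).1, hc])
  exact (Nat.card_congr (Equiv.ofBijective k hk)).symm

theorem Ctr_E.idem {E : R} {G : Matrix (Fin 2) (Fin 2) F} (h : Ctr_Cx R F φ f H)
    (hE : Ctr_E R F φ f E G) {x : R} (hx : E * x = x) (hx' : x * E = x) (hxx : x * x = x)
    (hx0 : x ≠ 0) : x = E := by
  obtain ⟨c, hc⟩ := hE.coef h hx hx'
  have h1 : φ (c • G * c • G) = φ (c • G) := by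
    rw [map_mul, ← hc, ← h.rm, hxx]
  have h2 := h.inj h1
  rw [Matrix.smul_mul, Matrix.mul_smul, hE.gg h, smul_smul] at h2
  have h3 : (c * c - c) • G = 0 := by rw [sub_smul, h2, sub_self]
  have h4 : c * c - c = 0 := by
    rcases smul_eq_zero.1 h3 with h4 | h4
    · exact h4
    · exact absurd h4 hE.g0
  have h5 : c = 0 ∨ c = 1 := by
    have : c * (c - 1) = 0 := by linear_combination h4
    rcases mul_eq_zero.1 this with h | h
    · exact Or.inl h
    · exact Or.inr (sub_eq_zero.1 h)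
  rcases h5 with rfl | rfl
  · exfalso
    apply hx0
    refine hE.eq h hx' (zero_mul _) ?_
    rw [hc, zero_smul, map_zero, mul_zero, zero_mul]
  · refine hE.eq h hx' hE.id ?_
    rw [hc, one_smul, hE.gE]

/-- inverses on both sides in a division ring `e R e` -/
theorem Ctr_inv {e x : R} (he : Fld R e) (h1 : e * x = x) (h2 : x * e = x) (h0 : x ≠ 0) :
    ∃ y, e * y = y ∧ y * e = y ∧ x * y = e ∧ y * x = e := by
  obtain ⟨y, y1, y2, y3⟩ := he.2.2 x h1 h2 h0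
  have hy0 : y ≠ 0 := by
    rintro rfl
    rw [mul_zero] at y3
    exact he.2.1 y3.symm
  obtain ⟨z, z1, z2, z3⟩ := he.2.2 y y1 y2 hy0
  have : x = z := by
    calc x = x * e := h2.symm
      _ = x * (y * z) := by rw [z3]
      _ = (x * y) * z := by rw [mul_assoc]
      _ = z := by rw [y3, z1]
  exact ⟨y, y1, y2, y3, by rw [this, z3]⟩

/-- the idempotent over `f` -/
theorem Ctr_Cx.fldF (h : Ctr_Cx R F φ f H) (hF : Fld R f) {E : R} (hE : E * E = E)
    (he : E * φ 1 = 0) (ht : f * E * f = f) : Fld R E ∧ qc E = qc f := by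
  have hff : f * f = f := hF.1
  have t : ∀ z : R, E * z = z → φ 1 * z * φ 1 = 0 := by
    intro z hz
    rw [← h.xe, ← hz, h.xe, h.rm, ← h.xe E, he, zero_mul]
  have eq : ∀ x y : R, E * x = x → E * y = y → f * x * f = f * y * f → x = y := by
    intro x y hx hy hxy
    rw [← sub_eq_zero]
    refine h.zero2 he (by rw [mul_sub, hx, hy]) ?_ ?_
    · rw [mul_sub, sub_mul, t x hx, t y hy, sub_self]
    · rw [mul_sub, sub_mul, hxy, sub_self]
  have lift : ∀ y : R, f * y = y → y * f = y → f * (E * y * E) * f = y := by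
    intro y h1 h2
    rw [h.tm, h.tm, ht, h1, h2, h1, h2]
  have l2 : ∀ y : R, E * (E * y * E) = E * y * E := fun y => by
    rw [← mul_assoc, ← mul_assoc, hE]
  have l3 : ∀ y : R, (E * y * E) * E = E * y * E := fun y => by
    rw [mul_assoc, hE]
  refine ⟨⟨hE, ?_, ?_⟩, ?_⟩
  · intro h0
    apply hF.2.1
    rw [← ht, h0, mul_zero, zero_mul]
  · intro x hx hx' hx0
    have h1 : f * x * f ≠ 0 := by
      intro h1
      apply hx0
      exact eq x 0 hx (mul_zero _) (by rw [h1, mul_zero, zero_mul])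
    obtain ⟨y, y1, y2, y3⟩ := hF.2.2 (f * x * f) (by rw [← mul_assoc, ← mul_assoc, hff])
      (by rw [mul_assoc, hff]) h1
    refine ⟨E * y * E, l2 y, l3 y, ?_⟩
    refine eq _ _ (by rw [← mul_assoc, hx]) hE ?_
    rw [h.tm, lift y y1 y2, y3, ht]
  · have hk : Function.Bijective (fun x : {x : R // E * x = x ∧ x * E = x} =>
        (⟨f * x.1 * f, by rw [← mul_assoc, ← mul_assoc, hff], by rw [mul_assoc, hff]⟩ :
          {x : R // f * x = x ∧ x * f = x})) := by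
      constructor
      · rintro ⟨x, hx, hx'⟩ ⟨y, hy, hy'⟩ hxy
        exact Subtype.ext (eq x y hx hy (congrArg Subtype.val hxy))
      · rintro ⟨y, h1, h2⟩
        exact ⟨⟨E * y * E, l2 y, l3 y⟩, Subtype.ext (lift y h1 h2)⟩
    exact Nat.card_congr (Equiv.ofBijective _ hk)

/-- orthogonal idempotents of rank one -/
theorem Ctr_Cx.rk (h : Ctr_Cx R F φ f H) (hR : St_Rnk) {E0 E1 : R} (i0 : E0 * E0 = E0)
    (i1 : E1 * E1 = E1) (o : E0 * E1 = 0) (o' : E1 * E0 = 0) (n0 : φ 1 * E0 * φ 1 ≠ 0)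
    (n1 : φ 1 * E1 * φ 1 ≠ 0) : ∃ G0 G1, φ G0 = φ 1 * E0 * φ 1 ∧ φ G1 = φ 1 * E1 * φ 1 ∧
      G0 ≠ 0 ∧ G1 ≠ 0 ∧ G0 + G1 = 1 ∧ (∀ A, ∃ c : F, G0 * A * G0 = c • G0) ∧
      ∀ A, ∃ c : F, G1 * A * G1 = c • G1 := by
  obtain ⟨G0, h0⟩ := h.pre E0
  obtain ⟨G1, h1⟩ := h.pre E1
  have z0 : G0 ≠ 0 := by
    rintro rfl
    exact n0 (by rw [← h0, map_zero])
  have z1 : G1 ≠ 0 := by
    rintro rfl
    exact n1 (by rw [← h1, map_zero])
  have a0 : G0 * G0 = G0 := by apply h.inj; rw [map_mul, h0, ← h.rm, i0]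
  have a1 : G1 * G1 = G1 := by apply h.inj; rw [map_mul, h1, ← h.rm, i1]
  have a2 : G0 * G1 = 0 := by
    apply h.inj; rw [map_mul, h0, h1, ← h.rm, o, mul_zero, zero_mul, map_zero]
  have a3 : G1 * G0 = 0 := by
    apply h.inj; rw [map_mul, h0, h1, ← h.rm, o', mul_zero, zero_mul, map_zero]
  have h2 := (hR F 2 2 ![G0, G1] (by intro i; fin_cases i <;> simp [a0, a1])
    (by intro i j hij; fin_cases i <;> fin_cases j <;> simp_all)
    (by intro i; fin_cases i <;> simp [z0, z1])).2 rfl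
  refine ⟨G0, G1, h0, h1, z0, z1, ?_, ?_, ?_⟩
  · have := h2.1
    simpa [Fin.sum_univ_two] using this
  · intro A
    simpa using h2.2 0 A
  · intro A
    simpa using h2.2 1 A

/-- vanishing of the off-diagonal products -/
theorem Ctr_Cx.nz1 (h : Ctr_Cx R F φ f H) {E0 E1 : R} (i0 : E0 * E0 = E0) (hne : E0 ≠ 0)
    (o : E0 * E1 = 0) (r0 : φ 1 * E0 * φ 1 = 0) (a : R) : E0 * a * E1 = 0 := by
  have t0 : f * E0 * f = f := by
    rcases h.tau i0 with h1 | h1
    · exact absurd (h.idem0 i0 (h.memH r0 h1)) hne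
    · exact h1
  have e1 : φ 1 * E1 = E1 := h.ex (h.tau_orth o t0)
  have e0 : E0 * φ 1 = 0 := by rw [h.xe, r0]
  calc E0 * a * E1 = E0 * (a * φ 1) * E1 := by
        rw [← mul_assoc E0 a (φ 1), mul_assoc (E0 * a) (φ 1) E1, e1]
    _ = 0 := by rw [h.xe, ← mul_assoc, ← mul_assoc, e0]; simp

theorem Ctr_closure {S : NonUnitalSubring R} {t x : R} (ht : t ∈ S)
    (hx : x ∈ NonUnitalSubring.closure {t}) : x ∈ S :=
  (NonUnitalSubring.closure_le.2 (Set.singleton_subset_iff.2 ht)) hx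

/-- the matrix part of a subring -/
theorem Ctr_Cx.core (h : Ctr_Cx R F φ f H) (hR : St_Rnk) (hD : St_Dlt) [Finite R]
    (S : NonUnitalSubring R) {E0 E1 : R} (i0 : E0 * E0 = E0)
    (i1 : E1 * E1 = E1) (o : E0 * E1 = 0) (o' : E1 * E0 = 0) (n0 : φ 1 * E0 * φ 1 ≠ 0)
    (n1 : φ 1 * E1 * φ 1 ≠ 0) (t0 : f * E0 * f = 0) (t1 : f * E1 * f = 0) (s0 : E0 ∈ S)
    (s1 : E1 ∈ S) {g t a4 a5 : R} (hg : qc g = Nat.card F) (st : t ∈ S) (s4 : a4 ∈ S)
    (s5 : a5 ∈ S) (hdq : dq g (E0 * t * E0) ≠ 0) (hab : E0 * a4 * E1 * a5 * E0 ≠ 0) (x : R) :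
    ∃ y ∈ S, φ 1 * x * φ 1 - y ∈ H := by
  obtain ⟨G0, G1, g0, g1, z0, z1, hG, r0, r1⟩ := h.rk hR i0 i1 o o' n0 n1
  have c0 : Ctr_E R F φ f E0 G0 := ⟨i0, h.ex t0, t0, g0, z0, r0⟩
  have c1 : Ctr_E R F φ f E1 G1 := ⟨i1, h.ex t1, t1, g1, z1, r1⟩
  have ss : ∀ z : R, E0 * z = z → z * E0 = z → z ∈ S := by
    intro z hz hz'
    have e1 : dq E0 (E0 * t * E0) ≠ 0 := by
      have : dq E0 (E0 * t * E0) = dq g (E0 * t * E0) := by
        unfold dq; rw [hg, c0.qc h]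
      rw [this]; exact hdq
    refine Ctr_closure (S.mul_mem (S.mul_mem s0 st) s0) ((hD R E0 (c0.fld h)).2.1 (E0 * t * E0)
      ?_ ?_ e1 z hz hz')
    · rw [← mul_assoc, ← mul_assoc, i0]
    · rw [mul_assoc, i0]
  have sE : ∀ z : R, E0 * z * E0 ∈ S := fun z =>
    ss _ (by rw [← mul_assoc, ← mul_assoc, i0]) (by rw [mul_assoc, i0])
  set a := E0 * a4 * E1 with ha
  set b := E1 * a5 * E0 with hb
  have sa : a ∈ S := S.mul_mem (S.mul_mem s0 s4) s1
  have sb : b ∈ S := S.mul_mem (S.mul_mem s1 s5) s0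
  have ea : E0 * a = a := by rw [ha, ← mul_assoc, ← mul_assoc, i0]
  have ae : a * E1 = a := by rw [ha, mul_assoc, i1]
  have eb : E1 * b = b := by rw [hb, ← mul_assoc, ← mul_assoc, i1]
  have be : b * E0 = b := by rw [hb, mul_assoc, i0]
  have hab' : a * b = E0 * a4 * E1 * a5 * E0 := by
    rw [hb, ← mul_assoc, ← mul_assoc, ae]
  obtain ⟨y, y1, y2, y3, -⟩ := Ctr_inv (c0.fld h) (x := a * b) (by rw [← mul_assoc, ea])
    (by rw [mul_assoc, be]) (by rw [hab']; exact hab)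
  have sy : y ∈ S := ss y y1 y2
  have sb' : b * y ∈ S := S.mul_mem sb sy
  have p1 : a * (b * y) = E0 := by rw [← mul_assoc, y3]
  have p2 : E1 * (b * y) = b * y := by rw [← mul_assoc, eb]
  have p3 : b * y * E0 = b * y := by rw [mul_assoc, y2]
  have p4 : b * y * a = E1 := by
    refine c1.idem h (by rw [← mul_assoc, p2]) (by rw [mul_assoc, ae]) ?_ ?_
    · calc b * y * a * (b * y * a) = b * y * (a * (b * y)) * a := by simp only [mul_assoc]
        _ = b * y * a := by rw [p1, p3]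
    · intro h0
      apply c0.nz h
      calc E0 = a * (b * y) * (a * (b * y)) := by rw [p1, i0]
        _ = a * (b * y * a) * (b * y) := by simp only [mul_assoc]
        _ = 0 := by rw [h0, mul_zero, zero_mul]
  refine ⟨(E0 + E1) * x * (E0 + E1), ?_, ?_⟩
  · have q1 : E0 * x * E1 ∈ S := by
      have : E0 * x * E1 = (E0 * (x * (b * y)) * E0) * a := by
        calc E0 * x * E1 = E0 * x * (b * y * a) := by rw [p4]
          _ = E0 * x * (b * y * E0 * a) := by rw [p3]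
          _ = (E0 * (x * (b * y)) * E0) * a := by simp only [mul_assoc]
      rw [this]
      exact S.mul_mem (sE _) sa
    have q2 : E1 * x * E0 ∈ S := by
      have : E1 * x * E0 = (b * y) * (E0 * (a * x) * E0) := by
        calc E1 * x * E0 = (b * y * a) * x * E0 := by rw [p4]
          _ = (b * y * E0 * a) * x * E0 := by rw [p3]
          _ = (b * y) * (E0 * (a * x) * E0) := by simp only [mul_assoc]
      rw [this]
      exact S.mul_mem sb' (sE _)
    have q3 : E1 * x * E1 ∈ S := by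
      have : E1 * x * E1 = (b * y) * (E0 * (a * x * (b * y)) * E0) * a := by
        calc E1 * x * E1 = (b * y * a) * x * (b * y * a) := by rw [p4]
          _ = (b * y * E0 * a) * x * (b * y * E0 * a) := by rw [p3]
          _ = (b * y) * (E0 * (a * x * (b * y)) * E0) * a := by simp only [mul_assoc]
      rw [this]
      exact S.mul_mem (S.mul_mem sb' (sE _)) sa
    have e : (E0 + E1) * x * (E0 + E1) = E0 * x * E0 + E1 * x * E0 + (E0 * x * E1 + E1 * x * E1) := by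
      simp only [add_mul, mul_add]
    rw [e]
    exact S.add_mem (S.add_mem (sE x) q2) (S.add_mem q1 q3)
  · have rE : φ 1 * (E0 + E1) * φ 1 = φ 1 := by
      rw [mul_add, add_mul, ← g0, ← g1, ← map_add, hG]
    have tE : f * (E0 + E1) * f = 0 := by rw [mul_add, add_mul, t0, t1, add_zero]
    have u1 : φ 1 * ((E0 + E1) * x * (E0 + E1)) * φ 1 = φ 1 * x * φ 1 := by
      rw [h.rm ((E0 + E1) * x) (E0 + E1), h.rm (E0 + E1) x, rE, (h.rr x).1, (h.rr x).2]
    have u2 : φ 1 * (φ 1 * x * φ 1) * φ 1 = φ 1 * x * φ 1 := by rw [(h.rr x).1, (h.rr x).2]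
    have u3 : f * ((E0 + E1) * x * (E0 + E1)) * f = 0 := by
      rw [h.tm ((E0 + E1) * x) (E0 + E1), tE, mul_zero]
    have u4 : f * (φ 1 * x * φ 1) * f = 0 := by
      rw [← mul_assoc, ← mul_assoc, h.fe, zero_mul, zero_mul, zero_mul]
    apply h.memH
    · rw [mul_sub, sub_mul, u1, u2, sub_self]
    · rw [mul_sub, sub_mul, u3, u4, sub_self]

/-- the part of a subring over `f` -/
theorem Ctr_Cx.core2 (h : Ctr_Cx R F φ f H) (hD : St_Dlt) [Finite R] (hF : Fld R f)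
    (S : NonUnitalSubring R) {E : R} (hE : E * E = E)
    (he : E * φ 1 = 0) (ht : f * E * f = f) (sE : E ∈ S) {t : R} (st : t ∈ S)
    (hdq : dq f (E * t * E) ≠ 0) (x : R) : ∃ y ∈ S, f * x * f - y ∈ H := by
  obtain ⟨f1, f2⟩ := h.fldF hF hE he ht
  have hff : f * f = f := hF.1
  refine ⟨E * x * E, ?_, ?_⟩
  · have e1 : dq E (E * t * E) ≠ 0 := by
      have : dq E (E * t * E) = dq f (E * t * E) := by
        unfold dq; rw [f2]
      rw [this]; exact hdq
    refine Ctr_closure (S.mul_mem (S.mul_mem sE st) sE) ((hD R E f1).2.1 (E * t * E)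
      ?_ ?_ e1 _ ?_ ?_)
    · rw [← mul_assoc, ← mul_assoc, hE]
    · rw [mul_assoc, hE]
    · rw [← mul_assoc, ← mul_assoc, hE]
    · rw [mul_assoc, hE]
  · have u1 : φ 1 * (E * x * E) * φ 1 = 0 := by
      rw [h.rm (E * x) E, ← h.xe E, he, mul_zero]
    have u2 : φ 1 * (f * x * f) * φ 1 = 0 := by
      rw [← mul_assoc, ← mul_assoc, h.ef, zero_mul, zero_mul, zero_mul]
    have u4 : f * (f * x * f) * f = f * x * f := by
      rw [← mul_assoc, ← mul_assoc, hff, mul_assoc (f * x) f f, hff]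
    have u3 : f * (E * x * E) * f = f * x * f := by
      rw [h.tm (E * x) E, h.tm E x, ht, u4]
    apply h.memH
    · rw [mul_sub, sub_mul, u1, u2, sub_self]
    · rw [mul_sub, sub_mul, u3, u4, sub_self]

/-- the end of the argument -/
theorem Ctr_Cx.top (h : Ctr_Cx R F φ f H) (S : NonUnitalSubring R)
    (hS : ∀ x : R, ∃ y ∈ S, x - y ∈ H) {k : R} (hk : k ∈ S) (hkH : k ∈ H) (hk0 : k ≠ 0) :
    S = ⊤ := by
  have hle : H ≤ S.toAddSubgroup ⊓ H := by
    refine h.lst.2.2 _ ?_ ?_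
    · rintro r x ⟨hx, hxH⟩
      obtain ⟨y, hy, hry⟩ := hS r
      have hI := h.lst.1 r x hxH
      refine ⟨⟨?_, hI.1⟩, ⟨?_, hI.2⟩⟩
      · have : r * x = y * x := by
          rw [← sub_eq_zero, ← sub_mul]
          exact h.hh _ hry _ hxH
        rw [this]
        exact S.mul_mem hy hx
      · have : x * r = x * y := by
          rw [← sub_eq_zero, ← mul_sub]
          exact h.hh _ hxH _ hry
        rw [this]
        exact S.mul_mem hx hy
    · intro h0
      apply hk0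
      have : k ∈ S.toAddSubgroup ⊓ H := ⟨hk, hkH⟩
      rw [h0] at this
      simpa using this
  rw [eq_top_iff]
  intro x _
  obtain ⟨y, hy, hxy⟩ := hS x
  have h1 : x - y ∈ S := (hle hxy).1
  have h2 := S.add_mem h1 hy
  rwa [sub_add_cancel] at h2

/-- the matrix units -/
theorem Ctr_Cx.unit (h : Ctr_Cx R F φ f H) (i : Fin 2) :
    Ctr_E R F φ f (φ (Matrix.single i i 1)) (Matrix.single i i 1) := by
  have e1 : φ 1 * φ (Matrix.single i i 1) = φ (Matrix.single i i 1) := by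
    rw [← map_mul, one_mul]
  have e2 : φ (Matrix.single i i 1) * φ 1 = φ (Matrix.single i i 1) := by
    rw [← map_mul, mul_one]
  refine ⟨?_, e1, ?_, ?_, ?_, ?_⟩
  · rw [← map_mul]
    simp
  · rw [← e1, ← mul_assoc, h.fe, zero_mul, zero_mul]
  · rw [e1, e2]
  · intro h0
    have := congrFun (congrFun h0 i) i
    simp at this
  · intro A
    refine ⟨A i i, ?_⟩
    rw [Matrix.single_mul_mul_single, Matrix.smul_single]
    simp

/-- an element of `H` not killed by the first unit -/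
theorem Ctr_Cx.exm (h : Ctr_Cx R F φ f H) : ∃ m ∈ H, φ (Matrix.single 0 0 1) * m ≠ 0 := by
  by_contra hcon
  push Not at hcon
  apply h.lst.2.1
  rw [eq_bot_iff]
  intro k hk
  rw [AddSubgroup.mem_bot]
  have h1 := ((h.mem k).1 hk).1
  have h2 : (1 : Matrix (Fin 2) (Fin 2) F) = Matrix.single 0 0 1 +
      Matrix.single 1 0 1 * (Matrix.single 0 0 1 * Matrix.single 0 1 1) := by
    have e : (Matrix.single 1 0 1 * (Matrix.single 0 0 1 * Matrix.single 0 1 1) :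
        Matrix (Fin 2) (Fin 2) F) = Matrix.single 1 1 1 := by simp
    rw [e]
    ext a b
    fin_cases a <;> fin_cases b <;> simp [Matrix.single]
  have h3 := hcon k hk
  have h4 := hcon (φ (Matrix.single 0 1 1) * k) (h.lst.1 _ _ hk).1
  rw [← h1, h2, map_add, map_mul, map_mul, add_mul, h3, mul_assoc, mul_assoc, h4, mul_zero,
    add_zero]

/-- the subring argument for the first two idempotents -/
theorem Ctr_Cx.sub (h : Ctr_Cx R F φ f H) (hR : St_Rnk) {E0 E1 : R} (i0 : E0 * E0 = E0)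
    (i1 : E1 * E1 = E1) (o : E0 * E1 = 0) (o' : E1 * E0 = 0) {a4 a5 : R}
    (hab : E0 * a4 * E1 * a5 * E0 ≠ 0) :
    φ 1 * E0 * φ 1 ≠ 0 ∧ φ 1 * E1 * φ 1 ≠ 0 ∧ φ 1 * (E0 + E1) * φ 1 = φ 1 := by
  have m0 : E0 ≠ 0 := by rintro rfl; simp at hab
  have m1 : E1 ≠ 0 := by rintro rfl; simp at hab
  have n0 : φ 1 * E0 * φ 1 ≠ 0 := by
    intro h0
    apply hab
    rw [h.nz1 i0 m0 o h0 a4, zero_mul, zero_mul]
  have n1 : φ 1 * E1 * φ 1 ≠ 0 := by
    intro h1
    apply hab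
    calc E0 * a4 * E1 * a5 * E0 = E0 * a4 * (E1 * a5 * E0) := by simp only [mul_assoc]
      _ = 0 := by rw [h.nz1 i1 m1 o' h1 a5, mul_zero]
  refine ⟨n0, n1, ?_⟩
  obtain ⟨G0, G1, g0, g1, -, -, hG, -, -⟩ := h.rk hR i0 i1 o o' n0 n1
  rw [mul_add, add_mul, ← g0, ← g1, ← map_add, hG]

/-- values of the first factors outside of the matrix part -/
theorem Ctr_Cx.off (h : Ctr_Cx R F φ f H) {E0 E1 : R} (i0 : E0 * E0 = E0) (o : E0 * E1 = 0)
    (x y : R) : f * (x * E0 * y * E1) * f = 0 := by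
  rcases h.tau i0 with h1 | h1
  · rw [h.tm (x * E0 * y) E1, h.tm (x * E0) y, h.tm x E0, h1, mul_zero, zero_mul, zero_mul]
  · rw [h.tm (x * E0 * y) E1, h.tau_orth o h1, mul_zero]

/-- the case of the ring without `f` -/
theorem Ctr_case0 (hC : St_Crg) (hD : St_Dlt) (hE : St_Eof) (hR : St_Rnk) [Finite R]
    (h : Ctr_Cx R F φ f H) (h0 : f = 0) {n : ℕ} (hn : 4 ≤ n) (hM : InM n R) : Critical R := by
  set g1 := φ (Matrix.single 0 0 1) with hg1
  set g2 := φ (Matrix.single 1 1 1) with hg2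
  have hqc : qc g1 = Nat.card F := (h.unit 0).qc h
  have hfld : Fld R g1 := (h.unit 0).fld h
  have tf : ∀ x : R, f * x * f = 0 := fun x => by rw [h0, zero_mul, zero_mul]
  have tmE : ∀ i, TmF (R := R) (fun v => Eo n v i) := fun i =>
    TmF.Eo n (u := fun i v => v i) (fun i => TmF.var i) i
  let Φ : (ℕ → R) → R := fun v => dq g1 (Eo n v 0 * v 3 * Eo n v 0) *
    (Eo n v 0 * v 4 * Eo n v 1 * v 5 * Eo n v 0) *
    (Eo n v 0 * v 6 - Eo n v 0 * v 6 * Eo n v 0 - Eo n v 0 * v 6 * Eo n v 1)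
  have hval : ∀ v, Φ v ∈ H := by
    intro v
    obtain ⟨i, o, -⟩ := hE n hn R hM v
    refine h.memH ?_ (tf _)
    by_cases hab : Eo n v 0 * v 4 * Eo n v 1 * v 5 * Eo n v 0 = 0
    · show φ 1 * (dq g1 (Eo n v 0 * v 3 * Eo n v 0) *
        (Eo n v 0 * v 4 * Eo n v 1 * v 5 * Eo n v 0) *
        (Eo n v 0 * v 6 - Eo n v 0 * v 6 * Eo n v 0 - Eo n v 0 * v 6 * Eo n v 1)) * φ 1 = 0
      rw [hab, mul_zero, zero_mul, mul_zero, zero_mul]
    · obtain ⟨-, -, h3⟩ := h.sub hR (i 0) (i 1) (o 0 1 (by omega)) (o 1 0 (by omega)) hab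
      have e1 : Eo n v 0 * v 6 - Eo n v 0 * v 6 * Eo n v 0 - Eo n v 0 * v 6 * Eo n v 1 =
          Eo n v 0 * v 6 - Eo n v 0 * v 6 * (Eo n v 0 + Eo n v 1) := by
        rw [mul_add]; abel
      show φ 1 * (dq g1 (Eo n v 0 * v 3 * Eo n v 0) *
        (Eo n v 0 * v 4 * Eo n v 1 * v 5 * Eo n v 0) *
        (Eo n v 0 * v 6 - Eo n v 0 * v 6 * Eo n v 0 - Eo n v 0 * v 6 * Eo n v 1)) * φ 1 = 0
      rw [h.rm, e1, mul_sub, sub_mul, h.rm (Eo n v 0 * v 6), h3, (h.rr _).2, sub_self, mul_zero]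
  refine hC R H h.lst Φ ?_ hval ?_ ?_
  · exact ((TmF.dq g1 (((tmE 0).mul (TmF.var 3)).mul (tmE 0))).mul
      (((((tmE 0).mul (TmF.var 4)).mul (tmE 1)).mul (TmF.var 5)).mul (tmE 0))).mul
      ((((tmE 0).mul (TmF.var 6)).sub (((tmE 0).mul (TmF.var 6)).mul (tmE 0))).sub
        (((tmE 0).mul (TmF.var 6)).mul (tmE 1)))
  · obtain ⟨m, hm, hm0⟩ := h.exm
    obtain ⟨⟨t, t1, t2, t3⟩, -⟩ := hD R g1 hfld
    let v : ℕ → R := fun j => if j = 0 then g1 else if j = 1 then g2 else if j = 3 then t else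
      if j = 4 then φ (Matrix.single 0 1 1) else if j = 5 then φ (Matrix.single 1 0 1) else m
    obtain ⟨-, -, l⟩ := hE n hn R hM v
    have hg11 : g1 * g1 = g1 := hfld.1
    have hg22 : g2 * g2 = g2 := (h.unit 1).id
    have hg12 : g1 * g2 = 0 := by rw [hg1, hg2, ← map_mul]; simp
    have hg21 : g2 * g1 = 0 := by rw [hg1, hg2, ← map_mul]; simp
    have l2 := l 2 (by
      intro i hi
      interval_cases i
      · exact hg11
      · exact hg22) (by
      intro i j hi hj hij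
      interval_cases i <;> interval_cases j
      · exact absurd rfl hij
      · exact hg12
      · exact hg21
      · exact absurd rfl hij)
    have E0 : Eo n v 0 = g1 := l2 0 (by omega)
    have E1 : Eo n v 1 = g2 := l2 1 (by omega)
    refine ⟨v, ?_⟩
    show dq g1 (Eo n v 0 * t * Eo n v 0) *
      (Eo n v 0 * φ (Matrix.single 0 1 1) * Eo n v 1 * φ (Matrix.single 1 0 1) * Eo n v 0) *
      (Eo n v 0 * m - Eo n v 0 * m * Eo n v 0 - Eo n v 0 * m * Eo n v 1) ≠ 0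
    have hme := ((h.mem m).1 hm).2
    have mg : ∀ g : R, φ 1 * g = g → m * g = 0 := fun g hg => by
      rw [← hg, ← mul_assoc, hme, zero_mul]
    have e1 : g1 * φ (Matrix.single 0 1 1) * g2 * φ (Matrix.single 1 0 1) * g1 = g1 := by
      rw [hg1, hg2, ← map_mul, ← map_mul, ← map_mul, ← map_mul]
      simp
    rw [E0, E1, e1, mul_assoc g1 m g1, mul_assoc g1 m g2, mg g1 (h.unit 0).eE,
      mg g2 (h.unit 1).eE, mul_zero, sub_zero, sub_zero, t1, t2]
    obtain ⟨-, -, d3, d4, -⟩ := hD R g1 hfld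
    intro hz
    obtain ⟨y, -, -, -, y4⟩ := Ctr_inv hfld (x := dq g1 t) (d3 g1 t t1) (d4 g1 t t2) t3
    apply hm0
    calc g1 * m = g1 * (g1 * m) := by rw [← mul_assoc, hg11]
      _ = (y * dq g1 t) * (g1 * m) := by rw [y4]
      _ = y * (dq g1 t * g1 * (g1 * m)) := by
          rw [d4 g1 t t2, mul_assoc]
      _ = 0 := by rw [hz, mul_zero]
  · intro S hS v hv
    by_contra hne
    apply hS
    obtain ⟨i, o, -⟩ := hE n hn R hM v
    have hΦ : dq g1 (Eo n v 0 * v 3 * Eo n v 0) *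
      (Eo n v 0 * v 4 * Eo n v 1 * v 5 * Eo n v 0) *
      (Eo n v 0 * v 6 - Eo n v 0 * v 6 * Eo n v 0 - Eo n v 0 * v 6 * Eo n v 1) ≠ 0 := hne
    have hab : Eo n v 0 * v 4 * Eo n v 1 * v 5 * Eo n v 0 ≠ 0 := by
      intro h1; rw [h1, mul_zero, zero_mul] at hΦ; exact hΦ rfl
    have hdq : dq g1 (Eo n v 0 * v 3 * Eo n v 0) ≠ 0 := by
      intro h1; rw [h1, zero_mul, zero_mul] at hΦ; exact hΦ rfl
    obtain ⟨n0, n1, -⟩ := h.sub hR (i 0) (i 1) (o 0 1 (by omega)) (o 1 0 (by omega)) hab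
    have s0 : Eo n v 0 ∈ S := (tmE 0).mem S v hv
    have s1 : Eo n v 1 ∈ S := (tmE 1).mem S v hv
    have hcore := h.core hR hD S (i 0) (i 1) (o 0 1 (by omega)) (o 1 0 (by omega)) n0 n1
      (tf _) (tf _) s0 s1 hqc (hv 3) (hv 4) (hv 5) hdq hab
    have hmem : Φ v ∈ S := by
      refine TmF.mem (φ := Φ) ?_ S v hv
      exact ((TmF.dq g1 (((tmE 0).mul (TmF.var 3)).mul (tmE 0))).mul
        (((((tmE 0).mul (TmF.var 4)).mul (tmE 1)).mul (TmF.var 5)).mul (tmE 0))).mul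
        ((((tmE 0).mul (TmF.var 6)).sub (((tmE 0).mul (TmF.var 6)).mul (tmE 0))).sub
          (((tmE 0).mul (TmF.var 6)).mul (tmE 1)))
    refine h.top S ?_ hmem (hval v) hne
    intro x
    obtain ⟨y, hy, hxy⟩ := hcore x
    refine ⟨y, hy, ?_⟩
    have h1 := h.dec x
    rw [tf, sub_zero] at h1
    have h2 := H.add_mem h1 hxy
    rwa [sub_add_sub_cancel] at h2

/-- the case of the ring with `f` -/
theorem Ctr_case1 (hC : St_Crg) (hD : St_Dlt) (hE : St_Eof) (hR : St_Rnk) [Finite R]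
    (h : Ctr_Cx R F φ f H) (hF : Fld R f) {n : ℕ} (hn : 4 ≤ n) (hM : InM n R) : Critical R := by
  set g1 := φ (Matrix.single 0 0 1) with hg1
  set g2 := φ (Matrix.single 1 1 1) with hg2
  have hqc : qc g1 = Nat.card F := (h.unit 0).qc h
  have hfld : Fld R g1 := (h.unit 0).fld h
  have hff : f * f = f := hF.1
  have tmE : ∀ i, TmF (R := R) (fun v => Eo n v i) := fun i =>
    TmF.Eo n (u := fun i v => v i) (fun i => TmF.var i) i
  let Φ : (ℕ → R) → R := fun v => dq g1 (Eo n v 0 * v 3 * Eo n v 0) *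
    (Eo n v 0 * v 4 * Eo n v 1 * v 5 * Eo n v 0) * (Eo n v 0 * v 6 * Eo n v 2) *
    dq f (Eo n v 2 * v 7 * Eo n v 2)
  have tmΦ : TmF Φ := ((TmF.dq g1 (((tmE 0).mul (TmF.var 3)).mul (tmE 0))).mul
      (((((tmE 0).mul (TmF.var 4)).mul (tmE 1)).mul (TmF.var 5)).mul (tmE 0))).mul
      (((tmE 0).mul (TmF.var 6)).mul (tmE 2)) |>.mul
      (TmF.dq f (((tmE 2).mul (TmF.var 7)).mul (tmE 2)))
  have r2 : ∀ v, Eo n v 0 * v 4 * Eo n v 1 * v 5 * Eo n v 0 ≠ 0 →
      φ 1 * Eo n v 2 * φ 1 = 0 := by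
    intro v hab
    obtain ⟨i, o, -⟩ := hE n hn R hM v
    obtain ⟨-, -, h3⟩ := h.sub hR (i 0) (i 1) (o 0 1 (by omega)) (o 1 0 (by omega)) hab
    calc φ 1 * Eo n v 2 * φ 1 = φ 1 * (φ 1 * Eo n v 2 * φ 1) := (h.rr _).1.symm
      _ = φ 1 * (Eo n v 0 + Eo n v 1) * φ 1 * (φ 1 * Eo n v 2 * φ 1) := by rw [h3]
      _ = φ 1 * ((Eo n v 0 + Eo n v 1) * Eo n v 2) * φ 1 := (h.rm _ _).symm
      _ = 0 := by
        rw [add_mul, o 0 2 (by omega), o 1 2 (by omega), add_zero, mul_zero, zero_mul]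
  have hval : ∀ v, Φ v ∈ H := by
    intro v
    obtain ⟨i, o, -⟩ := hE n hn R hM v
    by_cases hab : Eo n v 0 * v 4 * Eo n v 1 * v 5 * Eo n v 0 = 0
    · have : Φ v = 0 := by
        show dq g1 (Eo n v 0 * v 3 * Eo n v 0) *
          (Eo n v 0 * v 4 * Eo n v 1 * v 5 * Eo n v 0) * (Eo n v 0 * v 6 * Eo n v 2) *
          dq f (Eo n v 2 * v 7 * Eo n v 2) = 0
        rw [hab, mul_zero, zero_mul, zero_mul]
      rw [this]; exact H.zero_mem
    · refine h.memH ?_ ?_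
      · show φ 1 * (dq g1 (Eo n v 0 * v 3 * Eo n v 0) *
          (Eo n v 0 * v 4 * Eo n v 1 * v 5 * Eo n v 0) * (Eo n v 0 * v 6 * Eo n v 2) *
          dq f (Eo n v 2 * v 7 * Eo n v 2)) * φ 1 = 0
        rw [h.rm (dq g1 (Eo n v 0 * v 3 * Eo n v 0) *
          (Eo n v 0 * v 4 * Eo n v 1 * v 5 * Eo n v 0) * (Eo n v 0 * v 6 * Eo n v 2)),
          h.rm (dq g1 (Eo n v 0 * v 3 * Eo n v 0) *
          (Eo n v 0 * v 4 * Eo n v 1 * v 5 * Eo n v 0)), h.rm (Eo n v 0 * v 6), r2 v hab, mul_zero,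
          mul_zero, zero_mul]
      · show f * (dq g1 (Eo n v 0 * v 3 * Eo n v 0) *
          (Eo n v 0 * v 4 * Eo n v 1 * v 5 * Eo n v 0) * (Eo n v 0 * v 6 * Eo n v 2) *
          dq f (Eo n v 2 * v 7 * Eo n v 2)) * f = 0
        have e1 : dq g1 (Eo n v 0 * v 3 * Eo n v 0) *
          (Eo n v 0 * v 4 * Eo n v 1 * v 5 * Eo n v 0) * (Eo n v 0 * v 6 * Eo n v 2) *
          dq f (Eo n v 2 * v 7 * Eo n v 2) = (dq g1 (Eo n v 0 * v 3 * Eo n v 0) * Eo n v 0 * v 4 *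
            Eo n v 1) * (v 5 * Eo n v 0 * (Eo n v 0 * v 6 * Eo n v 2) *
          dq f (Eo n v 2 * v 7 * Eo n v 2)) := by simp only [mul_assoc]
        rw [e1, h.tm, h.off (i 0) (o 0 1 (by omega)), zero_mul]
  refine hC R H h.lst Φ tmΦ hval ?_ ?_
  · obtain ⟨m, hm, hm0⟩ := h.exm
    obtain ⟨⟨t, t1, t2, t3⟩, -⟩ := hD R g1 hfld
    obtain ⟨⟨t', t1', t2', t3'⟩, -⟩ := hD R f hF
    let v : ℕ → R := fun j => if j = 0 then g1 else if j = 1 then g2 else if j = 2 then f else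
      if j = 3 then t else
      if j = 4 then φ (Matrix.single 0 1 1) else if j = 5 then φ (Matrix.single 1 0 1) else
      if j = 6 then m else t'
    obtain ⟨-, -, l⟩ := hE n hn R hM v
    have hg11 : g1 * g1 = g1 := hfld.1
    have hg22 : g2 * g2 = g2 := (h.unit 1).id
    have hg12 : g1 * g2 = 0 := by rw [hg1, hg2, ← map_mul]; simp
    have hg21 : g2 * g1 = 0 := by rw [hg1, hg2, ← map_mul]; simp
    have gf : ∀ g : R, φ 1 * g = g → f * g = 0 := fun g hg => by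
      rw [← hg, ← mul_assoc, h.fe, zero_mul]
    have fg : ∀ g : R, g * φ 1 = g → g * f = 0 := fun g hg => by
      rw [← hg, mul_assoc, h.ef, mul_zero]
    have k1 : g1 * φ 1 = g1 := by rw [hg1, ← map_mul, mul_one]
    have k2 : g2 * φ 1 = g2 := by rw [hg2, ← map_mul, mul_one]
    have l2 := l 3 (by
      intro i hi
      interval_cases i
      · exact hg11
      · exact hg22
      · exact hff) (by
      intro i j hi hj hij
      interval_cases i <;> interval_cases j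
      · exact absurd rfl hij
      · exact hg12
      · exact fg g1 k1
      · exact hg21
      · exact absurd rfl hij
      · exact fg g2 k2
      · exact gf g1 (h.unit 0).eE
      · exact gf g2 (h.unit 1).eE
      · exact absurd rfl hij)
    have E0 : Eo n v 0 = g1 := l2 0 (by omega)
    have E1 : Eo n v 1 = g2 := l2 1 (by omega)
    have E2 : Eo n v 2 = f := l2 2 (by omega)
    refine ⟨v, ?_⟩
    show dq g1 (Eo n v 0 * t * Eo n v 0) *
      (Eo n v 0 * φ (Matrix.single 0 1 1) * Eo n v 1 * φ (Matrix.single 1 0 1) * Eo n v 0) *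
      (Eo n v 0 * m * Eo n v 2) * dq f (Eo n v 2 * t' * Eo n v 2) ≠ 0
    have e1 : g1 * φ (Matrix.single 0 1 1) * g2 * φ (Matrix.single 1 0 1) * g1 = g1 := by
      rw [hg1, hg2, ← map_mul, ← map_mul, ← map_mul, ← map_mul]
      simp
    have hmf : m * f = m := h.hf hF.2.1 m hm
    rw [E0, E1, E2, e1, mul_assoc g1 m f, hmf, t1, t2, t1', t2']
    obtain ⟨-, -, d3, d4, -⟩ := hD R g1 hfld
    obtain ⟨-, -, d3', d4', -⟩ := hD R f hF
    intro hz
    obtain ⟨y, -, -, -, y4⟩ := Ctr_inv hfld (x := dq g1 t) (d3 g1 t t1) (d4 g1 t t2) t3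
    obtain ⟨y', -, -, y3', -⟩ := Ctr_inv hF (x := dq f t') (d3' f t' t1') (d4' f t' t2') t3'
    apply hm0
    calc g1 * m = g1 * (g1 * (m * f)) := by rw [← mul_assoc g1 g1, hg11, hmf]
      _ = (y * dq g1 t) * (g1 * (m * (dq f t' * y'))) := by rw [y4, y3']
      _ = y * (dq g1 t * g1 * (g1 * m) * dq f t') * y' := by
          rw [d4 g1 t t2]; simp only [mul_assoc]
      _ = 0 := by rw [hz, mul_zero, zero_mul]
  · intro S hS v hv
    by_contra hne
    apply hS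
    obtain ⟨i, o, -⟩ := hE n hn R hM v
    have hΦ : dq g1 (Eo n v 0 * v 3 * Eo n v 0) *
      (Eo n v 0 * v 4 * Eo n v 1 * v 5 * Eo n v 0) * (Eo n v 0 * v 6 * Eo n v 2) *
      dq f (Eo n v 2 * v 7 * Eo n v 2) ≠ 0 := hne
    have hab : Eo n v 0 * v 4 * Eo n v 1 * v 5 * Eo n v 0 ≠ 0 := by
      intro h1; rw [h1, mul_zero, zero_mul, zero_mul] at hΦ; exact hΦ rfl
    have hdq : dq g1 (Eo n v 0 * v 3 * Eo n v 0) ≠ 0 := by
      intro h1; rw [h1, zero_mul, zero_mul, zero_mul] at hΦ; exact hΦ rfl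
    have hdq' : dq f (Eo n v 2 * v 7 * Eo n v 2) ≠ 0 := by
      intro h1; rw [h1, mul_zero] at hΦ; exact hΦ rfl
    have hE2 : Eo n v 2 ≠ 0 := by
      intro h1; rw [h1, mul_zero, mul_zero, zero_mul] at hΦ; exact hΦ rfl
    obtain ⟨n0, n1, -⟩ := h.sub hR (i 0) (i 1) (o 0 1 (by omega)) (o 1 0 (by omega)) hab
    have ht2 : f * Eo n v 2 * f = f := by
      rcases h.tau (i 2) with h1 | h1
      · exact absurd (h.idem0 (i 2) (h.memH (r2 v hab) h1)) hE2
      · exact h1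
    have he2 : Eo n v 2 * φ 1 = 0 := by rw [h.xe, r2 v hab]
    have s0 : Eo n v 0 ∈ S := (tmE 0).mem S v hv
    have s1 : Eo n v 1 ∈ S := (tmE 1).mem S v hv
    have s2 : Eo n v 2 ∈ S := (tmE 2).mem S v hv
    have hcore := h.core hR hD S (i 0) (i 1) (o 0 1 (by omega)) (o 1 0 (by omega)) n0 n1
      (h.tau_orth2 (o 0 2 (by omega)) ht2) (h.tau_orth2 (o 1 2 (by omega)) ht2) s0 s1 hqc (hv 3)
      (hv 4) (hv 5) hdq hab
    have hcore2 := h.core2 hD hF S (i 2) he2 ht2 s2 (hv 7) hdq'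
    refine h.top S ?_ (tmΦ.mem S v hv) (hval v) hne
    intro x
    obtain ⟨y, hy, hxy⟩ := hcore x
    obtain ⟨z, hz, hxz⟩ := hcore2 x
    refine ⟨y + z, S.add_mem hy hz, ?_⟩
    have h1 := H.add_mem (H.add_mem (h.dec x) hxy) hxz
    have e : x - φ 1 * x * φ 1 - f * x * f + (φ 1 * x * φ 1 - y) + (f * x * f - z) =
        x - (y + z) := by abel
    rwa [e] at h1

end

theorem thm_Ctr (hC : St_Crg) (hD : St_Dlt) (hE : St_Eof) (hR : St_Rnk) (hT : St_Trf) :
    St_Ctr := by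
  intro n hn R _ _ hM hTri
  obtain ⟨F, iF, iFin, φ, f, H, a1, a2, a3, a4, a5, a6, a7, a8, a9⟩ := hTri
  obtain ⟨b1, b2, b3, b4, b5⟩ := hT R F φ f H a1 a2 a3 a4 a5 a6 a7 a8 a9
  have h : Ctr_Cx R F φ f H := ⟨a1, a2, a3, a4, a5, a6, a8, a9, b1, b2, b3, b4, b5⟩
  rcases a4 with h0 | hF
  · exact Ctr_case0 hC hD hE hR h h0 hn hM
  · exact Ctr_case1 hC hD hE hR h hF hn hM

end Pool.Agent.CRN
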