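import Pool.Agent.CRN.St

/-!
Campaign CRN (problem MP_1bb14d_al): module Det (helper17), alternating maps modulo a subgroup.
-/

set_option autoImplicit false

namespace Pool.Agent.CRN

open Pool.Agent.CRR

section

variable {A W : Type} [AddCommGroup A] [AddCommGroup W]

/-- the determinant formula -/
theorem Det_formula {k : ℕ} (f : A [⋀^Fin k]→ₗ[ℤ] W) (a : Fin k → A) (c : Matrix (Fin k) (Fin k) ℤ) :
    (f fun l => ∑ i, c l i • a i) = c.det • f a := by
  set L : (Fin k → ℤ) →ₗ[ℤ] A := Fintype.linearCombination ℤ a with hL
  have hLs : ∀ i, L (Pi.basisFun ℤ (Fin k) i) = a i := by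
    intro i
    rw [hL, Pi.basisFun_apply, Fintype.linearCombination_apply_single, one_smul]
  set g₂ : (Fin k → ℤ) [⋀^Fin k]→ₗ[ℤ] W :=
    (LinearMap.toSpanSingleton ℤ W (f a)).compAlternatingMap (Matrix.detRowAlternating) with hg₂
  have h : f.compLinearMap L = g₂ := by
    refine Module.Basis.ext_alternating (Pi.basisFun ℤ (Fin k)) fun v hv => ?_
    have hb : Function.Bijective v := Finite.injective_iff_bijective.1 hv
    set σ : Equiv.Perm (Fin k) := Equiv.ofBijective v hb with hσ
    have hσv : ∀ i, v i = σ i := fun i => rfl
    have h1 : (f.compLinearMap L) (fun i => (Pi.basisFun ℤ (Fin k)) (v i)) = Equiv.Perm.sign σ • f a := by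
      rw [AlternatingMap.compLinearMap_apply]
      have : (fun i => L ((Pi.basisFun ℤ (Fin k)) (v i))) = a ∘ σ := by
        funext i
        rw [hLs]
        rfl
      rw [this, AlternatingMap.map_perm]
    have h2 : g₂ (fun i => (Pi.basisFun ℤ (Fin k)) (v i)) = Equiv.Perm.sign σ • f a := by
      have e1 : (fun i => (Pi.basisFun ℤ (Fin k)) (v i)) = (fun i => (Pi.basisFun ℤ (Fin k)) i) ∘ σ := rfl
      rw [e1, AlternatingMap.map_perm]
      congr 1
      rw [hg₂, LinearMap.compAlternatingMap_apply, LinearMap.toSpanSingleton_apply]
      have e2 : (Matrix.detRowAlternating (R := ℤ) (n := Fin k)) (fun i => (Pi.basisFun ℤ (Fin k)) i) = 1 := by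
        have : (fun i => (Pi.basisFun ℤ (Fin k)) i) = (1 : Matrix (Fin k) (Fin k) ℤ) := by
          ext i j
          simp [Matrix.one_apply, Pi.single_apply, eq_comm]
        rw [this]
        exact Matrix.det_one
      rw [e2, one_smul]
    rw [h1, h2]
  have h3 : (f.compLinearMap L) (fun l => c l) = g₂ (fun l => c l) := by rw [h]
  rw [AlternatingMap.compLinearMap_apply] at h3
  have h4 : (fun l => L (c l)) = fun l => ∑ i, c l i • a i := by
    funext l
    rw [hL, Fintype.linearCombination_apply]
  rw [h4] at h3
  rw [h3, hg₂, LinearMap.compAlternatingMap_apply, LinearMap.toSpanSingleton_apply]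
  rfl

/-- the value depends only on the classes modulo `N` -/
theorem Det_congr {k : ℕ} (N : AddSubgroup A) (f : A [⋀^Fin k]→ₗ[ℤ] W) (hN : ∀ v i, v i ∈ N → f v = 0)
    (v w : Fin k → A) (h : ∀ l, v l - w l ∈ N) : f v = f w := by
  classical
  have key : ∀ s : Finset (Fin k), f (fun l => if l ∈ s then w l else v l) = f v := by
    intro s
    induction s using Finset.induction_on with
    | empty => simp
    | insert i s hi ih =>
      rw [← ih]
      have e1 : (fun l => if l ∈ insert i s then w l else v l) =
          Function.update (fun l => if l ∈ s then w l else v l) i (w i) := by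
        funext l
        by_cases hl : l = i
        · subst hl
          simp
        · simp [hl]
      have e2 : (fun l => if l ∈ s then w l else v l) =
          Function.update (fun l => if l ∈ s then w l else v l) i (v i) := by
        funext l
        by_cases hl : l = i
        · subst hl
          simp [hi]
        · simp [hl]
      have e3 : ∀ g : Fin k → A, f (Function.update g i (v i)) = f (Function.update g i (w i)) := by
        intro g
        have e4 : f (Function.update g i (w i + (v i - w i))) =
            f (Function.update g i (w i)) + f (Function.update g i (v i - w i)) :=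
          f.map_update_add g i (w i) (v i - w i)
        have e5 : f (Function.update g i (v i - w i)) = 0 := hN _ i (by simpa using h i)
        rw [e5, add_zero, add_sub_cancel] at e4
        exact e4
      rw [e1]
      conv_rhs => rw [e2]
      exact (e3 _).symm
  have := key Finset.univ
  simpa using this.symm

/-- elements of the closure -/
theorem Det_mem {k : ℕ} (N : AddSubgroup A) (a : Fin k → A) {x : A}
    (hx : x ∈ AddSubgroup.closure (Set.range a ∪ (N : Set A))) :
    ∃ c : Fin k → ℤ, x - ∑ i, c i • a i ∈ N := by
  classical
  induction hx using AddSubgroup.closure_induction with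
  | mem x hx =>
    rcases hx with ⟨i, rfl⟩ | hx
    · refine ⟨Pi.single i 1, ?_⟩
      have : ∑ j, (Pi.single i 1 : Fin k → ℤ) j • a j = a i := by
        rw [Finset.sum_eq_single i]
        · simp
        · intro j _ hj
          simp [hj]
        · simp
      rw [this, sub_self]
      exact N.zero_mem
    · exact ⟨0, by simpa using hx⟩
  | zero => exact ⟨0, by simp⟩
  | add x y _ _ hx hy =>
    obtain ⟨c, hc⟩ := hx
    obtain ⟨d, hd⟩ := hy
    refine ⟨c + d, ?_⟩
    have e : x + y - ∑ i, (c + d) i • a i = (x - ∑ i, c i • a i) + (y - ∑ i, d i • a i) := by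
      simp only [Pi.add_apply, add_smul, Finset.sum_add_distrib]
      abel
    rw [e]
    exact N.add_mem hc hd
  | neg x _ hx =>
    obtain ⟨c, hc⟩ := hx
    refine ⟨-c, ?_⟩
    have e : -x - ∑ i, (-c) i • a i = -(x - ∑ i, c i • a i) := by
      simp only [Pi.neg_apply, neg_smul, Finset.sum_neg_distrib]
      abel
    rw [e]
    exact N.neg_mem hc

end

theorem thm_Det : St_Det := by
  intro A W _ _ N p k hp hpN f hf a ha
  have hval : ∀ v : Fin k → A, ∃ c : Matrix (Fin k) (Fin k) ℤ, (∀ l, v l - ∑ i, c l i • a i ∈ N) ∧
      f v = c.det • f a := by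
    intro v
    choose c hc using fun l => Det_mem N a (ha (v l))
    refine ⟨Matrix.of c, hc, ?_⟩
    rw [Det_congr N f hf v (fun l => ∑ i, c l i • a i) hc]
    exact Det_formula f a (Matrix.of c)
  refine ⟨fun v => ?_, fun a' ha' => ?_⟩
  · obtain ⟨c, -, hc⟩ := hval v
    exact ⟨c.det, hc⟩
  · obtain ⟨c, hcN, hc⟩ := hval a'
    -- the generators are in the closure
    have hgen : ∀ i, a i ∈ AddSubgroup.closure (Set.range a' ∪ (N : Set A)) := by
      intro i
      have hNle : N ≤ AddSubgroup.closure (Set.range a' ∪ (N : Set A)) := fun x hx =>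
        AddSubgroup.subset_closure (Or.inr hx)
      have hdet : ¬ (p : ℤ) ∣ c.det := by
        rintro ⟨d, hd⟩
        apply ha'
        rw [hc, hd, mul_comm, mul_smul]
        have h1 : (p : ℤ) • f a = 0 := by
          have h2 : f (Function.update a i ((p : ℤ) • a i)) = (p : ℤ) • f (Function.update a i (a i)) :=
            f.map_update_smul a i (p : ℤ) (a i)
          rw [Function.update_eq_self] at h2
          rw [← h2]
          refine hf _ i ?_
          rw [Function.update_self, natCast_zsmul]
          exact hpN (a i)
        rw [h1, smul_zero]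
      have hcop : IsCoprime (c.det) (p : ℤ) := by
        rw [Int.isCoprime_iff_gcd_eq_one, Int.gcd_comm, ← Int.isCoprime_iff_gcd_eq_one]
        exact (Prime.coprime_iff_not_dvd (Nat.prime_iff_prime_int.1 hp)).2 hdet
      obtain ⟨s, t, hst⟩ := hcop
      -- `det c • a i` is a combination of the `a' l`
      have h1 : c.det • a i - ∑ l, c.adjugate i l • a' l ∈ N := by
        have h2 : ∑ l, c.adjugate i l • (∑ j, c l j • a j) = c.det • a i := by
          have h3 : ∀ j, ∑ l, c.adjugate i l * c l j = c.det * (1 : Matrix (Fin k) (Fin k) ℤ) i j := by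
            intro j
            have := congrFun (congrFun (Matrix.adjugate_mul c) i) j
            rw [Matrix.mul_apply, Matrix.smul_apply, smul_eq_mul] at this
            exact this
          simp only [Finset.smul_sum, smul_smul]
          rw [Finset.sum_comm]
          simp only [← Finset.sum_smul, h3]
          rw [Finset.sum_eq_single i]
          · rw [Matrix.one_apply_eq, mul_one]
          · intro j _ hj
            rw [Matrix.one_apply_ne hj.symm, mul_zero, zero_smul]
          · simp
        have h4 : c.det • a i - ∑ l, c.adjugate i l • a' l =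
            -∑ l, c.adjugate i l • (a' l - ∑ j, c l j • a j) := by
          simp only [smul_sub, Finset.sum_sub_distrib]
          rw [h2]
          abel
        rw [h4]
        exact N.neg_mem (N.sum_mem fun l _ => N.zsmul_mem (hcN l) _)
      have hmem : ∀ l, a' l ∈ AddSubgroup.closure (Set.range a' ∪ (N : Set A)) := fun l =>
        AddSubgroup.subset_closure (Or.inl ⟨l, rfl⟩)
      have h5 : ∑ l, c.adjugate i l • a' l ∈ AddSubgroup.closure (Set.range a' ∪ (N : Set A)) :=
        sum_mem fun l _ => zsmul_mem (hmem l) _
      have h6 : c.det • a i ∈ AddSubgroup.closure (Set.range a' ∪ (N : Set A)) := by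
        have : c.det • a i = (c.det • a i - ∑ l, c.adjugate i l • a' l) + ∑ l, c.adjugate i l • a' l := by abel
        rw [this]
        exact AddSubgroup.add_mem _ (hNle h1) h5
      have h7 : a i = s • (c.det • a i) + t • ((p : ℤ) • a i) := by
        rw [smul_smul, smul_smul, ← add_smul, hst, one_smul]
      rw [h7]
      refine AddSubgroup.add_mem _ (zsmul_mem h6 _) (zsmul_mem (hNle ?_) _)
      rw [natCast_zsmul]
      exact hpN (a i)
    intro x
    have hle : AddSubgroup.closure (Set.range a ∪ (N : Set A)) ≤
        AddSubgroup.closure (Set.range a' ∪ (N : Set A)) := by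
      rw [AddSubgroup.closure_le]
      rintro y (⟨i, rfl⟩ | hy)
      · exact hgen i
      · exact AddSubgroup.subset_closure (Or.inr hy)
    exact hle (ha x)

end Pool.Agent.CRN
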