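import Pool.Agent.CRN.St

/-!
Campaign CRN, module Dlt (helper55): the terms which vanish except at generators of a field.
-/

set_option autoImplicit false

namespace Pool.Agent.CRN

open Pool.Agent.CRR

section

variable {R : Type} [NonUnitalRing R]

/-- `eRe` as a subring. -/
def DltK (e : R) : NonUnitalSubring R where
  carrier := {x | e * x = x ∧ x * e = x}
  zero_mem' := ⟨mul_zero e, zero_mul e⟩
  add_mem' := fun {x y} hx hy => ⟨by rw [mul_add, hx.1, hy.1], by rw [add_mul, hx.2, hy.2]⟩
  neg_mem' := fun {x} hx => ⟨by rw [mul_neg, hx.1], by rw [neg_mul, hx.2]⟩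
  mul_mem' := fun {x y} hx hy => ⟨by rw [← mul_assoc, hx.1], by rw [mul_assoc, hy.2]⟩

/-- The unital ring structure on `eRe`. -/
@[reducible] def DltRing (e : R) (he : e * e = e) : Ring (DltK e) :=
  { (inferInstance : NonUnitalRing (DltK e)) with
    one := ⟨e, he, he⟩
    one_mul := fun x => Subtype.ext x.2.1
    mul_one := fun x => Subtype.ext x.2.2 }

/-- `eRe` is a finite field. -/
theorem Dlt_field [Finite R] (e : R) (h : Fld R e) :
    ∃ (K : Type) (_ : Field K) (_ : Finite K) (φ : K →ₙ+* R), Function.Injective φ ∧ φ 1 = e ∧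
      (∀ x, e * x = x → x * e = x → ∃ y, φ y = x) ∧ (∀ y, e * φ y = φ y ∧ φ y * e = φ y) ∧
      Nat.card K = qc e := by
  obtain ⟨he, he0, hinv⟩ := h
  letI : Ring (DltK e) := DltRing e he
  haveI : Nontrivial (DltK e) := ⟨⟨0, 1, fun h => he0 (congrArg Subtype.val h).symm⟩⟩
  have hu : ∀ a : DltK e, IsUnit a ∨ a = 0 := by
    intro a
    rcases eq_or_ne a 0 with h0 | h0
    · exact Or.inr h0
    left
    have h1 : (a : R) ≠ 0 := fun h => h0 (Subtype.ext h)
    obtain ⟨y, hy1, hy2, hy⟩ := hinv a a.2.1 a.2.2 h1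
    have hy0 : y ≠ 0 := by
      rintro rfl
      rw [mul_zero] at hy
      exact he0 hy.symm
    obtain ⟨z, hz1, hz2, hz⟩ := hinv y hy1 hy2 hy0
    have h2 : (a : R) = z := by
      calc (a : R) = a * e := a.2.2.symm
        _ = a * (y * z) := by rw [hz]
        _ = (a * y) * z := (mul_assoc _ _ _).symm
        _ = z := by rw [hy, hz1]
    refine ⟨⟨a, ⟨y, hy1, hy2⟩, Subtype.ext hy, Subtype.ext ?_⟩, rfl⟩
    change y * (a : R) = e
    rw [h2, hz]
  letI : DivisionRing (DltK e) := DivisionRing.ofIsUnitOrEqZero hu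
  letI : Field (DltK e) := littleWedderburn (DltK e)
  refine ⟨DltK e, inferInstance, inferInstance,
    { toFun := fun x => (x : R), map_mul' := fun _ _ => rfl, map_zero' := rfl,
      map_add' := fun _ _ => rfl }, Subtype.val_injective, rfl, ?_, ?_, rfl⟩
  · intro x h1 h2
    exact ⟨⟨x, h1, h2⟩, rfl⟩
  · intro y
    exact y.2

theorem Dlt_pw {K : Type} [Field K] (φ : K →ₙ+* R) (y : K) (m : ℕ) :
    pw (φ y) m = φ (y ^ (m + 1)) := by
  induction m with
  | zero => rw [zero_add, pow_one]; rfl
  | succ m ih =>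
    rw [pow_succ, map_mul, ← ih]
    rfl

theorem Dlt_dl {K : Type} [Field K] (φ : K →ₙ+* R) (y : K) {q : ℕ} (hq : 2 ≤ q) (j : ℕ) :
    dl q (φ y) j = φ (y * ∏ i ∈ Finset.range j, (y ^ (i + 1) - y ^ (q - 1))) := by
  induction j with
  | zero => rw [Finset.prod_range_zero, mul_one]; rfl
  | succ j ih =>
    have h1 : q - 2 + 1 = q - 1 := by omega
    rw [Finset.prod_range_succ, ← mul_assoc, map_mul, ← ih, map_sub, ← Dlt_pw, ← h1, ← Dlt_pw]
    rfl

theorem Dlt_left (g t : R) (h : g * t = t) (q j : ℕ) : g * dl q t j = dl q t j := by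
  induction j with
  | zero => exact h
  | succ j ih =>
    change g * (dl q t j * (pw t j - pw t (q - 2))) = dl q t j * (pw t j - pw t (q - 2))
    rw [← mul_assoc, ih]

theorem Dlt_pwr (g t : R) (h : t * g = t) (m : ℕ) : pw t m * g = pw t m := by
  cases m with
  | zero => exact h
  | succ m =>
    change pw t m * t * g = pw t m * t
    rw [mul_assoc, h]

theorem Dlt_right (g t : R) (h : t * g = t) (q j : ℕ) : dl q t j * g = dl q t j := by
  cases j with
  | zero => exact h
  | succ j =>
    change dl q t j * (pw t j - pw t (q - 2)) * g = dl q t j * (pw t j - pw t (q - 2))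
    rw [mul_assoc, sub_mul, Dlt_pwr g t h, Dlt_pwr g t h]

theorem Dlt_pwm (t : R) (m : ℕ) : pw t m ∈ NonUnitalSubring.closure {t} := by
  induction m with
  | zero => exact NonUnitalSubring.subset_closure rfl
  | succ m ih => exact mul_mem ih (NonUnitalSubring.subset_closure rfl)

theorem Dlt_mem (t : R) (q j : ℕ) : dl q t j ∈ NonUnitalSubring.closure {t} := by
  induction j with
  | zero => exact NonUnitalSubring.subset_closure rfl
  | succ j ih => exact mul_mem ih (sub_mem (Dlt_pwm t j) (Dlt_pwm t (q - 2)))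

end

theorem thm_Dlt : St_Dlt := by
  intro R _ _ e he
  obtain ⟨K, _, _, φ, hφ, h1, hsurj, hK, hcard⟩ := Dlt_field e he
  have hq : 2 ≤ Nat.card K := Finite.one_lt_card
  have hun : Nat.card Kˣ = Nat.card K - 1 := Nat.card_units K
  refine ⟨?_, ?_, fun g t h => Dlt_left g t h _ _, fun g t h => Dlt_right g t h _ _,
    fun t => Dlt_mem t _ _⟩
  · obtain ⟨u, hu⟩ := IsCyclic.exists_generator (α := Kˣ)
    have hord : orderOf u = Nat.card K - 1 := by
      rw [orderOf_eq_card_of_forall_mem_zpowers hu, hun]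
    refine ⟨φ u, (hK u).1, (hK u).2, ?_⟩
    unfold dq
    rw [← hcard, Dlt_dl φ (u : K) hq]
    intro h0
    have h2 := hφ (h0.trans (map_zero φ).symm)
    rw [mul_eq_zero, or_iff_right u.ne_zero, Finset.prod_eq_zero_iff] at h2
    obtain ⟨i, hi, hi0⟩ := h2
    rw [Finset.mem_range] at hi
    rw [sub_eq_zero, ← Units.val_pow_eq_pow_val, ← Units.val_pow_eq_pow_val, ← hord,
      pow_orderOf_eq_one] at hi0
    have h3 : u ^ (i + 1) = 1 := Units.ext hi0
    have h4 := orderOf_le_of_pow_eq_one (Nat.succ_pos i) h3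
    omega
  · intro t ht1 ht2 hdq x hx1 hx2
    obtain ⟨y, rfl⟩ := hsurj t ht1 ht2
    obtain ⟨w, rfl⟩ := hsurj x hx1 hx2
    unfold dq at hdq
    rw [← hcard, Dlt_dl φ y hq] at hdq
    have hne : y * ∏ i ∈ Finset.range (Nat.card K - 2), (y ^ (i + 1) - y ^ (Nat.card K - 1)) ≠
        0 := by
      intro h
      rw [h, map_zero] at hdq
      exact hdq rfl
    have hy : y ≠ 0 := left_ne_zero_of_mul hne
    have hprod := Finset.prod_ne_zero_iff.1 (right_ne_zero_of_mul hne)
    set u : Kˣ := Units.mk0 y hy with hu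
    have hpow : u ^ (Nat.card K - 1) = 1 := by
      rw [← hun]
      exact pow_card_eq_one'
    have hord : orderOf u = Nat.card Kˣ := by
      have h2 : orderOf u ∣ Nat.card Kˣ := orderOf_dvd_natCard u
      have h3 : 0 < orderOf u := orderOf_pos u
      have h4 : 0 < Nat.card Kˣ := by omega
      have h5 := Nat.le_of_dvd h4 h2
      by_contra hc
      have h6 : orderOf u - 1 ∈ Finset.range (Nat.card K - 2) := by
        rw [Finset.mem_range]
        omega
      apply hprod _ h6
      have h7 : orderOf u - 1 + 1 = orderOf u := by omega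
      rw [h7, sub_eq_zero]
      have h8 : u ^ orderOf u = u ^ (Nat.card K - 1) := by rw [pow_orderOf_eq_one, hpow]
      have h9 := congrArg Units.val h8
      rw [Units.val_pow_eq_pow_val, Units.val_pow_eq_pow_val] at h9
      exact h9
    rcases eq_or_ne w 0 with rfl | hw
    · rw [map_zero]
      exact zero_mem _
    · have htop : Subgroup.zpowers u = ⊤ :=
        Subgroup.eq_top_of_card_eq _ (by rw [Nat.card_zpowers, hord])
      have hmem : Units.mk0 w hw ∈ Subgroup.zpowers u := by
        rw [htop]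
        exact Subgroup.mem_top _
      rw [← mem_powers_iff_mem_zpowers] at hmem
      obtain ⟨m, hm⟩ := hmem
      have hm' : u ^ m = Units.mk0 w hw := hm
      have hw2 : w = y ^ (m + (Nat.card K - 2) + 1) := by
        have h2 : u ^ (m + (Nat.card K - 2) + 1) = Units.mk0 w hw := by
          have h3 : m + (Nat.card K - 2) + 1 = m + (Nat.card K - 1) := by omega
          rw [h3, pow_add, hpow, mul_one, hm']
        have h4 := congrArg Units.val h2
        rw [Units.val_pow_eq_pow_val] at h4
        exact h4.symm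
      rw [hw2, ← Dlt_pw]
      exact Dlt_pwm _ _

end Pool.Agent.CRN
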