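import Pool.Agent.CRN.St

/-!
Campaign CRN, `St_Eof`: the orthogonal idempotents `Eo n u i`.
-/

set_option autoImplicit false

namespace Pool.Agent.CRN

open Pool.Agent.CRR

theorem Eof_ct_l {R : Type} [NonUnitalRing R] (g x : R) (h : g * g = g) : g * ct g x = 0 := by
  have h1 : g * (g * x) = g * x := by rw [← mul_assoc, h]
  have h2 : g * (g * x * g) = g * (x * g) := by
    rw [← mul_assoc, ← mul_assoc, h, mul_assoc]
  unfold ct
  rw [mul_add, mul_sub, mul_sub, h1, h2]
  abel

theorem Eof_ct_r {R : Type} [NonUnitalRing R] (g x : R) (h : g * g = g) : ct g x * g = 0 := by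
  have h1 : x * g * g = x * g := by rw [mul_assoc, h]
  have h2 : g * x * g * g = g * x * g := by rw [mul_assoc, h]
  unfold ct
  rw [add_mul, sub_mul, sub_mul, h1, h2]
  abel

theorem Eof_ct_z {R : Type} [NonUnitalRing R] (g x : R) (h1 : g * x = 0) (h2 : x * g = 0) :
    ct g x = x := by
  unfold ct
  rw [h1, h2]
  simp

theorem thm_Eof (hP : St_Pws) : St_Eof := by
  intro n hn R _ hR u
  have idem : ∀ x : R, om n x * om n x = om n x := fun x => (hP n hn R hR x).1
  have zl : ∀ x y : R, y * x = 0 → y * om n x = 0 := fun x y h =>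
    (hP n hn R hR x).2.2.2.2.2.1 y h
  have zr : ∀ x y : R, x * y = 0 → om n x * y = 0 := fun x y h =>
    (hP n hn R hR x).2.2.2.2.2.2.1 y h
  have ido : ∀ x : R, x * x = x → om n x = x :=
    fun x h => (hP n hn R hR x).2.2.2.2.2.2.2.2.2.1 h
  have hs : ∀ i, Es n u (i + 1) = Es n u i + Eo n u i := fun i => rfl
  have hoo : ∀ i, Eo n u i * Eo n u i = Eo n u i := fun i => idem _
  have hE : ∀ i, Es n u i * Es n u i = Es n u i ∧ Es n u i * Eo n u i = 0 ∧
      Eo n u i * Es n u i = 0 := by
    have step : ∀ i, Es n u i * Es n u i = Es n u i → Es n u i * Eo n u i = 0 ∧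
      Eo n u i * Es n u i = 0 := fun i h =>
      ⟨zl _ _ (Eof_ct_l _ _ h), zr _ _ (Eof_ct_r _ _ h)⟩
    intro i
    induction i with
    | zero =>
      have h0 : Es n u 0 * Es n u 0 = Es n u 0 := by
        show (0 : R) * 0 = 0
        simp
      exact ⟨h0, step 0 h0⟩
    | succ i ih =>
      obtain ⟨h1, h2, h3⟩ := ih
      have h4 : Es n u (i + 1) * Es n u (i + 1) = Es n u (i + 1) := by
        rw [hs, mul_add, add_mul, add_mul, h1, h2, h3, hoo]
        simp
      exact ⟨h4, step _ h4⟩
  have hL : ∀ i j, i < j → Es n u j * Eo n u i = Eo n u i ∧ Eo n u i * Es n u j = Eo n u i := by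
    intro i j
    induction j with
    | zero => intro h; omega
    | succ j ih =>
      intro h
      rcases Nat.lt_succ_iff_lt_or_eq.1 h with h1 | h1
      · obtain ⟨h2, h3⟩ := ih h1
        have h4 : Eo n u j * Eo n u i = 0 := by
          rw [← h2, ← mul_assoc, (hE j).2.2, zero_mul]
        have h5 : Eo n u i * Eo n u j = 0 := by
          rw [← h3, mul_assoc, (hE j).2.1, mul_zero]
        rw [hs, add_mul, mul_add, h2, h3, h4, h5]
        simp
      · subst h1
        rw [hs, add_mul, mul_add, (hE i).2.1, (hE i).2.2, hoo]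
        simp
  have hO : ∀ i j, i < j → Eo n u i * Eo n u j = 0 ∧ Eo n u j * Eo n u i = 0 := by
    intro i j h
    obtain ⟨h2, h3⟩ := hL i j h
    constructor
    · rw [← h3, mul_assoc, (hE j).2.1, mul_zero]
    · rw [← h2, ← mul_assoc, (hE j).2.2, zero_mul]
  refine ⟨hoo, ?_, ?_⟩
  · intro i j hij
    rcases lt_or_gt_of_ne hij with h | h
    · exact (hO i j h).1
    · exact (hO j i h).2
  · intro m h1 h2
    have key : ∀ i, ∀ j, i ≤ j → j < m → Es n u i * u j = 0 ∧ u j * Es n u i = 0 := by
      intro i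
      induction i with
      | zero =>
        intro j _ _
        show (0 : R) * u j = 0 ∧ u j * 0 = 0
        simp
      | succ i ih =>
        intro j hij hj
        obtain ⟨h3, h4⟩ := ih i le_rfl (by omega)
        obtain ⟨h5, h6⟩ := ih j (by omega) hj
        have h7 : Eo n u i = u i := by
          unfold Eo
          rw [Eof_ct_z _ _ h3 h4]
          exact ido _ (h1 i (by omega))
        rw [hs, h7, add_mul, mul_add, h5, h6, h2 i j (by omega) hj (by omega),
          h2 j i hj (by omega) (by omega)]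
        simp
    intro i hi
    obtain ⟨h3, h4⟩ := key i i le_rfl hi
    unfold Eo
    rw [Eof_ct_z _ _ h3 h4]
    exact ido _ (h1 i hi)

end Pool.Agent.CRN
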