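import Pool.Agent.CRN.St

/-!
Campaign CRN, module Evn: for even `n`, and for rings of order prime to `n - 3`, the local rings
`eRe` are fields and there are no matrix units.
-/

set_option autoImplicit false

namespace Pool.Agent.CRN

open Pool.Agent.CRR

section

variable {R : Type} [NonUnitalRing R]

theorem Evn_pw (g x : R) (hg : g * g = g) (h1 : g * x = x) (h2 : x * g = x)
    (h3 : x * x * x = 0) (k : ℕ) :
    pw (g + x) k = g + (k + 1) • x + ((k + 1).choose 2) • (x * x) := by
  induction k with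
  | zero => simp [pw]
  | succ k ih =>
    have h4 : x * x * g = x * x := by rw [mul_assoc, h2]
    have h5 : (k + 1 + 1).choose 2 = (k + 1) + (k + 1).choose 2 := by
      rw [Nat.choose_succ_succ (k + 1) 1, Nat.choose_one_right]
    show pw (g + x) k * (g + x) = _
    rw [ih, h5]
    simp only [mul_add, add_mul, smul_mul_assoc, hg, h1, h2, h3, h4, smul_zero, add_zero]
    rw [add_smul (k + 1) 1 x, one_smul, add_smul (k + 1) ((k + 1).choose 2) (x * x)]
    abel

theorem Evn_neg (g : R) (hg : g * g = g) (m : ℕ) :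
    pw (-g) (2 * m) = -g ∧ pw (-g) (2 * m + 1) = g := by
  induction m with
  | zero =>
    refine ⟨rfl, ?_⟩
    show -g * -g = g
    rw [neg_mul_neg, hg]
  | succ m ih =>
    have h1 : pw (-g) (2 * (m + 1)) = -g := by
      show pw (-g) (2 * m + 1) * (-g) = -g
      rw [ih.2, mul_neg, hg]
    refine ⟨h1, ?_⟩
    show pw (-g) (2 * (m + 1)) * (-g) = g
    rw [h1, neg_mul_neg, hg]

theorem Evn_zero [Finite R] (n : ℕ) (hn : 4 ≤ n) (hM : InM n R)
    (hc : Even n ∨ (Nat.card R).Coprime (n - 3)) (g x : R) (hg : g * g = g) (h1 : g * x = x)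
    (h2 : x * g = x) (h3 : x * x * x = 0) : x = 0 := by
  obtain ⟨N, rfl⟩ : ∃ N, n = N + 3 := ⟨n - 3, by omega⟩
  have h4 := hM (g + x)
  rw [Evn_pw g x hg h1 h2 h3, Evn_pw g x hg h1 h2 h3] at h4
  have h5 : N • (x * x) = 0 := by
    have h6 := congrArg (fun z => z * x) h4
    simp only [add_mul, smul_mul_assoc, h1, h3, smul_zero, add_zero] at h6
    have h7 : N + 3 - 1 + 1 = N + (2 + 1) := by omega
    rw [h7, add_smul N (2 + 1) (x * x)] at h6
    have h8 := add_left_cancel h6
    have h9 : 0 + (2 + 1) • (x * x) = N • (x * x) + (2 + 1) • (x * x) := by rw [zero_add]; exact h8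
    exact (add_right_cancel h9).symm
  have key : ∀ y : R, g * y = y → N • y = 0 → y = 0 := by
    intro y hy hNy
    rcases hc with hc | hc
    · obtain ⟨m, hm⟩ := hc
      have h6 := hM (-g)
      have h7 : N + 3 - 1 = 2 * (m - 1) + 1 := by omega
      rw [h7, (Evn_neg g hg _).2] at h6
      have h8 : pw (-g) 2 = -g := (Evn_neg g hg 1).1
      rw [h8] at h6
      have h9 : (2 : ℕ) • y = 0 := by
        rw [two_smul]
        have h10 : g + g = 0 := by
          nth_rewrite 1 [← h6]
          exact neg_add_cancel g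
        have h11 : y + y = (g + g) * y := by rw [add_mul, hy]
        rw [h11, h10, zero_mul]
      have h12 : N = (m - 2) * 2 + 1 := by omega
      rw [h12, add_smul, mul_smul, h9, smul_zero, zero_add, one_smul] at hNy
      exact hNy
    · have h6 : Nat.card R • y = 0 := card_nsmul_eq_zero'
      have h7 : addOrderOf y ∣ Nat.gcd (Nat.card R) N :=
        Nat.dvd_gcd (addOrderOf_dvd_of_nsmul_eq_zero h6) (addOrderOf_dvd_of_nsmul_eq_zero hNy)
      have h8 : Nat.gcd (Nat.card R) N = 1 := hc
      rw [h8, Nat.dvd_one, AddMonoid.addOrderOf_eq_one_iff] at h7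
      exact h7
  have h6 : x * x = 0 := key _ (by rw [← mul_assoc, h1]) h5
  refine key x h1 ?_
  rw [h6, smul_zero, smul_zero, add_zero, add_zero] at h4
  have h7 : N + 3 - 1 + 1 = N + (2 + 1) := by omega
  rw [h7, add_smul N (2 + 1) x] at h4
  have h8 := add_left_cancel h4
  have h9 : 0 + (2 + 1) • x = N • x + (2 + 1) • x := by rw [zero_add]; exact h8
  exact (add_right_cancel h9).symm

end

theorem thm_Evn (hPws : St_Pws) : St_Evn := by
  intro n hn R _ _ hM hc
  refine ⟨?_, ?_⟩
  · intro e he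
    refine ⟨he.1, he.2.1, ?_⟩
    intro x h1 h2 hx
    obtain ⟨p1, p2, p3, p4, p5, p6, p7, p8, p9, p10, y, p11, p12, p13, p14⟩ := hPws n hn R hM x
    rcases he.2.2 (om n x) p1 (p8 e h1) (p9 e h2) with h | h
    · exact absurd (Evn_zero n hn hM hc e x he.1 h1 h2 (p4 h)) hx
    · exact ⟨y, p13 e h1, p14 e h2, p11.trans h⟩
  · rintro ⟨a, b, h1, h2, h3⟩
    apply h3
    have k1 : ∀ z, a * (a * z) = 0 := fun z => by rw [← mul_assoc, h1, zero_mul]
    have k2 : a * (b * a) = a := by rw [← mul_assoc, h2]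
    have k3 : ∀ z, a * (b * (a * z)) = a * z := fun z => by
      rw [← mul_assoc b, ← mul_assoc a, k2]
    refine Evn_zero n hn hM hc (a * b + (b * a - a * b * (b * a))) a ?_ ?_ ?_ ?_
    · simp only [mul_add, mul_sub, add_mul, sub_mul, mul_assoc, h1, k1, k2, k3, mul_zero]
      abel
    · simp only [add_mul, sub_mul, mul_assoc, h1, k2, mul_zero, sub_zero, add_zero]
    · simp only [mul_add, mul_sub, k1, mul_assoc, k2, zero_add, sub_zero]
    · rw [h1, zero_mul]

end Pool.Agent.CRN
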