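import Pool.Agent.CRN.St

/-!
Campaign CRN, module Fnb: subrings which contain enough elements of the radical, for `TyB`.
-/

set_option autoImplicit false

namespace Pool.Agent.CRN

open Pool.Agent.CRR

/-- the elements which are congruent to their diagonal part -/
def Fnb_T {R : Type} [NonUnitalRing R] {s : ℕ} (e : Fin s → R)
    (hee : ∀ i j, e i * e j = if i = j then e i else 0)
    (hmul : ∀ i x y, e i * (x * y) * e i = (e i * x * e i) * (e i * y * e i))
    (I : AddSubgroup R) (hI : Idl R I) : NonUnitalSubring R where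
  carrier := {x | x - ∑ m, e m * x * e m ∈ I}
  zero_mem' := by simp
  add_mem' := fun {x y} hx hy => by
    have h : x + y - ∑ m, e m * (x + y) * e m =
        (x - ∑ m, e m * x * e m) + (y - ∑ m, e m * y * e m) := by
      simp only [mul_add, add_mul, Finset.sum_add_distrib]
      abel
    show x + y - ∑ m, e m * (x + y) * e m ∈ I
    rw [h]
    exact I.add_mem hx hy
  neg_mem' := fun {x} hx => by
    have h : -x - ∑ m, e m * (-x) * e m = -(x - ∑ m, e m * x * e m) := by
      simp only [mul_neg, neg_mul, Finset.sum_neg_distrib]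
      abel
    show -x - ∑ m, e m * (-x) * e m ∈ I
    rw [h]
    exact I.neg_mem hx
  mul_mem' := fun {x y} hx hy => by
    have h0 : (∑ m, e m * x * e m) * (∑ m, e m * y * e m) = ∑ m, e m * (x * y) * e m := by
      rw [Finset.sum_mul]
      refine Finset.sum_congr rfl fun m _ => ?_
      rw [hmul, Finset.mul_sum, Finset.sum_eq_single m]
      · intro k _ hk
        have h1 : e m * x * e m * (e k * y * e k) = e m * x * (e m * e k) * (y * e k) := by
          simp only [mul_assoc]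
        rw [h1, hee, if_neg (fun h => hk h.symm), mul_zero, zero_mul]
      · intro h
        exact absurd (Finset.mem_univ m) h
    have h : x * y - ∑ m, e m * (x * y) * e m = (x - ∑ m, e m * x * e m) * y +
        (∑ m, e m * x * e m) * (y - ∑ m, e m * y * e m) := by
      rw [← h0]
      simp only [sub_mul, mul_sub]
      abel
    show x * y - ∑ m, e m * (x * y) * e m ∈ I
    rw [h]
    exact I.add_mem (hI y _ hx).2 (hI _ _ hy).1

theorem Fnb_diag {R : Type} [NonUnitalRing R] {s : ℕ} (e : Fin s → R)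
    (α β : Option (Fin s)) (hαβ : α ≠ β) (z : R) (hz : Pc e α β z) :
    ∑ m, e m * z * e m = 0 := by
  refine Finset.sum_eq_zero fun m _ => ?_
  rw [hz.1]
  split_ifs with h
  · rw [hz.2, if_neg]
    intro h'
    exact hαβ (h.trans h'.symm)
  · rw [zero_mul]

theorem thm_Fnb (hSbb : St_Sbb) (hNak : St_Nak) (hJnl : St_Jnl) (hJid : St_Jid) (hPpw : St_Ppw)
    (hPca : St_Pca) : St_Fnb := by
  intro n R _ _ s e hC hL α β γ z z' hT S hS x y xS yS xJ yJ hxy
  obtain ⟨H, hH⟩ := hL
  obtain ⟨J1, J2, J3, -⟩ := hJid n R s e hC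
  obtain ⟨p, r, -, hpr, -⟩ := hPpw R H hH
  obtain ⟨hI, hfin⟩ := hNak R (JJ e) J1 (hJnl R (JJ e) J1 J2) p r hpr S hS
  obtain ⟨-, B2, B3, B4, -, -⟩ := hSbb n R s e hC H hH α β γ z z' hT
  obtain ⟨P1, -⟩ := hPca R s e (fun i => (hC.fam.fld i).1) hC.fam.orth
  set I := fr S (JJ e) p with hIdef
  have hxI : x ∈ I := AddSubgroup.subset_closure (Or.inl (Or.inl ⟨xS, xJ⟩))
  have hyI : y ∈ I := AddSubgroup.subset_closure (Or.inl (Or.inl ⟨yS, yJ⟩))
  obtain ⟨p1, q1, r1, e1, hp1, hq1, hr1, k1⟩ := B2 x xJ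
  obtain ⟨p2, q2, r2, e2, hp2, hq2, hr2, k2⟩ := B2 y yJ
  obtain ⟨p1I, -⟩ := k1 I hI hxI
  obtain ⟨-, q2I⟩ := k2 I hI hyI
  have hab := hT.ab
  have hbg := hT.bg
  have hag := hT.ag
  have hprod : x * y = p1 * q2 := by
    rw [e1, e2]
    simp only [add_mul, mul_add]
    rw [(P1 _ _ _ _ _ _ hp1 hp2).2 hab.symm, (P1 _ _ _ _ _ _ hp1 hr2).2 hab.symm,
      (P1 _ _ _ _ _ _ hq1 hp2).2 hag.symm, (P1 _ _ _ _ _ _ hq1 hq2).2 hbg.symm,
      (P1 _ _ _ _ _ _ hq1 hr2).2 hag.symm, (P1 _ _ _ _ _ _ hr1 hp2).2 hag.symm,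
      (P1 _ _ _ _ _ _ hr1 hq2).2 hbg.symm, (P1 _ _ _ _ _ _ hr1 hr2).2 hag.symm]
    simp only [zero_add, add_zero]
  have hp0 : p1 ≠ 0 := by
    rintro rfl
    rw [zero_mul] at hprod
    exact hxy hprod
  have hq0 : q2 ≠ 0 := by
    rintro rfl
    rw [mul_zero] at hprod
    exact hxy hprod
  have hz : z ∈ I := B3 p1 hp1 hp0 I hI p1I
  have hz' : z' ∈ I := B4 q2 hq2 hq0 I hI q2I
  have hee : ∀ i j, e i * e j = if i = j then e i else 0 := by
    intro i j
    split_ifs with h
    · rw [← h]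
      exact (hC.fam.fld i).1
    · exact hC.fam.orth i j h
  have htop : Fnb_T e hee J3 I hI = ⊤ := by
    rw [eq_top_iff, ← hT.gen, NonUnitalSubring.closure_le]
    rintro w (⟨i, w1, w2⟩ | hw | hw)
    · show w - ∑ m, e m * w * e m ∈ I
      have : ∑ m, e m * w * e m = w := by
        rw [Finset.sum_eq_single i]
        · rw [w1, w2]
        · intro m _ hm
          rw [← w1, ← mul_assoc, hee, if_neg hm, zero_mul, zero_mul]
        · intro h
          exact absurd (Finset.mem_univ i) h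
      rw [this, sub_self]
      exact I.zero_mem
    · rw [hw]
      show z - ∑ m, e m * z * e m ∈ I
      rw [Fnb_diag e α β hab z hT.hz, sub_zero]
      exact hz
    · rw [Set.mem_singleton_iff.1 hw]
      show z' - ∑ m, e m * z' * e m ∈ I
      rw [Fnb_diag e β γ hbg z' hT.hz', sub_zero]
      exact hz'
  apply hfin
  intro w hw
  have h1 : w ∈ Fnb_T e hee J3 I hI := by
    rw [htop]
    exact NonUnitalSubring.mem_top w
  have h2 : w - ∑ m, e m * w * e m ∈ I := h1
  rw [Finset.sum_eq_zero fun m _ => hw m, sub_zero] at h2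
  exact h2

end Pool.Agent.CRN
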