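import Pool.Agent.CRN.St

/-!
Campaign CRN, module Fwa: a critical ring without matrix units is a field, or generated by its
fields and the letters of a word which is not zero.
-/

set_option autoImplicit false

namespace Pool.Agent.CRN

open Pool.Agent.CRR

/-- A product with a factor zero is zero. -/
theorem Fwa_wp {R : Type} [NonUnitalRing R] (l : List R) (h : (0 : R) ∈ l) : wp l = 0 := by
  induction l with
  | nil => rfl
  | cons x l ih =>
    cases l with
    | nil =>
      rw [List.mem_singleton] at h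
      rw [← h]
      rfl
    | cons y l =>
      show x * wp (y :: l) = 0
      rcases List.mem_cons.mp h with h1 | h1
      · rw [← h1, zero_mul]
      · rw [ih h1, mul_zero]

/-- If the ring is generated by the fields, it is their sum. -/
theorem Fwa_sum {R : Type} [NonUnitalRing R] {s : ℕ} (e : Fin s → R) (hf : Fam R s e)
    (hG : NonUnitalSubring.closure (G0 e) = ⊤) (x : R) :
    (∀ i, e i * x = x * e i) ∧ x = ∑ i, e i * x := by
  have hx : x ∈ NonUnitalSubring.closure (G0 e) := by
    rw [hG]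
    exact NonUnitalSubring.mem_top x
  induction hx using NonUnitalSubring.closure_induction with
  | mem x h =>
    obtain ⟨i, h1, h2⟩ := h
    have h3 : ∀ j, j ≠ i → e j * x = 0 := fun j hj => by
      rw [← h1, ← mul_assoc, hf.orth j i hj, zero_mul]
    have h4 : ∀ j, j ≠ i → x * e j = 0 := fun j hj => by
      rw [← h2, mul_assoc, hf.orth i j hj.symm, mul_zero]
    refine ⟨fun j => ?_, ?_⟩
    · by_cases hj : j = i
      · rw [hj, h1, h2]
      · rw [h3 j hj, h4 j hj]
    · rw [Finset.sum_eq_single i (fun j _ hj => h3 j hj)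
        (fun h => absurd (Finset.mem_univ i) h), h1]
  | zero => exact ⟨fun i => by rw [mul_zero, zero_mul], by simp⟩
  | add x y _ _ hx hy =>
    refine ⟨fun i => by rw [mul_add, add_mul, hx.1, hy.1], ?_⟩
    conv_lhs => rw [hx.2, hy.2]
    rw [← Finset.sum_add_distrib]
    exact Finset.sum_congr rfl fun i _ => (mul_add _ _ _).symm
  | neg x _ hx =>
    refine ⟨fun i => by rw [mul_neg, neg_mul, hx.1], ?_⟩
    conv_lhs => rw [hx.2]
    rw [← Finset.sum_neg_distrib]
    exact Finset.sum_congr rfl fun i _ => (mul_neg _ _).symm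
  | mul x y _ _ hx hy =>
    refine ⟨fun i => by rw [← mul_assoc, hx.1, mul_assoc, hy.1, mul_assoc], ?_⟩
    conv_lhs => rw [hx.2]
    rw [Finset.sum_mul]
    exact Finset.sum_congr rfl fun i _ => mul_assoc _ _ _

/-- The case of a ring generated by its fields. -/
theorem Fwa_field (hMat : St_Mat) {R : Type} [NonUnitalRing R] [Finite R] {s : ℕ} (e : Fin s → R)
    (hf : Fam R s e) (hs : 0 < s) (hG : NonUnitalSubring.closure (G0 e) = ⊤)
    (H : AddSubgroup R) (hH : Lst R H) : MatType R 1 := by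
  have hS := Fwa_sum e hf hG
  have hI : ∀ i, ∃ I : AddSubgroup R, Idl R I ∧ e i ∈ I ∧ ∀ x ∈ I, e i * x = x := by
    intro i
    refine ⟨{ carrier := {x | e i * x = x}
              zero_mem' := by simp
              add_mem' := fun {x y} hx hy => by
                show e i * (x + y) = x + y
                rw [mul_add]
                exact congrArg₂ (· + ·) hx hy
              neg_mem' := fun {x} hx => by
                show e i * (-x) = -x
                rw [mul_neg]
                exact congrArg Neg.neg hx }, ?_, (hf.fld i).1, fun x hx => hx⟩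
    intro r x hx
    have hx' : e i * x = x := hx
    refine ⟨?_, ?_⟩
    · show e i * (r * x) = r * x
      rw [← mul_assoc, (hS r).1 i, mul_assoc, hx']
    · show e i * (x * r) = x * r
      rw [← mul_assoc, hx']
  have hle : ∀ i, ∀ x ∈ H, e i * x = x := by
    intro i x hx
    obtain ⟨I, h1, h2, h3⟩ := hI i
    refine h3 x (hH.2.2 I h1 ?_ hx)
    rintro rfl
    exact (hf.fld i).2.1 (AddSubgroup.mem_bot.mp h2)
  obtain ⟨⟨y, hy⟩, hy1⟩ := H.ne_bot_iff_exists_ne_zero.mp hH.2.1
  have hy0 : y ≠ 0 := fun h => hy1 (Subtype.ext h)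
  have huniq : ∀ i j : Fin s, i = j := by
    intro i j
    by_contra hij
    apply hy0
    rw [← hle i y hy, ← hle j y hy, ← mul_assoc, hf.orth i j hij, zero_mul]
  have hone : ∀ x, e ⟨0, hs⟩ * x = x := by
    intro x
    have h := (hS x).2
    rw [Finset.sum_eq_single ⟨0, hs⟩ (fun j _ hj => absurd (huniq j _) hj)
      (fun h => absurd (Finset.mem_univ _) h)] at h
    exact h.symm
  obtain ⟨F, _, _, φ, hinj, h1, hsurj⟩ := hMat R 1 (fun _ _ => e ⟨0, hs⟩) 0
    (fun i j l m => by rw [if_pos (Subsingleton.elim j l)]; exact (hf.fld _).1) (hf.fld _)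
  rw [Fin.sum_univ_one] at h1
  refine ⟨F, inferInstance, inferInstance, ⟨(RingEquiv.ofBijective φ ⟨hinj, fun x => ?_⟩).symm⟩⟩
  exact hsurj x (by rw [h1, hone]) (by rw [h1, ← (hS x).1, hone])

theorem thm_Fwa (hSir : St_Sir) (hOrf : St_Orf) (hGad : St_Gad) (hLet : St_Let) (hNrm : St_Nrm)
    (hMlp : St_Mlp) (hMat : St_Mat) : St_Fwa := by
  intro n hn R _ hc hM hFC hT hg
  have := hc.1
  obtain ⟨H, hH⟩ := hSir R hc
  obtain ⟨s, e, hf⟩ := hOrf R hFC
  have hcx : Cx n R s e := ⟨hn, hM, hFC, hT, hf⟩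
  have hs : 0 < s := by
    rcases Nat.eq_zero_or_pos s with h | h
    · subst h
      obtain ⟨g, hg1, hg2⟩ := hg
      exact absurd (hf.max g hg1 fun i => i.elim0) hg2
    · exact h
  have h0 : (0 : R) ∈ G0 e := ⟨⟨0, hs⟩, mul_zero _, zero_mul _⟩
  obtain ⟨Z, hZ1, hZ2, w, hw0, hw1, hw2, hw3⟩ := hLet R hc (G0 e) (G1 e) h0 (hGad n R s e hcx)
  rcases Z.eq_empty_or_nonempty with hZ | hZ
  · left
    rw [hZ, Finset.coe_empty, Set.union_empty] at hZ2
    exact Fwa_field hMat e hf hs hZ2 H hH
  · right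
    obtain ⟨z0, hz0⟩ := hZ
    obtain ⟨L, hL0, hL1, hL2, hL3⟩ := hNrm R s e hf Z (fun z hz => hZ1 hz) w hw0 hw1 hw3
      ⟨z0, hz0, hw2 z0 hz0⟩
    have hne : wp (L.map Prod.snd) ≠ 0 := by
      rw [hL3]
      exact hw3
    have hq : ∀ q ∈ L, q.2 ≠ 0 := by
      intro q hq h
      exact hne (Fwa_wp _ (List.mem_map.mpr ⟨q, hq, h⟩))
    have hml : ∀ q ∈ L, q.2 ∈ G1 e ∧ q.1 ∈ NonUnitalSubring.closure (G0 e ∪ {q.2}) := by
      intro q hq'
      obtain ⟨h1, h2⟩ := hL1 q hq'
      obtain ⟨h3, -, h4, -⟩ := hMlp R s e hf q.1 q.2 (hZ1 h1) h2 (hq q hq')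
      exact ⟨h3, h4⟩
    refine ⟨s, e, L.map Prod.snd, hf, hs, ?_, ?_, hne, ?_⟩
    · intro h
      exact hL0 (List.map_eq_nil_iff.mp h)
    · intro x hx
      obtain ⟨q, hq', rfl⟩ := List.mem_map.mp hx
      exact (hml q hq').1
    · rw [eq_top_iff, ← hZ2, NonUnitalSubring.closure_le]
      rintro x (hx | hx)
      · exact NonUnitalSubring.subset_closure (Or.inl hx)
      · obtain ⟨q, hq', h1⟩ := hL2 x hx (hw2 x hx)
        have h2 := (hml q hq').2
        rw [h1] at h2
        refine NonUnitalSubring.closure_mono ?_ h2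
        rintro y (hy | hy)
        · exact Or.inl hy
        · right
          rw [Set.mem_singleton_iff] at hy
          exact List.mem_map.mpr ⟨q, hq', hy.symm⟩

end Pool.Agent.CRN
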