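import Pool.Agent.CRN.St

/-!
Campaign CRN (problem MP_1bb14d_al): the types of the rings without matrix units.
-/

set_option autoImplicit false

namespace Pool.Agent.CRN

open MulOpposite

section lists

variable {R : Type} [NonUnitalRing R]

/-- put an element in front of a sequence -/
def FwbC (a : R) (x : ℕ → R) : ℕ → R
  | 0 => a
  | n + 1 => x n

theorem Fwb_getD (a : R) (l : List R) :
    (fun i => (a :: l).getD i 0) = FwbC a (fun i => l.getD i 0) := by
  funext i
  cases i with
  | zero => rfl
  | succ i => rfl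

theorem Fwb_prr_cons (c x : R) (a : ℕ → R) (k : ℕ) :
    prr c (FwbC x a) (k + 1) = prr (c * x) a k := by
  induction k with
  | zero => rfl
  | succ k ih =>
    show prr c (FwbC x a) (k + 1) * FwbC x a (k + 1) = prr (c * x) a k * a k
    rw [ih]
    rfl

theorem Fwb_pll_cons (y x : R) (a : ℕ → R) (k : ℕ) :
    pll (FwbC x a) y (k + 1) = pll a (x * y) k := by
  induction k with
  | zero => rfl
  | succ k ih =>
    show FwbC x a (k + 1) * pll (FwbC x a) y (k + 1) = a k * pll a (x * y) k
    rw [ih]
    rfl

theorem Fwb_prr (l : List R) : ∀ c : R,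
    prr c (fun i => l.getD i 0) l.length = l.foldl (fun u v => u * v) c := by
  induction l with
  | nil => intro c; rfl
  | cons x l ih =>
    intro c
    rw [Fwb_getD, List.length_cons, Fwb_prr_cons, ih]
    rfl

theorem Fwb_pll (l : List R) : ∀ y : R,
    pll (fun i => l.getD i 0) y l.length = l.foldl (fun u v => v * u) y := by
  induction l with
  | nil => intro c; rfl
  | cons x l ih =>
    intro c
    rw [Fwb_getD, List.length_cons, Fwb_pll_cons, ih]
    rfl

theorem Fwb_wp_cons (x : R) {l : List R} (h : l ≠ []) : wp (x :: l) = x * wp l := by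
  cases l with
  | nil => exact absurd rfl h
  | cons y l => rfl

theorem Fwb_foldl_mul (l : List R) : ∀ x y : R,
    l.foldl (fun u v => u * v) (x * y) = x * l.foldl (fun u v => u * v) y := by
  induction l with
  | nil => intro x y; rfl
  | cons z l ih =>
    intro x y
    show l.foldl (fun u v => u * v) (x * y * z) = x * l.foldl (fun u v => u * v) (y * z)
    rw [mul_assoc, ih]

theorem Fwb_wp_foldl (l : List R) : ∀ c : R, wp (c :: l) = l.foldl (fun u v => u * v) c := by
  induction l with
  | nil => intro c; rfl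
  | cons x l ih =>
    intro c
    rw [Fwb_wp_cons c (List.cons_ne_nil x l), ih x]
    exact (Fwb_foldl_mul l c x).symm

theorem Fwb_wp_append (l : List R) {m : List R} (hm : m ≠ []) :
    wp (l ++ m) = l.foldr (fun u v => u * v) (wp m) := by
  induction l with
  | nil => rfl
  | cons x l ih =>
    have h1 : l ++ m ≠ [] := by
      intro h
      exact hm (List.append_eq_nil_iff.1 h).2
    rw [List.cons_append, Fwb_wp_cons x h1, ih]
    rfl

theorem Fwb_foldr_neg (l : List R) : ∀ x : R,
    l.foldr (fun u v => u * v) (-x) = -(l.foldr (fun u v => u * v) x) := by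
  induction l with
  | nil => intro x; rfl
  | cons z l ih =>
    intro x
    show z * l.foldr (fun u v => u * v) (-x) = -(z * l.foldr (fun u v => u * v) x)
    rw [ih, mul_neg]

theorem Fwb_foldl_neg (l : List R) : ∀ x : R,
    l.foldl (fun u v => u * v) (-x) = -(l.foldl (fun u v => u * v) x) := by
  induction l with
  | nil => intro x; rfl
  | cons z l ih =>
    intro x
    show l.foldl (fun u v => u * v) (-x * z) = -(l.foldl (fun u v => u * v) (x * z))
    rw [neg_mul, ih]

/-- loops after `y` can be moved in front of it, up to a sign -/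
theorem Fwb_move (y : R) (l : List R) (h : ∀ a ∈ l, a * y + y * a = 0) :
    l.foldl (fun u v => u * v) y = l.foldr (fun u v => u * v) y ∨
      l.foldl (fun u v => u * v) y = -(l.foldr (fun u v => u * v) y) := by
  induction l with
  | nil => exact Or.inl rfl
  | cons a l ih =>
    have h1 : y * a = -(a * y) := by
      have := h a List.mem_cons_self
      rw [add_comm] at this
      exact eq_neg_of_add_eq_zero_left this
    have h2 : (a :: l).foldl (fun u v => u * v) y = -(a * l.foldl (fun u v => u * v) y) := by
      show l.foldl (fun u v => u * v) (y * a) = _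
      rw [h1, Fwb_foldl_neg, Fwb_foldl_mul]
    have h3 : (a :: l).foldr (fun u v => u * v) y = a * l.foldr (fun u v => u * v) y := rfl
    rw [h2, h3]
    rcases ih fun b hb => h b (List.mem_cons_of_mem a hb) with h4 | h4
    · right
      rw [h4]
    · left
      rw [h4, mul_neg, neg_neg]

theorem Fwb_mem_getD {l : List R} {x : R} (h : x ∈ l) : ∃ i, i < l.length ∧ x = l.getD i 0 := by
  obtain ⟨i, hi, rfl⟩ := List.mem_iff_getElem.1 h
  exact ⟨i, hi, (List.getD_eq_getElem l 0 hi).symm⟩

theorem Fwb_getD_mem {l : List R} {i : ℕ} (h : i < l.length) : l.getD i 0 ∈ l := by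
  rw [List.getD_eq_getElem l 0 h]
  exact List.getElem_mem h

end lists

section op

variable {R : Type} [NonUnitalRing R]

/-- the opposite of a subgroup -/
def FwbO (I : AddSubgroup R) : AddSubgroup Rᵐᵒᵖ where
  carrier := {x | unop x ∈ I}
  zero_mem' := I.zero_mem
  add_mem' := fun {_ _} hx hy => I.add_mem hx hy
  neg_mem' := fun {_} hx => I.neg_mem hx

/-- the opposite of a subgroup -/
def FwbU (I : AddSubgroup Rᵐᵒᵖ) : AddSubgroup R where
  carrier := {x | op x ∈ I}
  zero_mem' := I.zero_mem
  add_mem' := fun {_ _} hx hy => I.add_mem hx hy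
  neg_mem' := fun {_} hx => I.neg_mem hx

theorem Fwb_lst {H : AddSubgroup R} (h : Lst R H) : Lst Rᵐᵒᵖ (FwbO H) := by
  obtain ⟨h1, h2, h3⟩ := h
  refine ⟨?_, ?_, ?_⟩
  · intro r x hx
    exact ⟨(h1 (unop r) (unop x) hx).2, (h1 (unop r) (unop x) hx).1⟩
  · intro h
    apply h2
    rw [eq_bot_iff]
    intro x hx
    have h4 : op x ∈ FwbO H := hx
    rw [h] at h4
    exact (AddSubgroup.mem_bot).2 (op_injective ((AddSubgroup.mem_bot).1 h4))
  · intro I hI hI0 x hx
    have h4 : H ≤ FwbU I := by
      refine h3 _ ?_ ?_
      · intro r y hy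
        exact ⟨(hI (op r) (op y) hy).2, (hI (op r) (op y) hy).1⟩
      · intro h
        apply hI0
        rw [eq_bot_iff]
        intro y hy
        have h5 : unop y ∈ FwbU I := hy
        rw [h] at h5
        exact (AddSubgroup.mem_bot).2 (unop_injective ((AddSubgroup.mem_bot).1 h5))
    exact h4 hx

theorem Fwb_fld {e : R} (h : Fld R e) : Fld Rᵐᵒᵖ (op e) := by
  obtain ⟨h1, h2, h3⟩ := h
  refine ⟨?_, ?_, ?_⟩
  · rw [← op_mul, h1]
  · intro h
    exact h2 (op_injective h)
  · intro x hx1 hx2 hx0
    have hx1' : unop x * e = unop x := congrArg unop hx1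
    have hx2' : e * unop x = unop x := congrArg unop hx2
    have hx0' : unop x ≠ 0 := fun h => hx0 (unop_injective h)
    obtain ⟨y, hy1, hy2, hy3⟩ := h3 (unop x) hx2' hx1' hx0'
    have hy0 : y ≠ 0 := by
      intro h
      rw [h, mul_zero] at hy3
      exact h2 hy3.symm
    obtain ⟨z, hz1, hz2, hz3⟩ := h3 y hy1 hy2 hy0
    have hzx : z = unop x := by
      calc z = e * z := hz1.symm
        _ = unop x * y * z := by rw [hy3]
        _ = unop x := by rw [mul_assoc, hz3, hx1']
    rw [hzx] at hz3
    refine ⟨op y, ?_, ?_, ?_⟩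
    · rw [← op_mul, hy2]
    · rw [← op_mul, hy1]
    · apply unop_injective
      exact hz3

theorem Fwb_fam {e : R} (h : Fam R 1 (fun _ => e)) : Fam Rᵐᵒᵖ 1 (fun _ => op e) := by
  refine ⟨fun i => Fwb_fld (h.fld 0), fun i j hij => absurd (Subsingleton.elim i j) hij, ?_⟩
  intro g hg hgi
  have h1 := h.max (unop g) (congrArg unop hg) (fun i => ⟨congrArg unop (hgi i).2,
    congrArg unop (hgi i).1⟩)
  exact unop_injective h1

theorem Fwb_closure {A : Set R} (h : NonUnitalSubring.closure A = ⊤) {B : Set Rᵐᵒᵖ}
    (hAB : ∀ x ∈ A, op x ∈ B) : NonUnitalSubring.closure B = ⊤ := by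
  rw [eq_top_iff]
  intro x _
  have hx : unop x ∈ NonUnitalSubring.closure A := by
    rw [h]
    exact NonUnitalSubring.mem_top _
  have h1 : ∀ y ∈ NonUnitalSubring.closure A, op y ∈ NonUnitalSubring.closure B := by
    intro y hy
    induction hy using NonUnitalSubring.closure_induction with
    | mem y hy => exact NonUnitalSubring.subset_closure (hAB y hy)
    | zero => exact zero_mem _
    | add y z _ _ hy hz => exact add_mem hy hz
    | neg y _ hy => exact neg_mem hy
    | mul y z _ _ hy hz =>
      rw [op_mul]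
      exact mul_mem hz hy
  have h2 := h1 _ hx
  rwa [op_unop] at h2

theorem Fwb_foldr_op (l : List R) (b : R) :
    op (l.foldr (fun u v => u * v) b) = (l.map op).foldr (fun u v => v * u) (op b) := by
  induction l with
  | nil => rfl
  | cons a l ih =>
    rw [List.foldr_cons, op_mul, ih, List.map_cons, List.foldr_cons]

end op

section vertices

variable {R : Type} [NonUnitalRing R] {s : ℕ} {e : Fin s → R}

theorem Fwb_left {α β α' β' : Option (Fin s)} {x : R} (h : Pc e α β x) (h' : Pc e α' β' x)
    (hx : x ≠ 0) : α = α' := by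
  cases α with
  | none =>
    cases α' with
    | none => rfl
    | some i =>
      exfalso
      have h1 := h.1 i
      have h2 := h'.1 i
      rw [if_neg (by simp)] at h1
      rw [if_pos rfl, h1] at h2
      exact hx h2.symm
  | some i =>
    have h1 := h.1 i
    have h2 := h'.1 i
    rw [if_pos rfl] at h1
    rw [h1] at h2
    by_contra hne
    rw [if_neg fun h => hne h.symm] at h2
    exact hx h2

theorem Fwb_right {α β α' β' : Option (Fin s)} {x : R} (h : Pc e α β x) (h' : Pc e α' β' x)
    (hx : x ≠ 0) : β = β' := by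
  cases β with
  | none =>
    cases β' with
    | none => rfl
    | some i =>
      exfalso
      have h1 := h.2 i
      have h2 := h'.2 i
      rw [if_neg (by simp)] at h1
      rw [if_pos rfl, h1] at h2
      exact hx h2.symm
  | some i =>
    have h1 := h.2 i
    have h2 := h'.2 i
    rw [if_pos rfl] at h1
    rw [h1] at h2
    by_contra hne
    rw [if_neg fun h => hne h.symm] at h2
    exact hx h2

theorem Fwb_smp {x : R} (h : x ∈ G1 e) {α β : Option (Fin s)} (h' : Pc e α β x) :
    ∀ i j, α = some i → β = some j → Smp (e i) (e j) x := by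
  obtain ⟨h0, α', β', h1, _, h3⟩ := h
  intro i j hi hj
  exact h3 i j ((Fwb_left h1 h' h0).trans hi) ((Fwb_right h1 h' h0).trans hj)

/-- if all letters have only the vertices `none`, `some i`, then `s = 1` -/
theorem Fwb_one (hCov : St_Cov) (hF : Fam R s e) (hH : ∃ H, Lst R H) {l : List R}
    (hl : ∀ x ∈ l, x ∈ G1 e) (hne : l ≠ [])
    (hcl : NonUnitalSubring.closure (G0 e ∪ {x | x ∈ l}) = ⊤) {i : Fin s}
    (h : ∀ x ∈ l, ∀ m, m ≠ i → e m * x = 0 ∧ x * e m = 0) : ∀ m, m = i := by
  intro m
  by_contra hm
  obtain ⟨x, l', rfl⟩ := List.exists_cons_of_ne_nil hne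
  have h1 := hCov R s e hF hH _ hcl m (fun z hz => h z hz m hm) x List.mem_cons_self
  exact (hl x List.mem_cons_self).1 h1

theorem Fwb_zero {α β : Option (Fin s)} {x : R} (h : Pc e α β x) {m : Fin s}
    (hα : α ≠ some m) (hβ : β ≠ some m) : e m * x = 0 ∧ x * e m = 0 := by
  have h1 := h.1 m
  have h2 := h.2 m
  rw [if_neg hα] at h1
  rw [if_neg hβ] at h2
  exact ⟨h1, h2⟩

end vertices

theorem thm_Fwb (hPat : St_Pat) (hCov : St_Cov) (hRla : St_Rla) : St_Fwb := by
  intro n R _ _ s e hC hH hs l hne hl hwp hcl
  have hpc : ∀ x ∈ l, ∃ α β, Pc e α β x ∧ (α = β → α = none) := by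
    intro x hx
    obtain ⟨_, α, β, h1, h2, _⟩ := hl x hx
    exact ⟨α, β, h1, h2⟩
  have hsome : ∀ {i m : Fin s}, m ≠ i → (some i : Option (Fin s)) ≠ some m := by
    intro i m hm h
    exact hm (Option.some.inj h).symm
  have hnone : ∀ {m : Fin s}, (none : Option (Fin s)) ≠ some m := by
    intro m h
    cases h
  rcases hPat n R s e hC l hpc hwp with ⟨x, i, j, hij, rfl, hx⟩ |
    ⟨x, y, α, β, γ, hab, hbg, hag, rfl, hx, hy⟩ | ⟨c, i, l', rfl, hc, hl'⟩ |
    ⟨b, i, l', rfl, hb, hl'⟩ | ⟨b, c, i, l', l'', rfl, hb, hc, hl', hl''⟩ | hall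
  · left
    have hxl := hl x List.mem_cons_self
    refine ⟨hH, s, e, i, j, x, hC.fam, hij, hxl.1, hx, Fwb_smp hxl hx i j rfl rfl, ?_⟩
    have hset : {z | z ∈ [x]} = ({x} : Set R) := by
      ext z
      simp
    rwa [hset] at hcl
  · right; left
    have hxl := hl x List.mem_cons_self
    have hyl := hl y (List.mem_cons_of_mem x List.mem_cons_self)
    refine ⟨hH, s, e, α, β, γ, x, y, hC.fam, hab, hbg, hag, hwp, hx, hy, Fwb_smp hxl hx,
      Fwb_smp hyl hy, ?_⟩
    have hset : {z | z ∈ [x, y]} = ({x, y} : Set R) := by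
      ext z
      simp
    rwa [hset] at hcl
  · right; right; left
    have h1 : ∀ m, m = i := by
      refine Fwb_one hCov hC.fam hH hl hne hcl ?_
      intro x hx m hm
      rcases List.mem_cons.1 hx with rfl | hx
      · exact Fwb_zero hc (hsome hm) hnone
      · exact Fwb_zero (hl' x hx) hnone hnone
    have hs1 : s = 1 := by
      have : Fintype.card (Fin s) ≤ 1 := Fintype.card_le_one_iff.2 fun a b =>
        (h1 a).trans (h1 b).symm
      rw [Fintype.card_fin] at this
      omega
    subst hs1
    have he : e = fun _ => e i := by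
      funext m
      rw [h1 m]
    refine ⟨hH, e i, c, l'.length, fun t => l'.getD t 0, he ▸ hC.fam, ?_, ?_, ?_, ?_, ?_⟩
    · have := hc.1 i
      rwa [if_pos rfl] at this
    · have := hc.2 i
      rwa [if_neg hnone] at this
    · intro t ht
      exact Fwb_zero (hl' _ (Fwb_getD_mem ht)) hnone hnone
    · rw [Fwb_prr, ← Fwb_wp_foldl]
      exact hwp
    · rw [eq_top_iff, ← hcl]
      refine NonUnitalSubring.closure_mono ?_
      rintro x (⟨m, hx⟩ | hx)
      · rw [h1 m] at hx
        exact Or.inl (Or.inl hx)
      · rcases List.mem_cons.1 hx with rfl | hx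
        · exact Or.inl (Or.inr rfl)
        · exact Or.inr (Fwb_mem_getD hx)
  · right; right; right; left
    have h1 : ∀ m, m = i := by
      refine Fwb_one hCov hC.fam hH hl hne hcl ?_
      intro x hx m hm
      rcases List.mem_append.1 hx with hx | hx
      · exact Fwb_zero (hl' x hx) hnone hnone
      · rw [List.mem_singleton] at hx
        rw [hx]
        exact Fwb_zero hb hnone (hsome hm)
    have hs1 : s = 1 := by
      have : Fintype.card (Fin s) ≤ 1 := Fintype.card_le_one_iff.2 fun a b =>
        (h1 a).trans (h1 b).symm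
      rw [Fintype.card_fin] at this
      omega
    subst hs1
    have he : e = fun _ => e i := by
      funext m
      rw [h1 m]
    have hfam : Fam R 1 (fun _ => e i) := he ▸ hC.fam
    obtain ⟨H, hH'⟩ := hH
    have hmem : ∀ x ∈ (l'.map op).reverse, ∃ a ∈ l', x = op a := by
      intro x hx
      rw [List.mem_reverse, List.mem_map] at hx
      obtain ⟨a, ha, rfl⟩ := hx
      exact ⟨a, ha, rfl⟩
    refine ⟨⟨_, Fwb_lst hH'⟩, op (e i), op b, (l'.map op).reverse.length,
      fun t => (l'.map op).reverse.getD t 0, Fwb_fam hfam, ?_, ?_, ?_, ?_, ?_⟩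
    · have := hb.2 i
      rw [if_pos rfl] at this
      rw [← op_mul, this]
    · have := hb.1 i
      rw [if_neg hnone] at this
      rw [← op_mul, this, op_zero]
    · intro t ht
      obtain ⟨a, ha, hax⟩ := hmem _ (Fwb_getD_mem ht)
      show op (e i) * (l'.map op).reverse.getD t 0 = 0 ∧ (l'.map op).reverse.getD t 0 * op (e i) = 0
      rw [hax]
      obtain ⟨h5, h6⟩ := Fwb_zero (m := i) (hl' _ ha) hnone hnone
      exact ⟨by rw [← op_mul, h6, op_zero], by rw [← op_mul, h5, op_zero]⟩
    · rw [Fwb_prr, List.foldl_reverse, ← Fwb_foldr_op]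
      intro h
      apply hwp
      rw [Fwb_wp_append l' (List.cons_ne_nil b [])]
      exact op_injective h
    · refine Fwb_closure hcl ?_
      rintro x (⟨m, hx⟩ | hx)
      · rw [h1 m] at hx
        refine Or.inl (Or.inl ⟨?_, ?_⟩)
        · rw [← op_mul, hx.2]
        · rw [← op_mul, hx.1]
      · rcases List.mem_append.1 hx with hx | hx
        · refine Or.inr (Fwb_mem_getD ?_)
          rw [List.mem_reverse]
          exact List.mem_map_of_mem hx
        · rw [List.mem_singleton] at hx
          rw [hx]
          exact Or.inl (Or.inr rfl)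
  · right; right; right; right
    have h1 : ∀ m, m = i := by
      refine Fwb_one hCov hC.fam hH hl hne hcl ?_
      intro x hx m hm
      rcases List.mem_append.1 hx with hx | hx
      · exact Fwb_zero (hl' x hx) hnone hnone
      · rcases List.mem_cons.1 hx with rfl | hx
        · exact Fwb_zero hb hnone (hsome hm)
        · rcases List.mem_cons.1 hx with rfl | hx
          · exact Fwb_zero hc (hsome hm) hnone
          · exact Fwb_zero (hl'' x hx) hnone hnone
    have hs1 : s = 1 := by
      have : Fintype.card (Fin s) ≤ 1 := Fintype.card_le_one_iff.2 fun a b =>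
        (h1 a).trans (h1 b).symm
      rw [Fintype.card_fin] at this
      omega
    have hmv : ∀ a ∈ l'', a * (b * c) + b * c * a = 0 := by
      intro a ha
      have := (hRla n R s e hC a a b b c i i (hl'' a ha) (hl'' a ha) hb hb hc).2.2.2.2.1
      rwa [mul_assoc a b c] at this
    subst hs1
    have he : e = fun _ => e i := by
      funext m
      rw [h1 m]
    have hmem : ∀ x ∈ (l' ++ l'').reverse, Pc e none none x := by
      intro x hx
      rw [List.mem_reverse, List.mem_append] at hx
      rcases hx with hx | hx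
      · exact hl' x hx
      · exact hl'' x hx
    refine ⟨hH, e i, b, c, (l' ++ l'').reverse.length, fun t => (l' ++ l'').reverse.getD t 0,
      he ▸ hC.fam, ?_, ?_, ?_, ?_, ?_, ?_, ?_⟩
    · have := hb.1 i
      rwa [if_neg hnone] at this
    · have := hb.2 i
      rwa [if_pos rfl] at this
    · have := hc.1 i
      rwa [if_pos rfl] at this
    · have := hc.2 i
      rwa [if_neg hnone] at this
    · intro t ht
      exact Fwb_zero (hmem _ (Fwb_getD_mem ht)) hnone hnone
    · rw [Fwb_pll, List.foldl_reverse, List.foldr_append]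
      have h5 : wp (l' ++ b :: c :: l'') =
          l'.foldr (fun u v => u * v) (l''.foldl (fun u v => u * v) (b * c)) := by
        rw [Fwb_wp_append l' (List.cons_ne_nil b _), Fwb_wp_foldl]
        rfl
      rw [h5] at hwp
      rcases Fwb_move (b * c) l'' hmv with h6 | h6
      · rw [h6] at hwp
        exact hwp
      · rw [h6, Fwb_foldr_neg] at hwp
        exact fun h => hwp (by rw [h, neg_zero])
    · rw [eq_top_iff, ← hcl]
      refine NonUnitalSubring.closure_mono ?_
      rintro x (⟨m, hx⟩ | hx)
      · rw [h1 m] at hx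
        exact Or.inl (Or.inl hx)
      · rcases List.mem_append.1 hx with hx | hx
        · refine Or.inr (Fwb_mem_getD ?_)
          rw [List.mem_reverse]
          exact List.mem_append_left _ hx
        · rcases List.mem_cons.1 hx with rfl | hx
          · exact Or.inl (Or.inr (Or.inl rfl))
          · rcases List.mem_cons.1 hx with rfl | hx
            · exact Or.inl (Or.inr (Or.inr rfl))
            · refine Or.inr (Fwb_mem_getD ?_)
              rw [List.mem_reverse]
              exact List.mem_append_right _ hx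
  · exfalso
    obtain ⟨x, l', rfl⟩ := List.exists_cons_of_ne_nil hne
    have h1 := hCov R s e hC.fam hH _ hcl ⟨0, hs⟩ (fun z hz => Fwb_zero (hall z hz) hnone hnone)
      x List.mem_cons_self
    exact (hl x List.mem_cons_self).1 h1

end Pool.Agent.CRN
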