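import Pool.Agent.CRN.St

/-!
Campaign CRN, `St_Gad`: the ring is additively generated by homogeneous elements.
-/

set_option autoImplicit false

namespace Pool.Agent.CRN

open Pool.Agent.CRR

theorem thm_Gad (hA : St_Pca) (hM : St_Mas) : St_Gad := by
  intro n R _ _ s e hx x
  have hf := hx.fam
  obtain ⟨-, hdec, -⟩ := hA R s e (fun i => (hf.fld i).1) hf.orth
  obtain ⟨c, hc, hsum, -, -⟩ := hdec x
  rw [← hsum]
  refine AddSubgroup.sum_mem _ fun α _ => AddSubgroup.sum_mem _ fun β _ => ?_
  have hab := hc α β
  by_cases h0 : c α β = 0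
  · rw [h0]
    exact AddSubgroup.zero_mem _
  rcases α with _ | i
  · apply AddSubgroup.subset_closure
    right
    exact ⟨h0, none, β, hab, fun _ => rfl, fun i j h => by cases h⟩
  rcases β with _ | j
  · apply AddSubgroup.subset_closure
    right
    exact ⟨h0, some i, none, hab, fun h => (by cases h), fun i j _ h => by cases h⟩
  have h1 : e i * c (some i) (some j) = c (some i) (some j) := by
    rw [hab.1 i, if_pos rfl]
  have h2 : c (some i) (some j) * e j = c (some i) (some j) := by
    rw [hab.2 j, if_pos rfl]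
  by_cases hij : i = j
  · subst hij
    apply AddSubgroup.subset_closure
    left
    exact ⟨i, h1, h2⟩
  obtain ⟨l, hl, hls⟩ := hM R (e i) (e j) (hf.fld i) (hf.fld j) _ h1 h2
  rw [← hls]
  apply AddSubgroup.list_sum_mem
  intro y hy
  obtain ⟨h3, h4, h5⟩ := hl y hy
  by_cases hy0 : y = 0
  · rw [hy0]
    exact AddSubgroup.zero_mem _
  apply AddSubgroup.subset_closure
  right
  refine ⟨hy0, some i, some j, ⟨?_, ?_⟩, ?_, ?_⟩
  · intro k
    split_ifs with h
    · cases h
      exact h3
    · rw [← h3, ← mul_assoc, hf.orth k i (fun hk => h (by rw [hk])), zero_mul]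
  · intro k
    split_ifs with h
    · cases h
      exact h4
    · rw [← h4, mul_assoc, hf.orth j k (fun hk => h (by rw [hk])), mul_zero]
  · intro h
    exact absurd (Option.some.inj h) hij
  · intro i' j' h6 h7
    cases h6
    cases h7
    exact h5

end Pool.Agent.CRN
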