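import Pool.Agent.CRN.St

/-!
Campaign CRN, module Jid: without matrix units the radical `JJ e` is an ideal of nilpotent elements.
-/

set_option autoImplicit false

namespace Pool.Agent.CRN

open Pool.Agent.CRR

section

variable {R : Type} [NonUnitalRing R]

theorem Jid_zero (hT : ¬ Twn R) (g x y : R) (hg : Fld R g) (h1 : g * x = x) (h2 : x * g = 0)
    (h3 : y * g = y) : x * y = 0 := by
  by_contra hne
  obtain ⟨w, -, -, hw⟩ := hg.2.2 (x * y) (by rw [← mul_assoc, h1]) (by rw [mul_assoc, h3]) hne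
  refine hT ⟨x, y * w, ?_, ?_, ?_⟩
  · have h4 : x * x = x * (g * x) := by rw [h1]
    rw [h4, ← mul_assoc, h2, zero_mul]
  · rw [← mul_assoc, hw, h1]
  · rintro rfl
    exact hne (zero_mul y)

theorem Jid_mul (hT : ¬ Twn R) (g x y : R) (hg : Fld R g) :
    g * (x * y) * g = (g * x * g) * (g * y * g) := by
  have hgg := hg.1
  have h := Jid_zero hT g (g * x - g * x * g) (y * g - g * y * g) hg
    (by rw [mul_sub, ← mul_assoc, ← mul_assoc, ← mul_assoc, hgg])
    (by rw [sub_mul, mul_assoc (g * x) g g, hgg, sub_self])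
    (by rw [sub_mul, mul_assoc y, mul_assoc (g * y), hgg])
  rw [sub_mul, mul_sub, mul_sub] at h
  have e1 : g * x * (y * g) = g * (x * y) * g := by simp only [mul_assoc]
  have e2 : g * x * (g * y * g) = (g * x * g) * (g * y * g) := by
    rw [mul_assoc (g * x) g, mul_assoc g y, ← mul_assoc g g, hgg]
  have e3 : g * x * g * (y * g) = (g * x * g) * (g * y * g) := by
    rw [← e2]; simp only [mul_assoc]
  rw [e1, e2, e3, sub_self, sub_zero] at h
  exact sub_eq_zero.mp h

/-- An element with square zero of a field `gRg` is zero. -/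
theorem Jid_sq (g y : R) (hg : Fld R g) (h1 : g * y = y) (h2 : y * g = y) (h3 : y * y = 0) :
    y = 0 := by
  by_contra hne
  obtain ⟨z, -, -, hz⟩ := hg.2.2 y h1 h2 hne
  apply hne
  rw [← h2, ← hz, ← mul_assoc, h3, zero_mul]

theorem Jid_idem (g y : R) (hg : Fld R g) (h1 : g * y = y) (h2 : y * g = y) (h3 : y * y = y) :
    y = 0 ∨ y = g := by
  by_contra hne
  push Not at hne
  obtain ⟨z, -, -, hz⟩ := hg.2.2 y h1 h2 hne.1
  apply hne.2
  calc y = y * g := h2.symm
    _ = y * (y * z) := by rw [hz]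
    _ = g := by rw [← mul_assoc, h3, hz]

theorem Jid_idl (hT : ¬ Twn R) (s : ℕ) (e : Fin s → R) (hf : ∀ i, Fld R (e i)) :
    Idl R (JJ e) := by
  intro r x hx
  refine ⟨fun i => ?_, fun i => ?_⟩
  · have := Jid_mul hT (e i) r x (hf i)
    rw [this, hx i, mul_zero]
  · have := Jid_mul hT (e i) x r (hf i)
    rw [this, hx i, zero_mul]

/-- `(1 - E) g (1 - E)` for idempotents `g, E` with `g E g = 0`. -/
theorem Jid_ct (g E : R) (hg : g * g = g) (hE : E * E = E) (h : g * E * g = 0) :
    ct E g * ct E g = ct E g ∧ g * ct E g * g = g := by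
  have h' : g * (E * g) = 0 := by rw [← mul_assoc, h]
  have h'' : ∀ z, g * (E * (g * z)) = 0 := by
    intro z
    rw [← mul_assoc E, ← mul_assoc g, h', zero_mul]
  have hg' : ∀ z, g * (g * z) = g * z := by
    intro z
    rw [← mul_assoc, hg]
  have hE' : ∀ z, E * (E * z) = E * z := by
    intro z
    rw [← mul_assoc, hE]
  constructor
  · simp only [ct, mul_add, mul_sub, add_mul, sub_mul, mul_assoc, hg, hE, hg', hE', h', h'',
      mul_zero]
    abel
  · simp only [ct, mul_add, mul_sub, add_mul, sub_mul, mul_assoc, hg, hE, hg', hE', h', h'',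
      mul_zero]
    abel

theorem Jid_eE (s : ℕ) (e : Fin s → R) (hid : ∀ i, e i * e i = e i)
    (horth : ∀ i j, i ≠ j → e i * e j = 0) (i : Fin s) :
    e i * (∑ j, e j) = e i ∧ (∑ j, e j) * e i = e i := by
  constructor
  · rw [Finset.mul_sum, Finset.sum_eq_single i, hid]
    · intro j _ hj
      exact horth i j hj.symm
    · intro h
      exact absurd (Finset.mem_univ i) h
  · rw [Finset.sum_mul, Finset.sum_eq_single i, hid]
    · intro j _ hj
      exact horth j i hj
    · intro h
      exact absurd (Finset.mem_univ i) h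

theorem Jid_noidem (hPrb : St_Prb) [Finite R] (hT : ¬ Twn R) (hFC : FC R) (s : ℕ)
    (e : Fin s → R) (hF : Fam R s e) (g : R) (hg : g * g = g) (hJ : g ∈ JJ e) : g = 0 := by
  by_contra hne
  obtain ⟨g', hP, h1, -⟩ := hPrb R g hg hne
  have hI := Jid_idl hT s e hF.fld
  have hg'J : g' ∈ JJ e := by
    rw [← h1]
    exact (hI g' g hJ).2
  have hg'F : Fld R g' := hFC g' hP
  have hgg : g' * g' = g' := hP.1
  have h2 : ∀ i, g' * e i * g' = 0 := by
    intro i
    refine Jid_sq g' _ hg'F ?_ ?_ ?_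
    · rw [← mul_assoc, ← mul_assoc, hgg]
    · rw [mul_assoc, hgg]
    · have h3 : g' * e i * g' * (g' * e i * g') = g' * (e i * (g' * g') * e i) * g' := by
        simp only [mul_assoc]
      rw [h3, hgg, hg'J i, mul_zero, zero_mul]
  have hEe := Jid_eE s e (fun i => (hF.fld i).1) hF.orth
  have hEE : (∑ j, e j) * (∑ j, e j) = ∑ j, e j := by
    rw [Finset.sum_mul]
    exact Finset.sum_congr rfl fun i _ => (hEe i).1
  have h3 : g' * (∑ j, e j) * g' = 0 := by
    rw [Finset.mul_sum, Finset.sum_mul]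
    exact Finset.sum_eq_zero fun i _ => h2 i
  obtain ⟨h4, h5⟩ := Jid_ct g' (∑ j, e j) hgg hEE h3
  have h6 : ct (∑ j, e j) g' = 0 := by
    refine hF.max _ h4 fun i => ⟨?_, ?_⟩
    · simp only [ct, mul_add, mul_sub, ← mul_assoc, (hEe i).1]
      abel
    · simp only [ct, add_mul, sub_mul, mul_assoc, (hEe i).2]
      abel
  rw [h6, mul_zero, zero_mul] at h5
  exact hP.2.1 h5.symm

end

theorem thm_Jid (hPws : St_Pws) (hPrb : St_Prb) : St_Jid := by
  intro n R _ _ s e hC
  have hI : Idl R (JJ e) := Jid_idl hC.nt s e hC.fam.fld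
  have hno : ∀ g, g * g = g → g ∈ JJ e → g = 0 := fun g hg hJ =>
    Jid_noidem hPrb hC.nt hC.fc s e hC.fam g hg hJ
  refine ⟨hI, ?_, ?_, ?_, ?_, ?_, hno⟩
  · intro x hx
    have hp : ∀ k, pw x k ∈ JJ e := by
      intro k
      induction k with
      | zero => exact hx
      | succ k ih => exact (hI _ _ hx).1
    obtain ⟨h1, -, -, h4, -⟩ := hPws n hC.n4 R hC.inM x
    exact h4 (hno _ h1 (hp _))
  · intro i x y
    exact Jid_mul hC.nt (e i) x y (hC.fam.fld i)
  · intro i β x y hβ hx hy
    refine Jid_zero hC.nt (e i) x y (hC.fam.fld i) ?_ ?_ ?_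
    · rw [hx.1 i, if_pos rfl]
    · rw [hx.2 i, if_neg hβ]
    · rw [hy.2 i, if_pos rfl]
  · intro α β x hx hαβ i
    by_cases hα : α = some i
    · have hβ : β ≠ some i := by
        intro h
        have := hαβ (hα.trans h.symm)
        rw [hα] at this
        exact absurd this (by simp)
      rw [mul_assoc, hx.2 i, if_neg hβ, mul_zero]
    · rw [hx.1 i, if_neg hα, zero_mul]
  · intro g hg i
    have hii := (hC.fam.fld i).1
    refine Jid_idem (e i) _ (hC.fam.fld i) ?_ ?_ ?_
    · rw [← mul_assoc, ← mul_assoc, hii]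
    · rw [mul_assoc, hii]
    · rw [← Jid_mul hC.nt (e i) g g (hC.fam.fld i), hg]

end Pool.Agent.CRN
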