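import Pool.Agent.CRN.St

/-!
Campaign CRN, module Let: the letter lemma.
-/

set_option autoImplicit false

namespace Pool.Agent.CRN

open Pool.Agent.CRR

/-! ### Substitution -/

/-- substitution of terms for the variables -/
def LetSubst (σ : ℕ → RTerm) : RTerm → RTerm
  | .var i => σ i
  | .add s t => .add (LetSubst σ s) (LetSubst σ t)
  | .neg s => .neg (LetSubst σ s)
  | .mul s t => .mul (LetSubst σ s) (LetSubst σ t)

theorem LetSubst_eval {R : Type} [NonUnitalRing R] (σ : ℕ → RTerm) (v : ℕ → R) (t : RTerm) :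
    (LetSubst σ t).eval v = t.eval (fun i => (σ i).eval v) := by
  induction t with
  | var i => rfl
  | add s t hs ht => simp [LetSubst, RTerm.eval, hs, ht]
  | neg s hs => simp [LetSubst, RTerm.eval, hs]
  | mul s t hs ht => simp [LetSubst, RTerm.eval, hs, ht]

/-- the sum of the variables with the numbers `pair i j`, `j ≤ M` -/
def LetSum (i : ℕ) : ℕ → RTerm
  | 0 => .var (Nat.pair i 0)
  | M + 1 => .add (LetSum i M) (.var (Nat.pair i (M + 1)))

theorem LetSum_eval {R : Type} [NonUnitalRing R] (i M : ℕ) (v : ℕ → R) :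
    (LetSum i M).eval v = ∑ j ∈ Finset.range (M + 1), v (Nat.pair i j) := by
  induction M with
  | zero => simp [LetSum, RTerm.eval]
  | succ M ih =>
    rw [Finset.sum_range_succ, ← ih]
    rfl

theorem Let_getD_sum {R : Type} [AddCommMonoid R] (l : List R) (N : ℕ) (h : l.length ≤ N) :
    ∑ j ∈ Finset.range N, l.getD j 0 = l.sum := by
  induction l generalizing N with
  | nil => simp
  | cons a l ih =>
    obtain ⟨N, rfl⟩ : ∃ N', N = N' + 1 := ⟨N - 1, by simp at h; omega⟩
    rw [Finset.sum_range_succ']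
    simp only [List.getD_cons_succ, List.getD_cons_zero, List.sum_cons]
    rw [ih N (by simpa using h), add_comm]

theorem Let_sums {R : Type} [NonUnitalRing R] [Finite R] (G : Set R) (h0 : (0 : R) ∈ G)
    (hG : ∀ x : R, x ∈ AddSubgroup.closure G) :
    ∃ (M : ℕ) (g : R → ℕ → R), (∀ r j, g r j ∈ G) ∧
      ∀ r, ∑ j ∈ Finset.range (M + 1), g r j = r := by
  have h1 : ∀ r : R, ∃ l : List R, (∀ x ∈ l, x ∈ G) ∧ l.sum = r := by
    intro r
    have h2 : r ∈ AddSubmonoid.closure G := by
      rw [← AddSubgroup.closure_toAddSubmonoid_of_finite]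
      exact hG r
    exact AddSubmonoid.exists_list_of_mem_closure h2
  choose l hl hs using h1
  cases nonempty_fintype R
  refine ⟨Finset.univ.sup fun r => (l r).length, fun r j => (l r).getD j 0, ?_, ?_⟩
  · intro r j
    show (l r).getD j 0 ∈ G
    by_cases hj : j < (l r).length
    · rw [List.getD_eq_getElem _ _ hj]
      exact hl r _ (List.getElem_mem hj)
    · rw [List.getD_eq_default _ _ (not_lt.1 hj)]
      exact h0
  · intro r
    rw [Let_getD_sum, hs]
    have h : (l r).length ≤ Finset.univ.sup fun r => (l r).length :=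
      Finset.le_sup (f := fun r => (l r).length) (Finset.mem_univ r)
    omega

/-! ### Good pairs -/

/-- the identity `s = t` holds in all smaller factors -/
def LetGood (R : Type) [NonUnitalRing R] (s t : RTerm) : Prop :=
  ∀ (F : Type) [NonUnitalRing F], IsFactor R F → Nat.card F < Nat.card R → Holds F s t

theorem LetGood.subst {R : Type} [NonUnitalRing R] {s t : RTerm} (h : LetGood R s t)
    (σ : ℕ → RTerm) : LetGood R (LetSubst σ s) (LetSubst σ t) := by
  intro F _ hF hlt v
  rw [LetSubst_eval, LetSubst_eval]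
  exact h F hF hlt _

/-- first step -/
theorem Let_one {R : Type} [NonUnitalRing R] (hc : Critical R) (G : Set R) (h0 : (0 : R) ∈ G)
    (hG : ∀ x : R, x ∈ AddSubgroup.closure G) :
    ∃ (s t : RTerm) (v : ℕ → R), LetGood R s t ∧ (∀ i, v i ∈ G) ∧ s.eval v ≠ t.eval v := by
  have hfin := hc.1
  obtain ⟨s, t, h1, h2⟩ := critical_exists hc
  obtain ⟨M, g, hg, hs⟩ := Let_sums G h0 hG
  have h3 : ∃ r : ℕ → R, s.eval r ≠ t.eval r := by
    by_contra hcon
    push Not at hcon
    exact h2 hcon
  obtain ⟨r, hr⟩ := h3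
  refine ⟨LetSubst (fun i => LetSum i M) s, LetSubst (fun i => LetSum i M) t,
    fun m => g (r (Nat.unpair m).1) (Nat.unpair m).2, LetGood.subst h1 _, fun i => hg _ _, ?_⟩
  rw [LetSubst_eval, LetSubst_eval]
  have h4 : (fun i => (LetSum i M).eval
      fun m => g (r (Nat.unpair m).1) (Nat.unpair m).2) = r := by
    funext i
    rw [LetSum_eval]
    simp only [Nat.unpair_pair]
    exact hs (r i)
  rw [h4]
  exact hr

/-! ### Components -/

open Classical in
/-- the component of the value of a term at `v` with the content `Y` -/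
noncomputable def LetA {R : Type} [NonUnitalRing R] [Fintype R] (Z : Finset R) (v : ℕ → R) :
    RTerm → Finset R → R
  | .var i, Y => if (if v i ∈ Z then {v i} else ∅) = Y then v i else 0
  | .add s t, Y => LetA Z v s Y + LetA Z v t Y
  | .neg s, Y => -LetA Z v s Y
  | .mul s t, Y => ∑ X₁ : Finset R, ∑ X₂ : Finset R,
      if X₁ ∪ X₂ = Y then LetA Z v s X₁ * LetA Z v t X₂ else 0

open Classical in
/-- the letters outside of `Y` are replaced by zero -/
noncomputable def LetV {R : Type} [NonUnitalRing R] (Z : Finset R) (v : ℕ → R) (Y : Finset R)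
    (i : ℕ) : R := if v i ∈ Z ∧ v i ∉ Y then 0 else v i

open Classical in
theorem LetA_sum {R : Type} [NonUnitalRing R] [Fintype R] (Z : Finset R) (v : ℕ → R)
    (τ : RTerm) (Y : Finset R) : ∑ X ∈ Y.powerset, LetA Z v τ X = τ.eval (LetV Z v Y) := by
  induction τ with
  | var i =>
    show ∑ X ∈ Y.powerset, (if (if v i ∈ Z then {v i} else ∅) = X then v i else 0) = LetV Z v Y i
    rw [Finset.sum_ite_eq]
    unfold LetV
    by_cases h : v i ∈ Z
    · by_cases h' : v i ∈ Y
      · simp [h, h']
      · simp [h, h']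
    · simp [h]
  | add s t hs ht =>
    show ∑ X ∈ Y.powerset, (LetA Z v s X + LetA Z v t X) = _
    rw [Finset.sum_add_distrib, hs, ht]
    rfl
  | neg s hs =>
    show ∑ X ∈ Y.powerset, (-LetA Z v s X) = _
    rw [Finset.sum_neg_distrib, hs]
    rfl
  | mul s t hs ht =>
    show ∑ X ∈ Y.powerset, (∑ X₁ : Finset R, ∑ X₂ : Finset R,
      if X₁ ∪ X₂ = X then LetA Z v s X₁ * LetA Z v t X₂ else 0) = _
    rw [Finset.sum_comm]
    have h1 : ∀ X₁ : Finset R, ∑ X ∈ Y.powerset, (∑ X₂ : Finset R,
        if X₁ ∪ X₂ = X then LetA Z v s X₁ * LetA Z v t X₂ else 0) =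
        ∑ X₂ : Finset R, if X₁ ∪ X₂ ⊆ Y then LetA Z v s X₁ * LetA Z v t X₂ else 0 := by
      intro X₁
      rw [Finset.sum_comm]
      refine Finset.sum_congr rfl fun X₂ _ => ?_
      rw [Finset.sum_ite_eq]
      simp only [Finset.mem_powerset]
    simp only [h1]
    show _ = s.eval (LetV Z v Y) * t.eval (LetV Z v Y)
    rw [← hs, ← ht, Finset.sum_mul_sum]
    have h2 : ∀ f : Finset R → R, ∑ X ∈ Y.powerset, f X = ∑ X : Finset R, if X ⊆ Y then f X else 0 := by
      intro f
      rw [← Finset.sum_filter]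
      refine Finset.sum_congr ?_ fun _ _ => rfl
      ext X
      simp
    rw [h2]
    refine Finset.sum_congr rfl fun X₁ _ => ?_
    rw [h2]
    by_cases h : X₁ ⊆ Y
    · rw [if_pos h]
      refine Finset.sum_congr rfl fun X₂ _ => ?_
      simp [Finset.union_subset_iff, h]
    · rw [if_neg h]
      refine Finset.sum_eq_zero fun X₂ _ => ?_
      rw [if_neg]
      exact fun h' => h (Finset.union_subset_iff.1 h').1

/-- the group generated by the words with all letters of `Y` -/
def LetW {R : Type} [NonUnitalRing R] (G₀ : Set R) (Z Y : Finset R) : AddSubgroup R :=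
  AddSubgroup.closure {x | ∃ w : List R, w ≠ [] ∧ (∀ g ∈ w, g ∈ G₀ ∨ g ∈ Z) ∧ (∀ z ∈ Y, z ∈ w) ∧
    wp w = x}

theorem Let_wp_append {R : Type} [NonUnitalRing R] (w w' : List R) (h : w ≠ []) (h' : w' ≠ []) :
    wp (w ++ w') = wp w * wp w' := by
  induction w with
  | nil => exact absurd rfl h
  | cons x l ih =>
    cases l with
    | nil =>
      cases w' with
      | nil => exact absurd rfl h'
      | cons y l' => rfl
    | cons y l =>
      have h1 := ih (by simp)
      show x * wp (y :: l ++ w') = (x * wp (y :: l)) * wp w'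
      rw [h1, mul_assoc]

theorem LetW_mul {R : Type} [NonUnitalRing R] [DecidableEq R] (G₀ : Set R) (Z X₁ X₂ : Finset R)
    {a b : R} (ha : a ∈ LetW G₀ Z X₁) (hb : b ∈ LetW G₀ Z X₂) : a * b ∈ LetW G₀ Z (X₁ ∪ X₂) := by
  unfold LetW at ha
  induction ha using AddSubgroup.closure_induction with
  | mem x hx =>
    obtain ⟨w, h1, h2, h3, rfl⟩ := hx
    unfold LetW at hb
    induction hb using AddSubgroup.closure_induction with
    | mem y hy =>
      obtain ⟨w', h1', h2', h3', rfl⟩ := hy
      refine AddSubgroup.subset_closure ⟨w ++ w', by simp [h1], ?_, ?_,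
        Let_wp_append w w' h1 h1'⟩
      · intro g hg
        rcases List.mem_append.1 hg with h | h
        · exact h2 g h
        · exact h2' g h
      · intro z hz
        rcases Finset.mem_union.1 hz with h | h
        · exact List.mem_append.2 (Or.inl (h3 z h))
        · exact List.mem_append.2 (Or.inr (h3' z h))
    | zero => rw [mul_zero]; exact AddSubgroup.zero_mem _
    | add x y _ _ hx hy => rw [mul_add]; exact AddSubgroup.add_mem _ hx hy
    | neg x _ hx => rw [mul_neg]; exact AddSubgroup.neg_mem _ hx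
  | zero => rw [zero_mul]; exact AddSubgroup.zero_mem _
  | add x y _ _ hx hy => rw [add_mul]; exact AddSubgroup.add_mem _ hx hy
  | neg x _ hx => rw [neg_mul]; exact AddSubgroup.neg_mem _ hx

open Classical in
theorem LetA_mem {R : Type} [NonUnitalRing R] [Fintype R] (G₀ : Set R) (Z : Finset R) (v : ℕ → R)
    (hv : ∀ i, v i ∈ G₀ ∨ v i ∈ Z) (τ : RTerm) (Y : Finset R) : LetA Z v τ Y ∈ LetW G₀ Z Y := by
  induction τ generalizing Y with
  | var i =>
    show (if (if v i ∈ Z then {v i} else ∅) = Y then v i else 0) ∈ LetW G₀ Z Y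
    by_cases h : (if v i ∈ Z then {v i} else ∅) = Y
    · rw [if_pos h]
      refine AddSubgroup.subset_closure ⟨[v i], by simp, ?_, ?_, rfl⟩
      · intro g hg
        rw [List.mem_singleton] at hg
        rw [hg]
        exact hv i
      · intro z hz
        rw [← h] at hz
        by_cases h' : v i ∈ Z
        · rw [if_pos h', Finset.mem_singleton] at hz
          rw [hz]
          simp
        · rw [if_neg h'] at hz
          simp at hz
    · rw [if_neg h]
      exact AddSubgroup.zero_mem _
  | add s t hs ht => exact AddSubgroup.add_mem _ (hs Y) (ht Y)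
  | neg s hs => exact AddSubgroup.neg_mem _ (hs Y)
  | mul s t hs ht =>
    show (∑ X₁ : Finset R, ∑ X₂ : Finset R,
      if X₁ ∪ X₂ = Y then LetA Z v s X₁ * LetA Z v t X₂ else 0) ∈ LetW G₀ Z Y
    refine AddSubgroup.sum_mem _ fun X₁ _ => AddSubgroup.sum_mem _ fun X₂ _ => ?_
    by_cases h : X₁ ∪ X₂ = Y
    · rw [if_pos h, ← h]
      exact LetW_mul G₀ Z X₁ X₂ (hs X₁) (ht X₂)
    · rw [if_neg h]
      exact AddSubgroup.zero_mem _

theorem thm_Let : St_Let := by
  classical
  intro R _ hc G₀ G₁ h0 hG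
  have hfin := hc.1
  cases nonempty_fintype R
  -- the possible sets
  let P : Finset R → Prop := fun Z => (Z : Set R) ⊆ G₁ ∧ ∃ (s t : RTerm) (v : ℕ → R),
    LetGood R s t ∧ (∀ i, v i ∈ G₀ ∨ v i ∈ Z) ∧ s.eval v ≠ t.eval v
  have hex : ∃ k, ∃ Z : Finset R, P Z ∧ Z.card = k := by
    obtain ⟨s, t, v, h1, h2, h3⟩ := Let_one hc (G₀ ∪ G₁) (Or.inl h0) hG
    refine ⟨_, G₁.toFinset, ⟨by simp, s, t, v, h1, ?_, h3⟩, rfl⟩
    intro i
    rcases h2 i with h | h
    · exact Or.inl h
    · exact Or.inr (by simpa using h)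
  obtain ⟨Z, ⟨hZ1, s, t, v, hgood, hv, hne⟩, hZc⟩ := Nat.find_spec hex
  have hmin : ∀ Y : Finset R, Y ⊂ Z → ∀ v' : ℕ → R, (∀ i, v' i ∈ G₀ ∨ v' i ∈ Y) →
      s.eval v' = t.eval v' := by
    intro Y hY v' hv'
    by_contra hcon
    refine Nat.find_min hex (m := Y.card) ?_ ⟨Y, ⟨?_, s, t, v', hgood, hv', hcon⟩, rfl⟩
    · rw [← hZc]
      exact Finset.card_lt_card hY
    · exact fun x hx => hZ1 (hY.1 hx)
  refine ⟨Z, hZ1, ?_, ?_⟩
  · by_contra hS
    apply hne
    have h1 := hgood _ (isFactor_subring (NonUnitalSubring.closure (G₀ ∪ (Z : Set R))))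
      (subring_card_lt _ hS)
    rw [holds_subring_iff] at h1
    refine h1 v fun i => NonUnitalSubring.subset_closure ?_
    rcases hv i with h | h
    · exact Or.inl h
    · exact Or.inr (by exact_mod_cast h)
  · have hVZ : LetV Z v Z = v := by
      funext i
      unfold LetV
      rw [if_neg]
      exact fun h => h.2 h.1
    have hV : ∀ Y i, LetV Z v Y i ∈ G₀ ∨ LetV Z v Y i ∈ Y := by
      intro Y i
      unfold LetV
      by_cases h : v i ∈ Z ∧ v i ∉ Y
      · rw [if_pos h]
        exact Or.inl h0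
      · rw [if_neg h]
        rcases hv i with h' | h'
        · exact Or.inl h'
        · by_cases h'' : v i ∈ Y
          · exact Or.inr h''
          · exact absurd ⟨h', h''⟩ h
    have hss : ∀ (τ : RTerm) (Y : Finset R), LetA Z v τ Y =
        τ.eval (LetV Z v Y) - ∑ X ∈ Y.ssubsets, LetA Z v τ X := by
      intro τ Y
      have h1 := LetA_sum Z v τ Y
      have h2 := Finset.sum_erase_add Y.powerset (LetA Z v τ) (Finset.mem_powerset_self Y)
      rw [h1] at h2
      rw [← h2]
      show _ = (∑ X ∈ Y.ssubsets, LetA Z v τ X) + LetA Z v τ Y - _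
      abel
    have hind : ∀ Y : Finset R, Y ⊂ Z → LetA Z v s Y = LetA Z v t Y := by
      intro Y
      induction Y using Finset.strongInduction with
      | H Y ih =>
        intro hY
        rw [hss s Y, hss t Y, hmin Y hY _ (hV Y)]
        congr 1
        refine Finset.sum_congr rfl fun X hX => ?_
        have hX' := Finset.mem_ssubsets.1 hX
        exact ih X hX' (hX'.trans hY)
    have hfinal : LetA Z v s Z - LetA Z v t Z ≠ 0 := by
      rw [hss s Z, hss t Z, hVZ]
      have h1 : ∑ X ∈ Z.ssubsets, LetA Z v s X = ∑ X ∈ Z.ssubsets, LetA Z v t X :=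
        Finset.sum_congr rfl fun X hX => hind X (Finset.mem_ssubsets.1 hX)
      rw [h1]
      intro h2
      apply hne
      have h3 : s.eval v - t.eval v = 0 := by
        rw [← h2]
        abel
      exact sub_eq_zero.1 h3
    have hmem : LetA Z v s Z - LetA Z v t Z ∈ LetW G₀ Z Z :=
      AddSubgroup.sub_mem _ (LetA_mem G₀ Z v hv s Z) (LetA_mem G₀ Z v hv t Z)
    by_contra hcon
    apply hfinal
    have hbot : LetW G₀ Z Z ≤ ⊥ := by
      unfold LetW
      rw [AddSubgroup.closure_le]
      rintro x ⟨w, h1, h2, h3, rfl⟩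
      by_contra h4
      exact hcon ⟨w, h1, h2, h3, fun h5 => h4 (by rw [h5]; exact AddSubgroup.zero_mem _)⟩
    exact (AddSubgroup.mem_bot.1 (hbot hmem))

end Pool.Agent.CRN
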