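import Pool.Agent.CRN.Defs

/-!
Campaign CRN (problem MP_1bb14d_al): the critical rings of the variety `x^3 = x^n` with
noncommutative `R / J(R)`, and the non-nilpotent ones such that `eRe` is a field for every primitive
idempotent `e` (this is automatic for even `n`).  Frozen statements.

Every module `Pool/Agent/CRN/<X>.lean` imports this file and proves `theorem thm_<X> : St_<X>`; the
hypotheses (other statements `St_<Y>`) named in the docstring may be used as arguments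
(`theorem thm_<X> (hY : St_<Y>) : St_<X>`).  Own lemmas have names which start with the name of the
module.  The docstrings contain the proofs.

Plan.  A nilpotent element `x` of a ring `R` of the variety has `x^3 = 0` (`Pws`).  This is used for sums
of elements of different Peirce components.

Part 1 (`Twn R`): matrix units `e, f, u, v` with a field `eRe` (`Twa`); a third idempotent gives
`R = M_3(F)` (`Twb`), otherwise `R = M_2(F)` or `[M_2(F) M; 0 D]` or the opposite (`Twc`-`Twg`).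

Part 2 (not `Twn R`): for a maximal orthogonal family of primitive idempotents `e_i` the set `JJ` of
the `x` with `e_i x e_i = 0` for all `i` is an ideal of nilpotent elements (`Jid`).  A critical ring is
generated by elements of the fields and homogeneous elements (letters) such that some word which
contains all letters is not zero (`Let`).  By `x^3 = 0` there are only few words which are not zero
(`Rla`, `Rlb`, `Pat`).

Part 3: the rings of the list are critical.  Criterion `Crg`: a term function with values in the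
least ideal which vanishes on proper subrings.  The term functions are products of components of
variables with respect to idempotent terms (`Eo`), and of the terms `dq` which are not zero only at
generators of a field.
-/

set_option autoImplicit false

namespace Pool.Agent.CRN

open Pool.Agent.CRR

/-! ### General facts -/

/-- **PWS.**  PROOF.  `pw x a * pw x b = pw x (a + b + 1)`.  Write `x^m` for `pw x (m - 1)`, `N = n - 3`, so
`x^3 = x^(3+N)`, hence `x^(m+N) = x^m` for `m ≥ 3` and `x^(m + j N) = x^m`.  `om n x = x^(3N)`, `3 N ≥ 3`.  The last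
item: `y = x^(3N-1) = pw x (3N-2)` (`3N - 1 ≥ 2`). -/
def St_Pws : Prop := ∀ n : ℕ, 4 ≤ n → ∀ (R : Type) [NonUnitalRing R], InM n R → ∀ x : R,
  om n x * om n x = om n x ∧ x * om n x = om n x * x ∧ x * x * x * om n x = x * x * x ∧
  (om n x = 0 → x * x * x = 0) ∧ (∀ m, pw x m = 0 → x * x * x = 0) ∧
  (∀ y, y * x = 0 → y * om n x = 0) ∧ (∀ y, x * y = 0 → om n x * y = 0) ∧
  (∀ y, y * x = x → y * om n x = om n x) ∧ (∀ y, x * y = x → om n x * y = om n x) ∧
  (x * x = x → om n x = x) ∧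
  ∃ y, x * y = om n x ∧ y * x = om n x ∧ (∀ g, g * x = x → g * y = y) ∧ ∀ g, x * g = x → y * g = y

/-- **SIR.**  PROOF.  `critical_exists`: `s, t` with `Holds F s t` for all factors of smaller order, not
`Holds R s t`.  For every nonzero ideal `I` the quotient `R / I` (`TwoSidedIdeal`, see `exists_quotient` in
`CRR/Basic.lean` for the commutative case) is such a factor, so the values of `s - t` on `R` are in `I`.  The
intersection of all nonzero ideals contains a nonzero value of `s - t`, so it is not `⊥`. -/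
def St_Sir : Prop := ∀ (R : Type) [NonUnitalRing R], Critical R → ∃ H, Lst R H

/-- **PPW.**  PROOF.  `card R = N`; let `p` be a prime with `H` having an element of order `p`.  If
`N = p^r m`, `p` not dividing `m`, then `I = {x | m • x = 0}` and `I' = {x | p^r • x = 0}` are ideals with
`I ⊓ I' = ⊥` and `I'` contains elements of order `p` of `H`, so `I' ≠ ⊥`, so `I = ⊥` (otherwise `H ≤ I ⊓ I'`);
`p^r • x` is in `I` for every `x`.  Second part: `p • e ∈ eRe`; if `p • e ≠ 0` then it is invertible in `eRe`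
and so are its powers `p^j • e`, but `p^r • e = 0`. -/
def St_Ppw : Prop := ∀ (R : Type) [NonUnitalRing R] [Finite R] (H : AddSubgroup R), Lst R H →
  ∃ p r : ℕ, p.Prime ∧ (∀ x : R, (p ^ r) • x = 0) ∧ ∀ e : R, Fld R e → p • e = 0

/-- **CRG.**  Criterion.  PROOF.  `critical_of_exists` for a term `t` with `t.eval v = φ v` and the term
`x_0 + (-x_0)`.  Let `F = f(S)` be a factor (`f : S → F` onto), not isomorphic to `R`.  If `S ≠ ⊤` the identity
holds in `S` (`holds_subring_iff`), so in `F` (`eval_map`).  If `S = ⊤`, `f` is not injective, its kernel is a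
nonzero ideal, contains `H`, so `f (φ v) = 0`. -/
def St_Crg : Prop := ∀ (R : Type) [NonUnitalRing R] [Finite R] (H : AddSubgroup R), Lst R H →
  ∀ φ : (ℕ → R) → R, TmF φ → (∀ v, φ v ∈ H) → (∃ v, φ v ≠ 0) →
  (∀ S : NonUnitalSubring R, S ≠ ⊤ → ∀ v : ℕ → R, (∀ i, v i ∈ S) → φ v = 0) → Critical R

/-- **OPP.**  PROOF.  Reverse the products in the terms; `NonUnitalSubring.op` or by hand: a factor
`F = f(S)` of `R` gives the factor `Fᵐᵒᵖ` of `Rᵐᵒᵖ`.  (`R` is isomorphic to `(Rᵐᵒᵖ)ᵐᵒᵖ`.)  `Twn`: the same `a, b`. -/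
def St_Opp : Prop := ∀ (R : Type) [NonUnitalRing R], (Critical Rᵐᵒᵖ → Critical R) ∧
  (∀ n, InM n R → InM n Rᵐᵒᵖ) ∧ (Twn Rᵐᵒᵖ → Twn R) ∧ (Finite R → FC R → FC Rᵐᵒᵖ) ∧
  ((∃ H, Lst R H) → ∃ H, Lst Rᵐᵒᵖ H)

/-- **PRB.**  PROOF.  Choose an idempotent `e ≠ 0` with `g e = e = e g` such that the number of elements of
`{x | e x = x, x e = x}` is minimal.  If `h` is an idempotent with `e h = h = h e`, `h ≠ 0`, then `h` is below `g`
and `{x | h x = x, x h = x} ⊆ {x | e x = x, x e = x}`, so they are equal by minimality, so `h e = e`, `h = e`. -/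
def St_Prb : Prop := ∀ (R : Type) [NonUnitalRing R] [Finite R] (g : R), g * g = g → g ≠ 0 →
  ∃ e, Prm R e ∧ g * e = e ∧ e * g = e

/-- **ORF** (from `St_Prb`).  PROOF.  Orthogonal families of nonzero idempotents are injective, so `s` is
bounded; take a family of primitive idempotents with `s` maximal.  If `g ≠ 0` is an idempotent orthogonal to
all `e i`, a primitive `e'` below `g` (`St_Prb`) can be added (`Fin.snoc`). -/
def St_Orf : Prop := ∀ (R : Type) [NonUnitalRing R] [Finite R], FC R →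
  ∃ (s : ℕ) (e : Fin s → R), Fam R s e

/-- **JNL.**  A nil ideal is nilpotent.  PROOF.  By hand: the subgroups `K_m` generated by the products of
`m + 1` elements of `I` decrease, so `K_m = K_(m')` for all `m' ≥ m` for some `m`; put `K = K_m`, `K K = K`
(products generate).  Suppose `K ≠ 0`.  Among the subgroups `L` with `K L ⊆ L` and `K L ≠ 0` (`K` is one) take one of
least order, `x ∈ L` with `K x ≠ 0`: `K (K x) = K x` (generated), so `K x = L`, `x = k x` for some `k ∈ K`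
(the elements of `K x` are the `k x`), and `x = k x = k k k x = 0`.  (Or `IsArtinianRing` for a finite
unital extension.) -/
def St_Jnl : Prop := ∀ (R : Type) [NonUnitalRing R] [Finite R] (I : AddSubgroup R), Idl R I →
  (∀ x ∈ I, x * x * x = 0) → ∃ m, ∀ x : ℕ → R, (∀ i, x i ∈ I) → prn x m = 0

/-- **MAS.**  PROOF.  Let `p` be the characteristic of `eRe`; if the characteristic `p'` of `fRf` is
different then `eRf = 0` (`x = e x f` is killed by `p` and `p'`).  Otherwise let `Q` be a power of `p` such that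
`a^Q = a` for all `a` in `eRe` and in `fRf` (both are finite fields, `littleWedderburn`).  Let `T` be the
(commutative) ring of additive endomorphisms of `eRf` generated by the `x ↦ a x` (`a ∈ eRe`) and
`x ↦ x b` (`b ∈ fRf`): `t^Q = t` for all `t ∈ T` (characteristic `p`, additivity of `t ↦ t^Q`).  `Bm e f x = T x`.
Induction on the order of `T x`: let `w = t x ≠ 0` with `x ∉ T w`; `ε = t^(Q-1)` is idempotent, `t ε = t`.
`x = ε x + (x - ε x)`, `T (ε x) ⊆ T w` does not contain `x`, and `T (x - ε x)` does not contain `w`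
(`ε` kills it, `ε w = w`), so both are smaller than `T x`. -/
def St_Mas : Prop := ∀ (R : Type) [NonUnitalRing R] [Finite R] (e f : R), Fld R e → Fld R f →
  ∀ x, e * x = x → x * f = x →
  ∃ l : List R, (∀ y ∈ l, e * y = y ∧ y * f = y ∧ Smp e f y) ∧ l.sum = x

/-- **MAT.**  Matrix units.  PROOF.  `F` is the subtype `{x | e x = x, x e = x}`, `e = E i₀ i₀`, a finite division
ring, so a field (`littleWedderburn`).  `φ A = ∑ i j, E i i₀ * (A i j) * E i₀ j`. -/
def St_Mat : Prop := ∀ (R : Type) [NonUnitalRing R] [Finite R] (k : ℕ) (E : Fin k → Fin k → R)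
  (i₀ : Fin k), (∀ i j l m, E i j * E l m = if j = l then E i m else 0) → Fld R (E i₀ i₀) →
  ∃ (F : Type) (_ : Field F) (_ : Finite F) (φ : Matrix (Fin k) (Fin k) F →ₙ+* R),
    Function.Injective φ ∧ φ 1 = ∑ i, E i i ∧ ∀ x : R, φ 1 * x = x → x * φ 1 = x → ∃ A, φ A = x

/-- **DLT.**  PROOF.  `K = {x | e x = x, x e = x}` is a finite field (`littleWedderburn`) of order `q = qc e`, its
unit group is cyclic of order `q - 1`.  (1) a generator `t`: all factors `t^i - t^(q-1) = t^i - e` with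
`0 < i < q - 1` are not zero (for `q = 2`: `t = e`, no factors).  (2) `t ≠ 0`, and if the order `i` of `t` is less
than `q - 1` the factor `t^i - t^(q-1) = e - e` is zero; so `t` is a generator and every element of `K` is
zero or a power of `t`.  (3), (4) by induction on `j` for `dl q t j`. -/
def St_Dlt : Prop := ∀ (R : Type) [NonUnitalRing R] [Finite R] (e : R), Fld R e →
  (∃ t, e * t = t ∧ t * e = t ∧ dq e t ≠ 0) ∧
  (∀ t, e * t = t → t * e = t → dq e t ≠ 0 →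
    ∀ x, e * x = x → x * e = x → x ∈ NonUnitalSubring.closure {t}) ∧
  (∀ g t, g * t = t → g * dq e t = dq e t) ∧ (∀ g t, t * g = t → dq e t * g = dq e t) ∧
  ∀ t : R, dq e t ∈ NonUnitalSubring.closure {t}

/-- **EOF** (from `St_Pws`).  PROOF.  Induction on `i`: `Es n u i` is idempotent, `Es i * Eo j = 0 = Eo j * Es i` for
`j ≥ i`; `ct g x` with `g` idempotent is killed by `g` on both sides, so `om n (ct g x)` is (`St_Pws`).
`Es j * Eo i = Eo i = Eo i * Es j` for `i < j`.  Last item: by induction `Es n u i = ∑ l < i, u l`,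
`ct (Es n u i) (u i) = u i`, `om n (u i) = u i`. -/
def St_Eof : Prop := ∀ n : ℕ, 4 ≤ n → ∀ (R : Type) [NonUnitalRing R], InM n R → ∀ u : ℕ → R,
  (∀ i, Eo n u i * Eo n u i = Eo n u i) ∧ (∀ i j, i ≠ j → Eo n u i * Eo n u j = 0) ∧
  ∀ m, (∀ i, i < m → u i * u i = u i) → (∀ i j, i < m → j < m → i ≠ j → u i * u j = 0) →
    ∀ i, i < m → Eo n u i = u i

/-- **NAK.**  PROOF.  Let `I = fr S J p`.  (1) `R I ⊆ I`: `r = s + j`, `s ∈ S`, `j ∈ J`; `s y ∈ S ∩ J` for
`y ∈ S ∩ J`, `j y ∈ J^2`; `r (a b) = (r a) b`, `r (p • a) = p • (r a)`.  (2) Let `J ≤ I`.  For `m` let `F_m` be the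
subgroup generated by the `p^i • (product of j elements of J)`, `i + j ≥ m`, `j ≥ 1`.  Then `J = (S ∩ J) + F_2`,
and `F_m ⊆ (S ∩ J) + F_(m+1)` for `m ≥ 1` (replace every factor of the product by an element of `S ∩ J` plus one
of `F_2`).  `F_m = 0` for large `m`.  So `J ⊆ S`, and `S = ⊤`. -/
def St_Nak : Prop := ∀ (R : Type) [NonUnitalRing R] [Finite R] (J : AddSubgroup R), Idl R J →
  (∃ m, ∀ x : ℕ → R, (∀ i, x i ∈ J) → prn x m = 0) → ∀ p r : ℕ, (∀ x : R, (p ^ r) • x = 0) →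
  ∀ S : NonUnitalSubring R, (∀ x, ∃ y ∈ S, x - y ∈ J) →
  Idl R (fr S J p) ∧ ((∀ x ∈ J, x ∈ fr S J p) → S = ⊤)

/-- **DET.**  PROOF.  `V = A ⧸ N` is a vector space over `ZMod p`, generated by the `k` classes of the `a i`,
and `f` comes from an alternating form `g` on `V` (additive in every variable, `p • f = 0` follows if `k ≥ 1`).
(1) `v l ≡ ∑ λ l i • a i` modulo `N`, so `f v = det λ • f a`.  (2) if `f a' ≠ 0` the classes of the `a' i` are linearly
independent (otherwise one of them is a combination of the others and `g` vanishes), so they are a basis.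
(For `k = 0`: `V = 0`.) -/
def St_Det : Prop := ∀ (A W : Type) [AddCommGroup A] [AddCommGroup W] (N : AddSubgroup A) (p k : ℕ),
  p.Prime → (∀ x : A, p • x ∈ N) → ∀ f : A [⋀^Fin k]→ₗ[ℤ] W, (∀ v i, v i ∈ N → f v = 0) →
  ∀ a : Fin k → A, (∀ x, x ∈ AddSubgroup.closure (Set.range a ∪ (N : Set A))) →
  (∀ v, ∃ m : ℤ, f v = m • f a) ∧
  ∀ a' : Fin k → A, f a' ≠ 0 → ∀ x, x ∈ AddSubgroup.closure (Set.range a' ∪ (N : Set A))

/-! ### Part 1: matrix units -/

/-- **TWA** (from `St_Pws`, `St_Prb`).  PROOF.  `e₀ = a b`, `f₀ = b a` are idempotent, `f₀ e₀ = 0`.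
`f₁ = f₀ - e₀ f₀` is idempotent, `e₀ f₁ = 0 = f₁ e₀`; `u₀ = a`, `v₀ = f₁ b e₀`: `e₀ a = a`, `a f₁ = a`, `a v₀ = e₀`,
`v₀ a = f₁`.  Let `e` be primitive with `e₀ e = e = e e₀` (`St_Prb`), `u = e a`, `v = v₀ e`, `f = v₀ e a`; matrix
units.  `Fld R e`: let `m ∈ eRe` with `m m m = 0`.  `x = u + v m` has `x x = m + v m u` (`u m = 0`, `m v = 0`,
`u u = 0`, `(v m) (v m) = 0`), `(x x)^3 = m^3 + v m^3 u = 0`, so `x` is nilpotent, and `0 = x x x = m u + v m m`
(`St_Pws`); times `v` on the right: `m = m u v = 0` (`v m m v = 0`).  For `x ∈ eRe`, `x ≠ 0` the idempotent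
`om n x` is in `eRe`, so `0` (then `x x x = 0`, `x = 0`) or `e`, and `St_Pws` (last item) gives the inverse. -/
def St_Twa : Prop := ∀ n : ℕ, 4 ≤ n → ∀ (R : Type) [NonUnitalRing R] [Finite R], InM n R → Twn R →
  ∃ e f u v : R, MU e f u v ∧ Fld R e

/-- **TWB** (from `St_Pws`, `St_Mat`).  PROOF.  `E = e + f + g`, `w = v u' ∈ fRg`, `a = u + w`, `a a = u w = u'`,
`a a a = 0`.  Let `E m = m`, `m E = 0`.  `x = a + m`: `x x = u' + a m`, `x x x = u' m`, `x^4 = 0`, so `u' m = 0`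
(`St_Pws`), `g m = v' u' m = 0`.  The same for `v' m`, `v' u m` instead of `m`: `g v' m = v' m = 0`, so
`e m = u' v' m = 0`; `v' u m = 0`, so `u m = 0`, `f m = v u m = 0`.  So `m = 0`.  In the same way
`m E = m`, `E m = 0` implies `m = 0` (`x = a + m`, `x x = u' + m a`, `x x x = m u'`).  So
`R = ERE + (1 - E) R (1 - E)`, both are ideals with intersection `0`, and `ERE ≠ 0`, so the second is `0`
(`Lst`).  `E` is the identity of `R`, `St_Mat` (`k = 3`, the units `e, u, u'; v, f, v u'; v', v' u, g`) gives an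
isomorphism. -/
def St_Twb : Prop := ∀ n : ℕ, 4 ≤ n → ∀ (R : Type) [NonUnitalRing R] [Finite R], InM n R →
  (∃ H, Lst R H) → ∀ e f u v g u' v' : R, MU e f u v → Fld R e → M3 e f g u' v' → MatType R 3

/-- **TWC** (from `St_Pws`).  PROOF.  `E = e + f`.  (a) `m l = 0`: otherwise `e_a (m l) e_b ≠ 0` for some
`e_a, e_b ∈ {e, f}`; multiplying `m` on the left by `e` or `u` and `l` on the right by `e` or `v` we get `x = e x`,
`x E = 0`, `y = y e`, `E y = 0` with `x y ≠ 0` in `eRe`; `x y w = e` with `w ∈ eRe`, and `g = y w x`, `u' = x`, `v' = y w`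
are a third idempotent (`M3`), contradiction.  (b) `m b = 0`: `x = m + b`: `x x = m b + b b`,
`x x x = m b b`, `x^4 = 0`, so `m b b = 0`.  `x = u + m + b`: `x x = u m + m b + b b`, `x x x = u m b`, `x^4 = 0`, so
`u m b = 0`, `f m b = v u m b = 0`; with `v` instead of `u`: `v m b = 0`, `e m b = 0`.  (b') `b l = 0` in the same way
(`x = u + l + b`, `x x x = b l u`).  (c) `l m = 0`: `x = u + m + l`: `x x = u m + l u + l m` (by (a)),
`x x x = l u m`, `x^4 = 0`, so `l u m = 0` for all such `m`, in particular for `v m`: `l e m = l u v m = 0`; with `v`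
instead of `u` and `u m`: `l f m = 0`. -/
def St_Twc : Prop := ∀ n : ℕ, 4 ≤ n → ∀ (R : Type) [NonUnitalRing R] [Finite R], InM n R →
  ∀ e f u v : R, MU e f u v → Fld R e → (∀ g u' v', ¬ M3 e f g u' v') → Rcl e f

/-- **TWD** (from `St_Mat`).  PROOF.  `E = e + f`, `M = {m | E m = m, m E = 0}`, `L = {l | E l = 0, l E = l}`.
By `Rcl` (`b = 0`) `m l = 0`, `l m = 0`; so `M` and `L` are ideals (decompose `r = E r E + E r (1-E) + (1-E) r E +
(1-E) r (1-E)`), `M ⊓ L = ⊥`, so one of them is `0` (`Lst`).  If both are `0`, `R` is the sum of the ideals `ERE ≠ 0`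
and `(1-E) R (1-E)`, so the second is `0`, `E` is the identity, and `St_Mat` (`k = 2`). -/
def St_Twd : Prop := ∀ (R : Type) [NonUnitalRing R] [Finite R], (∃ H, Lst R H) →
  ∀ e f u v : R, MU e f u v → Fld R e → Rcl e f →
  ((∀ m, (e + f) * m = m → m * (e + f) = 0 → m = 0) ∨
    (∀ l, (e + f) * l = 0 → l * (e + f) = l → l = 0)) ∧
  ((∀ m, (e + f) * m = m → m * (e + f) = 0 → m = 0) →
    (∀ l, (e + f) * l = 0 → l * (e + f) = l → l = 0) → MatType R 2)

/-- **TWE** (from `St_Pws`).  PROOF.  `E = e + f`, `M`, `D = {x | E x = 0, x E = 0}`.  `K = {d ∈ D | M d = 0}` is an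
ideal of `R` (`R = ERE + M + D`; `d d' ∈ K`, `d' d ∈ K`, `M d = 0`) with `K ⊓ M = ⊥`, `M` is an ideal, so `K = ⊥`
(`Lst`).  So `b ∈ D`, `b b b = 0` implies `b ∈ K`, `b = 0` (`Rcl` with `l = 0`).  Let `h ∈ D` be idempotent, `h ≠ 0`.
For `d ∈ D`: `(h d - h d h)^2 = 0`, so `h d = h d h`, and `d h = h d h` in the same way: `h d = d h`.  Then
`{m ∈ M | m h = m}` and `{m ∈ M | m h = 0}` are ideals of `R` with intersection `0`; if the first is `0`, then
`M h = 0`, `h ∈ K`, contradiction; so the second is `0`: `m h = m` for all `m ∈ M`, and for `d ∈ D`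
`d - h d ∈ K`, `d - d h ∈ K`, so `h` is the identity of `D`.  So `D` has at most one idempotent `≠ 0`.  If there is
none, `om n d = 0` for `d ∈ D`, `d d d = 0`, `d = 0`: take `f₀ = 0`.  Otherwise `f₀ = h`; for `d ∈ D`, `d ≠ 0`:
`om n d ≠ 0` is idempotent in `D`, so it is `h`, and `St_Pws` gives the inverse. -/
def St_Twe : Prop := ∀ n : ℕ, 4 ≤ n → ∀ (R : Type) [NonUnitalRing R] [Finite R], InM n R →
  (∃ H, Lst R H) → ∀ e f u v : R, MU e f u v → Fld R e → Rcl e f →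
  (∀ l, (e + f) * l = 0 → l * (e + f) = l → l = 0) →
  (∃ m, (e + f) * m = m ∧ m * (e + f) = 0 ∧ m ≠ 0) →
  ∃ f₀ : R, (f₀ = 0 ∨ Fld R f₀) ∧ (e + f) * f₀ = 0 ∧ f₀ * (e + f) = 0 ∧
    (∀ x, (e + f) * x = 0 → x * (e + f) = 0 → f₀ * x = x ∧ x * f₀ = x) ∧
    (f₀ ≠ 0 → ∀ m, (e + f) * m = m → m * (e + f) = 0 → m * f₀ = m)

/-- **TWF** (from `St_Mas`).  PROOF.  `M` is a nonzero ideal, so `H ≤ M`.  Suppose `M` is not contained in `H`.
Since `m = e m + v (u m)`, some `x = e x ∈ M` is not in `H`.  If `f₀ ≠ 0` we may take `x` with `Smp e f₀ x` by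
`St_Mas` (`x f₀ = x`).  Let `I` be the ideal generated by `x`: `I = N + v N`, `N = Bm e f₀ x` (for `f₀ = 0`:
`N = (eRe) x`; the ideal property: `R x R = E R E x (D or nothing)`).  `H ≤ I`.  Let `y ∈ H`, `y ≠ 0`: `e y` or
`u y` is not zero and is in `N ∩ H`; then `x` is in `Bm e f₀` of it (for `f₀ = 0`: `x = s^{-1} (s x)`), so
`x ∈ H`, contradiction. -/
def St_Twf : Prop := ∀ (R : Type) [NonUnitalRing R] [Finite R] (H : AddSubgroup R), Lst R H →
  ∀ e f u v : R, MU e f u v → Fld R e → Rcl e f →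
  (∀ l, (e + f) * l = 0 → l * (e + f) = l → l = 0) →
  (∃ m, (e + f) * m = m ∧ m * (e + f) = 0 ∧ m ≠ 0) →
  ∀ f₀ : R, (f₀ = 0 ∨ Fld R f₀) → (e + f) * f₀ = 0 → f₀ * (e + f) = 0 →
    (∀ x, (e + f) * x = 0 → x * (e + f) = 0 → f₀ * x = x ∧ x * f₀ = x) →
    (f₀ ≠ 0 → ∀ m, (e + f) * m = m → m * (e + f) = 0 → m * f₀ = m) →
  ∀ x, x ∈ H ↔ (e + f) * x = x ∧ x * (e + f) = 0

/-- **TWG** (from `St_Twa`-`St_Twf`, `St_Mat`, `St_Opp`).  PROOF.  `St_Twa`; if there is `M3` then `St_Twb`; otherwise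
`St_Twc`, `St_Twd`.  If `L = 0`, `M ≠ 0`: `St_Twe`, `St_Twf`, and `φ` from `St_Mat` (`k = 2`, `φ 1 = e + f`):
`TriType R`.  If `M = 0`, `L ≠ 0`: the same for `Rᵐᵒᵖ` with the matrix units `op e, op f, op v, op u`. -/
def St_Twg : Prop := ∀ n : ℕ, 4 ≤ n → ∀ (R : Type) [NonUnitalRing R] [Finite R], InM n R →
  (∃ H, Lst R H) → Twn R → MatType R 2 ∨ MatType R 3 ∨ TriType R ∨ TriType Rᵐᵒᵖ

/-- **RNK.**  PROOF.  The ranks of orthogonal idempotents add up (`Matrix.rank`, or dimensions of the ranges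
of the linear maps, which are independent subspaces); every rank is at least 1.  If `m = k` all ranks
are 1 and `∑ g i` has rank `k`, it is an invertible idempotent, `1`; an idempotent `g` of rank 1 is `x yᵀ`
with `y ⬝ᵥ x = 1`, `g A g = (yᵀ A x) g`. -/
def St_Rnk : Prop := ∀ (F : Type) [Field F] (k m : ℕ) (g : Fin m → Matrix (Fin k) (Fin k) F),
  (∀ i, g i * g i = g i) → (∀ i j, i ≠ j → g i * g j = 0) → (∀ i, g i ≠ 0) →
  m ≤ k ∧ (m = k → ∑ i, g i = 1 ∧ ∀ i A, ∃ c : F, g i * A * g i = c • g i)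

/-- **CM1** (from `St_Crg`, `St_Dlt`).  PROOF.  `R` is a finite field (up to isomorphism); `H = ⊤`,
`φ v = dq 1 (v 0)`. -/
def St_Cm1 : Prop := ∀ (R : Type) [NonUnitalRing R], MatType R 1 → Critical R

/-- **CM2** (from `St_Crg`, `St_Dlt`, `St_Eof`, `St_Rnk`).  PROOF.  It is enough to treat `R = M_2(F)` (`Critical.congr`,
`InM.congr`; `H = ⊤` is the least nonzero ideal).  `E i = Eo n (fun i => v i) i`, `i = 0, 1`;
`φ v = dq E₁₁ (E 0 * v 2 * E 0) * (E 0 * v 3 * E 1 * v 4 * E 0)`, `E₁₁` the matrix unit.  Not zero at the matrix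
units `v 0 = E₁₁, v 1 = E₂₂, v 3 = E₁₂, v 4 = E₂₁`, `v 2 = t` from `St_Dlt`.  Let the `v i` be in a subring `S` and
`φ v ≠ 0`.  `E 0, E 1` are not zero, so by `St_Rnk` `E 0 + E 1 = 1`, `(E i) R (E i) = F (E i)`; so `Fld R (E 0)`,
`qc (E 0) = qc E₁₁ = card F`, and `St_Dlt` (2) for `E 0` gives `F (E 0) ⊆ S`.  `r 0 = c 0 = E 0`,
`r 1 = E 0 v 3 E 1`, `r 1 * (E 1 v 4 E 0) = κ^{-1} E 0`, `c 1 = κ (E 1 v 4 E 0)`, all in `S`; `c i r i = E i` (an idempotent
`≠ 0` in `F (E i)`), and `E i x E j = c i (r i x c j) r j ∈ S` since `r i x c j ∈ F (E 0)`.  So `S = ⊤`. -/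
def St_Cm2 : Prop := ∀ n : ℕ, 4 ≤ n → ∀ (R : Type) [NonUnitalRing R], InM n R → MatType R 2 →
  Critical R

/-- **CM3** (from `St_Crg`, `St_Dlt`, `St_Eof`, `St_Rnk`).  PROOF.  As `St_Cm2`, with
`φ v = dq E₁₁ (E 0 * v 3 * E 0) * (E 0 * v 4 * E 1 * v 5 * E 2 * v 6 * E 0)`. -/
def St_Cm3 : Prop := ∀ n : ℕ, 4 ≤ n → ∀ (R : Type) [NonUnitalRing R], InM n R → MatType R 3 →
  Critical R

/-- **TRF.**  Facts for `TriType`.  Notation: `e = φ 1`.  PROOF.  (1) `x y e = x e y e` (as `y e = e y e`), so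
`x ↦ e x e` is multiplicative: `e x y e = e x (e y e) = (e x e) (e y e)`.  (2) `x ↦ f x f` is multiplicative:
for `f = 0` clear; `f x y f = f (x y) f`, and `f x = f x f` (`f x = f x e + f x (1-e)`, `f x e = f e x e = 0`,
`f x (1-e) ∈ D`, so it is `f x (1-e) f = f x f`).  (3) `m m' = 0`, clear (`m' = e m'`).
(4) `x - e x e - f x f ∈ H`: it is `e x (1-e)`, since `(1-e) x e = 0` and `(1-e) x (1-e) ∈ D` equals `f x f`.
(5) if `f ≠ 0`, `m f = m` for `m ∈ H`: `{m ∈ H | m f = m}`, `{m ∈ H | m f = 0}` are ideals; if the first is `0`,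
then `H f = 0`, and `D = {x | e x = 0, x e = 0}` is an ideal, `≠ 0`, so it contains `H`, contradiction; so `H` is
the first (least). -/
def St_Trf : Prop := ∀ (R : Type) [NonUnitalRing R] [Finite R] (F : Type) [Field F] [Finite F]
  (φ : Matrix (Fin 2) (Fin 2) F →ₙ+* R) (f : R) (H : AddSubgroup R), Function.Injective φ →
    (∀ x : R, φ 1 * x = x → x * φ 1 = x → ∃ A, φ A = x) → (∀ x : R, x * φ 1 = φ 1 * x * φ 1) →
    (f = 0 ∨ Fld R f) → φ 1 * f = 0 → f * φ 1 = 0 →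
    (∀ x : R, φ 1 * x = 0 → x * φ 1 = 0 → f * x = x ∧ x * f = x) →
    Lst R H → (∀ x : R, x ∈ H ↔ φ 1 * x = x ∧ x * φ 1 = 0) →
  (∀ x y, φ 1 * (x * y) * φ 1 = (φ 1 * x * φ 1) * (φ 1 * y * φ 1)) ∧
  (∀ x y, f * (x * y) * f = (f * x * f) * (f * y * f)) ∧ (∀ x ∈ H, ∀ y ∈ H, x * y = 0) ∧
  (∀ x, x - φ 1 * x * φ 1 - f * x * f ∈ H) ∧ (f ≠ 0 → ∀ x ∈ H, x * f = x)

/-- **CTR** (from `St_Crg`, `St_Dlt`, `St_Eof`, `St_Rnk`, `St_Trf`).  PROOF.  Notation of `St_Trf`, `e = φ 1`, `g₁ = φ E₁₁`,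
`g₂ = φ E₂₂`; `E i = Eo n (fun i => v i) i`.  Case `f = 0`: with `w = dq g₁ (E 0 * v 3 * E 0)`,
`x' = E 0 * v 6 - E 0 * v 6 * E 0 - E 0 * v 6 * E 1`,
`φ v = w * (E 0 * v 4 * E 1 * v 5 * E 0) * x'`.  Case `f ≠ 0`: `x' = E 0 * v 6 * E 2`,
`φ v = w * (E 0 * v 4 * E 1 * v 5 * E 0) * x' * dq f (E 2 * v 7 * E 2)`.
Values in `H`: modulo `H` (i.e. `e φ(v) e = 0` and `f φ(v) f = 0`; `St_Trf` (4), and `φ(v) - .. ∈ H`): if the component
`e (E 0 v 4 E 1 ..) e ≠ 0` then `e (E 0) e`, `e (E 1) e` are orthogonal idempotents `≠ 0` of `M_2(F)`, so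
`e (E 0 + E 1) e = e` and `e (E 2) e = 0` (`St_Rnk`), so `e x' e = 0`; and one of `f (E 0) f`, `f (E 1) f` is `0`.
Not zero: `v 0 = g₁, v 1 = g₂, v 2 = f, v 4 = φ E₁₂, v 5 = φ E₂₁`, `v 6 = g₁ m ≠ 0` (`m ∈ H`), `v 3, v 7` from `St_Dlt`
(`w`, `dq f ..` are invertible in the fields `g₁ R g₁`, `fRf`; `m f = m`).
Let the `v i` be in a subring `S`, `φ v ≠ 0`, so `φ v ∈ H ∩ S`.  `E 0, E 1 ≠ 0`.  `e (E 0) e ≠ 0` and `e (E 1) e ≠ 0`:
if `e (E 0) e = 0` then by `E 0 v 4 E 1 v 5 E 0 ≠ 0` (it is in `e .. e + f .. f + H`)...: more precisely let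
`x = E 0 v 4 E 1`, `y = E 1 v 5 E 0`, `x y ≠ 0`.  If `e (E 0) e = 0`, `f (E 0) f = f` (else `E 0 ∈ H`, `E 0 = E 0 E 0 = 0`),
so `f (E 1) f = 0`, `E 1 = e (E 1) e + h`, and `(E 0) r (E 1) = 0` since `E 0 = f + h'`, `f R e = 0`, `f R H = 0`,
`H R e = 0`, `H R H = 0`; contradiction.  If `e (E 1) e = 0`, then `f (E 1) f = f`, `E 0 = e (E 0) e + h`, `E 1 = f + h'`,
and `(E 1) r (E 0) = 0`, contradiction.  So `e (E 0 + E 1) e = e`, `(e (E i) e) M_2 (e (E i) e) = F ..`;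
`x ↦ e x e` is injective on `(E 0) R (E 0)` (`(E 0) H (E 0) = 0`, and `f (E 0) f = 0` because otherwise `f (E 1) f = 0`
and `f (E 2) f = 0`, so in the case `f ≠ 0` `E 2 = 0`..., `φ v = 0`), so `Fld R (E 0)`, `qc (E 0) = qc g₁`, and
`(E 0) R (E 0) ⊆ S` by `St_Dlt`.  As in `St_Cm2` `(E 0 + E 1) R (E 0 + E 1) ⊆ S`.  If `f ≠ 0`: `E 2 = f + h`,
`Fld R (E 2)`, `qc (E 2) = qc f`, `(E 2) R (E 2) ⊆ S`.  So `R = S + H` (modulo `H` the subring `S` contains
`φ(M_2)` and `fRf`).  `S ∩ H` is an ideal of `R` (`H H = 0`), not zero, so it contains `H`: `S = ⊤`. -/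
def St_Ctr : Prop := ∀ n : ℕ, 4 ≤ n → ∀ (R : Type) [NonUnitalRing R] [Finite R], InM n R →
  TriType R → Critical R

/-! ### Part 2: no matrix units -/

/-- **PCA.**  PROOF.  `c α β` is `x` multiplied by `e i` (`α = some i`) or by `1 - ∑ e i` (`α = none`) on the
left, and in the same way on the right.  (3): multiply the sum by the projections. -/
def St_Pca : Prop := ∀ (R : Type) [NonUnitalRing R] (s : ℕ) (e : Fin s → R),
  (∀ i, e i * e i = e i) → (∀ i j, i ≠ j → e i * e j = 0) →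
  (∀ α β γ δ x y, Pc e α β x → Pc e γ δ y → (β = γ → Pc e α δ (x * y)) ∧ (β ≠ γ → x * y = 0)) ∧
  (∀ x, ∃ c : Option (Fin s) → Option (Fin s) → R, (∀ α β, Pc e α β (c α β)) ∧
    (∑ α, ∑ β, c α β = x) ∧ (∀ I : AddSubgroup R, Idl R I → x ∈ I → ∀ α β, c α β ∈ I) ∧
    ∀ i, c (some i) (some i) = e i * x * e i) ∧
  (∀ c : Option (Fin s) → Option (Fin s) → R, (∀ α β, Pc e α β (c α β)) →
    ∑ α, ∑ β, c α β = 0 → ∀ α β, c α β = 0) ∧
  (∀ α β x y, Pc e α β x → Pc e α β y → Pc e α β (x + y) ∧ Pc e α β (-x)) ∧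
  (∀ α β, Pc e α β 0)

/-- **JID** (from `St_Pws`, `St_Prb`, `St_Pca`).  PROOF.  (0) Let `x' = e_i x'`, `y' = y' e_i`, `x' e_i = 0` or
`e_i y' = 0`.. precisely: `x' ∈ e_i R e_β`, `y' ∈ e_β R e_i`, `β ≠ some i`; then `x' y' ∈ e_i R e_i`; if it is not `0`
there is `w ∈ e_i R e_i` with `x' y' w = e_i`; `a = x'`, `b = y' w`: `a a = 0` (`x' = x' e_β`, `e_β e_i = 0`),
`a b a = e_i x' = a ≠ 0`, contradiction to `¬ Twn R`.  So `x' y' = 0`.  (1) `e_i (x y) e_i = ∑ β, (e_i x e_β) (e_β y e_i)`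
and only `β = some i` contributes.  (2) so `JJ e` is an ideal.  (3) an idempotent `g` of `JJ e` is `0`: otherwise
take `g'` primitive below `g` (`St_Prb`), `g' = g' g g' ∈ JJ e`.  `g' e_i g'` is in `g' R g'` and
`(g' e_i g')^2 = g' (e_i g' e_i) g' = 0`, so `g' e_i g' = 0` (`Fld R g'` by `FC`).  `h = (1 - E) g' (1 - E)`, `E = ∑ e_i`, is
idempotent (`h h = (1-E) (g' g' - g' E g') (1-E)`, `g' E g' = 0`), orthogonal to all `e_i`, so `h = 0`
(`Fam.max`), and `g' = g' h g' = 0` (`g' h g' = g' - 2 g' E g' + g' E g' E g'`), contradiction.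
(4) for `x ∈ JJ e` the idempotent `om n x` is in `JJ e`, so it is `0`, and `x x x = 0` (`St_Pws`).
(5) `e_i g e_i` is idempotent by (1), in the field `e_i R e_i`. -/
def St_Jid : Prop := ∀ (n : ℕ) (R : Type) [NonUnitalRing R] [Finite R] (s : ℕ) (e : Fin s → R),
  Cx n R s e → Idl R (JJ e) ∧ (∀ x ∈ JJ e, x * x * x = 0) ∧
  (∀ i x y, e i * (x * y) * e i = (e i * x * e i) * (e i * y * e i)) ∧
  (∀ i β x y, β ≠ some i → Pc e (some i) β x → Pc e β (some i) y → x * y = 0) ∧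
  (∀ α β x, Pc e α β x → (α = β → α = none) → x ∈ JJ e) ∧
  (∀ g, g * g = g → ∀ i, e i * g * e i = 0 ∨ e i * g * e i = e i) ∧
  (∀ g, g * g = g → g ∈ JJ e → g = 0)

/-- **RLA** (from `St_Jid`, `St_Pca`).  PROOF.  `x ∈ JJ e` implies `x x x = 0`; take the components.
(1) `x = a + b`: `x x x = a a a + a a b`.  (2) `(a + a')` instead of `a`.  (3), (4) symmetric (`x = a + c`,
`x x x = a a a + c a a`).  (5) `x = a + b + c`: `c b = 0` (`St_Jid`), the component `(none, none)` of `x x x` is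
`a a a + a b c + b c a`, and `a a a = 0`.  (6) `i = j`: `(c a) b' = 0` by `St_Jid`.  `i ≠ j`: `x = c + a + b'`, the
component `(i, j)` of `x x x` is `c a b'`.  (7) `c b' = 0` for `i = j` only: `St_Jid`. -/
def St_Rla : Prop := ∀ (n : ℕ) (R : Type) [NonUnitalRing R] [Finite R] (s : ℕ) (e : Fin s → R),
  Cx n R s e → ∀ (a a' b b' c : R) (i j : Fin s), Pc e none none a → Pc e none none a' →
  Pc e none (some i) b → Pc e none (some j) b' → Pc e (some i) none c →
  a * a * b = 0 ∧ (a * a' + a' * a) * b = 0 ∧ c * a * a = 0 ∧ c * (a * a' + a' * a) = 0 ∧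
  a * b * c + b * c * a = 0 ∧ c * a * b' = 0 ∧ c * b = 0

/-- **RLB** (from `St_Jid`, `St_Pca`).  PROOF.  (1) If `α = γ = some i`: `x y = 0` by `St_Jid`.  If `α = γ = none`
and `β = δ`: `y z = 0` by `St_Jid` (`β = some j`).  In all other cases the component `(α, δ)` of
`(x + y + z)^3` is `x y z`: the composable words of length 3 from `α` to `δ` in `x : α → β`, `y : β → γ`,
`z : γ → δ`.  (Case `α = γ`, `δ ≠ β`: the last letter must be `z`, before it a closed path at `α` of length 2: `x y`.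
Case `α ≠ γ`, `β = δ`: the first letter is `x`, then a closed path at `β`: `y z`.  Case `α = δ`, `α, β, γ` different:
`x y z`.  All different: `x y z`.)  (2) `a : none → none`, `b : none → some i`, `y : some i → δ`, `δ ≠ none, some i`: the
component `(none, δ)` of `(a + b + y)^3` is `a b y`.  (3) symmetric. -/
def St_Rlb : Prop := ∀ (n : ℕ) (R : Type) [NonUnitalRing R] [Finite R] (s : ℕ) (e : Fin s → R),
  Cx n R s e → (∀ α β γ δ x y z, α ≠ β → β ≠ γ → γ ≠ δ → Pc e α β x → Pc e β γ y → Pc e γ δ z →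
    x * y * z = 0) ∧
  (∀ i δ a b y, δ ≠ none → δ ≠ some i → Pc e none none a → Pc e none (some i) b →
    Pc e (some i) δ y → a * b * y = 0) ∧
  (∀ i δ a c y, δ ≠ none → δ ≠ some i → Pc e none none a → Pc e (some i) none c →
    Pc e δ (some i) y → y * c * a = 0)

/-- **GAD** (from `St_Pca`, `St_Mas`).  PROOF.  The components of `x` (`St_Pca`): `(some i, some i)` in `G0`;
`(some i, some j)`, `i ≠ j`: `St_Mas`; the others are in `G1` or `0` (for them the last condition of `G1` is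
empty). -/
def St_Gad : Prop := ∀ (n : ℕ) (R : Type) [NonUnitalRing R] [Finite R] (s : ℕ) (e : Fin s → R),
  Cx n R s e → ∀ x : R, x ∈ AddSubgroup.closure (G0 e ∪ G1 e)

/-- **LET.**  The letter lemma.  PROOF.  Call `(s, t)` good if `Holds F s t` for all factors `F` of `R` with
`card F < card R`; there is a good pair which does not hold in `R` (`critical_exists`).
(1) There are a good pair `(s, t)` and `v : ℕ → R` with values in `G₀ ∪ G₁` and `s.eval v ≠ t.eval v`: let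
`(s, t)` be good and `s.eval r ≠ t.eval r`; only finitely many variables `x_i`, `i < N`, occur.  The finite group
`R` is generated as a monoid by `G₀ ∪ G₁`, so there is `M` with `r i = ∑ j < M, g i j`, `g i j ∈ G₀ ∪ G₁`, for all
`i < N` (add `0 ∈ G₀`).  Substitute `x_(i M) + ... + x_(i M + M - 1)` for `x_i` in `s, t` (a good pair again:
substitute values), and take `v (i M + j) = g i j`.
(2) Let `Z ⊆ G₁` be a finite set of least cardinality such that there are a good pair `(s, t)` and `v` with values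
in `G₀ ∪ Z` and `s.eval v ≠ t.eval v` (only finitely many variables occur, so finite sets exist).  By minimality
`Z` is disjoint from `G₀`.  `closure (G₀ ∪ Z) = ⊤`, otherwise the pair holds there (`subring_card_lt`,
`isFactor_subring`, `holds_subring_iff`).
(3) For `Y ⊆ Z` let `v_Y i = v i` if `v i ∈ G₀ ∪ Y` and `0` otherwise, and `m_Y(τ) = ∑ X ⊆ Y, (-1)^(|Y| - |X|) τ.eval v_X`
for a term `τ`.  By induction on `τ`, `m_Y(τ)` is in the additive group generated by the products of nonempty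
lists of elements of `G₀ ∪ Y` which contain all elements of `Y` (for a product `m_Y(σ τ) = ∑ m_A(σ) m_B(τ)`,
the sum over the pairs with `A ∪ B = Y`).  By minimality of `Z`, `s.eval v_Y = t.eval v_Y` for `Y ≠ Z`
(`0 ∈ G₀`), so `m_Z(s) - m_Z(t) = s.eval v - t.eval v ≠ 0`; so one of the products for `Y = Z` is not `0`. -/
def St_Let : Prop := ∀ (R : Type) [NonUnitalRing R], Critical R → ∀ G₀ G₁ : Set R, 0 ∈ G₀ →
  (∀ x : R, x ∈ AddSubgroup.closure (G₀ ∪ G₁)) →
  ∃ Z : Finset R, (Z : Set R) ⊆ G₁ ∧ NonUnitalSubring.closure (G₀ ∪ (Z : Set R)) = ⊤ ∧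
    ∃ w : List R, w ≠ [] ∧ (∀ g ∈ w, g ∈ G₀ ∨ g ∈ Z) ∧ (∀ z ∈ Z, z ∈ w) ∧ wp w ≠ 0

/-- **MLP** (from `St_Pca`).  PROOF.  `z' = f z` with `f ∈ e_i R e_i`: `z' ≠ 0`, so `z = e_i z` (`α = some i`), `f ≠ 0`
has an inverse `f'` in `e_i R e_i`, `z = f' z'`; `Bm` of `z'` and `z` are equal if `β` is `some j`; in the other cases
symmetric. -/
def St_Mlp : Prop := ∀ (R : Type) [NonUnitalRing R] [Finite R] (s : ℕ) (e : Fin s → R), Fam R s e →
  ∀ z z' : R, z ∈ G1 e → Mlt e z z' → z' ≠ 0 → z' ∈ G1 e ∧ (∀ α β, Pc e α β z → Pc e α β z') ∧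
    z ∈ NonUnitalSubring.closure (G0 e ∪ {z'}) ∧ (Pc e none none z → z' = z)

/-- **NRM** (from `St_Pca`, `St_Mlp`).  PROOF.  The product of two elements of `G0 e` is in `G0 e`.  Induction on
`w` (from the right): for a list `w` of elements of `G0 e` and `Z` with `wp w ≠ 0`, either `wp w ∈ G0 e` and all
elements are in `G0 e`, or there is `L` as in the statement with `wp (L.map Prod.snd) = wp w`; multiply the
first pair by an element of `G0 e` on the left, or put a new pair `(z, z)` or `(z, z f)` at the front (the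
elements of `Z` are not in `G0 e`; all partial products are not `0`).  In `Mlt` products `f (f₁ z f₂)` are of
the form `(f f₁) z f₂`. -/
def St_Nrm : Prop := ∀ (R : Type) [NonUnitalRing R] [Finite R] (s : ℕ) (e : Fin s → R), Fam R s e →
  ∀ Z : Finset R, (∀ z ∈ Z, z ∈ G1 e) → ∀ w : List R, w ≠ [] → (∀ g ∈ w, g ∈ G0 e ∨ g ∈ Z) →
  wp w ≠ 0 → (∃ z ∈ Z, z ∈ w) →
  ∃ L : List (R × R), L ≠ [] ∧ (∀ q ∈ L, q.1 ∈ Z ∧ Mlt e q.1 q.2) ∧
    (∀ z ∈ Z, z ∈ w → ∃ q ∈ L, q.1 = z) ∧ wp (L.map Prod.snd) = wp w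

/-- **PAT** (from `St_Pca`, `St_Jid`, `St_Rla`, `St_Rlb`).  PROOF.  Call the elements with `α ≠ β` arrows, the
elements of `e_none R e_none` loops (if `α = β` then `α = none`).  Neighbours are composable (`St_Pca`).
Between two arrows there are no loops: `c a .. a' b = 0` for `c : some i → none`, `b : none → some j` (`St_Rla` (6);
`a .. a'` is a loop or `a' b` is of the form `b`).  So two arrows which follow each other are neighbours
`x : α → β`, `y : β → γ`; three of them have product `0` (`St_Rlb`).  No arrows: last case.  One arrow: loops before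
it need `α = none`, loops after it need `β = none`, not both; the cases 1, 3, 4.  Two arrows: `α = γ = some i` is
impossible (`St_Jid`); `α = γ = none`: case 5; `α ≠ γ`: no loops before (`St_Rlb` (2), the last loop `a` before
`x`: `a x y = 0`) and after (`St_Rlb` (3)): case 2. -/
def St_Pat : Prop := ∀ (n : ℕ) (R : Type) [NonUnitalRing R] [Finite R] (s : ℕ) (e : Fin s → R),
  Cx n R s e → ∀ l : List R, (∀ x ∈ l, ∃ α β, Pc e α β x ∧ (α = β → α = none)) → wp l ≠ 0 →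
  (∃ (x : R) (i j : Fin s), i ≠ j ∧ l = [x] ∧ Pc e (some i) (some j) x) ∨
  (∃ (x y : R) (α β γ : Option (Fin s)), α ≠ β ∧ β ≠ γ ∧ α ≠ γ ∧ l = [x, y] ∧ Pc e α β x ∧
    Pc e β γ y) ∨
  (∃ (c : R) (i : Fin s) (l' : List R), l = c :: l' ∧ Pc e (some i) none c ∧
    ∀ a ∈ l', Pc e none none a) ∨
  (∃ (b : R) (i : Fin s) (l' : List R), l = l' ++ [b] ∧ Pc e none (some i) b ∧
    ∀ a ∈ l', Pc e none none a) ∨
  (∃ (b c : R) (i : Fin s) (l' l'' : List R), l = l' ++ b :: c :: l'' ∧ Pc e none (some i) b ∧ Pc e (some i) none c ∧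
    (∀ a ∈ l', Pc e none none a) ∧ ∀ a ∈ l'', Pc e none none a) ∨
  ∀ a ∈ l, Pc e none none a

/-- **COV.**  PROOF.  `I = {x | e_m x = x, x e_m = x}`, `I' = {x | e_m x = 0, x e_m = 0}`.  The set of the sums `x + x'`
is a subring which contains `G0 e` and `Z`, so everything; `I I' = 0 = I' I`, so `I` and `I'` are ideals, both not
`0` (`e_m ∈ I`), `I ⊓ I' = ⊥`, contradiction to `Lst`. -/
def St_Cov : Prop := ∀ (R : Type) [NonUnitalRing R] (s : ℕ) (e : Fin s → R), Fam R s e →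
  (∃ H, Lst R H) → ∀ Z : Set R, NonUnitalSubring.closure (G0 e ∪ Z) = ⊤ →
  ∀ m : Fin s, (∀ z ∈ Z, e m * z = 0 ∧ z * e m = 0) → ∀ z ∈ Z, z = 0

/-- **FWA** (from `St_Sir`, `St_Orf`, `St_Gad`, `St_Let`, `St_Nrm`, `St_Mlp`, `St_Mat`).  PROOF.  `St_Orf`, `Cx`.  `St_Let` for
`G0 e ∪ {0}` and `G1 e` (`s ≥ 1` because of the idempotent; then `0 ∈ G0 e`).  If `Z = ∅`:
`R = closure (G0 e)` is the sum of the fields, so `s = 1` (`Lst`: the `e_i R e_i` are ideals) and `R` is a field: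
`MatType R 1` (`St_Mat` with `k = 1`, `E 0 0 = e 0`).  Otherwise `St_Nrm`; `l = L.map Prod.snd`; by `St_Mlp` the
elements of `l` are in `G1 e` (they are not `0`), and the closure of `G0 e` and `l` contains `Z`. -/
def St_Fwa : Prop := ∀ n : ℕ, 4 ≤ n → ∀ (R : Type) [NonUnitalRing R], Critical R → InM n R →
  FC R → ¬ Twn R → (∃ g : R, g * g = g ∧ g ≠ 0) →
  MatType R 1 ∨ ∃ (s : ℕ) (e : Fin s → R) (l : List R), Fam R s e ∧ 0 < s ∧ l ≠ [] ∧
    (∀ x ∈ l, x ∈ G1 e) ∧ wp l ≠ 0 ∧ NonUnitalSubring.closure (G0 e ∪ {x | x ∈ l}) = ⊤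

/-- **FWB** (from `St_Pat`, `St_Cov`, `St_Rla`, `St_Pca`).  PROOF.  `St_Pat`.  Case 1: `TyA` (`Smp` from `G1`: the vertices
of an element `≠ 0` are unique).  Case 2: `TyB`.  Case 3: by `St_Cov` `i` is the only index, `s = 1`; `TyC` with
`a l` the elements of `l'` (`prr c a k = wp l`).  Case 4: `TyC` for `Rᵐᵒᵖ` (`Fam` for `Rᵐᵒᵖ`; the list reversed).
Case 5: move the loops of `l''` to the left: `(b c) a = - a (b c)` (`St_Rla` (5), `a b c + b c a = 0`), and
`l' ++ l''` on the left; `pll` of the reversed list; the product changes only by a sign; `TyD`.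
Case 6 is impossible: `St_Cov` for `m = 0`. -/
def St_Fwb : Prop := ∀ (n : ℕ) (R : Type) [NonUnitalRing R] [Finite R] (s : ℕ) (e : Fin s → R),
  Cx n R s e → (∃ H, Lst R H) → 0 < s → ∀ l : List R, l ≠ [] → (∀ x ∈ l, x ∈ G1 e) → wp l ≠ 0 →
  NonUnitalSubring.closure (G0 e ∪ {x | x ∈ l}) = ⊤ →
  TyA R ∨ TyB R ∨ TyC R ∨ TyC Rᵐᵒᵖ ∨ TyD R

/-! ### Part 3: the rings of the list are critical -/

/-- **CNJ** (from `St_Jid`).  PROOF.  `e g e` is `0` or `e`; it is not `0`, because otherwise `g ∈ JJ`, `g = 0`.  Let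
`x = 2 g e - g - e`: `e x e = 0`, so `x ∈ JJ`, `x x x = 0`.  In the ring with identity `w = 1 + x` has the inverse
`1 - x + x x`, `w e = g e = g w`.  `θ y = w y w^{-1} = (y + x y) (1 - x + x x)`. -/
def St_Cnj : Prop := ∀ (n : ℕ) (R : Type) [NonUnitalRing R] [Finite R] (e : R),
  Cx n R 1 (fun _ => e) → ∀ g, g * g = g → g ≠ 0 → ∃ θ : R ≃+* R, θ e = g

/-- **VRT** (from `St_Jid`, `St_Dlt`, `St_Pws`, `St_Pca`).  PROOF.  `ρ_i x = e_i x e_i` is multiplicative (`St_Jid`).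
`ρ_i (g m) = 0` for `i ≠ m` (`g i * g m = 0`, `ρ_i (g i) = e_i`).  `Fld R (g m)`: an idempotent `h` below `g m` has
`ρ_m h ∈ {0, e_m}`; if `0` then `h ∈ JJ`, `h = 0`; if `e_m` then `g m - h ∈ JJ` is idempotent, `h = g m`; so `g m` is
primitive, `FC`.  `d = dq (e m) (t m) ≠ 0` is in the field `(g m) R (g m)`, so it is not in `JJ` (elements of `JJ` have
cube `0`), so `ρ_m d ≠ 0` (`ρ_i d = 0` for `i ≠ m`), and `ρ_m d = dq (e m) (ρ_m (t m))`.  By `St_Dlt` every element of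
`e_m R e_m` is in `closure {ρ_m (t m)}`; replacing `ρ_m (t m)` by `t m` (induction on the closure) for every
`x ∈ e_m R e_m` there is `y ∈ closure {t m} ⊆ S` with `ρ_m y = x`, and `ρ_i y = 0` for `i ≠ m`.  For arbitrary `x`
take the sum of the `y` for the `ρ_m x`. -/
def St_Vrt : Prop := ∀ (n : ℕ) (R : Type) [NonUnitalRing R] [Finite R] (s : ℕ) (e : Fin s → R),
  Cx n R s e → ∀ (S : NonUnitalSubring R) (g t : Fin s → R), (∀ m, g m ∈ S ∧ t m ∈ S ∧
    g m * g m = g m ∧ e m * g m * e m = e m ∧ g m * t m = t m ∧ t m * g m = t m ∧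
    dq (e m) (t m) ≠ 0) → (∀ m m', m ≠ m' → g m * g m' = 0) → ∀ x, ∃ y ∈ S, x - y ∈ JJ e

/-- **CAA** (from `St_Cov`, `St_Jid`, `St_Pca`, `St_Vrt`, `St_Crg`, `St_Dlt`, `St_Eof`).  PROOF.  Data of `TyA`.
(1) Every index is `i` or `j` (`St_Cov`).  `R = ∑ e_m R e_m + Bm (e i) (e j) z` (the right side is a subring), so
`JJ e = e_i R e_j = Bm z`, `JJ JJ = 0`.  `JJ` is contained in every nonzero ideal: `JJ` is an ideal `≠ 0`, and for
`y ∈ JJ`, `y ≠ 0`, the ideal of `y` contains `z` (`Smp`), so `JJ`; so `H = JJ e`.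
(2) `E l = Eo n (fun l => v l) l`, `l = 0, 1`;
`φ v = dq (e i) (E 0 * v 2 * E 0) * (E 0 * v 4 * E 1) * dq (e j) (E 1 * v 3 * E 1)`.  `ρ_m (φ v) = 0` since
`ρ_m (E 0) ρ_m (E 1) = 0` and both are `0` or `e_m`; so `φ v ∈ JJ = H`.  Not zero for `v 0 = e i`, `v 1 = e j`, `v 4 = z`,
`v 2, v 3` from `St_Dlt`.  (3) Let `v` be in a subring `S`, `h = φ v ≠ 0`.  `E 0 * h = h`, `h ∈ e_i R e_j`: `E 0 = ρ_i (E 0) +
ρ_j (E 0) + j₀`, `j₀ ∈ JJ`, `j₀ h = 0`, `ρ_j (E 0) h = 0`, so `ρ_i (E 0) ≠ 0`, it is `e i`; in the same way `ρ_j (E 1) = e j`.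
`St_Vrt` (`g i = E 0`, `g j = E 1`, `t i = E 0 * v 2 * E 0`, ..): `R = S + JJ`.  `S ∩ JJ` is an ideal of `R`
(`JJ JJ = 0`), contains `h`, so it contains `H = JJ`; `S = ⊤`. -/
def St_Caa : Prop := ∀ n : ℕ, 4 ≤ n → ∀ (R : Type) [NonUnitalRing R] [Finite R], InM n R → FC R →
  ¬ Twn R → TyA R → Critical R

/-- **SBB** (from `St_Cov`, `St_Jid`, `St_Pca`, `St_Mas`).  Structure for `TyB`.  PROOF.  Let `X` be the group
generated by the `f z f'` (`f ∈ e_i R e_i` if `α = some i`, no factor `f` if `α = none`; the same for `f'`, `β`), in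
the same way `Y` for `z'` and `W` for `z f z'` (`f ∈ e_j R e_j` if `β = some j`).  `∑ e_m R e_m + X + Y + W` is a
subring (`Y X = X X = Y Y = 0`, `X Y ⊆ W`, `W` is killed by `X, Y`: the vertices do not fit), so it is `R`; so every
`p` with `Pc e α β p` is in `X`, etc.: (2), and (6).  (1): `St_Cov`.  (3) `α = some i`, `β = some j`: `X = Bm z`, and
`z ∈ Bm p` by `Smp`.  One of them `none`, for example `α = none`: `X = z (e_j R e_j)`, `p = z f`, `z = p f^{-1}`.
(4) the same.  (5) Every `r ≠ 0` in `e_α R e_γ` generates the ideal `Bm r` (or `r (e_l R e_l)`, `(e_i R e_i) r` if one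
of the vertices is `none`), because it is killed by `JJ e`; for simple `r` (always, if one of the vertices is
`none`) this is a minimal ideal, so equal to `H`; all `r` are sums of simple ones by `St_Mas`. -/
def St_Sbb : Prop := ∀ (n : ℕ) (R : Type) [NonUnitalRing R] [Finite R] (s : ℕ) (e : Fin s → R),
  Cx n R s e → ∀ H, Lst R H → ∀ α β γ z z', TB e α β γ z z' →
  (∀ m, some m = α ∨ some m = β ∨ some m = γ) ∧
  (∀ x ∈ JJ e, ∃ p q r, x = p + q + r ∧ Pc e α β p ∧ Pc e β γ q ∧ Pc e α γ r ∧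
    ∀ I : AddSubgroup R, Idl R I → x ∈ I → p ∈ I ∧ q ∈ I) ∧
  (∀ p, Pc e α β p → p ≠ 0 → ∀ I : AddSubgroup R, Idl R I → p ∈ I → z ∈ I) ∧
  (∀ q, Pc e β γ q → q ≠ 0 → ∀ I : AddSubgroup R, Idl R I → q ∈ I → z' ∈ I) ∧
  (∀ r, Pc e α γ r → r ∈ H) ∧
  (∀ x ∈ JJ e, ∀ y ∈ JJ e, Pc e α γ (x * y))

/-- **FNB** (from `St_Sbb`, `St_Nak`, `St_Jnl`, `St_Jid`, `St_Ppw`, `St_Pca`).  PROOF.  `x = p + q + r`, `y = p' + q' + r'`
(`St_Sbb` (2)); `x y = p q'` (all other products vanish, `St_Pca`), so `p ≠ 0`, `q' ≠ 0`.  `I = fr S (JJ e) p₀` (`p₀` the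
prime of `St_Ppw`) is an ideal (`St_Nak`) which contains `x, y`, so `p, q'`, so `z, z'`; so it contains all letters
and their ideals, so `JJ e` (`R` is generated by `G0 e`, `z`, `z'`: the set of the `x` with
`x - ∑ e_m x e_m ∈ I` is a subring by `St_Jid` (3) and contains the generators).  `St_Nak`. -/
def St_Fnb : Prop := ∀ (n : ℕ) (R : Type) [NonUnitalRing R] [Finite R] (s : ℕ) (e : Fin s → R),
  Cx n R s e → (∃ H, Lst R H) → ∀ α β γ z z', TB e α β γ z z' → ∀ S : NonUnitalSubring R,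
  (∀ x, ∃ y ∈ S, x - y ∈ JJ e) → ∀ x y, x ∈ S → y ∈ S → x ∈ JJ e → y ∈ JJ e → x * y ≠ 0 → S = ⊤

/-- **CBA** (from `St_Sbb`, `St_Fnb`, `St_Jid`, `St_Pca`, `St_Vrt`, `St_Crg`, `St_Dlt`, `St_Eof`).  `TyB`, three fields.
PROOF.  `E l = Eo n (fun l => v l) l`, `l = 0, 1, 2`, `T l = dq (e _) (E l * v (3 + l) * E l)` (with `e i, e j, e l`),
`x' = (E 0 * v 6 * E 1) * T 1`, `y' = E 1 * v 7 * E 2`, `φ v = T 0 * x' * y' * T 2`.  `x', y' ∈ JJ e` (`ρ_m (E 0) ρ_m (E 1) = 0`),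
so `φ v ∈ e_i R e_l`-part `⊆ H` (`St_Sbb` (5), (6)).  Not zero at `v 0 = e i, v 1 = e j, v 2 = e l`, `v 7 = z'`,
`v 3, v 4, v 5` from `St_Dlt`, and `v 6 = z w`, where `w` is the inverse of `T 1` in `e_j R e_j`.  Let `v` be in `S`,
`h = φ v ≠ 0`; `h ∈ e_i R e_l` is killed by `JJ` on both sides (`St_Sbb`: `JJ JJ JJ = 0`); `E 0 * h = h`, so
`ρ_i (E 0) = e i`; `h * E 2 = h`, so `ρ_l (E 2) = e l`; `E 1 ≠ 0`, so `ρ_m (E 1) ≠ 0` for some `m` (`St_Jid`), and
`m ≠ i, l` by orthogonality, so `m = j` (`St_Sbb` (1)).  `St_Vrt`, `St_Fnb`. -/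
def St_Cba : Prop := ∀ (n : ℕ) (R : Type) [NonUnitalRing R] [Finite R] (s : ℕ) (e : Fin s → R),
  Cx n R s e → (∃ H, Lst R H) → ∀ i j l z z', TB e (some i) (some j) (some l) z z' → Critical R

/-- **CBB** (from the same statements as `St_Cba`).  `TyB`, first vertex `none`.  PROOF.  Now `E 0, E 1` belong to
`j, l`; `T 0 = dq (e j) (E 0 * v 3 * E 0)`, `T 1 = dq (e l) (E 1 * v 4 * E 1)`,
`x' = (v 6 * E 0 - E 0 * v 6 * E 0 - E 1 * v 6 * E 0) * T 0`, `y' = E 0 * v 7 * E 1`, `φ v = x' * y' * T 1`.  Values in `H`: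
`ρ_m (x' y') = 0` for all `v`: if `ρ_m (E 0) = 0` clear; otherwise `ρ_m (E 0) = e m`, `ρ_m (E 1) = 0`; so `φ v ∈ JJ`; we need
more, `φ v ∈ JJ JJ`-part: `y' ∈ JJ` always; `x' ∈ JJ`: `ρ_m (x')`: `ρ_m (v 6) ρ_m (E 0) - ρ_m (E 0) ρ_m (v 6) ρ_m (E 0) - 0 = 0`
in both cases (`ρ_m (E 0) ∈ {0, e m}`).  Then `h = φ v ≠ 0` in `S`: `h * E 1 = h`, so `ρ_l (E 1) = e l`, `E 0 ≠ 0`, so
`ρ_j (E 0) = e j`.  `St_Vrt`, `St_Fnb` as before. -/
def St_Cbb : Prop := ∀ (n : ℕ) (R : Type) [NonUnitalRing R] [Finite R] (s : ℕ) (e : Fin s → R),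
  Cx n R s e → (∃ H, Lst R H) → ∀ j l z z', TB e none (some j) (some l) z z' → Critical R

/-- **CBC** (from the same statements as `St_Cba`).  `TyB`, second vertex `none`.  PROOF.  `E 0, E 1` belong to
`i, l`; `T 0 = dq (e i) (E 0 * v 3 * E 0)`, `T 1 = dq (e l) (E 1 * v 4 * E 1)`,
`x' = E 0 * v 6 - E 0 * v 6 * E 0 - E 0 * v 6 * E 1`, `y' = v 7 * E 1 - E 0 * v 7 * E 1 - E 1 * v 7 * E 1`,
`φ v = T 0 * x' * y' * T 1`; `x', y' ∈ JJ` as in `St_Cbb`. -/
def St_Cbc : Prop := ∀ (n : ℕ) (R : Type) [NonUnitalRing R] [Finite R] (s : ℕ) (e : Fin s → R),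
  Cx n R s e → (∃ H, Lst R H) → ∀ i l z z', TB e (some i) none (some l) z z' → Critical R

/-- **CBD** (from `St_Cba`, `St_Cbb`, `St_Cbc`, `St_Opp`).  PROOF.  At most one of the vertices is `none` (they are
different).  Third vertex `none`: `TB` for `Rᵐᵒᵖ` with `γ, β, α`, `op z'`, `op z` (`Cx`, `Lst` for `Rᵐᵒᵖ`), `St_Cbb`. -/
def St_Cbd : Prop := ∀ n : ℕ, 4 ≤ n → ∀ (R : Type) [NonUnitalRing R] [Finite R], InM n R → FC R →
  ¬ Twn R → TyB R → Critical R

/-- **SCC** (from `St_Jid`, `St_Rla`, `St_Jnl`, `St_Ppw`).  Structure for `TyC`.  `F = eRe`, `C`, `A` as in `InF`, `InC`, `InA`.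
PROOF.  `A₀ = closure {a l}` (a subring of `A`).  (1)-(3): the sums of elements of `F`, of products
`f z x` or `f z` (`f ∈ F`, `x ∈ A₀`) and of `A₀` are a subring which contains the generators, so everything.
(4) Let `A^m = 0` (`St_Jnl` for `JJ`).  By downward induction on `j`: `prr c' x j = 0` for `j ≥ k + 1`, `x i ∈ A`,
`c' ∈ C`: by (2) replace the `x i` by the `a l` modulo `A A` (a longer product, `0`): in `prr c' (a ∘ σ) j` two of the
letters are equal, and by `St_Rla` (4), (3) (`c'' (a a' + a' a) = 0`, `c'' a a = 0` for all `c'' ∈ C`, `C A ⊆ C`)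
it is `0`.  (5) `{f • prr z a k}`, `f ∈ F` (`prr (f * z) a k = f * prr z a k`), is an ideal (killed by `A` on the right by (4),
and by `C`), every nonzero element generates it (`F` is a field), so it is `H`.  (6) `{x ∈ A | C x = 0}` is an ideal,
`C` is an ideal (`B = 0` by (1)), the intersection is `0`, `C ≠ 0`, so it is `0`. -/
def St_Scc : Prop := ∀ (n : ℕ) (R : Type) [NonUnitalRing R] [Finite R] (e : R),
  Cx n R 1 (fun _ => e) → ∀ H, Lst R H → ∀ z k a, TC e z k a →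
  (∀ x : R, x * e = e * x * e) ∧
  (∀ x, InA e x → x ∈ AddSubgroup.closure ({y | ∃ l, l < k ∧ y = a l} ∪
    {y | ∃ x' x'', InA e x' ∧ InA e x'' ∧ y = x' * x''})) ∧
  (∀ x, InC e x → ∃ f, InF e f ∧ x - f * z ∈ AddSubgroup.closure {y | ∃ x' x'', InC e x' ∧
    InA e x'' ∧ y = x' * x''}) ∧
  (∀ c', InC e c' → ∀ x : ℕ → R, (∀ i, InA e (x i)) → prr c' x (k + 1) = 0) ∧
  (∀ f, InF e f → prr (f * z) a k ∈ H) ∧
  (∀ x, InA e x → (∀ c', InC e c' → c' * x = 0) → x = 0)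

/-- **ALC** (from `St_Rla`, `St_Scc`, `St_Det`, `St_Ppw`).  PROOF.  `A' = {x | InA e x}` (a group), `N` the subgroup generated
by the products of two elements of `A'` and the `p • x`.  `f v = prr c' v k` is alternating on `A'` (`St_Rla` (3), (4):
`c'' x x = 0`, `c'' (x y + y x) = 0`, `C A ⊆ C`), it vanishes if some `v i ∈ N` (`St_Scc` (4); `p • c' = 0` as
`p • e = 0`).  `St_Det` with `St_Scc` (2).  (1): `c' = f₁ z + ..`, the second part gives `0` by `St_Scc` (4), so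
`prr c' x k = prr (f₁ z) x k = m • prr (f₁ z) a k ∈ H`. -/
def St_Alc : Prop := ∀ (n : ℕ) (R : Type) [NonUnitalRing R] [Finite R] (e : R),
  Cx n R 1 (fun _ => e) → ∀ H, Lst R H → ∀ z k a, TC e z k a → ∀ p r : ℕ, p.Prime →
  (∀ x : R, (p ^ r) • x = 0) → p • e = 0 → ∀ (c' : R) (x : ℕ → R), InC e c' → (∀ i, InA e (x i)) →
  prr c' x k ∈ H ∧ (prr c' x k ≠ 0 → ∀ y, InA e y →
    y ∈ AddSubgroup.closure ({w | ∃ l, l < k ∧ w = x l} ∪
      {w | ∃ x' x'', InA e x' ∧ InA e x'' ∧ w = x' * x''} ∪ {w | ∃ x', InA e x' ∧ w = p • x'}))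

/-- **CCC** (from `St_Scc`, `St_Alc`, `St_Cnj`, `St_Nak`, `St_Jnl`, `St_Jid`, `St_Ppw`, `St_Crg`, `St_Dlt`, `St_Pws`).  PROOF.
`E = om n (v 0)`, `t = E * v 1 * E`, `c' = E * v 2 - E * v 2 * E`, `x l = ct E (v (3 + l))`, `φ v = prr (dq e t * c') x k`.
If `E = 0` then `φ v = 0`.  Otherwise there is `θ` with `θ e = E` (`St_Cnj`); since `φ (θ⁻¹ ∘ v) = θ⁻¹ (φ v)` (`TmF.map`) and
`θ⁻¹ E = e`, for all claims about `φ v` we may assume `E = e` (`θ` maps `H` onto `H`, and subrings to subrings).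
Values in `H`: `dq e t * c' ∈ C`, `St_Alc`.  Not zero: `v 0 = e`, `v 2 = z`, `v (3 + l) = a l`, `v 1 = t` from `St_Dlt`:
`φ v = (dq e t) * prr z a k ≠ 0` (`dq e t` is invertible in `F`).  Let `v` be in `S`, `φ v ≠ 0`, `E = e`.  `F ⊆ S` by
`St_Dlt`.  `R = S + JJ` (`JJ = C + A` by `St_Scc` (1)).  `I = fr S JJ p`: contains `c'' = dq e t * c'` and the `x l`, so
all of `A` by `St_Alc`; `c'' = f z + ..`, the rest is in `C A ⊆ JJ JJ ⊆ I`, `f ≠ 0` (otherwise `φ v = 0` by `St_Scc` (4)),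
so `f z ∈ I`, `z ∈ I` (`I` is an ideal), `C ⊆ I`.  `St_Nak`. -/
def St_Ccc : Prop := ∀ n : ℕ, 4 ≤ n → ∀ (R : Type) [NonUnitalRing R] [Finite R], InM n R → FC R →
  ¬ Twn R → TyC R → Critical R

/-- **SDD** (from `St_Jid`, `St_Rla`, `St_Jnl`, `St_Ppw`).  Structure for `TyD`.  `F, B, C, A` as in `InF`, ...
PROOF.  `C B = 0` (`St_Rla` (7)), `C A B = 0` ((6)).  `A₀ = closure {a l}`, with `A₀¹ = {1} ∪ A₀`: the sums of elements
of `F`, `A₀¹ b F`, `F c A₀¹`, `A₀`, `A₀¹ b F c A₀¹` are a subring which contains the generators.  So (1)-(3).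
(4) `pll x b' j = 0` for `j ≥ k + 1`, `x i ∈ A`, `b' ∈ B`, by downward induction on `j` (`A^m = 0`): modulo `A A` the
`x i` are combinations of the `a l` and of products `b'' c''`; a factor `b'' c''` gives `0` (`c'' x .. b' = 0`,
`c'' b' = 0`); two equal letters give `0` (`St_Rla` (1), (2), `A B ⊆ B`).  (4') the same for `prr c' x (k + 1)` with
(3), (4) of `St_Rla` (a factor `b'' c''` after `c' x ..`: `c' x .. b'' = 0`).
(5) Let `w f = pll a (b * f * c) k`, `f ∈ F`.  It is killed by everything on both sides: on the left by `A` ((4)),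
by `C` (`C A B = 0`), by `F`, `B`; on the right by `B` (`c b' = 0`), `F`, `C` and by `A`: `b f c a' = - a' b f c`
(`St_Rla` (5)), and (4).  So every subgroup of the group `W` of the `w f` is an ideal; `p • w f = 0`; every subgroup
of order `p` of `W` is an ideal, so it contains `H`, and `W` is killed by `p`, so `W = H` (two different subgroups
of order `p` have intersection `0`). -/
def St_Sdd : Prop := ∀ (n : ℕ) (R : Type) [NonUnitalRing R] [Finite R] (e : R),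
  Cx n R 1 (fun _ => e) → ∀ H, Lst R H → ∀ b c k a, TD e b c k a →
  (∀ x, InA e x → x ∈ AddSubgroup.closure ({y | ∃ l, l < k ∧ y = a l} ∪
    {y | ∃ x' x'', InA e x' ∧ InA e x'' ∧ y = x' * x''} ∪
    {y | ∃ x' x'', InB e x' ∧ InC e x'' ∧ y = x' * x''})) ∧
  (∀ x, InC e x → ∃ f, InF e f ∧ x - f * c ∈ AddSubgroup.closure {y | ∃ x' x'', InC e x' ∧
    InA e x'' ∧ y = x' * x''}) ∧
  (∀ x, InB e x → ∃ f, InF e f ∧ x - b * f ∈ AddSubgroup.closure {y | ∃ x' x'', InA e x' ∧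
    InB e x'' ∧ y = x' * x''}) ∧
  (∀ b', InB e b' → ∀ x : ℕ → R, (∀ i, InA e (x i)) → pll x b' (k + 1) = 0) ∧
  (∀ c', InC e c' → ∀ x : ℕ → R, (∀ i, InA e (x i)) → prr c' x (k + 1) = 0) ∧
  (∀ f, InF e f → pll a (b * f * c) k ∈ H)

/-- **ALD** (from `St_Rla`, `St_Sdd`, `St_Det`, `St_Ppw`).  PROOF.  `A' = {x | InA e x}`, `N` the subgroup generated by the
products of two elements of `A'`, of an element of `B` and one of `C`, and the `p • x`.  `f v = pll v (b' * c') k` is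
alternating on `A'` (`St_Rla` (1), (2), `A B ⊆ B`; for `k ≥ 1` write it as `(..(x b')) c'`), vanishes if some
`v i ∈ N` (`St_Sdd` (4), `(b'' c'') x .. b' = 0`, `p • b' = 0`).  `St_Det` with `St_Sdd` (1).  Values: `b' = b f + ..`, the
rest is in `A B` and gives `0` ((4)); `c' = f' c + ..`, the rest is in `C A`; `b' (c'' x) = - x b' c''` (`St_Rla` (5)), so it
gives `0`; so `pll x (b' * c') k = pll x (b * (f * f') * c) k = m • pll a (b * (f * f') * c) k ∈ H`.  If it is not `0`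
then `f, f' ≠ 0`. -/
def St_Ald : Prop := ∀ (n : ℕ) (R : Type) [NonUnitalRing R] [Finite R] (e : R),
  Cx n R 1 (fun _ => e) → ∀ H, Lst R H → ∀ b c k a, TD e b c k a → ∀ p r : ℕ, p.Prime →
  (∀ x : R, (p ^ r) • x = 0) → p • e = 0 → ∀ (b' c' : R) (x : ℕ → R), InB e b' → InC e c' →
  (∀ i, InA e (x i)) →
  pll x (b' * c') k ∈ H ∧ (pll x (b' * c') k ≠ 0 → (∀ y, InA e y →
    y ∈ AddSubgroup.closure ({w | ∃ l, l < k ∧ w = x l} ∪
      {w | ∃ x' x'', InA e x' ∧ InA e x'' ∧ w = x' * x''} ∪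
      {w | ∃ x' x'', InB e x' ∧ InC e x'' ∧ w = x' * x''} ∪
      {w | ∃ x', InA e x' ∧ w = p • x'})) ∧
    (∃ f, InF e f ∧ f ≠ 0 ∧ b' - b * f ∈ AddSubgroup.closure {y | ∃ x' x'', InA e x' ∧
      InB e x'' ∧ y = x' * x''}) ∧
    ∃ f, InF e f ∧ f ≠ 0 ∧ c' - f * c ∈ AddSubgroup.closure {y | ∃ x' x'', InC e x' ∧
      InA e x'' ∧ y = x' * x''})

/-- **CDD** (from `St_Sdd`, `St_Ald`, `St_Cnj`, `St_Nak`, `St_Jnl`, `St_Jid`, `St_Ppw`, `St_Crg`, `St_Dlt`, `St_Pws`).  PROOF.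
`E = om n (v 0)`, `t = E * v 1 * E`, `b' = (v 2 * E - E * v 2 * E) * dq e t`, `c' = E * v 3 - E * v 3 * E`,
`x l = ct E (v (4 + l))`, `φ v = pll x (b' * c') k`.  As in `St_Ccc` we may assume `E = e`.  Values in `H`: `St_Ald`.  Not
zero: `v 0 = e`, `v 1 = t`, `v 2 = b w` with `w` the inverse of `dq e t` in `F`, `v 3 = c`, `v (4 + l) = a l`.  Let `v` be in
`S`, `φ v ≠ 0`, `E = e`: `F ⊆ S`, `R = S + JJ`, `JJ = A + B + C`; the ideal `I = fr S JJ p` contains the `x l`, `JJ JJ`,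
`p JJ`, so `A` (`St_Ald`); `b' ∈ I`, so `b f ∈ I`, `b ∈ I`, `B ⊆ I` (`St_Sdd` (3)); `c ∈ I`, `C ⊆ I`.  `St_Nak`. -/
def St_Cdd : Prop := ∀ n : ℕ, 4 ≤ n → ∀ (R : Type) [NonUnitalRing R] [Finite R], InM n R → FC R →
  ¬ Twn R → TyD R → Critical R

/-! ### Part 4: the hypotheses are automatic -/

/-- **EVN** (from `St_Pws`).  PROOF.  Let `g` be idempotent, `x ∈ gRg`, `x x x = 0`, `N = n - 3 ≥ 1`, `u = g + x` is
invertible in `gRg` (`(g + x) (g - x + x x) = g`), `u^3 = u^n`, so `u^N = g`, i.e. `N x + (N (N-1) / 2) x x = 0`;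
times `x`: `N • (x x) = 0`.  If `card R` is prime to `N`: `x x = 0`, then `N • x = 0`, `x = 0`.  If `n` is even: `N` is
odd, `(-g)^3 = (-g)^n` gives `- g = g`, so `2 • y = 0` for `y ∈ gRg`; `N • (x x) = x x = 0`, `N • x = x = 0`.
So (*) `x ∈ gRg`, `x x x = 0` implies `x = 0`.  `FC`: `e` primitive, `x ∈ eRe`, `x ≠ 0`: `om n x ∈ {0, e}`, not `0`
by (*), so `e`; `St_Pws`.  `¬ Twn`: `e₀ = a b`, `f₁ = b a - a b b a` are orthogonal idempotents, `a ∈ gRg` for
`g = e₀ + f₁` (`e₀ a = a`, `a f₁ = a`), `a a a = 0`, so `a = 0`. -/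
def St_Evn : Prop := ∀ n : ℕ, 4 ≤ n → ∀ (R : Type) [NonUnitalRing R] [Finite R], InM n R →
  (Even n ∨ (Nat.card R).Coprime (n - 3)) → FC R ∧ ¬ Twn R

/-- **ASM** (from all).  The theorem. -/
def St_Asm : Prop := ∀ n : ℕ, 4 ≤ n → ∀ (R : Type) [NonUnitalRing R] [Finite R], InM n R →
  (Twn R → (Critical R ↔ MatType R 2 ∨ MatType R 3 ∨ TriType R ∨ TriType Rᵐᵒᵖ)) ∧
  (¬ Twn R → FC R → (∃ g : R, g * g = g ∧ g ≠ 0) →
    (Critical R ↔ MatType R 1 ∨ TyA R ∨ TyB R ∨ TyC R ∨ TyC Rᵐᵒᵖ ∨ TyD R)) ∧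
  ((Even n ∨ (Nat.card R).Coprime (n - 3)) → FC R ∧ ¬ Twn R)

end Pool.Agent.CRN
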