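import Mathlib
import Pool.Agent.CRN.St

/-!
Campaign CRN, module MAS: every element of `eRf` is a sum of elements which generate simple
bimodules.
-/

set_option autoImplicit false

namespace Pool.Agent.CRN

open Pool.Agent.CRR

variable {R : Type} [NonUnitalRing R]

theorem Mas_pow {e : R} (he : IsIdempotentElem e) (a : he.Corner) (k : ℕ) :
    (a ^ (k + 1)).1 = pw a.1 k := by
  induction k with
  | zero =>
    rw [zero_add, pow_one]
    rfl
  | succ k ih =>
    rw [pow_succ]
    change (a ^ (k + 1)).1 * a.1 = pw a.1 k * a.1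
    rw [ih]

/-- the field `eRe` -/
theorem Mas_field [Finite R] {e : R} (h : Fld R e) : ∃ p n : ℕ, p.Prime ∧ 0 < n ∧ p • e = 0 ∧
    (∀ x y, e * x = x → x * e = x → e * y = y → y * e = y → x * y = y * x) ∧
    ∀ x, e * x = x → x * e = x → pw x (p ^ n - 1) = x := by
  obtain ⟨he, hne, hinv⟩ := h
  have idem : IsIdempotentElem e := he
  have hmem : ∀ a : idem.Corner, e * a.1 = a.1 ∧ a.1 * e = a.1 := fun a =>
    (Subsemigroup.mem_corner_iff idem).1 a.2
  have : Nontrivial idem.Corner := ⟨⟨1, 0, fun h => hne (congrArg Subtype.val h)⟩⟩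
  have : Finite idem.Corner := Subtype.finite
  have hright : ∀ a : idem.Corner, a ≠ 0 → ∃ b : idem.Corner, a * b = 1 := by
    intro a ha
    obtain ⟨y, hy1, hy2, hy3⟩ := hinv a.1 (hmem a).1 (hmem a).2 (fun h0 => ha (Subtype.ext h0))
    exact ⟨⟨y, (Subsemigroup.mem_corner_iff idem).2 ⟨hy1, hy2⟩⟩, Subtype.ext hy3⟩
  have hunit : ∀ a : idem.Corner, IsUnit a ∨ a = 0 := by
    intro a
    by_cases ha : a = 0
    · exact Or.inr ha
    · left
      obtain ⟨b, hb⟩ := hright a ha
      have hb0 : b ≠ 0 := by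
        rintro rfl
        rw [mul_zero] at hb
        exact zero_ne_one hb
      obtain ⟨c, hc⟩ := hright b hb0
      have hac : a = c := by
        calc a = a * (b * c) := by rw [hc, mul_one]
          _ = (a * b) * c := by rw [mul_assoc]
          _ = c := by rw [hb, one_mul]
      exact ⟨⟨a, b, hb, by rw [hac]; exact hc⟩, rfl⟩
  let _ : DivisionRing idem.Corner := DivisionRing.ofIsUnitOrEqZero hunit
  let _ : Fintype idem.Corner := Fintype.ofFinite _
  obtain ⟨p, hp, n, hpp, hcard⟩ := FiniteField.card' idem.Corner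
  refine ⟨p, n, hpp, n.2, ?_, ?_, ?_⟩
  · have h1 : (p : ℕ) • (1 : idem.Corner) = 0 := by
      rw [nsmul_one]
      exact CharP.cast_eq_zero _ p
    have h2 : ∀ m : ℕ, (m • (1 : idem.Corner)).1 = m • e := by
      intro m
      induction m with
      | zero =>
        rw [zero_smul, zero_smul]
        rfl
      | succ m ih =>
        rw [succ_nsmul, succ_nsmul, ← ih]
        rfl
    rw [← h2, h1]
    rfl
  · intro x y hx1 hx2 hy1 hy2
    let X : idem.Corner := ⟨x, (Subsemigroup.mem_corner_iff idem).2 ⟨hx1, hx2⟩⟩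
    let Y : idem.Corner := ⟨y, (Subsemigroup.mem_corner_iff idem).2 ⟨hy1, hy2⟩⟩
    have h5 : X * Y = Y * X := mul_comm X Y
    exact congrArg Subtype.val h5
  · intro x hx1 hx2
    let X : idem.Corner := ⟨x, (Subsemigroup.mem_corner_iff idem).2 ⟨hx1, hx2⟩⟩
    have h3 : X ^ Fintype.card idem.Corner = X := FiniteField.pow_card X
    have h4 : Fintype.card idem.Corner = (p ^ (n : ℕ) - 1) + 1 := by
      rw [hcard]
      have := pow_pos hpp.pos (n : ℕ)
      omega
    rw [h4] at h3
    have h5 := Mas_pow idem X (p ^ (n : ℕ) - 1)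
    rw [h3] at h5
    exact h5.symm

/-- the group `eRf` -/
def MasM (e f : R) : AddSubgroup R where
  carrier := {x | e * x = x ∧ x * f = x}
  zero_mem' := ⟨mul_zero e, zero_mul f⟩
  add_mem' := fun {x y} hx hy => ⟨by rw [mul_add, hx.1, hy.1], by rw [add_mul, hx.2, hy.2]⟩
  neg_mem' := fun {x} hx => ⟨by rw [mul_neg, hx.1], by rw [neg_mul, hx.2]⟩

theorem Mas_eae {e : R} (he : e * e = e) (a : R) : e * (e * a * e) = e * a * e ∧
    (e * a * e) * e = e * a * e := by
  constructor
  · rw [← mul_assoc, ← mul_assoc, he]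
  · rw [mul_assoc, he]

/-- the multiplication by `e a e` on the left -/
def MasL {e f : R} (he : e * e = e) (a : R) : AddMonoid.End (MasM e f) :=
  AddMonoidHom.mk' (fun y => ⟨(e * a * e) * y.1, by
    constructor
    · rw [← mul_assoc, (Mas_eae he a).1]
    · rw [mul_assoc, y.2.2]⟩) fun y z => Subtype.ext (mul_add _ _ _)

/-- the multiplication by `f b f` on the right -/
def MasR {e f : R} (hf : f * f = f) (b : R) : AddMonoid.End (MasM e f) :=
  AddMonoidHom.mk' (fun y => ⟨y.1 * (f * b * f), by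
    constructor
    · rw [← mul_assoc, y.2.1]
    · rw [mul_assoc, (Mas_eae hf b).2]⟩) fun y z => Subtype.ext (add_mul _ _ _)

theorem MasL_apply {e f : R} (he : e * e = e) (a : R) (y : MasM e f) :
    (MasL he a y).1 = (e * a * e) * y.1 := rfl

theorem MasR_apply {e f : R} (hf : f * f = f) (b : R) (y : MasM e f) :
    (MasR hf b y).1 = y.1 * (f * b * f) := rfl

theorem MasL_pow {e f : R} (he : e * e = e) (a : R) (k : ℕ) (y : MasM e f) :
    (((MasL he a) ^ (k + 1)) y).1 = pw (e * a * e) k * y.1 := by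
  induction k generalizing y with
  | zero =>
    rw [zero_add, pow_one]
    rfl
  | succ k ih =>
    rw [pow_succ]
    change (((MasL he a) ^ (k + 1)) (MasL he a y)).1 = pw (e * a * e) k * (e * a * e) * y.1
    rw [ih, MasL_apply]
    exact (mul_assoc _ _ _).symm

theorem Mas_pw_comm (x : R) (k : ℕ) : x * pw x k = pw x k * x := by
  induction k with
  | zero => rfl
  | succ k ih =>
    change x * (pw x k * x) = pw x k * x * x
    rw [← mul_assoc, ih]

theorem MasR_pow {e f : R} (hf : f * f = f) (b : R) (k : ℕ) (y : MasM e f) :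
    (((MasR hf b) ^ (k + 1)) y).1 = y.1 * pw (f * b * f) k := by
  induction k generalizing y with
  | zero =>
    rw [zero_add, pow_one]
    rfl
  | succ k ih =>
    rw [pow_succ]
    change (((MasR hf b) ^ (k + 1)) (MasR hf b y)).1 = y.1 * (pw (f * b * f) k * (f * b * f))
    rw [ih, MasR_apply, ← Mas_pw_comm]
    exact mul_assoc _ _ _

theorem Mas_iter {M : Type} [Monoid M] {t : M} {q : ℕ} (h : t ^ q = t) (m : ℕ) : t ^ q ^ m = t := by
  induction m with
  | zero => rw [pow_zero, pow_one]
  | succ m ih => rw [pow_succ, pow_mul, ih, h]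

/-- `Bm e f w` is closed under the multiplications -/
theorem Mas_closed {e f : R} (he : e * e = e) (hf : f * f = f) (w z : R) (hz : z ∈ Bm e f w)
    (a : R) : (e * a * e) * z ∈ Bm e f w ∧ z * (f * a * f) ∈ Bm e f w := by
  unfold Bm at hz ⊢
  induction hz using AddSubgroup.closure_induction with
  | mem z hz =>
    obtain ⟨a', b', rfl⟩ := hz
    constructor
    · apply AddSubgroup.subset_closure
      refine ⟨a * (e * a'), b', ?_⟩
      have e1 : e * (a * (e * a')) * e = (e * a * e) * (e * a' * e) := by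
        simp only [mul_assoc]
        rw [← mul_assoc e e (a' * e), he]
      rw [e1]
      simp only [mul_assoc]
    · apply AddSubgroup.subset_closure
      refine ⟨a', b' * (f * a), ?_⟩
      have e1 : f * (b' * (f * a)) * f = (f * b' * f) * (f * a * f) := by
        simp only [mul_assoc]
        rw [← mul_assoc f f (a * f), hf]
      rw [e1]
      simp only [mul_assoc]
  | zero =>
    rw [mul_zero, zero_mul]
    exact ⟨AddSubgroup.zero_mem _, AddSubgroup.zero_mem _⟩
  | add x y hx hy hx' hy' =>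
    rw [mul_add, add_mul]
    exact ⟨AddSubgroup.add_mem _ hx'.1 hy'.1, AddSubgroup.add_mem _ hx'.2 hy'.2⟩
  | neg x hx hx' =>
    rw [mul_neg, neg_mul]
    exact ⟨AddSubgroup.neg_mem _ hx'.1, AddSubgroup.neg_mem _ hx'.2⟩

theorem thm_Mas : St_Mas := by
  intro R _ _ e f hE hF x hx1 hx2
  classical
  obtain ⟨p, n, hp, hn, hpe, hcomm, hpow⟩ := Mas_field hE
  obtain ⟨p', n', hp', hn', hpf, hcomm', hpow'⟩ := Mas_field hF
  have he := hE.1
  have hf := hF.1
  by_cases hx0 : x = 0
  · exact ⟨[], fun y hy => absurd hy (List.not_mem_nil), by rw [hx0]; rfl⟩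
  have hpx : p • x = 0 := by rw [← hx1, ← smul_mul_assoc, hpe, zero_mul]
  have hpx' : p' • x = 0 := by rw [← hx2, ← mul_smul_comm, hpf, mul_zero]
  have hpp : p = p' := by
    by_contra hne
    have hcop : Nat.Coprime p p' := (Nat.coprime_primes hp hp').2 hne
    have h1 : addOrderOf x ∣ Nat.gcd p p' :=
      Nat.dvd_gcd (addOrderOf_dvd_of_nsmul_eq_zero hpx) (addOrderOf_dvd_of_nsmul_eq_zero hpx')
    rw [hcop] at h1
    exact hx0 (AddMonoid.addOrderOf_eq_one_iff.1 (Nat.dvd_one.1 h1))
  subst hpp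
  -- the exponent
  set Q := p ^ (n * n') with hQ
  have hQ2 : 2 ≤ Q := by
    have h1 : 0 < n * n' := Nat.mul_pos hn hn'
    calc 2 ≤ p := hp.two_le
      _ = p ^ 1 := (pow_one p).symm
      _ ≤ p ^ (n * n') := Nat.pow_le_pow_right hp.pos h1
  set gens : Set (AddMonoid.End (MasM e f)) := Set.range (fun a => MasL he a) ∪ Set.range (fun b => MasR hf b)
    with hgens
  have hgcomm : ∀ s ∈ gens, ∀ t ∈ gens, s * t = t * s := by
    rintro s (⟨a, rfl⟩ | ⟨a, rfl⟩) t (⟨b, rfl⟩ | ⟨b, rfl⟩)
    · ext y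
      change (e * a * e) * ((e * b * e) * y.1) = (e * b * e) * ((e * a * e) * y.1)
      rw [← mul_assoc (e * a * e) (e * b * e) y.1, ← mul_assoc (e * b * e) (e * a * e) y.1,
        hcomm _ _ (Mas_eae he a).1 (Mas_eae he a).2 (Mas_eae he b).1 (Mas_eae he b).2]
    · ext y
      change (e * a * e) * (y.1 * (f * b * f)) = ((e * a * e) * y.1) * (f * b * f)
      exact (mul_assoc _ _ _).symm
    · ext y
      change ((e * b * e) * y.1) * (f * a * f) = (e * b * e) * (y.1 * (f * a * f))
      exact mul_assoc _ _ _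
    · ext y
      change (y.1 * (f * b * f)) * (f * a * f) = (y.1 * (f * a * f)) * (f * b * f)
      rw [mul_assoc y.1 (f * b * f) (f * a * f), mul_assoc y.1 (f * a * f) (f * b * f),
        hcomm' _ _ (Mas_eae hf a).1 (Mas_eae hf a).2 (Mas_eae hf b).1 (Mas_eae hf b).2]
  have hgpow : ∀ s ∈ gens, s ^ Q = s := by
    rintro s (⟨a, rfl⟩ | ⟨a, rfl⟩)
    · have h1 : (MasL he a : AddMonoid.End (MasM e f)) ^ (p ^ n) = MasL he a := by
        have h2 : p ^ n = (p ^ n - 1) + 1 := by
          have := pow_pos hp.pos n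
          omega
        rw [h2]
        ext y
        rw [MasL_pow, hpow _ (Mas_eae he a).1 (Mas_eae he a).2, MasL_apply]
      rw [hQ, pow_mul]
      exact Mas_iter h1 n'
    · have h1 : (MasR hf a : AddMonoid.End (MasM e f)) ^ (p ^ n') = MasR hf a := by
        have h2 : p ^ n' = (p ^ n' - 1) + 1 := by
          have := pow_pos hp.pos n'
          omega
        rw [h2]
        ext y
        rw [MasR_pow, hpow' _ (Mas_eae hf a).1 (Mas_eae hf a).2, MasR_apply]
      rw [hQ, mul_comm n n', pow_mul]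
      exact Mas_iter h1 n
  -- the commutative ring `T`
  let T : Subring (AddMonoid.End (MasM e f)) := Subring.closure gens
  let _ : CommRing T := Subring.closureCommRingOfComm hgcomm
  have hM0 : (⟨x, hx1, hx2⟩ : MasM e f) ≠ 0 := fun h => hx0 (congrArg Subtype.val h)
  have hTnt : Nontrivial T := by
    refine ⟨⟨1, 0, fun h => hM0 ?_⟩⟩
    have h1 := congrArg (fun t : T => (t : AddMonoid.End (MasM e f)) ⟨x, hx1, hx2⟩) h
    exact h1
  have hpM : ∀ y : MasM e f, p • y = 0 := by
    intro y
    apply Subtype.ext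
    change p • y.1 = 0
    rw [← y.2.1, ← smul_mul_assoc, hpe, zero_mul]
  have hchar : CharP T p := by
    rw [CharP.charP_iff_prime_eq_zero hp]
    apply Subtype.ext
    have h1 : (((p : ℕ) : T) : AddMonoid.End (MasM e f)) = ((p : ℕ) : AddMonoid.End (MasM e f)) :=
      rfl
    rw [h1]
    ext y
    have h2 : ((p : ℕ) : AddMonoid.End (MasM e f)) y = p • y := by
      simp
    rw [h2, hpM]
    rfl
  have hTpow : ∀ t : T, t ^ Q = t := by
    have : Fact p.Prime := ⟨hp⟩
    rintro ⟨t, ht⟩
    induction ht using Subring.closure_induction with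
    | mem t ht => exact Subtype.ext (hgpow t ht)
    | zero => exact zero_pow (by omega)
    | one => exact one_pow Q
    | add s t hs ht hs' ht' =>
      have h1 := add_pow_char_pow (p := p) (n := n * n') (⟨s, hs⟩ : T) ⟨t, ht⟩
      change ((⟨s, hs⟩ : T) + ⟨t, ht⟩) ^ Q = _
      rw [hQ, h1, ← hQ, hs', ht']
      rfl
    | neg t ht ht' =>
      have h1 := add_pow_char_pow (p := p) (n := n * n') (⟨t, ht⟩ : T) (-⟨t, ht⟩)
      rw [add_neg_cancel, ← hQ, zero_pow (by omega), ht'] at h1
      exact (neg_eq_of_add_eq_zero_right h1.symm).symm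
    | mul s t hs ht hs' ht' =>
      change ((⟨s, hs⟩ : T) * ⟨t, ht⟩) ^ Q = (⟨s, hs⟩ : T) * ⟨t, ht⟩
      rw [mul_pow, hs', ht']
  have hred : IsReduced T := by
    refine ⟨fun t ht => ?_⟩
    obtain ⟨m, hm⟩ := ht
    have h1 := Mas_iter (hTpow t) m
    have h2 : m ≤ Q ^ m := (Nat.lt_pow_self (by omega)).le
    rw [← h1, ← Nat.sub_add_cancel h2, pow_add, hm, mul_zero]
  have hfin : Finite T := by
    have : Finite (AddMonoid.End (MasM e f)) :=
      Finite.of_injective (fun (t : AddMonoid.End (MasM e f)) (y : MasM e f) => t y)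
        fun s t hst => by
          ext y
          exact congrArg Subtype.val (congrFun hst y)
    exact Subtype.finite
  have hss : IsSemisimpleRing T := IsArtinianRing.isSemisimpleRing_of_isReduced T
  have htop : (⟨x, hx1, hx2⟩ : MasM e f) ∈
      sSup {m : Submodule T (MasM e f) | IsSimpleModule T m} := by
    rw [IsSemisimpleModule.sSup_simples_eq_top]
    exact Submodule.mem_top
  rw [Submodule.mem_sSup_iff_exists_finset] at htop
  obtain ⟨S, hS, hxS⟩ := htop
  rw [Submodule.mem_iSup_finset_iff_exists_sum] at hxS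
  obtain ⟨μ, hμ⟩ := hxS
  -- elements of a simple submodule are simple
  have hsimple : ∀ N : Submodule T (MasM e f), IsSimpleModule T N → ∀ y ∈ N, Smp e f y.1 := by
    intro N hN y hy w hw hw0
    -- `w` is in `N`
    have hwN : ∃ hwM : w ∈ MasM e f, (⟨w, hwM⟩ : MasM e f) ∈ N := by
      unfold Bm at hw
      clear hw0
      induction hw using AddSubgroup.closure_induction with
      | mem w hw =>
        obtain ⟨a, b, rfl⟩ := hw
        have hLT : MasL he a ∈ T := Subring.subset_closure (Or.inl ⟨a, rfl⟩)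
        have hRT : MasR hf b ∈ T := Subring.subset_closure (Or.inr ⟨b, rfl⟩)
        have h1 : (⟨MasR hf b, hRT⟩ : T) • ((⟨MasL he a, hLT⟩ : T) • y) ∈ N :=
          N.smul_mem _ (N.smul_mem _ hy)
        exact ⟨((⟨MasR hf b, hRT⟩ : T) • ((⟨MasL he a, hLT⟩ : T) • y)).2, h1⟩
      | zero => exact ⟨(MasM e f).zero_mem, N.zero_mem⟩
      | add u v hu hv hu' hv' =>
        obtain ⟨h1, h2⟩ := hu'
        obtain ⟨h3, h4⟩ := hv'
        exact ⟨(MasM e f).add_mem h1 h3, N.add_mem h2 h4⟩
      | neg u hu hu' =>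
        obtain ⟨h1, h2⟩ := hu'
        exact ⟨(MasM e f).neg_mem h1, N.neg_mem h2⟩
    obtain ⟨hwM, hwN⟩ := hwN
    have hatom : IsAtom N := isSimpleModule_iff_isAtom.1 hN
    have hspan : Submodule.span T {(⟨w, hwM⟩ : MasM e f)} = N := by
      have h1 : Submodule.span T {(⟨w, hwM⟩ : MasM e f)} ≤ N := by
        rw [Submodule.span_singleton_le_iff_mem]
        exact hwN
      rcases hatom.le_iff.1 h1 with h2 | h2
      · exfalso
        rw [Submodule.span_singleton_eq_bot] at h2
        exact hw0 (congrArg Subtype.val h2)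
      · exact h2
    rw [← hspan, Submodule.mem_span_singleton] at hy
    obtain ⟨⟨t, ht⟩, hty⟩ := hy
    -- the elements `t z`
    have key : ∀ t ∈ Subring.closure gens, ∀ z : MasM e f, z.1 ∈ Bm e f w → (t z).1 ∈ Bm e f w := by
      intro t ht
      induction ht using Subring.closure_induction with
      | mem t ht =>
        intro z hz
        rcases ht with ⟨a, rfl⟩ | ⟨a, rfl⟩
        · exact (Mas_closed he hf w z.1 hz a).1
        · exact (Mas_closed he hf w z.1 hz a).2
      | zero => exact fun z _ => AddSubgroup.zero_mem _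
      | one => exact fun z hz => hz
      | add s t _ _ hs ht => exact fun z hz => AddSubgroup.add_mem _ (hs z hz) (ht z hz)
      | neg t _ ht => exact fun z hz => AddSubgroup.neg_mem _ (ht z hz)
      | mul s t _ _ hs ht => exact fun z hz => hs (t z) (ht z hz)
    have hww : w ∈ Bm e f w := by
      apply AddSubgroup.subset_closure
      refine ⟨e, f, ?_⟩
      rw [he, he, hf, hf, hwM.1, hwM.2]
    have h5 := key t ht ⟨w, hwM⟩ hww
    have h6 : t ⟨w, hwM⟩ = y := hty
    rwa [h6] at h5
  refine ⟨S.toList.map fun N => (μ N : MasM e f).1, ?_, ?_⟩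
  · intro y hy
    rw [List.mem_map] at hy
    obtain ⟨N, hNS, rfl⟩ := hy
    rw [Finset.mem_toList] at hNS
    exact ⟨(μ N : MasM e f).2.1, (μ N : MasM e f).2.2, hsimple N (hS hNS) _ (μ N).2⟩
  · rw [Finset.sum_map_toList]
    have h7 := congrArg Subtype.val hμ
    simp only [AddSubgroup.val_finsetSum] at h7
    exact h7

end Pool.Agent.CRN
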