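import Pool.Agent.CRN.St

/-!
# CRN/Mat: matrix units (helper18, after the plan of helper39)
-/

set_option autoImplicit false

namespace Pool.Agent.CRN

open Pool.Agent.CRR

/-- The corner of `Fld R e` as the range of a field. -/
theorem MatFld {R : Type} [NonUnitalRing R] [Finite R] {e : R} (h : Fld R e) :
    ∃ (F : Type) (_ : Field F) (_ : Finite F) (c : F →ₙ+* R), Function.Injective c ∧ c 1 = e ∧
      ∀ x, e * x = x → x * e = x → ∃ a, c a = x := by
  obtain ⟨he, hne, hinv⟩ := h
  have hi : IsIdempotentElem e := he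
  have hmem : ∀ a : hi.Corner, e * a.1 = a.1 ∧ a.1 * e = a.1 := fun a =>
    (Subsemigroup.mem_corner_iff hi).1 a.2
  have hfin : Finite hi.Corner := Finite.of_injective (fun a : hi.Corner => a.1) Subtype.val_injective
  have hnt : Nontrivial hi.Corner := ⟨1, 0, fun h0 => hne (congrArg Subtype.val h0)⟩
  have hr : ∀ a : hi.Corner, a ≠ 0 → ∃ b : hi.Corner, a * b = 1 := by
    intro a ha
    obtain ⟨y, hy1, hy2, hy3⟩ := hinv a.1 (hmem a).1 (hmem a).2 fun h0 => ha (Subtype.ext h0)
    exact ⟨⟨y, (Subsemigroup.mem_corner_iff hi).2 ⟨hy1, hy2⟩⟩, Subtype.ext hy3⟩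
  have hnz : NoZeroDivisors hi.Corner := by
    refine ⟨fun {a b} hab => ?_⟩
    by_cases ha : a = 0
    · exact Or.inl ha
    · right
      obtain ⟨y, hy⟩ := hr a ha
      have hy0 : y ≠ 0 := by
        rintro rfl
        rw [mul_zero] at hy
        exact zero_ne_one hy
      obtain ⟨z, hz⟩ := hr y hy0
      have haz : a = z := by
        calc a = a * (y * z) := by rw [hz, mul_one]
          _ = z := by rw [← mul_assoc, hy, one_mul]
      rw [← haz] at hz
      calc b = y * a * b := by rw [hz, one_mul]
        _ = 0 := by rw [mul_assoc, hab, mul_zero]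
  have hdom : IsDomain hi.Corner := NoZeroDivisors.to_isDomain _
  let c : hi.Corner →ₙ+* R :=
    { toFun := fun a => a.1
      map_mul' := fun _ _ => rfl
      map_zero' := rfl
      map_add' := fun _ _ => rfl }
  have hf := Finite.isDomain_to_isField hi.Corner
  exact ⟨hi.Corner, hf.toField, hfin, c, Subtype.val_injective, rfl, fun x h1 h2 =>
    ⟨⟨x, (Subsemigroup.mem_corner_iff hi).2 ⟨h1, h2⟩⟩, rfl⟩⟩

theorem thm_Mat : St_Mat := by
  intro R _ _ k E i₀ hE hF
  obtain ⟨F, _, _, c, hc, hc1, hcs⟩ := MatFld hF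
  have hEE : ∀ i j m, E i j * E j m = E i m := fun i j m => by rw [hE, if_pos rfl]
  have hE0 : ∀ i j l m, j ≠ l → E i j * E l m = 0 := fun i j l m h => by rw [hE, if_neg h]
  have hce : ∀ a, E i₀ i₀ * c a = c a := fun a => by rw [← hc1, ← map_mul, one_mul]
  have hec : ∀ a, c a * E i₀ i₀ = c a := fun a => by rw [← hc1, ← map_mul, mul_one]
  -- the corner components of a value
  have hcomp : ∀ (A : Matrix (Fin k) (Fin k) F) (i j : Fin k),
      E i₀ i * (∑ i, ∑ j, E i i₀ * c (A i j) * E i₀ j) * E j i₀ = c (A i j) := by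
    intro A i j
    rw [Finset.mul_sum, Finset.sum_mul, Finset.sum_eq_single i]
    · rw [Finset.mul_sum, Finset.sum_mul, Finset.sum_eq_single j]
      · calc E i₀ i * (E i i₀ * c (A i j) * E i₀ j) * E j i₀
            = (E i₀ i * E i i₀) * c (A i j) * (E i₀ j * E j i₀) := by simp only [mul_assoc]
          _ = c (A i j) := by rw [hEE, hEE, hce, hec]
      · intro l _ hl
        calc E i₀ i * (E i i₀ * c (A i l) * E i₀ l) * E j i₀
            = E i₀ i * (E i i₀ * c (A i l)) * (E i₀ l * E j i₀) := by simp only [mul_assoc]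
          _ = 0 := by rw [hE0 _ _ _ _ hl, mul_zero]
      · intro h
        exact absurd (Finset.mem_univ _) h
    · intro l _ hl
      rw [Finset.mul_sum, Finset.sum_mul]
      refine Finset.sum_eq_zero fun m _ => ?_
      calc E i₀ i * (E l i₀ * c (A l m) * E i₀ m) * E j i₀
          = (E i₀ i * E l i₀) * (c (A l m) * E i₀ m * E j i₀) := by simp only [mul_assoc]
        _ = 0 := by rw [hE0 _ _ _ _ (Ne.symm hl), zero_mul]
    · intro h
      exact absurd (Finset.mem_univ _) h
  let φ : Matrix (Fin k) (Fin k) F →ₙ+* R :=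
    { toFun := fun A => ∑ i, ∑ j, E i i₀ * c (A i j) * E i₀ j
      map_zero' := by
        refine Finset.sum_eq_zero fun i _ => Finset.sum_eq_zero fun j _ => ?_
        rw [Matrix.zero_apply, map_zero, mul_zero, zero_mul]
      map_add' := by
        intro A B
        rw [← Finset.sum_add_distrib]
        refine Finset.sum_congr rfl fun i _ => ?_
        rw [← Finset.sum_add_distrib]
        refine Finset.sum_congr rfl fun j _ => ?_
        rw [Matrix.add_apply, map_add, mul_add, add_mul]
      map_mul' := by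
        intro A B
        rw [Finset.sum_mul]
        refine Finset.sum_congr rfl fun i _ => ?_
        rw [Finset.sum_mul]
        have h1 : ∀ l : Fin k, E i i₀ * c (A i l) * E i₀ l *
            (∑ l', ∑ j, E l' i₀ * c (B l' j) * E i₀ j) =
            ∑ j, E i i₀ * (c (A i l) * c (B l j)) * E i₀ j := by
          intro l
          rw [Finset.mul_sum, Finset.sum_eq_single l]
          · rw [Finset.mul_sum]
            refine Finset.sum_congr rfl fun j _ => ?_
            calc E i i₀ * c (A i l) * E i₀ l * (E l i₀ * c (B l j) * E i₀ j)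
                = E i i₀ * (c (A i l) * ((E i₀ l * E l i₀) * c (B l j))) * E i₀ j := by
                  simp only [mul_assoc]
              _ = _ := by rw [hEE, hce]
          · intro l' _ hl'
            rw [Finset.mul_sum]
            refine Finset.sum_eq_zero fun j _ => ?_
            calc E i i₀ * c (A i l) * E i₀ l * (E l' i₀ * c (B l' j) * E i₀ j)
                = E i i₀ * c (A i l) * ((E i₀ l * E l' i₀) * (c (B l' j) * E i₀ j)) := by
                  simp only [mul_assoc]
              _ = 0 := by rw [hE0 _ _ _ _ (Ne.symm hl'), zero_mul, mul_zero]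
          · intro h
            exact absurd (Finset.mem_univ _) h
        rw [Finset.sum_congr rfl fun l _ => h1 l, Finset.sum_comm]
        refine Finset.sum_congr rfl fun j _ => ?_
        rw [Matrix.mul_apply, map_sum, Finset.mul_sum, Finset.sum_mul]
        refine Finset.sum_congr rfl fun l _ => ?_
        rw [map_mul] }
  have hφ : ∀ A, φ A = ∑ i, ∑ j, E i i₀ * c (A i j) * E i₀ j := fun _ => rfl
  have hφ1 : φ 1 = ∑ i, E i i := by
    rw [hφ]
    refine Finset.sum_congr rfl fun i _ => ?_
    rw [Finset.sum_eq_single i]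
    · rw [Matrix.one_apply_eq, hc1, hEE, hEE]
    · intro j _ hj
      rw [Matrix.one_apply_ne (Ne.symm hj), map_zero, mul_zero, zero_mul]
    · intro h
      exact absurd (Finset.mem_univ _) h
  refine ⟨F, inferInstance, inferInstance, φ, ?_, hφ1, ?_⟩
  · intro A B hAB
    ext i j
    apply hc
    rw [← hcomp A i j, ← hcomp B i j, ← hφ, ← hφ, hAB]
  · intro x hx1 hx2
    rw [hφ1] at hx1 hx2
    have hex : ∀ i j : Fin k, ∃ a, c a = E i₀ i * x * E j i₀ := fun i j => hcs _
      (by rw [← mul_assoc, ← mul_assoc, hEE]) (by rw [mul_assoc, hEE])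
    choose A hA using hex
    refine ⟨Matrix.of A, ?_⟩
    rw [hφ]
    have h2 : ∀ i j : Fin k, E i i₀ * c (Matrix.of A i j) * E i₀ j = E i i * x * E j j := by
      intro i j
      rw [Matrix.of_apply, hA]
      calc E i i₀ * (E i₀ i * x * E j i₀) * E i₀ j
          = (E i i₀ * E i₀ i) * x * (E j i₀ * E i₀ j) := by simp only [mul_assoc]
        _ = _ := by rw [hEE, hEE]
    rw [Finset.sum_congr rfl fun i _ => Finset.sum_congr rfl fun j _ => h2 i j]
    have h3 : ∀ i : Fin k, ∑ j, E i i * x * E j j = E i i * x := by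
      intro i
      rw [← Finset.mul_sum, mul_assoc, hx2]
    rw [Finset.sum_congr rfl fun i _ => h3 i, ← Finset.sum_mul, hx1]

end Pool.Agent.CRN
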