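import Pool.Agent.CRN.St

/-!
Module Mlp of `St.lean`: products of a homogeneous generator and elements of the fields.
-/

set_option autoImplicit false

namespace Pool.Agent.CRN

open Pool.Agent.CRR

section Mlp

variable {R : Type} [NonUnitalRing R]

/-- The conclusion of the module. -/
def MlpC {s : ℕ} (e : Fin s → R) (z z' : R) : Prop :=
  z' ∈ G1 e ∧ (∀ α β, Pc e α β z → Pc e α β z') ∧
    z ∈ NonUnitalSubring.closure (G0 e ∪ {z'}) ∧ (Pc e none none z → z' = z)

theorem Mlp_inv {e f : R} (he : Fld R e) (h1 : e * f = f) (h2 : f * e = f) (h0 : f ≠ 0) :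
    ∃ y, e * y = y ∧ y * e = y ∧ f * y = e ∧ y * f = e := by
  obtain ⟨y, hy1, hy2, hy3⟩ := he.2.2 f h1 h2 h0
  have hy0 : y ≠ 0 := by
    rintro rfl
    rw [mul_zero] at hy3
    exact he.2.1 hy3.symm
  obtain ⟨y2, hz1, hz2, hz3⟩ := he.2.2 y hy1 hy2 hy0
  have : y2 = f := by
    rw [← hz1, ← hy3, mul_assoc, hz3, h2]
  exact ⟨y, hy1, hy2, hy3, by rw [← this]; exact hz3⟩

theorem Mlp_Bm {e f x : R} (a b : R) : (e * a * e) * x * (f * b * f) ∈ Bm e f x :=
  AddSubgroup.subset_closure ⟨a, b, rfl⟩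

/-- `Bm` is closed under the multiplication by elements of the field on the left. -/
theorem Mlp_BmL {e f x g : R} (h1 : e * g = g) (h2 : g * e = g) {w : R}
    (hw : w ∈ Bm e f x) : g * w ∈ Bm e f x := by
  refine AddSubgroup.closure_induction (p := fun w _ => g * w ∈ Bm e f x) ?_ ?_ ?_ ?_ hw
  · rintro w ⟨a, b, rfl⟩
    have : g * ((e * a * e) * x * (f * b * f)) = (e * (g * a) * e) * x * (f * b * f) := by
      rw [← mul_assoc g ((e * a * e) * x) (f * b * f), ← mul_assoc g (e * a * e) x,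
        ← mul_assoc g (e * a) e, ← mul_assoc g e a, h2, ← mul_assoc e g a, h1]
    rw [this]
    exact Mlp_Bm _ _
  · rw [mul_zero]
    exact (Bm e f x).zero_mem
  · intro a b _ _ ha hb
    rw [mul_add]
    exact (Bm e f x).add_mem ha hb
  · intro a _ ha
    rw [mul_neg]
    exact (Bm e f x).neg_mem ha

theorem Mlp_BmR {e f x g : R} (h1 : f * g = g) (h2 : g * f = g) {w : R}
    (hw : w ∈ Bm e f x) : w * g ∈ Bm e f x := by
  refine AddSubgroup.closure_induction (p := fun w _ => w * g ∈ Bm e f x) ?_ ?_ ?_ ?_ hw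
  · rintro w ⟨a, b, rfl⟩
    have : (e * a * e) * x * (f * b * f) * g = (e * a * e) * x * (f * (b * g) * f) := by
      rw [mul_assoc ((e * a * e) * x), mul_assoc (f * b) f g, h1, mul_assoc f (b * g) f,
        mul_assoc b g f, h2, mul_assoc f b g]
    rw [this]
    exact Mlp_Bm _ _
  · rw [zero_mul]
    exact (Bm e f x).zero_mem
  · intro a b _ _ ha hb
    rw [add_mul]
    exact (Bm e f x).add_mem ha hb
  · intro a _ ha
    rw [neg_mul]
    exact (Bm e f x).neg_mem ha

theorem Mlp_SmpL {e f x g : R} (h1 : e * g = g) (h2 : g * e = g)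
    (h : Smp e f x) : Smp e f (g * x) := by
  intro w hw hw0
  have hsub : Bm e f (g * x) ≤ Bm e f x := by
    refine (AddSubgroup.closure_le _).2 ?_
    rintro w ⟨a, b, rfl⟩
    have : (e * a * e) * (g * x) * (f * b * f) = (e * (a * g) * e) * x * (f * b * f) := by
      rw [← mul_assoc (e * a * e) g x, mul_assoc (e * a) e g, h1, mul_assoc e (a * g) e,
        mul_assoc a g e, h2, mul_assoc e a g]
    rw [SetLike.mem_coe, this]
    exact Mlp_Bm _ _
  exact Mlp_BmL h1 h2 (h w (hsub hw) hw0)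

theorem Mlp_SmpR {e f x g : R} (h1 : f * g = g) (h2 : g * f = g)
    (h : Smp e f x) : Smp e f (x * g) := by
  intro w hw hw0
  have hsub : Bm e f (x * g) ≤ Bm e f x := by
    refine (AddSubgroup.closure_le _).2 ?_
    rintro w ⟨a, b, rfl⟩
    have : (e * a * e) * (x * g) * (f * b * f) = (e * a * e) * x * (f * (g * b) * f) := by
      rw [← mul_assoc (e * a * e) x g, mul_assoc (e * a * e * x) g (f * b * f),
        ← mul_assoc g (f * b) f, ← mul_assoc g f b, h2, ← mul_assoc f g b, h1]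
    rw [SetLike.mem_coe, this]
    exact Mlp_Bm _ _
  exact Mlp_BmR h1 h2 (h w (hsub hw) hw0)

theorem Mlp_left {s : ℕ} {e : Fin s → R} (hF : Fam R s e) {z f : R} (hz : z ∈ G1 e)
    (hf : f ∈ G0 e) (h0 : f * z ≠ 0) : MlpC e z (f * z) := by
  obtain ⟨i, hi1, hi2⟩ := hf
  have hα : ∀ α β, Pc e α β z → α = some i := by
    intro α β h
    by_contra hne
    apply h0
    rw [← hi2, mul_assoc, h.1 i, if_neg hne, mul_zero]
  have hP : ∀ α β, Pc e α β z → Pc e α β (f * z) := by
    intro α β h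
    have ha := hα α β h
    refine ⟨fun k => ?_, fun j => ?_⟩
    · by_cases hk : i = k
      · subst hk
        rw [if_pos ha, ← mul_assoc, hi1]
      · rw [if_neg (by rw [ha]; exact fun h => hk (Option.some_injective _ h)), ← mul_assoc,
          ← hi1, ← mul_assoc (e k), hF.orth k i (fun h => hk h.symm), zero_mul, zero_mul]
    · rw [mul_assoc, h.2 j]
      split_ifs
      · rfl
      · rw [mul_zero]
  have hf0 : f ≠ 0 := by
    rintro rfl
    exact h0 (zero_mul z)
  obtain ⟨y, hy1, hy2, hy3, hy4⟩ := Mlp_inv (hF.fld i) hi1 hi2 hf0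
  obtain ⟨hz0, α, β, hab, hne, hS⟩ := hz
  refine ⟨⟨h0, α, β, hP α β hab, hne, ?_⟩, hP, ?_, ?_⟩
  · intro k l hk hl
    have hik : i = k := Option.some_injective _ ((hα α β hab).symm.trans hk)
    subst hik
    exact Mlp_SmpL hi1 hi2 (hS i l hk hl)
  · have : z = y * (f * z) := by
      rw [← mul_assoc, hy4, hab.1 i, if_pos (hα α β hab)]
    rw [this]
    apply NonUnitalSubring.mul_mem
    · exact NonUnitalSubring.subset_closure (Or.inl ⟨i, hy1, hy2⟩)
    · rw [← this]
      exact NonUnitalSubring.subset_closure (Or.inr rfl)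
  · intro h
    exact absurd (hα none none h) (by simp)

theorem Mlp_right {s : ℕ} {e : Fin s → R} (hF : Fam R s e) {z f : R} (hz : z ∈ G1 e)
    (hf : f ∈ G0 e) (h0 : z * f ≠ 0) : MlpC e z (z * f) := by
  obtain ⟨i, hi1, hi2⟩ := hf
  have hα : ∀ α β, Pc e α β z → β = some i := by
    intro α β h
    by_contra hne
    apply h0
    rw [← hi1, ← mul_assoc, h.2 i, if_neg hne, zero_mul]
  have hP : ∀ α β, Pc e α β z → Pc e α β (z * f) := by
    intro α β h
    have ha := hα α β h
    refine ⟨fun j => ?_, fun k => ?_⟩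
    · rw [← mul_assoc, h.1 j]
      split_ifs
      · rfl
      · rw [zero_mul]
    · by_cases hk : i = k
      · subst hk
        rw [if_pos ha, mul_assoc, hi2]
      · rw [if_neg (by rw [ha]; exact fun h => hk (Option.some_injective _ h)), mul_assoc,
          ← hi2, mul_assoc f, hF.orth i k hk, mul_zero, mul_zero]
  have hf0 : f ≠ 0 := by
    rintro rfl
    exact h0 (mul_zero z)
  obtain ⟨y, hy1, hy2, hy3, hy4⟩ := Mlp_inv (hF.fld i) hi1 hi2 hf0
  obtain ⟨hz0, α, β, hab, hne, hS⟩ := hz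
  refine ⟨⟨h0, α, β, hP α β hab, hne, ?_⟩, hP, ?_, ?_⟩
  · intro l k hl hk
    have hik : i = k := Option.some_injective _ ((hα α β hab).symm.trans hk)
    subst hik
    exact Mlp_SmpR hi1 hi2 (hS l i hl hk)
  · have : z = z * f * y := by
      rw [mul_assoc, hy3, hab.2 i, if_pos (hα α β hab)]
    rw [this]
    apply NonUnitalSubring.mul_mem
    · rw [← this]
      exact NonUnitalSubring.subset_closure (Or.inr rfl)
    · exact NonUnitalSubring.subset_closure (Or.inl ⟨i, hy1, hy2⟩)
  · intro h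
    exact absurd (hα none none h) (by simp)

end Mlp

theorem thm_Mlp : St_Mlp := by
  intro R _ _ s e hF z z' hz hM h0
  rcases hM with rfl | ⟨f, hf, rfl⟩ | ⟨f, hf, rfl⟩ | ⟨f, hf, f', hf', rfl⟩
  · exact ⟨hz, fun _ _ h => h, NonUnitalSubring.subset_closure (Or.inr rfl), fun _ => rfl⟩
  · exact Mlp_left hF hz hf h0
  · exact Mlp_right hF hz hf h0
  · have h1 : f * z ≠ 0 := by
      intro h
      rw [h, zero_mul] at h0
      exact h0 rfl
    obtain ⟨a1, a2, a3, a4⟩ := Mlp_left hF hz hf h1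
    obtain ⟨b1, b2, b3, b4⟩ := Mlp_right hF a1 hf' h0
    refine ⟨b1, fun α β h => b2 α β (a2 α β h), ?_, ?_⟩
    · have hle : NonUnitalSubring.closure (G0 e ∪ {f * z}) ≤
          NonUnitalSubring.closure (G0 e ∪ {f * z * f'}) := by
        rw [NonUnitalSubring.closure_le]
        rintro x (hx | hx)
        · exact NonUnitalSubring.subset_closure (Or.inl hx)
        · rw [Set.mem_singleton_iff] at hx
          rw [hx]
          exact b3
      exact hle a3
    · intro h
      rw [b4 (a2 _ _ h), a4 h]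

end Pool.Agent.CRN
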