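import Pool.Agent.CRN.St

/-!
Campaign CRN, module Nrm (helper56): normal form of the words.
-/

set_option autoImplicit false

namespace Pool.Agent.CRN

open Pool.Agent.CRR

section

variable {R : Type} [NonUnitalRing R] {s : ℕ} {e : Fin s → R}

theorem Nrm_mul (hF : Fam R s e) {x y : R} (hx : x ∈ G0 e) (hy : y ∈ G0 e) : x * y ∈ G0 e := by
  obtain ⟨i, h1, h2⟩ := hx
  obtain ⟨j, h3, h4⟩ := hy
  by_cases h : i = j
  · subst h
    exact ⟨i, by rw [← mul_assoc, h1], by rw [mul_assoc, h4]⟩
  · have h0 : x * y = 0 := by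
      rw [← h2, ← h3, mul_assoc, ← mul_assoc (e i), hF.orth i j h, zero_mul, mul_zero]
    exact ⟨i, by rw [h0, mul_zero], by rw [h0, zero_mul]⟩

theorem Nrm_mlt (hF : Fam R s e) {g z z' : R} (hg : g ∈ G0 e) (h : Mlt e z z') :
    Mlt e z (g * z') := by
  rcases h with rfl | ⟨f, hf, rfl⟩ | ⟨f, hf, rfl⟩ | ⟨f, hf, f', hf', rfl⟩
  · exact Or.inr (Or.inl ⟨g, hg, rfl⟩)
  · exact Or.inr (Or.inl ⟨g * f, Nrm_mul hF hg hf, by rw [mul_assoc]⟩)
  · exact Or.inr (Or.inr (Or.inr ⟨g, hg, f, hf, by rw [mul_assoc]⟩))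
  · exact Or.inr (Or.inr (Or.inr ⟨g * f, Nrm_mul hF hg hf, f', hf', by
      rw [mul_assoc, mul_assoc, mul_assoc]⟩))

theorem Nrm_wp (x : R) {l : List R} (h : l ≠ []) : wp (x :: l) = x * wp l := by
  cases l with
  | nil => exact absurd rfl h
  | cons y l => rfl

theorem Nrm_wm (g x : R) (l : List R) : wp ((g * x) :: l) = g * wp (x :: l) := by
  cases l with
  | nil => rfl
  | cons y l =>
    show g * x * wp (y :: l) = g * (x * wp (y :: l))
    rw [mul_assoc]

theorem Nrm_key (hF : Fam R s e) (Z : Finset R) : ∀ w : List R, w ≠ [] →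
    (∀ g ∈ w, g ∈ G0 e ∨ g ∈ Z) →
    (wp w ∈ G0 e ∧ ∀ z ∈ w, z ∉ Z) ∨
    ∃ L : List (R × R), L ≠ [] ∧ (∀ q ∈ L, q.1 ∈ Z ∧ Mlt e q.1 q.2) ∧
      (∀ z ∈ Z, z ∈ w → ∃ q ∈ L, q.1 = z) ∧ wp (L.map Prod.snd) = wp w := by
  classical
  intro w
  induction w with
  | nil => exact fun h => absurd rfl h
  | cons g w ih =>
    intro _ hw
    have hg := hw g List.mem_cons_self
    by_cases hw0 : w = []
    · subst hw0
      by_cases hgZ : g ∈ Z
      · right
        refine ⟨[(g, g)], List.cons_ne_nil _ _, ?_, ?_, rfl⟩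
        · intro q hq
          rw [List.mem_singleton] at hq
          subst hq
          exact ⟨hgZ, Or.inl rfl⟩
        · intro z _ hz
          rw [List.mem_singleton] at hz
          subst hz
          exact ⟨(z, z), List.mem_singleton_self _, rfl⟩
      · left
        refine ⟨hg.resolve_right hgZ, fun z hz => ?_⟩
        rw [List.mem_singleton] at hz
        subst hz
        exact hgZ
    · have ih' := ih hw0 (fun x hx => hw x (List.mem_cons_of_mem _ hx))
      by_cases hgZ : g ∈ Z
      · right
        rcases ih' with ⟨h1, h2⟩ | ⟨L, h1, h2, h3, h4⟩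
        · refine ⟨[(g, g * wp w)], List.cons_ne_nil _ _, ?_, ?_, ?_⟩
          · intro q hq
            rw [List.mem_singleton] at hq
            subst hq
            exact ⟨hgZ, Or.inr (Or.inr (Or.inl ⟨wp w, h1, rfl⟩))⟩
          · intro z hzZ hz
            rcases List.mem_cons.1 hz with rfl | hz
            · exact ⟨(z, z * wp w), List.mem_singleton_self _, rfl⟩
            · exact absurd hzZ (h2 z hz)
          · rw [Nrm_wp g hw0]
            rfl
        · refine ⟨(g, g) :: L, List.cons_ne_nil _ _, ?_, ?_, ?_⟩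
          · intro q hq
            rcases List.mem_cons.1 hq with rfl | hq
            · exact ⟨hgZ, Or.inl rfl⟩
            · exact h2 q hq
          · intro z hzZ hz
            rcases List.mem_cons.1 hz with rfl | hz
            · exact ⟨(z, z), List.mem_cons_self, rfl⟩
            · obtain ⟨q, hq, hq'⟩ := h3 z hzZ hz
              exact ⟨q, List.mem_cons_of_mem _ hq, hq'⟩
          · rw [Nrm_wp g hw0, List.map_cons, Nrm_wp _ (fun h => h1 (List.map_eq_nil_iff.1 h)), h4]
      · have hg0 := hg.resolve_right hgZ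
        rcases ih' with ⟨h1, h2⟩ | ⟨L, h1, h2, h3, h4⟩
        · left
          refine ⟨?_, fun z hz => ?_⟩
          · rw [Nrm_wp g hw0]
            exact Nrm_mul hF hg0 h1
          · rcases List.mem_cons.1 hz with rfl | hz
            · exact hgZ
            · exact h2 z hz
        · right
          cases L with
          | nil => exact absurd rfl h1
          | cons p L =>
            obtain ⟨z0, z1⟩ := p
            refine ⟨(z0, g * z1) :: L, List.cons_ne_nil _ _, ?_, ?_, ?_⟩
            · intro q hq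
              rcases List.mem_cons.1 hq with rfl | hq
              · obtain ⟨h5, h6⟩ := h2 (z0, z1) List.mem_cons_self
                exact ⟨h5, Nrm_mlt hF hg0 h6⟩
              · exact h2 q (List.mem_cons_of_mem _ hq)
            · intro z hzZ hz
              rcases List.mem_cons.1 hz with rfl | hz
              · exact absurd hzZ hgZ
              · obtain ⟨q, hq, hq'⟩ := h3 z hzZ hz
                rcases List.mem_cons.1 hq with rfl | hq
                · exact ⟨(z0, g * z1), List.mem_cons_self, hq'⟩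
                · exact ⟨q, List.mem_cons_of_mem _ hq, hq'⟩
            · rw [List.map_cons] at h4 ⊢
              rw [Nrm_wm, h4, Nrm_wp g hw0]

end

/-- **NRM** -/
theorem thm_Nrm : St_Nrm := by
  intro R _ _ s e hF Z _ w hw0 hw _ hz
  rcases Nrm_key hF Z w hw0 hw with ⟨_, h⟩ | h
  · obtain ⟨z, hz, hzw⟩ := hz
    exact absurd hz (h z hzw)
  · exact h

end Pool.Agent.CRN
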