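import Pool.Agent.CRN.St

/-!
Campaign CRN, module Opp: the opposite ring.
-/

set_option autoImplicit false

namespace Pool.Agent.CRN

open Pool.Agent.CRR MulOpposite

/-- the reversed term -/
def Opp_rev : RTerm → RTerm
  | .var i => .var i
  | .add s t => .add (Opp_rev s) (Opp_rev t)
  | .neg s => .neg (Opp_rev s)
  | .mul s t => .mul (Opp_rev t) (Opp_rev s)

theorem Opp_eval {F : Type} [NonUnitalRing F] (v : ℕ → Fᵐᵒᵖ) (t : RTerm) :
    t.eval v = op ((Opp_rev t).eval fun i => unop (v i)) := by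
  induction t with
  | var i => rfl
  | add s t hs ht =>
    show s.eval v + t.eval v = _
    rw [hs, ht]
    rfl
  | neg s hs =>
    show -(s.eval v) = _
    rw [hs]
    rfl
  | mul s t hs ht =>
    show s.eval v * t.eval v = _
    rw [hs, ht]
    rfl

theorem Opp_holds {F : Type} [NonUnitalRing F] (s t : RTerm) :
    Holds Fᵐᵒᵖ s t ↔ Holds F (Opp_rev s) (Opp_rev t) := by
  constructor
  · intro h v
    have h1 := h fun i => op (v i)
    rw [Opp_eval, Opp_eval] at h1
    exact op_injective h1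
  · intro h v
    rw [Opp_eval, Opp_eval, h]

theorem Opp_factor {R F : Type} [NonUnitalRing R] [NonUnitalRing F] (h : IsFactor R F) :
    IsFactor Rᵐᵒᵖ Fᵐᵒᵖ := by
  obtain ⟨S, f, hf⟩ := h
  let S' : NonUnitalSubring Rᵐᵒᵖ :=
    { carrier := {x | unop x ∈ S}
      add_mem' := fun {x y} hx hy => S.add_mem hx hy
      zero_mem' := S.zero_mem
      mul_mem' := fun {x y} hx hy => S.mul_mem hy hx
      neg_mem' := fun {x} hx => S.neg_mem hx }
  refine ⟨S', { toFun := fun x => op (f ⟨unop x.1, x.2⟩)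
                map_mul' := fun x y => ?_
                map_zero' := ?_
                map_add' := fun x y => ?_ }, ?_⟩
  · rw [← op_mul, ← map_mul]
    rfl
  · rw [← op_zero]
    exact congrArg op (map_zero f)
  · rw [← op_add, ← map_add]
    rfl
  · intro y
    obtain ⟨x, hx⟩ := hf (unop y)
    refine ⟨⟨op x.1, x.2⟩, ?_⟩
    show op (f x) = y
    rw [hx, op_unop]

theorem Opp_pwc {R : Type} [NonUnitalRing R] (x : R) (k : ℕ) : x * pw x k = pw x k * x := by
  induction k with
  | zero => rfl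
  | succ k ih =>
    show x * (pw x k * x) = pw x k * x * x
    rw [← mul_assoc, ih]

theorem Opp_pw {R : Type} [NonUnitalRing R] (x : Rᵐᵒᵖ) (k : ℕ) :
    pw x k = op (pw (unop x) k) := by
  induction k with
  | zero => rfl
  | succ k ih =>
    show pw x k * x = op (pw (unop x) k * unop x)
    rw [ih, ← Opp_pwc]
    rfl

theorem Opp_lst {R : Type} [NonUnitalRing R] (H : AddSubgroup R) (h : Lst R H) :
    Lst Rᵐᵒᵖ (H.comap (opAddEquiv (α := R)).symm.toAddMonoidHom) := by
  obtain ⟨h1, h2, h3⟩ := h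
  have key : ∀ (I : AddSubgroup R) (x : Rᵐᵒᵖ),
      x ∈ I.comap (opAddEquiv (α := R)).symm.toAddMonoidHom ↔ unop x ∈ I := fun I x => Iff.rfl
  have key' : ∀ (I : AddSubgroup Rᵐᵒᵖ) (x : R),
      x ∈ I.comap (opAddEquiv (α := R)).toAddMonoidHom ↔ op x ∈ I := fun I x => Iff.rfl
  refine ⟨fun r x hx => ?_, fun hb => ?_, fun I hI hI0 x hx => ?_⟩
  · rw [key] at hx
    rw [key, key]
    exact ⟨(h1 (unop r) _ hx).2, (h1 (unop r) _ hx).1⟩
  · apply h2
    rw [eq_bot_iff]
    intro x hx
    have hx' : op x ∈ (⊥ : AddSubgroup Rᵐᵒᵖ) := by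
      rw [← hb, key]
      exact hx
    rw [AddSubgroup.mem_bot] at hx' ⊢
    exact op_injective hx'
  · rw [key] at hx
    have hle := h3 (I.comap (opAddEquiv (α := R)).toAddMonoidHom) (fun r y hy => by
      rw [key'] at hy
      rw [key', key']
      exact ⟨(hI (op r) _ hy).2, (hI (op r) _ hy).1⟩) (fun hb => by
      apply hI0
      rw [eq_bot_iff]
      intro y hy
      have hy' : unop y ∈ (⊥ : AddSubgroup R) := by
        rw [← hb, key']
        exact hy
      rw [AddSubgroup.mem_bot] at hy' ⊢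
      exact unop_injective hy')
    exact hle hx

theorem thm_Opp : St_Opp := by
  intro R _
  refine ⟨?_, ?_, ?_, ?_, ?_⟩
  · rintro ⟨hfin, hc⟩
    have hfin' : Finite R := Finite.of_equiv Rᵐᵒᵖ opEquiv.symm
    refine ⟨hfin', fun hR => hc ?_⟩
    intro s t hst
    rw [Opp_holds]
    apply hR
    intro F _ hF hne
    rw [← Opp_holds]
    exact hst Fᵐᵒᵖ (Opp_factor hF) ⟨fun e => hne.false (RingEquiv.unop e)⟩
  · intro n h x
    rw [Opp_pw, Opp_pw, h]
  · rintro ⟨a, b, h1, h2, h3⟩
    refine ⟨unop a, unop b, ?_, ?_, ?_⟩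
    · exact congrArg unop h1
    · have := congrArg unop h2
      rw [unop_mul, unop_mul, ← mul_assoc] at this
      exact this
    · intro h
      exact h3 (unop_injective h)
  · intro _ h e ⟨e1, e2, e3⟩
    have hp : Prm R (unop e) := by
      refine ⟨congrArg unop e1, fun h0 => e2 (unop_injective h0), fun g g1 g2 g3 => ?_⟩
      rcases e3 (op g) (congrArg op g1) (congrArg op g3) (congrArg op g2) with h0 | h0
      · left
        exact congrArg unop h0
      · right
        exact congrArg unop h0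
    obtain ⟨f1, f2, f3⟩ := h _ hp
    refine ⟨e1, e2, fun x x1 x2 x3 => ?_⟩
    obtain ⟨y, y1, y2, y3⟩ := f3 (unop x) (congrArg unop x2) (congrArg unop x1)
      (fun h0 => x3 (unop_injective h0))
    have hy0 : y ≠ 0 := by
      intro h0
      rw [h0, mul_zero] at y3
      exact f2 y3.symm
    obtain ⟨z, z1, z2, z3⟩ := f3 y y1 y2 hy0
    have hz : z = unop x := by
      have hx2 : unop x * unop e = unop x := congrArg unop x1
      rw [← z1, ← y3, mul_assoc, z3, hx2]
    refine ⟨op y, congrArg op y2, congrArg op y1, ?_⟩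
    rw [hz] at z3
    exact congrArg op z3
  · rintro ⟨H, hH⟩
    exact ⟨_, Opp_lst H hH⟩

end Pool.Agent.CRN
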