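import Pool.Agent.CRN.St

/-!
Campaign CRN (problem MP_1bb14d_al): maximal orthogonal families of primitive idempotents.
-/

set_option autoImplicit false

namespace Pool.Agent.CRN

/-- an orthogonal family of `s` primitive idempotents exists -/
def OrfP (R : Type) [NonUnitalRing R] (s : ℕ) : Prop :=
  ∃ e : Fin s → R, (∀ i, Prm R (e i)) ∧ ∀ i j, i ≠ j → e i * e j = 0

theorem Orf_bound {R : Type} [NonUnitalRing R] [Finite R] {s : ℕ} (h : OrfP R s) :
    s ≤ Nat.card R := by
  obtain ⟨e, h1, h2⟩ := h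
  have hinj : Function.Injective e := by
    intro i j hij
    by_contra hne
    have h3 := h2 i j hne
    rw [← hij, (h1 i).1] at h3
    exact (h1 i).2.1 h3
  have := Nat.card_le_card_of_injective e hinj
  rwa [Nat.card_eq_fintype_card, Fintype.card_fin] at this

theorem Orf_cons {R : Type} [NonUnitalRing R] {s : ℕ} {e : Fin s → R} {g : R}
    (h1 : ∀ i, Prm R (e i)) (h2 : ∀ i j, i ≠ j → e i * e j = 0) (h3 : Prm R g)
    (h4 : ∀ i, e i * g = 0 ∧ g * e i = 0) : OrfP R (s + 1) := by
  refine ⟨Fin.cons (α := fun _ => R) g e, ?_, ?_⟩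
  · intro i
    refine Fin.cases ?_ (fun k => ?_) i
    · rw [Fin.cons_zero]
      exact h3
    · rw [Fin.cons_succ]
      exact h1 k
  · intro i j
    refine Fin.cases ?_ (fun k => ?_) i
    · refine Fin.cases ?_ (fun l => ?_) j
      · intro h
        exact absurd rfl h
      · intro _
        rw [Fin.cons_zero, Fin.cons_succ]
        exact (h4 l).2
    · refine Fin.cases ?_ (fun l => ?_) j
      · intro _
        rw [Fin.cons_zero, Fin.cons_succ]
        exact (h4 k).1
      · intro h
        rw [Fin.cons_succ, Fin.cons_succ]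
        exact h2 k l fun hkl => h (congrArg Fin.succ hkl)

theorem thm_Orf (hPrb : St_Prb) : St_Orf := by
  classical
  intro R _ _ hFC
  have h0 : OrfP R 0 := ⟨fun i => i.elim0, fun i => i.elim0, fun i => i.elim0⟩
  have hs := Nat.findGreatest_spec (P := OrfP R) (Nat.zero_le (Nat.card R)) h0
  obtain ⟨e, h1, h2⟩ := hs
  refine ⟨Nat.findGreatest (OrfP R) (Nat.card R), e, fun i => hFC _ (h1 i), h2, ?_⟩
  intro g hg hge
  by_contra hne
  obtain ⟨e', h3, h4, h5⟩ := hPrb R g hg hne
  have h6 : OrfP R (Nat.findGreatest (OrfP R) (Nat.card R) + 1) := by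
    refine Orf_cons h1 h2 h3 fun i => ⟨?_, ?_⟩
    · rw [← h4, ← mul_assoc, (hge i).1, zero_mul]
    · rw [← h5, mul_assoc, (hge i).2, mul_zero]
  exact Nat.findGreatest_is_greatest (Nat.lt_succ_self _) (Orf_bound h6) h6

end Pool.Agent.CRN
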