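import Pool.Agent.CRN.St

/-!
Campaign CRN, module Pca (helper55): Peirce components.
-/

set_option autoImplicit false

namespace Pool.Agent.CRN

open Pool.Agent.CRR

section

variable {R : Type} [NonUnitalRing R] {s : ℕ}

/-- Multiplication by `e_α` on the left. -/
def PcaL (e : Fin s → R) : Option (Fin s) → R →+ R
  | some i => AddMonoidHom.mulLeft (e i)
  | none => AddMonoidHom.id R - ∑ i, AddMonoidHom.mulLeft (e i)

/-- Multiplication by `e_β` on the right. -/
def PcaR (e : Fin s → R) : Option (Fin s) → R →+ R
  | some i => AddMonoidHom.mulRight (e i)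
  | none => AddMonoidHom.id R - ∑ i, AddMonoidHom.mulRight (e i)

theorem PcaL_some (e : Fin s → R) (i : Fin s) (x : R) : PcaL e (some i) x = e i * x := rfl

theorem PcaR_some (e : Fin s → R) (i : Fin s) (x : R) : PcaR e (some i) x = x * e i := rfl

theorem PcaL_none (e : Fin s → R) (x : R) : PcaL e none x = x - ∑ i, e i * x := by
  change (AddMonoidHom.id R - ∑ i, AddMonoidHom.mulLeft (e i)) x = _
  rw [AddMonoidHom.sub_apply, AddMonoidHom.finsetSum_apply]
  rfl

theorem PcaR_none (e : Fin s → R) (x : R) : PcaR e none x = x - ∑ i, x * e i := by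
  change (AddMonoidHom.id R - ∑ i, AddMonoidHom.mulRight (e i)) x = _
  rw [AddMonoidHom.sub_apply, AddMonoidHom.finsetSum_apply]
  rfl

theorem PcaL_sum (e : Fin s → R) (x : R) : ∑ α, PcaL e α x = x := by
  rw [Fintype.sum_option, PcaL_none]
  simp only [PcaL_some]
  exact sub_add_cancel _ _

theorem PcaR_sum (e : Fin s → R) (x : R) : ∑ β, PcaR e β x = x := by
  rw [Fintype.sum_option, PcaR_none]
  simp only [PcaR_some]
  exact sub_add_cancel _ _

theorem PcaL_mul (e : Fin s → R) (α : Option (Fin s)) (x y : R) :
    PcaL e α x * y = PcaL e α (x * y) := by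
  cases α with
  | none => rw [PcaL_none, PcaL_none, sub_mul, Finset.sum_mul]; simp only [mul_assoc]
  | some i => exact mul_assoc _ _ _

theorem PcaL_e (e : Fin s → R) (h1 : ∀ i, e i * e i = e i) (h2 : ∀ i j, i ≠ j → e i * e j = 0)
    (α : Option (Fin s)) (i : Fin s) (x : R) :
    e i * PcaL e α x = if α = some i then PcaL e α x else 0 := by
  cases α with
  | none =>
    rw [if_neg (by simp), PcaL_none, mul_sub, Finset.mul_sum]
    rw [Finset.sum_eq_single i]
    · rw [← mul_assoc, h1, sub_self]
    · intro j _ hj
      rw [← mul_assoc, h2 i j (Ne.symm hj), zero_mul]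
    · intro h
      exact absurd (Finset.mem_univ i) h
  | some j =>
    rw [PcaL_some, ← mul_assoc]
    by_cases hij : j = i
    · subst hij
      rw [if_pos rfl, h1]
    · rw [if_neg (fun h => hij (Option.some_injective _ h)), h2 i j (Ne.symm hij), zero_mul]

theorem PcaR_e (e : Fin s → R) (h1 : ∀ i, e i * e i = e i) (h2 : ∀ i j, i ≠ j → e i * e j = 0)
    (β : Option (Fin s)) (i : Fin s) (x : R) :
    PcaR e β x * e i = if β = some i then PcaR e β x else 0 := by
  cases β with
  | none =>
    rw [if_neg (by simp), PcaR_none, sub_mul, Finset.sum_mul]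
    rw [Finset.sum_eq_single i]
    · rw [mul_assoc, h1, sub_self]
    · intro j _ hj
      rw [mul_assoc, h2 j i hj, mul_zero]
    · intro h
      exact absurd (Finset.mem_univ i) h
  | some j =>
    rw [PcaR_some, mul_assoc]
    by_cases hij : j = i
    · subst hij
      rw [if_pos rfl, h1]
    · rw [if_neg (fun h => hij (Option.some_injective _ h)), h2 j i hij, mul_zero]

theorem PcaL_Pc (e : Fin s → R) {α' β' : Option (Fin s)} {y : R} (h : Pc e α' β' y)
    (α : Option (Fin s)) : PcaL e α y = if α = α' then y else 0 := by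
  cases α with
  | some i =>
    rw [PcaL_some, h.1 i]
    simp only [eq_comm]
  | none =>
    rw [PcaL_none]
    simp only [h.1]
    cases α' with
    | none => simp
    | some j => simp

theorem PcaR_Pc (e : Fin s → R) {α' β' : Option (Fin s)} {y : R} (h : Pc e α' β' y)
    (β : Option (Fin s)) : PcaR e β y = if β = β' then y else 0 := by
  cases β with
  | some i =>
    rw [PcaR_some, h.2 i]
    simp only [eq_comm]
  | none =>
    rw [PcaR_none]
    simp only [h.2]
    cases β' with
    | none => simp
    | some j => simp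

theorem PcaL_mem (e : Fin s → R) {I : AddSubgroup R} (hI : Idl R I) {x : R} (hx : x ∈ I)
    (α : Option (Fin s)) : PcaL e α x ∈ I := by
  cases α with
  | some i => exact (hI _ x hx).1
  | none =>
    rw [PcaL_none]
    exact sub_mem hx (sum_mem fun i _ => (hI _ x hx).1)

theorem PcaR_mem (e : Fin s → R) {I : AddSubgroup R} (hI : Idl R I) {x : R} (hx : x ∈ I)
    (β : Option (Fin s)) : PcaR e β x ∈ I := by
  cases β with
  | some i => exact (hI _ x hx).2
  | none =>
    rw [PcaR_none]
    exact sub_mem hx (sum_mem fun i _ => (hI _ x hx).2)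

end

theorem thm_Pca : St_Pca := by
  intro R _ s e h1 h2
  refine ⟨?_, ?_, ?_, ?_, ?_⟩
  · intro α β γ δ x y hx hy
    refine ⟨fun _ => ⟨fun i => ?_, fun j => ?_⟩, fun hne => ?_⟩
    · rw [← mul_assoc, hx.1 i, ite_mul, zero_mul]
    · rw [mul_assoc, hy.2 j, mul_ite, mul_zero]
    · cases β with
      | some j =>
        have h3 : x * e j = x := by rw [hx.2 j, if_pos rfl]
        have h4 : e j * y = 0 := by rw [hy.1 j, if_neg (fun h => hne h.symm)]
        rw [← h3, mul_assoc, h4, mul_zero]
      | none =>
        cases γ with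
        | none => exact absurd rfl hne
        | some j =>
          have h3 : x * e j = 0 := by rw [hx.2 j, if_neg hne]
          have h4 : e j * y = y := by rw [hy.1 j, if_pos rfl]
          rw [← h4, ← mul_assoc, h3, zero_mul]
  · intro x
    refine ⟨fun α β => PcaL e α (PcaR e β x), fun α β => ⟨fun i => ?_, fun j => ?_⟩, ?_, ?_, ?_⟩
    · exact PcaL_e e h1 h2 α i _
    · rw [PcaL_mul, PcaR_e e h1 h2]
      split_ifs
      · rfl
      · exact map_zero _
    · simp only [← map_sum]
      rw [PcaL_sum] <;> exact PcaR_sum e x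
    · intro I hI hx α β
      exact PcaL_mem e hI (PcaR_mem e hI hx β) α
    · intro i
      exact (mul_assoc _ _ _).symm
  · intro c hc hsum α β
    have h3 : PcaL e α (∑ α', ∑ β', c α' β') = ∑ β', c α β' := by
      rw [map_sum, Finset.sum_eq_single α]
      · rw [map_sum]
        refine Finset.sum_congr rfl fun β' _ => ?_
        rw [PcaL_Pc e (hc α β'), if_pos rfl]
      · intro α' _ hα
        rw [map_sum]
        refine Finset.sum_eq_zero fun β' _ => ?_
        rw [PcaL_Pc e (hc α' β'), if_neg (Ne.symm hα)]
      · intro h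
        exact absurd (Finset.mem_univ α) h
    rw [hsum, map_zero] at h3
    have h4 : PcaR e β (∑ β', c α β') = c α β := by
      rw [map_sum, Finset.sum_eq_single β]
      · rw [PcaR_Pc e (hc α β), if_pos rfl]
      · intro β' _ hβ
        rw [PcaR_Pc e (hc α β'), if_neg (Ne.symm hβ)]
      · intro h
        exact absurd (Finset.mem_univ β) h
    rw [← h3, map_zero] at h4
    exact h4.symm
  · intro α β x y hx hy
    refine ⟨⟨fun i => ?_, fun j => ?_⟩, ⟨fun i => ?_, fun j => ?_⟩⟩
    · rw [mul_add, hx.1, hy.1]
      split_ifs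
      · rfl
      · exact add_zero _
    · rw [add_mul, hx.2, hy.2]
      split_ifs
      · rfl
      · exact add_zero _
    · rw [mul_neg, hx.1]
      split_ifs
      · rfl
      · exact neg_zero
    · rw [neg_mul, hx.2]
      split_ifs
      · rfl
      · exact neg_zero
  · intro α β
    refine ⟨fun i => ?_, fun j => ?_⟩
    · rw [mul_zero, ite_self]
    · rw [zero_mul, ite_self]

end Pool.Agent.CRN
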