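import Pool.Agent.CRN.St

/-!
# CRN/Prb: primitive idempotents below an idempotent (helper42, after the plan of helper39)
-/

set_option autoImplicit false

namespace Pool.Agent.CRN

open Pool.Agent.CRR

theorem thm_Prb : St_Prb := by
  classical
  intro R _ _ g hg hg0
  -- the elements of the corner
  let K : R → Set R := fun e => {x | e * x = x ∧ x * e = x}
  have hfin : ∀ e, (K e).Finite := fun e => Set.toFinite _
  let P : R → Prop := fun e => e * e = e ∧ e ≠ 0 ∧ g * e = e ∧ e * g = e
  obtain ⟨e, he, hmin⟩ : ∃ e, P e ∧ ∀ e', P e' → (K e).ncard ≤ (K e').ncard := by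
    have hne : {e | P e}.Nonempty := ⟨g, hg, hg0, hg, hg⟩
    obtain ⟨e, he, hm⟩ := Set.exists_min_image {e | P e} (fun e => (K e).ncard) (Set.toFinite _) hne
    exact ⟨e, he, fun e' he' => hm e' he'⟩
  obtain ⟨he1, he2, he3, he4⟩ := he
  refine ⟨e, ⟨he1, he2, ?_⟩, he3, he4⟩
  intro h hh h1 h2
  by_cases h0 : h = 0
  · exact Or.inl h0
  · right
    have hP : P h := by
      refine ⟨hh, h0, ?_, ?_⟩
      · rw [← h1, ← mul_assoc, he3]
      · rw [← h2, mul_assoc, he4]
    have hsub : K h ⊆ K e := by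
      rintro x ⟨hx1, hx2⟩
      refine ⟨?_, ?_⟩
      · rw [← hx1, ← mul_assoc, h1]
      · rw [← hx2, mul_assoc, h2]
    have heq : K h = K e := Set.eq_of_subset_of_ncard_le hsub (hmin h hP) (hfin e)
    have hek : e ∈ K h := by
      rw [heq]
      exact ⟨he1, he1⟩
    rw [← h2]
    exact hek.1

end Pool.Agent.CRN
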