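import Pool.Agent.CRN.St

/-! Campaign CRN, module RLA: the words with letters at one vertex. -/

set_option autoImplicit false

namespace Pool.Agent.CRN

open Pool.Agent.CRR

section

variable {R : Type} [NonUnitalRing R]

theorem Rla_z1 {x y g : R} (h1 : x * g = 0) (h2 : g * y = y) : x * y = 0 := by
  rw [← h2, ← mul_assoc, h1, zero_mul]

theorem Rla_z2 {x y g : R} (h1 : x * g = x) (h2 : g * y = 0) : x * y = 0 := by
  rw [← h1, mul_assoc, h2, mul_zero]

theorem Rla_z3 {x y : R} (h : x * y = 0) (z : R) : x * (y * z) = 0 := by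
  rw [← mul_assoc, h, zero_mul]

end

theorem thm_Rla (hJid : St_Jid) (hPca : St_Pca) : St_Rla := by
  intro n R _ _ s e hC
  obtain ⟨_, J2, _, J4, J5, _, _⟩ := hJid n R s e hC
  obtain ⟨P1, _, _, _, _⟩ := hPca R s e (fun i => (hC.fam.fld i).1) hC.fam.orth
  have ee : ∀ i, e i * e i = e i := fun i => (hC.fam.fld i).1
  have la : ∀ {a : R}, Pc e none none a → ∀ k, e k * a = 0 := fun h k => by
    simpa using h.1 k
  have ra : ∀ {a : R}, Pc e none none a → ∀ k, a * e k = 0 := fun h k => by
    simpa using h.2 k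
  have lb : ∀ {b : R} {i : Fin s}, Pc e none (some i) b → ∀ k, e k * b = 0 := fun h k => by
    simpa using h.1 k
  have rb : ∀ {b : R} {i : Fin s}, Pc e none (some i) b → b * e i = b := fun {b i} h => by
    simpa using h.2 i
  have lc : ∀ {c : R} {i : Fin s}, Pc e (some i) none c → e i * c = c := fun {c i} h => by
    simpa using h.1 i
  have rc : ∀ {c : R} {i : Fin s}, Pc e (some i) none c → ∀ k, c * e k = 0 := fun h k => by
    simpa using h.2 k
  have mA : ∀ {a : R}, Pc e none none a → a ∈ JJ e := fun h => J5 _ _ _ h fun _ => rfl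
  have mB : ∀ {b : R} {i : Fin s}, Pc e none (some i) b → b ∈ JJ e := fun h =>
    J5 _ _ _ h fun _ => rfl
  have mC : ∀ {c : R} {i : Fin s}, Pc e (some i) none c → c ∈ JJ e := fun h =>
    J5 _ _ _ h fun k => by simp at k
  have aaa : ∀ {a : R}, Pc e none none a → a * (a * a) = 0 := fun h => by
    rw [← mul_assoc]; exact J2 _ (mA h)
  -- products which vanish
  have ac : ∀ {a c : R} {i : Fin s}, Pc e none none a → Pc e (some i) none c → a * c = 0 :=
    fun {a c i} h h' => Rla_z1 (ra h i) (lc h')
  have ba : ∀ {b a : R} {i : Fin s}, Pc e none (some i) b → Pc e none none a → b * a = 0 :=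
    fun {b a i} h h' => Rla_z2 (rb h) (la h' i)
  have bb : ∀ {b b' : R} {i j : Fin s}, Pc e none (some i) b → Pc e none (some j) b' →
      b * b' = 0 := fun {b b' i j} h h' => Rla_z2 (rb h) (lb h' i)
  have cc : ∀ {c c' : R} {i j : Fin s}, Pc e (some i) none c → Pc e (some j) none c' →
      c * c' = 0 := fun {c c' i j} h h' => Rla_z1 (rc h j) (lc h')
  have R1 : ∀ {a b : R} {i : Fin s}, Pc e none none a → Pc e none (some i) b →
      a * (a * b) = 0 := by
    intro a b i ha hb
    have h := J2 (a + b) ((JJ e).add_mem (mA ha) (mB hb))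
    simpa only [add_mul, mul_add, mul_assoc, ba hb ha, bb hb hb, mul_zero, add_zero, zero_add,
      aaa ha] using h
  have R3 : ∀ {a c : R} {i : Fin s}, Pc e none none a → Pc e (some i) none c →
      c * (a * a) = 0 := by
    intro a c i ha hc
    have h := J2 (a + c) ((JJ e).add_mem (mA ha) (mC hc))
    simpa only [add_mul, mul_add, mul_assoc, ac ha hc, cc hc hc, Rla_z3 (ac ha hc),
      Rla_z3 (cc hc hc), mul_zero, add_zero, zero_add, aaa ha] using h
  have aa : ∀ {a a' : R}, Pc e none none a → Pc e none none a' → Pc e none none (a + a') := by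
    intro a a' ha ha'
    constructor
    · intro k
      rw [mul_add, la ha, la ha']; simp
    · intro k
      rw [add_mul, ra ha, ra ha']; simp
  intro a a' b b' c i j ha ha' hb hb' hc
  have cb : c * b = 0 := J4 i none c b (by simp) hc hb
  refine ⟨?_, ?_, ?_, ?_, ?_, ?_, cb⟩
  · rw [mul_assoc]; exact R1 ha hb
  · have h := R1 (aa ha ha') hb
    simp only [add_mul, mul_add, R1 ha hb, R1 ha' hb, zero_add, add_zero] at h
    rw [add_mul, mul_assoc, mul_assoc]
    exact (add_comm _ _).trans h
  · rw [mul_assoc]; exact R3 ha hc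
  · have h := R3 (aa ha ha') hc
    simp only [add_mul, mul_add, R3 ha hc, R3 ha' hc, zero_add, add_zero] at h
    rw [mul_add]
    exact (add_comm _ _).trans h
  · have h := J2 (a + b + c) ((JJ e).add_mem ((JJ e).add_mem (mA ha) (mB hb)) (mC hc))
    have cab : c * (a * b) = 0 := by
      rw [← mul_assoc]
      exact J4 i none (c * a) b (by simp) ((P1 _ _ _ _ _ _ hc ha).1 rfl) hb
    simp only [add_mul, mul_add, mul_assoc, ac ha hc, cc hc hc, ba hb ha, bb hb hb, cb,
      mul_zero, add_zero, zero_add, aaa ha, R1 ha hb, R3 ha hc, cab] at h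
    rw [mul_assoc, mul_assoc]
    first
      | exact h
      | exact (add_comm _ _).trans h
  · by_cases hij : i = j
    · subst hij
      exact J4 i none (c * a) b' (by simp) ((P1 _ _ _ _ _ _ hc ha).1 rfl) hb'
    · have bc : b' * c = 0 := by
        rw [← rb hb', ← lc hc, mul_assoc, ← mul_assoc (e j), hC.fam.orth j i (Ne.symm hij),
          zero_mul, mul_zero]
      have h := J2 (c + a + b') ((JJ e).add_mem ((JJ e).add_mem (mC hc) (mA ha)) (mB hb'))
      simp only [add_mul, mul_add, mul_assoc, ac ha hc, cc hc hc, ba hb' ha, bb hb' hb', bc,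
        mul_zero, add_zero, zero_add, aaa ha, R1 ha hb', R3 ha hc] at h
      rw [mul_assoc]
      exact h

end Pool.Agent.CRN
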