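import Pool.Agent.CRN.St

/-!
# CRN/Rlb: the words of length three (helper18, after the plan of helper39)
-/

set_option autoImplicit false

namespace Pool.Agent.CRN

open Pool.Agent.CRR

section Rlb

variable {R : Type} [NonUnitalRing R] {s : ℕ}

/-- projection on the left -/
def RlbL (e : Fin s → R) (α : Option (Fin s)) (x : R) : R :=
  match α with
  | some i => e i * x
  | none => x - ∑ i, e i * x

/-- projection on the right -/
def RlbR (e : Fin s → R) (α : Option (Fin s)) (x : R) : R :=
  match α with
  | some i => x * e i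
  | none => x - ∑ i, x * e i

theorem RlbL_mul (e : Fin s → R) (α : Option (Fin s)) (x y : R) :
    RlbL e α (x * y) = RlbL e α x * y := by
  cases α with
  | none =>
    simp only [RlbL, sub_mul, Finset.sum_mul, mul_assoc]
  | some i => exact (mul_assoc _ _ _).symm

theorem RlbR_mul (e : Fin s → R) (α : Option (Fin s)) (x y : R) :
    RlbR e α (x * y) = x * RlbR e α y := by
  cases α with
  | none =>
    simp only [RlbR, mul_sub, Finset.mul_sum, mul_assoc]
  | some i => exact mul_assoc _ _ _

theorem RlbL_add (e : Fin s → R) (α : Option (Fin s)) (x y : R) :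
    RlbL e α (x + y) = RlbL e α x + RlbL e α y := by
  cases α with
  | none =>
    simp only [RlbL, mul_add, Finset.sum_add_distrib]
    abel
  | some i => exact mul_add _ _ _

theorem RlbR_add (e : Fin s → R) (α : Option (Fin s)) (x y : R) :
    RlbR e α (x + y) = RlbR e α x + RlbR e α y := by
  cases α with
  | none =>
    simp only [RlbR, add_mul, Finset.sum_add_distrib]
    abel
  | some i => exact add_mul _ _ _

theorem RlbL_eq {e : Fin s → R} {α β : Option (Fin s)} {x : R} (h : Pc e α β x) :
    RlbL e α x = x := by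
  cases α with
  | none =>
    show x - ∑ i, e i * x = x
    rw [Finset.sum_eq_zero, sub_zero]
    intro i _
    rw [h.1 i, if_neg (by simp)]
  | some i =>
    show e i * x = x
    rw [h.1 i, if_pos rfl]

theorem RlbR_eq {e : Fin s → R} {α β : Option (Fin s)} {x : R} (h : Pc e α β x) :
    RlbR e β x = x := by
  cases β with
  | none =>
    show x - ∑ i, x * e i = x
    rw [Finset.sum_eq_zero, sub_zero]
    intro i _
    rw [h.2 i, if_neg (by simp)]
  | some i =>
    show x * e i = x
    rw [h.2 i, if_pos rfl]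

theorem RlbL_ne {e : Fin s → R} {α β γ : Option (Fin s)} {x : R} (h : Pc e α β x) (hn : α ≠ γ) :
    RlbL e γ x = 0 := by
  cases γ with
  | none =>
    obtain ⟨i, rfl⟩ := Option.ne_none_iff_exists'.1 hn
    show x - ∑ j, e j * x = 0
    rw [Finset.sum_eq_single i]
    · rw [h.1 i, if_pos rfl, sub_self]
    · intro j _ hj
      rw [h.1 j, if_neg]
      intro h0
      exact hj (Option.some.inj h0).symm
    · intro h0
      exact absurd (Finset.mem_univ _) h0
  | some i =>
    show e i * x = 0
    rw [h.1 i, if_neg hn]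

theorem RlbR_ne {e : Fin s → R} {α β γ : Option (Fin s)} {x : R} (h : Pc e α β x) (hn : β ≠ γ) :
    RlbR e γ x = 0 := by
  cases γ with
  | none =>
    obtain ⟨i, rfl⟩ := Option.ne_none_iff_exists'.1 hn
    show x - ∑ j, x * e j = 0
    rw [Finset.sum_eq_single i]
    · rw [h.2 i, if_pos rfl, sub_self]
    · intro j _ hj
      rw [h.2 j, if_neg]
      intro h0
      exact hj (Option.some.inj h0).symm
    · intro h0
      exact absurd (Finset.mem_univ _) h0
  | some i =>
    show x * e i = 0
    rw [h.2 i, if_neg hn]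

/-- the component of the cube -/
theorem Rlb_cube (e : Fin s → R) (α δ : Option (Fin s)) {u : R} (h : u * u * u = 0) :
    RlbL e α u * u * RlbR e δ u = 0 := by
  have h1 : RlbR e δ (RlbL e α (u * u * u)) = RlbL e α u * u * RlbR e δ u := by
    rw [RlbL_mul, RlbL_mul, RlbR_mul]
  rw [← h1, h]
  have h2 : RlbL e α (0 : R) = 0 := by
    have := RlbL_mul e α (0 : R) 0
    rwa [mul_zero, mul_zero] at this
  have h3 : RlbR e δ (0 : R) = 0 := by
    have := RlbR_mul e δ (0 : R) 0
    rwa [zero_mul, zero_mul] at this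
  rw [h2, h3]

end Rlb

theorem thm_Rlb (hJ : St_Jid) (hP : St_Pca) : St_Rlb := by
  intro n R _ _ s e hC
  obtain ⟨hI, hcube, -, h0, hJJ, -, -⟩ := hJ n R s e hC
  have hcomp := (hP R s e (fun i => (hC.fam.fld i).1) hC.fam.orth).1
  have hz : ∀ {α β γ δ : Option (Fin s)} {x y : R}, Pc e α β x → Pc e γ δ y → β ≠ γ → x * y = 0 :=
    fun {α β γ δ x y} h1 h2 h3 => (hcomp α β γ δ x y h1 h2).2 h3
  have hmem : ∀ {α β : Option (Fin s)} {x : R}, Pc e α β x → α ≠ β → x ∈ JJ e :=
    fun {α β x} h1 h2 => hJJ α β x h1 fun h3 => absurd h3 h2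
  refine ⟨?_, ?_, ?_⟩
  · intro α β γ δ x y z hab hbg hgd hx hy hzz
    have hu := hcube (x + y + z) ((JJ e).add_mem ((JJ e).add_mem (hmem hx hab) (hmem hy hbg)) (hmem hzz hgd))
    have hk := Rlb_cube e α δ hu
    have hxz : x * z = 0 := hz hx hzz hbg
    have hxx : x * x = 0 := hz hx hx (Ne.symm hab)
    have hzzz : z * z = 0 := hz hzz hzz (Ne.symm hgd)
    by_cases hag : α = γ
    · cases α with
      | some i =>
        subst hag
        rw [h0 i β x y (Ne.symm hab) hx hy, zero_mul]
      | none =>
        subst hag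
        by_cases hbd : β = δ
        · subst hbd
          obtain ⟨j, rfl⟩ := Option.ne_none_iff_exists'.1 hbg
          rw [mul_assoc, h0 j none y z hgd hy hzz, mul_zero]
        · rw [RlbL_add, RlbL_add, RlbL_eq hx, RlbL_ne hy hbg, RlbL_eq hzz, RlbR_add, RlbR_add,
            RlbR_ne hx hbd, RlbR_ne hy hgd, RlbR_eq hzz, zero_add, zero_add, add_zero] at hk
          have hzx : z * x = 0 := hz hzz hx (Ne.symm hgd)
          have hzy : z * y = 0 := hz hzz hy (Ne.symm hbd)
          simpa only [add_mul, mul_add, hxx, hxz, hzx, hzy, hzzz, zero_mul, zero_add, add_zero] using hk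
    · have h5 : x * (x + y + z) = x * y := by
        rw [mul_add, mul_add, hxx, hxz, zero_add, add_zero]
      rw [RlbL_add, RlbL_add, RlbL_eq hx, RlbL_ne hy (Ne.symm hab), RlbL_ne hzz (Ne.symm hag),
        RlbR_add, RlbR_add, RlbR_ne hy hgd, RlbR_eq hzz, add_zero, add_zero, add_zero, h5] at hk
      have hyx : y * x = 0 := hz hy hx (Ne.symm hag)
      by_cases hbd : β = δ
      · subst hbd
        rw [RlbR_eq hx, mul_add, mul_assoc x y x, hyx, mul_zero, zero_add] at hk
        exact hk
      · rw [RlbR_ne hx hbd, zero_add] at hk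
        exact hk
  · intro i δ a b y hd hdi ha hb hy
    have hu := hcube (a + b + y) ((JJ e).add_mem ((JJ e).add_mem (hJJ none none a ha fun _ => rfl)
      (hmem hb (by simp))) (hmem hy (Ne.symm hdi)))
    have hk := Rlb_cube e none δ hu
    rw [RlbL_add, RlbL_add, RlbL_eq ha, RlbL_eq hb, RlbL_ne hy (by simp), RlbR_add, RlbR_add,
      RlbR_ne ha (Ne.symm hd), RlbR_ne hb (Ne.symm hdi), RlbR_eq hy, zero_add, zero_add, add_zero] at hk
    have hay : a * y = 0 := hz ha hy (by simp)
    have hba : b * a = 0 := hz hb ha (by simp)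
    have hbb : b * b = 0 := hz hb hb (by simp)
    have hyy : y * y = 0 := hz hy hy hdi
    simpa only [add_mul, mul_add, mul_assoc, hay, hba, hbb, hyy, mul_zero, zero_mul, zero_add, add_zero]
      using hk
  · intro i δ a c y hd hdi ha hc hy
    have hu := hcube (a + c + y) ((JJ e).add_mem ((JJ e).add_mem (hJJ none none a ha fun _ => rfl)
      (hmem hc (by simp))) (hmem hy hdi))
    have hk := Rlb_cube e δ none hu
    rw [RlbL_add, RlbL_add, RlbL_ne ha (Ne.symm hd), RlbL_ne hc (Ne.symm hdi), RlbL_eq hy, RlbR_add,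
      RlbR_add, RlbR_eq ha, RlbR_eq hc, RlbR_ne hy (by simp), zero_add, zero_add, add_zero] at hk
    have hya : y * a = 0 := hz hy ha (by simp)
    have hyy : y * y = 0 := hz hy hy (Ne.symm hdi)
    have hcc : c * c = 0 := hz hc hc (by simp)
    have h5 : y * (a + c + y) = y * c := by
      rw [mul_add, mul_add, hya, hyy, zero_add, add_zero]
    rw [h5, mul_add, mul_assoc y c c, hcc, mul_zero, add_zero] at hk
    exact hk

end Pool.Agent.CRN
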