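import Pool.Agent.CRN.St

/-!
Campaign CRN, `St_Rnk`: orthogonal idempotent matrices.
-/

set_option autoImplicit false

namespace Pool.Agent.CRN

open Matrix

theorem thm_Rnk : St_Rnk := by
  intro F _ k m g hi ho hn
  have hx : ∀ i, ∃ x : Fin k → F, x ≠ 0 ∧ g i *ᵥ x = x := by
    intro i
    by_contra hcon
    apply hn i
    have h1 : ∀ v : Fin k → F, g i *ᵥ v = 0 := by
      intro v
      by_contra hv
      apply hcon
      exact ⟨g i *ᵥ v, hv, by rw [Matrix.mulVec_mulVec, hi]⟩
    apply (Matrix.toLin' (R := F) (m := Fin k) (n := Fin k)).injective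
    apply LinearMap.ext
    intro v
    rw [Matrix.toLin'_apply, h1]
    simp
  choose x hx0 hx1 using hx
  have hx2 : ∀ i j, i ≠ j → g j *ᵥ x i = 0 := by
    intro i j hij
    rw [← hx1 i, Matrix.mulVec_mulVec, ho j i hij.symm, Matrix.zero_mulVec]
  have hli : LinearIndependent F x := by
    rw [Fintype.linearIndependent_iff]
    intro c hc i
    have h1 := congrArg (fun v => g i *ᵥ v) hc
    simp only [Matrix.mulVec_sum, Matrix.mulVec_smul, Matrix.mulVec_zero] at h1
    rw [Finset.sum_eq_single i] at h1
    · rw [hx1] at h1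
      exact (smul_eq_zero.1 h1).resolve_right (hx0 i)
    · intro j _ hj
      rw [hx2 j i hj, smul_zero]
    · simp
  have hcard : m ≤ k := by
    have := hli.fintype_card_le_finrank
    simpa using this
  refine ⟨hcard, ?_⟩
  intro hmk
  subst hmk
  rcases Nat.eq_zero_or_pos m with h0 | h0
  · subst h0
    exact ⟨Subsingleton.elim _ _, fun i => i.elim0⟩
  have hne : Nonempty (Fin m) := ⟨⟨0, h0⟩⟩
  let b : Module.Basis (Fin m) F (Fin m → F) :=
    basisOfLinearIndependentOfCardEqFinrank hli (by simp)
  have hb : ∀ i, b i = x i := fun i => by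
    simp [b]
  have hgx : ∀ i j, g i *ᵥ x j = if i = j then x j else 0 := by
    intro i j
    split_ifs with h
    · rw [h, hx1]
    · exact hx2 j i (Ne.symm h)
  have hext : ∀ A B : Matrix (Fin m) (Fin m) F, (∀ j, A *ᵥ x j = B *ᵥ x j) → A = B := by
    intro A B h
    apply (Matrix.toLin' (R := F) (m := Fin m) (n := Fin m)).injective
    apply b.ext
    intro j
    rw [hb, Matrix.toLin'_apply, Matrix.toLin'_apply, h]
  constructor
  · apply hext
    intro j
    rw [Matrix.sum_mulVec, Matrix.one_mulVec, Finset.sum_eq_single j]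
    · exact hx1 j
    · intro i _ hij
      rw [hgx, if_neg hij]
    · simp
  · intro i A
    have h1 : ∀ v : Fin m → F, ∃ c : F, g i *ᵥ v = c • x i := by
      intro v
      refine ⟨b.repr v i, ?_⟩
      have h2 : v = ∑ j, b.repr v j • x j := by
        conv_lhs => rw [← b.sum_repr v]
        exact Finset.sum_congr rfl fun j _ => by rw [hb]
      conv_lhs => rw [h2]
      rw [Matrix.mulVec_sum, Finset.sum_eq_single i]
      · rw [Matrix.mulVec_smul, hx1]
      · intro j _ hj
        rw [Matrix.mulVec_smul, hx2 j i hj, smul_zero]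
      · simp
    obtain ⟨c, hc⟩ := h1 (A *ᵥ x i)
    refine ⟨c, ?_⟩
    apply hext
    intro j
    rw [← Matrix.mulVec_mulVec, ← Matrix.mulVec_mulVec, Matrix.smul_mulVec, hgx]
    split_ifs with h
    · subst h
      exact hc
    · simp

end Pool.Agent.CRN
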