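import Pool.Agent.CRN.St

/-!
Campaign CRN, module Sbb: the structure of the rings of type B.
-/

set_option autoImplicit false

namespace Pool.Agent.CRN

open Pool.Agent.CRR

section

variable {R : Type} [NonUnitalRing R] {s : ℕ} {e : Fin s → R}

/-- products of elements of subgroups given by generators -/
theorem Sbb_mul {A B : Set R} {N : AddSubgroup R} (h : ∀ x ∈ A, ∀ y ∈ B, x * y ∈ N) {x y : R}
    (hx : x ∈ AddSubgroup.closure A) (hy : y ∈ AddSubgroup.closure B) : x * y ∈ N := by
  induction hx using AddSubgroup.closure_induction with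
  | mem x hx =>
    induction hy using AddSubgroup.closure_induction with
    | mem y hy => exact h x hx y hy
    | zero => rw [mul_zero]; exact N.zero_mem
    | add y y' _ _ h1 h2 => rw [mul_add]; exact N.add_mem h1 h2
    | neg y _ h1 => rw [mul_neg]; exact N.neg_mem h1
  | zero => rw [zero_mul]; exact N.zero_mem
  | add x x' _ _ h1 h2 => rw [add_mul]; exact N.add_mem h1 h2
  | neg x _ h1 => rw [neg_mul]; exact N.neg_mem h1

/-- the group generated by the multiples of `z` with elements of the fields -/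
def SbbM (e : Fin s → R) (z : R) : AddSubgroup R := AddSubgroup.closure {w | Mlt e z w}

theorem SbbM_self (z : R) : z ∈ SbbM e z := AddSubgroup.subset_closure (Or.inl rfl)

theorem Sbb_pcf (orth : ∀ i j, i ≠ j → e i * e j = 0) {f : R} {i j : Fin s}
    (h1 : e i * f = f) (h2 : f * e j = f) : Pc e (some i) (some j) f := by
  constructor
  · intro m
    by_cases h : i = m
    · subst h
      rw [if_pos rfl, h1]
    · rw [if_neg (fun h' => h (Option.some.inj h')), ← h1, ← mul_assoc,
        orth m i (fun h' => h h'.symm), zero_mul]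
  · intro m
    by_cases h : j = m
    · subst h
      rw [if_pos rfl, h2]
    · rw [if_neg (fun h' => h (Option.some.inj h')), ← h2, mul_assoc, orth j m h, mul_zero]

/-- the rules for the components -/
structure SbbP (e : Fin s → R) : Prop where
  orth : ∀ i j, i ≠ j → e i * e j = 0
  mul : ∀ {α β γ x y}, Pc e α β x → Pc e β γ y → Pc e α γ (x * y)
  zero : ∀ {α β γ δ x y}, Pc e α β x → Pc e γ δ y → β ≠ γ → x * y = 0
  add : ∀ {α β x y}, Pc e α β x → Pc e α β y → Pc e α β (x + y)
  neg : ∀ {α β x}, Pc e α β x → Pc e α β (-x)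
  pz : ∀ α β, Pc e α β 0

theorem SbbP_of (hPca : St_Pca) (hi : ∀ i, e i * e i = e i)
    (ho : ∀ i j, i ≠ j → e i * e j = 0) : SbbP e := by
  obtain ⟨h1, -, -, h4, h5⟩ := hPca R s e hi ho
  exact ⟨ho, fun {α β γ x y} hx hy => (h1 α β β γ x y hx hy).1 rfl,
    fun {α β γ δ x y} hx hy h => (h1 α β γ δ x y hx hy).2 h,
    fun {α β x y} hx hy => (h4 α β x y hx hy).1, fun {α β x} hx => (h4 α β x x hx hx).2, h5⟩

theorem Sbb_g0 (P : SbbP e) {f : R} (hf : f ∈ G0 e) : ∃ m, Pc e (some m) (some m) f := by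
  obtain ⟨m, h1, h2⟩ := hf
  exact ⟨m, Sbb_pcf P.orth h1 h2⟩

theorem Sbb_g0' {f : R} {m : Fin s} (hf : Pc e (some m) (some m) f) : f ∈ G0 e := by
  refine ⟨m, ?_, ?_⟩
  · have h := hf.1 m
    rwa [if_pos rfl] at h
  · have h := hf.2 m
    rwa [if_pos rfl] at h

theorem Sbb_g0mul (P : SbbP e) {f f' : R} (hf : f ∈ G0 e) (hf' : f' ∈ G0 e) :
    f * f' ∈ G0 e ∨ f * f' = 0 := by
  obtain ⟨m, h⟩ := Sbb_g0 P hf
  obtain ⟨m', h'⟩ := Sbb_g0 P hf'
  by_cases hm : some m = some m'
  · rw [← hm] at h'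
    exact Or.inl (Sbb_g0' (P.mul h h'))
  · exact Or.inr (P.zero h h' hm)

theorem Sbb_fl (P : SbbP e) {α β : Option (Fin s)} {f z : R} (hf : f ∈ G0 e)
    (hz : Pc e α β z) : Pc e α β (f * z) := by
  obtain ⟨m, h⟩ := Sbb_g0 P hf
  by_cases hm : some m = α
  · subst hm
    exact P.mul h hz
  · rw [P.zero h hz hm]
    exact P.pz _ _

theorem Sbb_fr (P : SbbP e) {α β : Option (Fin s)} {f z : R} (hf : f ∈ G0 e)
    (hz : Pc e α β z) : Pc e α β (z * f) := by
  obtain ⟨m, h⟩ := Sbb_g0 P hf
  by_cases hm : β = some m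
  · subst hm
    exact P.mul hz h
  · rw [P.zero hz h hm]
    exact P.pz _ _

theorem SbbM_pc (P : SbbP e) {α β : Option (Fin s)} {z : R} (hz : Pc e α β z) {w : R}
    (hw : w ∈ SbbM e z) : Pc e α β w := by
  unfold SbbM at hw
  induction hw using AddSubgroup.closure_induction with
  | mem x hx =>
    rcases hx with rfl | ⟨f, hf, rfl⟩ | ⟨f, hf, rfl⟩ | ⟨f, hf, f', hf', rfl⟩
    · exact hz
    · exact Sbb_fl P hf hz
    · exact Sbb_fr P hf hz
    · exact Sbb_fr P hf' (Sbb_fl P hf hz)
  | zero => exact P.pz _ _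
  | add x x' _ _ h1 h2 => exact P.add h1 h2
  | neg x _ h1 => exact P.neg h1

theorem SbbM_l (P : SbbP e) {z f w : R} (hf : f ∈ AddSubgroup.closure (G0 e))
    (hw : w ∈ SbbM e z) : f * w ∈ SbbM e z := by
  refine Sbb_mul (A := G0 e) (B := {w | Mlt e z w}) ?_ hf hw
  intro f hf w hw
  rcases hw with rfl | ⟨f1, hf1, rfl⟩ | ⟨f1, hf1, rfl⟩ | ⟨f1, hf1, f2, hf2, rfl⟩
  · exact AddSubgroup.subset_closure (Or.inr (Or.inl ⟨f, hf, rfl⟩))
  · rw [← mul_assoc]
    rcases Sbb_g0mul P hf hf1 with h | h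
    · exact AddSubgroup.subset_closure (Or.inr (Or.inl ⟨_, h, rfl⟩))
    · rw [h, zero_mul]
      exact AddSubgroup.zero_mem _
  · rw [← mul_assoc]
    exact AddSubgroup.subset_closure (Or.inr (Or.inr (Or.inr ⟨f, hf, f1, hf1, rfl⟩)))
  · rw [← mul_assoc, ← mul_assoc]
    rcases Sbb_g0mul P hf hf1 with h | h
    · exact AddSubgroup.subset_closure (Or.inr (Or.inr (Or.inr ⟨_, h, f2, hf2, rfl⟩)))
    · rw [h, zero_mul, zero_mul]
      exact AddSubgroup.zero_mem _

theorem SbbM_r (P : SbbP e) {z f w : R} (hf : f ∈ AddSubgroup.closure (G0 e))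
    (hw : w ∈ SbbM e z) : w * f ∈ SbbM e z := by
  refine Sbb_mul (A := {w | Mlt e z w}) (B := G0 e) ?_ hw hf
  intro w hw f hf
  rcases hw with rfl | ⟨f1, hf1, rfl⟩ | ⟨f1, hf1, rfl⟩ | ⟨f1, hf1, f2, hf2, rfl⟩
  · exact AddSubgroup.subset_closure (Or.inr (Or.inr (Or.inl ⟨f, hf, rfl⟩)))
  · exact AddSubgroup.subset_closure (Or.inr (Or.inr (Or.inr ⟨f1, hf1, f, hf, rfl⟩)))
  · rw [mul_assoc]
    rcases Sbb_g0mul P hf1 hf with h | h
    · exact AddSubgroup.subset_closure (Or.inr (Or.inr (Or.inl ⟨_, h, rfl⟩)))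
    · rw [h, mul_zero]
      exact AddSubgroup.zero_mem _
  · rw [mul_assoc]
    rcases Sbb_g0mul P hf2 hf with h | h
    · exact AddSubgroup.subset_closure (Or.inr (Or.inr (Or.inr ⟨f1, hf1, _, h, rfl⟩)))
    · rw [h, mul_zero]
      exact AddSubgroup.zero_mem _

theorem Sbb_dd (P : SbbP e) {f w : R} (hf : f ∈ AddSubgroup.closure (G0 e))
    (hw : w ∈ AddSubgroup.closure (G0 e)) : f * w ∈ AddSubgroup.closure (G0 e) := by
  refine Sbb_mul ?_ hf hw
  intro f hf w hw
  rcases Sbb_g0mul P hf hw with h | h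
  · exact AddSubgroup.subset_closure h
  · rw [h]
    exact AddSubgroup.zero_mem _

/-- inverses in the fields -/
theorem Sbb_inv {g f : R} (h : Fld R g) (h1 : g * f = f) (h2 : f * g = f) (h0 : f ≠ 0) :
    ∃ f', f * f' = g ∧ f' * f = g := by
  obtain ⟨-, hg0, hinv⟩ := h
  obtain ⟨y, hy1, hy2, hy3⟩ := hinv f h1 h2 h0
  have hy0 : y ≠ 0 := by
    rintro rfl
    rw [mul_zero] at hy3
    exact hg0 hy3.symm
  obtain ⟨y', hy'1, -, hy'3⟩ := hinv y hy1 hy2 hy0
  refine ⟨y, hy3, ?_⟩
  have h3 : f = y' := by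
    calc f = f * g := h2.symm
      _ = f * (y * y') := by rw [hy'3]
      _ = f * y * y' := (mul_assoc _ _ _).symm
      _ = y' := by rw [hy3, hy'1]
  rw [h3]
  exact hy'3

/-- a simple component is contained in every ideal which contains a nonzero multiple -/
theorem Sbb_simple (P : SbbP e) (hfld : ∀ i, Fld R (e i)) {α β : Option (Fin s)} (hab : α ≠ β)
    {z : R} (hz : Pc e α β z) (hs : ∀ i j, α = some i → β = some j → Smp (e i) (e j) z)
    {p : R} (hp : p ∈ SbbM e z) (hp0 : p ≠ 0) {I : AddSubgroup R} (hI : Idl R I) (hpI : p ∈ I) :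
    z ∈ I := by
  rcases α with _ | i
  · rcases β with _ | j
    · exact absurd rfl hab
    · -- right multiples
      have hl : ∀ f ∈ G0 e, f * z = 0 := by
        intro f hf
        obtain ⟨m, h⟩ := Sbb_g0 P hf
        exact P.zero h hz (by simp)
      have hzj : z * e j = z := by
        have h := hz.2 j
        rwa [if_pos rfl] at h
      have h1 : ∃ f, e j * f = f ∧ f * e j = f ∧ p = z * f := by
        have hrt : ∀ f ∈ G0 e, ∃ f', e j * f' = f' ∧ f' * e j = f' ∧ z * f = z * f' := by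
          intro f hf
          obtain ⟨m, h⟩ := Sbb_g0 P hf
          by_cases hm : some j = some m
          · rw [← hm] at h
            have h3 := h.1 j
            have h4 := h.2 j
            rw [if_pos rfl] at h3 h4
            exact ⟨f, h3, h4, rfl⟩
          · exact ⟨0, by simp, by simp, by rw [P.zero hz h hm, mul_zero]⟩
        unfold SbbM at hp
        clear hp0 hpI
        induction hp using AddSubgroup.closure_induction with
        | mem x hx =>
          rcases hx with rfl | ⟨f, hf, rfl⟩ | ⟨f, hf, rfl⟩ | ⟨f, hf, f', hf', rfl⟩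
          · exact ⟨e j, (hfld j).1, (hfld j).1, hzj.symm⟩
          · exact ⟨0, by simp, by simp, by rw [hl f hf, mul_zero]⟩
          · exact hrt f hf
          · exact ⟨0, by simp, by simp, by rw [hl f hf, zero_mul, mul_zero]⟩
        | zero => exact ⟨0, by simp, by simp, by simp⟩
        | add x x' _ _ h1 h2 =>
          obtain ⟨f, a1, a2, rfl⟩ := h1
          obtain ⟨f', b1, b2, rfl⟩ := h2
          exact ⟨f + f', by rw [mul_add, a1, b1], by rw [add_mul, a2, b2], by rw [mul_add]⟩
        | neg x _ h1 =>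
          obtain ⟨f, a1, a2, rfl⟩ := h1
          exact ⟨-f, by rw [mul_neg, a1], by rw [neg_mul, a2], by rw [mul_neg]⟩
      obtain ⟨f, a1, a2, rfl⟩ := h1
      have hf0 : f ≠ 0 := by
        rintro rfl
        exact hp0 (mul_zero _)
      obtain ⟨f', c1, -⟩ := Sbb_inv (hfld j) a1 a2 hf0
      have h5 : z = z * f * f' := by rw [mul_assoc, c1, hzj]
      rw [h5]
      exact (hI f' _ hpI).2
  · rcases β with _ | j
    · -- left multiples
      have hr : ∀ f ∈ G0 e, z * f = 0 := by
        intro f hf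
        obtain ⟨m, h⟩ := Sbb_g0 P hf
        exact P.zero hz h (by simp)
      have hzi : e i * z = z := by
        have h := hz.1 i
        rwa [if_pos rfl] at h
      have h1 : ∃ f, e i * f = f ∧ f * e i = f ∧ p = f * z := by
        have hlt : ∀ f ∈ G0 e, ∃ f', e i * f' = f' ∧ f' * e i = f' ∧ f * z = f' * z := by
          intro f hf
          obtain ⟨m, h⟩ := Sbb_g0 P hf
          by_cases hm : some m = some i
          · rw [hm] at h
            have h3 := h.1 i
            have h4 := h.2 i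
            rw [if_pos rfl] at h3 h4
            exact ⟨f, h3, h4, rfl⟩
          · exact ⟨0, by simp, by simp, by rw [P.zero h hz hm, zero_mul]⟩
        unfold SbbM at hp
        clear hp0 hpI
        induction hp using AddSubgroup.closure_induction with
        | mem x hx =>
          rcases hx with rfl | ⟨f, hf, rfl⟩ | ⟨f, hf, rfl⟩ | ⟨f, hf, f', hf', rfl⟩
          · exact ⟨e i, (hfld i).1, (hfld i).1, hzi.symm⟩
          · exact hlt f hf
          · exact ⟨0, by simp, by simp, by rw [hr f hf, zero_mul]⟩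
          · exact ⟨0, by simp, by simp, by rw [mul_assoc, hr f' hf', zero_mul, mul_zero]⟩
        | zero => exact ⟨0, by simp, by simp, by simp⟩
        | add x x' _ _ h1 h2 =>
          obtain ⟨f, a1, a2, rfl⟩ := h1
          obtain ⟨f', b1, b2, rfl⟩ := h2
          exact ⟨f + f', by rw [mul_add, a1, b1], by rw [add_mul, a2, b2], by rw [add_mul]⟩
        | neg x _ h1 =>
          obtain ⟨f, a1, a2, rfl⟩ := h1
          exact ⟨-f, by rw [mul_neg, a1], by rw [neg_mul, a2], by rw [neg_mul]⟩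
      obtain ⟨f, a1, a2, rfl⟩ := h1
      have hf0 : f ≠ 0 := by
        rintro rfl
        exact hp0 (zero_mul _)
      obtain ⟨f', -, c2⟩ := Sbb_inv (hfld i) a1 a2 hf0
      have h5 : z = f' * (f * z) := by rw [← mul_assoc, c2, hzi]
      rw [h5]
      exact (hI f' _ hpI).1
    · -- bimodules
      have hzi : e i * z = z := by
        have h := hz.1 i
        rwa [if_pos rfl] at h
      have hzj : z * e j = z := by
        have h := hz.2 j
        rwa [if_pos rfl] at h
      have hi : e i * e i * e i = e i := by rw [(hfld i).1, (hfld i).1]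
      have hj : e j * e j * e j = e j := by rw [(hfld j).1, (hfld j).1]
      have hlt : ∀ f ∈ G0 e, ∃ a, f * z = (e i * a * e i) * z := by
        intro f hf
        obtain ⟨m, h⟩ := Sbb_g0 P hf
        by_cases hm : some m = some i
        · rw [hm] at h
          have h3 := h.1 i
          have h4 := h.2 i
          rw [if_pos rfl] at h3 h4
          exact ⟨f, by rw [h3, h4]⟩
        · exact ⟨0, by rw [P.zero h hz hm, mul_zero, zero_mul, zero_mul]⟩
      have hrt : ∀ f ∈ G0 e, ∃ a, z * f = z * (e j * a * e j) := by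
        intro f hf
        obtain ⟨m, h⟩ := Sbb_g0 P hf
        by_cases hm : some j = some m
        · rw [← hm] at h
          have h3 := h.1 j
          have h4 := h.2 j
          rw [if_pos rfl] at h3 h4
          exact ⟨f, by rw [h3, h4]⟩
        · exact ⟨0, by rw [P.zero hz h hm, mul_zero, zero_mul, mul_zero]⟩
      have h1 : p ∈ Bm (e i) (e j) z := by
        refine (AddSubgroup.closure_le _).2 ?_ hp
        rintro x (rfl | ⟨f, hf, rfl⟩ | ⟨f, hf, rfl⟩ | ⟨f, hf, f', hf', rfl⟩)
        · exact AddSubgroup.subset_closure ⟨e i, e j, by rw [hi, hj, hzi, hzj]⟩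
        · obtain ⟨a, ha⟩ := hlt f hf
          refine AddSubgroup.subset_closure ⟨a, e j, ?_⟩
          rw [hj, ha, mul_assoc (e i * a * e i), hzj]
        · obtain ⟨a, ha⟩ := hrt f hf
          exact AddSubgroup.subset_closure ⟨e i, a, by rw [hi, hzi, ha]⟩
        · obtain ⟨a, ha⟩ := hlt f hf
          obtain ⟨b, hb⟩ := hrt f' hf'
          refine AddSubgroup.subset_closure ⟨a, b, ?_⟩
          rw [ha, mul_assoc (e i * a * e i), hb, ← mul_assoc]
      have h2 := hs i j rfl rfl p h1 hp0
      refine (AddSubgroup.closure_le _).2 ?_ h2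
      rintro x ⟨a, b, rfl⟩
      exact (hI _ _ (hI _ _ hpI).1).2

end

/-- `St_Sbb`. -/
theorem thm_Sbb (hCov : St_Cov) (hJid : St_Jid) (hPca : St_Pca) (hMas : St_Mas) : St_Sbb := by
  intro n R _ _ s e hCx H hH α β γ z z' hT
  have hfam := hCx.fam
  have P : SbbP e := SbbP_of hPca (fun i => (hfam.fld i).1) hfam.orth
  have hz0 : z ≠ 0 := by
    rintro h
    exact hT.ne (by rw [h, zero_mul])
  have hz := hT.hz
  have hz' := hT.hz'
  -- the decomposition
  obtain ⟨D, hD⟩ : ∃ D, D = AddSubgroup.closure (G0 e) := ⟨_, rfl⟩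
  obtain ⟨W, hW⟩ : ∃ W, W = AddSubgroup.closure {w | ∃ a ∈ SbbM e z, ∃ b ∈ SbbM e z', w = a * b} :=
    ⟨_, rfl⟩
  have hX : ∀ a ∈ SbbM e z, Pc e α β a := fun a ha => SbbM_pc P hz ha
  have hY : ∀ a ∈ SbbM e z', Pc e β γ a := fun a ha => SbbM_pc P hz' ha
  have hWp : ∀ w ∈ W, Pc e α γ w := by
    intro w hw
    rw [hW] at hw
    induction hw using AddSubgroup.closure_induction with
    | mem x hx =>
      obtain ⟨a, ha, b, hb, rfl⟩ := hx
      exact P.mul (hX a ha) (hY b hb)
    | zero => exact P.pz _ _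
    | add x x' _ _ h1 h2 => exact P.add h1 h2
    | neg x _ h1 => exact P.neg h1
  have hDW : ∀ d ∈ D, ∀ w ∈ W, d * w ∈ W := by
    intro d hd w hw
    rw [hD] at hd
    rw [hW] at hw ⊢
    have h1 : d ∈ AddSubgroup.closure ({d} : Set R) :=
      AddSubgroup.subset_closure (Set.mem_singleton d)
    refine Sbb_mul (A := {d}) ?_ h1 hw
    rintro x hx y ⟨a, ha, b, hb, rfl⟩
    rw [Set.mem_singleton_iff] at hx
    subst hx
    rw [← mul_assoc]
    exact AddSubgroup.subset_closure ⟨_, SbbM_l P hd ha, b, hb, rfl⟩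
  have hWD : ∀ d ∈ D, ∀ w ∈ W, w * d ∈ W := by
    intro d hd w hw
    rw [hD] at hd
    rw [hW] at hw ⊢
    have h1 : d ∈ AddSubgroup.closure ({d} : Set R) :=
      AddSubgroup.subset_closure (Set.mem_singleton d)
    refine Sbb_mul (B := {d}) ?_ hw h1
    rintro x ⟨a, ha, b, hb, rfl⟩ y hy
    rw [Set.mem_singleton_iff] at hy
    subst hy
    rw [mul_assoc]
    exact AddSubgroup.subset_closure ⟨a, ha, _, SbbM_r P hd hb, rfl⟩
  have hXY : ∀ a ∈ SbbM e z, ∀ b ∈ SbbM e z', a * b ∈ W := by
    intro a ha b hb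
    rw [hW]
    exact AddSubgroup.subset_closure ⟨a, ha, b, hb, rfl⟩
  have hab := hT.ab
  have hbg := hT.bg
  have hag := hT.ag
  have hdec : ∀ x : R, ∃ d ∈ D, ∃ a ∈ SbbM e z, ∃ b ∈ SbbM e z', ∃ w ∈ W, x = d + a + b + w := by
    intro x
    have hx : x ∈ NonUnitalSubring.closure (G0 e ∪ {z, z'}) := by
      rw [hT.gen]
      exact NonUnitalSubring.mem_top x
    induction hx using NonUnitalSubring.closure_induction with
    | mem x hx =>
      rcases hx with hx | hx | hx
      · refine ⟨x, ?_, 0, zero_mem _, 0, zero_mem _, 0, zero_mem _, by simp⟩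
        rw [hD]
        exact AddSubgroup.subset_closure hx
      · refine ⟨0, zero_mem _, z, SbbM_self z, 0, zero_mem _, 0, zero_mem _, ?_⟩
        rw [hx]
        simp
      · refine ⟨0, zero_mem _, 0, zero_mem _, z', SbbM_self z', 0, zero_mem _, ?_⟩
        rw [Set.mem_singleton_iff.1 hx]
        simp
    | zero => exact ⟨0, zero_mem _, 0, zero_mem _, 0, zero_mem _, 0, zero_mem _, by simp⟩
    | add x y _ _ hx hy =>
      obtain ⟨d, hd, a, ha, b, hb, w, hw, rfl⟩ := hx
      obtain ⟨d', hd', a', ha', b', hb', w', hw', rfl⟩ := hy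
      exact ⟨d + d', add_mem hd hd', a + a', add_mem ha ha', b + b', add_mem hb hb', w + w',
        add_mem hw hw', by abel⟩
    | neg x _ hx =>
      obtain ⟨d, hd, a, ha, b, hb, w, hw, rfl⟩ := hx
      exact ⟨-d, neg_mem hd, -a, neg_mem ha, -b, neg_mem hb, -w, neg_mem hw, by abel⟩
    | mul x y _ _ hx hy =>
      obtain ⟨d, hd, a, ha, b, hb, w, hw, rfl⟩ := hx
      obtain ⟨d', hd', a', ha', b', hb', w', hw', rfl⟩ := hy
      have e1 : a * a' = 0 := P.zero (hX a ha) (hX a' ha') (Ne.symm hab)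
      have e2 : a * w' = 0 := P.zero (hX a ha) (hWp w' hw') (Ne.symm hab)
      have e3 : b * a' = 0 := P.zero (hY b hb) (hX a' ha') (Ne.symm hag)
      have e4 : b * b' = 0 := P.zero (hY b hb) (hY b' hb') (Ne.symm hbg)
      have e5 : b * w' = 0 := P.zero (hY b hb) (hWp w' hw') (Ne.symm hag)
      have e6 : w * a' = 0 := P.zero (hWp w hw) (hX a' ha') (Ne.symm hag)
      have e7 : w * b' = 0 := P.zero (hWp w hw) (hY b' hb') (Ne.symm hbg)
      have e8 : w * w' = 0 := P.zero (hWp w hw) (hWp w' hw') (Ne.symm hag)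
      refine ⟨d * d', ?_, d * a' + a * d', ?_, d * b' + b * d', ?_, d * w' + a * b' + w * d',
        ?_, ?_⟩
      · rw [hD] at hd hd' ⊢
        exact Sbb_dd P hd hd'
      · rw [hD] at hd hd'
        exact add_mem (SbbM_l P hd ha') (SbbM_r P hd' ha)
      · rw [hD] at hd hd'
        exact add_mem (SbbM_l P hd hb') (SbbM_r P hd' hb)
      · exact add_mem (add_mem (hDW d hd w' hw') (hXY a ha b' hb')) (hWD d' hd' w hw)
      · simp only [add_mul, mul_add, e1, e2, e3, e4, e5, e6, e7, e8]
        abel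
  -- the diagonal part
  have hdiag : ∀ d ∈ D, (∀ i, e i * d * e i = 0) → d = 0 := by
    intro d hd h0
    have h1 : d = ∑ i, e i * d * e i := by
      rw [hD] at hd
      clear h0
      induction hd using AddSubgroup.closure_induction with
      | mem x hx =>
        obtain ⟨m, hm⟩ := Sbb_g0 P hx
        rw [Finset.sum_eq_single m]
        · have h2 := hm.1 m
          have h3 := hm.2 m
          rw [if_pos rfl] at h2 h3
          rw [h2, h3]
        · intro i _ him
          rw [hm.1 i, if_neg (fun h => him (Option.some.inj h).symm), zero_mul]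
        · intro h
          exact absurd (Finset.mem_univ _) h
      | zero => simp
      | add x x' _ _ h1 h2 =>
        simp only [mul_add, add_mul, Finset.sum_add_distrib]
        rw [← h1, ← h2]
      | neg x _ h1 =>
        simp only [mul_neg, neg_mul, Finset.sum_neg_distrib]
        rw [← h1]
    rw [h1]
    exact Finset.sum_eq_zero fun i _ => h0 i
  have hdiag0 : ∀ {α' β' : Option (Fin s)} {a : R}, α' ≠ β' → Pc e α' β' a →
      ∀ i, e i * a * e i = 0 := by
    intro α' β' a hne ha i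
    rw [ha.1 i]
    by_cases h : α' = some i
    · rw [if_pos h, ha.2 i, if_neg]
      intro h'
      exact hne (h.trans h'.symm)
    · rw [if_neg h, zero_mul]
  have hJ : ∀ x ∈ JJ e, ∃ a ∈ SbbM e z, ∃ b ∈ SbbM e z', ∃ w ∈ W, x = a + b + w := by
    intro x hx
    obtain ⟨d, hd, a, ha, b, hb, w, hw, rfl⟩ := hdec x
    have h1 : d = 0 := by
      apply hdiag d hd
      intro i
      have h2 := hx i
      simp only [mul_add, add_mul] at h2
      rw [hdiag0 hab (hX a ha) i, hdiag0 hbg (hY b hb) i, hdiag0 hag (hWp w hw) i, add_zero,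
        add_zero, add_zero] at h2
      exact h2
    exact ⟨a, ha, b, hb, w, hw, by rw [h1, zero_add]⟩
  -- the projections
  obtain ⟨pa, pb, pw', hpr, hid⟩ : ∃ pa pb pw' : R → R,
      (∀ a b w, Pc e α β a → Pc e β γ b → Pc e α γ w →
        pa (a + b + w) = a ∧ pb (a + b + w) = b ∧ pw' (a + b + w) = w) ∧
      ∀ I : AddSubgroup R, Idl R I → ∀ x ∈ I, pa x ∈ I ∧ pb x ∈ I := by
    rcases hβ : β with _ | j
    · rw [hβ] at hab hbg
      obtain ⟨i, hi⟩ : ∃ i, α = some i := Option.ne_none_iff_exists'.1 hab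
      obtain ⟨l, hl⟩ : ∃ l, γ = some l := Option.ne_none_iff_exists'.1 (Ne.symm hbg)
      refine ⟨fun x => e i * x - e i * x * e l, fun x => x * e l - e i * x * e l,
        fun x => e i * x * e l, ?_, ?_⟩
      · intro a b w ha hb hw
        have a1 := ha.1 i
        have a2 := ha.2 l
        have b1 := hb.1 i
        have b2 := hb.2 l
        have w1 := hw.1 i
        have w2 := hw.2 l
        rw [if_pos hi] at a1 w1
        rw [if_neg (by simp)] at a2 b1
        rw [if_pos hl] at b2 w2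
        simp only [mul_add, add_mul, a1, a2, b1, b2, w1, w2, zero_add, add_zero]
        refine ⟨by abel, by abel, trivial⟩
      · intro I hI x hx
        exact ⟨I.sub_mem (hI _ _ hx).1 (hI _ _ (hI _ _ hx).1).2,
          I.sub_mem (hI _ _ hx).2 (hI _ _ (hI _ _ hx).1).2⟩
    · rw [hβ] at hab hbg
      refine ⟨fun x => x * e j, fun x => e j * x, fun x => x - x * e j - e j * x, ?_, ?_⟩
      · intro a b w ha hb hw
        have a1 := ha.1 j
        have a2 := ha.2 j
        have b1 := hb.1 j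
        have b2 := hb.2 j
        have w1 := hw.1 j
        have w2 := hw.2 j
        rw [if_neg hab] at a1 w1
        rw [if_pos rfl] at a2 b1
        rw [if_neg (Ne.symm hbg)] at b2 w2
        simp only [mul_add, add_mul, a1, a2, b1, b2, w1, w2, zero_add, add_zero]
        refine ⟨trivial, trivial, by abel⟩
      · intro I hI x hx
        exact ⟨(hI _ _ hx).2, (hI _ _ hx).1⟩
  have hJid5 := (hJid n R s e hCx).2.2.2.2.1
  have hPX : ∀ p, Pc e α β p → p ∈ SbbM e z := by
    intro p hp
    obtain ⟨a, ha, b, hb, w, hw, h1⟩ := hJ p (hJid5 α β p hp (fun h => absurd h hab))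
    have h2 := (hpr p 0 0 hp (P.pz _ _) (P.pz _ _)).1
    have h3 := (hpr a b w (hX a ha) (hY b hb) (hWp w hw)).1
    rw [add_zero, add_zero, h1, h3] at h2
    rw [h1, ← h2]
    exact ha
  have hPY : ∀ q, Pc e β γ q → q ∈ SbbM e z' := by
    intro q hq
    obtain ⟨a, ha, b, hb, w, hw, h1⟩ := hJ q (hJid5 β γ q hq (fun h => absurd h hbg))
    have h2 := (hpr 0 q 0 (P.pz _ _) hq (P.pz _ _)).2.1
    have h3 := (hpr a b w (hX a ha) (hY b hb) (hWp w hw)).2.1
    rw [add_zero, zero_add, h1, h3] at h2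
    rw [h1, ← h2]
    exact hb
  -- ideals generated by elements of `e_α R e_γ`
  have hIr : ∀ r, Pc e α γ r → Idl R (SbbM e r) := by
    intro r hr x y hy
    have hy' : Pc e α γ y := SbbM_pc P hr hy
    obtain ⟨d, hd, a, ha, b, hb, w, hw, rfl⟩ := hdec x
    rw [hD] at hd
    have e1 : a * y = 0 := P.zero (hX a ha) hy' (Ne.symm hab)
    have e2 : b * y = 0 := P.zero (hY b hb) hy' (Ne.symm hag)
    have e3 : w * y = 0 := P.zero (hWp w hw) hy' (Ne.symm hag)
    have e4 : y * a = 0 := P.zero hy' (hX a ha) (Ne.symm hag)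
    have e5 : y * b = 0 := P.zero hy' (hY b hb) (Ne.symm hbg)
    have e6 : y * w = 0 := P.zero hy' (hWp w hw) (Ne.symm hag)
    constructor
    · rw [add_mul, add_mul, add_mul, e1, e2, e3, add_zero, add_zero, add_zero]
      exact SbbM_l P hd hy
    · rw [mul_add, mul_add, mul_add, e4, e5, e6, add_zero, add_zero, add_zero]
      exact SbbM_r P hd hy
  have hrH : ∀ r, Pc e α γ r → (∀ i l, α = some i → γ = some l → Smp (e i) (e l) r) → r ∈ H := by
    intro r hr hs
    by_cases hr0 : r = 0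
    · rw [hr0]
      exact H.zero_mem
    · obtain ⟨hH1, hH2, hH3⟩ := hH
      have hne : SbbM e r ≠ ⊥ := by
        intro h
        have h1 := SbbM_self (e := e) r
        rw [h, AddSubgroup.mem_bot] at h1
        exact hr0 h1
      have hle := hH3 (SbbM e r) (hIr r hr) hne
      obtain ⟨h, hh, hh0⟩ : ∃ h ∈ H, h ≠ 0 := by
        by_contra hcon
        push Not at hcon
        apply hH2
        rw [eq_bot_iff]
        intro x hx
        rw [AddSubgroup.mem_bot]
        exact hcon x hx
      exact Sbb_simple P hfam.fld hag hr hs (hle hh) hh0 hH1 hh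
  refine ⟨?_, ?_, ?_, ?_, ?_, ?_⟩
  · intro m
    by_contra hcon
    push Not at hcon
    obtain ⟨c1, c2, c3⟩ := hcon
    refine hz0 (hCov R s e hfam ⟨H, hH⟩ {z, z'} hT.gen m ?_ z (Set.mem_insert _ _))
    rintro x (rfl | hx)
    · exact ⟨by rw [hz.1 m, if_neg (Ne.symm c1)], by rw [hz.2 m, if_neg (Ne.symm c2)]⟩
    · rw [Set.mem_singleton_iff.1 hx]
      exact ⟨by rw [hz'.1 m, if_neg (Ne.symm c2)], by rw [hz'.2 m, if_neg (Ne.symm c3)]⟩
  · intro x hx
    obtain ⟨a, ha, b, hb, w, hw, rfl⟩ := hJ x hx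
    refine ⟨a, b, w, rfl, hX a ha, hY b hb, hWp w hw, fun I hI hxI => ?_⟩
    have h1 := hid I hI _ hxI
    obtain ⟨h2, h3, -⟩ := hpr a b w (hX a ha) (hY b hb) (hWp w hw)
    rw [h2, h3] at h1
    exact h1
  · intro p hp hp0 I hI hpI
    exact Sbb_simple P hfam.fld hab hz hT.sz (hPX p hp) hp0 hI hpI
  · intro q hq hq0 I hI hqI
    exact Sbb_simple P hfam.fld hbg hz' hT.sz' (hPY q hq) hq0 hI hqI
  · intro r hr
    rcases hα : α with _ | i
    · exact hrH r hr (fun i l h _ => by rw [hα] at h; exact absurd h (by simp))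
    · rcases hγ : γ with _ | l
      · exact hrH r hr (fun i l _ h => by rw [hγ] at h; exact absurd h (by simp))
      · have h1 : e i * r = r := by
          have h := hr.1 i
          rwa [if_pos hα] at h
        have h2 : r * e l = r := by
          have h := hr.2 l
          rwa [if_pos hγ] at h
        obtain ⟨L, hL, hsum⟩ := hMas R (e i) (e l) (hfam.fld i) (hfam.fld l) r h1 h2
        rw [← hsum]
        refine AddSubgroup.list_sum_mem _ ?_
        intro y hy
        obtain ⟨y1, y2, y3⟩ := hL y hy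
        refine hrH y ?_ ?_
        · rw [hα, hγ]
          exact Sbb_pcf P.orth y1 y2
        · intro i' l' hi' hl'
          rw [hα] at hi'
          rw [hγ] at hl'
          rw [← Option.some.inj hi', ← Option.some.inj hl']
          exact y3
  · intro x hx y hy
    obtain ⟨a, ha, b, hb, w, hw, rfl⟩ := hJ x hx
    obtain ⟨a', ha', b', hb', w', hw', rfl⟩ := hJ y hy
    have e1 : a * a' = 0 := P.zero (hX a ha) (hX a' ha') (Ne.symm hab)
    have e2 : a * w' = 0 := P.zero (hX a ha) (hWp w' hw') (Ne.symm hab)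
    have e3 : b * a' = 0 := P.zero (hY b hb) (hX a' ha') (Ne.symm hag)
    have e4 : b * b' = 0 := P.zero (hY b hb) (hY b' hb') (Ne.symm hbg)
    have e5 : b * w' = 0 := P.zero (hY b hb) (hWp w' hw') (Ne.symm hag)
    have e6 : w * a' = 0 := P.zero (hWp w hw) (hX a' ha') (Ne.symm hag)
    have e7 : w * b' = 0 := P.zero (hWp w hw) (hY b' hb') (Ne.symm hbg)
    have e8 : w * w' = 0 := P.zero (hWp w hw) (hWp w' hw') (Ne.symm hag)
    have e9 : (a + b + w) * (a' + b' + w') = a * b' := by
      simp only [add_mul, mul_add, e1, e2, e3, e4, e5, e6, e7, e8]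
      abel
    rw [e9]
    exact P.mul (hX a ha) (hY b' hb')

end Pool.Agent.CRN
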