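import Pool.Agent.CRN.St

/-!
Module `Scc` of campaign CRN (problem MP_1bb14d_al): the structure of the rings of type `TyC`.
-/

set_option autoImplicit false

namespace Pool.Agent.CRN

open Pool.Agent.CRR

section scc

variable {R : Type} [NonUnitalRing R]

theorem SccA_add {e x y : R} (hx : InA e x) (hy : InA e y) : InA e (x + y) :=
  ⟨by rw [mul_add, hx.1, hy.1, add_zero], by rw [add_mul, hx.2, hy.2, add_zero]⟩

theorem SccA_neg {e x : R} (hx : InA e x) : InA e (-x) :=
  ⟨by rw [mul_neg, hx.1, neg_zero], by rw [neg_mul, hx.2, neg_zero]⟩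

theorem SccA_zero {e : R} : InA e (0 : R) := ⟨mul_zero _, zero_mul _⟩

theorem SccA_mul {e x y : R} (hx : InA e x) (hy : InA e y) : InA e (x * y) :=
  ⟨by rw [← mul_assoc, hx.1, zero_mul], by rw [mul_assoc, hy.2, mul_zero]⟩

theorem SccC_add {e x y : R} (hx : InC e x) (hy : InC e y) : InC e (x + y) :=
  ⟨by rw [mul_add, hx.1, hy.1], by rw [add_mul, hx.2, hy.2, add_zero]⟩

theorem SccC_neg {e x : R} (hx : InC e x) : InC e (-x) :=
  ⟨by rw [mul_neg, hx.1], by rw [neg_mul, hx.2, neg_zero]⟩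

theorem SccC_zero {e : R} : InC e (0 : R) := ⟨mul_zero _, zero_mul _⟩

theorem SccCA_mul {e x y : R} (hx : InC e x) (hy : InA e y) : InC e (x * y) :=
  ⟨by rw [← mul_assoc, hx.1], by rw [mul_assoc, hy.2, mul_zero]⟩

theorem SccFC_mul {e x y : R} (hx : InF e x) (hy : InC e y) : InC e (x * y) :=
  ⟨by rw [← mul_assoc, hx.1], by rw [mul_assoc, hy.2, mul_zero]⟩

theorem SccF_add {e x y : R} (hx : InF e x) (hy : InF e y) : InF e (x + y) :=
  ⟨by rw [mul_add, hx.1, hy.1], by rw [add_mul, hx.2, hy.2]⟩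

theorem SccF_neg {e x : R} (hx : InF e x) : InF e (-x) :=
  ⟨by rw [mul_neg, hx.1], by rw [neg_mul, hx.2]⟩

theorem SccF_zero {e : R} : InF e (0 : R) := ⟨mul_zero _, zero_mul _⟩

theorem SccF_mul {e x y : R} (hx : InF e x) (hy : InF e y) : InF e (x * y) :=
  ⟨by rw [← mul_assoc, hx.1], by rw [mul_assoc, hy.2]⟩

/-! ### The words -/

theorem Scc_prr_congr (z : R) (x y : ℕ → R) (j : ℕ) (h : ∀ i, i < j → x i = y i) :
    prr z x j = prr z y j := by
  induction j with
  | zero => rfl
  | succ j ih =>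
    change prr z x j * x j = prr z y j * y j
    rw [ih (fun i hi => h i (Nat.lt_succ_of_lt hi)), h j (Nat.lt_succ_self j)]

theorem Scc_prr_add (z : R) (x : ℕ → R) (p q : ℕ) :
    prr z x (p + q) = prr (prr z x p) (fun t => x (p + t)) q := by
  induction q with
  | zero => rfl
  | succ q ih =>
    change prr z x (p + q) * x (p + q) = prr (prr z x p) (fun t => x (p + t)) q * x (p + q)
    rw [ih]

theorem Scc_prr_zero (x : ℕ → R) (j : ℕ) : prr 0 x j = 0 := by
  induction j with
  | zero => rfl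
  | succ j ih =>
    change prr 0 x j * x j = 0
    rw [ih, zero_mul]

theorem Scc_prr_le (z : R) (x : ℕ → R) (p j : ℕ) (h : p ≤ j) (h0 : prr z x p = 0) :
    prr z x j = 0 := by
  obtain ⟨q, rfl⟩ := Nat.exists_eq_add_of_le h
  rw [Scc_prr_add, h0, Scc_prr_zero]

theorem Scc_prr_C {e z : R} (hz : InC e z) (x : ℕ → R) (j : ℕ) (hx : ∀ i, i < j → InA e (x i)) :
    InC e (prr z x j) := by
  induction j with
  | zero => exact hz
  | succ j ih =>
    exact SccCA_mul (ih (fun i hi => hx i (Nat.lt_succ_of_lt hi))) (hx j (Nat.lt_succ_self j))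

theorem Scc_prr_mul (f z : R) (x : ℕ → R) (j : ℕ) : prr (f * z) x j = f * prr z x j := by
  induction j with
  | zero => rfl
  | succ j ih =>
    change prr (f * z) x j * x j = f * (prr z x j * x j)
    rw [ih, mul_assoc]

/-- Two equal letters. -/
theorem Scc_two {e : R} (h1 : ∀ c x, InC e c → InA e x → c * x * x = 0)
    (h2 : ∀ c x y, InC e c → InA e x → InA e y → c * (x * y + y * x) = 0)
    {u : R} (hu : InA e u) (y : ℕ → R) (d : ℕ) (hy : ∀ i, i < d → InA e (y i)) {w : R}
    (hw : InC e w) : prr (w * u) y d * u = 0 := by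
  induction d with
  | zero => exact h1 w u hw hu
  | succ d ih =>
    have hyd := hy d (Nat.lt_succ_self d)
    have hC : InC e (prr (w * u) y d) :=
      Scc_prr_C (SccCA_mul hw hu) y d (fun i hi => hy i (Nat.lt_succ_of_lt hi))
    have h3 := h2 _ (y d) u hC hyd hu
    have h4 := ih (fun i hi => hy i (Nat.lt_succ_of_lt hi))
    change prr (w * u) y d * y d * u = 0
    rw [mul_add, ← mul_assoc, ← mul_assoc, h4, zero_mul, add_zero] at h3
    exact h3

theorem Scc_two' {e : R} (h1 : ∀ c x, InC e c → InA e x → c * x * x = 0)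
    (h2 : ∀ c x y, InC e c → InA e x → InA e y → c * (x * y + y * x) = 0)
    (y : ℕ → R) (i i' j : ℕ) (hi : i < i') (hj : i' < j) (hy : ∀ t, t < j → InA e (y t))
    (he : y i = y i') {w : R} (hw : InC e w) : prr w y j = 0 := by
  apply Scc_prr_le w y (i' + 1) j hj
  change prr w y i' * y i' = 0
  obtain ⟨d, rfl⟩ := Nat.exists_eq_add_of_lt hi
  have h3 : i + d + 1 = (i + 1) + d := by omega
  rw [h3] at he hj ⊢
  rw [Scc_prr_add]
  change prr (prr w y i * y i) _ d * _ = 0
  rw [← he]
  exact Scc_two h1 h2 (hy i (by omega)) _ d (fun t ht => hy _ (by omega))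
    (Scc_prr_C hw y i (fun t ht => hy t (by omega)))

/-- Words in `k` letters of length `j > k`. -/
theorem Scc_pig {e : R} (h1 : ∀ c x, InC e c → InA e x → c * x * x = 0)
    (h2 : ∀ c x y, InC e c → InA e x → InA e y → c * (x * y + y * x) = 0)
    (k : ℕ) (a : ℕ → R) (ha : ∀ l, l < k → InA e (a l)) (σ : ℕ → ℕ) (j : ℕ) (hj : k + 1 ≤ j)
    (hσ : ∀ i, i < j → σ i < k) {w : R} (hw : InC e w) : prr w (fun i => a (σ i)) j = 0 := by
  have hc : (Finset.range k).card < (Finset.range j).card := by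
    rw [Finset.card_range, Finset.card_range]
    omega
  obtain ⟨x, hx, y, hy, hxy, h3⟩ := Finset.exists_ne_map_eq_of_card_lt_of_maps_to hc
    (f := σ) (fun i hi => by
      have := hσ i (by simpa using hi)
      simpa using this)
  rw [Finset.mem_range] at hx hy
  rcases lt_or_gt_of_ne hxy with h | h
  · exact Scc_two' h1 h2 _ x y j h hy (fun t ht => ha _ (hσ t ht)) (by simp only [h3]) hw
  · exact Scc_two' h1 h2 _ y x j h hx (fun t ht => ha _ (hσ t ht)) (by simp only [h3]) hw

/-! ### The subgroups `C A^j` -/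

/-- `C A^j`. -/
def SccD (e : R) (j : ℕ) : AddSubgroup R :=
  AddSubgroup.closure {w | ∃ c x, InC e c ∧ (∀ i, i < j → InA e (x i)) ∧ w = prr c x j}

/-- The words in the letters `a l`. -/
def SccE (e : R) (k : ℕ) (a : ℕ → R) (j : ℕ) : AddSubgroup R :=
  AddSubgroup.closure {w | ∃ c, ∃ σ : ℕ → ℕ, InC e c ∧ (∀ i, i < j → σ i < k) ∧
    w = prr c (fun i => a (σ i)) j}

theorem SccD_mul {e : R} (j : ℕ) {w x : R} (hw : w ∈ SccD e j) (hx : InA e x) :
    w * x ∈ SccD e (j + 1) := by
  unfold SccD at hw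
  induction hw using AddSubgroup.closure_induction with
  | mem w hw =>
    obtain ⟨c, y, hc, hy, rfl⟩ := hw
    apply AddSubgroup.subset_closure
    refine ⟨c, fun i => if i < j then y i else x, hc, fun i _ => ?_, ?_⟩
    · by_cases hi : i < j
      · simp only [hi, if_true]
        exact hy i hi
      · simp only [hi, if_false]
        exact hx
    · change prr c y j * x = prr c _ j * (if j < j then y j else x)
      rw [if_neg (lt_irrefl j), Scc_prr_congr c (fun i => if i < j then y i else x) y j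
        (fun i hi => by simp only [hi, if_true])]
  | zero => rw [zero_mul]; exact zero_mem _
  | add u v _ _ hu hv => rw [add_mul]; exact add_mem hu hv
  | neg u _ hu => rw [neg_mul]; exact neg_mem hu

theorem SccE_le_D {e : R} (k : ℕ) (a : ℕ → R) (ha : ∀ l, l < k → InA e (a l)) (j : ℕ) :
    SccE e k a j ≤ SccD e j := by
  unfold SccE
  rw [AddSubgroup.closure_le]
  rintro w ⟨c, σ, hc, hσ, rfl⟩
  exact AddSubgroup.subset_closure ⟨c, _, hc, fun i hi => ha _ (hσ i hi), rfl⟩

theorem SccE_mul {e : R} (k : ℕ) (a : ℕ → R) (j : ℕ) {w : R} (hw : w ∈ SccE e k a j) (l : ℕ)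
    (hl : l < k) : w * a l ∈ SccE e k a (j + 1) := by
  unfold SccE at hw
  induction hw using AddSubgroup.closure_induction with
  | mem w hw =>
    obtain ⟨c, σ, hc, hσ, rfl⟩ := hw
    apply AddSubgroup.subset_closure
    refine ⟨c, fun i => if i < j then σ i else l, hc, fun i _ => ?_, ?_⟩
    · by_cases hi : i < j
      · simp only [hi, if_true]
        exact hσ i hi
      · simp only [hi, if_false]
        exact hl
    · change prr c (fun i => a (σ i)) j * a l =
        prr c (fun i => a (if i < j then σ i else l)) j * a (if j < j then σ j else l)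
      rw [if_neg (lt_irrefl j), Scc_prr_congr c (fun i => a (if i < j then σ i else l))
        (fun i => a (σ i)) j (fun i hi => by simp only [hi, if_true])]
  | zero => rw [zero_mul]; exact zero_mem _
  | add u v _ _ hu hv => rw [add_mul]; exact add_mem hu hv
  | neg u _ hu => rw [neg_mul]; exact neg_mem hu

theorem SccD_le {e : R} (k : ℕ) (a : ℕ → R) (ha : ∀ l, l < k → InA e (a l))
    (h2 : ∀ x, InA e x → x ∈ AddSubgroup.closure ({y | ∃ l, l < k ∧ y = a l} ∪
      {y | ∃ x' x'', InA e x' ∧ InA e x'' ∧ y = x' * x''})) (j : ℕ) :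
    SccD e j ≤ SccE e k a j ⊔ SccD e (j + 1) := by
  induction j with
  | zero =>
    refine le_trans ?_ le_sup_left
    unfold SccD
    rw [AddSubgroup.closure_le]
    rintro w ⟨c, x, hc, _, hw⟩
    exact AddSubgroup.subset_closure ⟨c, fun _ => 0, hc, fun i hi => absurd hi (Nat.not_lt_zero i),
      hw⟩
  | succ j ih =>
    have key : ∀ w ∈ SccD e j, ∀ x, InA e x → w * x ∈ SccE e k a (j + 1) ⊔ SccD e (j + 1 + 1) := by
      intro w hw x hx
      obtain ⟨u, hu, v, hv, rfl⟩ := AddSubgroup.mem_sup.1 (ih hw)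
      rw [add_mul]
      refine add_mem ?_ ?_
      · have hxc := h2 x hx
        clear hx
        induction hxc using AddSubgroup.closure_induction with
        | mem y hy =>
          rcases hy with ⟨l, hl, rfl⟩ | ⟨x', x'', hx', hx'', rfl⟩
          · exact AddSubgroup.mem_sup_left (SccE_mul k a j hu l hl)
          · rw [← mul_assoc]
            exact AddSubgroup.mem_sup_right (SccD_mul (j + 1) (SccD_mul j
              (SccE_le_D k a ha j hu) hx') hx'')
        | zero => rw [mul_zero]; exact zero_mem _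
        | add y y' _ _ hy hy' => rw [mul_add]; exact add_mem hy hy'
        | neg y _ hy => rw [mul_neg]; exact neg_mem hy
      · exact AddSubgroup.mem_sup_right (SccD_mul (j + 1) hv hx)
    rw [show SccD e (j + 1) = AddSubgroup.closure {w | ∃ c x, InC e c ∧
      (∀ i, i < j + 1 → InA e (x i)) ∧ w = prr c x (j + 1)} from rfl, AddSubgroup.closure_le]
    rintro w ⟨c, x, hc, hx, rfl⟩
    exact key _ (AddSubgroup.subset_closure ⟨c, x, hc, fun i hi => hx i (Nat.lt_succ_of_lt hi),
      rfl⟩) _ (hx j (Nat.lt_succ_self j))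

theorem SccE_zero {e : R} (h1 : ∀ c x, InC e c → InA e x → c * x * x = 0)
    (h2 : ∀ c x y, InC e c → InA e x → InA e y → c * (x * y + y * x) = 0)
    (k : ℕ) (a : ℕ → R) (ha : ∀ l, l < k → InA e (a l)) (j : ℕ) (hj : k + 1 ≤ j) :
    SccE e k a j = ⊥ := by
  rw [eq_bot_iff]
  unfold SccE
  rw [AddSubgroup.closure_le]
  rintro w ⟨c, σ, hc, hσ, rfl⟩
  exact Scc_pig h1 h2 k a ha σ j hj hσ hc

theorem SccD_zero {e : R} (h1 : ∀ c x, InC e c → InA e x → c * x * x = 0)
    (h2 : ∀ c x y, InC e c → InA e x → InA e y → c * (x * y + y * x) = 0)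
    (k : ℕ) (a : ℕ → R) (ha : ∀ l, l < k → InA e (a l))
    (h3 : ∀ x, InA e x → x ∈ AddSubgroup.closure ({y | ∃ l, l < k ∧ y = a l} ∪
      {y | ∃ x' x'', InA e x' ∧ InA e x'' ∧ y = x' * x''}))
    (m : ℕ) (hm : ∀ c x, InC e c → (∀ i, i < m → InA e (x i)) → prr c x m = 0) :
    SccD e (k + 1) = ⊥ := by
  have h4 : ∀ q, SccD e (k + 1) ≤ SccD e (k + 1 + q) := by
    intro q
    induction q with
    | zero => exact le_rfl
    | succ q ih =>
      refine le_trans ih ?_
      have h5 := SccD_le k a ha h3 (k + 1 + q)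
      rw [SccE_zero h1 h2 k a ha (k + 1 + q) (by omega), bot_sup_eq] at h5
      exact h5
  have h6 : SccD e (k + 1 + m) ≤ ⊥ := by
    unfold SccD
    rw [AddSubgroup.closure_le]
    rintro w ⟨c, x, hc, hx, rfl⟩
    change prr c x (k + 1 + m) = 0
    exact Scc_prr_le c x m (k + 1 + m) (by omega) (hm c x hc (fun i hi => hx i (by omega)))
  exact eq_bot_iff.2 (le_trans (h4 m) h6)

/-! ### The decomposition -/

/-- `F z A₀¹`. -/
def SccN (e z : R) (A₀ : NonUnitalSubring R) : AddSubgroup R :=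
  AddSubgroup.closure ({w | ∃ f, InF e f ∧ w = f * z} ∪
    {w | ∃ f x, InF e f ∧ x ∈ A₀ ∧ w = f * z * x})

theorem SccN_C {e z : R} (hz : InC e z) (A₀ : NonUnitalSubring R) (hA : ∀ x ∈ A₀, InA e x)
    {c : R} (hc : c ∈ SccN e z A₀) : InC e c := by
  unfold SccN at hc
  induction hc using AddSubgroup.closure_induction with
  | mem w hw =>
    rcases hw with ⟨f, hf, rfl⟩ | ⟨f, x, hf, hx, rfl⟩
    · exact SccFC_mul hf hz
    · exact SccCA_mul (SccFC_mul hf hz) (hA x hx)
  | zero => exact SccC_zero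
  | add u v _ _ hu hv => exact SccC_add hu hv
  | neg u _ hu => exact SccC_neg hu

theorem SccN_F {e z : R} (A₀ : NonUnitalSubring R) {f c : R} (hf : InF e f)
    (hc : c ∈ SccN e z A₀) : f * c ∈ SccN e z A₀ := by
  unfold SccN at hc
  induction hc using AddSubgroup.closure_induction with
  | mem w hw =>
    rcases hw with ⟨f', hf', rfl⟩ | ⟨f', x, hf', hx, rfl⟩
    · exact AddSubgroup.subset_closure (Or.inl ⟨f * f', SccF_mul hf hf', by rw [mul_assoc]⟩)
    · exact AddSubgroup.subset_closure (Or.inr ⟨f * f', x, SccF_mul hf hf', hx, by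
        simp only [mul_assoc]⟩)
  | zero => rw [mul_zero]; exact zero_mem _
  | add u v _ _ hu hv => rw [mul_add]; exact add_mem hu hv
  | neg u _ hu => rw [mul_neg]; exact neg_mem hu

theorem SccN_A {e z : R} (A₀ : NonUnitalSubring R) {c y : R} (hy : y ∈ A₀)
    (hc : c ∈ SccN e z A₀) : c * y ∈ SccN e z A₀ := by
  unfold SccN at hc
  induction hc using AddSubgroup.closure_induction with
  | mem w hw =>
    rcases hw with ⟨f', hf', rfl⟩ | ⟨f', x, hf', hx, rfl⟩
    · exact AddSubgroup.subset_closure (Or.inr ⟨f', y, hf', hy, rfl⟩)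
    · exact AddSubgroup.subset_closure (Or.inr ⟨f', x * y, hf', A₀.mul_mem hx hy, by
        simp only [mul_assoc]⟩)
  | zero => rw [zero_mul]; exact zero_mem _
  | add u v _ _ hu hv => rw [add_mul]; exact add_mem hu hv
  | neg u _ hu => rw [neg_mul]; exact neg_mem hu

/-- The sums. -/
def SccT (e z : R) (hz : InC e z) (A₀ : NonUnitalSubring R) (hA : ∀ x ∈ A₀, InA e x) :
    NonUnitalSubring R where
  carrier := {x | ∃ f c y, InF e f ∧ c ∈ SccN e z A₀ ∧ y ∈ A₀ ∧ x = f + c + y}
  zero_mem' := ⟨0, 0, 0, SccF_zero, zero_mem _, zero_mem _, by simp⟩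
  add_mem' := by
    rintro x x' ⟨f, c, y, hf, hc, hy, rfl⟩ ⟨f', c', y', hf', hc', hy', rfl⟩
    exact ⟨f + f', c + c', y + y', SccF_add hf hf', add_mem hc hc', add_mem hy hy', by abel⟩
  neg_mem' := by
    rintro x ⟨f, c, y, hf, hc, hy, rfl⟩
    exact ⟨-f, -c, -y, SccF_neg hf, neg_mem hc, neg_mem hy, by abel⟩
  mul_mem' := by
    rintro x x' ⟨f, c, y, hf, hc, hy, rfl⟩ ⟨f', c', y', hf', hc', hy', rfl⟩
    refine ⟨f * f', f * c' + c * y', y * y', SccF_mul hf hf', add_mem (SccN_F A₀ hf hc')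
      (SccN_A A₀ hy' hc), A₀.mul_mem hy hy', ?_⟩
    have hC := SccN_C hz A₀ hA hc
    have hC' := SccN_C hz A₀ hA hc'
    have hY := hA y hy
    have hY' := hA y' hy'
    have e1 : f * y' = 0 := by rw [← hf.2, mul_assoc, hY'.1, mul_zero]
    have e2 : c * f' = 0 := by rw [← hf'.1, ← mul_assoc, hC.2, zero_mul]
    have e3 : c * c' = 0 := by rw [← hC'.1, ← mul_assoc, hC.2, zero_mul]
    have e4 : y * f' = 0 := by rw [← hf'.1, ← mul_assoc, hY.2, zero_mul]
    have e5 : y * c' = 0 := by rw [← hC'.1, ← mul_assoc, hY.2, zero_mul]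
    simp only [mul_add, add_mul, e1, e2, e3, e4, e5]
    abel

theorem Scc_dec {e z : R} {k : ℕ} {a : ℕ → R} (he : e * e = e) (h : TC e z k a) :
    ∃ A₀ : NonUnitalSubring R, (∀ x ∈ A₀, InA e x) ∧
    (∀ x ∈ A₀, x ∈ AddSubgroup.closure ({y | ∃ l, l < k ∧ y = a l} ∪
      {y | ∃ x' x'', InA e x' ∧ InA e x'' ∧ y = x' * x''})) ∧
    ∀ x, ∃ f c y, InF e f ∧ c ∈ SccN e z A₀ ∧ y ∈ A₀ ∧ x = f + c + y := by
  have hA : ∀ x ∈ NonUnitalSubring.closure {x | ∃ l, l < k ∧ x = a l}, InA e x := by
    intro x hx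
    induction hx using NonUnitalSubring.closure_induction with
    | mem x hx =>
      obtain ⟨l, hl, rfl⟩ := hx
      exact h.ha l hl
    | zero => exact SccA_zero
    | add x y _ _ hx hy => exact SccA_add hx hy
    | neg x _ hx => exact SccA_neg hx
    | mul x y _ _ hx hy => exact SccA_mul hx hy
  refine ⟨NonUnitalSubring.closure {x | ∃ l, l < k ∧ x = a l}, hA, ?_, ?_⟩
  · intro x hx
    induction hx using NonUnitalSubring.closure_induction with
    | mem x hx => exact AddSubgroup.subset_closure (Or.inl hx)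
    | zero => exact zero_mem _
    | add x y _ _ hx hy => exact add_mem hx hy
    | neg x _ hx => exact neg_mem hx
    | mul x y hx' hy' hx hy =>
      exact AddSubgroup.subset_closure (Or.inr ⟨x, y, hA x hx', hA y hy', rfl⟩)
  · intro x
    have h1 : NonUnitalSubring.closure ({x | e * x = x ∧ x * e = x} ∪ {z} ∪
        {x | ∃ l, l < k ∧ x = a l}) ≤ SccT e z h.hz _ hA := by
      rw [NonUnitalSubring.closure_le]
      rintro y ((hy | hy) | hy)
      · exact ⟨y, 0, 0, hy, zero_mem _, zero_mem _, by simp⟩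
      · rw [Set.mem_singleton_iff] at hy
        subst hy
        exact ⟨0, y, 0, SccF_zero, AddSubgroup.subset_closure (Or.inl ⟨e, ⟨he, he⟩, h.hz.1.symm⟩),
          zero_mem _, by simp⟩
      · exact ⟨0, 0, y, SccF_zero, zero_mem _, NonUnitalSubring.subset_closure hy, by simp⟩
    rw [h.gen] at h1
    exact h1 (NonUnitalSubring.mem_top x)

theorem Scc_prn (z : R) (x : ℕ → R) (j : ℕ) :
    prr z x j = prn (fun i => if i = 0 then z else x (i - 1)) j := by
  induction j with
  | zero => simp [prr, prn]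
  | succ j ih =>
    change prr z x j * x j = prn _ j * (if j + 1 = 0 then z else x (j + 1 - 1))
    rw [ih, if_neg (Nat.succ_ne_zero j), Nat.add_sub_cancel]

/-- Both kinds of inverses in a field. -/
theorem Scc_inv {e f : R} (hF : Fld R e) (hf : InF e f) (h0 : f ≠ 0) :
    ∃ g, InF e g ∧ f * g = e ∧ g * f = e := by
  obtain ⟨g, hg1, hg2, hg3⟩ := hF.2.2 f hf.1 hf.2 h0
  have hg0 : g ≠ 0 := by
    rintro rfl
    rw [mul_zero] at hg3
    exact hF.2.1 hg3.symm
  obtain ⟨g', hg1', hg2', hg3'⟩ := hF.2.2 g hg1 hg2 hg0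
  refine ⟨g, ⟨hg1, hg2⟩, hg3, ?_⟩
  have h1 : f = g' := by
    calc f = f * e := hf.2.symm
      _ = f * (g * g') := by rw [hg3']
      _ = (f * g) * g' := by rw [mul_assoc]
      _ = g' := by rw [hg3, hg1']
  rw [h1, hg3']

end scc

theorem thm_Scc (hJid : St_Jid) (hRla : St_Rla) (hJnl : St_Jnl) (_hPpw : St_Ppw) : St_Scc := by
  intro n R _ _ e hCx H hH z k a hT
  have hF : Fld R e := hCx.fam.fld 0
  have he : e * e = e := hF.1
  have he0 : e ≠ 0 := hF.2.1
  have hz := hT.hz
  obtain ⟨A₀, hA₀, hA₀2, hdec⟩ := Scc_dec he hT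
  have p1 : ∀ x : R, x * e = e * x * e := by
    intro x
    obtain ⟨f, c, y, hf, hc, hy, rfl⟩ := hdec x
    have hc' := SccN_C hz A₀ hA₀ hc
    have hy' := hA₀ y hy
    simp only [mul_add, add_mul, hf.1, hf.2, hc'.1, hc'.2, hy'.1, hy'.2, add_zero]
  have p2 : ∀ x, InA e x → x ∈ AddSubgroup.closure ({y | ∃ l, l < k ∧ y = a l} ∪
      {y | ∃ x' x'', InA e x' ∧ InA e x'' ∧ y = x' * x''}) := by
    intro x hx
    obtain ⟨f, c, y, hf, hc, hy, rfl⟩ := hdec x
    have hc' := SccN_C hz A₀ hA₀ hc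
    have hy' := hA₀ y hy
    have h1 := hx.1
    simp only [mul_add, hf.1, hc'.1, hy'.1, add_zero] at h1
    rw [h1, zero_add]
    exact hA₀2 y hy
  have p3 : ∀ x, InC e x → ∃ f, InF e f ∧ x - f * z ∈ AddSubgroup.closure {y | ∃ x' x'',
      InC e x' ∧ InA e x'' ∧ y = x' * x''} := by
    intro x hx
    obtain ⟨f, c, y, hf, hc, hy, rfl⟩ := hdec x
    have hc' := SccN_C hz A₀ hA₀ hc
    have hy' := hA₀ y hy
    have h1 := hx.1
    have h2 := hx.2
    simp only [mul_add, hf.1, hc'.1, hy'.1, add_zero] at h1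
    simp only [add_mul, hf.2, hc'.2, hy'.2, add_zero] at h2
    rw [h2, zero_add] at h1
    rw [h2, zero_add, ← h1]
    clear h1 h2 hx hc'
    unfold SccN at hc
    induction hc using AddSubgroup.closure_induction with
    | mem w hw =>
      rcases hw with ⟨f', hf', rfl⟩ | ⟨f', x, hf', hx, rfl⟩
      · exact ⟨f', hf', by rw [sub_self]; exact zero_mem _⟩
      · refine ⟨0, SccF_zero, ?_⟩
        rw [zero_mul, sub_zero]
        exact AddSubgroup.subset_closure ⟨f' * z, x, SccFC_mul hf' hz, hA₀ x hx, rfl⟩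
    | zero => exact ⟨0, SccF_zero, by rw [zero_mul, sub_zero]; exact zero_mem _⟩
    | add u v _ _ hu hv =>
      obtain ⟨f1, hf1, h1⟩ := hu
      obtain ⟨f2, hf2, h2⟩ := hv
      refine ⟨f1 + f2, SccF_add hf1 hf2, ?_⟩
      have h3 := add_mem h1 h2
      rwa [show u - f1 * z + (v - f2 * z) = u + v - (f1 + f2) * z by rw [add_mul]; abel] at h3
    | neg u _ hu =>
      obtain ⟨f1, hf1, h1⟩ := hu
      refine ⟨-f1, SccF_neg hf1, ?_⟩
      have h3 := neg_mem h1
      rwa [show -(u - f1 * z) = -u - (-f1) * z by rw [neg_mul]; abel] at h3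
  -- the relations
  have q1 : ∀ x, InA e x → Pc (fun _ : Fin 1 => e) none none x := fun x hx =>
    ⟨fun i => by simpa using hx.1, fun i => by simpa using hx.2⟩
  have q2 : ∀ x, InC e x → Pc (fun _ : Fin 1 => e) (some 0) none x := fun x hx =>
    ⟨fun i => by
      have : (some (0 : Fin 1)) = some i := by rw [Subsingleton.elim (0 : Fin 1) i]
      simpa [this] using hx.1, fun i => by simpa using hx.2⟩
  have q3 : Pc (fun _ : Fin 1 => e) none (some 0) (0 : R) :=
    ⟨fun i => by simp, fun i => by simp⟩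
  have r1 : ∀ c x, InC e c → InA e x → c * x * x = 0 := fun c x hc hx =>
    (hRla n R 1 _ hCx x x 0 0 c 0 0 (q1 x hx) (q1 x hx) q3 q3 (q2 c hc)).2.2.1
  have r2 : ∀ c x y, InC e c → InA e x → InA e y → c * (x * y + y * x) = 0 :=
    fun c x y hc hx hy =>
    (hRla n R 1 _ hCx x y 0 0 c 0 0 (q1 x hx) (q1 y hy) q3 q3 (q2 c hc)).2.2.2.1
  obtain ⟨hI, hcube, _⟩ := hJid n R 1 _ hCx
  obtain ⟨m, hm⟩ := hJnl R (JJ (fun _ : Fin 1 => e)) hI hcube
  have hm' : ∀ c x, InC e c → (∀ i, i < m → InA e (x i)) → prr c x m = 0 := by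
    intro c x hc hx
    rw [Scc_prr_congr c x (fun i => if i < m then x i else 0) m (fun i hi => by
      simp only [hi, if_true]), Scc_prn]
    apply hm
    intro i
    by_cases hi : i = 0
    · simp only [hi, if_true]
      intro j
      change e * c * e = 0
      rw [mul_assoc, hc.2, mul_zero]
    · simp only [hi, if_false]
      by_cases h' : i - 1 < m
      · simp only [h', if_true]
        intro j
        change e * x (i - 1) * e = 0
        rw [(hx _ h').1, zero_mul]
      · simp only [h', if_false]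
        exact zero_mem _
  have hD : SccD e (k + 1) = ⊥ := SccD_zero r1 r2 k a hT.ha p2 m hm'
  have p4 : ∀ c', InC e c' → ∀ x : ℕ → R, (∀ i, i < k + 1 → InA e (x i)) →
      prr c' x (k + 1) = 0 := by
    intro c' hc' x hx
    have h1 : prr c' x (k + 1) ∈ SccD e (k + 1) := AddSubgroup.subset_closure ⟨c', x, hc', hx, rfl⟩
    rw [hD] at h1
    exact h1
  have hw : InC e (prr z a k) := Scc_prr_C hz a k hT.ha
  refine ⟨p1, p2, p3, fun c' hc' x hx => p4 c' hc' x (fun i _ => hx i), ?_, ?_⟩
  · -- the least ideal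
    let W : AddSubgroup R :=
      { carrier := {y | ∃ f, InF e f ∧ y = f * prr z a k}
        zero_mem' := ⟨0, SccF_zero, by rw [zero_mul]⟩
        add_mem' := by
          rintro _ _ ⟨f, hf, rfl⟩ ⟨f', hf', rfl⟩
          exact ⟨f + f', SccF_add hf hf', by rw [add_mul]⟩
        neg_mem' := by
          rintro _ ⟨f, hf, rfl⟩
          exact ⟨-f, SccF_neg hf, by rw [neg_mul]⟩ }
    have hW : Idl R W := by
      rintro r _ ⟨f, hf, rfl⟩
      constructor
      · refine ⟨e * r * e * f, ?_, ?_⟩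
        · constructor
          · simp only [← mul_assoc, he]
          · rw [mul_assoc, hf.2]
        · rw [← p1 r, mul_assoc r e f, hf.1, mul_assoc]
      · have h1 : InA e (r - e * r) := by
          constructor
          · rw [mul_sub, ← mul_assoc, he, sub_self]
          · rw [sub_mul, ← p1 r, sub_self]
        have h2 : prr z a k * r = prr z a k * (r - e * r) := by
          rw [mul_sub, ← mul_assoc, hw.2, zero_mul, sub_zero]
        have h3 : prr z a k * (r - e * r) = 0 := by
          have h4 := p4 z hz (fun i => if i < k then a i else r - e * r) (fun i _ => by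
            by_cases hi : i < k
            · simp only [hi, if_true]
              exact hT.ha i hi
            · simp only [hi, if_false]
              exact h1)
          change prr z _ k * (if k < k then a k else r - e * r) = 0 at h4
          rwa [if_neg (lt_irrefl k), Scc_prr_congr z _ a k (fun i hi => by
            simp only [hi, if_true])] at h4
        refine ⟨0, SccF_zero, ?_⟩
        rw [mul_assoc, h2, h3, mul_zero, zero_mul]
    have hWne : W ≠ ⊥ := by
      intro h
      have h1 : prr z a k ∈ W := ⟨e, ⟨he, he⟩, hw.1.symm⟩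
      rw [h] at h1
      exact hT.ne h1
    have hHW : H ≤ W := hH.2.2 W hW hWne
    obtain ⟨h, hhH, hh0⟩ : ∃ h ∈ H, h ≠ 0 := by
      by_contra hcon
      push Not at hcon
      exact hH.2.1 ((AddSubgroup.eq_bot_iff_forall _).2 hcon)
    obtain ⟨f, hf, rfl⟩ := hHW hhH
    have hf0 : f ≠ 0 := by
      rintro rfl
      exact hh0 (zero_mul _)
    obtain ⟨g, hg, _, hgf⟩ := Scc_inv hF hf hf0
    intro f' hf'
    rw [Scc_prr_mul]
    have h5 : f' * prr z a k = (f' * g) * (f * prr z a k) := by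
      rw [mul_assoc f' g, ← mul_assoc g f, hgf, ← mul_assoc, hf'.2]
    rw [h5]
    exact (hH.1 _ _ hhH).1
  · -- no element of `A` is killed by `C`
    let I6 : AddSubgroup R :=
      { carrier := {x | InA e x ∧ ∀ c', InC e c' → c' * x = 0}
        zero_mem' := ⟨SccA_zero, fun c' _ => mul_zero _⟩
        add_mem' := by
          rintro x y ⟨hx, hx'⟩ ⟨hy, hy'⟩
          exact ⟨SccA_add hx hy, fun c' hc' => by rw [mul_add, hx' c' hc', hy' c' hc', add_zero]⟩
        neg_mem' := by
          rintro x ⟨hx, hx'⟩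
          exact ⟨SccA_neg hx, fun c' hc' => by rw [mul_neg, hx' c' hc', neg_zero]⟩ }
    let I7 : AddSubgroup R :=
      { carrier := {x | InC e x}
        zero_mem' := SccC_zero
        add_mem' := fun hx hy => SccC_add hx hy
        neg_mem' := fun hx => SccC_neg hx }
    have hI6 : Idl R I6 := by
      rintro r x ⟨hx, hx'⟩
      refine ⟨⟨⟨?_, ?_⟩, fun c' hc' => ?_⟩, ⟨⟨?_, ?_⟩, fun c' hc' => ?_⟩⟩
      · have h1 : InC e (e * r - e * r * e) := by
          constructor
          · simp only [mul_sub, ← mul_assoc, he]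
          · rw [sub_mul, mul_assoc (e * r) e e, he, sub_self]
        have h2 := hx' _ h1
        rw [sub_mul, mul_assoc (e * r) e x, hx.1, mul_zero, sub_zero, mul_assoc] at h2
        exact h2
      · rw [mul_assoc, hx.2, mul_zero]
      · have h1 : InC e (c' * r) := by
          constructor
          · rw [← mul_assoc, hc'.1]
          · rw [mul_assoc, p1 r, mul_assoc, ← mul_assoc, hc'.2, zero_mul]
        rw [← mul_assoc]
        exact hx' _ h1
      · rw [← mul_assoc, hx.1, zero_mul]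
      · rw [mul_assoc, p1 r, mul_assoc, ← mul_assoc, hx.2, zero_mul]
      · rw [← mul_assoc, hx' c' hc', zero_mul]
    have hI7 : Idl R I7 := by
      intro r x hx
      have hx' : InC e x := hx
      have h1 : r * x = e * r * e * x := by
        rw [← p1 r, mul_assoc, hx'.1]
      refine ⟨⟨?_, ?_⟩, ⟨?_, ?_⟩⟩
      · rw [h1]
        simp only [← mul_assoc, he]
      · rw [mul_assoc, hx'.2, mul_zero]
      · rw [← mul_assoc, hx'.1]
      · rw [mul_assoc, p1 r, mul_assoc, ← mul_assoc, hx'.2, zero_mul]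
    have hne7 : I7 ≠ ⊥ := by
      intro h
      have h1 : prr z a k ∈ I7 := hw
      rw [h] at h1
      exact hT.ne h1
    intro x hx hx'
    by_contra hx0
    have hne6 : I6 ≠ ⊥ := by
      intro h
      have h1 : x ∈ I6 := ⟨hx, hx'⟩
      rw [h] at h1
      exact hx0 h1
    have h6 := hH.2.2 I6 hI6 hne6
    have h7 := hH.2.2 I7 hI7 hne7
    apply hH.2.1
    rw [AddSubgroup.eq_bot_iff_forall]
    intro y hy
    have h8 : InA e y := (h6 hy).1
    have h9 : InC e y := h7 hy
    rw [← h9.1, h8.1]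

end Pool.Agent.CRN
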