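import Pool.Agent.CRN.St

/-!
# CRN, module Sdd (helper36): structure for `TyD`
-/

set_option autoImplicit false

namespace Pool.Agent.CRN

open Pool.Agent.CRR

section run

variable {R : Type} [AddCommGroup R] (op : R →+ R →+ R)

/-- `x_(j-1) (... (x_0 m))` for a biadditive operation -/
def SddRun (x : ℕ → R) (m : R) : ℕ → R
  | 0 => m
  | j + 1 => op (x j) (SddRun x m j)

private theorem Sdd_congr {x y : ℕ → R} (m : R) : ∀ j, (∀ i, i < j → x i = y i) →
    SddRun op x m j = SddRun op y m j
  | 0, _ => rfl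
  | j + 1, h => by
    show op (x j) (SddRun op x m j) = op (y j) (SddRun op y m j)
    rw [Sdd_congr m j fun i hi => h i (Nat.lt_succ_of_lt hi), h j (Nat.lt_succ_self j)]

variable {A N : AddSubgroup R}

private theorem Sdd_mem (hs : ∀ x ∈ A, ∀ m ∈ N, op x m ∈ N) {x : ℕ → R} (hx : ∀ i, x i ∈ A)
    {m : R} (hm : m ∈ N) : ∀ j, SddRun op x m j ∈ N
  | 0 => hm
  | j + 1 => hs _ (hx j) _ (Sdd_mem hs hx hm j)

private theorem Sdd_anti (h1 : ∀ x ∈ A, ∀ m ∈ N, op x (op x m) = 0) {x y m : R} (hx : x ∈ A)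
    (hy : y ∈ A) (hm : m ∈ N) : op x (op y m) = - op y (op x m) := by
  have h := h1 (x + y) (A.add_mem hx hy) m hm
  have h2 : op x (op x m) + op x (op y m) + (op y (op x m) + op y (op y m)) = 0 := by
    rw [← h]
    simp only [map_add, AddMonoidHom.add_apply]
    abel
  rw [h1 x hx m hm, h1 y hy m hm, zero_add, add_zero] at h2
  exact eq_neg_of_add_eq_zero_left h2

private theorem Sdd_alt (hs : ∀ x ∈ A, ∀ m ∈ N, op x m ∈ N)
    (h1 : ∀ x ∈ A, ∀ m ∈ N, op x (op x m) = 0) {m : R} (hm : m ∈ N) (i : ℕ) : ∀ (d : ℕ)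
    (x : ℕ → R), (∀ l, x l ∈ A) → x i = x (i + d + 1) → SddRun op x m (i + d + 2) = 0
  | 0, x, hx, h => by
    show op (x (i + 1)) (op (x i) (SddRun op x m i)) = 0
    have h' : x i = x (i + 1) := h
    rw [← h']
    exact h1 _ (hx i) _ (Sdd_mem op hs hx hm i)
  | d + 1, x, hx, h => by
    have h2 := Sdd_alt hs h1 hm i d (Function.update x (i + d + 1) (x (i + d + 2))) (by
      intro l
      by_cases hl : l = i + d + 1
      · rw [hl, Function.update_self]
        exact hx _
      · rw [Function.update_of_ne hl]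
        exact hx _) (by
      rw [Function.update_self, Function.update_of_ne (by omega)]
      exact h)
    have h3 : SddRun op (Function.update x (i + d + 1) (x (i + d + 2))) m (i + d + 2) =
        op (x (i + d + 2)) (SddRun op x m (i + d + 1)) := by
      show op (Function.update x (i + d + 1) (x (i + d + 2)) (i + d + 1))
        (SddRun op (Function.update x (i + d + 1) (x (i + d + 2))) m (i + d + 1)) = _
      rw [Function.update_self, Sdd_congr op m (i + d + 1) fun l hl =>
        Function.update_of_ne (ne_of_lt hl) _ _]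
    rw [h3] at h2
    show op (x (i + d + 2)) (op (x (i + d + 1)) (SddRun op x m (i + d + 1))) = 0
    rw [Sdd_anti op h1 (hx _) (hx _) (Sdd_mem op hs hx hm _), h2, map_zero, neg_zero]

private theorem Sdd_up {x : ℕ → R} {m : R} {j : ℕ} (h : SddRun op x m j = 0) :
    ∀ s, SddRun op x m (j + s) = 0
  | 0 => h
  | s + 1 => by
    show op (x (j + s)) (SddRun op x m (j + s)) = 0
    rw [Sdd_up h s, map_zero]

private theorem Sdd_hom (x : ℕ → R) (m : R) (t : ℕ) : ∀ s, ∃ g : R →+ R, ∀ y,
    g y = SddRun op (Function.update x t y) m (t + 1 + s)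
  | 0 => by
    refine ⟨op.flip (SddRun op x m t), fun y => ?_⟩
    show op y (SddRun op x m t) = op (Function.update x t y t) (SddRun op (Function.update x t y) m t)
    rw [Function.update_self, Sdd_congr op m t fun l hl => Function.update_of_ne (ne_of_lt hl) y x]
  | s + 1 => by
    obtain ⟨g, hg⟩ := Sdd_hom x m t s
    refine ⟨(op (x (t + 1 + s))).comp g, fun y => ?_⟩
    show op (x (t + 1 + s)) (g y) = op (Function.update x t y (t + 1 + s))
      (SddRun op (Function.update x t y) m (t + 1 + s))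
    rw [hg, Function.update_of_ne (by omega)]

private theorem Sdd_ins (hs : ∀ x ∈ A, ∀ m ∈ N, op x m ∈ N) {x : ℕ → R} (hx : ∀ l, x l ∈ A)
    {m : R} (hm : m ∈ N) (t : ℕ) {y x' x'' : R} (hx' : x' ∈ A) (hx'' : x'' ∈ A)
    (hy : ∀ m ∈ N, op y m = op x' (op x'' m)) : ∀ s, ∃ z : ℕ → R, (∀ l, z l ∈ A) ∧
    SddRun op (Function.update x t y) m (t + 1 + s) = SddRun op z m (t + 2 + s)
  | 0 => by
    refine ⟨Function.update (Function.update x t x'') (t + 1) x', ?_, ?_⟩
    · intro l
      by_cases hl : l = t + 1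
      · rw [hl, Function.update_self]
        exact hx'
      · rw [Function.update_of_ne hl]
        by_cases hl2 : l = t
        · rw [hl2, Function.update_self]
          exact hx''
        · rw [Function.update_of_ne hl2]
          exact hx l
    · show op (Function.update x t y t) (SddRun op (Function.update x t y) m t) =
        op (Function.update (Function.update x t x'') (t + 1) x' (t + 1))
          (op (Function.update (Function.update x t x'') (t + 1) x' t)
            (SddRun op (Function.update (Function.update x t x'') (t + 1) x') m t))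
      rw [Function.update_self, Function.update_self,
        Function.update_of_ne (show t ≠ t + 1 by omega), Function.update_self,
        Sdd_congr op m t fun l hl => Function.update_of_ne (ne_of_lt hl) y x,
        Sdd_congr op m t (x := Function.update (Function.update x t x'') (t + 1) x') (y := x)
          fun l hl => by
            rw [Function.update_of_ne (by omega), Function.update_of_ne (ne_of_lt hl)]]
      exact hy _ (Sdd_mem op hs hx hm t)
  | s + 1 => by
    obtain ⟨z, hz, h⟩ := Sdd_ins hs hx hm t hx' hx'' hy s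
    refine ⟨Function.update z (t + 2 + s) (x (t + 1 + s)), ?_, ?_⟩
    · intro l
      by_cases hl : l = t + 2 + s
      · rw [hl, Function.update_self]
        exact hx _
      · rw [Function.update_of_ne hl]
        exact hz l
    · show op (Function.update x t y (t + 1 + s))
        (SddRun op (Function.update x t y) m (t + 1 + s)) =
        op (Function.update z (t + 2 + s) (x (t + 1 + s)) (t + 2 + s))
          (SddRun op (Function.update z (t + 2 + s) (x (t + 1 + s))) m (t + 2 + s))
      rw [Function.update_of_ne (by omega), Function.update_self, h,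
        Sdd_congr op m (t + 2 + s) (x := Function.update z (t + 2 + s) (x (t + 1 + s))) (y := z)
          fun l hl => Function.update_of_ne (ne_of_lt hl) _ _]

private theorem Sdd_main (hs : ∀ x ∈ A, ∀ m ∈ N, op x m ∈ N)
    (h1 : ∀ x ∈ A, ∀ m ∈ N, op x (op x m) = 0) (k : ℕ) (a : ℕ → R) (ha : ∀ l, l < k → a l ∈ A)
    (S1 S2 : Set R)
    (gen : ∀ x ∈ A, x ∈ AddSubgroup.closure ({y | ∃ l, l < k ∧ y = a l} ∪ S1 ∪ S2))
    (hS1 : ∀ y ∈ S1, y ∈ A ∧ ∃ x' ∈ A, ∃ x'' ∈ A, ∀ m ∈ N, op y m = op x' (op x'' m))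
    (hS2 : ∀ y ∈ S2, y ∈ A ∧ ∀ m ∈ N, op y m = 0)
    (nil : ∃ m0, ∀ x : ℕ → R, (∀ i, x i ∈ A) → ∀ m ∈ N, SddRun op x m m0 = 0) (x : ℕ → R)
    (hx : ∀ i, x i ∈ A) (m : R) (hm : m ∈ N) : SddRun op x m (k + 1) = 0 := by
  have down : ∀ j, k + 1 ≤ j →
      (∀ x : ℕ → R, (∀ i, x i ∈ A) → ∀ m ∈ N, SddRun op x m (j + 1) = 0) →
      ∀ x : ℕ → R, (∀ i, x i ∈ A) → ∀ m ∈ N, SddRun op x m j = 0 := by
    intro j hj hP
    have key : ∀ r t, t + r = j → ∀ x : ℕ → R, (∀ i, x i ∈ A) →
        (∀ i, i < t → ∃ l, l < k ∧ x i = a l) → ∀ m ∈ N, SddRun op x m j = 0 := by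
      intro r
      induction r with
      | zero =>
        intro t ht x hx hl m hm
        have ht' : t = j := by omega
        subst ht'
        have h2 : ∀ i, ∃ l, i < t → l < k ∧ x i = a l := by
          intro i
          by_cases hi : i < t
          · obtain ⟨l, hl1, hl2⟩ := hl i hi
            exact ⟨l, fun _ => ⟨hl1, hl2⟩⟩
          · exact ⟨0, fun h => absurd h hi⟩
        choose σ hσ using h2
        obtain ⟨i, hi, i', hi', hne, heq⟩ := Finset.exists_ne_map_eq_of_card_lt_of_maps_to
          (s := Finset.range t) (t := Finset.range k) (f := σ)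
          (by rw [Finset.card_range, Finset.card_range]; omega)
          (by
            intro i hi
            rw [Finset.mem_coe, Finset.mem_range] at hi
            rw [Finset.mem_coe, Finset.mem_range]
            exact (hσ i hi).1)
        rw [Finset.mem_range] at hi hi'
        have hxx : x i = x i' := by rw [(hσ i hi).2, (hσ i' hi').2, heq]
        rcases lt_or_gt_of_ne hne with h3 | h3
        · obtain ⟨d, hd⟩ : ∃ d, i' = i + d + 1 := ⟨i' - i - 1, by omega⟩
          have h4 := Sdd_alt op hs h1 hm i d x hx (by rw [← hd]; exact hxx)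
          obtain ⟨s, hs'⟩ : ∃ s, t = i + d + 2 + s := ⟨t - (i + d + 2), by omega⟩
          rw [hs']
          exact Sdd_up op h4 s
        · obtain ⟨d, hd⟩ : ∃ d, i = i' + d + 1 := ⟨i - i' - 1, by omega⟩
          have h4 := Sdd_alt op hs h1 hm i' d x hx (by rw [← hd]; exact hxx.symm)
          obtain ⟨s, hs'⟩ : ∃ s, t = i' + d + 2 + s := ⟨t - (i' + d + 2), by omega⟩
          rw [hs']
          exact Sdd_up op h4 s
      | succ r ih =>
        intro t ht x hx hl m hm
        obtain ⟨s, hs'⟩ : ∃ s, j = t + 1 + s := ⟨j - (t + 1), by omega⟩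
        obtain ⟨g, hg⟩ := Sdd_hom op x m t s
        have h3 : ∀ y ∈ AddSubgroup.closure ({y | ∃ l, l < k ∧ y = a l} ∪ S1 ∪ S2),
            g y = 0 := by
          intro y hy
          have h4 : AddSubgroup.closure ({y | ∃ l, l < k ∧ y = a l} ∪ S1 ∪ S2) ≤ g.ker := by
            rw [AddSubgroup.closure_le]
            rintro y ((⟨l, hl1, rfl⟩ | hy1) | hy2)
            · show g (a l) = 0
              rw [hg, ← hs']
              refine ih (t + 1) (by omega) _ ?_ ?_ m hm
              · intro i
                by_cases hi : i = t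
                · rw [hi, Function.update_self]
                  exact ha l hl1
                · rw [Function.update_of_ne hi]
                  exact hx i
              · intro i hi
                by_cases hi2 : i = t
                · exact ⟨l, hl1, by rw [hi2, Function.update_self]⟩
                · rw [Function.update_of_ne hi2]
                  exact hl i (by omega)
            · show g y = 0
              obtain ⟨-, x', hx', x'', hx'', h5⟩ := hS1 y hy1
              obtain ⟨z, hz, h6⟩ := Sdd_ins op hs hx hm t hx' hx'' h5 s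
              rw [hg, h6, show t + 2 + s = j + 1 by omega]
              exact hP z hz m hm
            · show g y = 0
              rw [hg]
              refine Sdd_up op ?_ s
              show op (Function.update x t y t) (SddRun op (Function.update x t y) m t) = 0
              rw [Function.update_self,
                Sdd_congr op m t fun l hl => Function.update_of_ne (ne_of_lt hl) y x]
              exact (hS2 y hy2).2 _ (Sdd_mem op hs hx hm t)
          exact h4 hy
        have h5 := h3 (x t) (gen _ (hx t))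
        rw [hg, Function.update_eq_self, ← hs'] at h5
        exact h5
    intro x hx m hm
    exact key j 0 (by omega) x hx (fun i hi => absurd hi (Nat.not_lt_zero i)) m hm
  obtain ⟨m0, hm0⟩ := nil
  have all : ∀ r j, k + 1 ≤ j → m0 ≤ j + r →
      ∀ x : ℕ → R, (∀ i, x i ∈ A) → ∀ m ∈ N, SddRun op x m j = 0 := by
    intro r
    induction r with
    | zero =>
      intro j _ hj x hx m hm
      obtain ⟨s, rfl⟩ : ∃ s, j = m0 + s := ⟨j - m0, by omega⟩
      exact Sdd_up op (hm0 x hx m hm) s
    | succ r ih =>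
      intro j hk hj
      exact down j hk (ih (j + 1) (by omega) (by omega))
  exact all m0 (k + 1) le_rfl (by omega) x hx m hm

end run

section parts

variable {R : Type} [NonUnitalRing R] (e : R)

/-- `A` -/
def SddA : AddSubgroup R where
  carrier := {x | InA e x}
  zero_mem' := ⟨mul_zero e, zero_mul e⟩
  add_mem' := fun {x y} hx hy => ⟨by rw [mul_add, hx.1, hy.1, add_zero],
    by rw [add_mul, hx.2, hy.2, add_zero]⟩
  neg_mem' := fun {x} hx => ⟨by rw [mul_neg, hx.1, neg_zero], by rw [neg_mul, hx.2, neg_zero]⟩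

/-- `B` -/
def SddB : AddSubgroup R where
  carrier := {x | InB e x}
  zero_mem' := ⟨mul_zero e, zero_mul e⟩
  add_mem' := fun {x y} hx hy => ⟨by rw [mul_add, hx.1, hy.1, add_zero],
    by rw [add_mul, hx.2, hy.2]⟩
  neg_mem' := fun {x} hx => ⟨by rw [mul_neg, hx.1, neg_zero], by rw [neg_mul, hx.2]⟩

/-- `C` -/
def SddC : AddSubgroup R where
  carrier := {x | InC e x}
  zero_mem' := ⟨mul_zero e, zero_mul e⟩
  add_mem' := fun {x y} hx hy => ⟨by rw [mul_add, hx.1, hy.1],
    by rw [add_mul, hx.2, hy.2, add_zero]⟩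
  neg_mem' := fun {x} hx => ⟨by rw [mul_neg, hx.1], by rw [neg_mul, hx.2, neg_zero]⟩

variable {e}

private theorem Sdd_pcA {x : R} (h : InA e x) : Pc (fun _ : Fin 1 => e) none none x :=
  ⟨fun i => by simp [h.1], fun j => by simp [h.2]⟩

private theorem Sdd_pcB {x : R} (h : InB e x) : Pc (fun _ : Fin 1 => e) none (some 0) x := by
  refine ⟨fun i => by simp [h.1], fun j => ?_⟩
  have hj : (some (0 : Fin 1)) = some j := by rw [Subsingleton.elim j 0]
  rw [if_pos hj]
  exact h.2

private theorem Sdd_pcC {x : R} (h : InC e x) : Pc (fun _ : Fin 1 => e) (some 0) none x := by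
  refine ⟨fun j => ?_, fun i => by simp [h.2]⟩
  have hj : (some (0 : Fin 1)) = some j := by rw [Subsingleton.elim j 0]
  rw [if_pos hj]
  exact h.1

private theorem Sdd_prnc (z : R) (y : ℕ → R) : ∀ j,
    z * prn y j = prn (fun i => Nat.casesOn i z y) (j + 1)
  | 0 => rfl
  | j + 1 => by
    show z * (prn y j * y (j + 1)) = prn (fun i => Nat.casesOn i z y) (j + 1) * y (j + 1)
    rw [← Sdd_prnc z y j, mul_assoc]

private theorem Sdd_pll {J : AddSubgroup R} {x : ℕ → R} (hx : ∀ i, x i ∈ J) {v : R}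
    (hv : v ∈ J) : ∀ j, ∃ y : ℕ → R, (∀ i, y i ∈ J) ∧ pll x v j = prn y j
  | 0 => ⟨fun _ => v, fun _ => hv, rfl⟩
  | j + 1 => by
    obtain ⟨y, hy, h⟩ := Sdd_pll hx hv j
    refine ⟨fun i => Nat.casesOn i (x j) y, ?_, ?_⟩
    · intro i
      cases i with
      | zero => exact hx j
      | succ i => exact hy i
    · show x j * pll x v j = _
      rw [h, Sdd_prnc]

private theorem Sdd_prr {J : AddSubgroup R} {x : ℕ → R} (hx : ∀ i, x i ∈ J) {v : R}
    (hv : v ∈ J) : ∀ j, prr v x j = prn (fun i => Nat.casesOn i v x) j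
  | 0 => rfl
  | j + 1 => by
    show prr v x j * x j = prn (fun i => Nat.casesOn i v x) j * x j
    rw [Sdd_prr hx hv j]

private theorem Sdd_pllm (a : ℕ → R) (y z : R) : ∀ k, pll a (y * z) k = pll a y k * z
  | 0 => rfl
  | k + 1 => by
    show a k * pll a (y * z) k = a k * pll a y k * z
    rw [Sdd_pllm a y z k, mul_assoc]

private theorem Sdd_plls (a : ℕ → R) (x y : R) : ∀ k,
    pll a (x * y) k = pll (fun i => Nat.casesOn i x a) y (k + 1)
  | 0 => rfl
  | k + 1 => by
    show a k * pll a (x * y) k = a k * pll (fun i => Nat.casesOn i x a) y (k + 1)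
    rw [Sdd_plls a x y k]

private theorem Sdd_run_pll (x : ℕ → R) (m : R) : ∀ j,
    pll x m j = SddRun (AddMonoidHom.mul : R →+ R →+ R) x m j
  | 0 => rfl
  | j + 1 => by
    show x j * pll x m j = x j * SddRun (AddMonoidHom.mul : R →+ R →+ R) x m j
    rw [Sdd_run_pll x m j]

private theorem Sdd_run_prr (x : ℕ → R) (m : R) : ∀ j,
    prr m x j = SddRun (AddMonoidHom.mul : R →+ R →+ R).flip x m j
  | 0 => rfl
  | j + 1 => by
    show prr m x j * x j = SddRun (AddMonoidHom.mul : R →+ R →+ R).flip x m j * x j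
    rw [Sdd_run_prr x m j]

/-- the generators of `A` -/
def SddGA (e : R) (k : ℕ) (a : ℕ → R) : AddSubgroup R :=
  AddSubgroup.closure ({y | ∃ l, l < k ∧ y = a l} ∪
    {y | ∃ x' x'', InA e x' ∧ InA e x'' ∧ y = x' * x''} ∪
    {y | ∃ x' x'', InB e x' ∧ InC e x'' ∧ y = x' * x''})

/-- the products of `C` and `A` -/
def SddCA (e : R) : AddSubgroup R :=
  AddSubgroup.closure {y | ∃ x' x'', InC e x' ∧ InA e x'' ∧ y = x' * x''}

/-- the products of `A` and `B` -/
def SddAB (e : R) : AddSubgroup R :=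
  AddSubgroup.closure {y | ∃ x' x'', InA e x' ∧ InB e x'' ∧ y = x' * x''}

private theorem Sdd_idA (he : e * e = e) (x y : R) :
    x * y - e * (x * y) - x * y * e + e * (x * y) * e =
      (x - e * x - x * e + e * x * e) * (y - e * y - y * e + e * y * e) +
        (x * e - e * x * e) * (e * y - e * y * e) := by
  have he' : ∀ z, e * (e * z) = e * z := fun z => by rw [← mul_assoc, he]
  simp only [mul_sub, sub_mul, mul_add, add_mul, mul_assoc, he', he]
  abel

private theorem Sdd_idC (he : e * e = e) (x y : R) :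
    e * (x * y) - e * (x * y) * e =
      (e * x * e) * (e * y - e * y * e) +
        (e * x - e * x * e) * (y - e * y - y * e + e * y * e) := by
  have he' : ∀ z, e * (e * z) = e * z := fun z => by rw [← mul_assoc, he]
  simp only [mul_sub, sub_mul, mul_add, add_mul, mul_assoc, he', he]
  abel

private theorem Sdd_idB (he : e * e = e) (x y : R) :
    x * y * e - e * (x * y) * e =
      (x * e - e * x * e) * (e * y * e) +
        (x - e * x - x * e + e * x * e) * (y * e - e * y * e) := by
  have he' : ∀ z, e * (e * z) = e * z := fun z => by rw [← mul_assoc, he]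
  simp only [mul_sub, sub_mul, mul_add, add_mul, mul_assoc, he', he]
  abel

private theorem Sdd_inA (he : e * e = e) (x : R) : InA e (x - e * x - x * e + e * x * e) := by
  have he' : ∀ z, e * (e * z) = e * z := fun z => by rw [← mul_assoc, he]
  refine ⟨?_, ?_⟩
  · simp only [mul_sub, sub_mul, mul_add, add_mul, mul_assoc, he', he]
    abel
  · simp only [mul_sub, sub_mul, mul_add, add_mul, mul_assoc, he', he]
    abel

private theorem Sdd_inB (he : e * e = e) (x : R) : InB e (x * e - e * x * e) := by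
  have he' : ∀ z, e * (e * z) = e * z := fun z => by rw [← mul_assoc, he]
  refine ⟨?_, ?_⟩
  · simp only [mul_sub, mul_assoc, he', sub_self]
  · simp only [sub_mul, mul_assoc, he]

private theorem Sdd_inC (he : e * e = e) (x : R) : InC e (e * x - e * x * e) := by
  have he' : ∀ z, e * (e * z) = e * z := fun z => by rw [← mul_assoc, he]
  refine ⟨?_, ?_⟩
  · simp only [mul_sub, mul_assoc, he']
  · simp only [sub_mul, mul_assoc, he, sub_self]

private theorem Sdd_inF (he : e * e = e) (x : R) : InF e (e * x * e) := by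
  refine ⟨?_, ?_⟩
  · rw [← mul_assoc, ← mul_assoc, he]
  · rw [mul_assoc, he]

private theorem Sdd_FCA (he : e * e = e) {f x : R} (hf : InF e f) (hx : x ∈ SddCA e) :
    f * x ∈ SddCA e := by
  have h : SddCA e ≤ (SddCA e).comap (AddMonoidHom.mulLeft f) := by
    rw [SddCA, AddSubgroup.closure_le]
    rintro _ ⟨x', x'', h1, h2, rfl⟩
    show f * (x' * x'') ∈ SddCA e
    rw [← mul_assoc]
    refine AddSubgroup.subset_closure ⟨f * x', x'', ⟨?_, ?_⟩, h2, rfl⟩
    · rw [← mul_assoc, hf.1]
    · rw [mul_assoc, h1.2, mul_zero]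
  exact h hx

private theorem Sdd_ABF (he : e * e = e) {f x : R} (hf : InF e f) (hx : x ∈ SddAB e) :
    x * f ∈ SddAB e := by
  have h : SddAB e ≤ (SddAB e).comap (AddMonoidHom.mulRight f) := by
    rw [SddAB, AddSubgroup.closure_le]
    rintro _ ⟨x', x'', h1, h2, rfl⟩
    show x' * x'' * f ∈ SddAB e
    rw [mul_assoc]
    refine AddSubgroup.subset_closure ⟨x', x'' * f, h1, ⟨?_, ?_⟩, rfl⟩
    · rw [← mul_assoc, h2.1, zero_mul]
    · rw [mul_assoc, hf.2]
  exact h hx

/-- the subring of the elements with good components -/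
private def SddT (he : e * e = e) (b c : R) (k : ℕ) (a : ℕ → R) : NonUnitalSubring R where
  carrier := {x | x - e * x - x * e + e * x * e ∈ SddGA e k a ∧
    (∃ f, InF e f ∧ (e * x - e * x * e) - f * c ∈ SddCA e) ∧
    ∃ f, InF e f ∧ (x * e - e * x * e) - b * f ∈ SddAB e}
  zero_mem' := by
    refine ⟨?_, ⟨0, ⟨mul_zero e, zero_mul e⟩, ?_⟩, ⟨0, ⟨mul_zero e, zero_mul e⟩, ?_⟩⟩
    · simp
    · simp
    · simp
  add_mem' := by
    rintro x y ⟨hx1, ⟨f, hf, hx2⟩, ⟨g, hg, hx3⟩⟩ ⟨hy1, ⟨f', hf', hy2⟩, ⟨g', hg', hy3⟩⟩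
    refine ⟨?_, ⟨f + f', ⟨by rw [mul_add, hf.1, hf'.1], by rw [add_mul, hf.2, hf'.2]⟩, ?_⟩,
      ⟨g + g', ⟨by rw [mul_add, hg.1, hg'.1], by rw [add_mul, hg.2, hg'.2]⟩, ?_⟩⟩
    · have h := add_mem hx1 hy1
      have h2 : x + y - e * (x + y) - (x + y) * e + e * (x + y) * e =
          (x - e * x - x * e + e * x * e) + (y - e * y - y * e + e * y * e) := by
        simp only [mul_add, add_mul]
        abel
      rw [h2]
      exact h
    · have h := add_mem hx2 hy2
      have h2 : e * (x + y) - e * (x + y) * e - (f + f') * c =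
          (e * x - e * x * e) - f * c + ((e * y - e * y * e) - f' * c) := by
        simp only [mul_add, add_mul]
        abel
      rw [h2]
      exact h
    · have h := add_mem hx3 hy3
      have h2 : (x + y) * e - e * (x + y) * e - b * (g + g') =
          (x * e - e * x * e) - b * g + ((y * e - e * y * e) - b * g') := by
        simp only [mul_add, add_mul]
        abel
      rw [h2]
      exact h
  neg_mem' := by
    rintro x ⟨hx1, ⟨f, hf, hx2⟩, ⟨g, hg, hx3⟩⟩
    refine ⟨?_, ⟨-f, ⟨by rw [mul_neg, hf.1], by rw [neg_mul, hf.2]⟩, ?_⟩,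
      ⟨-g, ⟨by rw [mul_neg, hg.1], by rw [neg_mul, hg.2]⟩, ?_⟩⟩
    · have h := neg_mem hx1
      have h2 : -x - e * (-x) - (-x) * e + e * (-x) * e =
          -(x - e * x - x * e + e * x * e) := by
        simp only [mul_neg, neg_mul]
        abel
      rw [h2]
      exact h
    · have h := neg_mem hx2
      have h2 : e * (-x) - e * (-x) * e - (-f) * c = -((e * x - e * x * e) - f * c) := by
        simp only [mul_neg, neg_mul]
        abel
      rw [h2]
      exact h
    · have h := neg_mem hx3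
      have h2 : (-x) * e - e * (-x) * e - b * (-g) = -((x * e - e * x * e) - b * g) := by
        simp only [mul_neg, neg_mul]
        abel
      rw [h2]
      exact h
  mul_mem' := by
    rintro x y ⟨hx1, ⟨f, hf, hx2⟩, ⟨g, hg, hx3⟩⟩ ⟨hy1, ⟨f', hf', hy2⟩, ⟨g', hg', hy3⟩⟩
    refine ⟨?_, ⟨(e * x * e) * f', ⟨?_, ?_⟩, ?_⟩, ⟨g * (e * y * e), ⟨?_, ?_⟩, ?_⟩⟩
    · rw [Sdd_idA he]
      refine add_mem ?_ ?_
      · exact AddSubgroup.subset_closure (Or.inl (Or.inr
          ⟨_, _, Sdd_inA he x, Sdd_inA he y, rfl⟩))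
      · exact AddSubgroup.subset_closure (Or.inr ⟨_, _, Sdd_inB he x, Sdd_inC he y, rfl⟩)
    · rw [← mul_assoc, (Sdd_inF he x).1]
    · rw [mul_assoc, hf'.2]
    · rw [Sdd_idC he]
      have h2 : e * x * e * (e * y - e * y * e) +
          (e * x - e * x * e) * (y - e * y - y * e + e * y * e) - e * x * e * f' * c =
          e * x * e * (e * y - e * y * e - f' * c) +
          (e * x - e * x * e) * (y - e * y - y * e + e * y * e) := by
        rw [mul_sub (e * x * e) (e * y - e * y * e) (f' * c), mul_assoc (e * x * e) f' c]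
        abel
      rw [h2]
      refine add_mem (Sdd_FCA he (Sdd_inF he x) hy2) ?_
      exact AddSubgroup.subset_closure ⟨_, _, Sdd_inC he x, Sdd_inA he y, rfl⟩
    · rw [← mul_assoc, hg.1]
    · rw [mul_assoc, (Sdd_inF he y).2]
    · rw [Sdd_idB he]
      have h2 : (x * e - e * x * e) * (e * y * e) +
          (x - e * x - x * e + e * x * e) * (y * e - e * y * e) - b * (g * (e * y * e)) =
          (x * e - e * x * e - b * g) * (e * y * e) +
          (x - e * x - x * e + e * x * e) * (y * e - e * y * e) := by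
        rw [sub_mul (x * e - e * x * e) (b * g) (e * y * e), mul_assoc b g (e * y * e)]
        abel
      rw [h2]
      refine add_mem (Sdd_ABF he (Sdd_inF he y) hx3) ?_
      exact AddSubgroup.subset_closure ⟨_, _, Sdd_inA he x, Sdd_inB he y, rfl⟩

private theorem Sdd_T (he : e * e = e) {b c : R} {k : ℕ} {a : ℕ → R} (h : TD e b c k a) (x : R) :
    x ∈ SddT he b c k a := by
  have h1 : NonUnitalSubring.closure ({x | e * x = x ∧ x * e = x} ∪ {b, c} ∪
      {x | ∃ l, l < k ∧ x = a l}) ≤ SddT he b c k a := by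
    rw [NonUnitalSubring.closure_le]
    rintro y ((⟨hy1, hy2⟩ | (rfl | rfl)) | ⟨l, hl, rfl⟩)
    · refine ⟨?_, ⟨0, ⟨mul_zero e, zero_mul e⟩, ?_⟩, ⟨0, ⟨mul_zero e, zero_mul e⟩, ?_⟩⟩
      · rw [hy1, hy2]
        simp
      · rw [hy1, hy2]
        simp
      · rw [hy1, hy2]
        simp
    · refine ⟨?_, ⟨0, ⟨mul_zero e, zero_mul e⟩, ?_⟩, ⟨e, ⟨he, he⟩, ?_⟩⟩
      · rw [h.hb.1, h.hb.2, zero_mul]
        simp
      · rw [h.hb.1, zero_mul]
        simp
      · rw [h.hb.1, zero_mul]
        simp
    · refine ⟨?_, ⟨e, ⟨he, he⟩, ?_⟩, ⟨0, ⟨mul_zero e, zero_mul e⟩, ?_⟩⟩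
      · rw [h.hc.1, h.hc.2]
        simp
      · rw [h.hc.1, h.hc.2]
        simp
      · rw [h.hc.1, h.hc.2]
        simp
    · refine ⟨?_, ⟨0, ⟨mul_zero e, zero_mul e⟩, ?_⟩, ⟨0, ⟨mul_zero e, zero_mul e⟩, ?_⟩⟩
      · rw [(h.ha l hl).1, (h.ha l hl).2, zero_mul, sub_zero, sub_zero, add_zero]
        exact AddSubgroup.subset_closure (Or.inl (Or.inl ⟨l, hl, rfl⟩))
      · rw [(h.ha l hl).1, zero_mul]
        simp
      · rw [(h.ha l hl).1, (h.ha l hl).2, zero_mul]
        simp
  rw [h.gen] at h1
  exact h1 trivial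

end parts

/-- **SDD.** -/
theorem thm_Sdd (hJid : St_Jid) (hRla : St_Rla) (hJnl : St_Jnl) (hPpw : St_Ppw) : St_Sdd := by
  intro n R _ _ e hCx H hH b c k a hTD
  have hfld : Fld R e := hCx.fam.fld 0
  have he : e * e = e := hfld.1
  obtain ⟨p, r, hp, -, hpe⟩ := hPpw R H hH
  have hpe' := hpe e hfld
  obtain ⟨hJ1, hJ3, -⟩ := hJid n R 1 (fun _ => e) hCx
  obtain ⟨m0, hm0⟩ := hJnl R (JJ (fun _ : Fin 1 => e)) hJ1 hJ3
  -- the relations
  have rAAB : ∀ x y, InA e x → InB e y → x * (x * y) = 0 := by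
    intro x y hx hy
    have h := (hRla n R 1 (fun _ => e) hCx x x y y 0 0 0 (Sdd_pcA hx) (Sdd_pcA hx) (Sdd_pcB hy)
      (Sdd_pcB hy) (Sdd_pcC ⟨mul_zero e, zero_mul e⟩)).1
    rw [← mul_assoc]
    exact h
  have rCAA : ∀ x z, InA e x → InC e z → z * x * x = 0 := by
    intro x z hx hz
    exact (hRla n R 1 (fun _ => e) hCx x x 0 0 z 0 0 (Sdd_pcA hx) (Sdd_pcA hx)
      (Sdd_pcB ⟨mul_zero e, zero_mul e⟩) (Sdd_pcB ⟨mul_zero e, zero_mul e⟩) (Sdd_pcC hz)).2.2.1
  have rABC : ∀ x y z, InA e x → InB e y → InC e z → x * y * z + y * z * x = 0 := by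
    intro x y z hx hy hz
    exact (hRla n R 1 (fun _ => e) hCx x x y y z 0 0 (Sdd_pcA hx) (Sdd_pcA hx)
      (Sdd_pcB hy) (Sdd_pcB hy) (Sdd_pcC hz)).2.2.2.2.1
  have rCB : ∀ y z, InB e y → InC e z → z * y = 0 := by
    intro y z hy hz
    exact (hRla n R 1 (fun _ => e) hCx 0 0 y y z 0 0 (Sdd_pcA ⟨mul_zero e, zero_mul e⟩)
      (Sdd_pcA ⟨mul_zero e, zero_mul e⟩) (Sdd_pcB hy) (Sdd_pcB hy) (Sdd_pcC hz)).2.2.2.2.2.2
  -- (1)-(3)
  have p1 : ∀ x, InA e x → x ∈ SddGA e k a := by
    intro x hx
    have h := (Sdd_T he hTD x).1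
    rw [hx.1, hx.2, zero_mul, sub_zero, sub_zero, add_zero] at h
    exact h
  have p2 : ∀ x, InC e x → ∃ f, InF e f ∧ x - f * c ∈ SddCA e := by
    intro x hx
    have h := (Sdd_T he hTD x).2.1
    rw [hx.1, hx.2, sub_zero] at h
    exact h
  have p3 : ∀ x, InB e x → ∃ f, InF e f ∧ x - b * f ∈ SddAB e := by
    intro x hx
    have h := (Sdd_T he hTD x).2.2
    rw [hx.1, hx.2, zero_mul, sub_zero] at h
    exact h
  -- products of `A`, `B`, `C` in the radical
  have jA : ∀ x, InA e x → x ∈ JJ (fun _ : Fin 1 => e) := by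
    intro x hx i
    show e * x * e = 0
    rw [hx.1, zero_mul]
  have jB : ∀ x, InB e x → x ∈ JJ (fun _ : Fin 1 => e) := by
    intro x hx i
    show e * x * e = 0
    rw [hx.1, zero_mul]
  have jC : ∀ x, InC e x → x ∈ JJ (fun _ : Fin 1 => e) := by
    intro x hx i
    show e * x * e = 0
    rw [hx.1, hx.2]
  have sAA : ∀ x y, InA e x → InA e y → InA e (x * y) := fun x y hx hy =>
    ⟨by rw [← mul_assoc, hx.1, zero_mul], by rw [mul_assoc, hy.2, mul_zero]⟩
  have sBC : ∀ x y, InB e x → InC e y → InA e (x * y) := fun x y hx hy =>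
    ⟨by rw [← mul_assoc, hx.1, zero_mul], by rw [mul_assoc, hy.2, mul_zero]⟩
  have sAB : ∀ x y, InA e x → InB e y → InB e (x * y) := fun x y hx hy =>
    ⟨by rw [← mul_assoc, hx.1, zero_mul], by rw [mul_assoc, hy.2]⟩
  have sCA : ∀ x y, InC e x → InA e y → InC e (x * y) := fun x y hx hy =>
    ⟨by rw [← mul_assoc, hx.1], by rw [mul_assoc, hy.2, mul_zero]⟩
  -- (4)
  have p4 : ∀ b', InB e b' → ∀ x : ℕ → R, (∀ i, InA e (x i)) → pll x b' (k + 1) = 0 := by
    intro b' hb' x hx
    rw [Sdd_run_pll]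
    refine Sdd_main (AddMonoidHom.mul : R →+ R →+ R) (A := SddA e) (N := SddB e)
      (fun x hx m hm => sAB x m hx hm) (fun x hx m hm => rAAB x m hx hm) k a
      (fun l hl => hTD.ha l hl) {y | ∃ x' x'', InA e x' ∧ InA e x'' ∧ y = x' * x''}
      {y | ∃ x' x'', InB e x' ∧ InC e x'' ∧ y = x' * x''} (fun x hx => p1 x hx) ?_ ?_
      ⟨m0, ?_⟩ x hx b' hb'
    · rintro _ ⟨x', x'', h1, h2, rfl⟩
      exact ⟨sAA _ _ h1 h2, x', h1, x'', h2, fun m _ => mul_assoc x' x'' m⟩
    · rintro _ ⟨x', x'', h1, h2, rfl⟩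
      refine ⟨sBC _ _ h1 h2, fun m hm => ?_⟩
      show x' * x'' * m = 0
      rw [mul_assoc, rCB m x'' hm h2, mul_zero]
    · intro x hx m hm
      rw [← Sdd_run_pll]
      obtain ⟨y, hy, h⟩ := Sdd_pll (J := JJ (fun _ : Fin 1 => e)) (fun i => jA _ (hx i))
        (jB m hm) m0
      rw [h]
      exact hm0 y hy
  -- (5)
  have p5 : ∀ c', InC e c' → ∀ x : ℕ → R, (∀ i, InA e (x i)) → prr c' x (k + 1) = 0 := by
    intro c' hc' x hx
    rw [Sdd_run_prr]
    refine Sdd_main (AddMonoidHom.mul : R →+ R →+ R).flip (A := SddA e) (N := SddC e)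
      (fun x hx m hm => sCA m x hm hx) (fun x hx m hm => rCAA x m hx hm) k a
      (fun l hl => hTD.ha l hl) {y | ∃ x' x'', InA e x' ∧ InA e x'' ∧ y = x' * x''}
      {y | ∃ x' x'', InB e x' ∧ InC e x'' ∧ y = x' * x''} (fun x hx => p1 x hx) ?_ ?_
      ⟨m0, ?_⟩ x hx c' hc'
    · rintro _ ⟨x', x'', h1, h2, rfl⟩
      exact ⟨sAA _ _ h1 h2, x'', h2, x', h1, fun m _ => (mul_assoc m x' x'').symm⟩
    · rintro _ ⟨x', x'', h1, h2, rfl⟩
      refine ⟨sBC _ _ h1 h2, fun m hm => ?_⟩
      show m * (x' * x'') = 0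
      rw [← mul_assoc, rCB x' m h1 hm, zero_mul]
    · intro x hx m hm
      rw [← Sdd_run_prr, Sdd_prr (J := JJ (fun _ : Fin 1 => e)) (fun i => jA _ (hx i))
        (jC m hm) m0]
      refine hm0 _ ?_
      intro i
      cases i with
      | zero => exact jC m hm
      | succ i => exact jA _ (hx i)
  refine ⟨p1, p2, p3, p4, p5, ?_⟩
  -- (6)
  intro f hf
  set w := pll a (b * f * c) k with hw
  by_cases hw0 : w = 0
  · rw [hw0]
    exact H.zero_mem
  -- replace the letters by elements of `A`
  obtain ⟨a', ha', haa⟩ : ∃ a' : ℕ → R, (∀ l, InA e (a' l)) ∧ ∀ y, pll a' y k = pll a y k := by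
    refine ⟨fun l => if l < k then a l else 0, fun l => ?_, fun y => ?_⟩
    · show InA e (if l < k then a l else 0)
      by_cases hl : l < k
      · rw [if_pos hl]
        exact hTD.ha l hl
      · rw [if_neg hl]
        exact ⟨mul_zero e, zero_mul e⟩
    · rw [Sdd_run_pll, Sdd_run_pll]
      exact Sdd_congr _ y k fun l hl => if_pos hl
  have hbf : InB e (b * f) := ⟨by rw [← mul_assoc, hTD.hb.1, zero_mul], by rw [mul_assoc, hf.2]⟩
  have hw1 : w = pll a' (b * f) k * c := by rw [hw, ← haa, Sdd_pllm]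
  have hPB : InB e (pll a' (b * f) k) := by
    rw [Sdd_run_pll]
    exact Sdd_mem (AddMonoidHom.mul : R →+ R →+ R) (A := SddA e) (N := SddB e)
      (fun x hx m hm => sAB x m hx hm) ha' hbf k
  have hwA : InA e w := by
    rw [hw1]
    exact sBC _ _ hPB hTD.hc
  have killL : ∀ y : R, y * w = 0 := by
    intro y
    have h1 : y * w = (y - e * y - y * e + e * y * e) * w + (e * y - e * y * e) * w := by
      have h2 : e * w = 0 := hwA.1
      have h3 : ∀ z, z * e * w = 0 := fun z => by rw [mul_assoc, h2, mul_zero]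
      simp only [sub_mul, add_mul, h3]
      abel
    rw [h1]
    have hA := Sdd_inA he y
    have hC := Sdd_inC he y
    have h4 : (e * y - e * y * e) * w = 0 := by
      rw [hw1, ← mul_assoc, rCB _ _ hPB hC, zero_mul]
    have h5 : (y - e * y - y * e + e * y * e) * w = 0 := by
      have h6 := p4 (b * f) hbf (fun i => if i < k then a' i else (y - e * y - y * e + e * y * e))
        (fun i => by
          show InA e (if i < k then a' i else (y - e * y - y * e + e * y * e))
          by_cases hi : i < k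
          · rw [if_pos hi]
            exact ha' i
          · rw [if_neg hi]
            exact hA)
      have h7 : pll (fun i => if i < k then a' i else (y - e * y - y * e + e * y * e)) (b * f)
          (k + 1) = (y - e * y - y * e + e * y * e) * pll a' (b * f) k := by
        show (if k < k then a' k else (y - e * y - y * e + e * y * e)) * _ = _
        rw [if_neg (lt_irrefl k), Sdd_run_pll, Sdd_run_pll]
        congr 1
        exact Sdd_congr _ _ k fun l hl => if_pos hl
      rw [h7] at h6
      rw [hw1, ← mul_assoc, h6, zero_mul]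
    rw [h4, h5, add_zero]
  have killR : ∀ y : R, w * y = 0 := by
    intro y
    have h1 : w * y = w * (y - e * y - y * e + e * y * e) + w * (y * e - e * y * e) := by
      have h2 : w * e = 0 := hwA.2
      have h3 : ∀ z, w * (e * z) = 0 := fun z => by rw [← mul_assoc, h2, zero_mul]
      simp only [mul_sub, mul_add, mul_assoc, h3]
      abel
    rw [h1]
    have hA := Sdd_inA he y
    have hB := Sdd_inB he y
    have h4 : w * (y * e - e * y * e) = 0 := by
      rw [hw1, mul_assoc, rCB _ _ hB hTD.hc, mul_zero]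
    have h5 : w * (y - e * y - y * e + e * y * e) = 0 := by
      generalize (y - e * y - y * e + e * y * e) = x at hA ⊢
      have h6 : w * x = - (pll a' (x * (b * f)) k * c) := by
        rw [hw, ← haa, ← Sdd_pllm, ← Sdd_pllm]
        have h7 : b * f * c * x = - (x * (b * f) * c) :=
          eq_neg_of_add_eq_zero_right (rABC x (b * f) c hA hbf hTD.hc)
        rw [h7]
        have h8 : ∀ (z : R) (j : ℕ), pll a' (-z) j = - pll a' z j := by
          intro z j
          induction j with
          | zero => rfl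
          | succ j ih =>
            show a' j * pll a' (-z) j = -(a' j * pll a' z j)
            rw [ih, mul_neg]
        exact h8 _ _
      have h9 := p4 (b * f) hbf (fun i => Nat.casesOn i x a') (fun i => by
        cases i with
        | zero => exact hA
        | succ i => exact ha' i)
      rw [← Sdd_plls] at h9
      rw [h6, h9, zero_mul, neg_zero]
    rw [h4, h5, add_zero]
  have hpw : p • w = 0 := by
    have h1 : e * f = f := hf.1
    have h2 : p • (b * f * c) = 0 := by
      rw [← h1, ← smul_mul_assoc, ← mul_smul_comm, ← smul_mul_assoc, hpe', zero_mul, mul_zero,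
        zero_mul]
    have h3 : ∀ (z : R) (j : ℕ), p • pll a z j = pll a (p • z) j := by
      intro z j
      induction j with
      | zero => rfl
      | succ j ih =>
        show p • (a j * pll a z j) = a j * pll a (p • z) j
        rw [← ih, mul_smul_comm]
    rw [hw, h3, h2]
    have h4 : ∀ j : ℕ, pll a 0 j = 0 := by
      intro j
      induction j with
      | zero => rfl
      | succ j ih =>
        show a j * pll a 0 j = 0
        rw [ih, mul_zero]
    exact h4 k
  have hI : Idl R (AddSubgroup.zmultiples w) := by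
    intro y x hx
    obtain ⟨m, rfl⟩ := AddSubgroup.mem_zmultiples_iff.1 hx
    rw [mul_smul_comm, smul_mul_assoc, killL, killR, smul_zero]
    exact ⟨AddSubgroup.zero_mem _, AddSubgroup.zero_mem _⟩
  have hne : AddSubgroup.zmultiples w ≠ ⊥ := by
    intro h
    apply hw0
    have h1 : w ∈ AddSubgroup.zmultiples w := AddSubgroup.mem_zmultiples w
    rw [h] at h1
    exact h1
  have hle := hH.2.2 _ hI hne
  obtain ⟨h, hhH, hh0⟩ : ∃ h ∈ H, h ≠ 0 := by
    by_contra hcon
    push_neg at hcon
    exact hH.2.1 ((AddSubgroup.eq_bot_iff_forall H).2 hcon)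
  obtain ⟨m, hm⟩ := AddSubgroup.mem_zmultiples_iff.1 (hle hhH)
  have hpm : ¬ (p : ℤ) ∣ m := by
    rintro ⟨q, rfl⟩
    apply hh0
    rw [← hm, mul_comm, mul_smul, natCast_zsmul, hpw, smul_zero]
  have hcop : IsCoprime (p : ℤ) m :=
    (Nat.prime_iff_prime_int.1 hp).coprime_iff_not_dvd.2 hpm
  obtain ⟨u, v, huv⟩ := hcop
  have h1 : w = v • h := by
    calc w = (1 : ℤ) • w := (one_smul ℤ w).symm
      _ = (u * p + v * m) • w := by rw [huv]
      _ = v • h := by
        rw [add_smul, mul_smul, natCast_zsmul, hpw, smul_zero, zero_add, mul_smul, hm]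
  rw [h1]
  exact H.zsmul_mem hhH v

end Pool.Agent.CRN
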