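import Pool.Agent.CRN.St

/-!
Campaign CRN (problem MP_1bb14d_al): facts for the triangular type.
-/

set_option autoImplicit false

namespace Pool.Agent.CRN

/-- the elements of `H` with `x f = x` -/
def TrfI {R : Type} [NonUnitalRing R] (H : AddSubgroup R) (f : R) : AddSubgroup R where
  carrier := {x | x ∈ H ∧ x * f = x}
  zero_mem' := ⟨zero_mem _, zero_mul _⟩
  add_mem' := fun {x y} hx hy => ⟨add_mem hx.1 hy.1, by rw [add_mul, hx.2, hy.2]⟩
  neg_mem' := fun {x} hx => ⟨neg_mem hx.1, by rw [neg_mul, hx.2]⟩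

/-- the elements with `e x = 0`, `x e = 0` -/
def TrfD {R : Type} [NonUnitalRing R] (e : R) : AddSubgroup R where
  carrier := {x | e * x = 0 ∧ x * e = 0}
  zero_mem' := ⟨mul_zero _, zero_mul _⟩
  add_mem' := fun {x y} hx hy =>
    ⟨by rw [mul_add, hx.1, hy.1, add_zero], by rw [add_mul, hx.2, hy.2, add_zero]⟩
  neg_mem' := fun {x} hx => ⟨by rw [mul_neg, hx.1, neg_zero], by rw [neg_mul, hx.2, neg_zero]⟩

theorem Trf_core {R : Type} [NonUnitalRing R] (e f : R) (H : AddSubgroup R) (he : e * e = e)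
    (h2 : ∀ x : R, x * e = e * x * e) (h3 : f * f = f) (h4 : e * f = 0) (h5 : f * e = 0)
    (h6 : ∀ x : R, e * x = 0 → x * e = 0 → f * x = x ∧ x * f = x) (h7 : Lst R H)
    (h8 : ∀ x : R, x ∈ H ↔ e * x = x ∧ x * e = 0) :
    (∀ x y, e * (x * y) * e = (e * x * e) * (e * y * e)) ∧
    (∀ x y, f * (x * y) * f = (f * x * f) * (f * y * f)) ∧ (∀ x ∈ H, ∀ y ∈ H, x * y = 0) ∧
    (∀ x, x - e * x * e - f * x * f ∈ H) ∧ (f ≠ 0 → ∀ x ∈ H, x * f = x) := by
  have hfx : ∀ x : R, f * x * f = f * x := by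
    intro x
    refine (h6 (f * x) ?_ ?_).2
    · rw [← mul_assoc, h4, zero_mul]
    · rw [mul_assoc, h2, ← mul_assoc, ← mul_assoc, h5, zero_mul, zero_mul]
  refine ⟨?_, ?_, ?_, ?_, ?_⟩
  · intro x y
    calc e * (x * y) * e = e * (x * (y * e)) := by simp only [mul_assoc]
      _ = e * (x * (e * y * e)) := by rw [h2 y]
      _ = e * x * (e * e) * y * e := by rw [he]; simp only [mul_assoc]
      _ = (e * x * e) * (e * y * e) := by simp only [mul_assoc]
  · intro x y
    rw [hfx, hfx, hfx, ← mul_assoc, ← mul_assoc, hfx]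
  · intro x hx y hy
    have hx' := (h8 x).1 hx
    have hy' := (h8 y).1 hy
    rw [← hy'.1, ← mul_assoc, hx'.2, zero_mul]
  · intro x
    have hw : f * x = x - e * x := by
      have h := (h6 (x - e * x) (by rw [mul_sub, ← mul_assoc, he, sub_self])
        (by rw [sub_mul, h2 x, sub_self])).1
      rw [mul_sub, ← mul_assoc, h5, zero_mul, sub_zero] at h
      exact h
    rw [h8, hfx, hw]
    constructor
    · have h9 : x - e * x * e - (x - e * x) = e * x - e * x * e := by abel
      rw [h9, mul_sub, ← mul_assoc, he, ← mul_assoc, ← mul_assoc, he]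
    · have h9 : x - e * x * e - (x - e * x) = e * x - e * x * e := by abel
      rw [h9, sub_mul, mul_assoc (e * x) e e, he, sub_self]
  · intro hf
    have hI : Idl R (TrfI H f) := by
      rintro r x ⟨hx1, hx2⟩
      refine ⟨⟨(h7.1 r x hx1).1, ?_⟩, ⟨(h7.1 r x hx1).2, ?_⟩⟩
      · rw [mul_assoc, hx2]
      · have h9 : x * r = x * (f * r) := by rw [← mul_assoc, hx2]
        rw [h9, mul_assoc, hfx]
    by_cases hI0 : TrfI H f = ⊥
    · exfalso
      have hHf : ∀ m ∈ H, m * f = 0 := by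
        intro m hm
        have h9 : m * f ∈ TrfI H f := ⟨(h7.1 f m hm).2, by rw [mul_assoc, h3]⟩
        rw [hI0] at h9
        exact (AddSubgroup.mem_bot).1 h9
      have herf : ∀ r : R, e * r * f = 0 := by
        intro r
        have h9 : e * r * f ∈ H := by
          rw [h8]
          refine ⟨?_, ?_⟩
          · rw [← mul_assoc, ← mul_assoc, he]
          · rw [mul_assoc, h5, mul_zero]
        have h10 := hHf _ h9
        rwa [mul_assoc, h3] at h10
      have hD : Idl R (TrfD e) := by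
        rintro r x ⟨hx1, hx2⟩
        refine ⟨⟨?_, ?_⟩, ⟨?_, ?_⟩⟩
        · have h9 : x = f * x := (h6 x hx1 hx2).1.symm
          rw [h9, ← mul_assoc, ← mul_assoc, herf, zero_mul]
        · rw [mul_assoc, hx2, mul_zero]
        · rw [← mul_assoc, hx1, zero_mul]
        · rw [mul_assoc, h2 r, ← mul_assoc, ← mul_assoc, hx2, zero_mul, zero_mul]
      have hD0 : TrfD e ≠ ⊥ := by
        intro h9
        have h10 : f ∈ TrfD e := ⟨h4, h5⟩
        rw [h9] at h10
        exact hf ((AddSubgroup.mem_bot).1 h10)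
      have hle := h7.2.2 _ hD hD0
      refine h7.2.1 ?_
      rw [eq_bot_iff]
      intro x hx
      have h9 : e * x = 0 := (hle hx).1
      rw [((h8 x).1 hx).1] at h9
      exact (AddSubgroup.mem_bot).2 h9
    · intro x hx
      exact (h7.2.2 _ hI hI0 hx).2

theorem thm_Trf : St_Trf := by
  intro R _ _ F _ _ φ f H _ _ h2 h3 h4 h5 h6 h7 h8
  have he : φ 1 * φ 1 = φ 1 := by rw [← map_mul, one_mul]
  refine Trf_core (φ 1) f H he h2 ?_ h4 h5 h6 h7 h8
  rcases h3 with h3 | h3
  · rw [h3, mul_zero]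
  · exact h3.1

end Pool.Agent.CRN
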