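import Pool.Agent.CRN.St

/-!
Campaign CRN, module Twa (helper25): matrix units.
-/

set_option autoImplicit false

namespace Pool.Agent.CRN

open Pool.Agent.CRR

theorem Twa_units {R : Type} [NonUnitalRing R] [Finite R] (hB : St_Prb) (hT : Twn R) :
    ∃ e f u v : R, MU e f u v ∧ Prm R e := by
  obtain ⟨a, b, haa, haba, ha⟩ := hT
  obtain ⟨e0, he0⟩ : ∃ x, x = a * b := ⟨_, rfl⟩
  obtain ⟨f0, hf0⟩ : ∃ x, x = b * a := ⟨_, rfl⟩
  obtain ⟨f1, hf1⟩ : ∃ x, x = f0 - e0 * f0 := ⟨_, rfl⟩
  obtain ⟨v0, hv0⟩ : ∃ x, x = f1 * b * e0 := ⟨_, rfl⟩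
  have e0e0 : e0 * e0 = e0 := by
    rw [he0, ← mul_assoc, haba]
  have e0a : e0 * a = a := by rw [he0, haba]
  have ae0 : a * e0 = 0 := by rw [he0, ← mul_assoc, haa, zero_mul]
  have f0f0 : f0 * f0 = f0 := by
    rw [hf0, mul_assoc, ← mul_assoc a b a, haba]
  have f0e0 : f0 * e0 = 0 := by rw [hf0, mul_assoc, ae0, mul_zero]
  have af0 : a * f0 = a := by rw [hf0, ← mul_assoc, haba]
  have af1 : a * f1 = a := by
    rw [hf1, mul_sub, af0, ← mul_assoc, ae0, zero_mul, sub_zero]
  have e0f1 : e0 * f1 = 0 := by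
    rw [hf1, mul_sub, ← mul_assoc, e0e0, sub_self]
  have f1f0 : f1 * f0 = f1 := by
    rw [hf1, sub_mul, f0f0, mul_assoc, f0f0]
  have e0v0 : e0 * v0 = 0 := by
    rw [hv0, ← mul_assoc, ← mul_assoc, e0f1, zero_mul, zero_mul]
  have av0 : a * v0 = e0 := by
    rw [hv0, ← mul_assoc, ← mul_assoc, af1, ← he0, e0e0]
  have hne : e0 ≠ 0 := by
    rintro h
    rw [h, zero_mul] at e0a
    exact ha e0a.symm
  obtain ⟨e, he, e0e, ee0⟩ := hB R e0 e0e0 hne
  have ee : e * e = e := he.1
  have ae : a * e = 0 := by rw [← e0e, ← mul_assoc, ae0, zero_mul]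
  have ev0 : e * v0 = 0 := by rw [← ee0, mul_assoc, e0v0, mul_zero]
  have ea : e * (a * (v0 * e)) = e := by
    rw [← mul_assoc a, av0, e0e, ee]
  refine ⟨e, v0 * (e * a), e * a, v0 * e, ⟨ee, ?_, ?_, ?_, ?_, ?_, ?_, ?_, ?_, ?_, he.2.1⟩, he⟩
  · calc v0 * (e * a) * (v0 * (e * a)) = v0 * (e * (a * (v0 * e)) * a) := by
          simp only [mul_assoc]
      _ = v0 * (e * a) := by rw [ea]
  · rw [← mul_assoc, ev0, zero_mul]
  · rw [mul_assoc, mul_assoc, ae, mul_zero, mul_zero]
  · rw [← mul_assoc, ee]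
  · calc e * a * (v0 * (e * a)) = e * (a * (v0 * e)) * a := by simp only [mul_assoc]
      _ = e * a := by rw [ea]
  · calc v0 * (e * a) * (v0 * e) = v0 * (e * (a * (v0 * e))) := by simp only [mul_assoc]
      _ = v0 * e := by rw [ea]
  · rw [mul_assoc, ee]
  · calc e * a * (v0 * e) = e * (a * (v0 * e)) := by simp only [mul_assoc]
      _ = e := ea
  · calc v0 * e * (e * a) = v0 * (e * e * a) := by simp only [mul_assoc]
      _ = v0 * (e * a) := by rw [ee]

theorem Twa_nil {R : Type} [NonUnitalRing R] {n : ℕ} (hn : 4 ≤ n) (hR : InM n R) (hP : St_Pws)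
    {e f u v : R} (h : MU e f u v) {m : R} (hem : e * m = m) (hme : m * e = m)
    (hm : m * m * m = 0) : m = 0 := by
  have uu : u * u = 0 := by
    calc u * u = (u * f) * (e * u) := by rw [h.uf, h.eu]
      _ = u * (f * e) * u := by simp only [mul_assoc]
      _ = 0 := by rw [h.fe, mul_zero, zero_mul]
  have um : u * m = 0 := by
    calc u * m = (u * f) * (e * m) := by rw [h.uf, hem]
      _ = u * (f * e) * m := by simp only [mul_assoc]
      _ = 0 := by rw [h.fe, mul_zero, zero_mul]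
  have mv : m * v = 0 := by
    calc m * v = (m * e) * (f * v) := by rw [h.fv, hme]
      _ = m * (e * f) * v := by simp only [mul_assoc]
      _ = 0 := by rw [h.ef, mul_zero, zero_mul]
  obtain ⟨x, hx⟩ : ∃ x, x = u + v * m := ⟨_, rfl⟩
  have xx : x * x = m + v * m * u := by
    have e1 : u * (v * m) = m := by rw [← mul_assoc, h.uv, hem]
    have e2 : v * m * (v * m) = 0 := by
      calc v * m * (v * m) = v * (m * v) * m := by simp only [mul_assoc]
        _ = 0 := by rw [mv, mul_zero, zero_mul]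
    rw [hx, add_mul, mul_add, mul_add, uu, e1, e2, zero_add, add_zero]
  have e3 : m * (v * m * u) = 0 := by
    calc m * (v * m * u) = (m * v) * (m * u) := by simp only [mul_assoc]
      _ = 0 := by rw [mv, zero_mul]
  have e4 : v * m * u * m = 0 := by rw [mul_assoc, um, mul_zero]
  have e5 : v * m * u * (v * m * u) = v * (m * m) * u := by
    calc v * m * u * (v * m * u) = v * (m * (u * v)) * (m * u) := by simp only [mul_assoc]
      _ = v * (m * m) * u := by
        rw [h.uv, hme]
        simp only [mul_assoc]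
  have x4 : x * x * (x * x) = m * m + v * (m * m) * u := by
    rw [xx, add_mul, mul_add, mul_add, e3, e4, e5, add_zero, zero_add]
  have x6 : x * x * (x * x) * (x * x) = 0 := by
    have e6 : m * m * (v * m * u) = 0 := by rw [mul_assoc, e3, mul_zero]
    have e7 : v * (m * m) * u * m = 0 := by rw [mul_assoc, um, mul_zero]
    have e8 : v * (m * m) * u * (v * m * u) = 0 := by
      calc v * (m * m) * u * (v * m * u) = v * (m * (m * (u * v)) * m) * u := by
            simp only [mul_assoc]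
        _ = 0 := by rw [h.uv, hme, hm, mul_zero, zero_mul]
    rw [x4, xx, add_mul, mul_add, mul_add, hm, e6, e7, e8, add_zero, add_zero]
  have hpw : pw x 5 = 0 := by
    change x * x * x * x * x * x = 0
    rw [← x6]
    simp only [mul_assoc]
  have hxxx : x * x * x = 0 := (hP n hn R hR x).2.2.2.2.1 5 hpw
  have x3 : x * x * x = m * u + v * (m * m) := by
    have e9 : m * (v * m) = 0 := by rw [← mul_assoc, mv, zero_mul]
    have e10 : v * m * u * u = 0 := by rw [mul_assoc, uu, mul_zero]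
    have e11 : v * m * u * (v * m) = v * (m * m) := by
      calc v * m * u * (v * m) = v * (m * (u * v)) * m := by simp only [mul_assoc]
        _ = v * (m * m) := by
          rw [h.uv, hme]
          simp only [mul_assoc]
    rw [xx, hx, add_mul, mul_add, mul_add, e9, e10, e11, add_zero, zero_add]
  have h0 : (m * u + v * (m * m)) * v = 0 := by rw [← x3, hxxx, zero_mul]
  have e12 : (m * u + v * (m * m)) * v = m := by
    have e13 : m * u * v = m := by rw [mul_assoc, h.uv, hme]
    have e14 : v * (m * m) * v = 0 := by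
      calc v * (m * m) * v = v * m * (m * v) := by simp only [mul_assoc]
        _ = 0 := by rw [mv, mul_zero]
    rw [add_mul, e13, e14, add_zero]
  rw [← e12, h0]

theorem thm_Twa (hP : St_Pws) (hB : St_Prb) : St_Twa := by
  intro n hn R _ _ hR hT
  obtain ⟨e, f, u, v, hMU, hPrm⟩ := Twa_units hB hT
  refine ⟨e, f, u, v, hMU, hPrm.1, hPrm.2.1, ?_⟩
  intro x hex hxe hx
  obtain ⟨p1, -, -, p4, -, -, -, p8, p9, -, y, hxy, -, hy1, hy2⟩ := hP n hn R hR x
  have h1 := p8 e hex
  have h2 := p9 e hxe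
  rcases hPrm.2.2 (om n x) p1 h1 h2 with h3 | h3
  · exact absurd (Twa_nil hn hR hP hMU hex hxe (p4 h3)) hx
  · exact ⟨y, hy1 e hex, hy2 e hxe, by rw [hxy, h3]⟩

end Pool.Agent.CRN
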