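import Pool.Agent.CRN.St

/-!
Campaign CRN, module Twb: three matrix units give the ring of matrices of size three.
-/

set_option autoImplicit false

namespace Pool.Agent.CRN

open Pool.Agent.CRR

private theorem Twb_z {R : Type} [NonUnitalRing R] {x y p q : R} (h1 : x * p = x)
    (h2 : q * y = y) (h3 : p * q = 0) : x * y = 0 := by
  calc x * y = (x * p) * (q * y) := by rw [h1, h2]
    _ = x * ((p * q) * y) := by simp only [mul_assoc]
    _ = 0 := by rw [h3, zero_mul, mul_zero]

private theorem Twb_nil (hP : St_Pws) {n : ℕ} (hn : 4 ≤ n) {R : Type} [NonUnitalRing R]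
    (hR : InM n R) {x : R} (h : x * x * x * x = 0) : x * x * x = 0 :=
  (hP n hn R hR x).2.2.2.2.1 3 h

/-- elements of `E R (1 - E)` -/
private theorem Twb_left (hP : St_Pws) {n : ℕ} (hn : 4 ≤ n) {R : Type} [NonUnitalRing R]
    (hR : InM n R) {E a c : R} (haa : a * a = c) (hca : c * a = 0) (hEa : E * a = a) {m : R}
    (h1 : E * m = m) (h2 : m * E = 0) : c * m = 0 := by
  have ma : m * a = 0 := by
    calc m * a = m * (E * a) := by rw [hEa]
      _ = 0 := by rw [← mul_assoc, h2, zero_mul]
  have mm : m * m = 0 := by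
    calc m * m = m * (E * m) := by rw [h1]
      _ = 0 := by rw [← mul_assoc, h2, zero_mul]
  have xx : (a + m) * (a + m) = c + a * m := by
    rw [mul_add, add_mul, add_mul, haa, ma, mm, add_zero, add_zero]
  have xxx : (a + m) * (a + m) * (a + m) = c * m := by
    rw [xx, mul_add, add_mul, add_mul, hca, mul_assoc a m a, ma, mul_assoc a m m, mm, mul_zero,
      add_zero, add_zero, zero_add]
  have x4 : (a + m) * (a + m) * (a + m) * (a + m) = 0 := by
    rw [xxx, mul_add, mul_assoc, ma, mul_assoc, mm, mul_zero, add_zero]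
  have := Twb_nil hP hn hR x4
  rw [xxx] at this
  exact this

/-- elements of `(1 - E) R E` -/
private theorem Twb_right (hP : St_Pws) {n : ℕ} (hn : 4 ≤ n) {R : Type} [NonUnitalRing R]
    (hR : InM n R) {E a c : R} (haa : a * a = c) (hca : c * a = 0)
    (haE : a * E = a) (hcE : c * E = c) {m : R}
    (h1 : m * E = m) (h2 : E * m = 0) : m * c = 0 := by
  have am : a * m = 0 := by
    calc a * m = (a * E) * m := by rw [haE]
      _ = 0 := by rw [mul_assoc, h2, mul_zero]
  have cm : c * m = 0 := by
    calc c * m = (c * E) * m := by rw [hcE]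
      _ = 0 := by rw [mul_assoc, h2, mul_zero]
  have mm : m * m = 0 := by
    calc m * m = (m * E) * m := by rw [h1]
      _ = 0 := by rw [mul_assoc, h2, mul_zero]
  have xx : (a + m) * (a + m) = c + m * a := by
    rw [mul_add, add_mul, add_mul, haa, am, mm, add_zero, add_zero]
  have xxx : (a + m) * (a + m) * (a + m) = m * c := by
    rw [xx, mul_add, add_mul, add_mul, hca, cm, mul_assoc m a a, haa, mul_assoc m a m, am,
      mul_zero, add_zero, add_zero, zero_add]
  have x4 : (a + m) * (a + m) * (a + m) * (a + m) = 0 := by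
    rw [xxx, mul_add, mul_assoc, hca, mul_assoc, cm, mul_zero, add_zero]
  have := Twb_nil hP hn hR x4
  rw [xxx] at this
  exact this

theorem thm_Twb (hP : St_Pws) (hMat : St_Mat) : St_Twb := by
  intro n hn R _ _ hR hH e f u v g u' v' h hF h3
  obtain ⟨H, hH⟩ := hH
  -- products which are zero
  have uu : u * u = 0 := Twb_z h.uf h.eu h.fe
  have ue : u * e = 0 := Twb_z h.uf h.ee h.fe
  have fu : f * u = 0 := Twb_z h.ff h.eu h.fe
  have gu : g * u = 0 := Twb_z h3.gg h.eu h3.ge
  have ug : u * g = 0 := Twb_z h.uf h3.gg h3.fg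
  have ev : e * v = 0 := Twb_z h.ee h.fv h.ef
  have gv : g * v = 0 := Twb_z h3.gg h.fv h3.gf
  have vf : v * f = 0 := Twb_z h.ve h.ff h.ef
  have vg : v * g = 0 := Twb_z h.ve h3.gg h3.eg
  have fu' : f * u' = 0 := Twb_z h.ff h3.eu h.fe
  have gu' : g * u' = 0 := Twb_z h3.gg h3.eu h3.ge
  have u'e : u' * e = 0 := Twb_z h3.ug h.ee h3.ge
  have u'f : u' * f = 0 := Twb_z h3.ug h.ff h3.gf
  have ev' : e * v' = 0 := Twb_z h.ee h3.gv h3.eg
  have fv' : f * v' = 0 := Twb_z h.ff h3.gv h3.fg
  have v'f : v' * f = 0 := Twb_z h3.ve h.ff h.ef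
  have v'g : v' * g = 0 := Twb_z h3.ve h3.gg h3.eg
  have u'u : u' * u = 0 := Twb_z h3.ug h.eu h3.ge
  have u'v : u' * v = 0 := Twb_z h3.ug h.fv h3.gf
  have uv' : u * v' = 0 := Twb_z h.uf h3.gv h3.fg
  -- the identity
  set E : R := e + f + g with hE
  have Ee : E * e = e := by rw [hE, add_mul, add_mul, h.ee, h.fe, h3.ge, add_zero, add_zero]
  have Ef : E * f = f := by rw [hE, add_mul, add_mul, h.ef, h.ff, h3.gf, zero_add, add_zero]
  have Eg : E * g = g := by rw [hE, add_mul, add_mul, h3.eg, h3.fg, h3.gg, zero_add, zero_add]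
  have EE : E * E = E := by
    conv_lhs => rw [hE, mul_add, mul_add]
    rw [← hE, Ee, Ef, Eg]
  have Eu : E * u = u := by rw [hE, add_mul, add_mul, h.eu, fu, gu, add_zero, add_zero]
  have Ev : E * v = v := by rw [hE, add_mul, add_mul, ev, h.fv, gv, zero_add, add_zero]
  have Ev' : E * v' = v' := by rw [hE, add_mul, add_mul, ev', fv', h3.gv, zero_add, zero_add]
  have uE : u * E = u := by rw [hE, mul_add, mul_add, ue, h.uf, ug, zero_add, add_zero]
  have vE : v * E = v := by rw [hE, mul_add, mul_add, h.ve, vf, vg, add_zero, add_zero]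
  have u'E : u' * E = u' := by rw [hE, mul_add, mul_add, u'e, u'f, h3.ug, zero_add, zero_add]
  have v'E : v' * E = v' := by rw [hE, mul_add, mul_add, h3.ve, v'f, v'g, add_zero, add_zero]
  -- the element a
  set a : R := u + v * u' with ha
  have haa : a * a = u' := by
    rw [ha, mul_add, add_mul, add_mul, uu, mul_assoc v u' u, u'u, mul_zero, add_zero,
      ← mul_assoc u v u', h.uv, h3.eu, mul_assoc v u' (v * u'), ← mul_assoc u' v u', u'v,
      zero_mul, mul_zero, add_zero, zero_add]
  have hca : u' * a = 0 := by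
    rw [ha, mul_add, u'u, ← mul_assoc, u'v, zero_mul, add_zero]
  have hEa : E * a = a := by
    rw [ha, mul_add, Eu, ← mul_assoc, Ev]
  have haE : a * E = a := by
    rw [ha, add_mul, uE, mul_assoc, u'E]
  -- E R (1 - E) = 0
  have hL : ∀ m : R, E * m = m → m * E = 0 → m = 0 := by
    intro m h1 h2
    have key : ∀ m : R, E * m = m → m * E = 0 → u' * m = 0 := fun m h1 h2 =>
      Twb_left hP hn hR haa hca hEa h1 h2
    have k1 := key m h1 h2
    have k2 := key (v' * m) (by rw [← mul_assoc, Ev']) (by rw [mul_assoc, h2, mul_zero])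
    have k3 := key (v' * (u * m)) (by rw [← mul_assoc, Ev'])
      (by rw [mul_assoc, mul_assoc, h2, mul_zero, mul_zero])
    have em : e * m = 0 := by rw [← h3.uv, mul_assoc]; exact k2
    have gm : g * m = 0 := by rw [← h3.vu, mul_assoc, k1, mul_zero]
    have um : u * m = 0 := by
      rw [← mul_assoc, h3.uv, ← mul_assoc, h.eu] at k3
      exact k3
    have fm : f * m = 0 := by rw [← h.vu, mul_assoc, um, mul_zero]
    rw [← h1, hE, add_mul, add_mul, em, fm, gm, add_zero, add_zero]
  -- (1 - E) R E = 0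
  have hRt : ∀ m : R, m * E = m → E * m = 0 → m = 0 := by
    intro m h1 h2
    have key : ∀ m : R, m * E = m → E * m = 0 → m * u' = 0 := fun m h1 h2 =>
      Twb_right hP hn hR haa hca haE u'E h1 h2
    have k1 := key m h1 h2
    have k2 := key (m * v') (by rw [mul_assoc, v'E]) (by rw [← mul_assoc, h2, zero_mul])
    have k3 := key (m * v) (by rw [mul_assoc, vE]) (by rw [← mul_assoc, h2, zero_mul])
    have me : m * e = 0 := by rw [← h3.uv, ← mul_assoc, k1, zero_mul]
    have mg : m * g = 0 := by rw [← h3.vu, ← mul_assoc]; exact k2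
    have mf : m * f = 0 := by
      calc m * f = m * (v * (u' * v') * u) := by
            rw [h3.uv, h.ve, h.vu]
        _ = (m * v * u') * (v' * u) := by simp only [mul_assoc]
        _ = 0 := by rw [k3, zero_mul]
    rw [← h1, hE, mul_add, mul_add, me, mf, mg, add_zero, add_zero]
  -- E is central
  have hc1 : ∀ x : R, E * x = E * x * E := by
    intro x
    refine sub_eq_zero.1 (hL _ ?_ ?_)
    · rw [mul_sub, ← mul_assoc, EE, ← mul_assoc, ← mul_assoc, EE]
    · rw [sub_mul, mul_assoc (E * x) E E, EE, sub_self]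
  have hc2 : ∀ x : R, x * E = E * x * E := by
    intro x
    refine sub_eq_zero.1 (hRt _ ?_ ?_)
    · rw [sub_mul, mul_assoc x, EE, mul_assoc (E * x), EE]
    · rw [mul_sub, ← mul_assoc, ← mul_assoc, ← mul_assoc, EE, sub_self]
  have hcen : ∀ x : R, E * x = x * E := fun x => (hc1 x).trans (hc2 x).symm
  -- the two ideals
  let I1 : AddSubgroup R :=
    { carrier := {x | E * x = x}
      add_mem' := fun {a b} ha hb => by
        show E * (a + b) = a + b
        rw [mul_add, show E * a = a from ha, show E * b = b from hb]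
      zero_mem' := mul_zero E
      neg_mem' := fun {a} ha => by
        show E * (-a) = -a
        rw [mul_neg, show E * a = a from ha] }
  let I2 : AddSubgroup R :=
    { carrier := {x | E * x = 0}
      add_mem' := fun {a b} ha hb => by
        show E * (a + b) = 0
        rw [mul_add, show E * a = 0 from ha, show E * b = 0 from hb, add_zero]
      zero_mem' := mul_zero E
      neg_mem' := fun {a} ha => by
        show E * (-a) = 0
        rw [mul_neg, show E * a = 0 from ha, neg_zero] }
  have hI1 : Idl R I1 := by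
    intro r x hx
    have hx' : E * x = x := hx
    constructor
    · show E * (r * x) = r * x
      rw [← mul_assoc, hcen r, mul_assoc, hx']
    · show E * (x * r) = x * r
      rw [← mul_assoc, hx']
  have hI2 : Idl R I2 := by
    intro r x hx
    have hx' : E * x = 0 := hx
    constructor
    · show E * (r * x) = 0
      rw [← mul_assoc, hcen r, mul_assoc, hx', mul_zero]
    · show E * (x * r) = 0
      rw [← mul_assoc, hx', zero_mul]
  have hI1' : I1 ≠ ⊥ := by
    intro h0
    have h1 : e ∈ I1 := Ee
    rw [h0, AddSubgroup.mem_bot] at h1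
    exact h.ne h1
  have hI2' : I2 = ⊥ := by
    by_contra h0
    apply hH.2.1
    rw [eq_bot_iff]
    intro x hx
    have h1 : E * x = x := hH.2.2 I1 hI1 hI1' hx
    have h2 : E * x = 0 := hH.2.2 I2 hI2 h0 hx
    rw [AddSubgroup.mem_bot, ← h1, h2]
  have hid : ∀ x : R, E * x = x := by
    intro x
    have h1 : x - E * x ∈ I2 := by
      show E * (x - E * x) = 0
      rw [mul_sub, ← mul_assoc, EE, sub_self]
    rw [hI2', AddSubgroup.mem_bot] at h1
    exact (sub_eq_zero.1 h1).symm
  -- matrix units
  let P : Fin 3 → R := ![e, v, v']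
  let Q : Fin 3 → R := ![e, u, u']
  have hPe : ∀ i, P i * e = P i := by
    intro i
    fin_cases i
    · exact h.ee
    · exact h.ve
    · exact h3.ve
  have hQP : ∀ j l, Q j * P l = if j = l then e else 0 := by
    intro j l
    fin_cases j <;> fin_cases l
    · exact h.ee
    · exact ev
    · exact ev'
    · exact ue
    · exact h.uv
    · exact uv'
    · exact u'e
    · exact u'v
    · exact h3.uv
  have h00 : P 0 * Q 0 = e := h.ee
  obtain ⟨F, iF, iFf, φ, hφ1, hφ2, hφ3⟩ := hMat R 3 (fun i j => P i * Q j) 0 (by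
    intro i j l m
    show P i * Q j * (P l * Q m) = if j = l then P i * Q m else 0
    have e1 : P i * Q j * (P l * Q m) = P i * (Q j * P l) * Q m := by simp only [mul_assoc]
    rw [e1, hQP]
    split_ifs with hjl
    · rw [hPe]
    · rw [mul_zero, zero_mul]) (by
    show Fld R (P 0 * Q 0)
    rw [h00]
    exact hF)
  have hφE : φ 1 = E := by
    rw [hφ2, Fin.sum_univ_three]
    show e * e + v * u + v' * u' = E
    rw [h.ee, h.vu, h3.vu]
  have hsur : Function.Surjective φ := by
    intro x
    exact hφ3 x (by rw [hφE]; exact hid x) (by rw [hφE, ← hcen]; exact hid x)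
  exact ⟨F, iF, iFf, ⟨(RingEquiv.ofBijective φ ⟨hφ1, hsur⟩).symm⟩⟩

end Pool.Agent.CRN
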