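import Pool.Agent.CRN.St

/-!
Campaign CRN, module Twc: relations of the components if there is no third idempotent.
-/

set_option autoImplicit false
set_option linter.unusedSimpArgs false
set_option linter.unusedVariables false

namespace Pool.Agent.CRN

open Pool.Agent.CRR

theorem Twc_z {R : Type} [NonUnitalRing R] {a b : R} (h : a * b = 0) (c : R) :
    a * (b * c) = 0 := by
  rw [← mul_assoc, h, zero_mul]

theorem Twc_q {R : Type} [NonUnitalRing R] {a b d : R} (h : a * b = d) (c : R) :
    a * (b * c) = d * c := by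
  rw [← mul_assoc, h]

theorem Twc_c3 (hP : St_Pws) {n : ℕ} (h4 : 4 ≤ n) {R : Type} [NonUnitalRing R] (hM : InM n R)
    (x y : R) (h3 : x * x * x = y) (h : y * x = 0) : y = 0 := by
  have h1 : pw x 3 = 0 := by
    show x * x * x * x = 0
    rw [h3, h]
  have h2 := (hP n h4 R hM x).2.2.2.2.1 3 h1
  rw [← h3, h2]

theorem Twc_mb (hP : St_Pws) {n : ℕ} (h4 : 4 ≤ n) {R : Type} [NonUnitalRing R] (hM : InM n R)
    (w m b : R) (hww : w * w = 0) (hwb : w * b = 0) (hmw : m * w = 0) (hmm : m * m = 0)
    (hbw : b * w = 0) (hbm : b * m = 0) (hb : b * b * b = 0) : w * (m * b) = 0 := by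
  have hb' : b * (b * b) = 0 := by rw [← mul_assoc, hb]
  have s1 : m * (b * b) = 0 := by
    refine Twc_c3 hP h4 hM (m + b) _ ?_ ?_
    · simp only [add_mul, mul_add, mul_assoc, hmm, Twc_z hmm, hbm, Twc_z hbm, hb', mul_zero,
        zero_add, add_zero]
    · simp only [add_mul, mul_add, mul_assoc, hbm, hb', mul_zero, zero_add, add_zero]
  refine Twc_c3 hP h4 hM (w + m + b) _ ?_ ?_
  · simp only [add_mul, mul_add, mul_assoc, hmm, Twc_z hmm, hbm, Twc_z hbm, hb', hww, Twc_z hww,
      hwb, Twc_z hwb, hmw, Twc_z hmw, hbw, Twc_z hbw, s1, mul_zero, zero_add, add_zero]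
  · simp only [mul_add, mul_assoc, hbm, hbw, s1, mul_zero, zero_add, add_zero]

theorem Twc_bl (hP : St_Pws) {n : ℕ} (h4 : 4 ≤ n) {R : Type} [NonUnitalRing R] (hM : InM n R)
    (w l b : R) (hww : w * w = 0) (hbw : b * w = 0) (hwl : w * l = 0) (hll : l * l = 0)
    (hwb : w * b = 0) (hlb : l * b = 0) (hb : b * b * b = 0) : b * (l * w) = 0 := by
  have hb' : b * (b * b) = 0 := by rw [← mul_assoc, hb]
  have hbl : b * (b * (b * l)) = 0 := by
    rw [← mul_assoc, ← mul_assoc, hb, zero_mul]
  have s1 : b * (b * l) = 0 := by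
    refine Twc_c3 hP h4 hM (l + b) _ ?_ ?_
    · simp only [add_mul, mul_add, mul_assoc, hll, Twc_z hll, hlb, Twc_z hlb, hb', mul_zero,
        zero_add, add_zero]
    · simp only [mul_add, mul_assoc, hll, hlb, mul_zero, zero_add, add_zero]
  have s2 : b * (b * (l * w)) = 0 := by
    have := congrArg (· * w) s1
    simpa only [mul_assoc, zero_mul] using this
  refine Twc_c3 hP h4 hM (w + l + b) _ ?_ ?_
  · simp only [add_mul, mul_add, mul_assoc, hll, Twc_z hll, hlb, Twc_z hlb, hb', hww, Twc_z hww,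
      hwb, Twc_z hwb, hwl, Twc_z hwl, hbw, Twc_z hbw, s1, s2, mul_zero, zero_add, add_zero]
  · simp only [mul_add, mul_assoc, hww, hwl, hwb, mul_zero, zero_add, add_zero]

theorem Twc_lm (hP : St_Pws) {n : ℕ} (h4 : 4 ≤ n) {R : Type} [NonUnitalRing R] (hM : InM n R)
    (w m l : R) (hww : w * w = 0) (hwl : w * l = 0) (hmw : m * w = 0) (hmm : m * m = 0)
    (hll : l * l = 0) (hml : m * l = 0) : l * (w * m) = 0 := by
  refine Twc_c3 hP h4 hM (w + m + l) _ ?_ ?_
  · simp only [add_mul, mul_add, mul_assoc, hll, Twc_z hll, hmm, Twc_z hmm, hml, Twc_z hml, hww,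
      Twc_z hww, hwl, Twc_z hwl, hmw, Twc_z hmw, mul_zero, zero_add, add_zero]
  · simp only [mul_add, mul_assoc, hmw, hmm, hml, mul_zero, zero_add, add_zero]

/-- no third idempotent: the products `e m l e` are zero -/
theorem Twc_a {R : Type} [NonUnitalRing R] {e f u v : R} (h : MU e f u v) (hF : Fld R e)
    (hN : ∀ g u' v', ¬ M3 e f g u' v') (x y : R) (ex : e * x = x) (xe : x * e = 0)
    (xf : x * f = 0) (ye : y * e = y) (ey : e * y = 0) (fy : f * y = 0) : x * y = 0 := by
  by_contra hxy
  obtain ⟨w, w1, w2, w3⟩ := hF.2.2 (x * y) (by rw [← mul_assoc, ex]) (by rw [mul_assoc, ye]) hxy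
  have w3' : x * (y * w) = e := by rw [← mul_assoc, w3]
  apply hN (y * (w * x)) x (y * w)
  refine ⟨?_, ?_, ?_, ?_, ?_, ex, ?_, ?_, ?_, w3', ?_⟩
  · rw [show y * (w * x) * (y * (w * x)) = y * (w * ((x * (y * w)) * x)) by
      simp only [mul_assoc], w3', ex]
  · exact Twc_z ey _
  · simp only [mul_assoc, xe, mul_zero]
  · exact Twc_z fy _
  · simp only [mul_assoc, xf, mul_zero]
  · rw [show x * (y * (w * x)) = (x * (y * w)) * x by simp only [mul_assoc], w3', ex]
  · rw [show y * (w * x) * (y * w) = y * (w * (x * (y * w))) by simp only [mul_assoc], w3', w2]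
  · rw [mul_assoc, w2]
  · rw [mul_assoc]

theorem thm_Twc (hP : St_Pws) : St_Twc := by
  intro n h4 R _ _ hM e f u v h hF hN m l b m1 m2 l1 l2 b1 b2 b3
  -- elementary relations
  have em : e * m + f * m = m := by rw [← add_mul, m1]
  have le : l * e + l * f = l := by rw [← mul_add, l2]
  have split : ∀ x : R, x * (e + f) = 0 → x * e = 0 ∧ x * f = 0 := by
    intro x hx
    constructor
    · have := congrArg (· * e) hx
      simpa only [mul_add, add_mul, mul_assoc, h.ee, h.fe, mul_zero, add_zero, zero_mul] using this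
    · have := congrArg (· * f) hx
      simpa only [mul_add, add_mul, mul_assoc, h.ef, h.ff, mul_zero, zero_add, zero_mul] using this
  have split' : ∀ x : R, (e + f) * x = 0 → e * x = 0 ∧ f * x = 0 := by
    intro x hx
    constructor
    · have := congrArg (e * ·) hx
      simpa only [mul_add, add_mul, ← mul_assoc, h.ee, h.ef, zero_mul, add_zero, mul_zero]
        using this
    · have := congrArg (f * ·) hx
      simpa only [mul_add, add_mul, ← mul_assoc, h.fe, h.ff, zero_mul, zero_add, mul_zero]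
        using this
  have uu : u * u = 0 := by rw [← h.uf, mul_assoc, h.uf, ← h.eu, ← mul_assoc f, h.fe, zero_mul,
    mul_zero]
  have vv : v * v = 0 := by rw [← h.ve, mul_assoc, h.ve, ← h.fv, ← mul_assoc e, h.ef, zero_mul,
    mul_zero]
  obtain ⟨me, mf⟩ := split m m2
  obtain ⟨be, bf⟩ := split b b2
  obtain ⟨el, fl⟩ := split' l l1
  obtain ⟨eb, fb⟩ := split' b b1
  have mu : m * u = 0 := by rw [← h.eu, ← mul_assoc, me, zero_mul]
  have mv : m * v = 0 := by rw [← h.fv, ← mul_assoc, mf, zero_mul]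
  have bu : b * u = 0 := by rw [← h.eu, ← mul_assoc, be, zero_mul]
  have bv : b * v = 0 := by rw [← h.fv, ← mul_assoc, bf, zero_mul]
  have ul : u * l = 0 := by rw [← h.uf, mul_assoc, fl, mul_zero]
  have vl : v * l = 0 := by rw [← h.ve, mul_assoc, el, mul_zero]
  have ub : u * b = 0 := by rw [← h.uf, mul_assoc, fb, mul_zero]
  have vb : v * b = 0 := by rw [← h.ve, mul_assoc, eb, mul_zero]
  have mm : m * m = 0 := by
    have := congrArg (m * ·) m1
    rw [← this, ← mul_assoc, m2, zero_mul]
  have ll : l * l = 0 := by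
    have := congrArg (· * l) l2
    rw [← this, mul_assoc, l1, mul_zero]
  have bm : b * m = 0 := by rw [← m1, ← mul_assoc, b2, zero_mul]
  have lb : l * b = 0 := by rw [← l2, mul_assoc, b1, mul_zero]
  -- (a)
  have a0 : ∀ x y : R, x * e = 0 → x * f = 0 → e * y = 0 → f * y = 0 →
      e * (x * (y * e)) = 0 := by
    intro x y h1 h2 h3 h4
    have := Twc_a h hF hN (e * x) (y * e) (by rw [← mul_assoc, h.ee])
      (by rw [mul_assoc, h1, mul_zero]) (by rw [mul_assoc, h2, mul_zero])
      (by rw [mul_assoc, h.ee]) (by rw [← mul_assoc, h3, zero_mul])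
      (by rw [← mul_assoc, h4, zero_mul])
    rwa [mul_assoc] at this
  have ume : u * m * e = 0 := by rw [mul_assoc, me, mul_zero]
  have umf : u * m * f = 0 := by rw [mul_assoc, mf, mul_zero]
  have elv : e * (l * v) = 0 := Twc_z el v
  have flv : f * (l * v) = 0 := Twc_z fl v
  have ml : m * l = 0 := by
    have t1 := a0 m l me mf el fl
    have t2 := a0 (u * m) l ume umf el fl
    have t3 := a0 m (l * v) me mf elv flv
    have t4 := a0 (u * m) (l * v) ume umf elv flv
    have r2 : f * (m * (l * e)) = 0 := by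
      have := congrArg (v * ·) t2
      simp only [mul_assoc, Twc_q h.eu, Twc_q h.vu, mul_zero] at this
      exact this
    have r3 : e * (m * (l * f)) = 0 := by
      have := congrArg (· * u) t3
      simp only [mul_assoc, h.ve, Twc_q h.ve, h.vu, zero_mul] at this
      exact this
    have r4 : f * (m * (l * f)) = 0 := by
      have := congrArg (fun z => v * (z * u)) t4
      simp only [mul_assoc, Twc_q h.eu, Twc_q h.vu, Twc_q h.ve, h.vu, zero_mul, mul_zero] at this
      exact this
    rw [← em, ← le]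
    simp only [mul_add, add_mul, mul_assoc, t1, r2, r3, r4, add_zero]
  -- (b)
  have mb : m * b = 0 := by
    have t1 := Twc_mb hP h4 hM u m b uu ub mu mm bu bm b3
    have t2 := Twc_mb hP h4 hM v m b vv vb mv mm bv bm b3
    have r1 : f * (m * b) = 0 := by
      rw [← h.vu, mul_assoc, t1, mul_zero]
    have r2 : e * (m * b) = 0 := by
      rw [← h.uv, mul_assoc, t2, mul_zero]
    rw [← em, add_mul, mul_assoc, mul_assoc, r1, r2, add_zero]
  have bl : b * l = 0 := by
    have t1 := Twc_bl hP h4 hM u l b uu bu ul ll ub lb b3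
    have t2 := Twc_bl hP h4 hM v l b vv bv vl ll vb lb b3
    have r1 : b * (l * e) = 0 := by
      rw [← h.uv, ← mul_assoc l, ← mul_assoc b, t1, zero_mul]
    have r2 : b * (l * f) = 0 := by
      rw [← h.vu, ← mul_assoc l, ← mul_assoc b, t2, zero_mul]
    rw [← le, mul_add, r1, r2, add_zero]
  -- (c)
  have lm : l * m = 0 := by
    have t1 := Twc_lm hP h4 hM u (v * m) l uu ul (by rw [mul_assoc, mu, mul_zero])
      (by rw [mul_assoc, ← mul_assoc m, mv, zero_mul, mul_zero]) ll (by rw [mul_assoc, ml, mul_zero])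
    have t2 := Twc_lm hP h4 hM v (u * m) l vv vl (by rw [mul_assoc, mv, mul_zero])
      (by rw [mul_assoc, ← mul_assoc m, mu, zero_mul, mul_zero]) ll (by rw [mul_assoc, ml, mul_zero])
    have r1 : l * (e * m) = 0 := by rw [← h.uv, mul_assoc, t1]
    have r2 : l * (f * m) = 0 := by rw [← h.vu, mul_assoc, t2]
    rw [← em, mul_add, r1, r2, add_zero]
  exact ⟨ml, lm, mb, bl⟩

end Pool.Agent.CRN
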