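import Pool.Agent.CRN.St

/-!
Module Twe of `St.lean`: the lower corner `D` of a ring with matrix units of size 2.
-/

set_option autoImplicit false

namespace Pool.Agent.CRN

open Pool.Agent.CRR

section Twe

variable {R : Type} [NonUnitalRing R]

/-- Elements of `M`. -/
def TweM (E : R) : AddSubgroup R where
  carrier := {m | E * m = m ∧ m * E = 0}
  zero_mem' := ⟨by simp, by simp⟩
  add_mem' := fun {a b} ha hb => ⟨by rw [mul_add, ha.1, hb.1], by rw [add_mul, ha.2, hb.2, add_zero]⟩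
  neg_mem' := fun {a} ha => ⟨by rw [mul_neg, ha.1], by rw [neg_mul, ha.2, neg_zero]⟩

/-- Elements of `M` with `m h = m`. -/
def TweM1 (E h : R) : AddSubgroup R where
  carrier := {m | (E * m = m ∧ m * E = 0) ∧ m * h = m}
  zero_mem' := ⟨⟨by simp, by simp⟩, by simp⟩
  add_mem' := fun {a b} ha hb => ⟨⟨by rw [mul_add, ha.1.1, hb.1.1],
    by rw [add_mul, ha.1.2, hb.1.2, add_zero]⟩, by rw [add_mul, ha.2, hb.2]⟩
  neg_mem' := fun {a} ha => ⟨⟨by rw [mul_neg, ha.1.1], by rw [neg_mul, ha.1.2, neg_zero]⟩,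
    by rw [neg_mul, ha.2]⟩

/-- Elements of `M` with `m h = 0`. -/
def TweM0 (E h : R) : AddSubgroup R where
  carrier := {m | (E * m = m ∧ m * E = 0) ∧ m * h = 0}
  zero_mem' := ⟨⟨by simp, by simp⟩, by simp⟩
  add_mem' := fun {a b} ha hb => ⟨⟨by rw [mul_add, ha.1.1, hb.1.1],
    by rw [add_mul, ha.1.2, hb.1.2, add_zero]⟩, by rw [add_mul, ha.2, hb.2, add_zero]⟩
  neg_mem' := fun {a} ha => ⟨⟨by rw [mul_neg, ha.1.1], by rw [neg_mul, ha.1.2, neg_zero]⟩,
    by rw [neg_mul, ha.2, neg_zero]⟩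

/-- The annihilator of `M` in `D`. -/
def TweK (E : R) : AddSubgroup R where
  carrier := {d | (E * d = 0 ∧ d * E = 0) ∧ ∀ m, E * m = m → m * E = 0 → m * d = 0}
  zero_mem' := ⟨⟨by simp, by simp⟩, fun m _ _ => by simp⟩
  add_mem' := fun {a b} ha hb => ⟨⟨by rw [mul_add, ha.1.1, hb.1.1, add_zero],
    by rw [add_mul, ha.1.2, hb.1.2, add_zero]⟩,
    fun m h1 h2 => by rw [mul_add, ha.2 m h1 h2, hb.2 m h1 h2, add_zero]⟩
  neg_mem' := fun {a} ha => ⟨⟨by rw [mul_neg, ha.1.1, neg_zero], by rw [neg_mul, ha.1.2, neg_zero]⟩,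
    fun m h1 h2 => by rw [mul_neg, ha.2 m h1 h2, neg_zero]⟩

theorem Twe_rE {E : R} (hE : E * E = E) (hL : ∀ l, E * l = 0 → l * E = l → l = 0) (r : R) :
    r * E = E * r * E := by
  have h := hL (r * E - E * r * E) (by
    rw [mul_sub, ← mul_assoc, ← mul_assoc, ← mul_assoc, hE, sub_self]) (by
    rw [sub_mul, mul_assoc, mul_assoc (E * r), hE])
  exact sub_eq_zero.1 h

theorem Twe_lM {E : R} (hE : E * E = E) (hL : ∀ l, E * l = 0 → l * E = l → l = 0) {m : R}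
    (h1 : E * m = m) (h2 : m * E = 0) (r : R) : E * (r * m) = r * m ∧ r * m * E = 0 := by
  constructor
  · have h3 : r * m = E * r * E * m := by
      rw [← Twe_rE hE hL r, mul_assoc, h1]
    have h4 : E * (E * r * E * m) = E * r * E * m := by
      rw [← mul_assoc, ← mul_assoc, ← mul_assoc, hE]
    rw [h3, h4]
  · rw [mul_assoc, h2, mul_zero]

theorem Twe_rM {E : R} (hE : E * E = E) (hL : ∀ l, E * l = 0 → l * E = l → l = 0) {m : R}
    (h1 : E * m = m) (h2 : m * E = 0) (r : R) : E * (m * r) = m * r ∧ m * r * E = 0 := by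
  constructor
  · rw [← mul_assoc, h1]
  · rw [mul_assoc, Twe_rE hE hL r, mul_assoc E, ← mul_assoc, h2, zero_mul]

theorem Twe_idM {E : R} (hE : E * E = E) (hL : ∀ l, E * l = 0 → l * E = l → l = 0) :
    Idl R (TweM E) := by
  intro r x hx
  exact ⟨Twe_lM hE hL hx.1 hx.2 r, Twe_rM hE hL hx.1 hx.2 r⟩

/-- The component in `D`. -/
theorem Twe_d {E : R} (hE : E * E = E) (hL : ∀ l, E * l = 0 → l * E = l → l = 0) (r : R) :
    E * (r - E * r) = 0 ∧ (r - E * r) * E = 0 := by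
  constructor
  · rw [mul_sub, ← mul_assoc, hE, sub_self]
  · rw [sub_mul, ← Twe_rE hE hL r, sub_self]

theorem Twe_mr {E : R} {m : R} (h2 : m * E = 0) (r : R) : m * r = m * (r - E * r) := by
  rw [mul_sub, ← mul_assoc m E, h2, zero_mul, sub_zero]

theorem Twe_idK {E : R} (hE : E * E = E) (hL : ∀ l, E * l = 0 → l * E = l → l = 0) :
    Idl R (TweK E) := by
  intro r d hd
  obtain ⟨⟨h1, h2⟩, h3⟩ := hd
  refine ⟨⟨⟨?_, ?_⟩, ?_⟩, ⟨⟨?_, ?_⟩, ?_⟩⟩
  · have h4 := h3 (E * r - E * r * E) (by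
      rw [mul_sub, ← mul_assoc, ← mul_assoc, ← mul_assoc, hE]) (by
      rw [sub_mul, mul_assoc (E * r) E E, hE, sub_self])
    rw [sub_mul, mul_assoc (E * r) E d, h1, mul_zero, sub_zero] at h4
    rw [← mul_assoc]
    exact h4
  · rw [mul_assoc, h2, mul_zero]
  · intro m hm1 hm2
    rw [← mul_assoc]
    exact h3 _ (Twe_rM hE hL hm1 hm2 r).1 (Twe_rM hE hL hm1 hm2 r).2
  · rw [← mul_assoc, h1, zero_mul]
  · rw [mul_assoc, Twe_rE hE hL r, mul_assoc E, ← mul_assoc, h2, zero_mul]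
  · intro m hm1 hm2
    rw [← mul_assoc, h3 m hm1 hm2, zero_mul]

/-- Two ideals with intersection `0`: if one is not `0`, the other is. -/
theorem Twe_lst {H : AddSubgroup R} (hH : Lst R H) {I I' : AddSubgroup R} (hI : Idl R I)
    (hI' : Idl R I') (hn : I ≠ ⊥) (h0 : ∀ x, x ∈ I → x ∈ I' → x = 0) : I' = ⊥ := by
  by_contra h
  apply hH.2.1
  rw [eq_bot_iff]
  intro x hx
  exact h0 x (hH.2.2 I hI hn hx) (hH.2.2 I' hI' h hx)

theorem Twe_K0 {E : R} (hE : E * E = E) (hL : ∀ l, E * l = 0 → l * E = l → l = 0)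
    {H : AddSubgroup R} (hH : Lst R H) (hM : ∃ m, E * m = m ∧ m * E = 0 ∧ m ≠ 0) {d : R}
    (h1 : E * d = 0) (h2 : d * E = 0) (h3 : ∀ m, E * m = m → m * E = 0 → m * d = 0) : d = 0 := by
  have h := Twe_lst hH (Twe_idM hE hL) (Twe_idK hE hL) (by
    intro h0
    obtain ⟨m, hm1, hm2, hm3⟩ := hM
    apply hm3
    have : m ∈ TweM E := ⟨hm1, hm2⟩
    rw [h0] at this
    exact this) (by
    intro x hx hx'
    rw [← hx.1]
    exact hx'.1.1)
  have hd : d ∈ TweK E := ⟨⟨h1, h2⟩, h3⟩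
  rw [h] at hd
  exact hd

/-- A nonzero idempotent of `D` is the identity of `D` and of `M`. -/
theorem Twe_h {E : R} (hE : E * E = E) (hL : ∀ l, E * l = 0 → l * E = l → l = 0)
    {H : AddSubgroup R} (hH : Lst R H) (hM : ∃ m, E * m = m ∧ m * E = 0 ∧ m ≠ 0)
    (hN : ∀ b, E * b = 0 → b * E = 0 → b * b * b = 0 → b = 0) {h : R} (hh : h * h = h)
    (h0 : h ≠ 0) (h1 : E * h = 0) (h2 : h * E = 0) :
    (∀ x, E * x = 0 → x * E = 0 → h * x = x ∧ x * h = x) ∧
    (∀ m, E * m = m → m * E = 0 → m * h = m) := by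
  have hc : ∀ d, E * d = 0 → d * E = 0 → h * d = d * h := by
    intro d hd1 hd2
    have e1 : h * d - h * d * h = 0 := by
      apply hN
      · rw [mul_sub, ← mul_assoc, ← mul_assoc, ← mul_assoc, h1, zero_mul, zero_mul, sub_self]
      · rw [sub_mul, mul_assoc h d E, hd2, mul_zero, mul_assoc (h * d) h E, h2, mul_zero, sub_self]
      · have : (h * d - h * d * h) * (h * d - h * d * h) = 0 := by
          have q1 : (h * d - h * d * h) * (h * d) = 0 := by
            rw [sub_mul, mul_assoc (h * d) h (h * d), ← mul_assoc h h d, hh, sub_self]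
          rw [mul_sub, ← mul_assoc _ (h * d) h, q1, zero_mul, sub_self]
        rw [this, zero_mul]
    have e2 : d * h - h * d * h = 0 := by
      apply hN
      · rw [mul_sub, ← mul_assoc, ← mul_assoc, ← mul_assoc, h1, hd1, zero_mul, zero_mul, zero_mul,
          sub_self]
      · rw [sub_mul, mul_assoc d h E, h2, mul_zero, mul_assoc (h * d) h E, h2, mul_zero, sub_self]
      · have : (d * h - h * d * h) * (d * h - h * d * h) = 0 := by
          have q1 : h * (d * h - h * d * h) = 0 := by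
            rw [mul_sub, ← mul_assoc, ← mul_assoc, ← mul_assoc, hh, sub_self]
          rw [sub_mul, mul_assoc d h, q1, mul_zero, mul_assoc (h * d) h, q1, mul_zero, sub_self]
        rw [this, zero_mul]
    rw [sub_eq_zero.1 e1, sub_eq_zero.1 e2]
  have hi1 : Idl R (TweM1 E h) := by
    intro r x hx
    obtain ⟨⟨hx1, hx2⟩, hx3⟩ := hx
    refine ⟨⟨Twe_lM hE hL hx1 hx2 r, ?_⟩, ⟨Twe_rM hE hL hx1 hx2 r, ?_⟩⟩
    · rw [mul_assoc, hx3]
    · rw [Twe_mr hx2 r, mul_assoc, ← hc _ (Twe_d hE hL r).1 (Twe_d hE hL r).2, ← mul_assoc, hx3]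
  have hi0 : Idl R (TweM0 E h) := by
    intro r x hx
    obtain ⟨⟨hx1, hx2⟩, hx3⟩ := hx
    refine ⟨⟨Twe_lM hE hL hx1 hx2 r, ?_⟩, ⟨Twe_rM hE hL hx1 hx2 r, ?_⟩⟩
    · rw [mul_assoc, hx3, mul_zero]
    · rw [Twe_mr hx2 r, mul_assoc, ← hc _ (Twe_d hE hL r).1 (Twe_d hE hL r).2, ← mul_assoc, hx3,
        zero_mul]
  have hn1 : TweM1 E h ≠ ⊥ := by
    intro hb
    apply h0
    apply Twe_K0 hE hL hH hM h1 h2
    intro m hm1 hm2
    have : m * h ∈ TweM1 E h := ⟨Twe_rM hE hL hm1 hm2 h, by rw [mul_assoc, hh]⟩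
    rw [hb] at this
    exact this
  have hb0 : TweM0 E h = ⊥ := by
    refine Twe_lst hH hi1 hi0 hn1 ?_
    intro x hx hx'
    rw [← hx.2]
    exact hx'.2
  have hmh : ∀ m, E * m = m → m * E = 0 → m * h = m := by
    intro m hm1 hm2
    have : m - m * h ∈ TweM0 E h := by
      refine ⟨(TweM E).sub_mem ⟨hm1, hm2⟩ (Twe_rM hE hL hm1 hm2 h), ?_⟩
      rw [sub_mul, mul_assoc, hh, sub_self]
    rw [hb0] at this
    exact (sub_eq_zero.1 this).symm
  refine ⟨?_, hmh⟩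
  intro x hx1 hx2
  have h5 : x - h * x = 0 := by
    apply Twe_K0 hE hL hH hM
    · rw [mul_sub, hx1, ← mul_assoc, h1, zero_mul, sub_self]
    · rw [sub_mul, hx2, mul_assoc, hx2, mul_zero, sub_self]
    · intro m hm1 hm2
      rw [mul_sub, ← mul_assoc, hmh m hm1 hm2, sub_self]
  have h6 : h * x = x := (sub_eq_zero.1 h5).symm
  exact ⟨h6, by rw [← hc x hx1 hx2, h6]⟩

end Twe

theorem thm_Twe (hPws : St_Pws) : St_Twe := by
  intro n hn R _ _ hInM hLst e f u v hMU hFld hRcl hL hM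
  obtain ⟨H, hH⟩ := hLst
  set E := e + f with hEdef
  have hE : E * E = E := by
    rw [hEdef, mul_add, add_mul, add_mul, hMU.ee, hMU.fe, hMU.ef, hMU.ff, add_zero, zero_add]
  have hN : ∀ b, E * b = 0 → b * E = 0 → b * b * b = 0 → b = 0 := by
    intro b hb1 hb2 hb3
    apply Twe_K0 hE hL hH hM hb1 hb2
    intro m hm1 hm2
    exact (hRcl m 0 b hm1 hm2 (by simp) (by simp) hb1 hb2 hb3).2.2.1
  by_cases hex : ∃ h : R, h * h = h ∧ h ≠ 0 ∧ E * h = 0 ∧ h * E = 0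
  · obtain ⟨h, hh, h0, h1, h2⟩ := hex
    obtain ⟨hD, hMh⟩ := Twe_h hE hL hH hM hN hh h0 h1 h2
    refine ⟨h, Or.inr ⟨hh, h0, ?_⟩, h1, h2, hD, fun _ => hMh⟩
    intro x hx1 hx2 hx0
    have hxE1 : E * x = 0 := by rw [← hx1, ← mul_assoc, h1, zero_mul]
    have hxE2 : x * E = 0 := by rw [← hx2, mul_assoc, h2, mul_zero]
    obtain ⟨p1, -, -, p4, -, p6, p7, -, -, -, y, hy1, hy2, hy3, hy4⟩ := hPws n hn R hInM x
    have ho : om n x ≠ 0 := fun h3 => hx0 (hN x hxE1 hxE2 (p4 h3))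
    have ho1 := p6 E hxE1
    have ho2 := p7 E hxE2
    have hoh : om n x = h := by
      have q1 := (hD (om n x) ho1 ho2).2
      have q2 := ((Twe_h hE hL hH hM hN p1 ho ho1 ho2).1 h h1 h2).1
      rw [← q1, q2]
    exact ⟨y, hy3 h hx1, hy4 h hx2, by rw [hy1, hoh]⟩
  · refine ⟨0, Or.inl rfl, by simp, by simp, ?_, fun h => absurd rfl h⟩
    intro x hx1 hx2
    have hx : x = 0 := by
      apply hN x hx1 hx2
      obtain ⟨p1, -, -, p4, -, p6, p7, -⟩ := hPws n hn R hInM x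
      apply p4
      by_contra h3
      exact hex ⟨om n x, p1, h3, p6 E hx1, p7 E hx2⟩
    rw [hx]
    simp

end Pool.Agent.CRN
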