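import Pool.Agent.CRN.St

/-!
Campaign CRN, module Twf (helper96): the least ideal of `[M_2(F) M; 0 D]` is `M`.
-/

set_option autoImplicit false

namespace Pool.Agent.CRN

open Pool.Agent.CRR

section

variable {R : Type} [NonUnitalRing R] {e f u v : R}

theorem Twf_EE (h : MU e f u v) : (e + f) * (e + f) = e + f := by
  rw [mul_add, add_mul, add_mul, h.ee, h.fe, h.ef, h.ff, add_zero, zero_add]

theorem Twf_Ee (h : MU e f u v) : (e + f) * e = e := by
  rw [add_mul, h.ee, h.fe, add_zero]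

theorem Twf_fu (h : MU e f u v) : f * u = 0 := by
  rw [← h.eu, ← mul_assoc, h.fe, zero_mul]

theorem Twf_ue (h : MU e f u v) : u * e = 0 := by
  rw [← h.uf, mul_assoc, h.fe, mul_zero]

theorem Twf_Eu (h : MU e f u v) : (e + f) * u = u := by
  rw [add_mul, h.eu, Twf_fu h, add_zero]

theorem Twf_r (h : MU e f u v) (hL : ∀ l, (e + f) * l = 0 → l * (e + f) = l → l = 0) (r : R) :
    r * (e + f) = (e + f) * r * (e + f) := by
  have h1 := hL (r * (e + f) - (e + f) * r * (e + f)) (by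
    rw [mul_sub, ← mul_assoc, ← mul_assoc, ← mul_assoc, Twf_EE h, sub_self]) (by
    rw [sub_mul, mul_assoc r, mul_assoc ((e + f) * r), Twf_EE h])
  exact sub_eq_zero.1 h1

/-- `M` is an ideal (left multiplication) -/
theorem Twf_left (h : MU e f u v) (hL : ∀ l, (e + f) * l = 0 → l * (e + f) = l → l = 0)
    (r y : R) (hy : (e + f) * y = y) : (e + f) * (r * y) = r * y := by
  have h1 : r * y = (e + f) * (r * y) := by
    calc r * y = r * ((e + f) * y) := by rw [hy]
      _ = (r * (e + f)) * y := by rw [mul_assoc]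
      _ = ((e + f) * r * (e + f)) * y := by rw [← Twf_r h hL r]
      _ = (e + f) * (r * ((e + f) * y)) := by simp only [mul_assoc]
      _ = (e + f) * (r * y) := by rw [hy]
  exact h1.symm

/-- `M` is an ideal (right multiplication) -/
theorem Twf_right (h : MU e f u v) (hL : ∀ l, (e + f) * l = 0 → l * (e + f) = l → l = 0)
    (r y : R) (hy : y * (e + f) = 0) : (y * r) * (e + f) = 0 := by
  calc (y * r) * (e + f) = y * (r * (e + f)) := by rw [mul_assoc]
    _ = y * ((e + f) * r * (e + f)) := by rw [← Twf_r h hL r]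
    _ = (y * (e + f)) * (r * (e + f)) := by simp only [mul_assoc]
    _ = 0 := by rw [hy, zero_mul]

theorem Twf_dec (h : MU e f u v) (y : R) (hy : (e + f) * y = y) :
    y = e * y + v * (u * y) := by
  rw [← mul_assoc, h.vu, ← add_mul, hy]

theorem Twf_core (H : AddSubgroup R) (hH : Lst R H) (h : MU e f u v)
    (hL : ∀ l, (e + f) * l = 0 → l * (e + f) = l → l = 0) (x : R) (hx0 : x ≠ 0)
    (hex : e * x = x) (hxE : x * (e + f) = 0) (N : AddSubgroup R) (hxN : x ∈ N)
    (hN2 : ∀ s, e * s = s → s * e = s → ∀ w ∈ N, s * w ∈ N)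
    (hN4 : ∀ y, (e + f) * y = y → y * (e + f) = 0 → ∀ r a, a * y ∈ N → a * (y * r) ∈ N)
    (hN5 : ∀ w ∈ N, w ≠ 0 → w ∈ H → x ∈ H) : x ∈ H := by
  obtain ⟨hHi, hHb, hHl⟩ := hH
  have hEx : (e + f) * x = x := by
    rw [← hex, ← mul_assoc, Twf_Ee h]
  let I : AddSubgroup R :=
    { carrier := {y | (e + f) * y = y ∧ y * (e + f) = 0 ∧ e * y ∈ N ∧ u * y ∈ N}
      zero_mem' := ⟨mul_zero _, zero_mul _, by rw [mul_zero]; exact N.zero_mem,
        by rw [mul_zero]; exact N.zero_mem⟩
      add_mem' := by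
        rintro a b ⟨a1, a2, a3, a4⟩ ⟨b1, b2, b3, b4⟩
        exact ⟨by rw [mul_add, a1, b1], by rw [add_mul, a2, b2, add_zero],
          by rw [mul_add]; exact N.add_mem a3 b3, by rw [mul_add]; exact N.add_mem a4 b4⟩
      neg_mem' := by
        rintro a ⟨a1, a2, a3, a4⟩
        exact ⟨by rw [mul_neg, a1], by rw [neg_mul, a2, neg_zero],
          by rw [mul_neg]; exact N.neg_mem a3, by rw [mul_neg]; exact N.neg_mem a4⟩ }
  have hmemI : ∀ y, y ∈ I ↔ (e + f) * y = y ∧ y * (e + f) = 0 ∧ e * y ∈ N ∧ u * y ∈ N :=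
    fun y => Iff.rfl
  have hxI : x ∈ I := by
    rw [hmemI]
    refine ⟨hEx, hxE, by rw [hex]; exact hxN, ?_⟩
    rw [← hex, ← mul_assoc, Twf_ue h, zero_mul]
    exact N.zero_mem
  have hI : Idl R I := by
    intro r y hy
    rw [hmemI] at hy
    obtain ⟨y1, y2, y3, y4⟩ := hy
    have hleft : ∀ a, e * a = a → a * y ∈ N := by
      intro a ha
      have h1 : a * y = (a * e) * (e * y) + (a * v) * (u * y) := by
        have h2 : (a * e) * (e * y) = a * (e * y) := by
          rw [mul_assoc a e, ← mul_assoc e e y, h.ee]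
        rw [h2, mul_assoc a v, ← mul_add, ← Twf_dec h y y1]
      rw [h1]
      refine N.add_mem (hN2 _ ?_ ?_ _ y3) (hN2 _ ?_ ?_ _ y4)
      · rw [← mul_assoc, ha]
      · rw [mul_assoc, h.ee]
      · rw [← mul_assoc, ha]
      · rw [mul_assoc, h.ve]
    constructor
    · rw [hmemI]
      refine ⟨Twf_left h hL r y y1, by rw [mul_assoc, y2, mul_zero], ?_, ?_⟩
      · rw [← mul_assoc]
        exact hleft _ (by rw [← mul_assoc, h.ee])
      · rw [← mul_assoc]
        exact hleft _ (by rw [← mul_assoc, h.eu])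
    · rw [hmemI]
      exact ⟨by rw [← mul_assoc, y1], Twf_right h hL r y y2, hN4 y y1 y2 r e y3,
        hN4 y y1 y2 r u y4⟩
  have hIb : I ≠ ⊥ := by
    intro hb
    rw [hb, AddSubgroup.mem_bot] at hxI
    exact hx0 hxI
  have hHI := hHl I hI hIb
  obtain ⟨y, hyH, hy0⟩ : ∃ y ∈ H, y ≠ 0 := by
    by_contra hcon
    push Not at hcon
    exact hHb ((AddSubgroup.eq_bot_iff_forall H).2 hcon)
  obtain ⟨y1, y2, y3, y4⟩ := (hmemI y).1 (hHI hyH)
  by_cases hey : e * y = 0
  · have huy : u * y ≠ 0 := by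
      intro huy
      refine hy0 ?_
      rw [Twf_dec h y y1, hey, huy, mul_zero, add_zero]
    exact hN5 _ y4 huy (hHi u y hyH).1
  · exact hN5 _ y3 hey (hHi e y hyH).1

end

/-- the case `f₀ = 0` -/
theorem Twf_zero {R : Type} [NonUnitalRing R] {e f u v : R} (H : AddSubgroup R) (hH : Lst R H)
    (h : MU e f u v) (hF : Fld R e) (hL : ∀ l, (e + f) * l = 0 → l * (e + f) = l → l = 0)
    (hD : ∀ x, (e + f) * x = 0 → x * (e + f) = 0 → x = 0) (x : R) (hx0 : x ≠ 0)
    (hex : e * x = x) (hxE : x * (e + f) = 0) : x ∈ H := by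
  let N : AddSubgroup R :=
    { carrier := {w | ∃ s, e * s = s ∧ s * e = s ∧ w = s * x}
      zero_mem' := ⟨0, mul_zero _, zero_mul _, by rw [zero_mul]⟩
      add_mem' := by
        rintro _ _ ⟨s, s1, s2, rfl⟩ ⟨t, t1, t2, rfl⟩
        exact ⟨s + t, by rw [mul_add, s1, t1], by rw [add_mul, s2, t2], by rw [add_mul]⟩
      neg_mem' := by
        rintro _ ⟨s, s1, s2, rfl⟩
        exact ⟨-s, by rw [mul_neg, s1], by rw [neg_mul, s2], by rw [neg_mul]⟩ }
  have hN : ∀ w, w ∈ N ↔ ∃ s, e * s = s ∧ s * e = s ∧ w = s * x := fun w => Iff.rfl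
  refine Twf_core H hH h hL x hx0 hex hxE N ?_ ?_ ?_ ?_
  · rw [hN]
    exact ⟨e, h.ee, h.ee, hex.symm⟩
  · intro s s1 s2 w hw
    rw [hN] at hw ⊢
    obtain ⟨t, t1, t2, rfl⟩ := hw
    exact ⟨s * t, by rw [← mul_assoc, s1], by rw [mul_assoc, t2], by rw [mul_assoc]⟩
  · intro y y1 y2 r a _
    have h1 : r - (e + f) * r = 0 := by
      refine hD _ ?_ ?_
      · rw [mul_sub, ← mul_assoc, Twf_EE h, sub_self]
      · rw [sub_mul, ← Twf_r h hL r, sub_self]
    have h2 : y * r = 0 := by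
      rw [sub_eq_zero.1 h1, ← mul_assoc, y2, zero_mul]
    rw [h2, mul_zero]
    exact N.zero_mem
  · intro w hw hw0 hwH
    rw [hN] at hw
    obtain ⟨s, s1, s2, rfl⟩ := hw
    have hs0 : s ≠ 0 := by
      intro hs
      exact hw0 (by rw [hs, zero_mul])
    obtain ⟨t, t1, t2, hst⟩ := hF.2.2 s s1 s2 hs0
    have ht0 : t ≠ 0 := by
      intro ht
      rw [ht, mul_zero] at hst
      exact h.ne hst.symm
    obtain ⟨t', t1', t2', htt⟩ := hF.2.2 t t1 t2 ht0
    have hst' : s = t' := by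
      calc s = s * e := s2.symm
        _ = s * (t * t') := by rw [htt]
        _ = (s * t) * t' := by rw [mul_assoc]
        _ = t' := by rw [hst, t1']
    have hts : t * s = e := by rw [hst', htt]
    have h3 : x = t * (s * x) := by rw [← mul_assoc, hts, hex]
    rw [h3]
    exact (hH.1 t _ hwH).1

/-- the case `f₀ ≠ 0` -/
theorem Twf_one {R : Type} [NonUnitalRing R] {e f u v f₀ : R} (H : AddSubgroup R)
    (hH : Lst R H) (h : MU e f u v) (hL : ∀ l, (e + f) * l = 0 → l * (e + f) = l → l = 0)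
    (hff : f₀ * f₀ = f₀) (hE1 : (e + f) * f₀ = 0)
    (hD : ∀ x, (e + f) * x = 0 → x * (e + f) = 0 → f₀ * x = x ∧ x * f₀ = x)
    (hM : ∀ m, (e + f) * m = m → m * (e + f) = 0 → m * f₀ = m) (x : R) (hx0 : x ≠ 0)
    (hex : e * x = x) (hxE : x * (e + f) = 0) (hxf : x * f₀ = x) (hS : Smp e f₀ x) : x ∈ H := by
  refine Twf_core H hH h hL x hx0 hex hxE (Bm e f₀ x) ?_ ?_ ?_ ?_
  · refine AddSubgroup.subset_closure ⟨e, f₀, ?_⟩
    rw [h.ee, h.ee, hff, hff, hex, hxf]
  · intro s s1 s2 w hw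
    have hw' : w ∈ AddSubgroup.closure {w | ∃ a b, w = (e * a * e) * x * (f₀ * b * f₀)} := hw
    induction hw' using AddSubgroup.closure_induction with
    | mem w hw1 =>
      obtain ⟨a, b, rfl⟩ := hw1
      refine AddSubgroup.subset_closure ⟨s * a, b, ?_⟩
      have h1 : s * (e * a * e) = e * (s * a) * e := by
        rw [← mul_assoc, ← mul_assoc, s2, ← mul_assoc, s1]
      rw [← h1]
      simp only [mul_assoc]
    | zero =>
      rw [mul_zero]
      exact AddSubgroup.zero_mem _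
    | add a b ha hb iha ihb =>
      rw [mul_add]
      exact AddSubgroup.add_mem _ (iha ha) (ihb hb)
    | neg a ha iha =>
      rw [mul_neg]
      exact AddSubgroup.neg_mem _ (iha ha)
  · intro y y1 y2 r a hay
    have h1 : y * r = y * (f₀ * r * f₀) := by
      have h2 : f₀ * r * f₀ = f₀ * r := by
        refine (hD _ ?_ ?_).2
        · rw [← mul_assoc, hE1, zero_mul]
        · rw [mul_assoc, Twf_r h hL r, ← mul_assoc, ← mul_assoc]
          have h3 : f₀ * (e + f) = 0 := by
            have h4 : f₀ * (e + f) = (e + f) * f₀ * (e + f) := Twf_r h hL f₀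
            rw [h4, hE1, zero_mul]
          rw [h3, zero_mul, zero_mul]
      rw [h2, ← mul_assoc, hM y y1 y2]
    rw [h1, ← mul_assoc]
    have hw' : a * y ∈ AddSubgroup.closure {w | ∃ a b, w = (e * a * e) * x * (f₀ * b * f₀)} := hay
    generalize a * y = w at hw'
    induction hw' using AddSubgroup.closure_induction with
    | mem w hw1 =>
      obtain ⟨a, b, rfl⟩ := hw1
      refine AddSubgroup.subset_closure ⟨a, b * f₀ * r, ?_⟩
      have h3 : (f₀ * b * f₀) * (f₀ * r * f₀) = f₀ * (b * f₀ * r) * f₀ := by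
        calc (f₀ * b * f₀) * (f₀ * r * f₀) = f₀ * b * (f₀ * f₀) * r * f₀ := by
              simp only [mul_assoc]
          _ = f₀ * (b * f₀ * r) * f₀ := by
              rw [hff]
              simp only [mul_assoc]
      rw [← h3]
      simp only [mul_assoc]
    | zero =>
      rw [zero_mul]
      exact AddSubgroup.zero_mem _
    | add a b ha hb iha ihb =>
      rw [add_mul]
      exact AddSubgroup.add_mem _ iha ihb
    | neg a ha iha =>
      rw [neg_mul]
      exact AddSubgroup.neg_mem _ iha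
  · intro w hw hw0 hwH
    have h1 := hS w hw hw0
    have h2 : Bm e f₀ w ≤ H := by
      refine (AddSubgroup.closure_le H).2 ?_
      rintro _ ⟨a, b, rfl⟩
      exact (hH.1 _ _ (hH.1 _ w hwH).1).2
    exact h2 h1

theorem thm_Twf (hMas : St_Mas) : St_Twf := by
  intro R _ _ H hH e f u v h hF _ hL hM f₀ hf0 hE1 hE2 hD hMf x
  let M : AddSubgroup R :=
    { carrier := {y | (e + f) * y = y ∧ y * (e + f) = 0}
      zero_mem' := ⟨mul_zero _, zero_mul _⟩
      add_mem' := by
        rintro a b ⟨a1, a2⟩ ⟨b1, b2⟩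
        exact ⟨by rw [mul_add, a1, b1], by rw [add_mul, a2, b2, add_zero]⟩
      neg_mem' := by
        rintro a ⟨a1, a2⟩
        exact ⟨by rw [mul_neg, a1], by rw [neg_mul, a2, neg_zero]⟩ }
  have hmemM : ∀ y, y ∈ M ↔ (e + f) * y = y ∧ y * (e + f) = 0 := fun y => Iff.rfl
  have hMI : Idl R M := by
    intro r y hy
    rw [hmemM] at hy
    obtain ⟨y1, y2⟩ := hy
    exact ⟨⟨Twf_left h hL r y y1, by rw [mul_assoc, y2, mul_zero]⟩,
      by rw [← mul_assoc, y1], Twf_right h hL r y y2⟩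
  have hMb : M ≠ ⊥ := by
    intro hb
    obtain ⟨m, m1, m2, m0⟩ := hM
    have h1 : m ∈ M := ⟨m1, m2⟩
    rw [hb, AddSubgroup.mem_bot] at h1
    exact m0 h1
  constructor
  · intro hx
    exact hH.2.2 M hMI hMb hx
  · rintro ⟨hx1, hx2⟩
    -- elements with `e x = x`
    have key : ∀ x, e * x = x → x * (e + f) = 0 → x ∈ H := by
      intro x hex hxE
      have hEx : (e + f) * x = x := by
        rw [← hex, ← mul_assoc, Twf_Ee h]
      rcases hf0 with hf0 | hf0
      · by_cases hx0 : x = 0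
        · rw [hx0]
          exact H.zero_mem
        · refine Twf_zero H hH h hF hL (fun y y1 y2 => ?_) x hx0 hex hxE
          have h1 := (hD y y1 y2).1
          rw [hf0, zero_mul] at h1
          exact h1.symm
      · have hxf : x * f₀ = x := hMf hf0.2.1 x hEx hxE
        obtain ⟨l, hl, hls⟩ := hMas R e f₀ hF hf0 x hex hxf
        rw [← hls]
        refine list_sum_mem fun y hy => ?_
        obtain ⟨y1, y2, y3⟩ := hl y hy
        by_cases hy0 : y = 0
        · rw [hy0]
          exact H.zero_mem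
        · refine Twf_one H hH h hL hf0.1 hE1 hD (hMf hf0.2.1) y hy0 y1 ?_ y2 y3
          rw [← y2, mul_assoc, hE2, mul_zero]
    rw [Twf_dec h x hx1]
    refine H.add_mem (key _ ?_ ?_) (hH.1 v _ (key _ ?_ ?_)).1
    · rw [← mul_assoc, h.ee]
    · rw [mul_assoc, hx2, mul_zero]
    · rw [← mul_assoc, h.eu]
    · rw [mul_assoc, hx2, mul_zero]

end Pool.Agent.CRN
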