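import Pool.Agent.CRN.St

/-! Campaign CRN, module TWG: rings with noncommutative `R / J(R)`. -/

set_option autoImplicit false

namespace Pool.Agent.CRN

open Pool.Agent.CRR MulOpposite

/-- the case `L = 0`, `M ≠ 0` -/
theorem Twg_tri (hTwe : St_Twe) (hTwf : St_Twf) (hMat : St_Mat) {n : ℕ} (hn : 4 ≤ n)
    (R : Type) [NonUnitalRing R] [Finite R] (hR : InM n R) (hL : ∃ H, Lst R H) {e f u v : R}
    (hM : MU e f u v) (hF : Fld R e) (hR1 : Rcl e f)
    (h0 : ∀ l, (e + f) * l = 0 → l * (e + f) = l → l = 0)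
    (h1 : ∃ m, (e + f) * m = m ∧ m * (e + f) = 0 ∧ m ≠ 0) : TriType R := by
  obtain ⟨f₀, a1, a2, a3, a4, a5⟩ := hTwe n hn R hR hL e f u v hM hF hR1 h0 h1
  obtain ⟨H, hH⟩ := hL
  have b1 := hTwf R H hH e f u v hM hF hR1 h0 h1 f₀ a1 a2 a3 a4 a5
  have EE : (e + f) * (e + f) = e + f := by
    rw [mul_add, add_mul, add_mul, hM.ee, hM.ff, hM.ef, hM.fe, add_zero, zero_add]
  have mu1 : e * v = 0 := by rw [← hM.fv, ← mul_assoc, hM.ef, zero_mul]
  have mu2 : f * u = 0 := by rw [← hM.eu, ← mul_assoc, hM.fe, zero_mul]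
  have mu3 : u * e = 0 := by rw [← hM.uf, mul_assoc, hM.fe, mul_zero]
  have mu4 : v * f = 0 := by rw [← hM.ve, mul_assoc, hM.ef, mul_zero]
  have mu5 : u * u = 0 := by rw [← hM.eu, ← mul_assoc, hM.eu, mu3, zero_mul]
  have mu6 : v * v = 0 := by rw [← hM.fv, ← mul_assoc, hM.fv, mu4, zero_mul]
  let E : Fin 2 → Fin 2 → R := fun i j =>
    if i = 0 then (if j = 0 then e else u) else (if j = 0 then v else f)
  have hE : ∀ i j l m, E i j * E l m = if j = l then E i m else 0 := by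
    intro i j l m
    fin_cases i <;> fin_cases j <;> fin_cases l <;> fin_cases m <;>
      simp [E, hM.ee, hM.ff, hM.ef, hM.fe, hM.eu, hM.uf, hM.fv, hM.ve, hM.uv, hM.vu, mu1, mu2,
        mu3, mu4, mu5, mu6]
  obtain ⟨F, iF, iFf, φ, c1, c2, c3⟩ := hMat R 2 E 0 hE (by simpa [E] using hF)
  have c4 : φ 1 = e + f := by
    rw [c2, Fin.sum_univ_two]
    simp [E]
  refine ⟨F, iF, iFf, φ, f₀, H, c1, c3, ?_, a1, ?_, ?_, ?_, hH, ?_⟩
  · intro x
    rw [c4]
    have d1 := h0 (x * (e + f) - (e + f) * x * (e + f)) (by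
      rw [mul_sub, ← mul_assoc, ← mul_assoc, ← mul_assoc, EE, sub_self]) (by
      rw [sub_mul, mul_assoc, mul_assoc _ (e + f) (e + f), EE])
    exact sub_eq_zero.mp d1
  · rw [c4]; exact a2
  · rw [c4]; exact a3
  · rw [c4]; exact a4
  · rw [c4]; exact b1

theorem Twg_fld {R : Type} [NonUnitalRing R] {e : R} (h : Fld R e) : Fld Rᵐᵒᵖ (op e) := by
  obtain ⟨h1, h2, h3⟩ := h
  refine ⟨by rw [← op_mul, h1], fun h => h2 (by simpa using h), fun x hx1 hx2 hx3 => ?_⟩
  have k1 : x.unop * e = x.unop := by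
    have := congrArg unop hx1
    simpa using this
  have k2 : e * x.unop = x.unop := by
    have := congrArg unop hx2
    simpa using this
  have k3 : x.unop ≠ 0 := fun h => hx3 (unop_injective (by simpa using h))
  obtain ⟨y, y1, y2, y3⟩ := h3 _ k2 k1 k3
  have y4 : y ≠ 0 := by
    rintro rfl
    rw [mul_zero] at y3
    exact h2 y3.symm
  obtain ⟨w, w1, w2, w3⟩ := h3 _ y1 y2 y4
  have y5 : x.unop = w := by
    calc x.unop = x.unop * e := k1.symm
      _ = x.unop * (y * w) := by rw [w3]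
      _ = e * w := by rw [← mul_assoc, y3]
      _ = w := w1
  refine ⟨op y, ?_, ?_, ?_⟩
  · rw [← op_mul, y2]
  · rw [← op_mul, y1]
  · apply unop_injective
    rw [unop_mul, unop_op, unop_op, y5, w3]

theorem Twg_rcl {R : Type} [NonUnitalRing R] {e f : R} (h : Rcl e f) :
    Rcl (op e) (op f) := by
  intro m l b m1 m2 l1 l2 b1 b2 b3
  have q : ∀ x y : Rᵐᵒᵖ, (x = y) ↔ unop x = unop y := fun x y => unop_injective.eq_iff.symm
  rw [q] at m1 m2 l1 l2 b1 b2 b3
  simp only [unop_mul, unop_add, unop_op, unop_zero] at m1 m2 l1 l2 b1 b2 b3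
  obtain ⟨k1, k2, k3, k4⟩ := h l.unop m.unop b.unop l2 l1 m2 m1 b2 b1 (by
    rw [mul_assoc]; exact b3)
  refine ⟨?_, ?_, ?_, ?_⟩ <;> rw [q] <;> simp only [unop_mul, unop_zero]
  · exact k1
  · exact k2
  · exact k4
  · exact k3

theorem Twg_mu {R : Type} [NonUnitalRing R] {e f u v : R} (h : MU e f u v) :
    MU (op e) (op f) (op v) (op u) where
  ee := by rw [← op_mul, h.ee]
  ff := by rw [← op_mul, h.ff]
  ef := by rw [← op_mul, h.fe, op_zero]
  fe := by rw [← op_mul, h.ef, op_zero]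
  eu := by rw [← op_mul, h.ve]
  uf := by rw [← op_mul, h.fv]
  fv := by rw [← op_mul, h.uf]
  ve := by rw [← op_mul, h.eu]
  uv := by rw [← op_mul, h.uv]
  vu := by rw [← op_mul, h.vu]
  ne := fun k => h.ne (by simpa using k)

theorem thm_Twg (hTwa : St_Twa) (hTwb : St_Twb) (hTwc : St_Twc) (hTwd : St_Twd)
    (hTwe : St_Twe) (hTwf : St_Twf) (hMat : St_Mat) (hOpp : St_Opp) : St_Twg := by
  intro n hn R _ _ hR hL hT
  obtain ⟨e, f, u, v, hM, hF⟩ := hTwa n hn R hR hT
  by_cases h3 : ∃ g u' v', M3 e f g u' v'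
  · obtain ⟨g, u', v', h3⟩ := h3
    exact Or.inr (Or.inl (hTwb n hn R hR hL e f u v g u' v' hM hF h3))
  push Not at h3
  have hC := hTwc n hn R hR e f u v hM hF h3
  obtain ⟨d1, d2⟩ := hTwd R hL e f u v hM hF hC
  by_cases m0 : ∀ m, (e + f) * m = m → m * (e + f) = 0 → m = 0
  · by_cases l0 : ∀ l, (e + f) * l = 0 → l * (e + f) = l → l = 0
    · exact Or.inl (d2 m0 l0)
    · right; right; right
      obtain ⟨_, o2, _, _, o5⟩ := hOpp R
      have : Finite Rᵐᵒᵖ := Finite.of_equiv R opEquiv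
      refine Twg_tri hTwe hTwf hMat hn Rᵐᵒᵖ (o2 n hR) (o5 hL) (Twg_mu hM) (Twg_fld hF)
        (Twg_rcl hC) ?_ ?_
      · intro l l1 l2
        have k1 := congrArg unop l1
        have k2 := congrArg unop l2
        simp only [unop_mul, unop_add, unop_op, unop_zero] at k1 k2
        apply unop_injective
        rw [unop_zero]
        exact m0 _ k2 k1
      · push Not at l0
        obtain ⟨l, l1, l2, l3⟩ := l0
        refine ⟨op l, ?_, ?_, ?_⟩
        · rw [← op_add, ← op_mul, l2]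
        · rw [← op_add, ← op_mul, l1, op_zero]
        · exact fun k => l3 (by simpa using k)
  · have l0 : ∀ l, (e + f) * l = 0 → l * (e + f) = l → l = 0 := by
      rcases d1 with d1 | d1
      · exact absurd d1 m0
      · exact d1
    right; right; left
    push Not at m0
    exact Twg_tri hTwe hTwf hMat hn R hR hL hM hF hC l0 m0

end Pool.Agent.CRN
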