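import Pool.Agent.CRN.St

/-!
Campaign CRN, `St_Vrt`: a subring with lifted vertex idempotents and generators of the fields covers
`R / J`.
-/

set_option autoImplicit false

namespace Pool.Agent.CRN

open Pool.Agent.CRR

/-- The map `x ↦ e x e` as a homomorphism. -/
def Vrt_rho {R : Type} [NonUnitalRing R] (e : R)
    (h : ∀ x y, e * (x * y) * e = (e * x * e) * (e * y * e)) : R →ₙ+* R where
  toFun x := e * x * e
  map_mul' := h
  map_zero' := by simp
  map_add' x y := by rw [mul_add, add_mul]

theorem Vrt_rho_apply {R : Type} [NonUnitalRing R] (e : R)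
    (h : ∀ x y, e * (x * y) * e = (e * x * e) * (e * y * e)) (x : R) :
    Vrt_rho e h x = e * x * e := rfl

theorem Vrt_dl_map {R K : Type} [NonUnitalRing R] [NonUnitalRing K] (f : R →ₙ+* K) (q : ℕ) (t : R)
    (j : ℕ) : f (dl q t j) = dl q (f t) j := by
  induction j with
  | zero => rfl
  | succ j ih =>
    show f (dl q t j * (pw t j - pw t (q - 2))) = dl q (f t) j * (pw (f t) j - pw (f t) (q - 2))
    rw [map_mul, map_sub, ih, pw_map, pw_map]

theorem thm_Vrt (hJid : St_Jid) (hDlt : St_Dlt) : St_Vrt := by
  intro n R _ _ s e hx S g t hg ho x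
  obtain ⟨hI, -, hmul, -, -, hid, hz⟩ := hJid n R s e hx
  have hf := hx.fam
  have hee : ∀ i, e i * e i = e i := fun i => (hf.fld i).1
  have hmem : ∀ y : R, y ∈ JJ e ↔ ∀ i, e i * y * e i = 0 := fun y => Iff.rfl
  -- `ρ_i (g m) = 0` for `i ≠ m`
  have hg0 : ∀ i m, i ≠ m → e i * g m * e i = 0 := by
    intro i m him
    have h1 := hmul i (g i) (g m)
    rw [ho i m him, (hg i).2.2.2.1] at h1
    rw [mul_zero, zero_mul, ← mul_assoc, ← mul_assoc, hee i] at h1
    exact h1.symm
  have hl0 : ∀ i m y, i ≠ m → g m * y = y → e i * y * e i = 0 := by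
    intro i m y him hy
    rw [← hy, hmul i (g m) y, hg0 i m him, zero_mul]
  have hFld : ∀ m, Fld R (g m) := by
    intro m
    apply hx.fc
    refine ⟨(hg m).2.2.1, ?_, ?_⟩
    · intro h0
      have h1 := (hg m).2.2.2.1
      rw [h0, mul_zero, zero_mul] at h1
      exact (hf.fld m).2.1 h1.symm
    · intro h hh h1 h2
      rcases hid h hh m with h3 | h3
      · left
        apply hz h hh
        rw [hmem]
        intro i
        by_cases him : i = m
        · rw [him]; exact h3
        · exact hl0 i m h him h1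
      · right
        have h4 : (g m - h) * (g m - h) = g m - h := by
          rw [mul_sub, sub_mul, sub_mul, (hg m).2.2.1, h1, h2, hh]
          abel
        have h5 : g m - h ∈ JJ e := by
          rw [hmem]
          intro i
          by_cases him : i = m
          · rw [him, mul_sub, sub_mul, h3, (hg m).2.2.2.1, sub_self]
          · apply hl0 i m _ him
            rw [mul_sub, (hg m).2.2.1, h1]
        exact (sub_eq_zero.1 (hz _ h4 h5)).symm
  have hne : ∀ m y, g m * y = y → y * g m = y → y ≠ 0 → e m * y * e m ≠ 0 := by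
    intro m y h1 h2 h3 h4
    have h5 : y ∈ JJ e := by
      rw [hmem]
      intro i
      by_cases him : i = m
      · rw [him]; exact h4
      · exact hl0 i m y him h1
    obtain ⟨w, -, -, hw⟩ := (hFld m).2.2 y h1 h2 h3
    have h6 : g m ∈ JJ e := by
      rw [← hw]
      exact (hI w y h5).2
    have h7 := (hmem _).1 h6 m
    rw [(hg m).2.2.2.1] at h7
    exact (hf.fld m).2.1 h7
  have key : ∀ m, ∃ y ∈ NonUnitalSubring.closure {t m}, e m * y * e m = e m * x * e m := by
    intro m
    obtain ⟨-, hD2, hD3, hD4, -⟩ := hDlt R (e m) (hf.fld m)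
    obtain ⟨-, -, -, -, h5, h6, h7⟩ := hg m
    have h8 := hne m _ (hD3 (g m) (t m) h5) (hD4 (g m) (t m) h6) h7
    set ρ := Vrt_rho (e m) (hmul m) with hρ
    have h9 : ρ (dq (e m) (t m)) = dq (e m) (ρ (t m)) := Vrt_dl_map ρ _ _ _
    have h10 : dq (e m) (ρ (t m)) ≠ 0 := by
      rw [← h9]
      exact h8
    have hl : ∀ y : R, e m * ρ y = ρ y := by
      intro y
      show e m * (e m * y * e m) = e m * y * e m
      rw [← mul_assoc, ← mul_assoc, hee]
    have hr : ∀ y : R, ρ y * e m = ρ y := by
      intro y
      show e m * y * e m * e m = e m * y * e m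
      rw [mul_assoc, hee]
    have h11 := hD2 (ρ (t m)) (hl _) (hr _) h10 (ρ x) (hl _) (hr _)
    have h12 : NonUnitalSubring.closure {ρ (t m)} ≤
        (NonUnitalSubring.closure {t m}).map ρ := by
      rw [NonUnitalSubring.closure_le]
      intro z hz
      rw [Set.mem_singleton_iff] at hz
      rw [hz]
      exact ⟨t m, NonUnitalSubring.subset_closure rfl, rfl⟩
    obtain ⟨y, hy, hyx⟩ := h12 h11
    exact ⟨y, hy, hyx⟩
  choose y hy hyx using key
  refine ⟨∑ m, y m, ?_, ?_⟩
  · apply sum_mem
    intro m _
    have h1 : NonUnitalSubring.closure {t m} ≤ S := by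
      rw [NonUnitalSubring.closure_le]
      intro z hz
      rw [Set.mem_singleton_iff] at hz
      rw [hz]
      exact (hg m).2.1
    exact h1 (hy m)
  · rw [hmem]
    intro i
    have h0 : ∀ m, i ≠ m → e i * y m * e i = 0 := by
      intro m him
      have h1 : NonUnitalSubring.closure {t m} ≤
          (⊥ : NonUnitalSubring R).comap (Vrt_rho (e i) (hmul i)) := by
        rw [NonUnitalSubring.closure_le]
        intro z hz
        rw [Set.mem_singleton_iff] at hz
        rw [hz]
        show e i * t m * e i ∈ (⊥ : NonUnitalSubring R)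
        rw [NonUnitalSubring.mem_bot]
        exact hl0 i m _ him (hg m).2.2.2.2.1
      have h2 := h1 (hy m)
      rw [NonUnitalSubring.mem_comap, NonUnitalSubring.mem_bot] at h2
      exact h2
    rw [mul_sub, sub_mul, Finset.mul_sum, Finset.sum_mul, Finset.sum_eq_single i, hyx, sub_self]
    · intro m _ hm
      exact h0 m (Ne.symm hm)
    · simp

end Pool.Agent.CRN
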