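import Pool.Agent.CRN.Pws
import Pool.Agent.CRN.Sir
import Pool.Agent.CRN.Ppw
import Pool.Agent.CRN.Crg
import Pool.Agent.CRN.Opp
import Pool.Agent.CRN.Prb
import Pool.Agent.CRN.Orf
import Pool.Agent.CRN.Jnl
import Pool.Agent.CRN.Mas
import Pool.Agent.CRN.Mat
import Pool.Agent.CRN.Dlt
import Pool.Agent.CRN.Eof
import Pool.Agent.CRN.Nak
import Pool.Agent.CRN.Det
import Pool.Agent.CRN.Twa
import Pool.Agent.CRN.Twb
import Pool.Agent.CRN.Twc
import Pool.Agent.CRN.Twd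
import Pool.Agent.CRN.Twe
import Pool.Agent.CRN.Twf
import Pool.Agent.CRN.Twg
import Pool.Agent.CRN.Rnk
import Pool.Agent.CRN.Cm1
import Pool.Agent.CRN.Cm2
import Pool.Agent.CRN.Cm3
import Pool.Agent.CRN.Trf
import Pool.Agent.CRN.Ctr
import Pool.Agent.CRN.Pca
import Pool.Agent.CRN.Jid
import Pool.Agent.CRN.Rla
import Pool.Agent.CRN.Rlb
import Pool.Agent.CRN.Gad
import Pool.Agent.CRN.Let
import Pool.Agent.CRN.Mlp
import Pool.Agent.CRN.Nrm
import Pool.Agent.CRN.Pat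
import Pool.Agent.CRN.Cov
import Pool.Agent.CRN.Fwa
import Pool.Agent.CRN.Fwb
import Pool.Agent.CRN.Cnj
import Pool.Agent.CRN.Vrt
import Pool.Agent.CRN.Caa
import Pool.Agent.CRN.Sbb
import Pool.Agent.CRN.Fnb
import Pool.Agent.CRN.Cba
import Pool.Agent.CRN.Cbb
import Pool.Agent.CRN.Cbc
import Pool.Agent.CRN.Cbd
import Pool.Agent.CRN.Scc
import Pool.Agent.CRN.Alc
import Pool.Agent.CRN.Ccc
import Pool.Agent.CRN.Sdd
import Pool.Agent.CRN.Ald
import Pool.Agent.CRN.Cdd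
import Pool.Agent.CRN.Evn
import Pool.Agent.CRN.Asm

/-!
Campaign CRN: the theorem (problem MP_1bb14d_al).
-/

set_option autoImplicit false

namespace Pool.Agent.CRN

theorem orf : St_Orf := thm_Orf thm_Prb

theorem jid : St_Jid := thm_Jid thm_Pws thm_Prb

theorem rla : St_Rla := thm_Rla jid thm_Pca

theorem rlb : St_Rlb := thm_Rlb jid thm_Pca

theorem eof : St_Eof := thm_Eof thm_Pws

theorem vrt : St_Vrt := thm_Vrt jid thm_Dlt

theorem cnj : St_Cnj := thm_Cnj jid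

theorem twg : St_Twg :=
  thm_Twg (thm_Twa thm_Pws thm_Prb) (thm_Twb thm_Pws thm_Mat) (thm_Twc thm_Pws) (thm_Twd thm_Mat)
    (thm_Twe thm_Pws) (thm_Twf thm_Mas) thm_Mat thm_Opp

theorem cm1 : St_Cm1 := thm_Cm1 thm_Crg thm_Dlt

theorem cm2 : St_Cm2 := thm_Cm2 thm_Crg thm_Dlt eof thm_Rnk

theorem cm3 : St_Cm3 := thm_Cm3 thm_Crg thm_Dlt eof thm_Rnk

theorem fwa : St_Fwa := thm_Fwa thm_Sir orf (thm_Gad thm_Pca thm_Mas) thm_Let thm_Nrm thm_Mlp thm_Mat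

theorem fwb : St_Fwb := thm_Fwb (thm_Pat thm_Pca jid rla rlb) thm_Cov rla

theorem sbb : St_Sbb := thm_Sbb thm_Cov jid thm_Pca thm_Mas

theorem fnb : St_Fnb := thm_Fnb sbb thm_Nak thm_Jnl jid thm_Ppw thm_Pca

theorem cbd : St_Cbd :=
  thm_Cbd (thm_Cba sbb fnb jid thm_Pca vrt thm_Crg thm_Dlt eof)
    (thm_Cbb sbb fnb jid thm_Pca vrt thm_Crg thm_Dlt eof)
    (thm_Cbc sbb fnb jid thm_Pca vrt thm_Crg thm_Dlt eof) thm_Opp

theorem scc : St_Scc := thm_Scc jid rla thm_Jnl thm_Ppw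

theorem ccc : St_Ccc :=
  thm_Ccc scc (thm_Alc rla scc thm_Det) cnj thm_Nak thm_Jnl jid thm_Ppw thm_Crg thm_Dlt thm_Pws

theorem sdd : St_Sdd := thm_Sdd jid rla thm_Jnl thm_Ppw

theorem cdd : St_Cdd :=
  thm_Cdd sdd (thm_Ald rla sdd thm_Det) cnj thm_Nak thm_Jnl jid thm_Ppw thm_Crg thm_Dlt thm_Pws

theorem ctr : St_Ctr := thm_Ctr thm_Crg thm_Dlt eof thm_Rnk thm_Trf

theorem asm : St_Asm :=
  thm_Asm thm_Sir thm_Opp twg cm1 cm2 cm3 (thm_Ctr thm_Crg thm_Dlt eof thm_Rnk thm_Trf) fwa fwb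
    (thm_Caa thm_Cov jid thm_Pca vrt thm_Crg thm_Dlt eof) cbd ccc cdd (thm_Evn thm_Pws)

/-- The classification. -/
theorem main (n : ℕ) (hn : 4 ≤ n) (R : Type) [NonUnitalRing R] [Finite R] (hM : CRR.InM n R)
    (h0 : ∃ g : R, g * g = g ∧ g ≠ 0)
    (h1 : Twn R ∨ FC R ∨ Even n ∨ (Nat.card R).Coprime (n - 3)) :
    CRR.Critical R ↔ MatType R 2 ∨ MatType R 3 ∨ TriType R ∨ TriType Rᵐᵒᵖ ∨
      (¬ Twn R ∧ (MatType R 1 ∨ TyA R ∨ TyB R ∨ TyC R ∨ TyC Rᵐᵒᵖ ∨ TyD R)) := by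
  obtain ⟨a1, a2, a3⟩ := asm n hn R hM
  by_cases hT : Twn R
  · constructor
    · intro hc
      rcases (a1 hT).1 hc with h | h | h | h
      · exact Or.inl h
      · exact Or.inr (Or.inl h)
      · exact Or.inr (Or.inr (Or.inl h))
      · exact Or.inr (Or.inr (Or.inr (Or.inl h)))
    · rintro (h | h | h | h | h)
      · exact (a1 hT).2 (Or.inl h)
      · exact (a1 hT).2 (Or.inr (Or.inl h))
      · exact (a1 hT).2 (Or.inr (Or.inr (Or.inl h)))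
      · exact (a1 hT).2 (Or.inr (Or.inr (Or.inr h)))
      · exact absurd hT h.1
  · have hF : FC R := by
      rcases h1 with h | h | h
      · exact absurd h hT
      · exact h
      · exact (a3 h).1
    have : Finite Rᵐᵒᵖ := Finite.of_equiv R MulOpposite.opEquiv
    constructor
    · intro hc
      exact Or.inr (Or.inr (Or.inr (Or.inr ⟨hT, (a2 hT hF h0).1 hc⟩)))
    · rintro (h | h | h | h | h)
      · exact cm2 n hn R hM h
      · exact cm3 n hn R hM h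
      · exact ctr n hn R hM h
      · exact (thm_Opp R).1 (ctr n hn Rᵐᵒᵖ ((thm_Opp R).2.1 n hM) h)
      · exact (a2 hT hF h0).2 h.2

end Pool.Agent.CRN
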