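import Pool.Agent.CRN.St

/-!
Campaign CRN, module Pat (helper25): the words which are not zero.
-/

set_option autoImplicit false

namespace Pool.Agent.CRN

open Pool.Agent.CRR

section

variable {R : Type} [NonUnitalRing R]

theorem Pat_cons (x : R) {l : List R} (hl : l ≠ []) : wp (x :: l) = x * wp l := by
  cases l with
  | nil => exact absurd rfl hl
  | cons y t => rfl

theorem Pat_head (y : R) (t : List R) : ∃ f : R → R, (∀ x, x * wp (y :: t) = f (x * y)) ∧
    f 0 = 0 := by
  cases t with
  | nil => exact ⟨fun z => z, fun x => rfl, rfl⟩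
  | cons z t =>
    refine ⟨fun w => w * wp (z :: t), fun x => ?_, zero_mul _⟩
    change x * (y * wp (z :: t)) = x * y * wp (z :: t)
    rw [mul_assoc]

theorem Pat_xy {x y : R} (t : List R) (h : x * y = 0) : wp (x :: y :: t) = 0 := by
  obtain ⟨f, hf, hf0⟩ := Pat_head y t
  rw [Pat_cons x (List.cons_ne_nil _ _), hf, h, hf0]

theorem Pat_xyz {x y z : R} (t : List R) (h : x * y * z = 0) : wp (x :: y :: z :: t) = 0 := by
  obtain ⟨f, hf, hf0⟩ := Pat_head z t
  rw [Pat_cons x (List.cons_ne_nil _ _), Pat_cons y (List.cons_ne_nil _ _), ← mul_assoc, hf, h,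
    hf0]

theorem Pat_app (l₁ l₂ : List R) (h₁ : l₁ ≠ []) (h₂ : l₂ ≠ []) :
    wp (l₁ ++ l₂) = wp l₁ * wp l₂ := by
  induction l₁ with
  | nil => exact absurd rfl h₁
  | cons x l ih =>
    rcases eq_or_ne l [] with rfl | hl
    · exact Pat_cons x h₂
    · rw [List.cons_append, Pat_cons x (by simp [hl]), ih hl, Pat_cons x hl, mul_assoc]

end

section

variable {R : Type} [NonUnitalRing R] {s : ℕ} {e : Fin s → R}

theorem Pat_loops (h : ∀ x y, Pc e none none x → Pc e none none y → Pc e none none (x * y))
    (l : List R) (hl : l ≠ []) (ha : ∀ a ∈ l, Pc e none none a) : Pc e none none (wp l) := by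
  induction l with
  | nil => exact absurd rfl hl
  | cons x t ih =>
    rcases eq_or_ne t [] with rfl | ht
    · exact ha x (by simp)
    · rw [Pat_cons x ht]
      exact h _ _ (ha x (by simp)) (ih ht fun a hat => ha a (List.mem_cons_of_mem _ hat))

end

theorem thm_Pat (hP : St_Pca) (hJ : St_Jid) (hA : St_Rla) (hB : St_Rlb) : St_Pat := by
  intro n R _ _ s e hC l
  have hcomp := (hP R s e (fun i => (hC.fam.fld i).1) hC.fam.orth).1
  have hjid := (hJ n R s e hC).2.2.2.1
  have hrla := hA n R s e hC
  obtain ⟨hb1, hb2, hb3⟩ := hB n R s e hC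
  have hcomp' : ∀ α β γ δ x y (t : List R), Pc e α β x → Pc e γ δ y →
      wp (x :: y :: t) ≠ 0 → β = γ := by
    intro α β γ δ x y t hx hy hne
    by_contra hbg
    exact hne (Pat_xy t ((hcomp α β γ δ x y hx hy).2 hbg))
  have hloop : ∀ x y, Pc e none none x → Pc e none none y → Pc e none none (x * y) :=
    fun x y hx hy => (hcomp _ _ _ _ x y hx hy).1 rfl
  induction l with
  | nil =>
    intro _ hne
    exact absurd rfl hne
  | cons x l' ih =>
    intro hty hne
    obtain ⟨α, β, hx, hαβ⟩ := hty x (by simp)
    rcases eq_or_ne l' [] with rfl | hl'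
    · -- one letter
      rcases α with _ | i
      · rcases β with _ | j
        · right; right; right; right; right
          intro a ha
          rw [List.mem_singleton.1 ha]
          exact hx
        · right; right; right; left
          exact ⟨x, j, [], rfl, hx, by simp⟩
      · rcases β with _ | j
        · right; right; left
          exact ⟨x, i, [], rfl, hx, by simp⟩
        · left
          refine ⟨x, i, j, ?_, rfl, hx⟩
          rintro rfl
          exact absurd (hαβ rfl) (by simp)
    have hne' : wp l' ≠ 0 := by
      intro h0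
      rw [Pat_cons x hl', h0, mul_zero] at hne
      exact hne rfl
    have hcases := ih (fun y hy => hty y (List.mem_cons_of_mem _ hy)) hne'
    clear ih hne'
    rcases hcases with ⟨y, i, j, hij, rfl, hy⟩ | ⟨y, z, b', g, d, h1, h2, h3, rfl, hy, hz⟩ |
      ⟨c, i, t, rfl, hc, ht⟩ | ⟨b, i, t, rfl, hb, ht⟩ | ⟨b, c, i, t, t', rfl, hb, hc, ht, ht'⟩ | ht
    · -- an arrow between two idempotents
      have hβ := hcomp' _ _ _ _ _ _ _ hx hy hne
      subst hβ
      have hα : α ≠ some i := fun h => absurd (hαβ h) (by rw [h]; simp)
      have hα' : α ≠ some j := by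
        rintro rfl
        refine hne (Pat_xy [] (hjid j (some i) x y ?_ hx hy))
        exact hα.symm
      right; left
      exact ⟨x, y, α, some i, some j, hα, fun h => hij (Option.some.inj h), hα', rfl, hx, hy⟩
    · have hβ := hcomp' _ _ _ _ _ _ _ hx hy hne
      subst hβ
      exfalso
      by_cases hα : α = β
      · have hα0 := hαβ hα
        subst hα
        subst hα0
        rcases g with _ | i
        · exact h1 rfl
        · exact hne (Pat_xyz [] (hb2 i d x y z h3.symm h2.symm hx hy hz))
      · exact hne (Pat_xyz [] (hb1 _ _ _ _ x y z hα h1 h2 hx hy hz))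
    · have hβ := hcomp' _ _ _ _ _ _ _ hx hc hne
      subst hβ
      have hα : α ≠ some i := fun h => absurd (hαβ h) (by rw [h]; simp)
      rcases α with _ | j
      · right; right; right; right; left
        exact ⟨x, c, i, [], t, rfl, hx, hc, by simp, ht⟩
      · rcases t with _ | ⟨a, t⟩
        · right; left
          exact ⟨x, c, some j, some i, none, hα, by simp, by simp, rfl, hx, hc⟩
        · exfalso
          exact hne (Pat_xyz t (hb3 i (some j) a c x (by simp) hα (ht a (by simp)) hc hx))
    · have hβ : β = none := by
        rcases t with _ | ⟨a, t⟩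
        · exact hcomp' _ _ _ _ _ _ _ hx hb hne
        · exact hcomp' _ _ _ _ _ _ _ hx (ht a (by simp)) hne
      subst hβ
      rcases α with _ | j
      · right; right; right; left
        refine ⟨b, i, x :: t, rfl, hb, ?_⟩
        intro a ha
        rcases List.mem_cons.1 ha with rfl | ha
        · exact hx
        · exact ht a ha
      · rcases eq_or_ne t [] with rfl | ht0
        · right; left
          refine ⟨x, b, some j, none, some i, by simp, by simp, ?_, rfl, hx, hb⟩
          rintro h
          rw [Option.some.inj h] at hx
          exact hne (Pat_xy [] (hjid i none x b (by simp) hx hb))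
        · exfalso
          apply hne
          have hw := Pat_loops hloop t ht0 ht
          rw [Pat_cons x (by simp), Pat_app t [b] ht0 (by simp), ← mul_assoc]
          exact (hrla (wp t) (wp t) 0 b x j i hw hw
            (⟨fun k => by simp, fun k => by simp⟩ : Pc e none (some j) 0) hb hx).2.2.2.2.2.1
    · have hβ : β = none := by
        rcases t with _ | ⟨a, t⟩
        · exact hcomp' _ _ _ _ _ _ _ hx hb hne
        · exact hcomp' _ _ _ _ _ _ _ hx (ht a (by simp)) hne
      subst hβ
      rcases α with _ | j
      · right; right; right; right; left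
        refine ⟨b, c, i, x :: t, t', rfl, hb, hc, ?_, ht'⟩
        intro a ha
        rcases List.mem_cons.1 ha with rfl | ha
        · exact hx
        · exact ht a ha
      · exfalso
        rcases eq_or_ne t [] with rfl | ht0
        · exact hne (Pat_xyz t' (hb1 (some j) none (some i) none x b c (by simp) (by simp)
            (by simp) hx hb hc))
        · apply hne
          have hw := Pat_loops hloop t ht0 ht
          obtain ⟨f, hf, hf0⟩ := Pat_head b (c :: t')
          rw [Pat_cons x (by simp), Pat_app t _ ht0 (by simp), ← mul_assoc, hf]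
          have h0 : x * wp t * b = 0 := (hrla (wp t) (wp t) 0 b x j i hw hw
            (⟨fun k => by simp, fun k => by simp⟩ : Pc e none (some j) 0) hb hx).2.2.2.2.2.1
          rw [h0, hf0]
    · obtain ⟨y, t, rfl⟩ := List.exists_cons_of_ne_nil hl'
      have hβ := hcomp' _ _ _ _ _ _ _ hx (ht y (by simp)) hne
      subst hβ
      rcases α with _ | j
      · right; right; right; right; right
        intro a ha
        rcases List.mem_cons.1 ha with rfl | ha
        · exact hx
        · exact ht a ha
      · right; right; left
        exact ⟨x, j, y :: t, rfl, hx, ht⟩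

end Pool.Agent.CRN
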