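import Pool.Agent.CRN.Ccc

/-!
Campaign CRN, module Cdd: the rings of type `TyD` are critical.
-/

set_option autoImplicit false

namespace Pool.Agent.CRN

open Pool.Agent.CRR

section cdd

variable {R : Type} [NonUnitalRing R]

theorem cdd_pll_congr {y : R} {a b : ℕ → R} (k : ℕ) (h : ∀ l, l < k → a l = b l) :
    pll a y k = pll b y k := by
  induction k with
  | zero => rfl
  | succ k ih =>
    change a k * pll a y k = b k * pll b y k
    rw [ih fun l hl => h l (Nat.lt_succ_of_lt hl), h k (Nat.lt_succ_self k)]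

theorem cdd_pll_zero (a : ℕ → R) (k : ℕ) : pll a 0 k = 0 := by
  induction k with
  | zero => rfl
  | succ k ih =>
    change a k * pll a 0 k = 0
    rw [ih, mul_zero]

theorem cdd_TmF_pll {c : (ℕ → R) → R} {x : ℕ → (ℕ → R) → R} (hc : TmF c)
    (hx : ∀ l, TmF (x l)) (k : ℕ) : TmF (fun v => pll (fun l => x l v) (c v) k) := by
  induction k with
  | zero => exact hc
  | succ k ih => exact (hx k).mul ih

/-- The values of the variables: `v 0`, `v 1`, `v 2`, `v 3` and `v (4 + l)`. -/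
def cdd_v (x y z w : R) (a : ℕ → R) : ℕ → R
  | 0 => x
  | 1 => y
  | 2 => z
  | 3 => w
  | l + 4 => a l

end cdd

theorem thm_Cdd (hSdd : St_Sdd) (hAld : St_Ald) (hCnj : St_Cnj) (hNak : St_Nak) (hJnl : St_Jnl)
    (hJid : St_Jid) (hPpw : St_Ppw) (hCrg : St_Crg) (hDlt : St_Dlt) (hPws : St_Pws) : St_Cdd := by
  rintro n hn R _ _ hM hF hT ⟨⟨H, hH⟩, e, b, c, k, a, hfam, hb1, hb2, hc1, hc2, ha, hne, hgen⟩
  have hc : Cx n R 1 (fun _ => e) := ⟨hn, hM, hF, hT, hfam⟩
  have he : Fld R e := hfam.fld 0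
  have hTD : TD e b c k a := ⟨⟨hb1, hb2⟩, ⟨hc1, hc2⟩, ha, hne, hgen⟩
  obtain ⟨p, r, hp, hpr, hpe⟩ := hPpw R H hH
  obtain ⟨-, s2, s3, -, -, -⟩ := hSdd n R e hc H hH b c k a hTD
  have hal := hAld n R e hc H hH b c k a hTD p r hp hpr (hpe e he)
  obtain ⟨d1, d2, d3, d4, d5⟩ := hDlt R e he
  have hee := he.1
  have hF1 : ∀ x : R, e * (e * x * e) = e * x * e := fun x => by
    rw [← mul_assoc, ← mul_assoc, hee]
  have hF2 : ∀ x : R, e * x * e * e = e * x * e := fun x => by rw [mul_assoc, hee]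
  have hB : ∀ x y : R, InB e ((y * e - e * y * e) * dq e (e * x * e)) := by
    intro x y
    constructor
    · rw [← mul_assoc, mul_sub, hF1, ← mul_assoc, sub_self, zero_mul]
    · rw [mul_assoc, d4 e _ (hF2 x)]
  have hC : ∀ y : R, InC e (e * y - e * y * e) := by
    intro y
    constructor
    · rw [mul_sub, hF1, ← mul_assoc, hee]
    · rw [sub_mul, hF2, sub_self]
  refine ccc_red hPws hCnj hCrg hc hH (fun v => pll (fun l => ct (om n (v 0)) (v (4 + l)))
    ((v 2 * om n (v 0) - om n (v 0) * v 2 * om n (v 0)) * dq e (om n (v 0) * v 1 * om n (v 0)) *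
    (om n (v 0) * v 3 - om n (v 0) * v 3 * om n (v 0))) k)
    ?_ ?_ ?_ ?_ ?_
  · have hE := (TmF.var (R := R) 0).om n
    exact cdd_TmF_pll (((((TmF.var 2).mul hE).sub ((hE.mul (TmF.var 2)).mul hE)).mul
      (((hE.mul (TmF.var 1)).mul hE).dq e)).mul
      ((hE.mul (TmF.var 3)).sub ((hE.mul (TmF.var 3)).mul hE)))
      (x := fun l v => ct (om n (v 0)) (v (4 + l))) (fun l => hE.ct (TmF.var (4 + l))) k
  · intro v hv
    simp only [hv, zero_mul, sub_self, mul_zero]
    exact cdd_pll_zero _ _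
  · intro v hv
    simp only [hv]
    exact (hal _ _ _ (hB _ _) (hC _) fun i => ccc_ct hee _).1
  · intro S v hv hS h
    simp only [hv] at h
    have heS : e ∈ S := hv ▸ ccc_om_mem (hS 0)
    set t := e * v 1 * e with ht
    set b' := (v 2 * e - e * v 2 * e) * dq e t with hb'
    set c' := e * v 3 - e * v 3 * e with hc'
    have hbB : InB e b' := hB _ _
    have hcC : InC e c' := hC _
    have htS : t ∈ S := S.mul_mem (S.mul_mem heS (hS 1)) heS
    have hd : dq e t ≠ 0 := by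
      intro hd
      apply h
      rw [hb', hd, mul_zero, zero_mul]
      exact cdd_pll_zero _ _
    have hcl : NonUnitalSubring.closure {t} ≤ S := by
      rw [NonUnitalSubring.closure_le]
      rintro _ rfl
      exact htS
    have hFS : ∀ x, e * x = x → x * e = x → x ∈ S := fun x h1 h2 =>
      hcl (d2 t (hF1 _) (hF2 _) hd x h1 h2)
    obtain ⟨hI, htop⟩ := ccc_top hNak hJnl hJid hc hpr S hFS
    set J := JJ (fun _ : Fin 1 => e) with hJ
    set I := fr S J p with hIdef
    have hbS : b' ∈ S := S.mul_mem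
      (S.sub_mem (S.mul_mem (hS 2) heS) (S.mul_mem (S.mul_mem heS (hS 2)) heS)) (hcl (d5 t))
    have hcS : c' ∈ S :=
      S.sub_mem (S.mul_mem heS (hS 3)) (S.mul_mem (S.mul_mem heS (hS 3)) heS)
    obtain ⟨hA', ⟨f, hf, hf0, hr⟩, ⟨f₁, hf₁, hf₁0, hr₁⟩⟩ :=
      (hal b' c' (fun l => ct e (v (4 + l))) hbB hcC fun i => ccc_ct hee _).2 h
    -- `A ⊆ I`
    have hAI : ∀ x, InA e x → x ∈ I := by
      intro x hx
      refine ((AddSubgroup.closure_le I).mpr ?_) (hA' x hx)
      rintro w (((⟨l, -, rfl⟩ | ⟨x', x'', h', h'', rfl⟩) | ⟨x', x'', h', h'', rfl⟩) |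
        ⟨x', h', rfl⟩)
      · refine ccc_fr_S ?_ (ccc_JA (ccc_ct hee _))
        exact S.add_mem (S.sub_mem (S.sub_mem (hS _) (S.mul_mem heS (hS _)))
          (S.mul_mem (hS _) heS)) (S.mul_mem (S.mul_mem heS (hS _)) heS)
      · exact ccc_fr_mul (ccc_JA h') (ccc_JA h'')
      · exact ccc_fr_mul (ccc_JB h') (ccc_JC h'')
      · exact ccc_fr_smul (ccc_JA h')
    -- `b ∈ I`
    have hbI : b ∈ I := by
      have hrI : b' - b * f ∈ I := ccc_closure_le (I := I) (fun x y hx hy =>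
        ccc_fr_mul (ccc_JA hx) (ccc_JB hy)) hr
      have hbf : b * f ∈ I := by
        have := I.sub_mem (ccc_fr_S (S := S) (J := J) (p := p) hbS (ccc_JB hbB)) hrI
        simpa using this
      obtain ⟨f', -, -, hf', -⟩ := ccc_inv he hf.1 hf.2 hf0
      have := (hI f' _ hbf).2
      rwa [mul_assoc, hf', hb2] at this
    have hcI : c ∈ I := by
      have hrI : c' - f₁ * c ∈ I := ccc_closure_le (I := I) (fun x y hx hy =>
        ccc_fr_mul (ccc_JC hx) (ccc_JA hy)) hr₁
      have hfc : f₁ * c ∈ I := by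
        have := I.sub_mem (ccc_fr_S (S := S) (J := J) (p := p) hcS (ccc_JC hcC)) hrI
        simpa using this
      obtain ⟨f', -, -, -, hf'⟩ := ccc_inv he hf₁.1 hf₁.2 hf₁0
      have := (hI f' _ hfc).1
      rwa [← mul_assoc, hf', hc1] at this
    have hBI : ∀ x, InB e x → x ∈ I := by
      intro x hx
      obtain ⟨f, hf, hr⟩ := s3 x hx
      have hrI : x - b * f ∈ I := ccc_closure_le (I := I) (fun x y hx hy =>
        ccc_fr_mul (ccc_JA hx) (ccc_JB hy)) hr
      have := I.add_mem hrI (hI f b hbI).2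
      simpa using this
    have hCI : ∀ x, InC e x → x ∈ I := by
      intro x hx
      obtain ⟨f, hf, hr⟩ := s2 x hx
      have hrI : x - f * c ∈ I := ccc_closure_le (I := I) (fun x y hx hy =>
        ccc_fr_mul (ccc_JC hx) (ccc_JA hy)) hr
      have := I.add_mem hrI (hI f c hcI).1
      simpa using this
    apply htop
    intro x hx
    have hx0 : e * x * e = 0 := hx 0
    have h1 : e * x ∈ I := hCI _ ⟨by rw [← mul_assoc, hee], hx0⟩
    have h2 : x * e ∈ I := hBI _ ⟨by rw [← mul_assoc, hx0], by rw [mul_assoc, hee]⟩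
    have h3 : x - e * x - x * e ∈ I := hAI _ ⟨by
      rw [mul_sub, mul_sub, ← mul_assoc, hee, sub_self, ← mul_assoc, hx0, sub_zero], by
      rw [sub_mul, sub_mul, hx0, sub_zero, mul_assoc, hee, sub_self]⟩
    have := I.add_mem (I.add_mem h3 h2) h1
    simpa using this
  · obtain ⟨t, ht1, ht2, hd⟩ := d1
    have hdF : e * dq e t = dq e t ∧ dq e t * e = dq e t := ⟨d3 e t ht1, d4 e t ht2⟩
    obtain ⟨w, hw1, hw2, -, hw⟩ := ccc_inv he hdF.1 hdF.2 hd
    refine ⟨cdd_v e t (b * w) c a, ?_⟩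
    have hom : om n e = e := (hPws n hn R hM e).2.2.2.2.2.2.2.2.2.1 hee
    have hv : ∀ l, cdd_v e t (b * w) c a (4 + l) = a l := fun l => by rw [add_comm]; rfl
    change pll (fun l => ct (om n e) (cdd_v e t (b * w) c a (4 + l)))
      ((b * w * om n e - om n e * (b * w) * om n e) * dq e (om n e * t * om n e) *
      (om n e * c - om n e * c * om n e)) k ≠ 0
    have hbw : (b * w * e - e * (b * w) * e) * dq e t = b := by
      rw [← mul_assoc e, hb1, zero_mul, zero_mul, sub_zero, mul_assoc b, hw2, mul_assoc, hw, hb2]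
    simp only [hom, hv, ht1, ht2, hc1, hc2, sub_zero, hbw]
    rw [cdd_pll_congr k (fun l hl => ccc_ct_A (ha l hl))]
    exact hne

end Pool.Agent.CRN
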