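import Pool.Agent.CRR.Basic

/-!
Campaign CRN: noncommutative critical rings in the varieties `x^3 = x^n` (problem MP_1bb14d_al).
Definitions.
-/

set_option autoImplicit false

namespace Pool.Agent.CRN

open Pool.Agent.CRR

section defs

variable (R : Type) [NonUnitalRing R]

/-- `I` is a two-sided ideal of `R`. -/
def Idl (I : AddSubgroup R) : Prop := ∀ r : R, ∀ x ∈ I, r * x ∈ I ∧ x * r ∈ I

/-- `H` is the least nonzero ideal of `R`. -/
def Lst (H : AddSubgroup R) : Prop :=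
  Idl R H ∧ H ≠ ⊥ ∧ ∀ I : AddSubgroup R, Idl R I → I ≠ ⊥ → H ≤ I

/-- `e ≠ 0` is an idempotent and `eRe` is a division ring (so a field if `R` is finite). -/
def Fld (e : R) : Prop :=
  e * e = e ∧ e ≠ 0 ∧ ∀ x, e * x = x → x * e = x → x ≠ 0 → ∃ y, e * y = y ∧ y * e = y ∧ x * y = e

/-- `e` is a primitive idempotent. -/
def Prm (e : R) : Prop :=
  e * e = e ∧ e ≠ 0 ∧ ∀ g, g * g = g → e * g = g → g * e = g → g = 0 ∨ g = e

/-- `eRe` is a field for every primitive idempotent `e`. -/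
def FC : Prop := ∀ e : R, Prm R e → Fld R e

/-- `R` has a regular element `a = a b a` with `a^2 = 0`, `a ≠ 0` (equivalently, if `R` is finite:
`R / J(R)` is not commutative). -/
def Twn : Prop := ∃ a b : R, a * a = 0 ∧ a * b * a = a ∧ a ≠ 0

/-- A maximal family of orthogonal idempotents `e_i` such that the `e_i R e_i` are fields. -/
structure Fam (s : ℕ) (e : Fin s → R) : Prop where
  fld : ∀ i, Fld R (e i)
  orth : ∀ i j, i ≠ j → e i * e j = 0
  max : ∀ g : R, g * g = g → (∀ i, e i * g = 0 ∧ g * e i = 0) → g = 0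

/-- `R` is isomorphic to the ring of matrices of size `k` over a finite field. -/
def MatType (k : ℕ) : Prop :=
  ∃ (F : Type) (_ : Field F) (_ : Finite F), Nonempty (R ≃+* Matrix (Fin k) (Fin k) F)

/-- `R = [M_2(F) M; 0 D]` with a finite field `F`, `D = 0` or a field, and `M` is the least nonzero
ideal of `R`: `φ` is an isomorphism from `M_2(F)` onto `e R e`, `e = φ 1`, one has
`(1 - e) R e = 0`, `f` is the identity of `D = (1 - e) R (1 - e)`, and `M = e R (1 - e)`. -/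
def TriType : Prop :=
  ∃ (F : Type) (_ : Field F) (_ : Finite F) (φ : Matrix (Fin 2) (Fin 2) F →ₙ+* R) (f : R)
    (H : AddSubgroup R), Function.Injective φ ∧
    (∀ x : R, φ 1 * x = x → x * φ 1 = x → ∃ A, φ A = x) ∧ (∀ x : R, x * φ 1 = φ 1 * x * φ 1) ∧
    (f = 0 ∨ Fld R f) ∧ φ 1 * f = 0 ∧ f * φ 1 = 0 ∧
    (∀ x : R, φ 1 * x = 0 → x * φ 1 = 0 → f * x = x ∧ x * f = x) ∧
    Lst R H ∧ ∀ x : R, x ∈ H ↔ φ 1 * x = x ∧ x * φ 1 = 0

variable {R}

/-- `x` is in `e_α R e_β`; the vertices are the indices `i` and `none`, `e_none = 1 - ∑ e_i`. -/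
def Pc {s : ℕ} (e : Fin s → R) (α β : Option (Fin s)) (x : R) : Prop :=
  (∀ i, e i * x = if α = some i then x else 0) ∧ ∀ j, x * e j = if β = some j then x else 0

/-- The subgroup generated by the products `x' x x''` with `x'` in `eRe`, `x''` in `fRf`. -/
def Bm (e f x : R) : AddSubgroup R :=
  AddSubgroup.closure {w | ∃ a b, w = (e * a * e) * x * (f * b * f)}

/-- `(eRe) x (fRf)` is a simple bimodule (or zero). -/
def Smp (e f x : R) : Prop := ∀ w ∈ Bm e f x, w ≠ 0 → x ∈ Bm e f w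

/-- The union of the fields `e_i R e_i`. -/
def G0 {s : ℕ} (e : Fin s → R) : Set R := {x | ∃ i, e i * x = x ∧ x * e i = x}

/-- `z a_0 a_1 ... a_(k-1)`. -/
def prr (z : R) (a : ℕ → R) : ℕ → R
  | 0 => z
  | k + 1 => prr z a k * a k

/-- `a_(k-1) ... a_1 a_0 y`. -/
def pll (a : ℕ → R) (y : R) : ℕ → R
  | 0 => y
  | k + 1 => a k * pll a y k

variable (R)

/-- Two fields and one generator: `R` has a least nonzero ideal, it is generated by the fields
`e_m R e_m` and an element `z ≠ 0` of `e_i R e_j`, `i ≠ j`, such that `(e_i R e_i) z (e_j R e_j)` is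
simple. -/
def TyA : Prop := (∃ H, Lst R H) ∧ ∃ (s : ℕ) (e : Fin s → R) (i j : Fin s) (z : R), Fam R s e ∧
  i ≠ j ∧ z ≠ 0 ∧ Pc e (some i) (some j) z ∧ Smp (e i) (e j) z ∧
  NonUnitalSubring.closure (G0 e ∪ {z}) = ⊤

/-- Three vertices (at most one of them is `none`) and two generators: `R` has a least nonzero
ideal, it is generated by the fields `e_m R e_m` and elements `z` of `e_α R e_β`, `z'` of
`e_β R e_γ`, which generate simple bimodules, and `z z' ≠ 0`; `α, β, γ` are different. -/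
def TyB : Prop := (∃ H, Lst R H) ∧ ∃ (s : ℕ) (e : Fin s → R) (α β γ : Option (Fin s)) (z z' : R),
  Fam R s e ∧ α ≠ β ∧ β ≠ γ ∧ α ≠ γ ∧ z * z' ≠ 0 ∧ Pc e α β z ∧ Pc e β γ z' ∧
  (∀ i j, α = some i → β = some j → Smp (e i) (e j) z) ∧
  (∀ i j, β = some i → γ = some j → Smp (e i) (e j) z') ∧
  NonUnitalSubring.closure (G0 e ∪ {z, z'}) = ⊤

/-- One field: `R` has a least nonzero ideal, it is generated by the field `eRe`, an element `z` of
`e R (1 - e)` and elements `a_l` of `(1 - e) R (1 - e)`, `l < k`, such that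
`z a_0 ... a_(k-1) ≠ 0`. -/
def TyC : Prop := (∃ H, Lst R H) ∧ ∃ (e z : R) (k : ℕ) (a : ℕ → R), Fam R 1 (fun _ => e) ∧
  e * z = z ∧ z * e = 0 ∧ (∀ l, l < k → e * a l = 0 ∧ a l * e = 0) ∧ prr z a k ≠ 0 ∧
  NonUnitalSubring.closure ({x | e * x = x ∧ x * e = x} ∪ {z} ∪ {x | ∃ l, l < k ∧ x = a l}) = ⊤

/-- One field: `R` has a least nonzero ideal, it is generated by the field `eRe`, elements `b` of
`(1 - e) R e`, `c` of `e R (1 - e)` and `a_l` of `(1 - e) R (1 - e)`, `l < k`, such that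
`a_(k-1) ... a_0 b c ≠ 0`. -/
def TyD : Prop := (∃ H, Lst R H) ∧ ∃ (e b c : R) (k : ℕ) (a : ℕ → R), Fam R 1 (fun _ => e) ∧
  e * b = 0 ∧ b * e = b ∧ e * c = c ∧ c * e = 0 ∧ (∀ l, l < k → e * a l = 0 ∧ a l * e = 0) ∧
  pll a (b * c) k ≠ 0 ∧
  NonUnitalSubring.closure ({x | e * x = x ∧ x * e = x} ∪ {b, c} ∪ {x | ∃ l, l < k ∧ x = a l}) = ⊤

end defs

/-! ### Definitions used only in the proofs -/

section aux

variable {R : Type} [NonUnitalRing R]

/-- `x_0 x_1 ... x_k`. -/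
def prn (x : ℕ → R) : ℕ → R
  | 0 => x 0
  | k + 1 => prn x k * x (k + 1)

/-- The product of the elements of a list (0 for the empty list). -/
def wp : List R → R
  | [] => 0
  | [x] => x
  | x :: y :: l => x * wp (y :: l)

/-- `x^(3(n-3))`, an idempotent. -/
def om (n : ℕ) (x : R) : R := pw x (3 * (n - 3) - 1)

/-- `(1 - g) x (1 - g)`. -/
def ct (g x : R) : R := x - g * x - x * g + g * x * g

/-- The sums of the first idempotents `Eo n u 0, Eo n u 1, ...`. -/
def Es (n : ℕ) (u : ℕ → R) : ℕ → R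
  | 0 => 0
  | i + 1 => Es n u i + om n (ct (Es n u i) (u i))

/-- Orthogonal idempotents, as terms in `u_0, u_1, ...`. -/
def Eo (n : ℕ) (u : ℕ → R) (i : ℕ) : R := om n (ct (Es n u i) (u i))

/-- `t ∏ (t^i - t^(q-1))`, `0 < i ≤ j`. -/
def dl (q : ℕ) (t : R) : ℕ → R
  | 0 => t
  | j + 1 => dl q t j * (pw t j - pw t (q - 2))

/-- The order of the field `eRe`. -/
noncomputable def qc (e : R) : ℕ := Nat.card {x : R // e * x = x ∧ x * e = x}

/-- `t ∏ (t^i - t^(q-1))`, `0 < i < q - 1`, `q` the order of `eRe`. -/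
noncomputable def dq (e t : R) : R := dl (qc e) t (qc e - 2)

/-- Term functions on `R`. -/
def TmF (φ : (ℕ → R) → R) : Prop := ∃ t : RTerm, ∀ v, t.eval v = φ v

theorem TmF.var (i : ℕ) : TmF (R := R) (fun v => v i) := ⟨.var i, fun _ => rfl⟩

theorem TmF.add {φ ψ : (ℕ → R) → R} (h : TmF φ) (h' : TmF ψ) : TmF (fun v => φ v + ψ v) := by
  obtain ⟨t, ht⟩ := h
  obtain ⟨t', ht'⟩ := h'
  exact ⟨.add t t', fun v => by simp [RTerm.eval, ht, ht']⟩

theorem TmF.neg {φ : (ℕ → R) → R} (h : TmF φ) : TmF (fun v => -(φ v)) := by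
  obtain ⟨t, ht⟩ := h
  exact ⟨.neg t, fun v => by simp [RTerm.eval, ht]⟩

theorem TmF.sub {φ ψ : (ℕ → R) → R} (h : TmF φ) (h' : TmF ψ) : TmF (fun v => φ v - ψ v) := by
  simpa only [sub_eq_add_neg] using h.add h'.neg

theorem TmF.mul {φ ψ : (ℕ → R) → R} (h : TmF φ) (h' : TmF ψ) : TmF (fun v => φ v * ψ v) := by
  obtain ⟨t, ht⟩ := h
  obtain ⟨t', ht'⟩ := h'
  exact ⟨.mul t t', fun v => by simp [RTerm.eval, ht, ht']⟩

theorem TmF.zero : TmF (R := R) (fun _ => 0) := by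
  simpa using (TmF.var (R := R) 0).sub (TmF.var 0)

theorem TmF.pw {φ : (ℕ → R) → R} (h : TmF φ) (k : ℕ) : TmF (fun v => CRR.pw (φ v) k) := by
  induction k with
  | zero => exact h
  | succ k ih => exact ih.mul h

theorem TmF.om {φ : (ℕ → R) → R} (h : TmF φ) (n : ℕ) : TmF (fun v => om n (φ v)) := h.pw _

theorem TmF.ct {φ ψ : (ℕ → R) → R} (h : TmF φ) (h' : TmF ψ) : TmF (fun v => ct (φ v) (ψ v)) :=
  (((h'.sub (h.mul h')).sub (h'.mul h)).add ((h.mul h').mul h))

theorem TmF.Es (n : ℕ) {u : ℕ → (ℕ → R) → R} (h : ∀ i, TmF (u i)) (i : ℕ) :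
    TmF (fun v => Es n (fun j => u j v) i) := by
  induction i with
  | zero => exact TmF.zero
  | succ i ih => exact ih.add ((ih.ct (h i)).om n)

theorem TmF.Eo (n : ℕ) {u : ℕ → (ℕ → R) → R} (h : ∀ i, TmF (u i)) (i : ℕ) :
    TmF (fun v => Eo n (fun j => u j v) i) := ((TmF.Es n h i).ct (h i)).om n

theorem TmF.dl (q : ℕ) {φ : (ℕ → R) → R} (h : TmF φ) (j : ℕ) :
    TmF (fun v => CRN.dl q (φ v) j) := by
  induction j with
  | zero => exact h
  | succ j ih => exact ih.mul ((h.pw j).sub (h.pw (q - 2)))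

theorem TmF.dq (e : R) {φ : (ℕ → R) → R} (h : TmF φ) : TmF (fun v => CRN.dq e (φ v)) :=
  TmF.dl _ h _

/-- A term function commutes with automorphisms. -/
theorem TmF.map {φ : (ℕ → R) → R} (h : TmF φ) (θ : R ≃+* R) (v : ℕ → R) :
    φ (fun i => θ (v i)) = θ (φ v) := by
  obtain ⟨t, ht⟩ := h
  rw [← ht, ← ht]
  exact (eval_map (θ : R →ₙ+* R) v t).symm

/-- The values of a term function are in every subring which contains the arguments. -/
theorem TmF.mem {φ : (ℕ → R) → R} (h : TmF φ) (S : NonUnitalSubring R) (v : ℕ → R)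
    (hv : ∀ i, v i ∈ S) : φ v ∈ S := by
  obtain ⟨t, ht⟩ := h
  rw [← ht]
  have := eval_coe S (fun i => ⟨v i, hv i⟩) t
  rw [← this]
  exact Subtype.mem _

/-- The radical: the elements with `e_i x e_i = 0` for all `i`. -/
def JJ {s : ℕ} (e : Fin s → R) : AddSubgroup R where
  carrier := {x | ∀ i, e i * x * e i = 0}
  zero_mem' := fun i => by simp
  add_mem' := fun {x y} hx hy i => by rw [mul_add, add_mul, hx i, hy i, add_zero]
  neg_mem' := fun {x} hx i => by rw [mul_neg, neg_mul, hx i, neg_zero]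

/-- `(S ∩ J) + J^2 + p J`. -/
def fr (S : NonUnitalSubring R) (J : AddSubgroup R) (p : ℕ) : AddSubgroup R :=
  AddSubgroup.closure ({y | y ∈ S ∧ y ∈ J} ∪ {y | ∃ a ∈ J, ∃ b ∈ J, y = a * b} ∪
    {y | ∃ a ∈ J, y = p • a})

/-- The relations of the components in the presence of matrix units of size 2 (`e + f` is the
identity of `M_2`). -/
def Rcl (e f : R) : Prop := ∀ m l b : R, (e + f) * m = m → m * (e + f) = 0 → (e + f) * l = 0 →
  l * (e + f) = l → (e + f) * b = 0 → b * (e + f) = 0 → b * b * b = 0 →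
  m * l = 0 ∧ l * m = 0 ∧ m * b = 0 ∧ b * l = 0

/-- The homogeneous generators: nonzero elements of `e_α R e_β`, not in a field, which generate a
simple bimodule if `α`, `β` are not `none`. -/
def G1 {s : ℕ} (e : Fin s → R) : Set R :=
  {x | x ≠ 0 ∧ ∃ α β, Pc e α β x ∧ (α = β → α = none) ∧
    ∀ i j, α = some i → β = some j → Smp (e i) (e j) x}

/-- `z'` is `z` multiplied by elements of the fields. -/
def Mlt {s : ℕ} (e : Fin s → R) (z z' : R) : Prop :=
  z' = z ∨ (∃ f ∈ G0 e, z' = f * z) ∨ (∃ f ∈ G0 e, z' = z * f) ∨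
    ∃ f ∈ G0 e, ∃ f' ∈ G0 e, z' = f * z * f'

/-- Matrix units of size 2. -/
structure MU (e f u v : R) : Prop where
  ee : e * e = e
  ff : f * f = f
  ef : e * f = 0
  fe : f * e = 0
  eu : e * u = u
  uf : u * f = u
  fv : f * v = v
  ve : v * e = v
  uv : u * v = e
  vu : v * u = f
  ne : e ≠ 0

/-- A third idempotent. -/
structure M3 (e f g u' v' : R) : Prop where
  gg : g * g = g
  eg : e * g = 0
  ge : g * e = 0
  fg : f * g = 0
  gf : g * f = 0
  eu : e * u' = u'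
  ug : u' * g = u'
  gv : g * v' = v'
  ve : v' * e = v'
  uv : u' * v' = e
  vu : v' * u' = g

end aux

/-- `x ∈ A = (1 - e) R (1 - e)`. -/
def InA {R : Type} [NonUnitalRing R] (e x : R) : Prop := e * x = 0 ∧ x * e = 0

/-- `x ∈ C = e R (1 - e)`. -/
def InC {R : Type} [NonUnitalRing R] (e x : R) : Prop := e * x = x ∧ x * e = 0

/-- `x ∈ B = (1 - e) R e`. -/
def InB {R : Type} [NonUnitalRing R] (e x : R) : Prop := e * x = 0 ∧ x * e = x

/-- `x ∈ F = eRe`. -/
def InF {R : Type} [NonUnitalRing R] (e x : R) : Prop := e * x = x ∧ x * e = x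

/-- The data of `TyB`. -/
structure TB {R : Type} [NonUnitalRing R] {s : ℕ} (e : Fin s → R) (α β γ : Option (Fin s))
    (z z' : R) : Prop where
  ab : α ≠ β
  bg : β ≠ γ
  ag : α ≠ γ
  ne : z * z' ≠ 0
  hz : Pc e α β z
  hz' : Pc e β γ z'
  sz : ∀ i j, α = some i → β = some j → Smp (e i) (e j) z
  sz' : ∀ i j, β = some i → γ = some j → Smp (e i) (e j) z'
  gen : NonUnitalSubring.closure (G0 e ∪ {z, z'}) = ⊤

/-- The data of `TyC`. -/
structure TC {R : Type} [NonUnitalRing R] (e z : R) (k : ℕ) (a : ℕ → R) : Prop where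
  hz : InC e z
  ha : ∀ l, l < k → InA e (a l)
  ne : prr z a k ≠ 0
  gen : NonUnitalSubring.closure ({x | e * x = x ∧ x * e = x} ∪ {z} ∪
    {x | ∃ l, l < k ∧ x = a l}) = ⊤

/-- The data of `TyD`. -/
structure TD {R : Type} [NonUnitalRing R] (e b c : R) (k : ℕ) (a : ℕ → R) : Prop where
  hb : InB e b
  hc : InC e c
  ha : ∀ l, l < k → InA e (a l)
  ne : pll a (b * c) k ≠ 0
  gen : NonUnitalSubring.closure ({x | e * x = x ∧ x * e = x} ∪ {b, c} ∪
    {x | ∃ l, l < k ∧ x = a l}) = ⊤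

/-- The context without matrix units. -/
structure Cx (n : ℕ) (R : Type) [NonUnitalRing R] (s : ℕ) (e : Fin s → R) : Prop where
  n4 : 4 ≤ n
  inM : InM n R
  fc : FC R
  nt : ¬ Twn R
  fam : Fam R s e

end Pool.Agent.CRN
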