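import Pool.Agent.CRN.All

/-!
MP_1bb14d_al: critical rings which are not nilpotent in the variety of rings given by the identity
`x^3 = x^n`, `n ≥ 4`.
-/

namespace Pool.Agent.CRN.NonNilpotent

open Pool.Agent.CRR Pool.Agent.CRN

/-- Let `n ≥ 4` and let `R` be a finite ring (associative, identity not assumed) which satisfies
`x^3 = x^n` and is not nilpotent.  Let `J` be its radical.  Suppose that `R / J` is not commutative
(`Twn`), or `eRe` is a field for every primitive idempotent `e` (`FC`), or `n` is even, or the order of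
`R` is prime to `n - 3`.  Then `R` is critical if and only if it is isomorphic to one of the following:
`M_2(F)` or `M_3(F)` for a finite field `F`; a ring `[M_2(F) M; 0 D]`, `D = 0` or a field, `M` the least
nonzero ideal (`TriType`), or the opposite of such a ring; a ring with commutative `R / J` which is
a finite field or has a least nonzero ideal and is generated by the fields `e_i R e_i` (`e_i` a maximal
family of orthogonal idempotents) together with one element of some `e_i R e_j`, `i ≠ j` (`TyA`), or two
elements `z`, `z'` of different Peirce components with `z z' ≠ 0` (`TyB`), or, for one field `eRe`,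
elements `z ∈ e R (1 - e)`, `a_0, ..., a_(k-1) ∈ (1 - e) R (1 - e)` with `z a_0 ... a_(k-1) ≠ 0` (`TyC`; or
the opposite of such a ring), or elements `b ∈ (1 - e) R e`, `c ∈ e R (1 - e)`, `a_0, ..., a_(k-1)` with
`a_(k-1) ... a_0 b c ≠ 0` (`TyD`). -/
theorem result (n : ℕ) (hn : 4 ≤ n) (R : Type) [NonUnitalRing R] [Finite R] (hM : InM n R)
    (h0 : ∃ g : R, g * g = g ∧ g ≠ 0)
    (h1 : Twn R ∨ FC R ∨ Even n ∨ (Nat.card R).Coprime (n - 3)) :
    Critical R ↔ MatType R 2 ∨ MatType R 3 ∨ TriType R ∨ TriType Rᵐᵒᵖ ∨
      (¬ Twn R ∧ (MatType R 1 ∨ TyA R ∨ TyB R ∨ TyC R ∨ TyC Rᵐᵒᵖ ∨ TyD R)) :=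
  main n hn R hM h0 h1

end Pool.Agent.CRN.NonNilpotent
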