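import Pool.Agent.CRN.St

/-!
Campaign CRN, module Twd (helper56): matrix units of size 2, the two off-diagonal ideals.
-/

set_option autoImplicit false

namespace Pool.Agent.CRN

open Pool.Agent.CRR

section

variable {R : Type} [NonUnitalRing R]

def TwdM (E : R) : AddSubgroup R where
  carrier := {x | E * x = x ∧ x * E = 0}
  zero_mem' := by simp
  add_mem' := by
    rintro a b ⟨h1, h2⟩ ⟨h3, h4⟩
    exact ⟨by rw [mul_add, h1, h3], by rw [add_mul, h2, h4, add_zero]⟩
  neg_mem' := by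
    rintro a ⟨h1, h2⟩
    exact ⟨by rw [mul_neg, h1], by rw [neg_mul, h2, neg_zero]⟩

def TwdL (E : R) : AddSubgroup R where
  carrier := {x | E * x = 0 ∧ x * E = x}
  zero_mem' := by simp
  add_mem' := by
    rintro a b ⟨h1, h2⟩ ⟨h3, h4⟩
    exact ⟨by rw [mul_add, h1, h3, add_zero], by rw [add_mul, h2, h4]⟩
  neg_mem' := by
    rintro a ⟨h1, h2⟩
    exact ⟨by rw [mul_neg, h1, neg_zero], by rw [neg_mul, h2]⟩

def TwdA (E : R) : AddSubgroup R where
  carrier := {x | E * x = x ∧ x * E = x}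
  zero_mem' := by simp
  add_mem' := by
    rintro a b ⟨h1, h2⟩ ⟨h3, h4⟩
    exact ⟨by rw [mul_add, h1, h3], by rw [add_mul, h2, h4]⟩
  neg_mem' := by
    rintro a ⟨h1, h2⟩
    exact ⟨by rw [mul_neg, h1], by rw [neg_mul, h2]⟩

def TwdD (E : R) : AddSubgroup R where
  carrier := {x | E * x = 0 ∧ x * E = 0}
  zero_mem' := by simp
  add_mem' := by
    rintro a b ⟨h1, h2⟩ ⟨h3, h4⟩
    exact ⟨by rw [mul_add, h1, h3, add_zero], by rw [add_mul, h2, h4, add_zero]⟩
  neg_mem' := by
    rintro a ⟨h1, h2⟩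
    exact ⟨by rw [mul_neg, h1, neg_zero], by rw [neg_mul, h2, neg_zero]⟩

/-- two nonzero ideals meet -/
theorem TwdS {H I J : AddSubgroup R} (hH : Lst R H) (hI : Idl R I) (hJ : Idl R J)
    (h : ∀ x ∈ I, x ∈ J → x = 0) : I = ⊥ ∨ J = ⊥ := by
  by_contra hc
  push Not at hc
  apply hH.2.1
  rw [eq_bot_iff]
  intro x hx
  exact h x (hH.2.2 I hI hc.1 hx) (hH.2.2 J hJ hc.2 hx)

theorem TwdIM {E : R} (hE : E * E = E)
    (h : ∀ m l : R, E * m = m → m * E = 0 → E * l = 0 → l * E = l → m * l = 0 ∧ l * m = 0) :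
    Idl R (TwdM E) := by
  rintro r x ⟨h1, h2⟩
  have hl1 : E * (r * E - E * r * E) = 0 := by
    rw [mul_sub, ← mul_assoc, ← mul_assoc, ← mul_assoc, hE, sub_self]
  have hl2 : (r * E - E * r * E) * E = r * E - E * r * E := by
    rw [sub_mul, mul_assoc, mul_assoc (E * r), hE]
  obtain ⟨h3, h4⟩ := h x _ h1 h2 hl1 hl2
  constructor
  · constructor
    · show E * (r * x) = r * x
      rw [sub_mul, mul_assoc, mul_assoc (E * r), h1, mul_assoc] at h4
      exact (sub_eq_zero.1 h4).symm
    · show r * x * E = 0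
      rw [mul_assoc, h2, mul_zero]
  · constructor
    · show E * (x * r) = x * r
      rw [← mul_assoc, h1]
    · show x * r * E = 0
      rw [mul_sub, ← mul_assoc, ← mul_assoc, ← mul_assoc, h2, zero_mul, zero_mul, sub_zero] at h3
      exact h3

theorem TwdIL {E : R} (hE : E * E = E)
    (h : ∀ m l : R, E * m = m → m * E = 0 → E * l = 0 → l * E = l → m * l = 0 ∧ l * m = 0) :
    Idl R (TwdL E) := by
  rintro r x ⟨h1, h2⟩
  have hm1 : E * (E * r - E * r * E) = E * r - E * r * E := by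
    rw [mul_sub, ← mul_assoc, ← mul_assoc, ← mul_assoc, hE]
  have hm2 : (E * r - E * r * E) * E = 0 := by
    rw [sub_mul, mul_assoc (E * r), hE, sub_self]
  obtain ⟨h3, h4⟩ := h _ x hm1 hm2 h1 h2
  constructor
  · constructor
    · show E * (r * x) = 0
      rw [sub_mul, mul_assoc (E * r), h1, mul_zero, sub_zero, mul_assoc] at h3
      exact h3
    · show r * x * E = r * x
      rw [mul_assoc, h2]
  · constructor
    · show E * (x * r) = 0
      rw [← mul_assoc, h1, zero_mul]
    · show x * r * E = x * r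
      rw [mul_sub, ← mul_assoc, ← mul_assoc, ← mul_assoc, h2] at h4
      exact (sub_eq_zero.1 h4).symm

end

/-- **TWD** -/
theorem thm_Twd (hMat : St_Mat) : St_Twd := by
  intro R _ _ hH e f u v hM hF hR
  obtain ⟨H, hH⟩ := hH
  have hE : (e + f) * (e + f) = e + f := by
    rw [mul_add, add_mul, add_mul, hM.ee, hM.ff, hM.ef, hM.fe, add_zero, zero_add]
  have hR' : ∀ m l : R, (e + f) * m = m → m * (e + f) = 0 → (e + f) * l = 0 → l * (e + f) = l →
      m * l = 0 ∧ l * m = 0 := by
    intro m l h1 h2 h3 h4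
    obtain ⟨h5, h6, -, -⟩ := hR m l 0 h1 h2 h3 h4 (mul_zero _) (zero_mul _) (mul_zero _)
    exact ⟨h5, h6⟩
  constructor
  · rcases TwdS hH (TwdIM hE hR') (TwdIL hE hR') (by
      rintro x ⟨h1, h2⟩ ⟨h3, h4⟩
      exact h1.symm.trans h3) with h | h
    · left
      intro m h1 h2
      have h3 : m ∈ TwdM (e + f) := ⟨h1, h2⟩
      rw [h] at h3
      exact h3
    · right
      intro m h1 h2
      have h3 : m ∈ TwdL (e + f) := ⟨h1, h2⟩
      rw [h] at h3
      exact h3
  · intro h1 h2
    have h3 : ∀ r : R, (e + f) * r = (e + f) * r * (e + f) := by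
      intro r
      refine sub_eq_zero.1 (h1 _ ?_ ?_)
      · rw [mul_sub, ← mul_assoc, ← mul_assoc, ← mul_assoc, hE]
      · rw [sub_mul, mul_assoc ((e + f) * r), hE, sub_self]
    have h4 : ∀ r : R, r * (e + f) = (e + f) * r * (e + f) := by
      intro r
      refine sub_eq_zero.1 (h2 _ ?_ ?_)
      · rw [mul_sub, ← mul_assoc, ← mul_assoc, ← mul_assoc, hE, sub_self]
      · rw [sub_mul, mul_assoc, mul_assoc ((e + f) * r), hE]
    have h5 : ∀ r : R, (e + f) * r = r * (e + f) := fun r => (h3 r).trans (h4 r).symm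
    have hA : Idl R (TwdA (e + f)) := by
      rintro r x ⟨h6, h7⟩
      refine ⟨⟨?_, ?_⟩, ⟨?_, ?_⟩⟩
      · show (e + f) * (r * x) = r * x
        rw [← mul_assoc, h5, mul_assoc, h6]
      · show r * x * (e + f) = r * x
        rw [mul_assoc, h7]
      · show (e + f) * (x * r) = x * r
        rw [← mul_assoc, h6]
      · show x * r * (e + f) = x * r
        rw [mul_assoc, ← h5, ← mul_assoc, h7]
    have hD : Idl R (TwdD (e + f)) := by
      rintro r x ⟨h6, h7⟩
      refine ⟨⟨?_, ?_⟩, ⟨?_, ?_⟩⟩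
      · show (e + f) * (r * x) = 0
        rw [← mul_assoc, h5, mul_assoc, h6, mul_zero]
      · show r * x * (e + f) = 0
        rw [mul_assoc, h7, mul_zero]
      · show (e + f) * (x * r) = 0
        rw [← mul_assoc, h6, zero_mul]
      · show x * r * (e + f) = 0
        rw [mul_assoc, ← h5, ← mul_assoc, h7, zero_mul]
    have hid : ∀ r : R, (e + f) * r = r := by
      rcases TwdS hH hA hD (by
        rintro x ⟨h6, h7⟩ ⟨h8, h9⟩
        exact h6.symm.trans h8) with h | h
      · exfalso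
        have h6 : e ∈ TwdA (e + f) := by
          refine ⟨?_, ?_⟩
          · show (e + f) * e = e
            rw [add_mul, hM.ee, hM.fe, add_zero]
          · show e * (e + f) = e
            rw [mul_add, hM.ee, hM.ef, add_zero]
        rw [h] at h6
        exact hM.ne h6
      · intro r
        have h6 : r - (e + f) * r ∈ TwdD (e + f) := by
          refine ⟨?_, ?_⟩
          · show (e + f) * (r - (e + f) * r) = 0
            rw [mul_sub, ← mul_assoc, hE, sub_self]
          · show (r - (e + f) * r) * (e + f) = 0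
            rw [sub_mul, ← h4, sub_self]
        rw [h] at h6
        exact (sub_eq_zero.1 (h6 : r - (e + f) * r = 0)).symm
    have ev : e * v = 0 := by rw [← hM.fv, ← mul_assoc, hM.ef, zero_mul]
    have ue : u * e = 0 := by rw [← hM.uf, mul_assoc, hM.fe, mul_zero]
    have uu : u * u = 0 := by
      nth_rewrite 1 [← hM.uf]
      rw [mul_assoc, ← hM.eu, ← mul_assoc f, hM.fe, zero_mul, mul_zero]
    have vv : v * v = 0 := by
      nth_rewrite 1 [← hM.ve]
      rw [mul_assoc, ev, mul_zero]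
    have vf : v * f = 0 := by rw [← hM.ve, mul_assoc, hM.ef, mul_zero]
    have fu : f * u = 0 := by rw [← hM.eu, ← mul_assoc, hM.fe, zero_mul]
    obtain ⟨F, i1, i2, φ, hφ, hφ1, hφs⟩ := hMat R 2 ![![e, u], ![v, f]] 0 (by
      intro i j l m
      fin_cases i <;> fin_cases j <;> fin_cases l <;> fin_cases m <;>
        simp [hM.ee, hM.ff, hM.ef, hM.fe, hM.eu, hM.uf, hM.fv, hM.ve, hM.uv, hM.vu, ev, ue, uu, vv,
          vf, fu]) hF
    have hφ1' : φ 1 = e + f := by
      rw [hφ1, Fin.sum_univ_two]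
      rfl
    refine ⟨F, i1, i2, ⟨(RingEquiv.ofBijective φ ⟨hφ, fun x => ?_⟩).symm⟩⟩
    refine hφs x ?_ ?_
    · rw [hφ1', hid]
    · rw [hφ1', ← h5, hid]

end Pool.Agent.CRN
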